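import Pool.Agent.Lib.MP_1a91b9_ntQ.C.Mu

/-!
# The function whose square is `X ∘ (1 - i)`, and the translation by the kernel

For `P = (x, y)`, `x ≠ 0`: `X(mu P) = z (x² - d) / (2 x) = (y / ((1 - z) x))²`.
-/

set_option autoImplicit false

namespace Pool.Agent.Lib.MP_1a91b9_ntQ.C

open WeierstrassCurve
open scoped Classical

/-- The function `y / ((1 - z) x)`. -/
noncomputable def cfn {F : Type*} [Field F] {W : Affine F} (z : F) : W.Point → F
  | .zero => 0
  | .some x y _ => y / ((1 - z) * x)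

variable {F : Type*} [Field F] [CharZero F] {W : Affine F} {z d : F}

theorem mu_some (h : IsQ W z d) {x y : F} (hn : W.Nonsingular x y) (hX : x ≠ 0) :
    ∃ (x' y' : F) (hn' : W.Nonsingular x' y'), mu h (.some x y hn) = .some x' y' hn' ∧
      x' = ((1 + z) * y / (2 * x)) ^ 2 ∧
      y' = -((1 + z) * y / (2 * x) * (((1 + z) * y / (2 * x)) ^ 2 - x) + y) := by
  have hz := h.hz
  have ha1 : W.a₁ = 0 := by rw [h.eq, cq]
  have ha2 : W.a₂ = 0 := by rw [h.eq, cq]
  have ha3 : W.a₃ = 0 := by rw [h.eq, cq]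
  obtain ⟨hn2, hom⟩ := omP_some h x y hn
  have hne : x ≠ -x := by
    intro h0
    have h1 : 2 * x = 0 := by linear_combination h0
    exact hX ((mul_eq_zero.1 h1).resolve_left two_ne_zero)
  have hmu : mu h (.some x y hn) = Affine.Point.some x y hn + -Affine.Point.some (-x) (z * y) hn2 := by
    rw [mu_apply, hom, sub_eq_add_neg]
  rw [Affine.Point.neg_some, Affine.Point.add_of_X_ne hne] at hmu
  have hs : W.slope x (-x) y (W.negY (-x) (z * y)) = (1 + z) * y / (2 * x) := by
    rw [Affine.slope_of_X_ne hne, negY_eq h]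
    congr 1 <;> ring
  refine ⟨_, _, _, hmu, ?_, ?_⟩
  · rw [hs, Affine.addX, ha1, ha2]
    ring
  · rw [hs, Affine.addY, Affine.negAddY, negY_eq h, Affine.addX, ha1, ha2]
    ring

/-- A point which is not killed by `mu`. -/
theorem mu_ne_cases (h : IsQ W z d) (P : W.Point) (hP : mu h P ≠ 0) :
    ∃ (x y : F) (hn : W.Nonsingular x y), P = .some x y hn ∧ x ≠ 0 := by
  cases P with
  | zero =>
    exfalso
    exact hP (map_zero (mu h))
  | some x y hn =>
    refine ⟨x, y, hn, rfl, fun hX => hP ?_⟩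
    rw [mu_apply, (omP_fixed h hn).2 hX, sub_self]

theorem slope_eq (h : IsQ W z d) {x y : F} (hX : x ≠ 0) :
    (1 + z) * y / (2 * x) = y / ((1 - z) * x) := by
  have hz := h.hz
  rw [div_eq_div_iff (mul_ne_zero two_ne_zero hX) (mul_ne_zero h.z1 hX)]
  linear_combination (-x * y) * hz

/-- the abscissa of `mu P` -/
theorem mu_x (h : IsQ W z d) {x y : F} (hn : W.Nonsingular x y) (hX : x ≠ 0) :
    ∃ (x' y' : F) (hn' : W.Nonsingular x' y'), mu h (.some x y hn) = .some x' y' hn' ∧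
      x' = z * (x ^ 2 - d) / (2 * x) := by
  obtain ⟨x', y', hn', h1, h2, -⟩ := mu_some h hn hX
  refine ⟨x', y', hn', h1, ?_⟩
  have hE := (h.nons x y).1 hn
  rw [h2, div_pow, div_eq_div_iff (pow_ne_zero 2 (mul_ne_zero two_ne_zero hX))
    (mul_ne_zero two_ne_zero hX)]
  linear_combination (2 * x * (1 + z) ^ 2) * hE + (2 * x * (x ^ 3 - d * x)) * h.hz

theorem cfn_sq (h : IsQ W z d) (P : W.Point) {x y : F}
    (hn : W.Nonsingular x y) (hP : mu h P = .some x y hn) : cfn z P ^ 2 = x := by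
  obtain ⟨X, Y, hXY, rfl, hX⟩ := mu_ne_cases h P (by
    rw [hP]
    exact Affine.Point.some_ne_zero _)
  obtain ⟨x', y', hn', hmu, hx', -⟩ := mu_some h hXY hX
  rw [hmu] at hP
  injection hP with hx1 hy1
  rw [← hx1, hx', slope_eq h hX]
  rfl

theorem add_tq (h : IsQ W z d) {x y : F} (hn : W.Nonsingular x y) (hX : x ≠ 0) :
    ∃ (hn' : W.Nonsingular (-d / x) (d * y / x ^ 2)),
      (.some x y hn : W.Point) + tq h = .some (-d / x) (d * y / x ^ 2) hn' := by
  have ha1 : W.a₁ = 0 := by rw [h.eq, cq]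
  have ha2 : W.a₂ = 0 := by rw [h.eq, cq]
  have hE := (h.nons x y).1 hn
  have key : ∀ (x' y' : F) (h' : W.Nonsingular x' y'), x' = -d / x → y' = d * y / x ^ 2 →
      (.some x y hn : W.Point) + tq h = .some x' y' h' →
      ∃ hn', (.some x y hn : W.Point) + tq h = .some (-d / x) (d * y / x ^ 2) hn' := by
    intro x' y' hq hx' hy' h3
    subst hx'
    subst hy'
    exact ⟨hq, h3⟩
  have hs : W.slope x 0 y 0 = y / x := by
    rw [Affine.slope_of_X_ne hX, sub_zero, sub_zero]
  refine key _ _ _ ?_ ?_ (Affine.Point.add_of_X_ne hX)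
  · rw [hs, Affine.addX, ha1, ha2]
    field_simp
    linear_combination hE
  · rw [hs, Affine.addY, Affine.negAddY, negY_eq h, Affine.addX, ha1, ha2]
    field_simp
    linear_combination (-y) * hE

theorem cfn_add_tq (h : IsQ W z d) (P : W.Point)
    (hP : mu h P ≠ 0) : cfn z (P + tq h) = -cfn z P := by
  obtain ⟨x, y, hn, rfl, hX⟩ := mu_ne_cases h P hP
  obtain ⟨hn', e1⟩ := add_tq h hn hX
  rw [e1]
  change d * y / x ^ 2 / ((1 - z) * (-d / x)) = -(y / ((1 - z) * x))
  have hd := h.hd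
  have hz1 := h.z1
  field_simp

theorem cfn_add (h : IsQ W z d) (P R : W.Point)
    (hP : mu h P ≠ 0) (hR : mu h R = 0) : cfn z (P + R) = ch F R * cfn z P := by
  rcases mu_ker_all h R hR with rfl | rfl
  · rw [add_zero, ch_zero, one_mul]
  · rw [cfn_add_tq h P hP, ch_tq]
    ring

end Pool.Agent.Lib.MP_1a91b9_ntQ.C
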