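import Pool.Agent.Lib.MP_1a91b9_ntQ.C.Tam4

/-!
# MP_1a91b9_nt (quartic twists), Tamagawa numbers: kind (III) at `1 + i`

`D = 1 + 2 i` modulo `4`: `tam = 1`; the reduction is good if `D = 1 ± 2 i` modulo `8`.
-/

set_option autoImplicit false
set_option linter.unusedSectionVars false

namespace Pool.Agent.Lib.MP_1a91b9_ntQ.C

open NumberField IsDedekindDomain WithZero WeierstrassCurve Pool.Agent.Lib.MP_1a91b9_ntQ
open Pool.Agent.Lib.MP_1a91b9_ntH.C (nsSet nsG tam_def)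
open Pool.Agent.Lib.MP_1a91b9_ntT.S9 (tam minModel minChange minModel_isMinimal)
open scoped Classical

/-- The change of variables to a model with good reduction. -/
theorem good_change {L : Type*} [Field L] {j D d : L} (h2 : (2 : L) ≠ 0) (hj : j ^ 2 = -1)
    (hl : (1 + j : L) ≠ 0) (hD : D = 1 + 2 * j + 8 * d) :
    (⟨Units.mk0 (1 + j) hl, 1, 1, 1 - j⟩ : VariableChange L) • wq D =
      ⟨1 - j, -j, -1, 2 * d, -j * d⟩ := by
  have hi : ((Units.mk0 (1 + j) hl)⁻¹ : Lˣ) = ((1 - j) / 2 : L) := by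
    rw [Units.val_inv_eq_inv_val, Units.val_mk0, inv_eq_one_div, div_eq_div_iff hl h2]
    linear_combination hj
  have p2 : ((1 - j) / 2 : L) ^ 2 = -j / 2 := by
    field_simp
    linear_combination hj
  have p3 : ((1 - j) / 2 : L) ^ 3 = -(1 + j) / 4 := by
    rw [pow_succ, p2]
    have h4 : (4 : L) = 2 * 2 := by norm_num
    rw [h4]
    field_simp
    linear_combination hj
  have p4 : ((1 - j) / 2 : L) ^ 4 = -1 / 4 := by
    have e : ((1 - j) / 2 : L) ^ 4 = (((1 - j) / 2 : L) ^ 2) ^ 2 := by ring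
    have h4 : (4 : L) = 2 * 2 := by norm_num
    rw [e, p2, h4]
    field_simp
    linear_combination hj
  have p6 : ((1 - j) / 2 : L) ^ 6 = j / 8 := by
    have e : ((1 - j) / 2 : L) ^ 6 = (((1 - j) / 2 : L) ^ 4) * ((1 - j) / 2 : L) ^ 2 := by ring
    have h4 : (4 : L) = 2 * 2 := by norm_num
    have h8 : (8 : L) = 2 * 2 * 2 := by norm_num
    rw [e, p2, p4, h4, h8]
    field_simp
  have h40 : (4 : L) ≠ 0 := by
    have h4 : (4 : L) = 2 * 2 := by norm_num
    rw [h4]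
    exact mul_ne_zero h2 h2
  have h80 : (8 : L) ≠ 0 := by
    have h4 : (8 : L) = 2 * 4 := by norm_num
    rw [h4]
    exact mul_ne_zero h2 h40
  ext
  · rw [variableChange_a₁, hi]
    simp only [wq]
    field_simp
    ring
  · rw [variableChange_a₂, hi, p2]
    simp only [wq]
    field_simp
    ring
  · rw [variableChange_a₃, hi, p3]
    simp only [wq]
    rw [div_mul_eq_mul_div, div_eq_iff h40]
    linear_combination 2 * hj
  · rw [variableChange_a₄, hi, p4, hD]
    simp only [wq]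
    rw [div_mul_eq_mul_div, div_eq_iff h40]
    ring
  · rw [variableChange_a₆, hi, p6, hD]
    simp only [wq]
    rw [div_mul_eq_mul_div, div_eq_iff h80]
    linear_combination -j * hj

section

variable {D : 𝓞 K4} {v : HeightOneSpectrum (𝓞 K4)}

/-- good reduction at `1 + i` -/
theorem tam_good_lam {j : v.adicCompletion K4}
    (H : Lm.Hyp (Valued.v : Valuation (v.adicCompletion K4) ℤᵐ⁰) j)
    (hm : Valued.v (algebraMap K4 (v.adicCompletion K4) (D : K4) - (1 + 2 * j)) ≤ exp (-6 : ℤ)) :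
    tam (WD4 D) v = 1 := by
  have hc := charZero4 v
  have hv8 : Valued.v (8 : v.adicCompletion K4) = exp (-6 : ℤ) := by
    have e : (8 : v.adicCompletion K4) = 4 * 2 := by norm_num
    rw [e, map_mul, Lm.v4 H, Lm.v2 H, ← exp_add]
    norm_num
  have h80 : (8 : v.adicCompletion K4) ≠ 0 := by norm_num
  obtain ⟨d, hd, hDd⟩ : ∃ d : v.adicCompletion K4, Valued.v d ≤ (1 : ℤᵐ⁰) ∧
      algebraMap K4 (v.adicCompletion K4) (D : K4) = 1 + 2 * j + 8 * d := by
    refine ⟨(algebraMap K4 (v.adicCompletion K4) (D : K4) - (1 + 2 * j)) / 8, ?_, by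
      field_simp; ring⟩
    rw [map_div₀, hv8]
    exact (div_le_one₀ exp_pos).2 hm
  have hl0 : (1 + j : v.adicCompletion K4) ≠ 0 := by
    intro h0
    have := H.v
    rw [h0, map_zero] at this
    exact exp_ne_zero this.symm
  have hgc := good_change two_ne_zero H.sq hl0 hDd
  have hj1 := Lm.vj H
  have hj1' : Valued.v (1 - j) ≤ (1 : ℤᵐ⁰) := by
    rw [Lm.v1 H]
    exact Lm.e1lt.le
  refine tam_one_of v (WD4 D) ⟨Units.mk0 (1 + j) hl0, 1, 1, 1 - j⟩ ?_ ?_
  · rw [wq_bc, hgc]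
    have h2d : Valued.v (2 * d) ≤ (1 : ℤᵐ⁰) := by
      rw [map_mul]
      exact mul_le_one' (Lm.v2lt H).le hd
    refine ⟨⟨⟨1 - j, hj1'⟩, -⟨j, hj1.le⟩, -1, ⟨2 * d, h2d⟩, -⟨j, hj1.le⟩ * ⟨d, hd⟩⟩, ?_⟩
    ext <;> simp [WeierstrassCurve.map, WeierstrassCurve.baseChange]
  · rw [wq_bc, variableChange_Δ, wq_disc, map_mul, map_pow, Units.val_inv_eq_inv_val, map_inv₀,
      Units.val_mk0, H.v]
    have e64 : (64 : v.adicCompletion K4) * algebraMap K4 (v.adicCompletion K4) (D : K4) ^ 3 =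
        4 * 4 * 4 * algebraMap K4 (v.adicCompletion K4) (D : K4) ^ 3 := by norm_num
    have hD1 : Valued.v (algebraMap K4 (v.adicCompletion K4) (D : K4)) = (1 : ℤᵐ⁰) := by
      have e : algebraMap K4 (v.adicCompletion K4) (D : K4) = 1 + 2 * (j + 4 * d) := by
        rw [hDd]
        ring
      have h3 : Valued.v (2 * (j + 4 * d)) < (1 : ℤᵐ⁰) := by
        rw [map_mul]
        refine mul_lt_one_of_lt_of_le (Lm.v2lt H) ((Valuation.map_add _ _ _).trans (max_le hj1.le ?_))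
        rw [map_mul, Lm.v4 H]
        refine mul_le_one' ?_ hd
        rw [← exp_zero, exp_le_exp]
        norm_num
      rw [e, Valuation.map_add_eq_of_lt_left, map_one]
      rw [map_one]
      exact h3
    rw [e64, map_mul, map_mul, map_mul, map_pow, hD1, Lm.v4 H, one_pow, mul_one, ← exp_neg,
      ← exp_nsmul, ← exp_add, ← exp_add, ← exp_add, ← exp_zero, exp_inj]
    norm_num

/-- bad reduction at `1 + i` -/
theorem tam_bad_lam {j : v.adicCompletion K4}
    (H : Lm.Hyp (Valued.v : Valuation (v.adicCompletion K4) ℤᵐ⁰) j)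
    (hD : Valued.v (algebraMap K4 (v.adicCompletion K4) (D : K4)) = (1 : ℤᵐ⁰))
    (hm : Valued.v (algebraMap K4 (v.adicCompletion K4) (D : K4) - (5 + 2 * j)) ≤ exp (-6 : ℤ))
    (hu : Valued.v ((minChange (WD4 D) v).u : v.adicCompletion K4) = (1 : ℤᵐ⁰)) :
    tam (WD4 D) v = 1 := by
  have hc := charZero4 v
  rw [tam_eq_hu v (WD4 D) (wq_int D v) hu, wq_bc]
  exact Lm.index_one H hD (Lm.no_III H hm)

/-- divisibility by `8` -/
theorem eight_val (hv : lam ∈ v.asIdeal) {x : 𝓞 K4} (h : 8 ∣ x) :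
    v.valuation K4 (x : K4) ≤ exp (-6 : ℤ) := by
  have h6 : lam ^ 6 ∣ x := by
    rw [lam_pow6]
    obtain ⟨t, rfl⟩ := h
    exact ⟨iO * t, by linear_combination (8 * t) * iO_sq⟩
  have := (val_le_pow' lam_prime hv (x := x) 6).2 h6
  simpa using this

theorem lam_not_dvd_of_four {c : 𝓞 K4} (h : 4 ∣ D - c) (hc : ¬ lam ∣ c) : ¬ lam ∣ D := by
  intro hl
  apply hc
  have h4 : lam ∣ D - c := by
    refine dvd_trans ?_ h
    have e : (4 : 𝓞 K4) = 2 * 2 := by norm_num
    rw [e]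
    exact lam_dvd_two.mul_right 2
  have := dvd_sub hl h4
  rwa [sub_sub_cancel] at this

theorem cases_III (h : 4 ∣ D - (1 + 2 * iO)) :
    (8 ∣ D - (1 + 2 * iO) ∨ 8 ∣ D - (1 - 2 * iO)) ∨
      (8 ∣ D - (5 + 2 * iO) ∨ 8 ∣ D - (5 - 2 * iO)) := by
  obtain ⟨e, he⟩ := h
  have hc := eq_cp e
  obtain ⟨a, ha⟩ : ∃ a : ℤ, a = (cp e).1 := ⟨_, rfl⟩
  obtain ⟨b, hb⟩ : ∃ b : ℤ, b = (cp e).2 := ⟨_, rfl⟩
  rw [← ha, ← hb] at hc
  rcases Int.even_or_odd' a with ⟨a', h1 | h1⟩ <;> rcases Int.even_or_odd' b with ⟨b', h2 | h2⟩ <;>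
    rw [h1, h2] at hc <;> push_cast at hc
  · left; left
    exact ⟨a' + b' * iO, by linear_combination he + 4 * hc⟩
  · left; right
    exact ⟨a' + (b' + 1) * iO, by linear_combination he + 4 * hc⟩
  · right; left
    exact ⟨a' + b' * iO, by linear_combination he + 4 * hc⟩
  · right; right
    exact ⟨a' + (b' + 1) * iO, by linear_combination he + 4 * hc⟩

/-- **Kind (III).** -/
theorem tam4_lam_III (h : 4 ∣ D - (1 + 2 * iO)) (hv : lam ∈ v.asIdeal)
    (hu : (8 ∣ D - (5 + 2 * iO) ∨ 8 ∣ D - (5 - 2 * iO)) →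
      Valued.v ((minChange (WD4 D) v).u : v.adicCompletion K4) = (1 : ℤᵐ⁰)) :
    tam (WD4 D) v = 1 := by
  have H := hyp_lam hv
  have hD : Valued.v (algebraMap K4 (v.adicCompletion K4) (D : K4)) = (1 : ℤᵐ⁰) := by
    rw [hval]
    apply val_one'
    intro hmem
    rw [ideal_eq' lam_prime hv, Ideal.mem_span_singleton] at hmem
    refine lam_not_dvd_of_four h ?_ hmem
    rw [lam_dvd_iff]
    have e3 : (1 + 2 * iO : 𝓞 K4) = ((1 : ℤ) : 𝓞 K4) + ((2 : ℤ) : 𝓞 K4) * iO := by push_cast; ring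
    rw [e3, cp_coords]
    norm_num
  have coe : ∀ n : ℕ, ∀ x : 𝓞 K4, (((n : 𝓞 K4) + x : 𝓞 K4) : K4) = (n : K4) + (x : K4) := by
    intro n x
    have e2 : (((n : 𝓞 K4) + x : 𝓞 K4) : K4) = algebraMap (𝓞 K4) K4 ((n : 𝓞 K4) + x) := rfl
    rw [e2, map_add, map_natCast]
  have ci : ((2 * iO : 𝓞 K4) : K4) = 2 * iK := by
    have e2 : ((2 * iO : 𝓞 K4) : K4) = algebraMap (𝓞 K4) K4 (2 * iO) := rfl
    rw [e2, map_mul, map_ofNat]
    rfl
  have key : ∀ (n : ℕ) (s : ℤ), 8 ∣ D - ((n : 𝓞 K4) + (s : 𝓞 K4) * (2 * iO)) →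
      Valued.v (algebraMap K4 (v.adicCompletion K4) (D : K4) -
        ((n : v.adicCompletion K4) + 2 * ((s : v.adicCompletion K4) *
          algebraMap K4 (v.adicCompletion K4) iK))) ≤ exp (-6 : ℤ) := by
    intro n s h8
    have h1 := eight_val hv h8
    rw [← val_sub] at h1
    have e : ((((n : 𝓞 K4) + (s : 𝓞 K4) * (2 * iO)) : 𝓞 K4) : K4) = (n : K4) + (s : K4) * (2 * iK) := by
      have e2 : ((((n : 𝓞 K4) + (s : 𝓞 K4) * (2 * iO)) : 𝓞 K4) : K4) =
        algebraMap (𝓞 K4) K4 ((n : 𝓞 K4) + (s : 𝓞 K4) * (2 * iO)) := rfl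
      rw [e2, map_add, map_mul, map_natCast, map_intCast]
      congr 2
    rw [e, map_add, map_mul, map_natCast, map_intCast, map_mul, map_ofNat] at h1
    have e5 : ∀ a b c : v.adicCompletion K4, a + b * (2 * c) = a + 2 * (b * c) := by
      intro a b c
      ring
    rwa [e5] at h1
  rcases cases_III h with (h1 | h1) | h1
  · refine tam_good_lam H ?_
    have := key 1 1 (by push_cast; rwa [one_mul])
    push_cast at this
    rwa [one_mul] at this
  · refine tam_good_lam (Lm.symm H) ?_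
    have := key 1 (-1) (by push_cast; rwa [neg_one_mul, ← sub_eq_add_neg])
    push_cast at this
    rwa [neg_one_mul] at this
  · have hu' := hu h1
    rcases h1 with h1 | h1
    · refine tam_bad_lam H hD ?_ hu'
      have := key 5 1 (by push_cast; rwa [one_mul])
      push_cast at this
      rwa [one_mul] at this
    · refine tam_bad_lam (Lm.symm H) hD ?_ hu'
      have := key 5 (-1) (by push_cast; rwa [neg_one_mul, ← sub_eq_add_neg])
      push_cast at this
      rwa [neg_one_mul] at this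

end

end Pool.Agent.Lib.MP_1a91b9_ntQ.C
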