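import Pool.Agent.Lib.MP_1a91b9_ntQ.C.Row4

/-!
# MP_1a91b9_nt (TwistDensity), quartic twists, part C: the place `lam`
-/

set_option autoImplicit false
set_option linter.unusedSectionVars false
set_option linter.unusedVariables false

namespace Pool.Agent.Lib.MP_1a91b9_ntQ.C

open NumberField Finset WithZero IsDedekindDomain Pool.Agent.Lib.MP_1a91b9_nuT
open Pool.Agent.Lib.MP_1a91b9_ntQ
open Pool.Agent.Lib.MP_1a91b9_ntH.C (Sq exists_nu isSquare_exp nu_one)

noncomputable section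

/-- the valuation of `lam` -/
def nuL : Valuation K ℤᵐ⁰ := (pv lam prime_lam).valuation K

theorem iK_sq' : ((iO : 𝓞 K) : K) ^ 2 = -1 := by
  have h := congrArg (fun x : 𝓞 K => (x : K)) iO_sq
  push_cast at h
  exact h

theorem lam_coe : ((lam : 𝓞 K) : K) = 1 + (iO : K) := by
  have h : lam = 1 + iO := rfl
  rw [h]
  push_cast
  rfl

theorem nuL_lam : nuL (lam : K) = exp (-1) := pv_self lam prime_lam

theorem nuL_i : nuL ((iO : 𝓞 K) : K) = 1 := nu_i iK_sq'

theorem nuL_two : nuL 2 = exp (-2) := by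
  have h := congrArg (fun x : 𝓞 K => nuL (x : K)) lam_sq
  have e : ((2 * iO : 𝓞 K) : K) = 2 * (iO : K) := by
    push_cast
    rfl
  have e2 : ((lam ^ 2 : 𝓞 K) : K) = (lam : K) ^ 2 := by
    push_cast
    rfl
  rw [e, e2, map_pow, map_mul, nuL_i, mul_one, nuL_lam, ← exp_nsmul] at h
  rw [← h]
  rfl

theorem nuL_O (x : 𝓞 K) : nuL (x : K) ≤ 1 := (pv lam prime_lam).valuation_le_one x

theorem lam_dvd_sub {n d : 𝓞 K} (hn : ¬ lam ∣ n) (hd : ¬ lam ∣ d) : lam ∣ n - d := by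
  rw [lam_dvd_iff'] at hn hd ⊢
  have h1 : (cp (n - d)).1 = (cp n).1 - (cp d).1 := by
    have := congrArg Prod.fst (map_sub coE n d)
    exact this
  have h2 : (cp (n - d)).2 = (cp n).2 - (cp d).2 := by
    have := congrArg Prod.snd (map_sub coE n d)
    exact this
  rw [h1, h2]
  omega

/-- the residue field has two elements -/
theorem nuL_res (x : K) (hx : nuL x = 1) : nuL (x - 1) < 1 := by
  obtain ⟨n, ⟨d, hd⟩, hnd⟩ :=
    HeightOneSpectrum.exists_primeCompl_mul_eq_of_integer (pv lam prime_lam) x hx.le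
  have hnd' : x * (d : K) = (n : K) := hnd
  have hd' : ¬ lam ∣ d := fun hh => hd (Ideal.mem_span_singleton.2 hh)
  have hvd : nuL (d : K) = 1 := pv_one prime_lam hd'
  have hn : ¬ lam ∣ n := by
    intro hh
    have h1 : nuL (n : K) < 1 := (pv_lt prime_lam).2 hh
    rw [← hnd', map_mul, hx, hvd, one_mul] at h1
    exact lt_irrefl _ h1
  have h2 : nuL ((n - d : 𝓞 K) : K) < 1 := (pv_lt prime_lam).2 (lam_dvd_sub hn hd')
  have e : ((n - d : 𝓞 K) : K) = (x - 1) * (d : K) := by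
    have e1 : ((n - d : 𝓞 K) : K) = (n : K) - (d : K) := by
      push_cast
      rfl
    rw [e1, ← hnd']
    ring
  rwa [e, map_mul, hvd, mul_one] at h2

theorem nuL_le_pow {x : 𝓞 K} (n : ℕ) : nuL (x : K) ≤ exp (-(n : ℤ)) ↔ lam ^ n ∣ x :=
  pv_le_pow prime_lam n

theorem C4_in4 {y : 𝓞 K} (hy : In4 y) {j : ZMod 2}
    (h : C4 nuL ((iO ^ j.val * y : 𝓞 K) : K)) : j = 0 ∧ aa y = 0 := by
  have h4 := nu_four4_le nuL_two
  have hj : j = 0 := by
    by_contra hj
    have h0 : ∀ e : ZMod 2, e ≠ 0 → e = 1 := by decide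
    have h1 : ((1 : ZMod 2)).val = 1 := rfl
    obtain ⟨t, ht⟩ := hy
    have e : ((iO ^ j.val * y : 𝓞 K) : K) =
        (iO : K) ^ 1 * (1 + (1 + (iO : K)) ^ 2 * ((lam : K) * (t : K))) := by
      have e1 : y = 1 + lam ^ 2 * (lam * t) := by linear_combination ht
      rw [e1, h0 j hj, h1, ← lam_coe]
      push_cast
      rfl
    rw [e] at h
    have h5 : nuL ((lam : K) * (t : K)) ≤ 1 := nu_mul_le (nuL_O _) (nuL_O _)
    exact absurd (even_of_C4 iK_sq' nuL_two nuL_res h5 h) (by decide)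
  refine ⟨hj, ?_⟩
  rw [hj, ZMod.val_zero, pow_zero, one_mul] at h
  obtain ⟨b, hb, hb'⟩ := h
  have hvy : nuL (y : K) = 1 := pv_one prime_lam hy.not_lam
  have h1 : nuL ((y : K) / b ^ 2) = 1 := by
    have := nuL.map_one_add_of_lt (x := (y : K) / b ^ 2 - 1) (lt_of_le_of_lt hb' h4)
    rwa [add_sub_cancel] at this
  have hb0 : nuL b ≠ 0 := (Valuation.ne_zero_iff _).2 hb
  have hvb : nuL b = 1 := by
    rw [map_div₀, map_pow, hvy, div_eq_one_iff_eq (pow_ne_zero 2 hb0)] at h1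
    exact (pow_eq_one_iff_of_nonneg zero_le two_ne_zero).1 h1.symm
  obtain ⟨m, t, ht, hbt⟩ := unit4 iK_sq' nuL_two nuL_res hvb
  have hl := nuL_lam
  rw [lam_coe] at hl
  have h11 : nuL (1 : K) ≤ 1 := (map_one nuL).le
  have h5 : nuL (b ^ 2 - (-1) ^ m) ≤ exp (-4) := by
    rw [hbt, sq_unit4 iK_sq']
    have e : (-1) ^ m * (1 + (1 + (iO : K)) ^ 5 * (-(iO : K) * t + (1 + (iO : K)) * t ^ 2)) -
        (-1) ^ m = (-1) ^ m * (1 + (iO : K)) ^ 5 * (-(iO : K) * t + (1 + (iO : K)) * t ^ 2) := by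
      ring
    have hs : nuL (-(iO : K) * t + (1 + (iO : K)) * t ^ 2) ≤ 1 := by
      refine nu_add_le (nu_mul_le ?_ ht) (nu_mul_le (nu_add_le h11 nuL_i.le) ?_)
      · rw [Valuation.map_neg]
        exact nuL_i.le
      · rw [pow_two]
        exact nu_mul_le ht ht
    rw [e, map_mul, map_mul, nu_lpow hl, map_pow, Valuation.map_neg, map_one, one_pow, one_mul]
    calc exp (-((5 : ℕ) : ℤ)) * nuL (-(iO : K) * t + (1 + (iO : K)) * t ^ 2)
        ≤ exp (-((5 : ℕ) : ℤ)) * 1 := by gcongr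
      _ ≤ exp (-4) := by
        rw [mul_one, exp_le_exp]
        norm_num
  have h6 : nuL ((y : K) - b ^ 2) ≤ exp (-4) := by
    have e : (y : K) - b ^ 2 = ((y : K) / b ^ 2 - 1) * b ^ 2 := by field_simp
    rw [e, map_mul, map_pow, hvb, one_pow, mul_one]
    rwa [nu_four4 nuL_two] at hb'
  have h7 : nuL ((y - (-1) ^ m : 𝓞 K) : K) ≤ exp (-((4 : ℕ) : ℤ)) := by
    have e : ((y - (-1) ^ m : 𝓞 K) : K) = ((y : K) - b ^ 2) + (b ^ 2 - (-1) ^ m) := by
      push_cast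
      ring
    rw [e]
    exact (nuL.map_add _ _).trans (max_le h6 h5)
  rw [nuL_le_pow] at h7
  rcases Nat.even_or_odd m with hm | hm
  · rw [hm.neg_one_pow] at h7
    rw [aa_congr hy h7, aa_one]
  · exfalso
    rw [hm.neg_one_pow] at h7
    have h8 : lam ^ 3 ∣ (2 : 𝓞 K) := by
      have h9 : lam ^ 3 ∣ y - -1 := (pow_dvd_pow lam (by norm_num)).trans h7
      have h10 := dvd_sub h9 hy
      have e : y - -1 - (y - 1) = 2 := by ring
      rwa [e] at h10
    have h9 : lam ^ 3 ∣ lam ^ 2 := by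
      rw [lam_sq]
      exact h8.mul_right _
    have h10 := (pow_dvd_pow_iff lam_ne_zero prime_lam.not_isUnit).1 h9
    omega

/-- a class which is a square modulo `4` at `lam` -/
theorem cl_C4 {S : Finset Pg} {j l : ZMod 2} {V : Pg → ZMod 2} {m : K} (hm : m ≠ 0)
    (h : C4 nuL (m ^ 2 * (gp4 S j l V : K))) :
    l = 0 ∧ j = 0 ∧ ∑ q ∈ S, V q * aa q.1 = 0 := by
  have h4 := nu_four4_le nuL_two
  have h' : C4 nuL (gp4 S j l V : K) := by
    refine C4.of_mul_sq hm ?_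
    rwa [mul_comm]
  have hl : l = 0 := by
    by_contra hl
    have h0 : ∀ e : ZMod 2, e ≠ 0 → e = 1 := by decide
    have h1 : ((1 : ZMod 2)).val = 1 := rfl
    have h2 := h'.even h4
    have e : ((gp4 S j l V : 𝓞 K) : K) = (lam : K) * (gp4 S j 0 V : K) := by
      rw [gp4_lam, h0 l hl, h1, pow_one]
      push_cast
      rfl
    rw [e, map_mul, nuL_lam] at h2
    have h3 : nuL (gp4 S j 0 V : K) = 1 := pv_one prime_lam (not_dvd_gp4_lam _ _)
    rw [h3, mul_one] at h2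
    exact absurd (exp_odd h2) (by decide)
  subst hl
  have h5 := C4_in4 (y := ∏ q ∈ S, q.1 ^ (V q).val) (gp4_in4 S V) (j := j) (by
    have e : gp4 S j 0 V = iO ^ j.val * ∏ q ∈ S, q.1 ^ (V q).val := by
      unfold gp4
      rw [ZMod.val_zero, pow_zero, mul_one]
    rwa [← e])
  exact ⟨rfl, h5.1, by rw [← aa_gp4]; exact h5.2⟩

end

end Pool.Agent.Lib.MP_1a91b9_ntQ.C
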