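import Pool.Agent.Lib.MP_1a91b9_ntQ.C.Tors4

/-!
# MP_1a91b9_nt, part C: the points and the Tate-Shafarevich group of `y² = x³ - δ² x` over a number
field with `z² = -1`, from the Selmer elements of the descent by `1 - i`

The analogue of the files Coc, Fin, Gal for `d = δ²`, where the point `(0, 0)` is in the image of
`1 - i`, and the class of `(δ, 0)` is the class of `δ`.
-/

set_option autoImplicit false
set_option linter.unusedSectionVars false

namespace Pool.Agent.Lib.MP_1a91b9_ntQ.C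

open WeierstrassCurve WithZero NumberField IsDedekindDomain
open Pool.Agent.Lib.MP_1a91b9_ntT.S9 (Pts Gal coc cob trivOver shaCoc Sha up)
open Pool.Agent.Lib.MP_1a91b9_ntT3.S9 (ShaP)
open scoped Classical

noncomputable section

/-- The conclusion of the analysis of the Selmer elements of `y² = x³ - δ² x`. -/
def SelCl5 {N : Type*} [Field N] [NumberField N] (δ : N) : Prop :=
  ∀ a : N, a ≠ 0 → (∀ v : HeightOneSpectrum (𝓞 N), GLoc4 (v.valuation N) (δ ^ 2) a) →
    IsSquare a ∨ IsSquare (a * δ)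

section

variable {F : Type*} [Field F] [CharZero F] {W : Affine F} {z d : F}

/-- the point of order two `(e, 0)`, `e² = d` -/
def te (h : IsQ W z d) {e : F} (he : e ^ 2 = d) : W.Point :=
  Affine.Point.some e 0 ((h.nons _ _).2 (by rw [← he]; ring))

theorem mu_te (h : IsQ W z d) {e : F} (he : e ^ 2 = d) : mu h (te h he) = tq h := by
  have he0 : e ≠ 0 := by
    rintro rfl
    apply h.hd
    rw [← he]
    ring
  obtain ⟨x', y', hn', e1, e2, e3⟩ := mu_some h ((h.nons _ _).2 (by rw [← he]; ring) :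
    W.Nonsingular e 0) he0
  have ex : x' = 0 := by
    rw [e2, mul_zero, zero_div]
    ring
  subst ex
  have ey : y' = 0 := y_zero h hn'
  subst ey
  exact e1

theorem mu_mu_te (h : IsQ W z d) {e : F} (he : e ^ 2 = d) : mu h (mu h (te h he)) = 0 := by
  rw [mu_te h he, mu_tq]

end

section

variable {k : Type*} [Field k] [CharZero k] {z δ : k} (hd : δ ^ 2 ≠ 0) (hz : z ^ 2 = -1)

theorem sq_bc : algebraMap k (AlgebraicClosure k) δ ^ 2 = algebraMap k (AlgebraicClosure k) (δ ^ 2) :=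
  (map_pow _ _ _).symm

/-- The class of the points `R` with `mu R = (δ, 0)`. -/
theorem kd_cob5 (c : Gal k → Pts (cq (δ ^ 2)) (AlgebraicClosure k))
    (hmu : ∀ σ, mu (isQ_bc hd hz (AlgebraicClosure k)) (c σ) = 0) (a : k)
    (b : AlgebraicClosure k) (hk : KD c a b) (ha : IsSquare (a * δ)) :
    ∃ R : Pts (cq (δ ^ 2)) (AlgebraicClosure k),
      mu (isQ_bc hd hz (AlgebraicClosure k)) R =
        te (isQ_bc hd hz (AlgebraicClosure k)) (e := algebraMap k (AlgebraicClosure k) δ) sq_bc ∧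
      ∀ σ, c σ = act (cq (δ ^ 2)) σ R - R := by
  set h := isQ_bc hd hz (AlgebraicClosure k) with hh
  obtain ⟨r, hr⟩ := ha
  obtain ⟨e, he⟩ : ∃ e, e = algebraMap k (AlgebraicClosure k) δ := ⟨_, rfl⟩
  obtain ⟨Z, hZ⟩ : ∃ Z, Z = algebraMap k (AlgebraicClosure k) z := ⟨_, rfl⟩
  have hZ2 : Z ^ 2 = -1 := by rw [hZ, ← map_pow, hz, map_neg, map_one]
  have hde : algebraMap k (AlgebraicClosure k) (δ ^ 2) = e ^ 2 := by rw [he, map_pow]
  have he0 : e ≠ 0 := by
    rintro rfl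
    apply h.hd
    rw [hde]
    ring
  have hZ0 : Z ≠ 0 := by
    rintro rfl
    norm_num at hZ2
  obtain ⟨s, hs⟩ := IsAlgClosed.exists_pow_nat_eq e (n := 2) (by norm_num)
  have hs0 : s ≠ 0 := by
    rintro rfl
    apply he0
    rw [← hs]
    ring
  have hX0 : -(Z * e) ≠ 0 := neg_ne_zero.2 (mul_ne_zero hZ0 he0)
  have heq : ((1 + Z) * e * s) ^ 2 = (-(Z * e)) ^ 3 - algebraMap k (AlgebraicClosure k) (δ ^ 2) *
      (-(Z * e)) := by
    rw [hde]
    linear_combination ((1 + Z) ^ 2 * e ^ 2) * hs + (e ^ 3 + e ^ 3 * Z) * hZ2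
  have hns : (Affine.baseChange (cq (δ ^ 2)) (AlgebraicClosure k)).Nonsingular (-(Z * e))
      ((1 + Z) * e * s) := (h.nons _ _).2 heq
  have hmuR : mu h (.some _ _ hns) = te h (e := algebraMap k (AlgebraicClosure k) δ) sq_bc := by
    obtain ⟨x', y', hn', e1, e2⟩ := mu_x' h hns hX0
    have ex : x' = e := by
      have h2 : (2 * -(Z * e)) * x' = (2 * -(Z * e)) * e := by
        rw [e2, hde, ← hZ]
        linear_combination (Z * e ^ 2) * hZ2
      exact mul_left_cancel₀ (mul_ne_zero two_ne_zero hX0) h2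
    subst ex
    have ey : y' = 0 := by
      have h3 := (h.nons _ _).1 hn'
      rw [hde] at h3
      refine (pow_eq_zero_iff two_ne_zero).1 (?_ : y' ^ 2 = 0)
      rw [h3]
      ring
    subst ey
    rw [e1, te, Affine.Point.some.injEq]
    exact ⟨he, rfl⟩
  refine ⟨.some _ _ hns, hmuR, fun σ => ?_⟩
  have hfix : σ (b * s) = b * s := by
    refine sq_root_fixed (r := r) ?_ σ
    rw [mul_pow, hs, ← hk.sq, he, ← map_mul, hr, map_mul, sq]
  rw [map_mul, hk.act σ] at hfix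
  have hσe : σ e = e := by rw [he, AlgEquiv.commutes]
  have hσZ : σ Z = Z := by rw [hZ, AlgEquiv.commutes]
  have hσX : σ (-(Z * e)) = -(Z * e) := by rw [map_neg, map_mul, hσe, hσZ]
  have hσY : σ ((1 + Z) * e * s) = (1 + Z) * e * σ s := by
    rw [map_mul, map_mul, map_add, map_one, hσe, hσZ]
  have h1 : act (cq (δ ^ 2)) σ (.some _ _ hns) = Affine.Point.some (σ (-(Z * e)))
      (σ ((1 + Z) * e * s)) (by
        exact (Affine.baseChange_nonsingular (cq (δ ^ 2))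
          (σ : AlgebraicClosure k →ₐ[k] AlgebraicClosure k).injective _ _).2 hns) := rfl
  rcases mu_ker_all h (c σ) (hmu σ) with h2 | h2
  · rw [h2, ch_zero, one_mul] at hfix
    have h3 : σ s = s := mul_left_cancel₀ hk.ne hfix
    rw [h2, eq_comm, sub_eq_zero, h1, Affine.Point.some.injEq]
    exact ⟨hσX, by rw [hσY, h3]⟩
  · rw [h2, ch_tq h] at hfix
    have h3 : σ s = -s := mul_left_cancel₀ hk.ne (by linear_combination -hfix)
    obtain ⟨hn3, h4⟩ := add_tq h hns hX0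
    rw [h2, eq_sub_iff_add_eq, add_comm, h4, h1, Affine.Point.some.injEq]
    refine ⟨?_, ?_⟩
    · rw [hσX, hde]
      field_simp
      linear_combination hZ2
    · rw [hσY, h3, hde]
      field_simp
      linear_combination (1 + Z) * hZ2

end

section

variable {N : Type*} [Field N] [NumberField N] {δ : N} (hd : δ ^ 2 ≠ 0) {z : N}
  (hz : z ^ 2 = -1) (hS : SelCl5 δ)

include hS

/-- A locally trivial cocycle with values in the kernel of `1 - i` is the coboundary of a point `R`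
with `(1 - ω) R = O` or `(1 - ω) R = (δ, 0)`. -/
theorem main_coc5 (c : Gal N → Pts (cq (δ ^ 2)) (AlgebraicClosure N))
    (hc : c ∈ shaCoc (cq (δ ^ 2)))
    (h2 : ∀ σ, mu (isQ_bc hd hz (AlgebraicClosure N)) (c σ) = 0) :
    ∃ R : Pts (cq (δ ^ 2)) (AlgebraicClosure N),
      (mu (isQ_bc hd hz (AlgebraicClosure N)) R = 0 ∨
        mu (isQ_bc hd hz (AlgebraicClosure N)) R =
          te (isQ_bc hd hz (AlgebraicClosure N)) (e := algebraMap N (AlgebraicClosure N) δ)
            sq_bc) ∧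
      ∀ σ, c σ = act (cq (δ ^ 2)) σ R - R := by
  obtain ⟨a, b, hk⟩ := exists_kd hd hz c hc.1.1 h2
  have ha : a ≠ 0 := by
    rintro rfl
    have h := hk.sq
    rw [_root_.map_zero] at h
    exact hk.ne ((pow_eq_zero_iff two_ne_zero).1 h.symm)
  have hloc : ∀ v : HeightOneSpectrum (𝓞 N), GLoc4 (v.valuation N) (δ ^ 2) a := fun v => by
    have : CharZero (v.adicCompletion N) :=
      charZero_of_injective_algebraMap (algebraMap N (v.adicCompletion N)).injective
    have h : c ∈ ⨅ v : HeightOneSpectrum (𝓞 N), trivOver (cq (δ ^ 2)) (v.adicCompletion N) :=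
      hc.1.2
    have hcv : c ∈ trivOver (cq (δ ^ 2)) (v.adicCompletion N) := AddSubgroup.mem_iInf.1 h v
    exact gloc_of_locAt v hd ha (kd_loc hd hz c h2 a b hk hcv)
  rcases hS a ha hloc with h | h
  · refine ⟨0, Or.inl (_root_.map_zero _), fun σ => ?_⟩
    rw [kd_zero c a b hk h σ, _root_.map_zero, sub_zero]
  · obtain ⟨R, hR, hc'⟩ := kd_cob5 hd hz c h2 a b hk h
    exact ⟨R, Or.inr hR, hc'⟩

include hd hz in
private theorem desc_pts50 (P : Pts (cq (δ ^ 2)) N) :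
    ∃ T Q : Pts (cq (δ ^ 2)) N, mu (isQ_bc hd hz N) (mu (isQ_bc hd hz N) T) = 0 ∧
      P = T + mu (isQ_bc hd hz N) Q := by
  have hup : ∀ (σ : Gal N) (P : Pts (cq (δ ^ 2)) N),
      act (cq (δ ^ 2)) σ (up (cq (δ ^ 2)) N (AlgebraicClosure N) P) =
        up (cq (δ ^ 2)) N (AlgebraicClosure N) P := by
    intro σ P
    show Affine.Point.map _ (Affine.Point.map _ _) = _
    rw [Affine.Point.map_map]
    have hcomp : (σ : AlgebraicClosure N →ₐ[N] AlgebraicClosure N).comp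
        (IsScalarTower.toAlgHom N N (AlgebraicClosure N)) =
        IsScalarTower.toAlgHom N N (AlgebraicClosure N) := AlgHom.ext fun x => σ.commutes x
    rw [hcomp]
  obtain ⟨R₀, hR₀⟩ := exists_mu_closed (isQ_bc hd hz (AlgebraicClosure N))
    (up (cq (δ ^ 2)) N (AlgebraicClosure N) P)
  obtain ⟨R, hR, hc⟩ := main_coc5 hd hz hS (fun σ => act (cq (δ ^ 2)) σ R₀ - R₀)
    (Pool.Agent.Lib.MP_1a91b9_ntT.S9.cob_le_shaCoc (cq (δ ^ 2)) ⟨R₀, fun σ => rfl⟩) fun σ => by
      rw [_root_.map_sub, ← act_mu hd hz, hR₀, hup, sub_self]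
  obtain ⟨Q, hQ⟩ := Pool.Agent.Lib.MP_1a91b9_ntT.S9.fixed_pt (L := N) (cq (δ ^ 2)) (R₀ - R) fun σ => by
    have h1 : Affine.Point.map ((σ : AlgebraicClosure N →ₐ[N] AlgebraicClosure N).restrictScalars N)
        (R₀ - R) = act (cq (δ ^ 2)) σ (R₀ - R) := rfl
    rw [h1, _root_.map_sub]
    have h2 := hc σ
    have h3 : act (cq (δ ^ 2)) σ R₀ - act (cq (δ ^ 2)) σ R = (act (cq (δ ^ 2)) σ R₀ - R₀) -
      (act (cq (δ ^ 2)) σ R - R) + (R₀ - R) := by abel
    rw [h3, ← h2, sub_self, zero_add]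
  have hinj : Function.Injective (up (cq (δ ^ 2)) N (AlgebraicClosure N)) :=
    Affine.Point.map_injective _
  have hmuup : ∀ P : Pts (cq (δ ^ 2)) N,
      up (cq (δ ^ 2)) N (AlgebraicClosure N) (mu (isQ_bc hd hz N) P) =
      mu (isQ_bc hd hz (AlgebraicClosure N)) (up (cq (δ ^ 2)) N (AlgebraicClosure N) P) := fun P =>
    mu_map hd hz (IsScalarTower.toAlgHom N N (AlgebraicClosure N)) P
  have hsq : (algebraMap N N δ) ^ 2 = algebraMap N N (δ ^ 2) := (map_pow _ _ _).symm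
  have hte : up (cq (δ ^ 2)) N (AlgebraicClosure N) (te (isQ_bc hd hz N) hsq) =
      te (isQ_bc hd hz (AlgebraicClosure N)) (e := algebraMap N (AlgebraicClosure N) δ)
        sq_bc := by
    unfold te
    change Affine.Point.some _ _ _ = Affine.Point.some _ _ _
    rw [Affine.Point.some.injEq]
    exact ⟨rfl, map_zero _⟩
  have hP : up (cq (δ ^ 2)) N (AlgebraicClosure N) P =
      mu (isQ_bc hd hz (AlgebraicClosure N)) R +
        up (cq (δ ^ 2)) N (AlgebraicClosure N) (mu (isQ_bc hd hz N) Q) := by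
    rw [hmuup, hQ, _root_.map_sub, hR₀]
    abel
  rcases hR with hR | hR
  · refine ⟨0, Q, by rw [_root_.map_zero, _root_.map_zero], hinj ?_⟩
    rw [hP, hR, zero_add, zero_add]
  · refine ⟨te (isQ_bc hd hz N) hsq, Q, mu_mu_te _ _, hinj ?_⟩
    rw [hP, hR, _root_.map_add, hte]

omit hS in
private theorem desc_transport5 {W₁ W₂ : Affine N} (e : W₁ = W₂) {z₁ z₂ d₁ d₂ : N} (ez : z₁ = z₂)
    (ed : d₁ = d₂) (h₁ : IsQ W₁ z₁ d₁) (h₂ : IsQ W₂ z₂ d₂)
    (h : ∀ P : W₁.Point, ∃ T Q : W₁.Point, mu h₁ (mu h₁ T) = 0 ∧ P = T + mu h₁ Q) :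
    ∀ P : W₂.Point, ∃ T Q : W₂.Point, mu h₂ (mu h₂ T) = 0 ∧ P = T + mu h₂ Q := by
  subst e
  subst ez
  subst ed
  exact h

include hd hz in
theorem desc_pts5 {W : Affine N} (hW : IsQ W z (δ ^ 2)) (P : W.Point) :
    ∃ T Q : W.Point, mu hW (mu hW T) = 0 ∧ P = T + mu hW Q := by
  have h0 := isQ_bc hd hz N
  refine desc_transport5 (h0.eq.trans hW.eq.symm) rfl rfl h0 hW (desc_pts50 hd hz hS) P

include hd hz in
theorem mu_class5 (c : Gal N → Pts (cq (δ ^ 2)) (AlgebraicClosure N))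
    (hc : c ∈ shaCoc (cq (δ ^ 2)))
    (h2 : (fun σ => mu (isQ_bc hd hz (AlgebraicClosure N)) (c σ)) ∈ cob (cq (δ ^ 2))) :
    c ∈ cob (cq (δ ^ 2)) := by
  obtain ⟨Q, hQ⟩ := h2
  obtain ⟨R, hR⟩ := exists_mu_closed (isQ_bc hd hz (AlgebraicClosure N)) Q
  have hd' : (fun σ : Gal N => act (cq (δ ^ 2)) σ R - R) ∈ cob (cq (δ ^ 2)) := ⟨R, fun σ => rfl⟩
  have hc' : c - (fun σ : Gal N => act (cq (δ ^ 2)) σ R - R) ∈ cob (cq (δ ^ 2)) := by
    obtain ⟨R', _, h⟩ := main_coc5 hd hz hS _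
      (sub_mem hc (Pool.Agent.Lib.MP_1a91b9_ntT.S9.cob_le_shaCoc (cq (δ ^ 2)) hd')) fun σ => by
        have h1 : mu (isQ_bc hd hz (AlgebraicClosure N)) (c σ) = act (cq (δ ^ 2)) σ Q - Q := hQ σ
        simp only [Pi.sub_apply]
        rw [_root_.map_sub, _root_.map_sub, h1, ← act_mu hd hz, hR, sub_self]
    exact ⟨R', h⟩
  have h5 := add_mem hc' hd'
  rwa [sub_add_cancel] at h5

include hd hz in
theorem two_class5 (c : Gal N → Pts (cq (δ ^ 2)) (AlgebraicClosure N))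
    (hc : c ∈ shaCoc (cq (δ ^ 2))) (h3 : 2 • c ∈ cob (cq (δ ^ 2))) : c ∈ cob (cq (δ ^ 2)) := by
  refine mu_class5 hd hz hS c hc (mu_class5 hd hz hS _ (mu_shaCoc hd hz c hc) ?_)
  obtain ⟨Q, hQ⟩ := h3
  refine ⟨-(omP (isQ_bc hd hz (AlgebraicClosure N)) Q), fun σ => ?_⟩
  have h1 : 2 • c σ = act (cq (δ ^ 2)) σ Q - Q := hQ σ
  show mu (isQ_bc hd hz (AlgebraicClosure N)) (mu (isQ_bc hd hz (AlgebraicClosure N)) (c σ)) =
    act (cq (δ ^ 2)) σ (-(omP (isQ_bc hd hz (AlgebraicClosure N)) Q)) -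
      -(omP (isQ_bc hd hz (AlgebraicClosure N)) Q)
  have h4 : act (cq (δ ^ 2)) σ (omP (isQ_bc hd hz (AlgebraicClosure N)) Q) =
      omP (isQ_bc hd hz (AlgebraicClosure N)) (act (cq (δ ^ 2)) σ Q) :=
    omP_map hd hz (σ : AlgebraicClosure N →ₐ[N] AlgebraicClosure N) Q
  rw [mu_mu, ← _root_.map_nsmul, h1, _root_.map_sub, _root_.map_neg, h4]
  abel

include hd hz in
theorem sha_two5 (x : Sha (cq (δ ^ 2))) (h : 2 • x = 0) : x = 0 := by
  have key : ∀ y : shaCoc (cq (δ ^ 2)) ⧸ (cob (cq (δ ^ 2))).addSubgroupOf (shaCoc (cq (δ ^ 2))),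
      2 • y = 0 → y = 0 := by
    intro y hy
    obtain ⟨⟨c, hc⟩, rfl⟩ := QuotientAddGroup.mk_surjective y
    rw [← QuotientAddGroup.mk_nsmul, QuotientAddGroup.eq_zero_iff,
      AddSubgroup.mem_addSubgroupOf] at hy
    rw [QuotientAddGroup.eq_zero_iff, AddSubgroup.mem_addSubgroupOf]
    exact two_class5 hd hz hS c hc hy
  exact key x h

include hd hz in
/-- The 2-primary part of the Tate-Shafarevich group is trivial. -/
theorem card_shaP5 : Nat.card (ShaP 2 (cq (δ ^ 2))) = 1 := by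
  have key : ∀ n : ℕ, ∀ y : Sha (cq (δ ^ 2)), 2 ^ n • y = 0 → y = 0 := by
    intro n
    induction n with
    | zero =>
      intro y hy
      simpa using hy
    | succ n ih =>
      intro y hy
      refine sha_two5 hd hz hS y (ih _ ?_)
      rw [← mul_nsmul', ← pow_succ]
      exact hy
  have h1 : ∀ x : AddCommGroup.primaryComponent (Sha (cq (δ ^ 2))) 2, x = 0 := by
    rintro ⟨x, n, hn⟩
    exact Subtype.ext (key n x hn)
  exact Nat.card_eq_one_iff_unique.2
    ⟨⟨fun x y => (h1 x).trans (h1 y).symm⟩,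
      ⟨(0 : AddCommGroup.primaryComponent (Sha (cq (δ ^ 2))) 2)⟩⟩

end

end

end Pool.Agent.Lib.MP_1a91b9_ntQ.C
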