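import Pool.Agent.Lib.MP_1a91b9_ntQ.C.LocX4

/-!
# MP_1a91b9_nt, part C: the local images of the descent by `1 - i` for `y² = x³ - δ² x`
-/

set_option autoImplicit false
set_option linter.unusedSectionVars false
set_option linter.unusedVariables false

namespace Pool.Agent.Lib.MP_1a91b9_ntQ.C

open WithZero
open Pool.Agent.Lib.MP_1a91b9_ntH.C (Sq exists_nu isSquare_exp nu_one)

noncomputable section

variable {L : Type*} [Field L] [CharZero L] {ν : Valuation L ℤᵐ⁰}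

/-- the local condition for `δ²` -/
theorem gloc5 {i δ a : L} (hi : i ^ 2 = -1) (h4 : ν 4 ≤ 1) (hδ : δ ≠ 0)
    (h : GLoc4 ν (δ ^ 2) a) : Sq ν a ∨ Sq ν (a * δ) ∨
      ∃ x : L, x ≠ 0 ∧ Sq ν (x * (x ^ 2 - δ ^ 2)) ∧ Sq ν (a * x) := by
  rcases h with h | h | ⟨x, hx0, hx, h⟩ | h
  · exact Or.inl h
  · exact Or.inl (Sq.of_mul_sq hδ h)
  · right; left
    refine Sq.trans' h4 h ?_
    have key : ∀ y : L, ν (y - 1) < ν 4 → Sq ν (y * δ * δ) := by
      intro y hy
      refine Sq.of_mul_sq (inv_ne_zero hδ) ?_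
      have e : y * δ * δ * δ⁻¹ ^ 2 = y := by field_simp
      rw [e]
      exact Sq.one hy
    have h1 : x ^ 2 / δ ^ 2 - 1 = (x / δ - 1) * (x / δ + 1) := by ring
    rw [h1, map_mul] at hx
    have h2 : ν (x / δ - 1) < ν 4 ∨ ν (x / δ + 1) < ν 4 := by
      by_contra hc
      push Not at hc
      have h3 : ν 4 * ν 4 ≤ ν (x / δ - 1) * ν (x / δ + 1) := mul_le_mul' hc.1 hc.2
      rw [← map_mul] at h3
      have e : (4 : L) * 4 = 16 := by norm_num
      rw [e] at h3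
      exact absurd hx (not_lt.2 h3)
    rcases h2 with h2 | h2
    · have h3 := key _ h2
      have e : x / δ * δ * δ = x * δ := by field_simp
      rwa [e] at h3
    · have h3 := key (-(x / δ)) (by
        have e : -(x / δ) - 1 = -(x / δ + 1) := by ring
        rwa [e, Valuation.map_neg])
      have e : -(x / δ) * δ * δ = -(x * δ) := by field_simp
      rw [e] at h3
      exact Sq.neg' hi h3
  · exact Or.inr (Or.inr h)

/-- the points with `ν x` greater than `ν δ` -/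
theorem pt5_big {δ x : L} (h4 : ν 4 ≤ 1) (hδ : δ ≠ 0) (hx0 : x ≠ 0)
    (hx : Sq ν (x * (x ^ 2 - δ ^ 2))) : Sq ν (x * (1 - (δ / x) ^ 2)) := by
  refine Sq.of_mul_sq hx0 ?_
  have e : x * (1 - (δ / x) ^ 2) * x ^ 2 = x * (x ^ 2 - δ ^ 2) := by field_simp
  rwa [e]

/-- the points with `ν x` less than `ν δ` -/
theorem pt5_small {i δ x : L} (hi : i ^ 2 = -1) (h4 : ν 4 ≤ 1) (hδ : δ ≠ 0)
    (hx : Sq ν (x * (x ^ 2 - δ ^ 2))) : Sq ν (x * (1 - (x / δ) ^ 2)) := by
  refine Sq.of_mul_sq (mul_ne_zero (i_ne hi) hδ) ?_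
  have e : x * (1 - (x / δ) ^ 2) * (i * δ) ^ 2 = x * (x ^ 2 - δ ^ 2) := by
    have e1 : (x / δ) ^ 2 * δ ^ 2 = x ^ 2 := by field_simp
    linear_combination (x * δ ^ 2 - x * (x / δ) ^ 2 * δ ^ 2) * hi + x * e1
  rwa [e]

/-- **the places which divide `δ` and not `2`** -/
theorem loc5_bad {i δ a : L} (hi : i ^ 2 = -1) (h4 : ν 4 = 1) (hδ0 : δ ≠ 0)
    (hδ : ¬ IsSquare (ν δ)) (h : GLoc4 ν (δ ^ 2) a) : Sq ν a ∨ Sq ν (a * δ) := by
  have hνδ : ν δ ≠ 0 := ν.ne_zero_iff.2 hδ0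
  have key : ∀ r : L, ν r < 1 → Sq ν (1 - r ^ 2) := by
    intro r hr
    refine Sq.one ?_
    have e : 1 - r ^ 2 - 1 = -(r ^ 2) := by ring
    rw [e, Valuation.map_neg, map_pow, h4]
    exact pow_lt_one₀ zero_le hr two_ne_zero
  rcases gloc5 hi h4.le hδ0 h with h | h | ⟨x, hx0, hx, h⟩
  · exact Or.inl h
  · exact Or.inr h
  · have hνx : ν x ≠ 0 := ν.ne_zero_iff.2 hx0
    rcases lt_trichotomy (ν x) (ν δ) with h1 | h1 | h1
    · left
      have h2 : ν (x / δ) < 1 := by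
        rw [map_div₀]
        exact (div_lt_one₀ (zero_lt_iff.2 hνδ)).2 h1
      exact h.cancel h4.le ((pt5_small hi h4.le hδ0 hx).cancel h4.le (key _ h2))
    · right
      obtain ⟨y, hy⟩ : ∃ y : L, x = δ * y := ⟨x / δ, by field_simp⟩
      have hy1 : ν y = 1 := by
        rw [hy, map_mul] at h1
        exact mul_left_cancel₀ hνδ (by rw [h1, mul_one])
      have h2 : ν 2 = 1 := by
        have e : (4 : L) = 2 ^ 2 := by norm_num
        rw [e, map_pow] at h4
        exact (pow_eq_one_iff_of_nonneg zero_le two_ne_zero).1 h4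
      have hev := hx.even h4.le
      have e1 : x * (x ^ 2 - δ ^ 2) = δ ^ 3 * (y * (y ^ 2 - 1)) := by
        rw [hy]
        ring
      rw [e1, map_mul, map_mul, hy1, one_mul, map_pow] at hev
      have hle : ν (y ^ 2 - 1) < 1 := by
        have h3 : ν (y ^ 2 - 1) ≤ 1 := nu_sub_le' (by rw [map_pow, hy1, one_pow]) (map_one ν).le
        refine lt_of_le_of_ne h3 fun h5 => hδ ?_
        rw [h5, mul_one] at hev
        obtain ⟨m, hm⟩ := exists_nu ν hδ0
        rw [hm, ← exp_nsmul, isSquare_exp] at hev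
        rw [hm, isSquare_exp]
        simp only [nsmul_eq_mul, Nat.cast_ofNat] at hev
        obtain ⟨r, hr⟩ := hev
        exact ⟨r - m, by omega⟩
      have e2 : y ^ 2 - 1 = (y - 1) * (y + 1) := by ring
      rw [e2, map_mul] at hle
      have h5 : ν (y - 1) < 1 ∨ ν (y + 1) < 1 := by
        by_contra hc
        push Not at hc
        exact absurd hle (not_lt.2 (one_le_mul hc.1 hc.2))
      have h6 : Sq ν y := by
        rcases h5 with h5 | h5
        · exact Sq.one (by rw [h4]; exact h5)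
        · refine Sq.neg' hi (Sq.one ?_)
          have e : -y - 1 = -(y + 1) := by ring
          rw [e, Valuation.map_neg, h4]
          exact h5
      refine Sq.trans' h4.le h ?_
      have h7 : Sq ν (y * δ ^ 2) :=
        h6.mul h4.le (Sq.of_isSquare ⟨δ, sq δ⟩ (pow_ne_zero 2 hδ0))
      have e : x * δ = y * δ ^ 2 := by
        rw [hy]
        ring
      rwa [e]
    · left
      have h2 : ν (δ / x) < 1 := by
        rw [map_div₀]
        exact (div_lt_one₀ (zero_lt_iff.2 hνx)).2 h1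
      exact h.cancel h4.le ((pt5_big h4.le hδ0 hx0 hx).cancel h4.le (key _ h2))

/-! ### squares modulo `γ` -/

/-- `u` is a square modulo `γ` -/
def CG (ν : Valuation L ℤᵐ⁰) (γ : ℤᵐ⁰) (u : L) : Prop := ∃ b : L, b ≠ 0 ∧ ν (u / b ^ 2 - 1) ≤ γ

theorem CG.of_sq {γ : ℤᵐ⁰} {u : L} (hγ : ν 4 ≤ γ) (h : Sq ν u) : CG ν γ u := by
  obtain ⟨b, hb, h⟩ := h
  exact ⟨b, hb, h.le.trans hγ⟩

theorem CG.ne {γ : ℤᵐ⁰} {u : L} (hγ : γ < 1) (h : CG ν γ u) : u ≠ 0 := by
  rintro rfl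
  obtain ⟨b, hb, h⟩ := h
  rw [zero_div, zero_sub, Valuation.map_neg, map_one] at h
  exact absurd h (not_le.2 hγ)

theorem CG.mul {γ : ℤᵐ⁰} {u v : L} (hγ : γ < 1) (h : CG ν γ u) (h' : CG ν γ v) :
    CG ν γ (u * v) := by
  obtain ⟨b, hb, h⟩ := h
  obtain ⟨b', hb', h'⟩ := h'
  refine ⟨b * b', mul_ne_zero hb hb', ?_⟩
  have e : u * v / (b * b') ^ 2 - 1 = (u / b ^ 2) * (v / b' ^ 2 - 1) + (u / b ^ 2 - 1) := by
    field_simp
    ring
  have h1 : ν (u / b ^ 2) = 1 := by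
    have := ν.map_one_add_of_lt (lt_of_le_of_lt h hγ)
    rwa [add_sub_cancel] at this
  rw [e]
  refine ν.map_add_le ?_ h
  rw [map_mul, h1, one_mul]
  exact h'

theorem CG.of_mul_sq {γ : ℤᵐ⁰} {u s : L} (hs : s ≠ 0) (h : CG ν γ (u * s ^ 2)) : CG ν γ u := by
  obtain ⟨b, hb, h⟩ := h
  refine ⟨b / s, div_ne_zero hb hs, ?_⟩
  have e : u / (b / s) ^ 2 = u * s ^ 2 / b ^ 2 := by field_simp
  rwa [e]

theorem CG.one {γ : ℤᵐ⁰} {u : L} (h : ν (u - 1) ≤ γ) : CG ν γ u :=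
  ⟨1, one_ne_zero, by rwa [one_pow, div_one]⟩

theorem CG.neg {γ : ℤᵐ⁰} {i u : L} (hi : i ^ 2 = -1) (h : CG ν γ (-u)) : CG ν γ u := by
  refine CG.of_mul_sq (i_ne hi) ?_
  rw [hi]
  have e : u * -1 = -u := by ring
  rwa [e]

theorem CG.cancel {γ : ℤᵐ⁰} {a x : L} (hγ : γ < 1) (h : CG ν γ (a * x)) (hx : CG ν γ x) :
    CG ν γ a := by
  refine CG.of_mul_sq (hx.ne hγ) ?_
  have h2 := h.mul hγ hx
  have e : a * x * x = a * x ^ 2 := by ring
  rwa [e] at h2

theorem CG.trans {γ : ℤᵐ⁰} {a x y : L} (hγ : γ < 1) (h : CG ν γ (a * x)) (h' : CG ν γ (x * y)) :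
    CG ν γ (a * y) := by
  have hx : x ≠ 0 := fun h0 => h.ne hγ (by rw [h0, mul_zero])
  have h1 := h.mul hγ h'
  have e : a * x * (x * y) = a * y * x ^ 2 := by ring
  rw [e] at h1
  exact CG.of_mul_sq hx h1

theorem CG.even {γ : ℤᵐ⁰} {u : L} (hγ : γ < 1) (h : CG ν γ u) : IsSquare (ν u) := by
  obtain ⟨b, hb, h⟩ := h
  refine ⟨ν b, ?_⟩
  have h1 : ν (u / b ^ 2) = 1 := by
    have := ν.map_one_add_of_lt (lt_of_le_of_lt h hγ)
    rwa [add_sub_cancel] at this
  have e : u = b * b * (u / b ^ 2) := by field_simp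
  rw [e, map_mul, map_mul, h1, mul_one]

/-! ### `δ` of value `exp (-1)` -/

theorem exp3_lt : (exp (-((3 : ℕ) : ℤ)) : ℤᵐ⁰) < 1 := by
  rw [← exp_zero, exp_lt_exp]
  norm_num

theorem four_le_exp3 (h2 : ν 2 = exp (-2)) : ν 4 ≤ exp (-((3 : ℕ) : ℤ)) := by
  rw [nu_four4 h2, exp_le_exp]
  norm_num

/-- `1 - r²` is `± 1` modulo `lam ^ 3` -/
theorem CG_one_sub {i r : L} (hi : i ^ 2 = -1) (h2 : ν 2 = exp (-2))
    (hres : ∀ x : L, ν x = 1 → ν (x - 1) < 1) (hr : ν r < 1) :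
    CG ν (exp (-((3 : ℕ) : ℤ))) (1 - r ^ 2) := by
  have hl := nu_lam2 hi h2
  have hi1 := (nu_i (ν := ν) hi).le
  have hl1 : ν (1 + i) ≤ 1 := nu_add_le (map_one ν).le hi1
  obtain ⟨t, ht, rfl⟩ := div_lam hl hr
  obtain ⟨t', ht', h3 | h3⟩ := res_lam hl hres ht
  · refine CG.one ?_
    have e : 1 - ((1 + i) * t) ^ 2 - 1 = (1 + i) ^ 3 * (-(1 + i) * t' ^ 2) := by
      rw [h3]
      ring
    rw [e]
    refine mul_le_exp (nu_lpow hl 3) (nu_mul_le ?_ (nu_pow_le' ht' 2))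
    rwa [Valuation.map_neg]
  · refine CG.neg hi (CG.one ?_)
    have e : -(1 - ((1 + i) * t) ^ 2) - 1 =
        (1 + i) ^ 3 * (1 + (1 + i) * t' ^ 2 - i * (1 + i) ^ 2 * t') := by
      rw [h3]
      linear_combination (i ^ 4 * t' + 5 * i ^ 3 * t' + 9 * i ^ 2 * t' + 7 * i * t' + 2 * t' - i - 2) *
        hi
    rw [e]
    refine mul_le_exp (nu_lpow hl 3) (nu_sub_le' (nu_add_le (map_one ν).le
      (nu_mul_le hl1 (nu_pow_le' ht' 2))) (nu_mul_le (nu_mul_le hi1 (nu_pow_le' hl1 2)) ht'))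

theorem lt_one_div {x y : L} (hy : y ≠ 0) (h : ν x < ν y) : ν (x / y) < 1 := by
  rw [map_div₀]
  exact (div_lt_one₀ (zero_lt_iff.2 (ν.ne_zero_iff.2 hy))).2 h

/-- the points when the value of `δ` is odd -/
theorem loc5_one_pt {i δ x : L} (hi : i ^ 2 = -1) (h2 : ν 2 = exp (-2))
    (hres : ∀ x : L, ν x = 1 → ν (x - 1) < 1) (hδ0 : δ ≠ 0) (hδ : ¬ IsSquare (ν δ)) (hx0 : x ≠ 0)
    (hx : Sq ν (x * (x ^ 2 - δ ^ 2))) :
    CG ν (exp (-((3 : ℕ) : ℤ))) x ∨ CG ν (exp (-((3 : ℕ) : ℤ))) (x * δ) := by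
  have h4 := nu_four4_le h2
  have hl := nu_lam2 hi h2
  have hi1 := (nu_i (ν := ν) hi).le
  have hγ := exp3_lt
  have h43 := four_le_exp3 h2
  have hνδ : ν δ ≠ 0 := ν.ne_zero_iff.2 hδ0
  rcases lt_trichotomy (ν x) (ν δ) with h1 | h1 | h1
  · left
    exact (CG.of_sq h43 (pt5_small hi h4.le hδ0 hx)).cancel hγ
      (CG_one_sub hi h2 hres (lt_one_div hδ0 h1))
  · right
    obtain ⟨y, hy⟩ : ∃ y : L, x = δ * y := ⟨x / δ, by field_simp⟩
    have hy1 : ν y = 1 := by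
      rw [hy, map_mul] at h1
      exact mul_left_cancel₀ hνδ (by rw [h1, mul_one])
    obtain ⟨m, t, ht, hyt⟩ := unit4 hi h2 hres hy1
    have hy2 := sq_unit4 hi m t
    rw [← hyt] at hy2
    rcases Nat.even_or_odd m with hm | hm
    · have h5 : CG ν (exp (-((3 : ℕ) : ℤ))) y := by
        have key : CG ν (exp (-((3 : ℕ) : ℤ))) (1 + (1 + i) ^ 3 * t) := by
          refine CG.one ?_
          have e : 1 + (1 + i) ^ 3 * t - 1 = (1 + i) ^ 3 * t := by ring
          rw [e]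
          exact mul_le_exp (nu_lpow hl 3) ht
        rcases ipow_even hi hm with h6 | h6 <;> rw [hyt, h6]
        · rwa [one_mul]
        · refine CG.neg hi ?_
          have e : -(-1 * (1 + (1 + i) ^ 3 * t)) = 1 + (1 + i) ^ 3 * t := by ring
          rwa [e]
      refine CG.of_mul_sq (inv_ne_zero hδ0) ?_
      have e : x * δ * δ⁻¹ ^ 2 = y := by
        rw [hy]
        field_simp
      rwa [e]
    · exfalso
      have hev := hx.even h4.le
      have e1 : x * (x ^ 2 - δ ^ 2) = δ ^ 3 * (y * (y ^ 2 - 1)) := by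
        rw [hy]
        ring
      have hs : ν ((1 + i) ^ 5 * (-i * t + (1 + i) * t ^ 2)) < ν 2 := by
        have h6 : ν (-i * t + (1 + i) * t ^ 2) ≤ 1 :=
          nu_add_le (nu_mul_le (nu_neg_le' hi1) ht)
            (nu_mul_le (nu_add_le (map_one ν).le hi1) (nu_pow_le' ht 2))
        refine lt_of_le_of_lt (mul_le_exp (nu_lpow hl 5) h6) ?_
        rw [h2, exp_lt_exp]
        norm_num
      have h7 : ν (y ^ 2 - 1) = exp (-2) := by
        have e : y ^ 2 - 1 = -(2 + (1 + i) ^ 5 * (-i * t + (1 + i) * t ^ 2)) := by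
          rw [hy2, hm.neg_one_pow]
          ring
        rw [e, Valuation.map_neg, ν.map_add_eq_of_lt_left hs, h2]
      rw [e1, map_mul, map_mul, hy1, one_mul, map_pow, h7] at hev
      apply hδ
      obtain ⟨n, hn⟩ := exists_nu ν hδ0
      rw [hn, ← exp_nsmul, ← exp_add, isSquare_exp] at hev
      rw [hn, isSquare_exp]
      simp only [nsmul_eq_mul, Nat.cast_ofNat] at hev
      obtain ⟨r, hr⟩ := hev
      exact ⟨r - n + 1, by omega⟩
  · left
    exact (CG.of_sq h43 (pt5_big h4.le hδ0 hx0 hx)).cancel hγ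
      (CG_one_sub hi h2 hres (lt_one_div hx0 h1))

/-- **the value of `δ` is odd**: `a` or `a δ` is a square modulo `lam ^ 3` -/
theorem loc5_one {i δ a : L} (hi : i ^ 2 = -1) (h2 : ν 2 = exp (-2))
    (hres : ∀ x : L, ν x = 1 → ν (x - 1) < 1) (hδ0 : δ ≠ 0) (hδ : ¬ IsSquare (ν δ))
    (h : GLoc4 ν (δ ^ 2) a) :
    CG ν (exp (-((3 : ℕ) : ℤ))) a ∨ CG ν (exp (-((3 : ℕ) : ℤ))) (a * δ) := by
  have h4 := nu_four4_le h2
  have h43 := four_le_exp3 h2
  rcases gloc5 hi h4.le hδ0 h with h | h | ⟨x, hx0, hx, h⟩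
  · exact Or.inl (CG.of_sq h43 h)
  · exact Or.inr (CG.of_sq h43 h)
  · rcases loc5_one_pt hi h2 hres hδ0 hδ hx0 hx with h1 | h1
    · exact Or.inl ((CG.of_sq h43 h).cancel exp3_lt h1)
    · exact Or.inr ((CG.of_sq h43 h).trans exp3_lt h1)

/-! ### `δ` a unit -/

/-- `1 - r²` is a square modulo `4` if `r` is divisible by `lam²` -/
theorem C4_one_sub {i r : L} (hi : i ^ 2 = -1) (h2 : ν 2 = exp (-2)) (hr : ν r ≤ exp (-2)) :
    C4 ν (1 - r ^ 2) := by
  refine C4.one ?_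
  have e : 1 - r ^ 2 - 1 = -(r ^ 2) := by ring
  rw [e, Valuation.map_neg, map_pow, nu_four4 h2]
  calc ν r ^ 2 ≤ exp (-2) ^ 2 := pow_le_pow_left₀ zero_le hr 2
    _ = exp (-4) := by rw [← exp_nsmul]; rfl

/-- the points when `δ` is a unit -/
theorem loc5_unit_pt {i δ x : L} (hi : i ^ 2 = -1) (h2 : ν 2 = exp (-2))
    (hres : ∀ x : L, ν x = 1 → ν (x - 1) < 1) (hδ : ν δ = 1) (hx0 : x ≠ 0)
    (hx : Sq ν (x * (x ^ 2 - δ ^ 2))) :
    C4 ν x ∨ C4 ν (x * δ) ∨ ∃ ε t : L, (ε = 1 ∨ ε = -1) ∧ ν t ≤ 1 ∧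
      x = δ * (ε * i * (1 + (1 + i) ^ 3 * t)) ∧ Sq ν (δ * (1 + (1 + i) ^ 4 * t ^ 2)) := by
  have h4 := nu_four4_le h2
  have hl := nu_lam2 hi h2
  have hi1 := (nu_i (ν := ν) hi).le
  have hl1 : ν (1 + i) ≤ 1 := nu_add_le (map_one ν).le hi1
  have hδ0 : δ ≠ 0 := by
    rintro rfl
    rw [map_zero] at hδ
    exact zero_ne_one hδ
  obtain ⟨n, hn⟩ := exists_nu ν hx0
  -- the value of `x` is even
  have par : ∀ r : L, ν r < 1 → Sq ν (x * (1 - r ^ 2)) → Even n := by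
    intro r hr h
    have h1 := h.even h4.le
    have h3 : ν (1 - r ^ 2) = 1 := by
      have e : 1 - r ^ 2 = 1 + -(r ^ 2) := by ring
      rw [e, ν.map_one_add_of_lt]
      rw [Valuation.map_neg, map_pow]
      exact pow_lt_one₀ zero_le hr two_ne_zero
    rwa [map_mul, h3, mul_one, hn, isSquare_exp] at h1
  rcases lt_trichotomy (ν x) 1 with h1 | h1 | h1
  · left
    have h3 := pt5_small hi h4.le hδ0 hx
    have hr : ν (x / δ) < 1 := by rw [map_div₀, hδ, div_one]; exact h1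
    obtain ⟨m, hm⟩ := par _ hr h3
    refine (C4.of_sq h3).cancel h4 (C4_one_sub hi h2 ?_)
    rw [map_div₀, hδ, div_one, hn, exp_le_exp]
    rw [hn, ← exp_zero, exp_lt_exp] at h1
    omega
  · right
    obtain ⟨y, hy⟩ : ∃ y : L, x = δ * y := ⟨x / δ, by field_simp⟩
    have hy1 : ν y = 1 := by
      rw [hy, map_mul, hδ, one_mul] at h1
      exact h1
    obtain ⟨m, t, ht, hyt⟩ := unit4 hi h2 hres hy1
    have hy2 := sq_unit4 hi m t
    rw [← hyt] at hy2
    have hsle : ν (-i * t + (1 + i) * t ^ 2) ≤ 1 :=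
      nu_add_le (nu_mul_le (nu_neg_le' hi1) ht) (nu_mul_le hl1 (nu_pow_le' ht 2))
    rcases Nat.even_or_odd m with hm | hm
    · left
      -- the value of `t` is odd
      have hev := hx.even h4.le
      have e1 : x * (x ^ 2 - δ ^ 2) = δ ^ 3 * (y * (y ^ 2 - 1)) := by
        rw [hy]
        ring
      have e2 : y ^ 2 - 1 = (1 + i) ^ 5 * (t * (-i + (1 + i) * t)) := by
        rw [hy2, hm.neg_one_pow]
        ring
      have h5 : ν (-i + (1 + i) * t) = 1 := by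
        have h6 : ν ((1 + i) * t) < ν (-i) := by
          rw [Valuation.map_neg, nu_i hi, map_mul, hl]
          calc exp (-1) * ν t ≤ exp (-1) * 1 := by gcongr
            _ < 1 := by
              rw [mul_one, ← exp_zero, exp_lt_exp]
              norm_num
        rw [ν.map_add_eq_of_lt_left h6, Valuation.map_neg, nu_i hi]
      have h7 : ν t < 1 := by
        refine lt_of_le_of_ne ht fun h8 => ?_
        rw [e1, e2, map_mul, map_mul, map_mul, map_mul, map_pow, hδ, hy1, h8, h5, nu_lpow hl,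
          one_pow, one_mul, one_mul, mul_one, mul_one, isSquare_exp] at hev
        exact absurd hev (by decide)
      have h8 : C4 ν y := by
        have key : C4 ν (1 + (1 + i) ^ 3 * t) := by
          refine C4.one ?_
          have e : 1 + (1 + i) ^ 3 * t - 1 = (1 + i) ^ 3 * t := by ring
          rw [e, map_mul, nu_lpow hl, nu_four4 h2]
          calc exp (-((3 : ℕ) : ℤ)) * ν t ≤ exp (-((3 : ℕ) : ℤ)) * exp (-1) := by
                gcongr
                have := lt_le (m := 0) (by rw [exp_zero]; exact h7)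
                simpa using this
            _ = exp (-4) := by
              rw [← exp_add]
              norm_num
        rcases ipow_even hi hm with h6 | h6 <;> rw [hyt, h6]
        · rwa [one_mul]
        · refine C4.neg hi ?_
          have e : -(-1 * (1 + (1 + i) ^ 3 * t)) = 1 + (1 + i) ^ 3 * t := by ring
          rwa [e]
      refine C4.of_mul_sq (inv_ne_zero hδ0) ?_
      have e : x * δ * δ⁻¹ ^ 2 = y := by
        rw [hy]
        field_simp
      rwa [e]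
    · right
      obtain ⟨ε, hε, hεm⟩ := ipow_odd hi hm
      rw [hεm] at hyt
      refine ⟨ε, t, hε, ht, by rw [hy, hyt], ?_⟩
      obtain ⟨s, hs⟩ : ∃ s : L, s = -i * t + (1 + i) * t ^ 2 := ⟨_, rfl⟩
      rw [← hs] at hy2 hsle
      -- `x (x² - δ²) = - ε (δ lam)² δ (1 + lam³ t) (1 + i lam³ s)`
      have hS : Sq ν (δ * ((1 + (1 + i) ^ 3 * t) * (1 + i * (1 + i) ^ 3 * s))) := by
        have hl0 : (1 + i) ≠ 0 := by
          rw [← ν.ne_zero_iff, hl]
          exact exp_ne_zero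
        have e : x * (x ^ 2 - δ ^ 2) =
            -ε * (δ * ((1 + (1 + i) ^ 3 * t) * (1 + i * (1 + i) ^ 3 * s))) * (δ * (1 + i)) ^ 2 := by
          rw [hy]
          have e3 : (δ * y) ^ 2 - δ ^ 2 = δ ^ 2 * (i * (1 + i) ^ 2 * (1 + i * (1 + i) ^ 3 * s)) := by
            rw [mul_pow, hy2, hm.neg_one_pow]
            linear_combination (-δ ^ 2 * (1 + i) ^ 5 * s - δ ^ 2 * i - 2 * δ ^ 2) * hi
          rw [e3, hyt]
          linear_combination (δ ^ 3 * ε * (1 + (1 + i) ^ 3 * t) * (1 + i) ^ 2 *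
            (1 + i * (1 + i) ^ 3 * s)) * hi
        rw [e] at hx
        have h9 := Sq.of_mul_sq (mul_ne_zero hδ0 hl0) hx
        rcases hε with h | h
        · rw [h] at h9
          refine Sq.neg' hi ?_
          have e : -(δ * ((1 + (1 + i) ^ 3 * t) * (1 + i * (1 + i) ^ 3 * s))) =
            -1 * (δ * ((1 + (1 + i) ^ 3 * t) * (1 + i * (1 + i) ^ 3 * s))) := by ring
          rwa [e]
        · rw [h, neg_neg, one_mul] at h9
          exact h9
      refine hS.near h4.le ?_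
      have hP1 : ν ((1 + (1 + i) ^ 3 * t) * (1 + i * (1 + i) ^ 3 * s)) = 1 := by
        have h10 : ∀ w : L, ν w ≤ 1 → ν (1 + (1 + i) ^ 3 * w) = 1 := by
          intro w hw
          refine ν.map_one_add_of_lt (lt_of_le_of_lt (mul_le_exp (nu_lpow hl 3) hw) exp3_lt)
        have e : 1 + i * (1 + i) ^ 3 * s = 1 + (1 + i) ^ 3 * (i * s) := by ring
        rw [map_mul, h10 t ht, one_mul, e, h10 _ (nu_mul_le hi1 hsle)]
      have hP0 : (1 + (1 + i) ^ 3 * t) * (1 + i * (1 + i) ^ 3 * s) ≠ 0 := by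
        rw [← ν.ne_zero_iff, hP1]
        exact one_ne_zero
      have e : (1 + (1 + i) ^ 4 * t ^ 2) / ((1 + (1 + i) ^ 3 * t) * (1 + i * (1 + i) ^ 3 * s)) - 1 =
          (1 + i) ^ 5 * (i * t - i * t ^ 2 - i * (1 + i) * t * s) /
            ((1 + (1 + i) ^ 3 * t) * (1 + i * (1 + i) ^ 3 * s)) := by
        rw [div_sub_one hP0, hs]
        congr 1
        linear_combination ((1 + i) ^ 4 * (t ^ 2 - t)) * hi
      rw [e, map_div₀, hP1, div_one, nu_four4 h2]
      refine lt_of_le_of_lt (mul_le_exp (nu_lpow hl 5) ?_) (by rw [exp_lt_exp]; norm_num)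
      exact nu_sub_le' (nu_sub_le' (nu_mul_le hi1 ht) (nu_mul_le hi1 (nu_pow_le' ht 2)))
        (nu_mul_le (nu_mul_le (nu_mul_le hi1 hl1) ht) hsle)
  · left
    have h3 := pt5_big h4.le hδ0 hx0 hx
    have hr : ν (δ / x) < 1 := lt_one_div hx0 (by rw [hδ]; exact h1)
    obtain ⟨m, hm⟩ := par _ hr h3
    refine (C4.of_sq h3).cancel h4 (C4_one_sub hi h2 ?_)
    rw [hn, ← exp_zero, exp_lt_exp] at h1
    rw [map_div₀, hδ, hn, one_div, ← exp_neg, exp_le_exp]
    omega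

/-- **`δ` a unit which is not a square modulo `4`** -/
theorem loc5_lam {i δ a : L} (hi : i ^ 2 = -1) (h2 : ν 2 = exp (-2))
    (hres : ∀ x : L, ν x = 1 → ν (x - 1) < 1) (hδ : ν δ = 1) (hδn : ¬ C4 ν δ)
    (h : GLoc4 ν (δ ^ 2) a) : C4 ν a ∨ C4 ν (a * δ) := by
  have h4 := nu_four4_le h2
  have hl := nu_lam2 hi h2
  have hδ0 : δ ≠ 0 := by
    rintro rfl
    rw [map_zero] at hδ
    exact zero_ne_one hδ
  rcases gloc5 hi h4.le hδ0 h with h | h | ⟨x, hx0, hx, h⟩
  · exact Or.inl (C4.of_sq h)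
  · exact Or.inr (C4.of_sq h)
  · rcases loc5_unit_pt hi h2 hres hδ hx0 hx with h1 | h1 | ⟨ε, t, -, ht, -, h1⟩
    · exact Or.inl (C4.cancel h4 (C4.of_sq h) h1)
    · exact Or.inr (C4.trans h4 (C4.of_sq h) h1)
    · exfalso
      refine hδn ((C4.of_sq h1).cancel h4 (C4.one ?_))
      have e : 1 + (1 + i) ^ 4 * t ^ 2 - 1 = (1 + i) ^ 4 * t ^ 2 := by ring
      rw [e, nu_four4 h2]
      have h3 := mul_le_exp (nu_lpow hl 4) (nu_pow_le' ht 2)
      simpa using h3

/-- **`δ = ± (1 + 4 e)`** -/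
theorem loc5_X {i δ a μ e e' : L} (hi : i ^ 2 = -1) (h2 : ν 2 = exp (-2))
    (hres : ∀ x : L, ν x = 1 → ν (x - 1) < 1) (hμ : μ = 1 ∨ μ = -1) (he : ν e ≤ 1)
    (he' : ν e' ≤ 1) (hee : ν (e + e') < 1) (hδe : δ = μ * (1 + 4 * e))
    (h : GLoc4 ν (δ ^ 2) a) : C4 ν a ∨ C4 ν (a * (i ^ 1 * (1 + (1 + i) ^ 3 * e'))) := by
  have h4 := nu_four4_le h2
  have hl := nu_lam2 hi h2
  have hi1 := (nu_i (ν := ν) hi).le
  have hl1 : ν (1 + i) ≤ 1 := nu_add_le (map_one ν).le hi1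
  obtain ⟨hδ, hδc⟩ := D_data hi h2 hμ hδe he
  have hl4 : (1 + i) ^ 4 = -4 := by linear_combination (i ^ 2 + 4 * i + 5) * hi
  have hδ0 : δ ≠ 0 := by
    rintro rfl
    rw [map_zero] at hδ
    exact zero_ne_one hδ
  rcases gloc5 hi h4.le hδ0 h with h | h | ⟨x, hx0, hx, h⟩
  · exact Or.inl (C4.of_sq h)
  · exact Or.inl (C4.cancel h4 (C4.of_sq h) hδc)
  · rcases loc5_unit_pt hi h2 hres hδ hx0 hx with h1 | h1 | ⟨ε, t, hε, ht, hxt, h1⟩
    · exact Or.inl (C4.cancel h4 (C4.of_sq h) h1)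
    · exact Or.inl (C4.cancel h4 (C4.of_sq h) (C4.cancel h4 h1 hδc))
    · right
      -- `t` is `e` modulo `lam`
      have hte : ν (t + e) < 1 := by
        by_contra hc
        have h3 : ν (t ^ 2 - t) < 1 := by
          have e3 : t ^ 2 - t = t * (t - 1) := by ring
          rw [e3, map_mul]
          rcases ht.lt_or_eq with h5 | h5
          · exact mul_lt_one_of_lt_of_le h5 (nu_sub_le' ht (map_one ν).le)
          · rw [h5, one_mul]
            exact hres t h5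
        have h2e : ν (2 * e) < 1 := by
          rw [map_mul, h2]
          calc exp (-2) * ν e ≤ exp (-2) * 1 := by gcongr
            _ < 1 := by
              rw [mul_one, ← exp_zero, exp_lt_exp]
              norm_num
        have h6 : ν (t ^ 2 - e) = 1 := by
          have h7 : ν (t + e) = 1 := le_antisymm (nu_add_le ht he) (not_lt.1 hc)
          have e3 : t ^ 2 - e = (t + e) + (t ^ 2 - t - 2 * e) := by ring
          rw [e3, ν.map_add_eq_of_lt_left, h7]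
          rw [h7]
          exact lt_of_le_of_lt (ν.map_sub _ _) (max_lt h3 h2e)
        obtain ⟨y, hy, h7⟩ : ∃ y : L, ν y ≤ 1 ∧ t ^ 2 - e = 1 + (1 + i) * y := by
          obtain ⟨y, hy, h7⟩ := div_lam hl (hres _ h6)
          exact ⟨y, hy, by linear_combination h7⟩
        -- `μ (1 + lam⁴ (t² - e - ...))` is a square
        refine not_Sq (Q := δ * (1 + (1 + i) ^ 4 * t ^ 2)) (δ := μ)
          (y := y - (1 + i) ^ 3 * e * t ^ 2) hi h2 hres hμ ?_ ?_ h1
        · exact nu_sub_le' hy (nu_mul_le (nu_mul_le (nu_pow_le' hl1 3) he) (nu_pow_le' ht 2))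
        · rw [hδe]
          have h8 : (1 + i) ^ 4 * (1 + (1 + i) * y) = (1 + i) ^ 4 * (t ^ 2 - e) := by rw [h7]
          linear_combination (-μ) * h8 + (μ * e + μ * e * (1 + i) ^ 4 * t ^ 2) * hl4
      have hte' : ν (t + e') ≤ exp (-1) := by
        have h2e : ν (2 * e) < 1 := by
          rw [map_mul, h2]
          calc exp (-2) * ν e ≤ exp (-2) * 1 := by gcongr
            _ < 1 := by
              rw [mul_one, ← exp_zero, exp_lt_exp]
              norm_num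
        have e3 : t + e' = (t + e) + (e + e') - 2 * e := by ring
        have h5 : ν (t + e') < 1 := by
          rw [e3]
          exact lt_of_le_of_lt (ν.map_sub _ _) (max_lt (ν.map_add_lt hte hee) h2e)
        have h6 := lt_le (m := 0) (by rw [exp_zero]; exact h5)
        simpa using h6
      refine C4.trans h4 (C4.of_sq h) ?_
      -- `x w = - ε δ (1 + lam³ (t + e') + lam⁶ t e')`
      have h9 : C4 ν (δ * (1 + ((1 + i) ^ 3 * (t + e') + (1 + i) ^ 6 * (t * e')))) := by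
        refine hδc.mul h4 (C4.one ?_)
        have e3 : 1 + ((1 + i) ^ 3 * (t + e') + (1 + i) ^ 6 * (t * e')) - 1 =
            (1 + i) ^ 3 * (t + e') + (1 + i) ^ 6 * (t * e') := by ring
        rw [e3, nu_four4 h2]
        refine ν.map_add_le ?_ ?_
        · rw [map_mul, nu_lpow hl]
          calc exp (-((3 : ℕ) : ℤ)) * ν (t + e') ≤ exp (-((3 : ℕ) : ℤ)) * exp (-1) := by gcongr
            _ = exp (-4) := by
              rw [← exp_add]
              norm_num
        · refine (mul_le_exp (nu_lpow hl 6) (nu_mul_le ht he')).trans ?_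
          rw [exp_le_exp]
          norm_num
      have e3 : x * (i ^ 1 * (1 + (1 + i) ^ 3 * e')) =
          -ε * (δ * (1 + ((1 + i) ^ 3 * (t + e') + (1 + i) ^ 6 * (t * e')))) := by
        rw [hxt]
        linear_combination (δ * ε * (1 + (1 + i) ^ 3 * t) * (1 + (1 + i) ^ 3 * e')) * hi
      rw [e3]
      rcases hε with h10 | h10
      · rw [h10]
        refine C4.neg hi ?_
        have e4 : -(-1 * (δ * (1 + ((1 + i) ^ 3 * (t + e') + (1 + i) ^ 6 * (t * e'))))) =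
            δ * (1 + ((1 + i) ^ 3 * (t + e') + (1 + i) ^ 6 * (t * e'))) := by ring
        rwa [e4]
      · rw [h10, neg_neg, one_mul]
        exact h9

end

end Pool.Agent.Lib.MP_1a91b9_ntQ.C
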