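import Pool.Agent.Lib.MP_1a91b9_ntQ.C.Loc4

/-!
# MP_1a91b9_nt (TwistDensity), quartic twists, part C: the local image at `lam` for `D = ± 1` modulo `4`

`4 = - lam ^ 4`. `D = σ (1 + 4 u)`, `σ = ± 1`.
(X1) `σ = -1`, `u = ρ + i n` modulo `lam ^ 2`: `a` or `a i (1 + lam ^ 3 ρ)` is a square modulo `4`.
(X2) `σ = 1`, `u = ρ + i` modulo `lam ^ 2`: `a` or `a (1 + lam ^ 3)` is a square modulo `4`.
(X3) `σ = 1`, `u = ρ + lam ^ 2 κ` modulo `lam ^ 3`: `a` or `a i (1 + lam ^ 3 (ρ + κ))` is a square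
modulo `4`.
-/

set_option autoImplicit false
set_option linter.unusedSectionVars false
set_option linter.unusedVariables false

namespace Pool.Agent.Lib.MP_1a91b9_ntQ.C

open WithZero
open Pool.Agent.Lib.MP_1a91b9_ntH.C (Sq exists_nu isSquare_exp nu_one)

variable {L : Type*} [Field L] [CharZero L] {ν : Valuation L ℤᵐ⁰}

/-! ### integrality -/

theorem nu_sub_le' {x y : L} (hx : ν x ≤ 1) (hy : ν y ≤ 1) : ν (x - y) ≤ 1 := by
  rw [sub_eq_add_neg]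
  refine nu_add_le hx ?_
  rwa [Valuation.map_neg]

theorem nu_neg_le' {x : L} (hx : ν x ≤ 1) : ν (-x) ≤ 1 := by rwa [Valuation.map_neg]

theorem nu_pow_le' {x : L} (hx : ν x ≤ 1) (n : ℕ) : ν (x ^ n) ≤ 1 := by
  rw [map_pow]
  exact pow_le_one' hx n

theorem nu_natCast_le' (n : ℕ) : ν (n : L) ≤ 1 := by
  induction n with
  | zero => rw [Nat.cast_zero, map_zero]; exact zero_le
  | succ n ih => rw [Nat.cast_succ]; exact nu_add_le ih (map_one ν).le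

theorem nu_ofNat_le' (n : ℕ) [n.AtLeastTwo] : ν (OfNat.ofNat n : L) ≤ 1 := nu_natCast_le' n

theorem mul_le_exp {x y : L} {k : ℕ} (hx : ν x = exp (-(k : ℤ))) (hy : ν y ≤ 1) :
    ν (x * y) ≤ exp (-(k : ℤ)) := by
  rw [map_mul, hx]
  calc exp (-(k : ℤ)) * ν y ≤ exp (-(k : ℤ)) * 1 := by gcongr
    _ = exp (-(k : ℤ)) := mul_one _

/-! ### squares -/

/-- the square of a unit is `± 1` modulo `lam ^ 5` -/
theorem unit_near {i : L} (hi : i ^ 2 = -1) (h2 : ν 2 = exp (-2))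
    (hres : ∀ x : L, ν x = 1 → ν (x - 1) < 1) {b : L} (hb : ν b = 1) :
    ∃ ε : L, (ε = 1 ∨ ε = -1) ∧ ν (b ^ 2 - ε) ≤ exp (-((5 : ℕ) : ℤ)) := by
  have hl := nu_lam2 hi h2
  have hi1 := (nu_i (ν := ν) hi).le
  obtain ⟨m, t, ht, hbt⟩ := unit4 hi h2 hres hb
  refine ⟨(-1) ^ m, neg_one_pow_eq_or L m, ?_⟩
  rw [hbt, sq_unit4 hi]
  have e : (-1) ^ m * (1 + (1 + i) ^ 5 * (-i * t + (1 + i) * t ^ 2)) - (-1) ^ m =
      (1 + i) ^ 5 * ((-1) ^ m * (-i * t + (1 + i) * t ^ 2)) := by ring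
  rw [e]
  refine mul_le_exp (nu_lpow hl 5) ?_
  refine nu_mul_le (nu_pow_le' ?_ m) ?_ <;> (repeat' first
      | assumption | exact (map_one _).le | exact nu_ofNat_le' _ | apply nu_add_le
      | apply nu_sub_le' | apply nu_neg_le' | apply nu_mul_le | apply nu_pow_le')

theorem near_unit {b Q : L} (hb : b ≠ 0) (hQ : ν Q = 1) (h : ν (Q / b ^ 2 - 1) < 1) :
    ν b = 1 ∧ ν (Q - b ^ 2) = ν (Q / b ^ 2 - 1) := by
  have h1 : ν (Q / b ^ 2) = 1 := by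
    have := ν.map_one_add_of_lt (x := Q / b ^ 2 - 1) h
    rwa [add_sub_cancel] at this
  have hb0 : ν b ≠ 0 := (Valuation.ne_zero_iff _).2 hb
  have hvb : ν b = 1 := by
    rw [map_div₀, map_pow, hQ, div_eq_one_iff_eq (pow_ne_zero 2 hb0)] at h1
    exact (pow_eq_one_iff_of_nonneg zero_le two_ne_zero).1 h1.symm
  refine ⟨hvb, ?_⟩
  have e : Q - b ^ 2 = (Q / b ^ 2 - 1) * b ^ 2 := by field_simp
  rw [e, map_mul, map_pow, hvb, one_pow, mul_one]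

/-- a unit which is a square modulo `4` is `± 1` modulo `lam ^ 4` -/
theorem C4_near {i : L} (hi : i ^ 2 = -1) (h2 : ν 2 = exp (-2))
    (hres : ∀ x : L, ν x = 1 → ν (x - 1) < 1) {Q : L} (hQ : ν Q = 1) (h : C4 ν Q) :
    ∃ ε : L, (ε = 1 ∨ ε = -1) ∧ ν (Q - ε) ≤ exp (-((4 : ℕ) : ℤ)) := by
  obtain ⟨b, hb, hb'⟩ := h
  obtain ⟨h3, h4⟩ := near_unit hb hQ (lt_of_le_of_lt hb' (nu_four4_le h2))
  obtain ⟨ε, hε, h5⟩ := unit_near hi h2 hres h3
  refine ⟨ε, hε, ?_⟩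
  have e : Q - ε = (Q - b ^ 2) + (b ^ 2 - ε) := by ring
  rw [e]
  refine (ν.map_add _ _).trans (max_le ?_ (h5.trans ?_))
  · rw [h4]
    rw [nu_four4 h2] at hb'
    exact hb'
  · rw [exp_le_exp]
    norm_num

/-- a unit which is a square is `± 1` modulo `lam ^ 5` -/
theorem Sq_near {i : L} (hi : i ^ 2 = -1) (h2 : ν 2 = exp (-2))
    (hres : ∀ x : L, ν x = 1 → ν (x - 1) < 1) {Q : L} (hQ : ν Q = 1) (h : Sq ν Q) :
    ∃ ε : L, (ε = 1 ∨ ε = -1) ∧ ν (Q - ε) ≤ exp (-((5 : ℕ) : ℤ)) := by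
  obtain ⟨b, hb, hb'⟩ := h
  obtain ⟨h3, h4⟩ := near_unit hb hQ (hb'.trans (nu_four4_le h2))
  obtain ⟨ε, hε, h5⟩ := unit_near hi h2 hres h3
  refine ⟨ε, hε, ?_⟩
  have e : Q - ε = (Q - b ^ 2) + (b ^ 2 - ε) := by ring
  rw [e]
  refine (ν.map_add _ _).trans (max_le ?_ h5)
  rw [h4]
  rw [nu_four4 h2] at hb'
  have := lt_le hb'
  refine this.trans ?_
  rw [exp_le_exp]
  norm_num

/-- `δ (1 + lam ^ k y)` with a unit `y` is not near to `± 1` -/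
theorem not_near {i : L} (hi : i ^ 2 = -1) (h2 : ν 2 = exp (-2)) {δ ε y : L}
    (hδ : δ = 1 ∨ δ = -1) (hε : ε = 1 ∨ ε = -1) (hy : ν y = 1) {k n : ℕ} (hk : 2 < k) (hn : k < n)
    (h : ν (δ * (1 + (1 + i) ^ k * y) - ε) ≤ exp (-(n : ℤ))) : False := by
  have hl := nu_lam2 hi h2
  have h3 : ν ((1 + i) ^ k * y) = exp (-(k : ℤ)) := by rw [map_mul, hy, mul_one, nu_lpow hl]
  have key : ν (1 + (1 + i) ^ k * y - δ * ε) ≤ exp (-(n : ℤ)) := by
    have e : 1 + (1 + i) ^ k * y - δ * ε = δ * (δ * (1 + (1 + i) ^ k * y) - ε) := by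
      rcases hδ with h | h <;> rw [h] <;> ring
    rw [e, map_mul, nu_sign hδ, one_mul]
    exact h
  have hδε : δ * ε = 1 ∨ δ * ε = -1 := by
    rcases hδ with h5 | h5 <;> rcases hε with h6 | h6 <;> rw [h5, h6]
    · left; ring
    · right; ring
    · right; ring
    · left; ring
  rcases hδε with h5 | h5 <;> rw [h5] at key
  · rw [add_sub_cancel_left, h3, exp_le_exp] at key
    omega
  · have e : 1 + (1 + i) ^ k * y - -1 = 2 + (1 + i) ^ k * y := by ring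
    rw [e, ν.map_add_eq_of_lt_left (by
      rw [h3, h2, exp_lt_exp]
      omega), h2, exp_le_exp] at key
    omega

theorem not_C4 {i : L} (hi : i ^ 2 = -1) (h2 : ν 2 = exp (-2))
    (hres : ∀ x : L, ν x = 1 → ν (x - 1) < 1) {Q δ y : L} (hδ : δ = 1 ∨ δ = -1) (hy : ν y ≤ 1)
    (hQ : Q = δ * (1 + (1 + i) ^ 3 * (1 + (1 + i) * y))) (h : C4 ν Q) : False := by
  have hl := nu_lam2 hi h2
  have hi1 := (nu_i (ν := ν) hi).le
  have hQ1 : ν Q = 1 := by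
    have e : Q = δ * (1 + (1 + i) * ((1 + i) ^ 2 * (1 + (1 + i) * y))) := by rw [hQ]; ring
    rw [e, map_mul, nu_sign hδ, one_mul]
    refine nu_onel hl ?_
    (repeat' first
      | assumption | exact (map_one _).le | exact nu_ofNat_le' _ | apply nu_add_le
      | apply nu_sub_le' | apply nu_neg_le' | apply nu_mul_le | apply nu_pow_le')
  obtain ⟨ε, hε, h5⟩ := C4_near hi h2 hres hQ1 h
  rw [hQ] at h5
  exact not_near hi h2 hδ hε (nu_onel hl hy) (k := 3) (n := 4) (by norm_num) (by norm_num) h5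

theorem not_Sq {i : L} (hi : i ^ 2 = -1) (h2 : ν 2 = exp (-2))
    (hres : ∀ x : L, ν x = 1 → ν (x - 1) < 1) {Q δ y : L} (hδ : δ = 1 ∨ δ = -1) (hy : ν y ≤ 1)
    (hQ : Q = δ * (1 + (1 + i) ^ 4 * (1 + (1 + i) * y))) (h : Sq ν Q) : False := by
  have hl := nu_lam2 hi h2
  have hi1 := (nu_i (ν := ν) hi).le
  have hQ1 : ν Q = 1 := by
    have e : Q = δ * (1 + (1 + i) * ((1 + i) ^ 3 * (1 + (1 + i) * y))) := by rw [hQ]; ring
    rw [e, map_mul, nu_sign hδ, one_mul]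
    refine nu_onel hl ?_
    (repeat' first
      | assumption | exact (map_one _).le | exact nu_ofNat_le' _ | apply nu_add_le
      | apply nu_sub_le' | apply nu_neg_le' | apply nu_mul_le | apply nu_pow_le')
  obtain ⟨ε, hε, h5⟩ := Sq_near hi h2 hres hQ1 h
  rw [hQ] at h5
  exact not_near hi h2 hδ hε (nu_onel hl hy) (k := 4) (n := 5) (by norm_num) (by norm_num) h5

/-- two impossible forms of `g` -/
theorem killX {i : L} (hi : i ^ 2 = -1) (h2 : ν 2 = exp (-2))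
    (hres : ∀ x : L, ν x = 1 → ν (x - 1) < 1) {m r : ℕ} {t y g x : L} (ht : ν t ≤ 1)
    (hy : ν y ≤ 1) (hx : x = i ^ m * (1 + (1 + i) ^ 3 * t))
    (hg : g = (1 + i) * (1 + (1 + i) * y) ∨ (g = i ^ r * (1 + (1 + i) ^ 2 * y) ∧ Odd (m + r)))
    (hP : ν g < exp (-4) ∨ Sq ν (x * g)) : False := by
  have hl := nu_lam2 hi h2
  have hi1 := (nu_i (ν := ν) hi).le
  have hx1 : ν x = 1 := by
    have e : x = i ^ m * (1 + (1 + i) * ((1 + i) ^ 2 * t)) := by rw [hx]; ring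
    rw [e, map_mul, nu_ipow hi, one_mul]
    refine nu_onel hl ?_
    (repeat' first
      | assumption | exact (map_one _).le | exact nu_ofNat_le' _ | apply nu_add_le
      | apply nu_sub_le' | apply nu_neg_le' | apply nu_mul_le | apply nu_pow_le')
  rcases hg with h | ⟨h, hm⟩
  · have h3 : ν g = exp (-1) := by rw [h, map_mul, hl, nu_onel hl hy, mul_one]
    rcases hP with h4 | h4
    · rw [h3, exp_lt_exp] at h4
      norm_num at h4
    · have h5 := h4.even (nu_four4_le h2).le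
      rw [map_mul, hx1, one_mul, h3, isSquare_exp] at h5
      exact absurd h5 (by decide)
  · have h3 : ν g = 1 := by
      have e : g = i ^ r * (1 + (1 + i) * ((1 + i) * y)) := by rw [h]; ring
      rw [e, map_mul, nu_ipow hi, one_mul]
      refine nu_onel hl ?_
      (repeat' first
      | assumption | exact (map_one _).le | exact nu_ofNat_le' _ | apply nu_add_le
      | apply nu_sub_le' | apply nu_neg_le' | apply nu_mul_le | apply nu_pow_le')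
    rcases hP with h4 | h4
    · rw [h3, ← exp_zero, exp_lt_exp] at h4
      norm_num at h4
    · have e : x * g = i ^ (m + r) * (1 + (1 + i) ^ 2 * (y + (1 + i) * t + (1 + i) ^ 3 * t * y)) := by
        rw [hx, h, pow_add]
        ring
      have h5 := C4.of_sq h4
      rw [e] at h5
      have h6 := even_of_C4 hi h2 hres (by (repeat' first
      | assumption | exact (map_one _).le | exact nu_ofNat_le' _ | apply nu_add_le
      | apply nu_sub_le' | apply nu_neg_le' | apply nu_mul_le | apply nu_pow_le')) h5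
      rw [← Nat.not_even_iff_odd] at hm
      exact hm h6

/-- the abscissas which are units -/
theorem unitX {i D x u σ : L} (hi : i ^ 2 = -1) (h2 : ν 2 = exp (-2))
    (hres : ∀ x : L, ν x = 1 → ν (x - 1) < 1) (hσ : σ = 1 ∨ σ = -1) (hD : D = σ * (1 + 4 * u))
    (hu : ν u ≤ 1) (hx : ν x = 1) (hP : ν (x ^ 2 / D - 1) < ν 16 ∨ Sq ν (x * (x ^ 2 - D))) :
    ∃ (m : ℕ) (t : L), ν t ≤ 1 ∧ x = i ^ m * (1 + (1 + i) ^ 3 * t) ∧
      (((-1) ^ m = σ ∧ (ν (u + (1 + i) * (-i * t + (1 + i) * t ^ 2)) < exp (-4) ∨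
        Sq ν (x * (u + (1 + i) * (-i * t + (1 + i) * t ^ 2))))) ∨
      (σ = 1 ∧ Odd m ∧ Sq ν ((1 + (1 + i) ^ 3 * t) *
        (1 - i * (1 + i) ^ 2 * u + i * (1 + i) ^ 3 * (-i * t + (1 + i) * t ^ 2))))) := by
  have hl := nu_lam2 hi h2
  have hi1 := (nu_i (ν := ν) hi).le
  have hl0 : (1 + i) ≠ 0 := by
    rw [← ν.ne_zero_iff, hl]
    exact exp_ne_zero
  obtain ⟨m, t, ht, hxe⟩ := unit4 hi h2 hres hx
  refine ⟨m, t, ht, hxe, ?_⟩
  obtain ⟨s, hs⟩ : ∃ s : L, s = -i * t + (1 + i) * t ^ 2 := ⟨_, rfl⟩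
  rw [← hs]
  have hs1 : ν s ≤ 1 := by
    rw [hs]
    (repeat' first
      | assumption | exact (map_one _).le | exact nu_ofNat_le' _ | apply nu_add_le
      | apply nu_sub_le' | apply nu_neg_le' | apply nu_mul_le | apply nu_pow_le')
  have hx2 : x ^ 2 = (-1) ^ m * (1 + (1 + i) ^ 5 * s) := by rw [hxe, sq_unit4 hi, hs]
  obtain ⟨ε, hε, hεm⟩ : ∃ ε : L, (ε = 1 ∨ ε = -1) ∧ (-1 : L) ^ m = ε :=
    ⟨_, neg_one_pow_eq_or L m, rfl⟩
  rw [hεm] at hx2 ⊢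
  have hl4 : (1 + i) ^ 4 = -4 := by linear_combination (i ^ 2 + 4 * i + 5) * hi
  have hD1 : ν D = 1 := by
    have e : D = σ * (1 + (1 + i) * (-(1 + i) ^ 3 * u)) := by
      rw [hD]
      linear_combination (σ * u) * hl4
    rw [e, map_mul, nu_sign hσ, one_mul]
    refine nu_onel hl ?_
    (repeat' first
      | assumption | exact (map_one _).le | exact nu_ofNat_le' _ | apply nu_add_le
      | apply nu_sub_le' | apply nu_neg_le' | apply nu_mul_le | apply nu_pow_le')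
  have hD0 : D ≠ 0 := by
    rintro rfl
    rw [map_zero] at hD1
    exact zero_ne_one hD1
  have h16 : ν 16 = exp (-8) := by
    have e : (16 : L) = 4 * 4 := by norm_num
    rw [e, map_mul, nu_four4 h2, ← exp_add]
    norm_num
  have hdiv : ν (x ^ 2 / D - 1) = ν (x ^ 2 - D) := by
    have e : x ^ 2 / D - 1 = (x ^ 2 - D) / D := by field_simp
    rw [e, map_div₀, hD1, div_one]
  rw [hdiv, h16] at hP
  by_cases hεσ : ε = σ
  · left
    refine ⟨hεσ, ?_⟩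
    have e : x ^ 2 - D = σ * ((1 + i) ^ 4 * (u + (1 + i) * s)) := by
      rw [hx2, hD, hεσ]
      linear_combination (-σ * u) * hl4
    rcases hP with h | h
    · left
      rw [e, map_mul, nu_sign hσ, one_mul, map_mul, nu_lpow hl] at h
      by_contra hc
      rw [not_lt] at hc
      have h5 : exp (-((4 : ℕ) : ℤ)) * exp (-4) ≤
          exp (-((4 : ℕ) : ℤ)) * ν (u + (1 + i) * s) := by gcongr
      rw [← exp_add] at h5
      have h6 := lt_of_le_of_lt h5 h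
      rw [exp_lt_exp] at h6
      norm_num at h6
    · right
      rw [e] at h
      have h5 : x * (σ * ((1 + i) ^ 4 * (u + (1 + i) * s))) =
          σ * (x * (u + (1 + i) * s) * ((1 + i) ^ 2) ^ 2) := by ring
      rw [h5] at h
      refine Sq.of_mul_sq (pow_ne_zero 2 hl0) ?_
      rcases hσ with h6 | h6 <;> rw [h6] at h
      · rwa [one_mul] at h
      · refine Sq.neg' hi ?_
        rwa [neg_one_mul] at h
  · right
    have hεσ' : ε = -σ := by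
      rcases hε with h5 | h5 <;> rcases hσ with h6 | h6 <;> rw [h5, h6] at hεσ ⊢
      · exact absurd rfl hεσ
      · ring
      · exact absurd rfl hεσ
    have e : x ^ 2 - D = σ * ((1 + i) ^ 2 * (i + (1 + i) ^ 2 * u - (1 + i) ^ 3 * s)) := by
      rw [hx2, hD, hεσ']
      linear_combination (-σ * (i ^ 2 * u + 4 * i * u + i + 5 * u + 2)) * hi
    have hS : Sq ν (x * (x ^ 2 - D)) := by
      rcases hP with h | h
      · exfalso
        have e1 : x ^ 2 - D = σ * ((1 + i) ^ 2 * (i * (1 + (1 + i) * (-i * (1 + i) * u +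
            i * (1 + i) ^ 2 * s)))) := by
          rw [e]
          linear_combination (σ * (1 + i) ^ 2 * ((1 + i) ^ 2 * u - (1 + i) ^ 3 * s)) * hi
        rw [e1, map_mul, nu_sign hσ, one_mul, map_mul, nu_lpow hl, map_mul, nu_i hi, one_mul,
          nu_onel hl (by (repeat' first
      | assumption | exact (map_one _).le | exact nu_ofNat_le' _ | apply nu_add_le
      | apply nu_sub_le' | apply nu_neg_le' | apply nu_mul_le | apply nu_pow_le')), mul_one, exp_lt_exp] at h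
        norm_num at h
      · exact h
    have e2 : x * (x ^ 2 - D) = σ * (i ^ (m + 1) * ((1 + (1 + i) ^ 3 * t) *
        (1 - i * (1 + i) ^ 2 * u + i * (1 + i) ^ 3 * s)) * (1 + i) ^ 2) := by
      have e3 : i + (1 + i) ^ 2 * u - (1 + i) ^ 3 * s =
          i * (1 - i * (1 + i) ^ 2 * u + i * (1 + i) ^ 3 * s) := by
        linear_combination ((1 + i) ^ 2 * u - (1 + i) ^ 3 * s) * hi
      rw [e, e3, hxe, pow_succ]
      ring
    have h3 : Sq ν (i ^ (m + 1) * ((1 + (1 + i) ^ 3 * t) *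
        (1 - i * (1 + i) ^ 2 * u + i * (1 + i) ^ 3 * s))) := by
      refine Sq.of_mul_sq hl0 ?_
      rw [e2] at hS
      rcases hσ with h6 | h6 <;> rw [h6] at hS
      · rwa [one_mul] at hS
      · refine Sq.neg' hi ?_
        rwa [neg_one_mul] at hS
    have h4 : Even (m + 1) := by
      refine even_of_C4 hi h2 hres (t := (1 + i) * t + (1 + (1 + i) ^ 3 * t) * (-i * u +
        i * (1 + i) * s)) (by (repeat' first
      | assumption | exact (map_one _).le | exact nu_ofNat_le' _ | apply nu_add_le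
      | apply nu_sub_le' | apply nu_neg_le' | apply nu_mul_le | apply nu_pow_le')) ?_
      have e4 : i ^ (m + 1) * (1 + (1 + i) ^ 2 * ((1 + i) * t + (1 + (1 + i) ^ 3 * t) * (-i * u +
          i * (1 + i) * s))) = i ^ (m + 1) * ((1 + (1 + i) ^ 3 * t) *
          (1 - i * (1 + i) ^ 2 * u + i * (1 + i) ^ 3 * s)) := by ring
      rw [e4]
      exact C4.of_sq h3
    have hm : Odd m := by
      rw [← Nat.not_even_iff_odd]
      intro h5
      exact absurd (h5.add_odd (by decide : Odd 1)) (by rwa [Nat.not_odd_iff_even])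
    have hε1 : ε = -1 := by rw [← hεm, hm.neg_one_pow]
    refine ⟨?_, hm, ?_⟩
    · have h5 : -σ = -1 := by rw [← hεσ', hε1]
      exact neg_injective h5
    · rcases ipow_even hi h4 with h6 | h6 <;> rw [h6] at h3
      · rwa [one_mul] at h3
      · refine Sq.neg' hi ?_
        rwa [neg_one_mul] at h3

/-- the good abscissas -/
theorem goodX {i : L} (hi : i ^ 2 = -1) (h2 : ν 2 = exp (-2)) {m r : ℕ} {ρ t₁ x : L}
    (hρ : ρ = 0 ∨ ρ = 1) (ht : ν t₁ ≤ 1) (hx : x = i ^ m * (1 + (1 + i) ^ 3 * (ρ + (1 + i) * t₁)))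
    (hm : Even (m + r)) : C4 ν (x * (i ^ r * (1 + (1 + i) ^ 3 * ρ))) := by
  have hi1 := (nu_i (ν := ν) hi).le
  obtain ⟨μ, hμ, hμm⟩ : ∃ μ : L, (μ = 1 ∨ μ = -1) ∧ i ^ (m + r) = μ := ⟨_, ipow_even hi hm, rfl⟩
  rcases hρ with h | h
  · have e : x * (i ^ r * (1 + (1 + i) ^ 3 * ρ)) = μ * (1 + (1 + i) ^ 4 * t₁) := by
      rw [hx, h, ← hμm, pow_add]
      ring
    rw [e]
    exact C4_sign hi h2 hμ ht
  · have e : x * (i ^ r * (1 + (1 + i) ^ 3 * ρ)) =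
        μ * (1 + (1 + i) ^ 4 * (2 * i * t₁ + i - t₁ + 1)) := by
      rw [hx, h, ← hμm, pow_add]
      linear_combination (i ^ m * i ^ r * (i ^ 5 * t₁ + 7 * i ^ 4 * t₁ + 18 * i ^ 3 * t₁ + i ^ 4 + 22 * i ^ 2 * t₁ + 5 * i ^ 3 + 13 * i * t₁ + 9 * i ^ 2 + 7 * i + 3 * t₁ + 2)) * hi
    rw [e]
    exact C4_sign hi h2 hμ (by (repeat' first
      | assumption | exact (map_one _).le | exact nu_ofNat_le' _ | apply nu_add_le
      | apply nu_sub_le' | apply nu_neg_le' | apply nu_mul_le | apply nu_pow_le'))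

/-- the reduction to the abscissas which are units -/
theorem loc4_X {i D a w : L} (hi : i ^ 2 = -1) (h2 : ν 2 = exp (-2)) (hD : ν D = 1)
    (hDc : C4 ν D) (hpt : ∀ x : L, ν x = 1 →
      (ν (x ^ 2 / D - 1) < ν 16 ∨ Sq ν (x * (x ^ 2 - D))) → C4 ν x ∨ C4 ν (x * w))
    (h : GLoc4 ν D a) : C4 ν a ∨ C4 ν (a * w) := by
  have h4 := nu_four4_le h2
  have hD0 : D ≠ 0 := by
    rintro rfl
    rw [map_zero] at hD
    exact zero_ne_one hD
  have key : ∀ x : L, x ≠ 0 → Sq ν (a * x) → (C4 ν x ∨ C4 ν (x * w)) →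
      C4 ν a ∨ C4 ν (a * w) := by
    intro x hx0 hax hx
    rcases hx with h1 | h1
    · exact Or.inl (C4.cancel h4 (C4.of_sq hax) h1)
    · exact Or.inr (C4.trans h4 (C4.of_sq hax) h1)
  rcases h with h | h | ⟨x, hx0, hx, h⟩ | ⟨x, hx0, hx, h⟩
  · exact Or.inl (C4.of_sq h)
  · exact Or.inl (C4.cancel h4 (C4.of_sq h) hDc)
  · refine key x hx0 h (hpt x ?_ (Or.inl hx))
    have h16 : ν 16 < 1 := by
      have e : (16 : L) = 4 * 4 := by norm_num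
      rw [e, map_mul, nu_four4 h2, ← exp_add, ← exp_zero, exp_lt_exp]
      norm_num
    have h1 : ν (x ^ 2 / D) = 1 := by
      have := ν.map_one_add_of_lt (x := x ^ 2 / D - 1) (hx.trans h16)
      rwa [add_sub_cancel] at this
    rw [map_div₀, hD, div_one, map_pow] at h1
    exact (pow_eq_one_iff_of_nonneg zero_le two_ne_zero).1 h1
  · by_cases hx1 : ν x = 1
    · exact key x hx0 h (hpt x hx1 (Or.inr hx))
    refine key x hx0 h (Or.inl ?_)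
    have hev := hx.even h4.le
    have hxx : x ^ 2 - D ≠ 0 := fun h => hx.ne h4.le (by rw [h, mul_zero])
    obtain ⟨n, hn⟩ := exists_nu ν hx0
    rcases lt_trichotomy n 0 with h0 | h0 | h0
    · have h3 : ν (x ^ 2) < ν D := by
        rw [map_pow, hn, hD, ← exp_nsmul, ← exp_zero, exp_lt_exp]
        simp only [nsmul_eq_mul, Nat.cast_ofNat]
        omega
      rw [map_mul, nu_subr h3, hD, mul_one, hn, isSquare_exp] at hev
      have h5 : C4 ν (-(x * D)) := by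
        refine C4.congr h4 (C4.of_sq hx) ?_
        have e : -(x * D) / (x * (x ^ 2 - D)) - 1 = -(x ^ 2 / (x ^ 2 - D)) := by
          field_simp
          ring
        rw [e, Valuation.map_neg, map_div₀, nu_subr h3, hD, div_one, map_pow, hn, ← exp_nsmul,
          nu_four4 h2, exp_le_exp]
        simp only [nsmul_eq_mul, Nat.cast_ofNat]
        obtain ⟨r, hr⟩ := hev
        omega
      exact C4.cancel h4 (C4.neg hi h5) hDc
    · exact absurd (by rw [hn, h0, exp_zero]) hx1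
    · have h3 : ν D < ν (x ^ 2) := by
        rw [map_pow, hn, hD, ← exp_nsmul, ← exp_zero, exp_lt_exp]
        simp only [nsmul_eq_mul, Nat.cast_ofNat]
        omega
      rw [map_mul, nu_subl h3, map_pow, hn, ← exp_nsmul, ← exp_add, isSquare_exp] at hev
      simp only [nsmul_eq_mul, Nat.cast_ofNat] at hev
      have hev' := odd_three hev
      have h5 : C4 ν (x ^ 3) := by
        refine C4.congr h4 (C4.of_sq hx) ?_
        have e : x ^ 3 / (x * (x ^ 2 - D)) - 1 = D / (x ^ 2 - D) := by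
          field_simp
          ring
        rw [e, map_div₀, nu_subl h3, hD, map_pow, hn, ← exp_nsmul, nu_four4 h2, one_div, ← exp_neg,
          exp_le_exp]
        simp only [nsmul_eq_mul, Nat.cast_ofNat]
        obtain ⟨r, hr⟩ := hev'
        omega
      refine C4.of_mul_sq hx0 ?_
      have e : x * x ^ 2 = x ^ 3 := by ring
      rwa [e]

theorem D_data {i D u σ : L} (hi : i ^ 2 = -1) (h2 : ν 2 = exp (-2)) (hσ : σ = 1 ∨ σ = -1)
    (hD : D = σ * (1 + 4 * u)) (hu : ν u ≤ 1) : ν D = 1 ∧ C4 ν D := by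
  have hl := nu_lam2 hi h2
  have hi1 := (nu_i (ν := ν) hi).le
  have hl4 : (1 + i) ^ 4 = -4 := by linear_combination (i ^ 2 + 4 * i + 5) * hi
  refine ⟨?_, ?_⟩
  · have e : D = σ * (1 + (1 + i) * (-(1 + i) ^ 3 * u)) := by
      rw [hD]
      linear_combination (σ * u) * hl4
    rw [e, map_mul, nu_sign hσ, one_mul]
    refine nu_onel hl ?_
    (repeat' first
      | assumption | exact (map_one _).le | exact nu_ofNat_le' _ | apply nu_add_le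
      | apply nu_sub_le' | apply nu_neg_le' | apply nu_mul_le | apply nu_pow_le')
  · have e : D = σ * (1 + (1 + i) ^ 4 * (-u)) := by
      rw [hD]
      linear_combination (σ * u) * hl4
    rw [e]
    exact C4_sign hi h2 hσ (by (repeat' first
      | assumption | exact (map_one _).le | exact nu_ofNat_le' _ | apply nu_add_le
      | apply nu_sub_le' | apply nu_neg_le' | apply nu_mul_le | apply nu_pow_le'))

/-- **(X1)** -/
theorem loc4_X1 {i D a u v ρ n : L} (hi : i ^ 2 = -1) (h2 : ν 2 = exp (-2))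
    (hres : ∀ x : L, ν x = 1 → ν (x - 1) < 1) (hρ : ρ = 0 ∨ ρ = 1) (hn : n = 0 ∨ n = 1)
    (hv : ν v ≤ 1) (hu : u = ρ + i * n + (1 + i) ^ 2 * v) (hD : D = -1 * (1 + 4 * u))
    (h : GLoc4 ν D a) : C4 ν a ∨ C4 ν (a * (i ^ 1 * (1 + (1 + i) ^ 3 * ρ))) := by
  have hl := nu_lam2 hi h2
  have hi1 := (nu_i (ν := ν) hi).le
  have hu1 : ν u ≤ 1 := by
    rw [hu]
    rcases hρ with h5 | h5 <;> rcases hn with h6 | h6 <;> rw [h5, h6] <;>
      simp only [mul_zero, mul_one, zero_add, add_zero] <;> (repeat' first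
      | assumption | exact (map_one _).le | exact nu_ofNat_le' _ | apply nu_add_le
      | apply nu_sub_le' | apply nu_neg_le' | apply nu_mul_le | apply nu_pow_le')
  obtain ⟨hD1, hDc⟩ := D_data hi h2 (Or.inr rfl) hD hu1
  refine loc4_X hi h2 hD1 hDc (fun x hx hP => ?_) h
  obtain ⟨m, t, ht, hxe, ⟨hm, hg⟩ | ⟨h1, -⟩⟩ := unitX hi h2 hres (Or.inr rfl) hD hu1 hx hP
  swap
  · have h3 : (2 : L) = 0 := by linear_combination -h1
    exact absurd h3 two_ne_zero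
  have hodd : Odd m := by
    rw [← Nat.not_even_iff_odd]
    intro hc
    rw [hc.neg_one_pow] at hm
    have h3 : (2 : L) = 0 := by linear_combination hm
    exact absurd h3 two_ne_zero
  have ho0 : Odd (m + 0) := hodd
  have he1 : Even (m + 1) := hodd.add_odd (by decide)
  right
  obtain ⟨t₁, ht₁, h6 | h6⟩ := res_lam hl hres ht <;> rcases hρ with h5 | h5
  · refine goodX hi h2 (t₁ := t₁) (Or.inl h5) ht₁ ?_ he1
    rw [hxe, h6, h5, zero_add]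
  · -- `t = 0`, `ρ = 1`
    exfalso
    rcases hn with h7 | h7
    · refine killX hi h2 hres (r := 0) ht (y := 2 * i * t₁ ^ 2 - i * t₁ + v) (by (repeat' first
      | assumption | exact (map_one _).le | exact nu_ofNat_le' _ | apply nu_add_le
      | apply nu_sub_le' | apply nu_neg_le' | apply nu_mul_le | apply nu_pow_le')) hxe (Or.inr ⟨?_, ho0⟩) hg
      rw [hu, h5, h6, h7]
      linear_combination (i ^ 2 * t₁ ^ 2 + 2 * i * t₁ ^ 2 + t₁ ^ 2) * hi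
    · refine killX hi h2 hres (r := 0) ht (y := 2 * i * t₁ ^ 2 - i * t₁ + v) (by (repeat' first
      | assumption | exact (map_one _).le | exact nu_ofNat_le' _ | apply nu_add_le
      | apply nu_sub_le' | apply nu_neg_le' | apply nu_mul_le | apply nu_pow_le')) hxe (Or.inl ?_) hg
      rw [hu, h5, h6, h7]
      linear_combination (i ^ 2 * t₁ ^ 2 + 2 * i * t₁ ^ 2 + t₁ ^ 2) * hi
  · -- `t = 1`, `ρ = 0`
    exfalso
    rcases hn with h7 | h7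
    · refine killX hi h2 hres (r := 0) ht (y := 2 * i * t₁ ^ 2 + i * t₁ + 2 * t₁ + v) (by (repeat' first
      | assumption | exact (map_one _).le | exact nu_ofNat_le' _ | apply nu_add_le
      | apply nu_sub_le' | apply nu_neg_le' | apply nu_mul_le | apply nu_pow_le')) hxe (Or.inl ?_) hg
      rw [hu, h5, h6, h7]
      linear_combination (i ^ 2 * t₁ ^ 2 + 2 * i * t₁ ^ 2 + t₁ ^ 2) * hi
    · refine killX hi h2 hres (r := 0) ht (y := 2 * i * t₁ ^ 2 + i * t₁ + 2 * t₁ + v + 1) (by (repeat' first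
      | assumption | exact (map_one _).le | exact nu_ofNat_le' _ | apply nu_add_le
      | apply nu_sub_le' | apply nu_neg_le' | apply nu_mul_le | apply nu_pow_le')) hxe (Or.inr ⟨?_, ho0⟩) hg
      rw [hu, h5, h6, h7]
      linear_combination (i ^ 2 * t₁ ^ 2 + 2 * i * t₁ ^ 2 + t₁ ^ 2 - 1) * hi
  · refine goodX hi h2 (t₁ := t₁) (Or.inr h5) ht₁ ?_ he1
    rw [hxe, h6, h5]

/-- **(X2)** -/
theorem loc4_X2 {i D a u v ρ : L} (hi : i ^ 2 = -1) (h2 : ν 2 = exp (-2))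
    (hres : ∀ x : L, ν x = 1 → ν (x - 1) < 1) (hρ : ρ = 0 ∨ ρ = 1)
    (hv : ν v ≤ 1) (hu : u = ρ + i + (1 + i) ^ 2 * v) (hD : D = 1 * (1 + 4 * u))
    (h : GLoc4 ν D a) : C4 ν a ∨ C4 ν (a * (i ^ 0 * (1 + (1 + i) ^ 3 * 1))) := by
  have hl := nu_lam2 hi h2
  have hi1 := (nu_i (ν := ν) hi).le
  have h01 : ν (0 : L) ≤ 1 := by
    rw [map_zero]
    exact zero_le
  have hu1 : ν u ≤ 1 := by
    rw [hu]
    rcases hρ with h5 | h5 <;> rw [h5] <;> (repeat' first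
      | assumption | exact (map_one _).le | exact nu_ofNat_le' _ | apply nu_add_le
      | apply nu_sub_le' | apply nu_neg_le' | apply nu_mul_le | apply nu_pow_le')
  obtain ⟨hD1, hDc⟩ := D_data hi h2 (Or.inl rfl) hD hu1
  refine loc4_X hi h2 hD1 hDc (fun x hx hP => ?_) h
  obtain ⟨m, t, ht, hxe, ⟨hm, hg⟩ | ⟨-, -, hB⟩⟩ := unitX hi h2 hres (Or.inl rfl) hD hu1 hx hP
  · have hev : Even m := by
      rw [← Nat.not_odd_iff_even]
      intro hc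
      rw [hc.neg_one_pow] at hm
      have h3 : (2 : L) = 0 := by linear_combination -hm
      exact absurd h3 two_ne_zero
    have he0 : Even (m + 0) := hev
    obtain ⟨t₁, ht₁, h6 | h6⟩ := res_lam hl hres ht
    · left
      have h7 := goodX hi h2 (t₁ := t₁) (r := 0) (Or.inl rfl) ht₁ (x := x)
        (by rw [hxe, h6, zero_add]) he0
      rwa [pow_zero, mul_zero, add_zero, one_mul, mul_one] at h7
    · right
      exact goodX hi h2 (t₁ := t₁) (r := 0) (Or.inr rfl) ht₁ (by rw [hxe, h6]) he0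
  · exfalso
    rcases hρ with h5 | h5
    · refine not_C4 hi h2 hres (δ := -1) (y := 2 * i * t ^ 3 - 2 * i * t * v - 3 * i * t ^ 2 + 2 * t ^ 3 + i * v - 2 * t * v + i - 2 * t) (Or.inr rfl) (by (repeat' first
      | assumption | exact (map_one _).le | exact nu_ofNat_le' _ | apply nu_add_le
      | apply nu_sub_le' | apply nu_neg_le' | apply nu_mul_le | apply nu_pow_le')) ?_ (C4.of_sq hB)
      rw [hu, h5]
      linear_combination (i ^ 6 * t ^ 3 + 7 * i ^ 5 * t ^ 3 - i ^ 6 * t * v - i ^ 6 * t ^ 2 + 20 * i ^ 4 * t ^ 3 - 7 * i ^ 5 * t * v - 6 * i ^ 5 * t ^ 2 + 30 * i ^ 3 * t ^ 3 - 20 * i ^ 4 * t * v - 14 * i ^ 4 * t ^ 2 - i ^ 5 * t + 25 * i ^ 2 * t ^ 3 - 30 * i ^ 3 * t * v - 16 * i ^ 3 * t ^ 2 - 5 * i ^ 4 * t + 11 * i * t ^ 3 - 25 * i ^ 2 * t * v - 9 * i ^ 2 * t ^ 2 - 10 * i ^ 3 * t - 11 * i * t * v - 2 * i * t ^ 2 - 10 * i ^ 2 * t + i ^ 3 + 2 * t ^ 3 - 5 * i * t + 3 * i ^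 2 - 2 * t * v + 4 * i - t + 3) * hi
    · refine not_C4 hi h2 hres (δ := 1) (y := -2 * i * t ^ 3 + 2 * i * t * v + 3 * i * t ^ 2 - 2 * t ^ 3 - i * t - i * v + 2 * t * v + 3 * t - 1) (Or.inl rfl) (by (repeat' first
      | assumption | exact (map_one _).le | exact nu_ofNat_le' _ | apply nu_add_le
      | apply nu_sub_le' | apply nu_neg_le' | apply nu_mul_le | apply nu_pow_le')) ?_ (C4.of_sq hB)
      rw [hu, h5]
      linear_combination (i ^ 6 * t ^ 3 + 7 * i ^ 5 * t ^ 3 - i ^ 6 * t * v - i ^ 6 * t ^ 2 + 20 * i ^ 4 * t ^ 3 - 7 * i ^ 5 * t * v - 6 * i ^ 5 * t ^ 2 + 30 * i ^ 3 * t ^ 3 - 20 * i ^ 4 * t * v - 14 * i ^ 4 * t ^ 2 - i ^ 5 * t + 25 * i ^ 2 * t ^ 3 - 30 * i ^ 3 * t * v - 16 * i ^ 3 * t ^ 2 - 6 * i ^ 4 * t + 11 * i * t ^ 3 - 25 * i ^ 2 * t * v - 9 * i ^ 2 * t ^ 2 - 14 * i ^ 3 * t - 11 * i * t * v - 2 * i * t ^ 2 - 16 * i ^ 2 * t + 2 * t ^ 3 - 9 * i * t - 2 * t * v -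 2 * t) * hi

/-- **(X3)**: `u = ρ + lam ^ 2 κ` modulo `lam ^ 3`, `α = ρ + κ` modulo `2` -/
theorem loc4_X3 {i D a u v ρ κ α : L} (hi : i ^ 2 = -1) (h2 : ν 2 = exp (-2))
    (hres : ∀ x : L, ν x = 1 → ν (x - 1) < 1)
    (hρ : (ρ = 0 ∧ κ = 0 ∧ α = 0) ∨ (ρ = 0 ∧ κ = 1 ∧ α = 1) ∨ (ρ = 1 ∧ κ = 0 ∧ α = 1) ∨
      (ρ = 1 ∧ κ = 1 ∧ α = 0))
    (hv : ν v ≤ 1) (hu : u = ρ + (1 + i) ^ 2 * (κ + (1 + i) * v)) (hD : D = 1 * (1 + 4 * u))
    (h : GLoc4 ν D a) : C4 ν a ∨ C4 ν (a * (i ^ 1 * (1 + (1 + i) ^ 3 * α))) := by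
  have hl := nu_lam2 hi h2
  have hi1 := (nu_i (ν := ν) hi).le
  have h01 : ν (0 : L) ≤ 1 := by
    rw [map_zero]
    exact zero_le
  have hu1 : ν u ≤ 1 := by
    rw [hu]
    rcases hρ with ⟨h5, h6, -⟩ | ⟨h5, h6, -⟩ | ⟨h5, h6, -⟩ | ⟨h5, h6, -⟩ <;> rw [h5, h6] <;> (repeat' first
      | assumption | exact (map_one _).le | exact nu_ofNat_le' _ | apply nu_add_le
      | apply nu_sub_le' | apply nu_neg_le' | apply nu_mul_le | apply nu_pow_le')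
  have hκ : ν κ ≤ 1 := by
    rcases hρ with ⟨-, h6, -⟩ | ⟨-, h6, -⟩ | ⟨-, h6, -⟩ | ⟨-, h6, -⟩ <;> rw [h6] <;> (repeat' first
      | assumption | exact (map_one _).le | exact nu_ofNat_le' _ | apply nu_add_le
      | apply nu_sub_le' | apply nu_neg_le' | apply nu_mul_le | apply nu_pow_le')
  have hρ' : ρ = 0 ∨ ρ = 1 := by
    rcases hρ with ⟨h5, -⟩ | ⟨h5, -⟩ | ⟨h5, -⟩ | ⟨h5, -⟩
    · exact Or.inl h5
    · exact Or.inl h5
    · exact Or.inr h5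
    · exact Or.inr h5
  obtain ⟨hD1, hDc⟩ := D_data hi h2 (Or.inl rfl) hD hu1
  refine loc4_X hi h2 hD1 hDc (fun x hx hP => ?_) h
  obtain ⟨m, t, ht, hxe, ⟨hm, hg⟩ | ⟨-, hm, hB⟩⟩ := unitX hi h2 hres (Or.inl rfl) hD hu1 hx hP
  · left
    have hev : Even m := by
      rw [← Nat.not_odd_iff_even]
      intro hc
      rw [hc.neg_one_pow] at hm
      have h3 : (2 : L) = 0 := by linear_combination -hm
      exact absurd h3 two_ne_zero
    have he0 : Even (m + 0) := hev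
    have ho1 : Odd (m + 1) := hev.add_odd (by decide)
    obtain ⟨w, hw⟩ : ∃ w : L, w = κ + (1 + i) * v := ⟨_, rfl⟩
    have hw1 : ν w ≤ 1 := by
      rw [hw]
      (repeat' first
      | assumption | exact (map_one _).le | exact nu_ofNat_le' _ | apply nu_add_le
      | apply nu_sub_le' | apply nu_neg_le' | apply nu_mul_le | apply nu_pow_le')
    rw [← hw] at hu
    obtain ⟨t₁, ht₁, h6 | h6⟩ := res_lam hl hres ht
    · have h7 := goodX hi h2 (t₁ := t₁) (r := 0) (Or.inl rfl) ht₁ (x := x)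
        (by rw [hxe, h6, zero_add]) he0
      rwa [pow_zero, mul_zero, add_zero, one_mul, mul_one] at h7
    · exfalso
      rcases hρ' with h5 | h5
      · refine killX hi h2 hres (r := 0) ht (y := 2 * i * t₁ ^ 2 + i * t₁ + 2 * t₁ + w) (by (repeat' first
      | assumption | exact (map_one _).le | exact nu_ofNat_le' _ | apply nu_add_le
      | apply nu_sub_le' | apply nu_neg_le' | apply nu_mul_le | apply nu_pow_le')) hxe (Or.inl ?_) hg
        rw [hu, h5, h6]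
        linear_combination (i ^ 2 * t₁ ^ 2 + 2 * i * t₁ ^ 2 + t₁ ^ 2) * hi
      · refine killX hi h2 hres (r := 1) ht (y := -2 * i * t₁ - i * w + 2 * t₁ ^ 2 + t₁ - 1) (by (repeat' first
      | assumption | exact (map_one _).le | exact nu_ofNat_le' _ | apply nu_add_le
      | apply nu_sub_le' | apply nu_neg_le' | apply nu_mul_le | apply nu_pow_le')) hxe (Or.inr ⟨?_, ho1⟩) hg
        rw [hu, h5, h6]
        linear_combination (i ^ 2 * t₁ ^ 2 + 2 * i * t₁ ^ 2 + 2 * i ^ 2 * t₁ + i ^ 2 * w + 4 * i * t₁ + 2 * i * w + t₁ ^ 2 + i + 2 * t₁ + w + 2) * hi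
  · right
    have he1 : Even (m + 1) := hm.add_odd (by decide)
    obtain ⟨t₁, ht₁, h6 | h6⟩ := res_lam hl hres ht <;>
      rcases hρ with ⟨h5, h7, h8⟩ | ⟨h5, h7, h8⟩ | ⟨h5, h7, h8⟩ | ⟨h5, h7, h8⟩
    · -- `t = 0`, `α = 0`
      exact goodX hi h2 (t₁ := t₁) (Or.inl h8) ht₁ (by rw [hxe, h6, h8, zero_add]) he1
    · exfalso
      refine not_Sq hi h2 hres (δ := 1) (y := -4 * i * t₁ ^ 3 + 4 * i * t₁ * v + 3 * i * t₁ ^ 2 + 4 * t₁ ^ 3 + i * t₁ - i * v - 3 * t₁ ^ 2 + 3 * t₁ - 1) (Or.inl rfl) (by (repeat' first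
      | assumption | exact (map_one _).le | exact nu_ofNat_le' _ | apply nu_add_le
      | apply nu_sub_le' | apply nu_neg_le' | apply nu_mul_le | apply nu_pow_le')) ?_ hB
      rw [hu, h5, h7, h6]
      linear_combination (i ^ 9 * t₁ ^ 3 + 10 * i ^ 8 * t₁ ^ 3 + 44 * i ^ 7 * t₁ ^ 3 - i ^ 8 * t₁ * v - i ^ 8 * t₁ ^ 2 + 110 * i ^ 6 * t₁ ^ 3 - 9 * i ^ 7 * t₁ * v - 8 * i ^ 7 * t₁ ^ 2 + 166 * i ^ 5 * t₁ ^ 3 - 35 * i ^ 6 * t₁ * v - 27 * i ^ 6 * t₁ ^ 2 - i ^ 7 * t₁ + 146 * i ^ 4 * t₁ ^ 3 - 75 * i ^ 5 * t₁ * v - 47 * i ^ 5 * t₁ ^ 2 - 8 * i ^ 6 * t₁ + 60 * i ^ 3 * t₁ ^ 3 - 95 * i ^ 4 * t₁ * v - 40 * i ^ 4 * t₁ ^ 2 - 27 * i ^ 5 * t₁ - 6 * i ^ 2 * t₁ ^ 3 - 71 * i ^ 3 * t₁ * v - 6 * i ^ 3 * t₁ ^ 2 - 50 * i ^ 4 * t₁ - 15 * i * t₁ ^ 3 - 29 * i ^ 2 * t₁ * v + 17 * i ^ 2 * t₁ ^ 2 - 55 * i ^ 3 * t₁ - 5 * i * t₁ * v + 13 * i * t₁ ^ 2 - 36 * i ^ 2 * t₁ - 4 * t₁ ^ 3 - 13 * i * t₁ + 3 * t₁ ^ 2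 - 2 * t₁) * hi
    · exfalso
      refine not_Sq hi h2 hres (δ := -1) (y := 4 * i * t₁ ^ 3 - 4 * i * t₁ * v - 3 * i * t₁ ^ 2 - 4 * t₁ ^ 3 + 2 * i * t₁ + i * v + 3 * t₁ ^ 2 - 2 * t₁) (Or.inr rfl) (by (repeat' first
      | assumption | exact (map_one _).le | exact nu_ofNat_le' _ | apply nu_add_le
      | apply nu_sub_le' | apply nu_neg_le' | apply nu_mul_le | apply nu_pow_le')) ?_ hB
      rw [hu, h5, h7, h6]
      linear_combination (i ^ 9 * t₁ ^ 3 + 10 * i ^ 8 * t₁ ^ 3 + 44 * i ^ 7 * t₁ ^ 3 - i ^ 8 * t₁ * v - i ^ 8 * t₁ ^ 2 + 110 * i ^ 6 * t₁ ^ 3 - 9 * i ^ 7 * t₁ * v - 8 * i ^ 7 * t₁ ^ 2 + 166 * i ^ 5 * t₁ ^ 3 - 35 * i ^ 6 * t₁ * v - 27 * i ^ 6 * t₁ ^ 2 + 146 * i ^ 4 * t₁ ^ 3 - 75 * i ^ 5 * t₁ * v - 47 * i ^ 5 * t₁ ^ 2 + 60 * i ^ 3 * t₁ ^ 3 - 95 * i ^ 4 * t₁ * v - 40 * i ^ 4 * t₁ ^ 2 - i ^ 5 * t₁ - 6 * i ^ 2 * t₁ ^ 3 - 71 * i ^ 3 * t₁ * v - 6 * i ^ 3 * t₁ ^ 2 - 5 * i ^ 4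 * t₁ - 15 * i * t₁ ^ 3 - 29 * i ^ 2 * t₁ * v + 17 * i ^ 2 * t₁ ^ 2 - 10 * i ^ 3 * t₁ - 5 * i * t₁ * v + 13 * i * t₁ ^ 2 - 10 * i ^ 2 * t₁ - 4 * t₁ ^ 3 - 5 * i * t₁ + i ^ 2 + 3 * t₁ ^ 2 + 3 * i - t₁ + 3) * hi
    · exact goodX hi h2 (t₁ := t₁) (Or.inl h8) ht₁ (by rw [hxe, h6, h8, zero_add]) he1
    · exfalso
      refine not_Sq hi h2 hres (δ := 1) (y := -4 * i * t₁ ^ 3 + 4 * i * t₁ * v - 9 * i * t₁ ^ 2 + 4 * t₁ ^ 3 - i * t₁ + i * v - 3 * t₁ ^ 2 + i - 5 * t₁ + 2 * v - 1) (Or.inl rfl) (by (repeat' first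
      | assumption | exact (map_one _).le | exact nu_ofNat_le' _ | apply nu_add_le
      | apply nu_sub_le' | apply nu_neg_le' | apply nu_mul_le | apply nu_pow_le')) ?_ hB
      rw [hu, h5, h7, h6]
      linear_combination (i ^ 9 * t₁ ^ 3 + 10 * i ^ 8 * t₁ ^ 3 + 44 * i ^ 7 * t₁ ^ 3 - i ^ 8 * t₁ * v + 2 * i ^ 8 * t₁ ^ 2 + 110 * i ^ 6 * t₁ ^ 3 - 9 * i ^ 7 * t₁ * v + 19 * i ^ 7 * t₁ ^ 2 + 166 * i ^ 5 * t₁ ^ 3 - 35 * i ^ 6 * t₁ * v + 78 * i ^ 6 * t₁ ^ 2 + i ^ 7 * t₁ - i ^ 7 * v + 146 * i ^ 4 * t₁ ^ 3 - 75 * i ^ 5 * t₁ * v + 178 * i ^ 5 * t₁ ^ 2 + 10 * i ^ 6 * t₁ - 8 * i ^ 6 * v + 60 * i ^ 3 * t₁ ^ 3 - 95 * i ^ 4 * t₁ * v + 245 * i ^ 4 * t₁ ^ 2 + 41 * i ^ 5 * t₁ - 27 * i ^ 5 * v - 6 * i ^ 2 * t₁ ^ 3 - 71 * i ^ 3 * t₁ * v + 207 * i ^ 3 * t₁ ^ 2 + 90 * i ^ 4 * t₁ - 50 * i ^ 4 * v + i ^ 5 - 15 * i * t₁ ^ 3 - 29 * i ^ 2 * t₁ * v + 104 * i ^ 2 * t₁ ^ 2 + 115 * i ^ 3 * t₁ - 55 * i ^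 3 * v + 5 * i ^ 4 - 5 * i * t₁ * v + 28 * i * t₁ ^ 2 + 86 * i ^ 2 * t₁ - 36 * i ^ 2 * v + 10 * i ^ 3 - 4 * t₁ ^ 3 + 35 * i * t₁ - 13 * i * v + 10 * i ^ 2 + 3 * t₁ ^ 2 + 5 * i + 6 * t₁ - 2 * v + 1) * hi
    · exact goodX hi h2 (t₁ := t₁) (Or.inr h8) ht₁ (by rw [hxe, h6, h8]) he1
    · exact goodX hi h2 (t₁ := t₁) (Or.inr h8) ht₁ (by rw [hxe, h6, h8]) he1
    · exfalso
      refine not_Sq hi h2 hres (δ := -1) (y := 4 * i * t₁ ^ 3 - 4 * i * t₁ * v + 9 * i * t₁ ^ 2 - 4 * t₁ ^ 3 - i * v + 3 * t₁ ^ 2 + i + 2 * t₁ - 2 * v - 1) (Or.inr rfl) (by (repeat' first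
      | assumption | exact (map_one _).le | exact nu_ofNat_le' _ | apply nu_add_le
      | apply nu_sub_le' | apply nu_neg_le' | apply nu_mul_le | apply nu_pow_le')) ?_ hB
      rw [hu, h5, h7, h6]
      linear_combination (i ^ 9 * t₁ ^ 3 + 10 * i ^ 8 * t₁ ^ 3 + 44 * i ^ 7 * t₁ ^ 3 - i ^ 8 * t₁ * v + 2 * i ^ 8 * t₁ ^ 2 + 110 * i ^ 6 * t₁ ^ 3 - 9 * i ^ 7 * t₁ * v + 19 * i ^ 7 * t₁ ^ 2 + 166 * i ^ 5 * t₁ ^ 3 - 35 * i ^ 6 * t₁ * v + 78 * i ^ 6 * t₁ ^ 2 - i ^ 7 * v + 146 * i ^ 4 * t₁ ^ 3 - 75 * i ^ 5 * t₁ * v + 178 * i ^ 5 * t₁ ^ 2 + 2 * i ^ 6 * t₁ - 8 * i ^ 6 * v + 60 * i ^ 3 * t₁ ^ 3 - 95 * i ^ 4 * t₁ * v + 245 * i ^ 4 * t₁ ^ 2 + 13 * i ^ 5 * t₁ - 27 * i ^ 5 * v - i ^ 6 - 6 * i ^ 2 * t₁ ^ 3 - 71 * i ^ 3 * t₁ * v + 207 * i ^ 3 * t₁ ^ 2 + 35 * i ^ 4 * t₁ - 50 * i ^ 4 * v - 6 * i ^ 5 - 15 * i * t₁ ^ 3 - 29 * i ^ 2 * t₁ * v + 104 * i ^ 2 * t₁ ^ 2 + 50 * i ^ 3 * t₁ - 55 * i ^ 3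 * v - 14 * i ^ 4 - 5 * i * t₁ * v + 28 * i * t₁ ^ 2 + 40 * i ^ 2 * t₁ - 36 * i ^ 2 * v - 16 * i ^ 3 - 4 * t₁ ^ 3 + 17 * i * t₁ - 13 * i * v - 8 * i ^ 2 + 3 * t₁ ^ 2 + i + 3 * t₁ - 2 * v + 3) * hi

end Pool.Agent.Lib.MP_1a91b9_ntQ.C
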