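import Pool.Agent.Lib.MP_1a91b9_ntQ.C.SelIV
import Pool.Agent.Lib.MP_1a91b9_ntQ.C.LocX4

/-!
# MP_1a91b9_nt (TwistDensity), quartic twists, part C: the Selmer elements when `D` is `± 1` modulo `4`
-/

set_option autoImplicit false
set_option linter.unusedSectionVars false
set_option linter.unusedVariables false

namespace Pool.Agent.Lib.MP_1a91b9_ntQ.C

open NumberField Finset WithZero IsDedekindDomain Pool.Agent.Lib.MP_1a91b9_nuT
open Pool.Agent.Lib.MP_1a91b9_ntQ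
open Pool.Agent.Lib.MP_1a91b9_ntH.C (Sq exists_nu isSquare_exp nu_one)

noncomputable section

/-- The Selmer elements when the local image at `lam` is generated by `D` and `w = i ^ e z`,
`aa z = α`, up to the squares modulo `4`. -/
theorem sel4_w (k : ZMod 4) (S : Finset Pg) (hk : md k = 0) (e α : ZMod 2) {w z : 𝓞 K}
    (hz : In4 z) (hα : aa z = α) (hw : w = iO ^ e.val * z)
    (hloc : ∀ a : K, GLoc4 nuL (dk k 0 S : K) a → C4 nuL a ∨ C4 nuL (a * (w : K)))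
    (hker : ∀ (f : Pg → ZMod 2) (s : ZMod 2), (∀ q ∈ S, rowN 0 S f q + s * e * aa q.1 = 0) →
      ∑ q ∈ S, f q * aa q.1 + s * α = 0 →
      ((∀ q ∈ S, f q = 0) ∨ ∀ q ∈ S, f q = 1) ∧ s * e = 0) :
    SelCl4 (dk k 0 S : K) := by
  intro a ha h
  obtain ⟨j, l', V, m, hm, hma⟩ := sel_cl ha h
  have e2 : ∀ x y : ZMod 2, x + y = 0 → x = y := by decide
  have hkey : ∃ s : ZMod 2, l' = 0 ∧ j = s * e ∧ ∑ q ∈ S, V q * aa q.1 + s * α = 0 := by
    rcases hloc a (h (pv lam prime_lam)) with h1 | h1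
    · rw [hma] at h1
      obtain ⟨g1, g2, g3⟩ := cl_C4 hm h1
      exact ⟨0, g1, by rw [g2, zero_mul], by rw [g3, zero_mul, add_zero]⟩
    · rw [hma] at h1
      obtain ⟨g1, g2, g3⟩ := cl_C4_mul hm hz one_ne_zero (u := w) (f := e)
        (by rw [hw, one_pow, one_mul]) h1
      refine ⟨1, g1, by rw [one_mul]; exact e2 _ _ g2, ?_⟩
      rw [one_mul, ← hα]
      exact g3
  obtain ⟨s, hl, hj, hs⟩ := hkey
  obtain ⟨h5, h6⟩ := hker V s (fun q hq => by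
    have h3 := sel_row hq hm hma (h (pv q.1 q.prime))
    rw [hk, hl, hj] at h3
    refine Eq.trans ?_ h3
    unfold rowN
    ring) hs
  rcases h5 with h7 | h7
  · exact sel_const hma 0 h7 (by rw [hj, h6, zero_mul]) (by rw [hl, zero_mul])
  · exact sel_const hma 1 h7 (by rw [hj, h6, hk, mul_zero]) (by rw [hl, mul_zero])

/-- `nn` of an element `≡ 1` modulo `4` -/
theorem form4 {x : 𝓞 K4} (hx : In4 x) (ha : aa x = 0) : ∃ c d : ℤ,
    x = 1 + 4 * ((c : 𝓞 K4) + (d : 𝓞 K4) * iO) ∧ nn x = ((2 * c : ℤ) : ZMod 4) ∧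
      bb x = ((c + d : ℤ) : ZMod 2) := by
  obtain ⟨m, n, rfl⟩ := in4_form hx
  rw [aa_form] at ha
  have h1 : ((m + n : ℤ) : ZMod 2) = 0 := by
    push_cast
    exact ha
  obtain ⟨c, hc⟩ := (ZMod.intCast_zmod_eq_zero_iff_dvd _ 2).1 h1
  refine ⟨-c, c - n, ?_, ?_, ?_⟩
  · have h2 : m = 2 * c - n := by
      push_cast at hc
      omega
    rw [h2, lam_cube]
    push_cast
    linear_combination (2 * (n : 𝓞 K4)) * iO_sq
  · rw [nn_form]
    have h2 : m = 2 * c - n := by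
      push_cast at hc
      omega
    rw [h2]
    push_cast
    have h3 : ∀ c n : ZMod 4, 2 * c - n + n = 2 * -c := by decide
    exact h3 _ _
  · rw [bb_form]
    have h3 : (-c + (c - n) : ℤ) = -n := by ring
    rw [h3]
    push_cast
    have h4 : ∀ x : ZMod 2, x = -x := by decide
    exact h4 _

/-- the half of an even element -/
def hf (x : ZMod 4) : ZMod 2 := if x = 2 then 1 else 0

theorem hf_two (c : ℤ) : hf ((2 * c : ℤ) : ZMod 4) = (c : ZMod 2) := by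
  have h1 : ∀ x : ZMod 4, hf (2 * x) = md x := by decide
  have e : ((2 * c : ℤ) : ZMod 4) = 2 * (c : ZMod 4) := by push_cast; rfl
  rw [e, h1, md_intCast]

/-- digits modulo `2` -/
theorem digit2 (c : ℤ) : ∃ k : ℤ, c = ((c : ZMod 2).val : ℤ) + 2 * k := by
  refine ⟨c / 2, ?_⟩
  rw [ZMod.val_intCast]
  have := Int.emod_add_mul_ediv c 2
  push_cast
  omega

theorem coe_val01 (x : ZMod 2) : (((x.val : ℕ) : K) = 0) ∨ (((x.val : ℕ) : K) = 1) := by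
  have h0 : ∀ x : ZMod 2, x = 0 ∨ x = 1 := by decide
  have h1 : ((1 : ZMod 2)).val = 1 := rfl
  rcases h0 x with h | h <;> rw [h]
  · left
    rw [ZMod.val_zero, Nat.cast_zero]
  · right
    rw [h1, Nat.cast_one]

/-- `D = - ∏ q`, `D = - 1` modulo `4`: the bordered matrix `[[N_0, a], [a^T, α]]` has corank `1`,
`α = (∑ nn q) / 2`. -/
theorem sel4_X1 (S : Finset Pg) (hS : ∑ q ∈ S, aa q.1 = 0)
    (hker : ∀ (f : Pg → ZMod 2) (s : ZMod 2), (∀ q ∈ S, rowN 0 S f q + s * aa q.1 = 0) →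
      ∑ q ∈ S, f q * aa q.1 + s * hf (∑ q ∈ S, nn q.1) = 0 →
      ((∀ q ∈ S, f q = 0) ∨ ∀ q ∈ S, f q = 1) ∧ s = 0) :
    SelCl4 (dk 2 0 S : K) := by
  obtain ⟨c, d, h1, h2, h3⟩ := form4 (DDq_in4 S) (by rw [aa_DDq]; exact hS)
  rw [nn_DDq] at h2
  rw [h2, hf_two] at hker
  obtain ⟨ρ, hρ⟩ : ∃ ρ : ZMod 2, ρ = (c : ZMod 2) := ⟨_, rfl⟩
  obtain ⟨n, hn⟩ : ∃ n : ZMod 2, n = (d : ZMod 2) := ⟨_, rfl⟩
  obtain ⟨c', hc'⟩ := digit2 c
  obtain ⟨d', hd'⟩ := digit2 d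
  rw [← hρ] at hc' hker
  rw [← hn] at hd'
  -- `D = - (1 + 4 u)`
  have hD : (dk 2 0 S : K) = -1 * (1 + 4 * ((ρ.val : K) + (iO : K) * (n.val : K) +
      (1 + (iO : K)) ^ 2 * (-(iO : K) * (c' : K) + (d' : K)))) := by
    have e : dk 2 0 S = -1 * (1 + 4 * ((ρ.val : 𝓞 K) + iO * (n.val : 𝓞 K) +
        (1 + iO) ^ 2 * (-iO * (c' : 𝓞 K) + (d' : 𝓞 K)))) := by
      rw [dk_zero, h1, hc', hd']
      have e2 : ((2 : ZMod 4)).val = 2 := rfl
      rw [e2]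
      push_cast
      linear_combination (1 + 4 * ((ρ.val : 𝓞 K) + 2 * (c' : 𝓞 K) + ((n.val : 𝓞 K) +
        2 * (d' : 𝓞 K)) * iO) + 4 * (d' - iO * c' - 2 * c') ) * iO_sq
    rw [e]
    push_cast
    rfl
  have hv : nuL (-(iO : K) * (c' : K) + (d' : K)) ≤ 1 := by
    have h5 := nuL_O (-iO * (c' : 𝓞 K) + (d' : 𝓞 K))
    push_cast at h5
    exact h5
  refine sel4_w 2 S (by decide) 1 ρ (w := iO ^ 1 * (1 + lam ^ 3 * (ρ.val : 𝓞 K)))
    (z := 1 + lam ^ 3 * (ρ.val : 𝓞 K)) ?_ ?_ rfl ?_ ?_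
  · exact ⟨(ρ.val : 𝓞 K), by ring⟩
  · have h5 := aa_form (ρ.val : ℤ) 0
    have e : (1 + lam ^ 3 * ((((ρ.val : ℕ) : ℤ) : 𝓞 K4) + ((0 : ℤ) : 𝓞 K4) * iO)) =
        1 + lam ^ 3 * (ρ.val : 𝓞 K4) := by
      push_cast
      ring
    rw [e] at h5
    rw [h5]
    push_cast
    rw [add_zero, ZMod.natCast_val, ZMod.cast_id]
  · intro a ha
    have h6 := loc4_X1 iK_sq' nuL_two nuL_res (coe_val01 ρ) (coe_val01 n) hv rfl hD ha
    rcases h6 with h7 | h7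
    · exact Or.inl h7
    · right
      have e : ((iO ^ 1 * (1 + lam ^ 3 * (ρ.val : 𝓞 K)) : 𝓞 K) : K) =
          (iO : K) ^ 1 * (1 + (1 + (iO : K)) ^ 3 * (ρ.val : K)) := by
        rw [← lam_coe]
        push_cast
        rfl
      rw [e]
      exact h7
  · intro f s h8 h9
    obtain ⟨g1, g2⟩ := hker f s (fun q hq => by
      have h10 := h8 q hq
      rwa [mul_one] at h10) h9
    exact ⟨g1, by rw [g2, zero_mul]⟩

/-- `D = ∏ q`, `D = 1` modulo `4`, the imaginary part of `D` is `4` modulo `8`: the matrix `N_0` has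
corank `1`. -/
theorem sel4_X2 (S : Finset Pg) (hS : ∑ q ∈ S, aa q.1 = 0)
    (hc : hf (∑ q ∈ S, nn q.1) + ∑ q ∈ S, bb q.1 = 1)
    (hker : ∀ f : Pg → ZMod 2, (∀ q ∈ S, rowN 0 S f q = 0) →
      (∀ q ∈ S, f q = 0) ∨ ∀ q ∈ S, f q = 1) :
    SelCl4 (dk 0 0 S : K) := by
  obtain ⟨c, d, h1, h2, h3⟩ := form4 (DDq_in4 S) (by rw [aa_DDq]; exact hS)
  rw [nn_DDq] at h2
  rw [bb_DDq] at h3
  rw [h2, hf_two, h3] at hc
  have hn : (d : ZMod 2) = 1 := by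
    push_cast at hc
    have h4 : ∀ c d : ZMod 2, c + (c + d) = 1 → d = 1 := by decide
    exact h4 _ _ hc
  obtain ⟨ρ, hρ⟩ : ∃ ρ : ZMod 2, ρ = (c : ZMod 2) := ⟨_, rfl⟩
  obtain ⟨c', hc'⟩ := digit2 c
  obtain ⟨d', hd'⟩ := digit2 d
  rw [← hρ] at hc'
  rw [hn] at hd'
  have hv1 : ((1 : ZMod 2)).val = 1 := rfl
  rw [hv1] at hd'
  have hD : (dk 0 0 S : K) = 1 * (1 + 4 * ((ρ.val : K) + (iO : K) +
      (1 + (iO : K)) ^ 2 * (-(iO : K) * (c' : K) + (d' : K)))) := by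
    have e : dk 0 0 S = 1 * (1 + 4 * ((ρ.val : 𝓞 K) + iO +
        (1 + iO) ^ 2 * (-iO * (c' : 𝓞 K) + (d' : 𝓞 K)))) := by
      rw [dk_zero, h1, hc', hd']
      have e2 : ((0 : ZMod 4)).val = 0 := rfl
      rw [e2]
      push_cast
      linear_combination (-4 * (d' - iO * c' - 2 * c')) * iO_sq
    rw [e]
    push_cast
    rfl
  have hv : nuL (-(iO : K) * (c' : K) + (d' : K)) ≤ 1 := by
    have h5 := nuL_O (-iO * (c' : 𝓞 K) + (d' : 𝓞 K))
    push_cast at h5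
    exact h5
  refine sel4_w 0 S (by decide) 0 1 (w := iO ^ (0 : ZMod 2).val * (1 + lam ^ 3 * 1))
    (z := 1 + lam ^ 3 * 1) ?_ ?_ rfl ?_ ?_
  · exact ⟨1, by ring⟩
  · have h5 := aa_form 1 0
    have e : (1 + lam ^ 3 * (((1 : ℤ) : 𝓞 K4) + ((0 : ℤ) : 𝓞 K4) * iO)) =
        1 + lam ^ 3 * 1 := by
      push_cast
      ring
    rw [e] at h5
    rw [h5]
    decide
  · intro a ha
    have h6 := loc4_X2 iK_sq' nuL_two nuL_res (coe_val01 ρ) hv rfl hD ha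
    rcases h6 with h7 | h7
    · exact Or.inl h7
    · right
      have e : ((iO ^ (0 : ZMod 2).val * (1 + lam ^ 3 * 1) : 𝓞 K) : K) =
          (iO : K) ^ 0 * (1 + (1 + (iO : K)) ^ 3 * 1) := by
        rw [← lam_coe]
        push_cast
        rfl
      rw [e]
      exact h7
  · intro f s h8 h9
    refine ⟨hker f fun q hq => ?_, mul_zero _⟩
    have h10 := h8 q hq
    rwa [mul_zero, zero_mul, add_zero] at h10

end

end Pool.Agent.Lib.MP_1a91b9_ntQ.C
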