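import Pool.Agent.Lib.MP_1a91b9_ntQ.R.Qd4
import Pool.Agent.Lib.MP_1a91b9_ntQ.C.LocQ
import Pool.Agent.Lib.MP_1a91b9_ntQ.C.SelX
import Pool.Agent.Lib.MP_1a91b9_ntQ.C.DescQ

/-!
# MP_1a91b9_nt, part C: the Selmer elements of `y² = x³ - δ² x`, `δ = i ^ k lam ^ l ∏ q`
-/

set_option autoImplicit false
set_option linter.unusedSectionVars false
set_option linter.unusedVariables false

namespace Pool.Agent.Lib.MP_1a91b9_ntQ.C

open NumberField Finset WithZero IsDedekindDomain Pool.Agent.Lib.MP_1a91b9_nuT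
open Pool.Agent.Lib.MP_1a91b9_ntQ
open Pool.Agent.Lib.MP_1a91b9_ntH.C (Sq exists_nu isSquare_exp nu_one)

noncomputable section

/-- the class of a Selmer element -/
theorem sel5_cl {S : Finset Pg} {k : ZMod 4} {l : ZMod 2} {a : K} (ha : a ≠ 0)
    (h : ∀ v : HeightOneSpectrum (𝓞 K), GLoc4 (v.valuation K) ((dk k l S : K) ^ 2) a) :
    ∃ (j l' : ZMod 2) (V : Pg → ZMod 2) (m : K), m ≠ 0 ∧ a = m ^ 2 * (gp4 S j l' V : K) := by
  refine decomp4 S a ha fun π hπ h3 hS => ?_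
  refine loc4_even _ (val_four_odd hπ h3) ?_ (h _)
  rw [map_pow, pv_one hπ (not_dvd_dk hπ h3 hS k l), one_pow]

/-- the row at `q` -/
theorem sel5_row {S : Finset Pg} {q : Pg} (hq : q ∈ S) {k : ZMod 4} {l : ZMod 2} {a : K}
    {j l' : ZMod 2} {V : Pg → ZMod 2} {m : K} (hm : m ≠ 0) (ha : a = m ^ 2 * (gp4 S j l' V : K))
    (h : GLoc4 ((pv q.1 q.prime).valuation K) ((dk k l S : K) ^ 2) a) :
    (j + V q * md k) * aa q.1 + (l' + V q * l) * c2 q lam +
      ∑ p ∈ S.erase q, (V p + V q) * s4 q p = 0 := by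
  have h4 := val_four_odd q.prime (not_dvd_lam4 q)
  obtain ⟨t, ht⟩ : ∃ t : ZMod 2, Sq ((pv q.1 q.prime).valuation K) (a * (dk k l S : K) ^ t.val) := by
    rcases loc5_bad iK_sq' h4 (coe_ne (dk_ne k l S)) (val_dk_odd hq k l) h with h1 | h1
    · exact ⟨0, by rwa [ZMod.val_zero, pow_zero, mul_one]⟩
    · refine ⟨1, ?_⟩
      have h2 : ((1 : ZMod 2)).val = 1 := rfl
      rwa [h2, pow_one]
  obtain ⟨n, hn, h1⟩ := cl_mul_pow (S := S) hm ha k l t
  rw [h1, mul_comm] at ht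
  obtain ⟨h2, h3⟩ := row_sq hq (Sq.of_mul_sq hn ht)
  have h5 : t = V q := by
    have h6 : ∀ x y : ZMod 2, x + y = 0 → y = x := by decide
    exact h6 _ _ h2
  rw [← h5]
  exact h3

/-- the row of the matrix for `y² = x³ - δ² x` -/
def row5 (k l : ZMod 2) (S : Finset Pg) (f : Pg → ZMod 2) (q : Pg) : ZMod 2 :=
  f q * (k * aa q.1 + l * bb q.1) + ∑ p ∈ S.erase q, (f p + f q) * s4 q p

theorem row5_zero (S : Finset Pg) (f : Pg → ZMod 2) (q : Pg) : row5 0 0 S f q = rowN 0 S f q := by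
  unfold row5 rowN
  ring

/-! ### squares modulo `lam ^ 3` -/

/-- a class which is a square modulo `lam ^ 3` -/
theorem cl_CG {S : Finset Pg} {j l : ZMod 2} {V : Pg → ZMod 2} {m : K} (hm : m ≠ 0)
    (h : CG nuL (exp (-((3 : ℕ) : ℤ))) (m ^ 2 * (gp4 S j l V : K))) : l = 0 ∧ j = 0 := by
  have hγ := exp3_lt
  have h' : CG nuL (exp (-((3 : ℕ) : ℤ))) (gp4 S j l V : K) := by
    refine CG.of_mul_sq hm ?_
    rwa [mul_comm]
  have h0 : ∀ e : ZMod 2, e ≠ 0 → e = 1 := by decide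
  have h1v : ((1 : ZMod 2)).val = 1 := rfl
  have hl : l = 0 := by
    by_contra hl
    have h2 := h'.even hγ
    have e : ((gp4 S j l V : 𝓞 K) : K) = (lam : K) * (gp4 S j 0 V : K) := by
      rw [gp4_lam, h0 l hl, h1v, pow_one]
      push_cast
      rfl
    rw [e, map_mul, nuL_lam] at h2
    have h3 : nuL (gp4 S j 0 V : K) = 1 := pv_one prime_lam (not_dvd_gp4_lam _ _)
    rw [h3, mul_one] at h2
    exact absurd (exp_odd h2) (by decide)
  refine ⟨hl, ?_⟩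
  subst hl
  by_contra hj
  have hj1 := h0 j hj
  subst hj1
  obtain ⟨y, hy⟩ : ∃ y : 𝓞 K, y = ∏ q ∈ S, q.1 ^ (V q).val := ⟨_, rfl⟩
  have hy4 : In4 y := by
    rw [hy]
    exact gp4_in4 S V
  have hg0 : gp4 S 1 0 V = iO * y := by
    rw [hy]
    unfold gp4
    rw [ZMod.val_zero, pow_zero, mul_one, h1v, pow_one]
  rw [hg0] at h'
  obtain ⟨b, hb, hb'⟩ := h'
  have hvy : nuL ((iO * y : 𝓞 K) : K) = 1 := pv_one prime_lam fun hd => by
    rcases prime_lam.dvd_or_dvd hd with h2 | h2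
    · exact not_dvd_of_unit prime_lam isUnit_iO h2
    · exact hy4.not_lam h2
  have h1 : nuL (((iO * y : 𝓞 K) : K) / b ^ 2) = 1 := by
    have := nuL.map_one_add_of_lt (x := ((iO * y : 𝓞 K) : K) / b ^ 2 - 1) (lt_of_le_of_lt hb' hγ)
    rwa [add_sub_cancel] at this
  have hb0 : nuL b ≠ 0 := (Valuation.ne_zero_iff _).2 hb
  have hvb : nuL b = 1 := by
    rw [map_div₀, map_pow, hvy, div_eq_one_iff_eq (pow_ne_zero 2 hb0)] at h1
    exact (pow_eq_one_iff_of_nonneg zero_le two_ne_zero).1 h1.symm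
  obtain ⟨ε, hε, h5⟩ := unit_near iK_sq' nuL_two nuL_res hvb
  -- `i y` is `ε` modulo `lam ^ 3`
  have h6 : nuL (((iO * y : 𝓞 K) : K) - ε) ≤ exp (-((3 : ℕ) : ℤ)) := by
    have e : ((iO * y : 𝓞 K) : K) - ε = (((iO * y : 𝓞 K) : K) / b ^ 2 - 1) * b ^ 2 +
        (b ^ 2 - ε) := by
      field_simp
      ring
    rw [e]
    refine nuL.map_add_le ?_ (h5.trans ?_)
    · rw [map_mul, map_pow, hvb, one_pow, mul_one]
      exact hb'
    · rw [exp_le_exp]
      norm_num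
  obtain ⟨t, ht⟩ := hy4
  have h7 : nuL ((iO : K) - ε) ≤ exp (-((3 : ℕ) : ℤ)) := by
    have e : (iO : K) - ε = (((iO * y : 𝓞 K) : K) - ε) - ((lam : K) ^ 3 * ((iO : K) * (t : K))) := by
      have e1 : (y : K) = 1 + (lam : K) ^ 3 * (t : K) := by
        have e2 : y = 1 + lam ^ 3 * t := by linear_combination ht
        rw [e2]
        push_cast
        rfl
      have key : ∀ I L T ε : K, I - ε = I * (1 + L ^ 3 * T) - ε - L ^ 3 * (I * T) := by
        intro I L T ε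
        ring
      rw [coe_mul', e1]
      exact key _ _ _ _
    rw [e]
    refine nuL.map_sub_le h6 (mul_le_exp (nu_lpow nuL_lam 3) ?_)
    exact nu_mul_le nuL_i.le (nuL_O t)
  have h8 := nu_i_one iK_sq' nuL_two (ε := (1 : K)) (δ := ε) (Or.inl rfl) hε
  rw [one_mul] at h8
  rw [h8, exp_le_exp] at h7
  norm_num at h7

/-! ### the Selmer elements -/

theorem sel5_of_t {k : ZMod 4} {l : ZMod 2} {S : Finset Pg} {a : K} {j l' : ZMod 2}
    {V : Pg → ZMod 2} {m : K} (hm : m ≠ 0) (hma : a = m ^ 2 * (gp4 S j l' V : K))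
    (h : ∀ v : HeightOneSpectrum (𝓞 K), GLoc4 (v.valuation K) ((dk k l S : K) ^ 2) a) (t : ZMod 2)
    (hj : j + t * md k = 0) (hl : l' + t * l = 0) (q : Pg) (hq : q ∈ S) :
    row5 (md k) l S (fun q => V q + t) q = 0 := by
  have e2 : ∀ x y : ZMod 2, x + y = 0 → x = y := by decide
  have h3 := sel5_row hq hm hma (h (pv q.1 q.prime))
  rw [e2 _ _ hj, e2 _ _ hl, c2_lam] at h3
  unfold row5
  rw [← h3]
  have h4 : ∑ p ∈ S.erase q, (V p + t + (V q + t)) * s4 q p =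
      ∑ p ∈ S.erase q, (V p + V q) * s4 q p := by
    refine sum_congr rfl fun p _ => ?_
    have h5 : ∀ x y t s : ZMod 2, (x + t + (y + t)) * s = (x + y) * s := by decide
    exact h5 _ _ _ _
  rw [h4]
  ring

/-- **`k` odd or `lam ∣ δ`** -/
theorem sel5_I (k : ZMod 4) (l : ZMod 2) (S : Finset Pg) (hkl : md k = 1 ∨ l = 1)
    (hker : ∀ f : Pg → ZMod 2, (∀ q ∈ S, row5 (md k) l S f q = 0) → ∀ q ∈ S, f q = 0) :
    SelCl5 (dk k l S : K) := by
  intro a ha h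
  obtain ⟨j, l', V, m, hm, hma⟩ := sel5_cl ha h
  have e2 : ∀ x y : ZMod 2, x + y = 0 → x = y := by decide
  have h0 : ∀ x : ZMod 2, x = 0 ∨ x = 1 := by decide
  have h1v : ((1 : ZMod 2)).val = 1 := rfl
  obtain ⟨t, ht1, ht2⟩ : ∃ t : ZMod 2, l' + t * l = 0 ∧ j + t * md k = 0 := by
    rcases h0 l with hl | hl
    · subst hl
      have hk : md k = 1 := hkl.resolve_right (by decide)
      have hn : ¬ C4 nuL (dk k 0 S : K) := fun hc => by
        have h1 := (dk_C4 hc).1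
        rw [hk] at h1
        exact absurd h1 (by decide)
      obtain ⟨t, ht⟩ : ∃ t : ZMod 2, C4 nuL (a * (dk k 0 S : K) ^ t.val) := by
        rcases loc5_lam iK_sq' nuL_two nuL_res (nuL_dk k S) hn (h (pv lam prime_lam)) with h1 | h1
        · exact ⟨0, by rwa [ZMod.val_zero, pow_zero, mul_one]⟩
        · exact ⟨1, by rwa [h1v, pow_one]⟩
      obtain ⟨n, hn, h1⟩ := cl_mul_pow (S := S) hm hma k 0 t
      rw [h1] at ht
      obtain ⟨g1, g2, -⟩ := cl_C4 hn ht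
      exact ⟨t, g1, g2⟩
    · subst hl
      have hodd : ¬ IsSquare (nuL (dk k 1 S : K)) := by
        rw [nuL_dk1]
        intro h1
        exact absurd (exp_odd h1) (by decide)
      obtain ⟨t, ht⟩ : ∃ t : ZMod 2,
          CG nuL (exp (-((3 : ℕ) : ℤ))) (a * (dk k 1 S : K) ^ t.val) := by
        rcases loc5_one iK_sq' nuL_two nuL_res (coe_ne (dk_ne k 1 S)) hodd
          (h (pv lam prime_lam)) with h1 | h1
        · exact ⟨0, by rwa [ZMod.val_zero, pow_zero, mul_one]⟩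
        · exact ⟨1, by rwa [h1v, pow_one]⟩
      obtain ⟨n, hn, h1⟩ := cl_mul_pow (S := S) hm hma k 1 t
      rw [h1] at ht
      obtain ⟨g1, g2⟩ := cl_CG hn ht
      exact ⟨t, g1, g2⟩
  have h3 := hker (fun q => V q + t) fun q hq => sel5_of_t hm hma h t ht2 ht1 q hq
  exact sel_const hma t (fun q hq => e2 _ _ (h3 q hq)) (e2 _ _ ht2) (e2 _ _ ht1)

/-- **`k` even, `∑ a_q = 1`** -/
theorem sel5_II (k : ZMod 4) (S : Finset Pg) (hk : md k = 0) (hS : ∑ q ∈ S, aa q.1 = 1)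
    (hker : ∀ f : Pg → ZMod 2, (∀ q ∈ S, rowN 0 S f q = 0) →
      (∀ q ∈ S, f q = 0) ∨ ∀ q ∈ S, f q = 1) : SelCl5 (dk k 0 S : K) := by
  intro a ha h
  obtain ⟨j, l', V, m, hm, hma⟩ := sel5_cl ha h
  have e2 : ∀ x y : ZMod 2, x + y = 0 → x = y := by decide
  have h1v : ((1 : ZMod 2)).val = 1 := rfl
  have hn : ¬ C4 nuL (dk k 0 S : K) := fun hc => by
    have h1 := (dk_C4 hc).2
    rw [hS] at h1
    exact absurd h1 (by decide)
  obtain ⟨t, ht⟩ : ∃ t : ZMod 2, C4 nuL (a * (dk k 0 S : K) ^ t.val) := by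
    rcases loc5_lam iK_sq' nuL_two nuL_res (nuL_dk k S) hn (h (pv lam prime_lam)) with h1 | h1
    · exact ⟨0, by rwa [ZMod.val_zero, pow_zero, mul_one]⟩
    · exact ⟨1, by rwa [h1v, pow_one]⟩
  obtain ⟨n, hn, h1⟩ := cl_mul_pow (S := S) hm hma k 0 t
  rw [h1] at ht
  obtain ⟨g1, g2, -⟩ := cl_C4 hn ht
  have h3 := hker (fun q => V q + t) fun q hq => by
    have h9 := sel5_of_t hm hma h t g2 g1 q hq
    rwa [hk, row5_zero] at h9
  have hc : ∃ c : ZMod 2, ∀ q ∈ S, V q = c := by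
    rcases h3 with h3 | h3
    · exact ⟨t, fun q hq => e2 _ _ (h3 q hq)⟩
    · refine ⟨1 + t, fun q hq => ?_⟩
      have h5 : ∀ x t : ZMod 2, x + t = 1 → x = 1 + t := by decide
      exact h5 _ _ (h3 q hq)
  obtain ⟨c, hc⟩ := hc
  refine sel_const hma c hc ?_ ?_
  · rw [hk, mul_zero] at g2 ⊢
    rwa [add_zero] at g2
  · rw [mul_zero] at g1 ⊢
    rwa [add_zero] at g1

/-- **`k` even, `∑ a_q = 0`** : the corner is `∑ b_q` -/
theorem sel5_III (k : ZMod 4) (S : Finset Pg) (hk : md k = 0) (hS : ∑ q ∈ S, aa q.1 = 0)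
    (hker : ∀ (f : Pg → ZMod 2) (s : ZMod 2), (∀ q ∈ S, rowN 0 S f q + s * aa q.1 = 0) →
      ∑ q ∈ S, f q * aa q.1 + s * ∑ q ∈ S, bb q.1 = 0 →
      ((∀ q ∈ S, f q = 0) ∨ ∀ q ∈ S, f q = 1) ∧ s = 0) :
    SelCl5 (dk k 0 S : K) := by
  obtain ⟨c, d, h1, -, h3⟩ := form4 (DDq_in4 S) (by rw [aa_DDq]; exact hS)
  rw [bb_DDq] at h3
  obtain ⟨β, hβ⟩ : ∃ β : ZMod 2, β = ((c + d : ℤ) : ZMod 2) := ⟨_, rfl⟩
  rw [h3, ← hβ] at hker
  obtain ⟨n, hn⟩ := digit2 (c + d)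
  rw [← hβ] at hn
  -- `δ = ± (1 + 4 e)`
  obtain ⟨μ, hμ, hδ⟩ : ∃ μ : K, (μ = 1 ∨ μ = -1) ∧
      (dk k 0 S : K) = μ * (1 + 4 * ((c : K) + (d : K) * (iO : K))) := by
    have hk2 : ∀ k : ZMod 4, md k = 0 → k = 0 ∨ k = 2 := by decide
    rcases hk2 k hk with rfl | rfl
    · refine ⟨1, Or.inl rfl, ?_⟩
      have e : dk 0 0 S = 1 * (1 + 4 * ((c : 𝓞 K) + (d : 𝓞 K) * iO)) := by
        rw [dk_zero, h1]
        show iO ^ 0 * _ = _
        rw [pow_zero]
      rw [e]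
      push_cast
      rfl
    · refine ⟨-1, Or.inr rfl, ?_⟩
      have e : dk 2 0 S = -1 * (1 + 4 * ((c : 𝓞 K) + (d : 𝓞 K) * iO)) := by
        rw [dk_zero, h1]
        show iO ^ 2 * _ = _
        rw [iO_sq]
      rw [e]
      push_cast
      rfl
  have hint : ∀ c : ℤ, nuL (c : K) ≤ 1 := by
    intro c
    exact nuL_O (c : 𝓞 K)
  have he : nuL ((c : K) + (d : K) * (iO : K)) ≤ 1 :=
    nu_add_le (hint c) (nu_mul_le (hint d) nuL_i.le)
  have he' : nuL ((β.val : K)) ≤ 1 := nu_natCast_le' _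
  have hee : nuL ((c : K) + (d : K) * (iO : K) + (β.val : K)) < 1 := by
    have e : (c : K) + (d : K) * (iO : K) + (β.val : K) =
        (lam : K) * ((d : K) * (iO : K)) + 2 * ((β.val : K) + (n : K)) := by
      have hn' : (c : K) + (d : K) = (β.val : K) + 2 * (n : K) := by
        have := congrArg (Int.cast (R := K)) hn
        push_cast at this
        exact this
      rw [lam_coe]
      linear_combination hn' - (d : K) * iK_sq'
    rw [e]
    refine nuL.map_add_lt ?_ ?_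
    · rw [map_mul, nuL_lam]
      calc exp (-1) * nuL ((d : K) * (iO : K)) ≤ exp (-1) * 1 := by
            gcongr
            exact nu_mul_le (hint d) nuL_i.le
        _ < 1 := by
          rw [mul_one, ← exp_zero, exp_lt_exp]
          norm_num
    · rw [map_mul, nuL_two]
      calc exp (-2) * nuL ((β.val : K) + (n : K)) ≤ exp (-2) * 1 := by
            gcongr
            exact nu_add_le he' (hint n)
        _ < 1 := by
          rw [mul_one, ← exp_zero, exp_lt_exp]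
          norm_num
  obtain ⟨z, hz⟩ : ∃ z : 𝓞 K, z = 1 + lam ^ 3 * (β.val : 𝓞 K) := ⟨_, rfl⟩
  have hz4 : In4 z := ⟨(β.val : 𝓞 K), by rw [hz]; ring⟩
  have haz : aa z = β := by
    have h5 := aa_form (β.val : ℤ) 0
    have e : (1 + lam ^ 3 * ((((β.val : ℕ) : ℤ) : 𝓞 K4) + ((0 : ℤ) : 𝓞 K4) * iO)) = z := by
      rw [hz]
      push_cast
      ring
    rw [e] at h5
    rw [h5]
    push_cast
    rw [add_zero, ZMod.natCast_val, ZMod.cast_id]
  intro a ha h
  obtain ⟨j, l', V, m, hm, hma⟩ := sel5_cl ha h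
  have e2 : ∀ x y : ZMod 2, x + y = 0 → x = y := by decide
  have hkey : ∃ s : ZMod 2, l' = 0 ∧ j = s ∧ ∑ q ∈ S, V q * aa q.1 + s * β = 0 := by
    rcases loc5_X iK_sq' nuL_two nuL_res hμ he he' hee hδ (h (pv lam prime_lam)) with g | g
    · rw [hma] at g
      obtain ⟨g1, g2, g3⟩ := cl_C4 hm g
      exact ⟨0, g1, g2, by rw [g3, zero_mul, add_zero]⟩
    · have e : (iO : K) ^ 1 * (1 + (1 + (iO : K)) ^ 3 * (β.val : K)) =
          ((iO ^ 1 * z : 𝓞 K) : K) := by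
        rw [← lam_coe, hz]
        push_cast
        rfl
      rw [e, hma] at g
      obtain ⟨g1, g2, g3⟩ := cl_C4_mul hm hz4 one_ne_zero (u := iO ^ 1 * z) (f := 1)
        (by rw [one_pow, one_mul]; rfl) g
      exact ⟨1, g1, e2 _ _ g2, by rw [one_mul, ← haz]; exact g3⟩
  obtain ⟨s, hl, hj, hs⟩ := hkey
  obtain ⟨h5, h6⟩ := hker V s (fun q hq => by
    have h8 := sel5_row hq hm hma (h (pv q.1 q.prime))
    rw [hk, hl, hj] at h8
    refine Eq.trans ?_ h8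
    unfold rowN
    ring) hs
  rcases h5 with h7 | h7
  · exact sel_const hma 0 h7 (by rw [hj, h6, zero_mul]) (by rw [hl, zero_mul])
  · exact sel_const hma 1 h7 (by rw [hj, h6, hk, mul_zero]) (by rw [hl, mul_zero])

end

end Pool.Agent.Lib.MP_1a91b9_ntQ.C
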