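import Pool.Agent.Lib.MP_1a91b9_ntQ.C.Tors4

/-!
# MP_1a91b9_nt (quartic twists), part C: the points over a number field

The place above `2`, and the points of `y² = x³ - d x` from the Selmer elements: only `O` and
`(0, 0)`.
-/

set_option autoImplicit false

namespace Pool.Agent.Lib.MP_1a91b9_ntQ.C

open WithZero WeierstrassCurve NumberField IsDedekindDomain
open Pool.Agent.Lib.MP_1a91b9_ntT3.S9 (ShaP)
open scoped Classical

noncomputable section

variable {N : Type*} [Field N] [NumberField N]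

/-- a prime element has the value `exp (-1)` -/
theorem val_gen {v : HeightOneSpectrum (𝓞 N)} {p : 𝓞 N} (hp : Prime p) (h : p ∈ v.asIdeal) :
    v.asIdeal = Ideal.span {p} ∧ v.valuation N (p : N) = exp (-1) := by
  have h1 : (Ideal.span {p}).IsPrime := (Ideal.span_singleton_prime hp.ne_zero).2 hp
  have h2 : Ideal.span {p} ≠ ⊥ := by
    rw [Ne, Ideal.span_singleton_eq_bot]
    exact hp.ne_zero
  have h3 : (Ideal.span {p}).IsMaximal := h1.isMaximal h2
  have h4 : v.asIdeal = Ideal.span {p} :=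
    (h3.eq_of_le v.isPrime.ne_top ((Ideal.span_singleton_le_iff_mem _).2 h)).symm
  refine ⟨h4, ?_⟩
  rw [show v.valuation N (p : N) = v.intValuation p from v.valuation_of_algebraMap p]
  exact v.intValuation_singleton hp.ne_zero h4

/-- the place above `2`: `l = 1 + z` or an associated element -/
theorem place4 {z : N} (hz : z ^ 2 = -1) {l : 𝓞 N} (hl : Prime l) {n : ℤ}
    (hlz : (l : N) = z ^ n * (1 + z)) (hres : ∀ y : 𝓞 N, l ∣ y ∨ l ∣ y - 1)
    {v : HeightOneSpectrum (𝓞 N)} (hv : l ∈ v.asIdeal) :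
    v.valuation N 2 = exp (-2) ∧ ∀ x : N, v.valuation N x = 1 → v.valuation N (x - 1) < 1 := by
  obtain ⟨h1, h2⟩ := val_gen hl hv
  have hz1 : v.valuation N z = 1 := by
    have h3 : z ^ 4 = 1 := by linear_combination (z ^ 2 - 1) * hz
    have h4 := congrArg (v.valuation N) h3
    rw [map_pow, map_one] at h4
    exact (pow_eq_one_iff_of_nonneg zero_le (by norm_num)).1 h4
  constructor
  · have h3 : v.valuation N (1 + z) = exp (-1) := by
      rw [hlz, map_mul, map_zpow₀, hz1, one_zpow, one_mul] at h2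
      exact h2
    have h4 : (1 + z) ^ 2 = 2 * z := by linear_combination hz
    have h5 := congrArg (v.valuation N) h4
    rw [map_pow, h3, map_mul, hz1, mul_one, ← exp_nsmul] at h5
    rw [← h5]
    rfl
  · intro x hx
    obtain ⟨y, hy⟩ := v.exists_valuation_sub_lt_of_integer (K := N) hx.le 1
    have hy' : v.valuation N (x - (y : N)) < 1 := by
      rw [Valuation.map_sub_swap]
      simpa using hy
    have hmem : ∀ t : 𝓞 N, l ∣ t → v.valuation N (t : N) < 1 := fun t ht =>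
      (v.valuation_lt_one_iff_mem t).2 (by rw [h1, Ideal.mem_span_singleton]; exact ht)
    rcases hres y with h3 | h3
    · exfalso
      have h4 := (v.valuation N).map_add_lt hy' (hmem y h3)
      rw [sub_add_cancel, hx] at h4
      exact lt_irrefl _ h4
    · have h4 := (v.valuation N).map_add_lt hy' (hmem _ h3)
      have e : x - (y : N) + ((y - 1 : 𝓞 N) : N) = x - 1 := by
        push_cast
        ring
      rwa [e] at h4

/-- **part C, quartic twists**: the points and the Tate-Shafarevich group from the Selmer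
elements -/
theorem main4 {d z : N} (hd : d ≠ 0) (hz : z ^ 2 = -1) (hS : SelCl4 d) {W : WeierstrassCurve N}
    (hW : W = cq d) {v : HeightOneSpectrum (𝓞 N)} (h2 : v.valuation N 2 = exp (-2))
    (hres : ∀ x : N, v.valuation N x = 1 → v.valuation N (x - 1) < 1)
    (hv : v.valuation N d = 1 ∨ ∃ n : ℤ, v.valuation N d = exp (2 * n + 1))
    (h5 : ∀ s : N, d ≠ s ^ 4 * (1 + 2 * z) ∧ d ≠ s ^ 4 * (1 - 2 * z)) :
    Finite W.toAffine.Point ∧ Nat.card W.toAffine.Point = 2 ∧ Nat.card (ShaP 2 W) = 1 ∧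
      ∀ x y : N, y ^ 2 = x ^ 3 - d * x → x = 0 ∧ y = 0 := by
  obtain ⟨h1, ⟨m, hm, hm'⟩, h3⟩ := of_selCl4 hd hz hS hW
  have h : IsQ W.toAffine z d := ⟨hW, hz, hd⟩
  obtain ⟨h6, h7⟩ := card4 h h2 hres hm' hm hv h5
  refine ⟨h1, h6, h3, fun x y hxy => ?_⟩
  have hx := h7 x y hxy
  refine ⟨hx, (pow_eq_zero_iff two_ne_zero).1 (?_ : y ^ 2 = 0)⟩
  rw [hxy, hx]
  ring

/-- the same for the twists by `D` in the ring of integers, `D` not divisible by the square of
`l`; the exceptions `1 + 2 z`, `1 - 2 z` -/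
theorem main4_int {D : 𝓞 N} (hD : D ≠ 0) {z : N} (hz : z ^ 2 = -1) (hS : SelCl4 (D : N))
    {W : WeierstrassCurve N} (hW : W = cq (D : N)) {l : 𝓞 N} (hl : Prime l) {n : ℤ}
    (hlz : (l : N) = z ^ n * (1 + z)) (hres : ∀ y : 𝓞 N, l ∣ y ∨ l ∣ y - 1) (hl2 : ¬ l ^ 2 ∣ D)
    (h5 : ∀ s : N, (D : N) ≠ s ^ 4 * (1 + 2 * z) ∧ (D : N) ≠ s ^ 4 * (1 - 2 * z)) :
    Finite W.toAffine.Point ∧ Nat.card W.toAffine.Point = 2 ∧ Nat.card (ShaP 2 W) = 1 ∧
      ∀ x y : N, y ^ 2 = x ^ 3 - (D : N) * x → x = 0 ∧ y = 0 := by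
  have hp : (Ideal.span {l}).IsPrime := (Ideal.span_singleton_prime hl.ne_zero).2 hl
  let v : HeightOneSpectrum (𝓞 N) := ⟨Ideal.span {l}, hp, by
    rw [Ne, Ideal.span_singleton_eq_bot]
    exact hl.ne_zero⟩
  have hv : l ∈ v.asIdeal := Ideal.mem_span_singleton_self l
  obtain ⟨h2, h3⟩ := place4 hz hl hlz hres hv
  obtain ⟨h4, h6⟩ := val_gen hl hv
  have hD' : (D : N) ≠ 0 := by
    intro h0
    exact hD ((map_eq_zero_iff (algebraMap (𝓞 N) N) (FaithfulSMul.algebraMap_injective _ _)).1 h0)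
  refine main4 hD' hz hS hW h2 h3 ?_ h5
  by_cases hlD : l ∣ D
  · right
    obtain ⟨c, hc⟩ := hlD
    have hlc : ¬ l ∣ c := fun ⟨e, he⟩ => hl2 ⟨e, by rw [hc, he]; ring⟩
    refine ⟨-1, ?_⟩
    have h7 : v.valuation N (c : N) = 1 := v.valuation_eq_one_iff_notMem.2 fun h8 =>
      hlc (by rwa [h4, Ideal.mem_span_singleton] at h8)
    have e : (D : N) = (l : N) * (c : N) := by
      rw [hc]
      push_cast
      rfl
    rw [e, map_mul, h6, h7, mul_one]
    norm_num
  · left
    exact v.valuation_eq_one_iff_notMem.2 fun h8 =>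
      hlD (by rwa [h4, Ideal.mem_span_singleton] at h8)

end

end Pool.Agent.Lib.MP_1a91b9_ntQ.C
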