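import Pool.Agent.Lib.MP_1a91b9_ntQ.C.DescQ
import Pool.Agent.Lib.MP_1a91b9_ntQ.C.Tors4N

/-!
# MP_1a91b9_nt, part C: the torsion of `y² = x³ - δ² x`

A subgroup `H` on which `1 - i` is bijective; a nontrivial point of such a subgroup exists only if
`d` is `1 + 2 z` or `1 - 2 z` times a fourth power (or has even valuation at a place above `2`).
-/

set_option autoImplicit false
set_option linter.unusedSectionVars false

namespace Pool.Agent.Lib.MP_1a91b9_ntQ.C

open WithZero WeierstrassCurve NumberField IsDedekindDomain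
open Pool.Agent.Lib.MP_1a91b9_ntH.C (exists_nu)
open Pool.Agent.Lib.MP_1a91b9_ntT3.S9 (ShaP)
open scoped Classical

noncomputable section

section

variable {F : Type*} [Field F] [CharZero F] {W : Affine F} {z d : F}

/-- `1 - i` is bijective on the subgroup `H` -/
structure HS (h : IsQ W z d) (H : AddSubgroup W.Point) : Prop where
  surj : ∀ P ∈ H, ∃ Q ∈ H, mu h Q = P
  stab : ∀ P ∈ H, mu h P ∈ H
  inj : ∀ P ∈ H, mu h P = 0 → P = 0

variable (h : IsQ W z d) {H : AddSubgroup W.Point} (hH : HS h H)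
  {ν : Valuation F ℤᵐ⁰} (h2 : ν 2 = exp (-2))

include hH in
theorem hs_ne {x y : F} {hn : W.Nonsingular x y}
    (hP : Affine.Point.some x y hn ∈ H) : x ≠ 0 := by
  rintro rfl
  have h1 : mu h (.some 0 y hn) = 0 := by
    rw [mu_apply, sub_eq_zero]
    exact ((omP_fixed h hn).2 rfl).symm
  exact Affine.Point.some_ne_zero _ (hH.inj _ hP h1)

include hH h2 in
/-- the abscissas of the points of odd order: the valuation is half the valuation of `d` -/
theorem hs_val [Finite W.Point] {x y : F} {hn : W.Nonsingular x y}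
    (hP : Affine.Point.some x y hn ∈ H) : ν x ^ 2 = ν d := by
  have hz := nu_z h (ν := ν)
  obtain ⟨m, hm⟩ := exists_nu ν h.hd
  -- the maximum
  have hmax : ∀ Q : W.Point, Q ∈ H → ν (abs4 Q) ^ 2 ≤ ν d := by
    by_contra hc
    push Not at hc
    obtain ⟨Q₀, hQ₀, hc⟩ := hc
    obtain ⟨⟨Q, hQR⟩, hQ⟩ := Finite.exists_max (fun P : H => ν (abs4 P.1))
    have hQ1 : ν d < ν (abs4 Q) ^ 2 :=
      lt_of_lt_of_le hc (pow_le_pow_left₀ zero_le (hQ ⟨Q₀, hQ₀⟩) 2)
    obtain _ | ⟨x, y, hn⟩ := Q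
    · have e : abs4 (Affine.Point.zero : W.Point) = 0 := rfl
      rw [e, map_zero, zero_pow two_ne_zero] at hQ1
      exact not_lt_zero hQ1
    · have e : abs4 (Affine.Point.some x y hn : W.Point) = x := rfl
      rw [e] at hQ1
      have hx := hs_ne h hH hQR
      obtain ⟨X, Y, hn', h1, h4⟩ := mu_x' h hn hx
      have h3 := hQ ⟨mu h (.some x y hn), hH.stab _ hQR⟩
      dsimp only at h3
      rw [h1] at h3
      have e' : abs4 (Affine.Point.some X Y hn' : W.Point) = X := rfl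
      rw [e, e'] at h3
      have h5 := congrArg ν h4
      have h6 : ν (x ^ 2 - d) = ν x ^ 2 := by
        rw [sub_eq_add_neg, ν.map_add_eq_of_lt_left (by
          rw [Valuation.map_neg, map_pow]
          exact hQ1), map_pow]
      rw [map_mul, map_mul, map_mul, h6, hz, one_mul, h2] at h5
      obtain ⟨n, hn0⟩ := exists_nu ν hx
      have hX0 : X ≠ 0 := by
        rintro rfl
        rw [map_zero, mul_zero, hn0, ← exp_nsmul] at h5
        exact exp_ne_zero h5.symm
      obtain ⟨r, hr⟩ := exists_nu ν hX0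
      rw [hn0, hr, ← exp_add, ← exp_add, ← exp_nsmul, exp_inj, nsmul_eq_mul] at h5
      push_cast at h5
      rw [hn0, hr, exp_le_exp] at h3
      omega
  have hx := hs_ne h hH hP
  have h0 : ν x ^ 2 ≤ ν d := hmax _ hP
  by_contra hne
  have hlt : ν x ^ 2 < ν d := lt_of_le_of_ne h0 hne
  obtain ⟨X, Y, hn', h1, h4⟩ := mu_x' h hn hx
  have h5 := congrArg ν h4
  have h6 : ν (x ^ 2 - d) = ν d := by
    rw [sub_eq_add_neg, ν.map_add_eq_of_lt_right (by
      rw [Valuation.map_neg, map_pow]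
      exact hlt), Valuation.map_neg]
  have h7 : ν X ^ 2 ≤ ν d := hmax _ (h1 ▸ hH.stab _ hP : Affine.Point.some X Y hn' ∈ H)
  rw [map_mul, map_mul, map_mul, h6, hz, one_mul, h2] at h5
  obtain ⟨n, hn0⟩ := exists_nu ν hx
  have hX0 : X ≠ 0 := by
    rintro rfl
    rw [map_zero, mul_zero, hm] at h5
    exact exp_ne_zero h5.symm
  obtain ⟨r, hr⟩ := exists_nu ν hX0
  rw [hn0, hm, ← exp_nsmul, exp_lt_exp, nsmul_eq_mul] at hlt
  rw [hr, hm, ← exp_nsmul, exp_le_exp, nsmul_eq_mul] at h7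
  rw [hn0, hr, hm, ← exp_add, ← exp_add, exp_inj] at h5
  push_cast at hlt h7 h5
  omega

include hH in
/-- the abscissas are squares -/
theorem hs_sq {x y : F} {hn : W.Nonsingular x y}
    (hP : Affine.Point.some x y hn ∈ H) : ∃ s : F, x = s ^ 2 := by
  obtain ⟨Q, -, hQ⟩ := hH.surj _ hP
  obtain ⟨X, Y, hn', rfl, hX⟩ := mu_ne_cases h Q (by
    rw [hQ]
    exact Affine.Point.some_ne_zero _)
  obtain ⟨x', y', hn'', h3, h4, -⟩ := mu_some h hn' hX
  rw [h3] at hQ
  injection hQ with h5 h6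
  exact ⟨_, h5.symm.trans h4⟩

variable (hres : ∀ x : F, ν x = 1 → ν (x - 1) < 1)

include hH h2 hres in
/-- a point of odd order: `d = 1 ± 2 z` modulo `8` -/
theorem hs_mod8 [Finite W.Point] (hd : ν d = 1) {x y : F} {hn : W.Nonsingular x y}
    (hP : Affine.Point.some x y hn ∈ H) :
    ν (d - (1 + 2 * z)) ≤ exp (-6) ∨ ν (d - (1 - 2 * z)) ≤ exp (-6) := by
  have hval : ∀ {x y : F} {hn : W.Nonsingular x y}, Affine.Point.some x y hn ∈ H →
      ∃ s : F, ν s = 1 ∧ x = s ^ 2 := by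
    intro x y hn hP
    obtain ⟨s, hs⟩ := hs_sq h hH hP
    refine ⟨s, ?_, hs⟩
    have h3 := hs_val h hH h2 hP
    rw [hd, hs, map_pow, ← pow_mul] at h3
    exact (pow_eq_one_iff_of_nonneg zero_le (by norm_num)).1 h3
  obtain ⟨s, hs1, hs⟩ := hval hP
  obtain ⟨X, Y, hn', h3, h4⟩ := mu_x' h hn (hs_ne h hH hP)
  obtain ⟨r, hr1, hr⟩ := hval (h3 ▸ hH.stab _ hP : Affine.Point.some X Y hn' ∈ H)
  have hsr : ν (s * r) = 1 := by rw [map_mul, hs1, hr1, mul_one]
  have h5 := four_mod8 h h2 hres hs1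
  have hz := nu_z h (ν := ν)
  have e26 : exp (-2 : ℤ) * exp (-4) = (exp (-6) : ℤᵐ⁰) := by rw [← exp_add]; norm_num
  have hd' : d = s ^ 4 + 2 * z * (s * r) ^ 2 := by
    rw [hs, hr] at h4
    linear_combination -z * h4 - (s ^ 4 - d) * h.hz
  have key : ∀ u : F, ν u ≤ exp (-4) → ν (2 * z * u) ≤ exp (-6) := by
    intro u hu
    rw [map_mul, map_mul, hz, mul_one, h2, ← e26]
    gcongr
  rcases sq_mod4 h h2 hres hsr with h6 | h6
  · left
    have e : d - (1 + 2 * z) = (s ^ 4 - 1) + 2 * z * ((s * r) ^ 2 - 1) := by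
      linear_combination hd'
    rw [e]
    exact ν.map_add_le h5 (key _ h6)
  · right
    have e : d - (1 - 2 * z) = (s ^ 4 - 1) + 2 * z * ((s * r) ^ 2 + 1) := by
      linear_combination hd'
    rw [e]
    exact ν.map_add_le h5 (key _ h6)

include hH h2 hres in
/-- two points of odd order with the same abscissa modulo `4` -/
theorem hs_eq [Finite W.Point] (hd : ν d = 1) {x₁ y₁ x₂ y₂ : F} {hn₁ : W.Nonsingular x₁ y₁}
    {hn₂ : W.Nonsingular x₂ y₂} (hP : Affine.Point.some x₁ y₁ hn₁ ∈ H)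
    (hQ : Affine.Point.some x₂ y₂ hn₂ ∈ H) (hx : ν (x₁ - x₂) ≤ exp (-4)) :
    x₁ = x₂ := by
  by_contra hne
  obtain ⟨X, Y, X', Y', hn, hn', h3, h4, h5⟩ := add_sub_x h hn₁ hn₂ hne
  have hval : ∀ {x y : F} {hn : W.Nonsingular x y}, Affine.Point.some x y hn ∈ H →
      ν x = 1 := by
    intro x y hn hP
    have h3 := hs_val h hH h2 hP
    rw [hd] at h3
    exact (pow_eq_one_iff_of_nonneg zero_le (by norm_num)).1 h3
  have hX := hval (h3 ▸ H.add_mem hP hQ : Affine.Point.some X Y hn ∈ H)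
  have hX' := hval (h4 ▸ H.sub_mem hP hQ : Affine.Point.some X' Y' hn' ∈ H)
  have h6 := congrArg ν h5
  rw [map_mul, map_mul, hX, hX', one_mul, one_mul, map_pow, map_pow] at h6
  obtain ⟨s, hs⟩ := hs_sq h hH hP
  have hs1 : ν s = 1 := by
    have h7 := hval hP
    rw [hs, map_pow] at h7
    exact (pow_eq_one_iff_of_nonneg zero_le (by norm_num)).1 h7
  have e64 : (exp (-6) : ℤᵐ⁰) ≤ exp (-4) := by
    rw [exp_le_exp]
    norm_num
  have h7 : ν (x₁ ^ 2 - 1) ≤ exp (-4) := by
    have e : x₁ ^ 2 - 1 = s ^ 4 - 1 := by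
      rw [hs]
      ring
    rw [e]
    exact (four_mod8 h h2 hres hs1).trans e64
  have h8 : ν (x₁ * (x₁ - x₂)) ≤ exp (-4) := by
    rw [map_mul, hval hP, one_mul]
    exact hx
  have h9 : ν (x₁ * x₂ + d) = exp (-3) := by
    have e23 : exp (-2 : ℤ) * exp (-1) = (exp (-3) : ℤᵐ⁰) := by rw [← exp_add]; norm_num
    have hlt : (exp (-4) : ℤᵐ⁰) < exp (-3) := by
      rw [exp_lt_exp]
      norm_num
    rcases hs_mod8 h hH h2 hres hd hP with h10 | h10
    · have e : x₁ * x₂ + d = 2 * (1 + z) + ((x₁ ^ 2 - 1) + (d - (1 + 2 * z)) - x₁ * (x₁ - x₂)) := by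
        ring
      have h11 : ν (2 * (1 + z)) = exp (-3) := by rw [map_mul, h2, nu_1z' h h2, e23]
      rw [e, ν.map_add_eq_of_lt_left, h11]
      rw [h11]
      exact lt_of_le_of_lt (ν.map_sub_le (ν.map_add_le h7 (h10.trans e64)) h8) hlt
    · have e : x₁ * x₂ + d = 2 * (1 - z) + ((x₁ ^ 2 - 1) + (d - (1 - 2 * z)) - x₁ * (x₁ - x₂)) := by
        ring
      have h11 : ν (2 * (1 - z)) = exp (-3) := by rw [map_mul, h2, nu_1z h h2, e23]
      rw [e, ν.map_add_eq_of_lt_left, h11]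
      rw [h11]
      exact lt_of_le_of_lt (ν.map_sub_le (ν.map_add_le h7 (h10.trans e64)) h8) hlt
  rw [h9] at h6
  have h10 : ν (x₁ - x₂) ^ 2 ≤ exp (-4) ^ 2 := pow_le_pow_left₀ zero_le hx 2
  rw [h6, ← exp_nsmul, ← exp_nsmul, exp_le_exp, nsmul_eq_mul, nsmul_eq_mul] at h10
  norm_num at h10

include hH h2 hres in
/-- **a point of odd order**: `d = s⁴ (1 ± 2 z)` -/
theorem hs_five [Finite W.Point] (hd : ν d = 1) {x y : F} {hn : W.Nonsingular x y}
    (hP : Affine.Point.some x y hn ∈ H) :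
    ∃ s : F, d = s ^ 4 * (1 + 2 * z) ∨ d = s ^ 4 * (1 - 2 * z) := by
  obtain ⟨s, hs⟩ := hs_sq h hH hP
  refine ⟨s, ?_⟩
  have hx0 := hs_ne h hH hP
  obtain ⟨X, Y, hn', h3, h4⟩ := mu_x' h hn hx0
  have hPX : Affine.Point.some X Y hn' ∈ H := h3 ▸ hH.stab _ hP
  obtain ⟨r, hr⟩ := hs_sq h hH hPX
  have hval : ∀ {x y : F} {hn : W.Nonsingular x y}, Affine.Point.some x y hn ∈ H →
      ∀ s : F, x = s ^ 2 → ν s = 1 := by
    intro x y hn hP s hs
    have h3 := hs_val h hH h2 hP
    rw [hd, hs, map_pow, ← pow_mul] at h3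
    exact (pow_eq_one_iff_of_nonneg zero_le (by norm_num)).1 h3
  have hs1 := hval hP s hs
  have hr1 := hval hPX r hr
  obtain ⟨hn2, hom⟩ := omP_some h x y hn
  have hPi : Affine.Point.some (-x) (z * y) hn2 ∈ H := by
    have e : omP h (Affine.Point.some x y hn) =
        Affine.Point.some x y hn - mu h (Affine.Point.some x y hn) := by
      rw [mu_apply]
      abel
    rw [← hom, e]
    exact H.sub_mem hP (hH.stab _ hP)
  -- `X = x` or `X = - x`
  have hX : X = x ∨ X = -x := by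
    rcases sq_mod4 h h2 hres hs1 with h5 | h5 <;> rcases sq_mod4 h h2 hres hr1 with h6 | h6
    · left
      refine hs_eq h hH h2 hres hd hPX hP ?_
      have e : X - x = (r ^ 2 - 1) - (s ^ 2 - 1) := by
        rw [hr, hs]
        ring
      rw [e]
      exact ν.map_sub_le h6 h5
    · right
      refine hs_eq h hH h2 hres hd hPX hPi ?_
      have e : X - -x = (r ^ 2 + 1) + (s ^ 2 - 1) := by
        rw [hr, hs]
        ring
      rw [e]
      exact ν.map_add_le h6 h5
    · right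
      refine hs_eq h hH h2 hres hd hPX hPi ?_
      have e : X - -x = (r ^ 2 - 1) + (s ^ 2 + 1) := by
        rw [hr, hs]
        ring
      rw [e]
      exact ν.map_add_le h6 h5
    · left
      refine hs_eq h hH h2 hres hd hPX hP ?_
      have e : X - x = (r ^ 2 + 1) - (s ^ 2 + 1) := by
        rw [hr, hs]
        ring
      rw [e]
      exact ν.map_sub_le h6 h5
  rcases hX with h5 | h5
  · left
    rw [h5] at h4
    rw [← show x ^ 2 = s ^ 4 by rw [hs]; ring]
    linear_combination -z * h4 - (x ^ 2 - d) * h.hz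
  · right
    rw [h5] at h4
    rw [← show x ^ 2 = s ^ 4 by rw [hs]; ring]
    linear_combination -z * h4 - (x ^ 2 - d) * h.hz

end

/-- a homomorphism with finite fibres -/
theorem fibre_mu {F : Type*} [Field F] [CharZero F] {W : Affine F} {z d : F} (h : IsQ W z d)
    (P : W.Point) : ((mu h : W.Point → W.Point) ⁻¹' {P}).Finite := by
  rcases Set.eq_empty_or_nonempty ((mu h : W.Point → W.Point) ⁻¹' {P}) with h1 | ⟨Q, hQ⟩
  · rw [h1]
    exact Set.finite_empty
  · refine (Set.toFinite {Q, Q + tq h}).subset fun R hR => ?_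
    have h2 : mu h (R - Q) = 0 := by
      rw [map_sub, sub_eq_zero]
      exact hR.trans hQ.symm
    rcases mu_ker_all h _ h2 with h3 | h3
    · exact Or.inl (sub_eq_zero.1 h3)
    · right
      rw [Set.mem_singleton_iff, ← h3]
      abel

section

variable {N : Type*} [Field N] [NumberField N] {W : Affine N} {z δ : N} (h : IsQ W z (δ ^ 2))
  (hP : ∀ P : W.Point, ∃ T Q : W.Point, mu h (mu h T) = 0 ∧ P = T + mu h Q)

include hP in
private theorem surj5 : ∀ P ∈ ((mu h).comp (mu h)).range,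
    ∃ Q ∈ ((mu h).comp (mu h)).range, mu h Q = P := by
  rintro _ ⟨R, rfl⟩
  obtain ⟨T, Q, hT, rfl⟩ := hP R
  refine ⟨mu h (mu h Q), ⟨Q, rfl⟩, ?_⟩
  rw [AddMonoidHom.comp_apply, map_add, map_add, hT, zero_add]

include hP in
/-- finitely many points -/
theorem fin_of_desc5 : Finite W.Point := by
  have h1 : Finite ((mu h).comp (mu h)).range := finite_of_mu_div h _ (surj5 h hP)
  have h2 : (((mu h).comp (mu h)).range : Set W.Point).Finite := Set.toFinite _
  have h3 := (h2.preimage' (f := (mu h : W.Point → W.Point)) fun P _ => fibre_mu h P).preimage'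
    (f := (mu h : W.Point → W.Point)) fun P _ => fibre_mu h P
  refine Set.finite_univ_iff.1 (h3.subset fun P _ => ?_)
  exact ⟨P, rfl⟩

include hP in
theorem hs5 : HS h ((mu h).comp (mu h)).range := by
  have hfin : Finite W.Point := fin_of_desc5 h hP
  refine ⟨surj5 h hP, ?_, ?_⟩
  · rintro _ ⟨R, rfl⟩
    exact ⟨mu h R, rfl⟩
  · let f : ((mu h).comp (mu h)).range → ((mu h).comp (mu h)).range := fun P => ⟨mu h P.1, by
      obtain ⟨R, hR⟩ := P.2
      rw [← hR]
      exact ⟨mu h R, rfl⟩⟩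
    have hsurj : Function.Surjective f := by
      intro P
      obtain ⟨Q, hQ, hQP⟩ := surj5 h hP P.1 P.2
      exact ⟨⟨Q, hQ⟩, Subtype.ext hQP⟩
    have hinj : Function.Injective f := Finite.injective_iff_surjective.2 hsurj
    intro P hPH hP0
    have h4 : (⟨P, hPH⟩ : ((mu h).comp (mu h)).range) = 0 := by
      apply hinj
      apply Subtype.ext
      change mu h P = mu h (0 : W.Point)
      rw [hP0, map_zero]
    exact congrArg Subtype.val h4

/-- **the points**: `O`, `(0, 0)`, `(δ, 0)`, `(-δ, 0)` -/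
theorem points5 (hP : ∀ P : W.Point, ∃ T Q : W.Point, mu h (mu h T) = 0 ∧ P = T + mu h Q)
    {ν : Valuation N ℤᵐ⁰} (h2 : ν 2 = exp (-2)) (hres : ∀ x : N, ν x = 1 → ν (x - 1) < 1)
    (hd : ν δ = 1 ∨ ∃ n : ℤ, ν δ = exp (2 * n + 1))
    (h5 : ∀ s : N, δ ^ 2 ≠ s ^ 4 * (1 + 2 * z) ∧ δ ^ 2 ≠ s ^ 4 * (1 - 2 * z)) (P : W.Point) :
    P = 0 ∨ P = tq h ∨ P = te h (e := δ) rfl ∨ P = te h (e := -δ) (neg_sq δ) := by
  have hfin : Finite W.Point := fin_of_desc5 h hP
  have hH := hs5 h hP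
  have hR : ∀ P ∈ ((mu h).comp (mu h)).range, P = (0 : W.Point) := by
    intro P hPH
    obtain _ | ⟨x, y, hn⟩ := P
    · rfl
    · exfalso
      rcases hd with hd | ⟨n, hd⟩
      · have hd' : ν (δ ^ 2) = 1 := by rw [map_pow, hd, one_pow]
        obtain ⟨s, hs⟩ := hs_five h hH h2 hres hd' hPH
        rcases hs with hs | hs
        · exact (h5 s).1 hs
        · exact (h5 s).2 hs
      · have h6 := hs_val h hH h2 hPH
        obtain ⟨s, rfl⟩ := hs_sq h hH hPH
        have hs0 : s ≠ 0 := by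
          intro h0
          exact hs_ne h hH hPH (by rw [h0]; ring)
        obtain ⟨r, hr⟩ := exists_nu ν hs0
        rw [map_pow, map_pow, hd, hr, ← exp_nsmul, ← exp_nsmul, ← exp_nsmul, exp_inj, nsmul_eq_mul,
          nsmul_eq_mul, nsmul_eq_mul] at h6
        push_cast at h6
        omega
  have h3 : mu h (mu h P) = 0 := hR _ ⟨P, rfl⟩
  rcases mu_ker_all h _ h3 with h4 | h4
  · rcases mu_ker_all h _ h4 with h5 | h5
    · exact Or.inl h5
    · exact Or.inr (Or.inl h5)
  · right; right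
    obtain ⟨X, Y, hXY, rfl, hX⟩ := mu_ne_cases h P (by
      rw [h4]
      exact tq_ne h)
    obtain ⟨x', y', hn', hmu, hx'⟩ := mu_x' h hXY hX
    rw [h4, tq, Affine.Point.some.injEq] at hmu
    rw [← hmu.1, mul_zero] at hx'
    have h5 : X ^ 2 = δ ^ 2 := by
      have h6 := (mul_eq_zero.1 hx'.symm).resolve_left h.z0
      exact sub_eq_zero.1 h6
    have h6 : Y = 0 := by
      have h7 := (h.nons _ _).1 hXY
      refine (pow_eq_zero_iff two_ne_zero).1 (?_ : Y ^ 2 = 0)
      rw [h7]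
      linear_combination X * h5
    subst h6
    rcases sq_eq_sq_iff_eq_or_eq_neg.1 h5 with h7 | h7
    · left
      subst h7
      rfl
    · right
      subst h7
      rfl

end

/-- **part C, `y² = x³ - δ² x`**: the points and the Tate-Shafarevich group from the Selmer
elements -/
theorem main5 {N : Type*} [Field N] [NumberField N] {δ z : N} (hδ : δ ≠ 0) (hz : z ^ 2 = -1)
    (hS : SelCl5 δ) {W : WeierstrassCurve N} (hW : W = cq (δ ^ 2))
    {v : HeightOneSpectrum (𝓞 N)} (h2 : v.valuation N 2 = exp (-2))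
    (hres : ∀ x : N, v.valuation N x = 1 → v.valuation N (x - 1) < 1)
    (hv : v.valuation N δ = 1 ∨ ∃ n : ℤ, v.valuation N δ = exp (2 * n + 1))
    (h5 : ∀ s : N, δ ^ 2 ≠ s ^ 4 * (1 + 2 * z) ∧ δ ^ 2 ≠ s ^ 4 * (1 - 2 * z)) :
    Finite W.toAffine.Point ∧ Nat.card W.toAffine.Point = 4 ∧ Nat.card (ShaP 2 W) = 1 ∧
      ∀ x y : N, y ^ 2 = x ^ 3 - δ ^ 2 * x → y = 0 := by
  subst hW
  have hd : δ ^ 2 ≠ 0 := pow_ne_zero 2 hδ
  have h : IsQ (cq (δ ^ 2)).toAffine z (δ ^ 2) := ⟨rfl, hz, hd⟩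
  have hP := desc_pts5 hd hz hS h
  have h6 := points5 h hP h2 hres hv h5
  have hne : (δ : N) ≠ -δ := by
    intro h7
    have h8 : 2 * δ = 0 := by linear_combination h7
    exact hδ ((mul_eq_zero.1 h8).resolve_left two_ne_zero)
  refine ⟨fin_of_desc5 h hP, ?_, card_shaP5 hd hz hS, ?_⟩
  · have hs : (Set.univ : Set (cq (δ ^ 2)).toAffine.Point) =
        {0, tq h, te h (e := δ) rfl, te h (e := -δ) (neg_sq δ)} := by
      ext P
      simp only [Set.mem_univ, Set.mem_insert_iff, Set.mem_singleton_iff, true_iff]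
      exact h6 P
    have e1 : te h (e := δ) rfl ≠ te h (e := -δ) (neg_sq δ) := by
      intro h7
      rw [te, te, Affine.Point.some.injEq] at h7
      exact hne h7.1
    have e2 : tq h ≠ te h (e := δ) rfl := by
      intro h7
      rw [tq, te, Affine.Point.some.injEq] at h7
      exact hδ h7.1.symm
    have e3 : tq h ≠ te h (e := -δ) (neg_sq δ) := by
      intro h7
      rw [tq, te, Affine.Point.some.injEq] at h7
      exact hδ (neg_eq_zero.1 h7.1.symm)
    have e4 : (0 : (cq (δ ^ 2)).toAffine.Point) ≠ te h (e := δ) rfl := by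
      rw [te]
      exact (Affine.Point.some_ne_zero _).symm
    have e5 : (0 : (cq (δ ^ 2)).toAffine.Point) ≠ te h (e := -δ) (neg_sq δ) := by
      rw [te]
      exact (Affine.Point.some_ne_zero _).symm
    rw [← Set.ncard_univ, hs, Set.ncard_insert_of_notMem, Set.ncard_insert_of_notMem,
      Set.ncard_pair e1]
    · simp only [Set.mem_insert_iff, Set.mem_singleton_iff, not_or]
      exact ⟨e2, e3⟩
    · simp only [Set.mem_insert_iff, Set.mem_singleton_iff, not_or]
      exact ⟨(tq_ne h).symm, e4, e5⟩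
  · intro x y hxy
    rcases h6 (.some x y ((h.nons x y).2 hxy)) with h7 | h7 | h7 | h7
    · exact absurd h7 (Affine.Point.some_ne_zero _)
    · rw [tq, Affine.Point.some.injEq] at h7
      exact h7.2
    · rw [te, Affine.Point.some.injEq] at h7
      exact h7.2
    · rw [te, Affine.Point.some.injEq] at h7
      exact h7.2

end

end Pool.Agent.Lib.MP_1a91b9_ntQ.C
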