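import Pool.Agent.Lib.MP_1a91b9_ntQ.C.Tors4K
import Pool.Agent.Lib.MP_1a91b9_ntQ.C.TorsQ

/-!
# MP_1a91b9_nt, part C: the points of `y² = x³ - δ² x` over `ℚ(i)`, `δ` squarefree
-/

set_option autoImplicit false

namespace Pool.Agent.Lib.MP_1a91b9_ntQ.C

open WithZero WeierstrassCurve NumberField IsDedekindDomain
open Pool.Agent.Lib.MP_1a91b9_ntT3.S9 (ShaP)
open scoped Classical

noncomputable section

/-- a prime element is not a square of the field -/
theorem not_sq_prime {p : 𝓞 K4} (hp : Prime p) (t : K4) : t ^ 2 ≠ (p : K4) := by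
  intro h
  have hinj : Function.Injective (algebraMap (𝓞 K4) K4) := FaithfulSMul.algebraMap_injective _ _
  have h2 : IsIntegral ℤ t := by
    refine IsIntegral.of_pow (n := 2) (by norm_num) ?_
    rw [h]
    exact RingOfIntegers.isIntegral_coe _
  obtain ⟨T, hT⟩ : ∃ T : 𝓞 K4, (T : K4) = t := ⟨⟨_, h2⟩, rfl⟩
  have h3 : T ^ 2 = p := by
    apply hinj
    exact (cpow T 2).trans ((congrArg (· ^ 2) hT).trans h)
  rw [sq] at h3
  rcases hp.irreducible.isUnit_or_isUnit h3.symm with h4 | h4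
  · exact hp.not_isUnit (h3 ▸ h4.mul h4)
  · exact hp.not_isUnit (h3 ▸ h4.mul h4)

theorem sq_ne_four {δ p : 𝓞 K4} (hδ : δ ≠ 0) (hp : Prime p) (s : K4) :
    (δ : K4) ^ 2 ≠ s ^ 4 * (p : K4) := by
  intro h
  have hδ' : (δ : K4) ≠ 0 := by
    intro h0
    exact hδ ((map_eq_zero_iff (algebraMap (𝓞 K4) K4) (FaithfulSMul.algebraMap_injective _ _)).1 h0)
  have hs : s ≠ 0 := by
    rintro rfl
    apply hδ'
    refine (pow_eq_zero_iff two_ne_zero).1 (?_ : (δ : K4) ^ 2 = 0)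
    rw [h]
    ring
  refine not_sq_prime hp ((δ : K4) / s ^ 2) ?_
  rw [div_pow, h]
  field_simp

/-- **part C, `y² = x³ - δ² x` over `ℚ(i)`**, `δ` squarefree -/
theorem main5_K {δ : 𝓞 K4} (hδ : Squarefree δ) (hS : SelCl5 (δ : K4)) {W : WeierstrassCurve K4}
    (hW : W = cq ((δ : K4) ^ 2)) :
    Finite W.toAffine.Point ∧ Nat.card W.toAffine.Point = 4 ∧ Nat.card (ShaP 2 W) = 1 ∧
      ∀ x y : K4, y ^ 2 = x ^ 3 - (δ : K4) ^ 2 * x → y = 0 := by
  have hlam : (lam : K4) = iK ^ (0 : ℤ) * (1 + iK) := by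
    rw [zpow_zero, one_mul, c_lam]
  have hp : (Ideal.span {lam}).IsPrime := (Ideal.span_singleton_prime prime_lam.ne_zero).2 prime_lam
  let v : HeightOneSpectrum (𝓞 K4) := ⟨Ideal.span {lam}, hp, by
    rw [Ne, Ideal.span_singleton_eq_bot]
    exact prime_lam.ne_zero⟩
  have hv : lam ∈ v.asIdeal := Ideal.mem_span_singleton_self lam
  obtain ⟨h2, h3⟩ := place4 iK_sq prime_lam hlam tors_res_lam hv
  obtain ⟨h4, h6⟩ := val_gen prime_lam hv
  have hδ0 : δ ≠ 0 := hδ.ne_zero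
  have hδ' : (δ : K4) ≠ 0 := by
    intro h0
    exact hδ0 ((map_eq_zero_iff (algebraMap (𝓞 K4) K4) (FaithfulSMul.algebraMap_injective _ _)).1 h0)
  refine main5 hδ' iK_sq hS hW h2 h3 ?_ fun s => ⟨?_, ?_⟩
  · by_cases hlD : lam ∣ δ
    · right
      obtain ⟨c, hc⟩ := hlD
      have hlc : ¬ lam ∣ c := fun ⟨e, he⟩ => prime_lam.not_isUnit (hδ lam ⟨e, by rw [hc, he]; ring⟩)
      refine ⟨-1, ?_⟩
      have h7 : v.valuation K4 (c : K4) = 1 := v.valuation_eq_one_iff_notMem.2 fun h8 =>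
        hlc (by rwa [h4, Ideal.mem_span_singleton] at h8)
      have e : (δ : K4) = (lam : K4) * (c : K4) := by
        rw [hc]
        exact cmul _ _
      rw [e, map_mul, h6, h7, mul_one]
      norm_num
    · left
      exact v.valuation_eq_one_iff_notMem.2 fun h8 =>
        hlD (by rwa [h4, Ideal.mem_span_singleton] at h8)
  · rw [← c_five]
    exact sq_ne_four hδ0 prime_five s
  · rw [← c_five']
    exact sq_ne_four hδ0 prime_five' s

end

end Pool.Agent.Lib.MP_1a91b9_ntQ.C
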