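import Pool.Agent.Lib.MP_1a91b9_ntQ.C.PtsX
import Pool.Agent.Lib.MP_1a91b9_ntQ.C.SelQ
import Pool.Agent.Lib.MP_1a91b9_ntQ.C.TorsQK
import Pool.Agent.Lib.MP_1a91b9_ntQ.D.Gd5

/-!
# MP_1a91b9_nt, part C: the points of `y² = x³ - δ² x` for every squarefree `δ` whose matrix is good
-/

set_option autoImplicit false

namespace Pool.Agent.Lib.MP_1a91b9_ntQ.C

open NumberField Finset WeierstrassCurve Pool.Agent.Lib.MP_1a91b9_nuT
open Pool.Agent.Lib.MP_1a91b9_ntQ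
open Pool.Agent.Lib.MP_1a91b9_ntK (NM)
open Pool.Agent.Lib.MP_1a91b9_ntT3.S9 (ShaP)

noncomputable section

theorem row5_ker {S : Finset Pg} {k l : ZMod 2}
    (h : (N4 s4 (fun q => k * aa q.1 + l * bb q.1) S).det ≠ 0) (f : Pg → ZMod 2)
    (hf : ∀ q ∈ S, row5 k l S f q = 0) : ∀ q ∈ S, f q = 0 := by
  have h1 := Matrix.eq_zero_of_mulVec_eq_zero h (v := fun p : S => f p) (by
    ext q
    rw [N4_row (c := k) (l := fun q => l * bb q.1) (fun q _ => rfl), Pi.zero_apply,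
      ← hf q q.2]
    unfold rowN row5
    ring)
  exact fun q hq => congrFun h1 ⟨q, hq⟩

/-- **the Selmer elements of `y² = x³ - δ² x`**, all squarefree `δ = i ^ k lam ^ j ∏ q` -/
theorem sel5_all (k : ZMod 4) (j : Fin 2) (S : Finset Pg) (hG : Gd5 k j S) {δ : 𝓞 K4}
    (hδ : δ = iO ^ k.val * lam ^ (j : ℕ) * DDq S) : SelCl5 (δ : K4) := by
  obtain ⟨g1, g2, g3⟩ := hG
  have hj : ∀ j : Fin 2, j = 0 ∨ j = 1 := by decide
  have h01 : ∀ t : ZMod 2, t = 0 ∨ t = 1 := by decide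
  rcases hj j with rfl | rfl
  · have hD' : δ = dk k 0 S := hδ
    subst hD'
    rcases h01 (md k) with hk | hk
    · rcases h01 (∑ q ∈ S, aa q.1) with hA | hA
      · exact sel5_III k S hk hA fun f s h1 h2 =>
          Bker_of_ker (a := fun q => aa q.1) (g3 hk rfl hA).2 f s h1 h2
      · refine sel5_II k S hk hA fun f hf =>
          ker_of_ker4 (κ := 0) (fun q _ => rfl) (fun v hv => ?_) f hf
        rw [← N4_eq] at hv
        exact (g2 hk rfl hA).2 v hv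
    · exact sel5_I k 0 S (Or.inl hk) (row5_ker (g1 (Or.inl hk)))
  · have hD' : δ = dk k 1 S := hδ
    subst hD'
    exact sel5_I k 1 S (Or.inr rfl) (row5_ker (g1 (Or.inr rfl)))

theorem ph_squarefree (k : ZMod 4) (j : Fin 2) (S : Finset Pg) :
    Squarefree (iO ^ k.val * lam ^ (j : ℕ) * DDq S) := by
  have hj : ∀ j : Fin 2, j = 0 ∨ j = 1 := by decide
  rcases hj j with rfl | rfl
  · exact dk_squarefree k S
  · exact dk_one_squarefree k S

/-- **part C, the family `y² = x³ - δ² x`**, all squarefree `δ = i ^ k lam ^ j ∏ q` -/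
theorem pts5_all (k : ZMod 4) (j : Fin 2) (S : Finset Pg) (hG : Gd5 k j S) {δ : 𝓞 K4}
    (hδ : δ = iO ^ k.val * lam ^ (j : ℕ) * DDq S) {W : WeierstrassCurve K4}
    (hW : W = cq ((δ : K4) ^ 2)) :
    Finite W.toAffine.Point ∧ Nat.card W.toAffine.Point = 4 ∧ Nat.card (ShaP 2 W) = 1 ∧
      ∀ x y : K4, y ^ 2 = x ^ 3 - (δ : K4) ^ 2 * x → y = 0 :=
  main5_K (hδ ▸ ph_squarefree k j S) (sel5_all k j S hG hδ) hW

end

end Pool.Agent.Lib.MP_1a91b9_ntQ.C
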