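import Pool.Agent.Lib.MP_1a91b9_ntQ.C.LocC0

/-!
# MP_1a91b9_nt (quartic twists), converse of the descent: the local image at `lam`, `D = ± 1` modulo `4`

The abscissas are found by a contraction: `s = c - lam h(s)`, `h` an integral polynomial.
-/

set_option autoImplicit false
set_option linter.unusedSectionVars false
set_option linter.unusedVariables false

namespace Pool.Agent.Lib.MP_1a91b9_ntQ.C

open WithZero
open Pool.Agent.Lib.MP_1a91b9_ntH.C (Sq exists_nu isSquare_exp nu_one)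

variable {L : Type*} [Field L] [CharZero L] {ν : Valuation L ℤᵐ⁰}

/-! ### contractions -/

/-- integral and Lipschitz on the integral elements -/
structure Lip (ν : Valuation L ℤᵐ⁰) (h : L → L) : Prop where
  le : ∀ s, ν s ≤ 1 → ν (h s) ≤ 1
  lip : ∀ s s', ν s ≤ 1 → ν s' ≤ 1 → ν (h s - h s') ≤ ν (s - s')

theorem Lip.id' : Lip ν fun s => s := ⟨fun _ h => h, fun _ _ _ _ => le_rfl⟩

theorem Lip.const {c : L} (hc : ν c ≤ 1) : Lip ν fun _ => c := ⟨fun _ _ => hc, fun _ _ _ _ => by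
  rw [sub_self, map_zero]
  exact zero_le⟩

theorem Lip.add {f g : L → L} (hf : Lip ν f) (hg : Lip ν g) : Lip ν fun s => f s + g s :=
  ⟨fun s h => nu_add_le (hf.le s h) (hg.le s h), fun s s' h h' => by
    have e : f s + g s - (f s' + g s') = (f s - f s') + (g s - g s') := by ring
    rw [e]
    exact ν.map_add_le (hf.lip s s' h h') (hg.lip s s' h h')⟩

theorem Lip.mul {f g : L → L} (hf : Lip ν f) (hg : Lip ν g) : Lip ν fun s => f s * g s :=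
  ⟨fun s h => nu_mul_le (hf.le s h) (hg.le s h), fun s s' h h' => by
    have e : f s * g s - f s' * g s' = (f s - f s') * g s + f s' * (g s - g s') := by ring
    rw [e]
    refine ν.map_add_le ?_ ?_
    · rw [map_mul]
      exact (mul_le_of_le_one_right zero_le (hg.le s h)).trans (hf.lip s s' h h')
    · rw [map_mul]
      exact (mul_le_of_le_one_left zero_le (hf.le s' h')).trans (hg.lip s s' h h')⟩

theorem Lip.neg {f : L → L} (hf : Lip ν f) : Lip ν fun s => -f s :=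
  ⟨fun s h => nu_neg_le' (hf.le s h), fun s s' h h' => by
    have e : -f s - -f s' = -(f s - f s') := by ring
    rw [e, Valuation.map_neg]
    exact hf.lip s s' h h'⟩

theorem Lip.sub {f g : L → L} (hf : Lip ν f) (hg : Lip ν g) : Lip ν fun s => f s - g s := by
  simp only [sub_eq_add_neg]
  exact hf.add hg.neg

theorem Lip.pow {f : L → L} (hf : Lip ν f) (n : ℕ) : Lip ν fun s => f s ^ n := by
  induction n with
  | zero =>
    simp only [pow_zero]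
    exact Lip.const (map_one ν).le
  | succ n ih =>
    simp only [pow_succ]
    exact ih.mul hf

/-- the equation `s = c - l h(s)` has approximate solutions -/
theorem Lip.newton {h : L → L} (hh : Lip ν h) {l c : L} (hl : ν l ≤ 1) (hc : ν c ≤ 1) (n : ℕ) :
    ∃ s, ν s ≤ 1 ∧ ν (s - c + l * h s) ≤ ν l ^ n := by
  induction n with
  | zero =>
    refine ⟨c, hc, ?_⟩
    rw [sub_self, zero_add, pow_zero]
    exact nu_mul_le hl (hh.le c hc)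
  | succ n ih =>
    obtain ⟨s, hs, h1⟩ := ih
    have hs' : ν (c - l * h s) ≤ 1 := nu_sub_le' hc (nu_mul_le hl (hh.le s hs))
    refine ⟨c - l * h s, hs', ?_⟩
    have e : c - l * h s - c + l * h (c - l * h s) = l * (h (c - l * h s) - h s) := by ring
    rw [e, map_mul, pow_succ, mul_comm]
    refine mul_le_mul_left ((hh.lip _ _ hs' hs).trans ?_) _
    have e2 : c - l * h s - s = -(s - c + l * h s) := by ring
    rw [e2, Valuation.map_neg]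
    exact h1

/-! ### the classes of the squares modulo `4` -/

/-- `a` is `1 + 4 y` up to squares -/
def Cx4 (a y : L) : Prop := ∃ b : L, b ≠ 0 ∧ a = b ^ 2 * (1 + 4 * y)

theorem nu_four_lt {r : L} (h : ν r < 1) : ν (4 * r) < ν 4 := by
  have h40 : ν (4 : L) ≠ 0 := (Valuation.ne_zero_iff _).2 (by norm_num)
  rw [map_mul]
  exact mul_lt_of_lt_one_right (zero_lt_iff.2 h40) h

theorem Sq.mk' {u s r : L} (h4 : ν 4 ≤ 1) (hs : s ≠ 0) (hr : ν r < ν 4)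
    (h : u = s ^ 2 * (1 + r)) : Sq ν u := by
  rw [h]
  refine (Sq.pow_two hs).mul h4 (Sq.one ?_)
  rwa [add_sub_cancel_left]

theorem Cx4.sq (h4 : ν 4 < 1) {a a' y y' : L} (h : Cx4 a y) (h' : Cx4 a' y') (hy : ν y ≤ 1)
    (hy' : ν y' ≤ 1) (hs : ν (y + y') < 1) : Sq ν (a * a') := by
  obtain ⟨b, hb, h⟩ := h
  obtain ⟨b', hb', h'⟩ := h'
  refine Sq.mk' h4.le (mul_ne_zero hb hb') (r := 4 * (y + y' + 4 * (y * y'))) (nu_four_lt ?_) ?_
  · refine ν.map_add_lt hs ?_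
    rw [map_mul]
    exact mul_lt_one_of_lt_of_le h4 (nu_mul_le hy hy')
  · rw [h, h']
    ring

theorem Cx4.of_C4 {a : L} (h : C4 ν a) : ∃ y : L, ν y ≤ 1 ∧ Cx4 a y := by
  obtain ⟨b, hb, h1⟩ := h
  have h40 : ν 4 ≠ 0 := (Valuation.ne_zero_iff _).2 (by norm_num)
  refine ⟨(a / b ^ 2 - 1) / 4, ?_, b, hb, ?_⟩
  · rw [map_div₀]
    exact (div_le_one₀ (zero_lt_iff.2 h40)).2 h1
  · field_simp
    ring

/-- two abscissas with different classes -/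
theorem gloc4_pair (h4 : ν 4 < 1) (hres : ∀ x : L, ν x = 1 → ν (x - 1) < 1) (hν2 : ν 2 < 1)
    {D w a x₁ x₂ y₁ y₂ : L} (hw : w ≠ 0)
    (h1 : ∀ a : L, Sq ν (a * x₁) → GLoc4 ν D a) (h2 : ∀ a : L, Sq ν (a * x₂) → GLoc4 ν D a)
    (c1 : Cx4 (x₁ * w) y₁) (c2 : Cx4 (x₂ * w) y₂) (v1 : ν y₁ ≤ 1) (v2 : ν y₂ ≤ 1)
    (hs : ν (y₁ + y₂ - 1) < 1) (h : C4 ν (a * w)) : GLoc4 ν D a := by
  obtain ⟨τ, hτ, cτ⟩ := Cx4.of_C4 h
  have key : ∀ x y : L, ν y ≤ 1 → Cx4 (x * w) y → ν (τ + y) < 1 → Sq ν (a * x) := by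
    intro x y hy cy hτy
    have h5 := cτ.sq h4 cy hτ hy hτy
    refine Sq.of_mul_sq hw ?_
    have e : a * x * w ^ 2 = a * w * (x * w) := by ring
    rwa [e]
  rcases res4 hres (nu_add_le hτ v1) with h5 | h5
  · exact h1 a (key x₁ y₁ v1 c1 h5)
  · refine h2 a (key x₂ y₂ v2 c2 ?_)
    have e : τ + y₂ = (τ + y₁ - 1) + ((y₁ + y₂ - 1) + 2 * (1 - y₁)) := by ring
    rw [e]
    refine ν.map_add_lt h5 (ν.map_add_lt hs ?_)
    rw [map_mul]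
    exact mul_lt_one_of_lt_of_le hν2 (nu_sub_le' (map_one ν).le v1)

/-- `D` in the class of `1 + 4 u`, `u` a unit: one abscissa is enough -/
theorem gloc4_u0 {i : L} (hi : i ^ 2 = -1) (h4 : ν 4 < 1)
    (hres : ∀ x : L, ν x = 1 → ν (x - 1) < 1) (hν2 : ν 2 < 1) {D w a x y u : L} (hw : w ≠ 0)
    (hD0 : D ≠ 0) (cD : Cx4 D u) (vu : ν u ≤ 1) (hu : ν (u - 1) < 1)
    (h1 : ∀ a : L, Sq ν (a * x) → GLoc4 ν D a) (c1 : Cx4 (x * w) y) (v1 : ν y ≤ 1)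
    (h : C4 ν (a * w)) : GLoc4 ν D a := by
  obtain ⟨b, hb, hbD⟩ := cD
  obtain ⟨b', hb', hx⟩ := c1
  refine gloc4_pair h4 hres hν2 hw h1 (x₂ := D * x) (y₂ := u + y + 4 * (u * y)) (fun a ha => ?_)
    ⟨b', hb', hx⟩ ⟨b * b', mul_ne_zero hb hb', ?_⟩ v1 ?_ ?_ h
  · have h5 : GLoc4 ν D (a * D) := h1 _ (by rwa [mul_assoc])
    have h6 := gloc4_mul_D hi h4.le hD0 h5
    refine GLoc4.of_mul_sq hD0 ?_
    have e : a * D ^ 2 = a * D * D := by ring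
    rwa [e]
  · rw [mul_assoc, hx, hbD]
    ring
  · exact nu_add_le (nu_add_le vu v1) (nu_mul_le h4.le (nu_mul_le vu v1))
  · have e : y + (u + y + 4 * (u * y)) - 1 = (u - 1) + (2 * y + 4 * (u * y)) := by ring
    rw [e]
    refine ν.map_add_lt hu (ν.map_add_lt ?_ ?_)
    · rw [map_mul]
      exact mul_lt_one_of_lt_of_le hν2 v1
    · rw [map_mul]
      exact mul_lt_one_of_lt_of_le h4 (nu_mul_le vu v1)

/-! ### smallness -/

theorem cx_two_lt (h2 : ν 2 = exp (-2)) : ν 2 < 1 := by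
  rw [h2, ← exp_zero, exp_lt_exp]
  norm_num

theorem nu_l_pow {i : L} (hi : i ^ 2 = -1) (h2 : ν 2 = exp (-2)) (n : ℕ) :
    ν (1 + i) ^ n = exp (-(n : ℤ)) := by
  rw [nu_lam2 hi h2, ← exp_nsmul]
  congr 1
  simp

theorem small3 {i B c : L} (hi : i ^ 2 = -1) (h2 : ν 2 = exp (-2)) (hc : ν c ≤ 1)
    (hB : ν B ≤ ν (1 + i) ^ 3) : ν (2 * c * B) < ν 4 := by
  rw [map_mul, map_mul, h2, nu_four4 h2]
  rw [nu_l_pow hi h2] at hB
  calc exp (-2) * ν c * ν B ≤ exp (-2) * 1 * exp (-((3 : ℕ) : ℤ)) := by gcongr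
    _ < exp (-4) := by
      rw [mul_one, ← exp_add, exp_lt_exp]
      norm_num

theorem small5 {i B c : L} (hi : i ^ 2 = -1) (h2 : ν 2 = exp (-2)) (hc : ν c ≤ 1)
    (hB : ν B ≤ ν (1 + i) ^ 5) : ν (c * B) < ν 4 := by
  rw [map_mul, nu_four4 h2]
  rw [nu_l_pow hi h2] at hB
  calc ν c * ν B ≤ 1 * exp (-((5 : ℕ) : ℤ)) := by gcongr
    _ < exp (-4) := by
      rw [one_mul, exp_lt_exp]
      norm_num

theorem nu_l_lt {i : L} (hi : i ^ 2 = -1) (h2 : ν 2 = exp (-2)) {y : L} (hy : ν y ≤ 1) :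
    ν ((1 + i) * y) < 1 := by
  rw [map_mul, nu_lam2 hi h2]
  refine lt_of_le_of_lt (mul_le_of_le_one_right zero_le hy) ?_
  rw [← exp_zero, exp_lt_exp]
  norm_num

/-! ### (X1) -/

/-- `D = - 1 - 4 i` modulo `4 lam ^ 2` -/
theorem X1_A {i D a v w : L} (hi : i ^ 2 = -1) (h2 : ν 2 = exp (-2))
    (hres : ∀ x : L, ν x = 1 → ν (x - 1) < 1) (hv : ν v ≤ 1)
    (hD : D = -1 * (1 + 4 * (0 + i * 1 + (1 + i) ^ 2 * v)))
    (hw : w = i ^ 1 * (1 + (1 + i) ^ 3 * 0)) (hD0 : D ≠ 0) (h : C4 ν (a * w)) : GLoc4 ν D a := by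
  have hi1 := (nu_i (ν := ν) hi).le
  have h11 : ν (1 : L) ≤ 1 := (map_one ν).le
  have hi0 := i_ne hi
  have h4 := nu_four4_le h2
  have hl : ν (1 + i) ≤ 1 := nu_add_le h11 hi1
  have hL : Lip ν fun s : L =>
      (1 - i) * (-s ^ 2 - 2 * s * (i * v + s - 2 * s ^ 2) - i * s) := by
    repeat' first
      | exact Lip.id' | exact Lip.const hi1 | exact Lip.const hv | exact Lip.const h11
      | exact Lip.const (nu_ofNat_le' _) | apply Lip.add | apply Lip.sub | apply Lip.mul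
      | apply Lip.neg | apply Lip.pow
  obtain ⟨s, hs, hB⟩ := hL.newton hl (c := -(i * v)) (nu_neg_le' (nu_mul_le hi1 hv)) 3
  obtain ⟨B, hBd⟩ : ∃ B : L, B = s - -(i * v) + (1 + i) *
      ((1 - i) * (-s ^ 2 - 2 * s * (i * v + s - 2 * s ^ 2) - i * s)) := ⟨_, rfl⟩
  rw [← hBd] at hB
  have hw' : w = i := by
    rw [hw]
    ring
  have h4s : 1 - 4 * s ≠ 0 := fun h0 => nu_not (nu_lam2 hi h2)
    (t := -(2 * (1 - i) * s)) (nu_neg_le' (nu_mul_le (nu_mul_le (nu_ofNat_le' _)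
      (nu_sub_le' h11 hi1)) hs)) (by
    linear_combination h0 + 2 * s * hi)
  have hx0 : i * (1 - 4 * s) ≠ 0 := mul_ne_zero hi0 h4s
  have hu : ν (0 + i * 1 + (1 + i) ^ 2 * v) ≤ 1 := by
    repeat' first
      | assumption | exact (map_one _).le | exact nu_ofNat_le' _ | apply nu_add_le
      | apply nu_sub_le' | apply nu_neg_le' | apply nu_mul_le | apply nu_pow_le'
      | (rw [map_zero]; exact zero_le)
  refine gloc4_u0 hi h4 hres (cx_two_lt h2) (x := i * (1 - 4 * s)) (y := -s)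
    (u := 0 + i * 1 + (1 + i) ^ 2 * v) (by rw [hw']; exact hi0) hD0
    ⟨i, hi0, by rw [hD, hi]⟩ hu ?_ (fun a ha => ?_) ⟨i, hi0, ?_⟩ (nu_neg_le' hs) h
  · have e : 0 + i * 1 + (1 + i) ^ 2 * v - 1 = (1 + i) * (i + (1 + i) * v) := by
      linear_combination -hi
    rw [e]
    exact nu_l_lt hi h2 (nu_add_le hi1 (nu_mul_le hl hv))
  · refine Or.inr (Or.inr (Or.inr ⟨_, hx0, ?_, ha⟩))
    refine Sq.mk' h4.le (s := 2 * i) (r := 2 * -i * B) (mul_ne_zero two_ne_zero hi0)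
      (small3 hi h2 (nu_neg_le' hi1) hB) ?_
    rw [hD, hBd]
    linear_combination (16 * i ^ 4 * s * v - 32 * i ^ 3 * s ^ 3 + 8 * i ^ 4 * s +
      24 * i ^ 3 * s ^ 2 - 32 * i ^ 2 * s * v - 16 * i ^ 2 * s + 8 * i ^ 2 * v - 16 * i * s * v -
      4 * i * s + 4 * i * v + i) * hi
  · rw [hw']
    ring

/-- `D = - 5` modulo `4 lam ^ 2` -/
theorem X1_B {i D a v w : L} (hi : i ^ 2 = -1) (h2 : ν 2 = exp (-2))
    (hres : ∀ x : L, ν x = 1 → ν (x - 1) < 1) (hv : ν v ≤ 1)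
    (hD : D = -1 * (1 + 4 * (1 + i * 0 + (1 + i) ^ 2 * v)))
    (hw : w = i ^ 1 * (1 + (1 + i) ^ 3 * 1)) (hD0 : D ≠ 0) (hw0 : w ≠ 0) (h : C4 ν (a * w)) :
    GLoc4 ν D a := by
  have hi1 := (nu_i (ν := ν) hi).le
  have h11 : ν (1 : L) ≤ 1 := (map_one ν).le
  have hi0 := i_ne hi
  have h4 := nu_four4_le h2
  have hl : ν (1 + i) ≤ 1 := nu_add_le h11 hi1
  have hL : Lip ν fun s : L => 2 * i * s + i * (1 + i) * s ^ 2 + (1 + (1 + i) * s) +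
      2 * i * (1 + (1 + i) * s) * (1 + i * v + s + i * (1 + (1 + i) * s) ^ 2) := by
    repeat' first
      | exact Lip.id' | exact Lip.const hi1 | exact Lip.const hv | exact Lip.const h11
      | exact Lip.const (nu_ofNat_le' _) | apply Lip.add | apply Lip.sub | apply Lip.mul
      | apply Lip.neg | apply Lip.pow
  obtain ⟨s, hs, hB⟩ := hL.newton hl (c := -(1 + i + i * v))
    (nu_neg_le' (nu_add_le hl (nu_mul_le hi1 hv))) 3
  obtain ⟨B, hBd⟩ : ∃ B : L, B = s - -(1 + i + i * v) + (1 + i) * (2 * i * s +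
      i * (1 + i) * s ^ 2 + (1 + (1 + i) * s) +
      2 * i * (1 + (1 + i) * s) * (1 + i * v + s + i * (1 + (1 + i) * s) ^ 2)) := ⟨_, rfl⟩
  rw [← hBd] at hB
  have ht0 : -1 + 2 * i - 4 * s ≠ 0 := fun h0 => nu_not (nu_lam2 hi h2)
    (t := (1 - i) * (2 * s - i)) (nu_mul_le (nu_sub_le' h11 hi1)
      (nu_sub_le' (nu_mul_le (nu_ofNat_le' _) hs) hi1)) (by
    linear_combination -h0 - (2 * s - i) * hi)
  have hx0 : i * (-1 + 2 * i - 4 * s) ≠ 0 := mul_ne_zero hi0 ht0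
  have hu : ν (1 + i * 0 + (1 + i) ^ 2 * v) ≤ 1 := by
    repeat' first
      | assumption | exact (map_one _).le | exact nu_ofNat_le' _ | apply nu_add_le
      | apply nu_sub_le' | apply nu_neg_le' | apply nu_mul_le | apply nu_pow_le'
      | (rw [map_zero]; exact zero_le)
  refine gloc4_u0 hi h4 hres (cx_two_lt h2) (x := i * (-1 + 2 * i - 4 * s))
    (y := -1 - i + s - 2 * i * s) (u := 1 + i * 0 + (1 + i) ^ 2 * v) hw0 hD0
    ⟨i, hi0, by rw [hD, hi]⟩ hu ?_ (fun a ha => ?_) ⟨i, hi0, ?_⟩ ?_ h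
  · have e : 1 + i * 0 + (1 + i) ^ 2 * v - 1 = (1 + i) * ((1 + i) * v) := by ring
    rw [e]
    exact nu_l_lt hi h2 (nu_mul_le hl hv)
  · refine Or.inr (Or.inr (Or.inr ⟨_, hx0, ?_, ha⟩))
    refine Sq.mk' h4.le (s := 2) (r := 2 * i * B) two_ne_zero (small3 hi h2 hi1 hB) ?_
    rw [hD, hBd]
    linear_combination (-16 * i ^ 5 * s ^ 3 - 64 * i ^ 4 * s ^ 3 - 48 * i ^ 4 * s ^ 2 -
      80 * i ^ 3 * s ^ 3 - 144 * i ^ 3 * s ^ 2 - 16 * i ^ 3 * s * v + 8 * i ^ 4 - 96 * i ^ 3 * s -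
      24 * i ^ 2 * s ^ 2 - 32 * i ^ 2 * s * v - 12 * i ^ 3 - 64 * i ^ 2 * s - 8 * i ^ 2 * v -
      16 * i * s * v - 18 * i ^ 2 - 36 * i * s - 4 * i * v - 21 * i - 4) * hi
  · rw [hw]
    linear_combination (2 * i ^ 4 - 4 * i ^ 3 * s + 5 * i ^ 3 - 12 * i ^ 2 * s + i ^ 2) * hi
  · repeat' first
      | assumption | exact (map_one _).le | exact nu_ofNat_le' _ | apply nu_add_le
      | apply nu_sub_le' | apply nu_neg_le' | apply nu_mul_le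

theorem nu_sq_lt {x y : L} (hx : ν x < 1) (hy : ν y ≤ 1) : ν (x * y) < 1 := by
  rw [map_mul]
  exact mul_lt_one_of_lt_of_le hx hy

theorem nu_lt_mul {x y : L} (hx : ν x ≤ 1) (hy : ν y < 1) : ν (x * y) < 1 := by
  rw [mul_comm]
  exact nu_sq_lt hy hx

/-- the point of order two with abscissa near `x` -/
theorem gloc4_tor {D a x : L} (hD : ν D = 1) (hx : x ≠ 0) (h : ν (x ^ 2 - D) < ν 16)
    (ha : Sq ν (a * x)) : GLoc4 ν D a := by
  refine Or.inr (Or.inr (Or.inl ⟨x, hx, ?_, ha⟩))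
  have hD0 : D ≠ 0 := by
    rw [← ν.ne_zero_iff, hD]
    exact one_ne_zero
  have e : x ^ 2 / D - 1 = (x ^ 2 - D) / D := by field_simp
  rw [e, map_div₀, hD, div_one]
  exact h

/-- `B` modulo a power of `lam` -/
theorem nu_B_lt {i B : L} (hi : i ^ 2 = -1) (h2 : ν 2 = exp (-2)) {n : ℕ} (hn : n ≠ 0)
    (hB : ν B ≤ ν (1 + i) ^ n) : ν B < 1 := by
  rw [nu_l_pow hi h2] at hB
  refine lt_of_le_of_lt hB ?_
  rw [← exp_zero, exp_lt_exp]
  omega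

/-- `D = - 1` modulo `4 lam ^ 2` -/
theorem X1_C {i D a v w : L} (hi : i ^ 2 = -1) (h2 : ν 2 = exp (-2))
    (hres : ∀ x : L, ν x = 1 → ν (x - 1) < 1) (hv : ν v ≤ 1)
    (hD : D = -1 * (1 + 4 * (0 + i * 0 + (1 + i) ^ 2 * v)))
    (hw : w = i ^ 1 * (1 + (1 + i) ^ 3 * 0)) (hD1 : ν D = 1) (h : C4 ν (a * w)) : GLoc4 ν D a := by
  have hi1 := (nu_i (ν := ν) hi).le
  have h11 : ν (1 : L) ≤ 1 := (map_one ν).le
  have hi0 := i_ne hi
  have h4 := nu_four4_le h2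
  have hν2 := cx_two_lt h2
  have hl : ν (1 + i) ≤ 1 := nu_add_le h11 hi1
  have hl0 : (1 + i : L) ≠ 0 := by
    rw [← ν.ne_zero_iff, nu_lam2 hi h2]
    exact exp_ne_zero
  have hL : Lip ν fun s : L => (1 - i) * (-s ^ 2 - 2 * s * (i * v + s - 2 * s ^ 2)) := by
    repeat' first
      | exact Lip.id' | exact Lip.const hi1 | exact Lip.const hv | exact Lip.const h11
      | exact Lip.const (nu_ofNat_le' _) | apply Lip.add | apply Lip.sub | apply Lip.mul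
      | apply Lip.neg | apply Lip.pow
  obtain ⟨s, hs, hB⟩ := hL.newton hl (c := 1 - i * v) (nu_sub_le' h11 (nu_mul_le hi1 hv)) 5
  obtain ⟨H, hH⟩ : ∃ H : L, H = (1 - i) * (-s ^ 2 - 2 * s * (i * v + s - 2 * s ^ 2)) := ⟨_, rfl⟩
  have vH : ν H ≤ 1 := hH ▸ hL.le s hs
  rw [← hH] at hB
  obtain ⟨B, hBd⟩ : ∃ B : L, B = s - (1 - i * v) + (1 + i) * H := ⟨_, rfl⟩
  rw [← hBd] at hB
  have vB := nu_B_lt hi h2 (by norm_num) hB
  have hw' : w = i := by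
    rw [hw]
    ring
  have h4s : 1 - 4 * s ≠ 0 := fun h0 => nu_not (nu_lam2 hi h2)
    (t := -(2 * (1 - i) * s)) (nu_neg_le' (nu_mul_le (nu_mul_le (nu_ofNat_le' _)
      (nu_sub_le' h11 hi1)) hs)) (by
    linear_combination h0 + 2 * s * hi)
  have hx0 : i * (1 - 4 * s) ≠ 0 := mul_ne_zero hi0 h4s
  have hx1 : i * (1 + 4 * i * v + 8 * v ^ 2) ≠ 0 := by
    refine mul_ne_zero hi0 fun h0 => nu_not (nu_lam2 hi h2)
      (t := 2 * (1 - i) * (i * v + 2 * v ^ 2)) ?_ ?_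
    · repeat' first
        | assumption | exact nu_ofNat_le' _ | apply nu_add_le | apply nu_sub_le' | apply nu_mul_le
        | apply nu_pow_le'
    · linear_combination h0 - 2 * (i * v + 2 * v ^ 2) * hi
  refine gloc4_pair h4 hres hν2 (x₁ := i * (1 + 4 * i * v + 8 * v ^ 2)) (x₂ := i * (1 - 4 * s))
    (y₁ := i * v + 2 * v ^ 2) (y₂ := -s) (by rw [hw']; exact hi0) (fun a ha => ?_)
    (fun a ha => ?_) ⟨i, hi0, ?_⟩ ⟨i, hi0, ?_⟩ ?_ (nu_neg_le' hs) ?_ h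
  · refine gloc4_tor hD1 hx1 ?_ ha
    have e : (i * (1 + 4 * i * v + 8 * v ^ 2)) ^ 2 - D =
        16 * (4 * -(i * v ^ 3 + v ^ 4)) := by
      rw [hD]
      linear_combination (16 * i ^ 2 * v ^ 2 + 64 * i * v ^ 3 + 64 * v ^ 4 + 8 * i * v + 4 * v +
        1) * hi
    have h16 : ν (16 : L) ≠ 0 := (Valuation.ne_zero_iff _).2 (by norm_num)
    rw [e, map_mul]
    refine mul_lt_of_lt_one_right (zero_lt_iff.2 h16) (nu_sq_lt h4 (nu_neg_le' (nu_add_le ?_ ?_)))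
    · exact nu_mul_le hi1 (nu_pow_le' hv 3)
    · exact nu_pow_le' hv 4
  · refine Or.inr (Or.inr (Or.inr ⟨_, hx0, ?_, ha⟩))
    refine Sq.mk' h4.le (s := 2 * (1 + i)) (r := 1 * B) (mul_ne_zero two_ne_zero hl0)
      (small5 hi h2 h11 hB) ?_
    rw [hD, hBd, hH]
    linear_combination (-8 * i ^ 3 * s * v + 16 * i ^ 2 * s ^ 3 - 12 * i ^ 2 * s ^ 2 -
      16 * i ^ 2 * s * v - 32 * i * s ^ 3 + 24 * i * s ^ 2 - 8 * i * s * v - 16 * s ^ 3 -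
      12 * i * s + 12 * s ^ 2 + i - 4 * s) * hi
  · rw [hw']
    ring
  · rw [hw']
    ring
  · exact nu_add_le (nu_mul_le hi1 hv) (nu_mul_le (nu_ofNat_le' _) (nu_pow_le' hv 2))
  · have e : i * v + 2 * v ^ 2 + -s - 1 = 2 * (i * v + v ^ 2 - 1) + (-B + (1 + i) * H) := by
      rw [hBd]
      ring
    rw [e]
    refine ν.map_add_lt (nu_sq_lt hν2 (nu_sub_le' (nu_add_le (nu_mul_le hi1 hv)
      (nu_pow_le' hv 2)) h11)) (ν.map_add_lt ?_ (nu_l_lt hi h2 vH))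
    rwa [Valuation.map_neg]

/-- the point of order two when `D = ε (1 + 4 lam (1 + lam v))` -/
theorem tor_y {i v : L} (hi : i ^ 2 = -1) (h2 : ν 2 = exp (-2)) (hv : ν v ≤ 1) :
    ∃ y k : L, ν y ≤ 1 ∧ ν k < 1 ∧ y + i + (1 + i) * (i * y ^ 2 + i * v) = (1 + i) * k ∧
      ν ((4 - 4 * i) * ((1 + i) * k)) < ν 16 ∧ ν (y + i) < 1 := by
  have hi1 := (nu_i (ν := ν) hi).le
  have h11 : ν (1 : L) ≤ 1 := (map_one ν).le
  have hi0 := i_ne hi
  have hl : ν (1 + i) ≤ 1 := nu_add_le h11 hi1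
  have hl1 := nu_lam2 (ν := ν) hi h2
  have hl0 : (1 + i : L) ≠ 0 := by
    rw [← ν.ne_zero_iff, hl1]
    exact exp_ne_zero
  have hL : Lip ν fun s : L => i * s ^ 2 + i * v := by
    repeat' first
      | exact Lip.id' | exact Lip.const hi1 | exact Lip.const hv | exact Lip.const h11
      | exact Lip.const (nu_ofNat_le' _) | apply Lip.add | apply Lip.sub | apply Lip.mul
      | apply Lip.neg | apply Lip.pow
  obtain ⟨y, hy, hB⟩ := hL.newton hl (c := -i) (nu_neg_le' hi1) 4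
  obtain ⟨k, hk⟩ : ∃ k : L, k = (y - -i + (1 + i) * (i * y ^ 2 + i * v)) / (1 + i) := ⟨_, rfl⟩
  have hk' : (1 + i) * k = y - -i + (1 + i) * (i * y ^ 2 + i * v) := by
    rw [hk]
    field_simp
  rw [← hk', map_mul, pow_succ, mul_comm (ν (1 + i) ^ 3)] at hB
  have hk3 : ν k ≤ ν (1 + i) ^ 3 :=
    le_of_mul_le_mul_left hB (zero_lt_iff.2 ((Valuation.ne_zero_iff _).2 hl0))
  have vk := nu_B_lt hi h2 (by norm_num) hk3
  refine ⟨y, k, hy, vk, by rw [hk']; ring, ?_, ?_⟩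
  · have e : (4 - 4 * i) * ((1 + i) * k) = i * ((1 + i) ^ 6 * k) := by
      linear_combination ((-i ^ 4 - 5 * i ^ 3 - 9 * i ^ 2 - 5 * i + 4) * (1 + i) * k) * hi
    have h16 : ν (16 : L) = exp (-8) := by
      have e : (16 : L) = 4 * 4 := by norm_num
      rw [e, map_mul, nu_four4 h2, ← exp_add]
      norm_num
    rw [e, map_mul, nu_i hi, one_mul, map_mul, map_pow, h16]
    rw [nu_l_pow hi h2] at hk3 ⊢
    calc exp (-((6 : ℕ) : ℤ)) * ν k ≤ exp (-((6 : ℕ) : ℤ)) * exp (-((3 : ℕ) : ℤ)) := by gcongr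
      _ < exp (-8) := by
        rw [← exp_add, exp_lt_exp]
        norm_num
  · have e : y + i = (1 + i) * (k - (i * y ^ 2 + i * v)) := by
      linear_combination -hk'
    rw [e]
    exact nu_l_lt hi h2 (nu_sub_le' vk.le (hL.le y hy))

/-- the sum of the two classes -/
theorem cls_sum {i v y k s : L} (hi : i ^ 2 = -1) (h2 : ν 2 = exp (-2)) (hv : ν v ≤ 1)
    (hy : ν y ≤ 1) (hk : ν k < 1) (hyi : ν (y + i) < 1) (hs : ν (s - v) < 1) :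
    ν (-2 + i + (1 - 2 * i) * (k - (i * y ^ 2 + i * v)) + (-2 + i - (2 + i) * s) - 1) < 1 := by
  have hi1 := (nu_i (ν := ν) hi).le
  have h11 : ν (1 : L) ≤ 1 := (map_one ν).le
  have hν2 := cx_two_lt h2
  have hl : ν (1 + i) ≤ 1 := nu_add_le h11 hi1
  have e : -2 + i + (1 - 2 * i) * (k - (i * y ^ 2 + i * v)) + (-2 + i - (2 + i) * s) - 1 =
      (1 - 2 * i) * k + ((1 - 2 * i) * (-(i * (y - i))) * (y + i) + (-(2 + i) * (s - v) +
        (2 * (-(i * v) - 2 * v) + (1 + i) * (3 * i)))) := by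
    linear_combination (2 * i ^ 2 - i + 2 * v - 5) * hi
  have h12 : ν (1 - 2 * i) ≤ 1 := nu_sub_le' h11 (nu_mul_le (nu_ofNat_le' _) hi1)
  rw [e]
  refine ν.map_add_lt (nu_lt_mul h12 hk) (ν.map_add_lt (nu_lt_mul (nu_mul_le h12 (nu_neg_le'
    (nu_mul_le hi1 (nu_sub_le' hy hi1)))) hyi) (ν.map_add_lt (nu_lt_mul (nu_neg_le'
    (nu_add_le (nu_ofNat_le' _) hi1)) hs) (ν.map_add_lt (nu_sq_lt hν2 (nu_sub_le'
    (nu_neg_le' (nu_mul_le hi1 hv)) (nu_mul_le (nu_ofNat_le' _) hv)))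
    (nu_l_lt hi h2 (nu_mul_le (nu_ofNat_le' _) hi1)))))

/-- `D = - (1 + 4 lam)` modulo `4 lam ^ 2` -/
theorem X1_D {i D a v w : L} (hi : i ^ 2 = -1) (h2 : ν 2 = exp (-2))
    (hres : ∀ x : L, ν x = 1 → ν (x - 1) < 1) (hv : ν v ≤ 1)
    (hD : D = -1 * (1 + 4 * (1 + i * 1 + (1 + i) ^ 2 * v)))
    (hw : w = i ^ 1 * (1 + (1 + i) ^ 3 * 1)) (hD1 : ν D = 1) (hw0 : w ≠ 0)
    (h : C4 ν (a * w)) : GLoc4 ν D a := by
  have hi1 := (nu_i (ν := ν) hi).le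
  have h11 : ν (1 : L) ≤ 1 := (map_one ν).le
  have hi0 := i_ne hi
  have h4 := nu_four4_le h2
  have hν2 := cx_two_lt h2
  have hl : ν (1 + i) ≤ 1 := nu_add_le h11 hi1
  have hl0 : (1 + i : L) ≠ 0 := by
    rw [← ν.ne_zero_iff, nu_lam2 hi h2]
    exact exp_ne_zero
  obtain ⟨y, k, hy, hk, hyk, h16, hyi⟩ := tor_y hi h2 hv
  obtain ⟨f, hf⟩ : ∃ f : L → L, f = fun s : L => 2 * s + (1 + i) * s ^ 2 -
      (1 + i) ^ 2 * (-i * (1 + (1 + i) * s)) * (v - s + (-i * (1 + (1 + i) * s)) ^ 2) := ⟨_, rfl⟩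
  have hL : Lip ν f := by
    rw [hf]
    repeat' first
      | exact Lip.id' | exact Lip.const hi1 | exact Lip.const hv | exact Lip.const h11
      | exact Lip.const (nu_ofNat_le' _) | apply Lip.add | apply Lip.sub | apply Lip.mul
      | apply Lip.neg | apply Lip.pow
  obtain ⟨s, hs, hB⟩ := hL.newton hl (c := v - 1 + i) (nu_add_le (nu_sub_le' hv h11) hi1) 5
  have vH : ν (f s) ≤ 1 := hL.le s hs
  obtain ⟨B, hBd⟩ : ∃ B : L, B = s - (v - 1 + i) + (1 + i) * f s := ⟨_, rfl⟩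
  rw [← hBd] at hB
  have vB := nu_B_lt hi h2 (by norm_num) hB
  have hx0 : i * (3 + 2 * i + 4 * i * s) ≠ 0 := by
    refine mul_ne_zero hi0 fun h0 => nu_not (nu_lam2 hi h2)
      (t := (1 - i) * (1 + i + 2 * i * s)) ?_ ?_
    · repeat' first
        | assumption | exact nu_ofNat_le' _ | apply nu_add_le | apply nu_sub_le' | apply nu_mul_le
    · linear_combination h0 - (1 + i + 2 * i * s) * hi
  have hx1 : i * (1 + (1 + i) ^ 3 * y) ≠ 0 := by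
    refine mul_ne_zero hi0 fun h0 => nu_not (nu_lam2 hi h2)
      (t := (1 + i) ^ 2 * y) (nu_mul_le (nu_pow_le' hl 2) hy) ?_
    linear_combination h0
  refine gloc4_pair h4 hres hν2 (x₁ := i * (1 + (1 + i) ^ 3 * y))
    (x₂ := i * (3 + 2 * i + 4 * i * s))
    (y₁ := -2 + i + (1 - 2 * i) * (k - (i * y ^ 2 + i * v))) (y₂ := -2 + i - (2 + i) * s) hw0
    (fun a ha => ?_) (fun a ha => ?_) ⟨i, hi0, ?_⟩ ⟨i, hi0, ?_⟩ ?_ ?_ ?_ h
  · refine gloc4_tor hD1 hx1 ?_ ha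
    have e : (i * (1 + (1 + i) ^ 3 * y)) ^ 2 - D = (4 - 4 * i) * ((1 + i) * k) := by
      rw [hD, ← hyk]
      linear_combination (i ^ 6 * y ^ 2 + 6 * i ^ 5 * y ^ 2 + 14 * i ^ 4 * y ^ 2 +
        14 * i ^ 3 * y ^ 2 + 2 * i ^ 3 * y + i ^ 2 * y ^ 2 + 6 * i ^ 2 * y - 4 * i * y ^ 2 +
        4 * i * v + 4 * i * y + 4 * v - 4 * y + 5) * hi
    rw [e]
    exact h16
  · refine Or.inr (Or.inr (Or.inr ⟨_, hx0, ?_, ha⟩))
    refine Sq.mk' h4.le (s := 2 * (1 + i)) (r := -i * B) (mul_ne_zero two_ne_zero hl0)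
      (small5 hi h2 (nu_neg_le' hi1) hB) ?_
    rw [hD, hBd, hf]
    linear_combination (4 * i ^ 10 * s ^ 3 + 32 * i ^ 9 * s ^ 3 + 12 * i ^ 9 * s ^ 2 +
      108 * i ^ 8 * s ^ 3 + 84 * i ^ 8 * s ^ 2 + 192 * i ^ 7 * s ^ 3 + 12 * i ^ 8 * s +
      240 * i ^ 7 * s ^ 2 + 172 * i ^ 6 * s ^ 3 + 72 * i ^ 7 * s + 332 * i ^ 6 * s ^ 2 +
      4 * i ^ 6 * s * v + 32 * i ^ 5 * s ^ 3 + 4 * i ^ 7 + 168 * i ^ 6 * s + 156 * i ^ 5 * s ^ 2 +
      24 * i ^ 5 * s * v + 4 * i ^ 4 * s ^ 3 + 20 * i ^ 6 + 164 * i ^ 5 * s + 4 * i ^ 5 * v -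
      44 * i ^ 4 * s ^ 2 + 56 * i ^ 4 * s * v + 36 * i ^ 5 + 40 * i ^ 4 * s + 20 * i ^ 4 * v -
      4 * i ^ 3 * s ^ 2 + 56 * i ^ 3 * s * v + 28 * i ^ 4 + 12 * i ^ 3 * s + 36 * i ^ 3 * v +
      12 * i ^ 2 * s ^ 2 + 20 * i ^ 2 * s * v + 20 * i ^ 3 + 48 * i ^ 2 * s + 28 * i ^ 2 * v +
      4 * i * s ^ 2 + 26 * i ^ 2 + 12 * i * s + 8 * i * v + 11 * i - 4) * hi
  · rw [hw]
    linear_combination (2 + 6 * i) * hyk + (i ^ 6 * y + 6 * i ^ 5 * y + 14 * i ^ 4 * y +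
      15 * i ^ 3 * y - 8 * i ^ 2 * y ^ 2 + i ^ 3 - 8 * i ^ 2 * v + 4 * i ^ 2 * y -
      2 * i * y ^ 2 + 3 * i ^ 2 - 2 * i * v - 6 * i * y + 8 * i * k - 2 * i - 2 * y + 2 * k) * hi
  · rw [hw]
    linear_combination (4 * i ^ 4 * s + 2 * i ^ 4 + 12 * i ^ 3 * s + 9 * i ^ 3 + 8 * i ^ 2 * s +
      13 * i ^ 2) * hi
  · have hk1 := hk.le
    repeat' first
      | assumption | exact (map_one _).le | exact nu_ofNat_le' _ | apply nu_add_le
      | apply nu_sub_le' | apply nu_neg_le' | apply nu_mul_le | apply nu_pow_le'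
  · repeat' first
      | assumption | exact (map_one _).le | exact nu_ofNat_le' _ | apply nu_add_le
      | apply nu_sub_le' | apply nu_neg_le' | apply nu_mul_le
  · refine cls_sum hi h2 hv hy hk hyi ?_
    have e : s - v = B + (1 + i) * (i - f s) := by
      rw [hBd]
      linear_combination (-1 : L) * hi
    rw [e]
    exact ν.map_add_lt vB (nu_l_lt hi h2 (nu_sub_le' hi1 vH))

/-- **(X1), converse** -/
theorem locC_X1 {i D a u v ρ n : L} (hi : i ^ 2 = -1) (h2 : ν 2 = exp (-2))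
    (hres : ∀ x : L, ν x = 1 → ν (x - 1) < 1) (hρ : ρ = 0 ∨ ρ = 1) (hn : n = 0 ∨ n = 1)
    (hv : ν v ≤ 1) (hu : u = ρ + i * n + (1 + i) ^ 2 * v) (hD : D = -1 * (1 + 4 * u))
    (h : C4 ν a ∨ C4 ν (a * (i ^ 1 * (1 + (1 + i) ^ 3 * ρ)))) : GLoc4 ν D a := by
  have hi1 := (nu_i (ν := ν) hi).le
  have hu1 : ν u ≤ 1 := by
    rw [hu]
    rcases hρ with h5 | h5 <;> rcases hn with h6 | h6 <;> rw [h5, h6] <;>
      simp only [mul_zero, mul_one, zero_add, add_zero] <;> (repeat' first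
      | assumption | exact (map_one _).le | exact nu_ofNat_le' _ | apply nu_add_le
      | apply nu_sub_le' | apply nu_neg_le' | apply nu_mul_le | apply nu_pow_le')
  obtain ⟨hD1, -⟩ := D_data hi h2 (Or.inr rfl) hD hu1
  have hD0 : D ≠ 0 := by
    rw [← ν.ne_zero_iff, hD1]
    exact one_ne_zero
  have hw0 : i ^ 1 * (1 + (1 + i) ^ 3 * ρ) ≠ 0 := by
    refine mul_ne_zero (pow_ne_zero 1 (i_ne hi)) fun h0 => nu_not (nu_lam2 hi h2)
      (t := (1 + i) ^ 2 * ρ) (nu_mul_le (nu_pow_le' (nu_add_le (map_one ν).le hi1) 2) ?_) ?_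
    · rcases hρ with h5 | h5 <;> rw [h5]
      · rw [map_zero]
        exact zero_le
      · exact (map_one ν).le
    · linear_combination h0
  rcases h with h | h
  · exact c4_gloc4 hi h2 hres hD1 h
  rcases hρ with rfl | rfl <;> rcases hn with rfl | rfl
  · exact X1_C hi h2 hres hv (by rw [hD, hu]) rfl hD1 h
  · exact X1_A hi h2 hres hv (by rw [hD, hu]) rfl hD0 h
  · exact X1_B hi h2 hres hv (by rw [hD, hu]) rfl hD0 hw0 h
  · exact X1_D hi h2 hres hv (by rw [hD, hu]) rfl hD1 hw0 h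

/-! ### (X2) -/

/-- `D = 1 + 4 i` modulo `4 lam ^ 2` -/
theorem X2_E {i D a v w : L} (hi : i ^ 2 = -1) (h2 : ν 2 = exp (-2))
    (hres : ∀ x : L, ν x = 1 → ν (x - 1) < 1) (hv : ν v ≤ 1)
    (hD : D = 1 * (1 + 4 * (0 + i + (1 + i) ^ 2 * v)))
    (hw : w = i ^ 0 * (1 + (1 + i) ^ 3 * 1)) (hD0 : D ≠ 0) (hw0 : w ≠ 0) (h : C4 ν (a * w)) :
    GLoc4 ν D a := by
  have hi1 := (nu_i (ν := ν) hi).le
  have h11 : ν (1 : L) ≤ 1 := (map_one ν).le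
  have hi0 := i_ne hi
  have h4 := nu_four4_le h2
  have hl : ν (1 + i) ≤ 1 := nu_add_le h11 hi1
  obtain ⟨f, hf⟩ : ∃ f : L → L, f = fun s : L => i * (2 * s + (1 + i) * s ^ 2) -
      2 * i * i * (1 + (1 + i) * s) * (i * s - (1 + (1 + i) * s) ^ 2 - v) +
      i * (1 + (1 + i) * s) := ⟨_, rfl⟩
  have hL : Lip ν f := by
    rw [hf]
    repeat' first
      | exact Lip.id' | exact Lip.const hi1 | exact Lip.const hv | exact Lip.const h11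
      | exact Lip.const (nu_ofNat_le' _) | apply Lip.add | apply Lip.sub | apply Lip.mul
      | apply Lip.neg | apply Lip.pow
  obtain ⟨s, hs, hB⟩ := hL.newton hl (c := -(i + i * v))
    (nu_neg_le' (nu_add_le hi1 (nu_mul_le hi1 hv))) 3
  obtain ⟨B, hBd⟩ : ∃ B : L, B = s - -(i + i * v) + (1 + i) * f s := ⟨_, rfl⟩
  rw [← hBd] at hB
  have hx0 : -1 + 2 * i - 4 * s ≠ 0 := fun h0 => nu_not (nu_lam2 hi h2)
    (t := (1 - i) * (2 * s - i)) (nu_mul_le (nu_sub_le' h11 hi1)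
      (nu_sub_le' (nu_mul_le (nu_ofNat_le' _) hs) hi1)) (by
    linear_combination -h0 - (2 * s - i) * hi)
  have hu : ν (0 + i + (1 + i) ^ 2 * v) ≤ 1 := by
    repeat' first
      | assumption | exact (map_one _).le | exact nu_ofNat_le' _ | apply nu_add_le
      | apply nu_sub_le' | apply nu_neg_le' | apply nu_mul_le | apply nu_pow_le'
      | (rw [map_zero]; exact zero_le)
  refine gloc4_u0 hi h4 hres (cx_two_lt h2) (x := -1 + 2 * i - 4 * s)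
    (y := -1 - i + s - 2 * i * s) (u := 0 + i + (1 + i) ^ 2 * v) hw0 hD0
    ⟨1, one_ne_zero, by rw [hD, one_pow]⟩ hu ?_ (fun a ha => ?_) ⟨1, one_ne_zero, ?_⟩ ?_ h
  · have e : 0 + i + (1 + i) ^ 2 * v - 1 = (1 + i) * (i + (1 + i) * v) := by
      linear_combination -hi
    rw [e]
    exact nu_l_lt hi h2 (nu_add_le hi1 (nu_mul_le hl hv))
  · refine Or.inr (Or.inr (Or.inr ⟨_, hx0, ?_, ha⟩))
    refine Sq.mk' h4.le (s := 2 * i) (r := 2 * 1 * B) (mul_ne_zero two_ne_zero hi0)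
      (small3 hi h2 h11 hB) ?_
    rw [hD, hBd, hf]
    linear_combination (-16 * i ^ 6 * s ^ 3 - 64 * i ^ 5 * s ^ 3 - 32 * i ^ 5 * s ^ 2 -
      80 * i ^ 4 * s ^ 3 - 112 * i ^ 4 * s ^ 2 - 16 * i ^ 4 * s * v - 32 * i ^ 4 * s -
      104 * i ^ 3 * s ^ 2 - 32 * i ^ 3 * s * v + 64 * i ^ 2 * s ^ 3 - 88 * i ^ 3 * s -
      16 * i ^ 3 * v + 48 * i ^ 2 * s ^ 2 - 16 * i ^ 3 - 48 * i ^ 2 * s - 16 * i ^ 2 * v +
      96 * i * s ^ 2 + 32 * i * s * v - 64 * s ^ 3 - 24 * i ^ 2 + 64 * i * s - 48 * s ^ 2 +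
      16 * s * v + 8 * i - 8 * s + 4 * v) * hi
  · rw [hw]
    linear_combination (2 * i ^ 2 - 4 * i * s + 5 * i - 12 * s + 1) * hi
  · repeat' first
      | assumption | exact (map_one _).le | exact nu_ofNat_le' _ | apply nu_add_le
      | apply nu_sub_le' | apply nu_neg_le' | apply nu_mul_le

/-- `D = 1 + 4 lam` modulo `4 lam ^ 2` -/
theorem X2_F {i D a v w : L} (hi : i ^ 2 = -1) (h2 : ν 2 = exp (-2))
    (hres : ∀ x : L, ν x = 1 → ν (x - 1) < 1) (hv : ν v ≤ 1)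
    (hD : D = 1 * (1 + 4 * (1 + i + (1 + i) ^ 2 * v)))
    (hw : w = i ^ 0 * (1 + (1 + i) ^ 3 * 1)) (hD1 : ν D = 1) (hw0 : w ≠ 0)
    (h : C4 ν (a * w)) : GLoc4 ν D a := by
  have hi1 := (nu_i (ν := ν) hi).le
  have h11 : ν (1 : L) ≤ 1 := (map_one ν).le
  have hi0 := i_ne hi
  have h4 := nu_four4_le h2
  have hν2 := cx_two_lt h2
  have hl : ν (1 + i) ≤ 1 := nu_add_le h11 hi1
  have hl0 : (1 + i : L) ≠ 0 := by
    rw [← ν.ne_zero_iff, nu_lam2 hi h2]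
    exact exp_ne_zero
  obtain ⟨y, k, hy, hk, hyk, h16, hyi⟩ := tor_y hi h2 hv
  obtain ⟨f, hf⟩ : ∃ f : L → L, f = fun s : L => 2 * s + (1 + i) * s ^ 2 +
      (1 + i) ^ 2 * (-i * (1 + (1 + i) * s)) * (s - (-i * (1 + (1 + i) * s)) ^ 2 - v) := ⟨_, rfl⟩
  have hL : Lip ν f := by
    rw [hf]
    repeat' first
      | exact Lip.id' | exact Lip.const hi1 | exact Lip.const hv | exact Lip.const h11
      | exact Lip.const (nu_ofNat_le' _) | apply Lip.add | apply Lip.sub | apply Lip.mul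
      | apply Lip.neg | apply Lip.pow
  obtain ⟨s, hs, hB⟩ := hL.newton hl (c := v) hv 5
  have vH : ν (f s) ≤ 1 := hL.le s hs
  obtain ⟨B, hBd⟩ : ∃ B : L, B = s - v + (1 + i) * f s := ⟨_, rfl⟩
  rw [← hBd] at hB
  have vB := nu_B_lt hi h2 (by norm_num) hB
  have hx0 : 3 + 2 * i + 4 * i * s ≠ 0 := by
    refine fun h0 => nu_not (nu_lam2 hi h2) (t := (1 - i) * (1 + i + 2 * i * s)) ?_ ?_
    · repeat' first
        | assumption | exact nu_ofNat_le' _ | apply nu_add_le | apply nu_sub_le' | apply nu_mul_le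
    · linear_combination h0 - (1 + i + 2 * i * s) * hi
  have hx1 : 1 + (1 + i) ^ 3 * y ≠ 0 := by
    refine fun h0 => nu_not (nu_lam2 hi h2) (t := (1 + i) ^ 2 * y)
      (nu_mul_le (nu_pow_le' hl 2) hy) ?_
    linear_combination h0
  refine gloc4_pair h4 hres hν2 (x₁ := 1 + (1 + i) ^ 3 * y) (x₂ := 3 + 2 * i + 4 * i * s)
    (y₁ := -2 + i + (1 - 2 * i) * (k - (i * y ^ 2 + i * v))) (y₂ := -2 + i - (2 + i) * s) hw0
    (fun a ha => ?_) (fun a ha => ?_) ⟨1, one_ne_zero, ?_⟩ ⟨1, one_ne_zero, ?_⟩ ?_ ?_ ?_ h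
  · refine gloc4_tor hD1 hx1 ?_ ha
    have e : (1 + (1 + i) ^ 3 * y) ^ 2 - D = -((4 - 4 * i) * ((1 + i) * k)) := by
      rw [hD, ← hyk]
      linear_combination (i ^ 4 * y ^ 2 + 6 * i ^ 3 * y ^ 2 + 14 * i ^ 2 * y ^ 2 +
        10 * i * y ^ 2 - 4 * i * v + 2 * i * y + y ^ 2 - 4 * v + 6 * y - 4) * hi
    rw [e, Valuation.map_neg]
    exact h16
  · refine Or.inr (Or.inr (Or.inr ⟨_, hx0, ?_, ha⟩))
    refine Sq.mk' h4.le (s := 2 * (1 + i)) (r := 1 * B) (mul_ne_zero two_ne_zero hl0)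
      (small5 hi h2 h11 hB) ?_
    rw [hD, hBd, hf]
    linear_combination (-4 * i ^ 9 * s ^ 3 - 32 * i ^ 8 * s ^ 3 - 12 * i ^ 8 * s ^ 2 -
      108 * i ^ 7 * s ^ 3 - 84 * i ^ 7 * s ^ 2 - 192 * i ^ 6 * s ^ 3 - 12 * i ^ 7 * s -
      240 * i ^ 6 * s ^ 2 - 172 * i ^ 5 * s ^ 3 - 72 * i ^ 6 * s - 332 * i ^ 5 * s ^ 2 -
      4 * i ^ 5 * s * v - 32 * i ^ 4 * s ^ 3 - 4 * i ^ 6 - 168 * i ^ 5 * s - 156 * i ^ 4 * s ^ 2 -
      24 * i ^ 4 * s * v + 60 * i ^ 3 * s ^ 3 - 20 * i ^ 5 - 164 * i ^ 4 * s - 4 * i ^ 4 * v +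
      140 * i ^ 3 * s ^ 2 - 56 * i ^ 3 * s * v - 36 * i ^ 4 + 8 * i ^ 3 * s - 20 * i ^ 3 * v +
      148 * i ^ 2 * s ^ 2 - 56 * i ^ 2 * s * v - 20 * i ^ 3 + 132 * i ^ 2 * s - 36 * i ^ 2 * v -
      12 * i * s ^ 2 - 20 * i * s * v + 16 * i ^ 2 + 60 * i * s - 28 * i * v - 4 * s ^ 2 +
      24 * i - 12 * s - 8 * v + 8) * hi
  · rw [hw]
    linear_combination (-(2 + 6 * i)) * hyk + (i ^ 4 * y + 6 * i ^ 3 * y + 14 * i ^ 2 * y +
      6 * i * y ^ 2 + 6 * i * v + 15 * i * y + i + 4 * y - 6 * k + 9) * hi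
  · rw [hw]
    linear_combination (4 * i ^ 2 * s + 2 * i ^ 2 + 12 * i * s + 9 * i + 8 * s + 13) * hi
  · have hk1 := hk.le
    repeat' first
      | assumption | exact (map_one _).le | exact nu_ofNat_le' _ | apply nu_add_le
      | apply nu_sub_le' | apply nu_neg_le' | apply nu_mul_le | apply nu_pow_le'
  · repeat' first
      | assumption | exact (map_one _).le | exact nu_ofNat_le' _ | apply nu_add_le
      | apply nu_sub_le' | apply nu_neg_le' | apply nu_mul_le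
  · refine cls_sum hi h2 hv hy hk hyi ?_
    have e : s - v = B + (1 + i) * -f s := by
      rw [hBd]
      ring
    rw [e]
    exact ν.map_add_lt vB (nu_l_lt hi h2 (nu_neg_le' vH))

/-- **(X2), converse** -/
theorem locC_X2 {i D a u v ρ : L} (hi : i ^ 2 = -1) (h2 : ν 2 = exp (-2))
    (hres : ∀ x : L, ν x = 1 → ν (x - 1) < 1) (hρ : ρ = 0 ∨ ρ = 1)
    (hv : ν v ≤ 1) (hu : u = ρ + i + (1 + i) ^ 2 * v) (hD : D = 1 * (1 + 4 * u))
    (h : C4 ν a ∨ C4 ν (a * (i ^ 0 * (1 + (1 + i) ^ 3 * 1)))) : GLoc4 ν D a := by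
  have hi1 := (nu_i (ν := ν) hi).le
  have h11 : ν (1 : L) ≤ 1 := (map_one ν).le
  have h01 : ν (0 : L) ≤ 1 := by
    rw [map_zero]
    exact zero_le
  have hu1 : ν u ≤ 1 := by
    rw [hu]
    rcases hρ with h5 | h5 <;> rw [h5] <;> (repeat' first
      | assumption | exact (map_one _).le | exact nu_ofNat_le' _ | apply nu_add_le
      | apply nu_sub_le' | apply nu_neg_le' | apply nu_mul_le | apply nu_pow_le')
  obtain ⟨hD1, -⟩ := D_data hi h2 (Or.inl rfl) hD hu1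
  have hD0 : D ≠ 0 := by
    rw [← ν.ne_zero_iff, hD1]
    exact one_ne_zero
  have hw0 : i ^ 0 * (1 + (1 + i) ^ 3 * 1) ≠ 0 := by
    refine mul_ne_zero (pow_ne_zero 0 (i_ne hi)) fun h0 => nu_not (nu_lam2 hi h2)
      (t := (1 + i) ^ 2 * 1) (nu_mul_le (nu_pow_le' (nu_add_le h11 hi1) 2) h11) ?_
    linear_combination h0
  rcases h with h | h
  · exact c4_gloc4 hi h2 hres hD1 h
  rcases hρ with rfl | rfl
  · exact X2_E hi h2 hres hv (by rw [hD, hu]) rfl hD0 hw0 h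
  · exact X2_F hi h2 hres hv (by rw [hD, hu]) rfl hD1 hw0 h

/-! ### (X3) -/

/-- a point whose abscissa is `i T` -/
theorem pt_T {i D T R c : L} (hi : i ^ 2 = -1) (h2 : ν 2 = exp (-2)) (hT : ν T = 1)
    (hR : ν R ≤ 1) (hc : c ≠ 0) (h : i * T * ((i * T) ^ 2 - D) = c ^ 2 * T * (T + 4 * ((1 + i) * R))) :
    ∀ a : L, Sq ν (a * (i * T)) → GLoc4 ν D a := by
  intro a ha
  have hT0 : T ≠ 0 := by
    rw [← ν.ne_zero_iff, hT]
    exact one_ne_zero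
  refine Or.inr (Or.inr (Or.inr ⟨_, mul_ne_zero (i_ne hi) hT0, ?_, ha⟩))
  refine Sq.mk' (nu_four4_le h2).le (s := c * T) (r := 4 * ((1 + i) * (R / T)))
    (mul_ne_zero hc hT0) (nu_four_lt (nu_l_lt hi h2 ?_)) ?_
  · rw [map_div₀, hT, div_one]
    exact hR
  · rw [h]
    field_simp

theorem nu_T {i t : L} (hi : i ^ 2 = -1) (h2 : ν 2 = exp (-2)) (ht : ν t ≤ 1) :
    ν (1 + (1 + i) ^ 3 * t) = 1 := by
  have hi1 := (nu_i (ν := ν) hi).le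
  have e : 1 + (1 + i) ^ 3 * t = 1 + (1 + i) * ((1 + i) ^ 2 * t) := by ring
  rw [e]
  exact nu_onel (nu_lam2 hi h2) (nu_mul_le (nu_pow_le' (nu_add_le (map_one ν).le hi1) 2) ht)

/-- **(X3), converse** -/
theorem locC_X3 {i D a u v ρ κ α : L} (hi : i ^ 2 = -1) (h2 : ν 2 = exp (-2))
    (hres : ∀ x : L, ν x = 1 → ν (x - 1) < 1)
    (hρ : (ρ = 0 ∧ κ = 0 ∧ α = 0) ∨ (ρ = 0 ∧ κ = 1 ∧ α = 1) ∨ (ρ = 1 ∧ κ = 0 ∧ α = 1) ∨
      (ρ = 1 ∧ κ = 1 ∧ α = 0))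
    (hv : ν v ≤ 1) (hu : u = ρ + (1 + i) ^ 2 * (κ + (1 + i) * v)) (hD : D = 1 * (1 + 4 * u))
    (h : C4 ν a ∨ C4 ν (a * (i ^ 1 * (1 + (1 + i) ^ 3 * α)))) : GLoc4 ν D a := by
  have hi1 := (nu_i (ν := ν) hi).le
  have hi0 := i_ne hi
  have h4 := nu_four4_le h2
  have hν2 := cx_two_lt h2
  have h11 : ν (1 : L) ≤ 1 := (map_one ν).le
  have hl : ν (1 + i) ≤ 1 := nu_add_le h11 hi1
  have hl0 : (1 + i : L) ≠ 0 := by
    rw [← ν.ne_zero_iff, nu_lam2 hi h2]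
    exact exp_ne_zero
  have h01 : ν (0 : L) ≤ 1 := by
    rw [map_zero]
    exact zero_le
  have hκ : ν κ ≤ 1 := by
    rcases hρ with ⟨-, h6, -⟩ | ⟨-, h6, -⟩ | ⟨-, h6, -⟩ | ⟨-, h6, -⟩ <;> rw [h6] <;> assumption
  have hα : ν α ≤ 1 := by
    rcases hρ with ⟨-, -, h6⟩ | ⟨-, -, h6⟩ | ⟨-, -, h6⟩ | ⟨-, -, h6⟩ <;> rw [h6] <;> assumption
  have hρ1 : ν ρ ≤ 1 := by
    rcases hρ with ⟨h6, -⟩ | ⟨h6, -⟩ | ⟨h6, -⟩ | ⟨h6, -⟩ <;> rw [h6] <;> assumption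
  have hu1 : ν u ≤ 1 := by
    rw [hu]
    repeat' first
      | assumption | apply nu_add_le | apply nu_mul_le | apply nu_pow_le'
  obtain ⟨hD1, -⟩ := D_data hi h2 (Or.inl rfl) hD hu1
  have hD0 : D ≠ 0 := by
    rw [← ν.ne_zero_iff, hD1]
    exact one_ne_zero
  have hT := nu_T hi h2 hα
  have hT0 : 1 + (1 + i) ^ 3 * α ≠ 0 := by
    rw [← ν.ne_zero_iff, hT]
    exact one_ne_zero
  have hw0 : i ^ 1 * (1 + (1 + i) ^ 3 * α) ≠ 0 := mul_ne_zero (pow_ne_zero 1 hi0) hT0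
  rcases h with h | h
  · exact c4_gloc4 hi h2 hres hD1 h
  have cu : ρ = 1 → ν (u - 1) < 1 := by
    rintro rfl
    have e : u - 1 = (1 + i) * ((1 + i) * (κ + (1 + i) * v)) := by
      rw [hu]
      ring
    rw [e]
    exact nu_l_lt hi h2 (nu_mul_le hl (nu_add_le hκ (nu_mul_le hl hv)))
  rcases hρ with ⟨rfl, rfl, rfl⟩ | ⟨rfl, rfl, rfl⟩ | ⟨rfl, rfl, rfl⟩ | ⟨rfl, rfl, rfl⟩
  · refine gloc4_pair h4 hres hν2 (x₁ := i * (1 + (1 + i) ^ 3 * 0))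
      (x₂ := i * (1 + (1 + i) ^ 3 * (1 + i))) (y₁ := 0) (y₂ := -1) hw0
      (pt_T hi h2 hT (R := i * v) (c := i * (1 + i)) (nu_mul_le hi1 hv) (mul_ne_zero hi0 hl0) ?_)
      (pt_T hi h2 (nu_T hi h2 hl) (R := (1 - i) + i * v) (c := i * (1 + i))
        (nu_add_le (nu_sub_le' h11 hi1) (nu_mul_le hi1 hv)) (mul_ne_zero hi0 hl0) ?_)
      ⟨i, hi0, ?_⟩ ⟨i, hi0, ?_⟩ h01 (nu_neg_le' h11) ?_ h
    · rw [hD, hu]
      linear_combination (-4 * i ^ 4 * v - 12 * i ^ 3 * v - 12 * i ^ 2 * v - i ^ 2 - 4 * i * v -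
        i) * hi
    · rw [hD, hu]
      linear_combination (i ^ 13 + 12 * i ^ 12 + 65 * i ^ 11 + 207 * i ^ 10 + 423 * i ^ 9 - 4 *
        i ^ 8 * v + 568 * i ^ 8 - 28 * i ^ 7 * v + 489 * i ^ 7 - 84 * i ^ 6 * v + 236 * i ^ 6 -
        140 * i ^ 5 * v + 11 * i ^ 5 - 144 * i ^ 4 * v - 72 * i ^ 4 - 96 * i ^ 3 * v - 52 * i ^ 3
        - 40 * i ^ 2 * v - 16 * i ^ 2 - 8 * i * v - 2 * i) * hi
    · ring
    · linear_combination (i ^ 4 + 4 * i ^ 3 + 5 * i ^ 2) * hi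
    · have e : (0 : L) + -1 - 1 = -2 := by norm_num
      rw [e, Valuation.map_neg]
      exact hν2
  · refine gloc4_pair h4 hres hν2 (x₁ := i * (1 + (1 + i) ^ 3 * 1))
      (x₂ := i * (1 + (1 + i) ^ 3 * (1 + (1 + i)))) (y₁ := -1 - i) (y₂ := -3 * i) hw0
      (pt_T hi h2 hT (R := i * v) (c := i * (1 + i)) (nu_mul_le hi1 hv) (mul_ne_zero hi0 hl0) ?_)
      (pt_T hi h2 (nu_T hi h2 (nu_add_le h11 hl)) (R := (1 - i) ^ 2 + (1 - i) + i * v)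
        (c := i * (1 + i)) (nu_add_le (nu_add_le (nu_pow_le' (nu_sub_le' h11 hi1) 2)
        (nu_sub_le' h11 hi1)) (nu_mul_le hi1 hv)) (mul_ne_zero hi0 hl0) ?_)
      ⟨i, hi0, ?_⟩ ⟨i, hi0, ?_⟩ (nu_sub_le' (nu_neg_le' h11) hi1)
      (nu_mul_le (nu_neg_le' (nu_ofNat_le' _)) hi1) ?_ h
    · rw [hD, hu]
      linear_combination (i ^ 10 + 9 * i ^ 9 + 34 * i ^ 8 - 4 * i ^ 7 * v + 70 * i ^ 7 - 24 * i
        ^ 6 * v + 82 * i ^ 6 - 60 * i ^ 5 * v + 43 * i ^ 5 - 84 * i ^ 4 * v - 19 * i ^ 4 - 72 * i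
        ^ 3 * v - 49 * i ^ 3 - 36 * i ^ 2 * v - 35 * i ^ 2 - 8 * i * v - 10 * i) * hi
    · rw [hD, hu]
      linear_combination (i ^ 13 + 15 * i ^ 12 + 101 * i ^ 11 + 400 * i ^ 10 + 1020 * i ^ 9 - 4
        * i ^ 8 * v + 1724 * i ^ 8 - 32 * i ^ 7 * v + 1913 * i ^ 7 - 108 * i ^ 6 * v + 1300 * i ^
        6 - 200 * i ^ 5 * v + 378 * i ^ 5 - 224 * i ^ 4 * v - 172 * i ^ 4 - 156 * i ^ 3 * v - 223
        * i ^ 3 - 64 * i ^ 2 * v - 92 * i ^ 2 - 12 * i * v - 15 * i) * hi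
    · linear_combination (i ^ 6 + 6 * i ^ 5 + 14 * i ^ 4 + 16 * i ^ 3 + 7 * i ^ 2) * hi
    · linear_combination (i ^ 7 + 8 * i ^ 6 + 26 * i ^ 5 + 43 * i ^ 4 + 35 * i ^ 3 + 5 * i ^ 2)
        * hi
    · have e : -1 - i + -3 * i - 1 = 2 * (-1 - 2 * i) := by ring
      rw [e]
      exact nu_sq_lt hν2 (nu_sub_le' (nu_neg_le' h11) (nu_mul_le (nu_ofNat_le' _) hi1))
  · refine gloc4_u0 hi h4 hres hν2 (x := i * (1 + (1 + i) ^ 3 * 1)) (y := 0) (u := u) hw0 hD0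
      ⟨1, one_ne_zero, by rw [hD, one_pow]⟩ hu1 (cu rfl)
      (pt_T hi h2 hT (R := -(i * v)) (c := 1 + i) (nu_neg_le' (nu_mul_le hi1 hv)) hl0 ?_)
      ⟨i * (1 + (1 + i) ^ 3 * 1), mul_ne_zero hi0 hT0, by ring⟩ h01 h
    rw [hD, hu]
    linear_combination (i ^ 10 + 9 * i ^ 9 + 35 * i ^ 8 + 78 * i ^ 7 + 108 * i ^ 6 + 85 * i ^ 5
      + 11 * i ^ 4 - 53 * i ^ 3 - 60 * i ^ 2 - 30 * i - 4) * hi
  · refine gloc4_u0 hi h4 hres hν2 (x := i * (1 + (1 + i) ^ 3 * 0)) (y := 0) (u := u) hw0 hD0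
      ⟨1, one_ne_zero, by rw [hD, one_pow]⟩ hu1 (cu rfl)
      (pt_T hi h2 hT (R := -(1 + i * v)) (c := 1 + i)
        (nu_neg_le' (nu_add_le h11 (nu_mul_le hi1 hv))) hl0 ?_)
      ⟨i * (1 + (1 + i) ^ 3 * 0), mul_ne_zero hi0 hT0, by ring⟩ h01 h
    rw [hD, hu]
    linear_combination (i + 3) * hi

end Pool.Agent.Lib.MP_1a91b9_ntQ.C
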