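import Pool.Agent.Lib.MP_1a91b9_ntQ.C.Kd
import Pool.Agent.Lib.MP_1a91b9_ntQ.C.LocDefs

/-!
# From the completion to the field
-/

set_option autoImplicit false

namespace Pool.Agent.Lib.MP_1a91b9_ntQ.C

open WeierstrassCurve WithZero NumberField IsDedekindDomain
open Pool.Agent.Lib.MP_1a91b9_ntH.C (Sq)
open scoped Classical

private theorem Dens_val {N : Type*} [Field N] [NumberField N] (v : HeightOneSpectrum (𝓞 N))
    (x : N) : Valued.v (algebraMap N (v.adicCompletion N) x) = v.valuation N x :=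
  HeightOneSpectrum.valuedAdicCompletion_eq_valuation' v _

private theorem Dens_dense {N : Type*} [Field N] [NumberField N] (v : HeightOneSpectrum (𝓞 N))
    (x : v.adicCompletion N) (γ : ℤᵐ⁰) (hγ : γ ≠ 0) :
    ∃ X : N, Valued.v (x - algebraMap N (v.adicCompletion N) X) < γ := by
  have hn1 : exp (-(1 : ℤ)) < (1 : ℤᵐ⁰) := by
    rw [← exp_zero, exp_lt_exp]
    omega
  have hlt : exp (-(1 : ℤ)) * γ < γ := by
    have h := mul_lt_mul_of_pos_right hn1 (zero_lt_iff.2 hγ)
    rwa [one_mul] at h
  obtain ⟨c, hc⟩ := HeightOneSpectrum.valuedAdicCompletion_surjective N v (exp (-(1 : ℤ)) * γ)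
  have hcr : Valued.v.restrict c ≠ 0 := by
    rw [Ne, Valuation.restrict_eq_zero_iff, hc]
    exact mul_ne_zero exp_ne_zero hγ
  have hO : IsOpen ((fun y : v.adicCompletion N => x - y) ⁻¹'
      {z : v.adicCompletion N | Valued.v.restrict z ≤ Valued.v.restrict c}) :=
    (Valued.isOpen_closedBall _ hcr).preimage (continuous_const.sub continuous_id)
  obtain ⟨z, hz⟩ := (HeightOneSpectrum.denseRange_algebraMap N v).exists_mem_open hO
    ⟨x, by
      rw [Set.mem_preimage, sub_self, Set.mem_ofPred_eq, map_zero]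
      exact zero_le⟩
  rw [Set.mem_preimage, Set.mem_ofPred_eq, Valuation.restrict_le_iff, hc] at hz
  exact ⟨z, hz.trans_lt hlt⟩

/-- if `p` and `q` are close to `1`, so is `p q` -/
private theorem Dens_mul {F : Type*} [Field F] (ν : Valuation F ℤᵐ⁰) {t : ℤᵐ⁰} (ht : t ≤ 1)
    {p q : F} (hp : ν (p - 1) < t) (hq : ν (q - 1) < t) : ν (p * q - 1) < t := by
  have hq1 : ν q ≤ 1 := by
    have e : q = (q - 1) + 1 := by ring
    rw [e]
    exact Valuation.map_add_le _ (hq.le.trans ht) (by rw [map_one])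
  have e : p * q - 1 = (p - 1) * q + (q - 1) := by ring
  rw [e]
  refine Valuation.map_add_lt _ ?_ hq
  rw [map_mul]
  exact (mul_le_of_le_one_right' hq1).trans_lt hp

/-- if `w` is close to `1`, so is `1 / w ^ 2` -/
private theorem Dens_inv {F : Type*} [Field F] (ν : Valuation F ℤᵐ⁰) {t : ℤᵐ⁰} (ht : t ≤ 1)
    {w : F} (hw : ν (w - 1) < t) : ν ((w ^ 2)⁻¹ - 1) < t := by
  have h1 : ν (w - 1) < ν 1 := by
    rw [map_one]
    exact hw.trans_le ht
  have hw1 : ν w = 1 := by
    have e : w = (w - 1) + 1 := by ring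
    rw [e, Valuation.map_add_eq_of_lt_right _ h1, map_one]
  have hw0 : w ≠ 0 := by
    intro h
    rw [h, map_zero] at hw1
    exact zero_ne_one hw1
  have h2 : ν (w ^ 2 - 1) < t := by
    have e : w ^ 2 = w * w := by ring
    rw [e]
    exact Dens_mul ν ht hw hw
  have e : (w ^ 2)⁻¹ - 1 = -((w ^ 2 - 1) * (w ^ 2)⁻¹) := by
    field_simp
    ring
  rw [e, Valuation.map_neg, map_mul, map_inv₀, map_pow, hw1, one_pow, inv_one, mul_one]
  exact h2

section

variable {N : Type*} [Field N] [NumberField N] (v : HeightOneSpectrum (𝓞 N))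

private theorem Dens_nat (n : ℕ) : v.valuation N (n : N) ≤ 1 := by
  have h : v.valuation N (algebraMap (𝓞 N) N (n : 𝓞 N)) ≤ 1 :=
    HeightOneSpectrum.valuation_le_one (K := N) v (n : 𝓞 N)
  rwa [map_natCast (algebraMap (𝓞 N) N) n] at h

private theorem Dens_t0 : v.valuation N (16 : N) ≠ 0 := by
  rw [Ne, Valuation.zero_iff]
  norm_num

private theorem Dens_t1 : v.valuation N (16 : N) ≤ 1 := by
  exact_mod_cast Dens_nat v 16

private theorem Dens_t4 : v.valuation N (16 : N) ≤ v.valuation N (4 : N) := by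
  have h4 : v.valuation N (4 : N) ≤ 1 := by exact_mod_cast Dens_nat v 4
  have e : (16 : N) = 4 * 4 := by norm_num
  rw [e, map_mul]
  exact mul_le_of_le_one_right' h4

private theorem Dens_sq (u : N) (β : v.adicCompletion N) (hβ : β ≠ 0)
    (h : Valued.v (algebraMap N (v.adicCompletion N) u / β ^ 2 - 1) < v.valuation N 16) :
    Sq (v.valuation N) u := by
  have ht0 := Dens_t0 v
  have ht1 := Dens_t1 v
  set t := v.valuation N (16 : N) with htdef
  have hβv : (Valued.v β : ℤᵐ⁰) ≠ 0 := by
    rw [Ne, Valuation.zero_iff]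
    exact hβ
  obtain ⟨b, hb⟩ := Dens_dense v β (Valued.v β * t) (mul_ne_zero hβv ht0)
  have hw : Valued.v (algebraMap N (v.adicCompletion N) b / β - 1) < t := by
    have e : algebraMap N (v.adicCompletion N) b / β - 1 =
        -((β - algebraMap N (v.adicCompletion N) b) / β) := by
      field_simp
      ring
    rw [e, Valuation.map_neg, map_div₀, div_lt_iff₀ (zero_lt_iff.2 hβv), mul_comm]
    exact hb
  have hw0 : algebraMap N (v.adicCompletion N) b / β ≠ 0 := by
    intro hc
    rw [hc, zero_sub, Valuation.map_neg, map_one] at hw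
    exact absurd ht1 (not_le.2 hw)
  have hb0 : algebraMap N (v.adicCompletion N) b ≠ 0 := by
    intro hc
    rw [hc, zero_div] at hw0
    exact hw0 rfl
  refine ⟨b, fun hc => hb0 (by rw [hc, map_zero]), lt_of_lt_of_le ?_ (Dens_t4 v)⟩
  rw [← Dens_val v, map_sub, map_div₀, map_pow, map_one]
  have e : algebraMap N (v.adicCompletion N) u / algebraMap N (v.adicCompletion N) b ^ 2 =
      (algebraMap N (v.adicCompletion N) u / β ^ 2) *
        ((algebraMap N (v.adicCompletion N) b / β) ^ 2)⁻¹ := by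
    field_simp
  rw [e]
  exact Dens_mul _ ht1 h (Dens_inv _ ht1 hw)

private theorem Dens_sq' (u : N) (hu : u ≠ 0)
    (h : ∃ β : v.adicCompletion N, β ^ 2 = algebraMap N (v.adicCompletion N) u) :
    Sq (v.valuation N) u := by
  obtain ⟨r, hr⟩ := h
  have hu' : algebraMap N (v.adicCompletion N) u ≠ 0 := (map_ne_zero _).2 hu
  have hr0 : r ≠ 0 := by
    rintro rfl
    rw [zero_pow two_ne_zero] at hr
    exact hu' hr.symm
  refine Dens_sq v u r hr0 ?_
  rw [← hr, div_self (pow_ne_zero 2 hr0), sub_self, map_zero]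
  exact zero_lt_iff.2 (Dens_t0 v)

/-- passage from the completion to the field -/
theorem gloc_of_locAt {d a : N} (hd : d ≠ 0) (ha : a ≠ 0)
    (h : LocAt d a (v.adicCompletion N)) : GLoc4 (v.valuation N) d a := by
  have ht0 := Dens_t0 v
  have ht1 := Dens_t1 v
  have ha' : algebraMap N (v.adicCompletion N) a ≠ 0 := (map_ne_zero _).2 ha
  have hd' : algebraMap N (v.adicCompletion N) d ≠ 0 := (map_ne_zero _).2 hd
  -- an approximation of a non-zero element
  have happ : ∀ (x : v.adicCompletion N) (γ : ℤᵐ⁰), x ≠ 0 → γ ≠ 0 → ∃ X : N, X ≠ 0 ∧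
      Valued.v (algebraMap N (v.adicCompletion N) X / x - 1) < v.valuation N 16 ∧
      Valued.v (x - algebraMap N (v.adicCompletion N) X) < γ ∧
      Valued.v (algebraMap N (v.adicCompletion N) X) = Valued.v x := by
    intro x γ hx hγ
    have hxv : (Valued.v x : ℤᵐ⁰) ≠ 0 := by
      rw [Ne, Valuation.zero_iff]
      exact hx
    obtain ⟨γ', hγ'0, h1, h2⟩ : ∃ γ' : ℤᵐ⁰, γ' ≠ 0 ∧ γ' ≤ γ ∧
        γ' ≤ Valued.v x * v.valuation N 16 :=
      ⟨min γ (Valued.v x * v.valuation N 16), by
        rcases min_choice γ (Valued.v x * v.valuation N 16) with h | h <;> rw [h]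
        · exact hγ
        · exact mul_ne_zero hxv ht0, min_le_left _ _, min_le_right _ _⟩
    obtain ⟨X, hX⟩ := Dens_dense v x γ' hγ'0
    have h3 : Valued.v (algebraMap N (v.adicCompletion N) X / x - 1) < v.valuation N 16 := by
      have e : algebraMap N (v.adicCompletion N) X / x - 1 =
          -((x - algebraMap N (v.adicCompletion N) X) / x) := by
        field_simp
        ring
      rw [e, Valuation.map_neg, map_div₀, div_lt_iff₀ (zero_lt_iff.2 hxv), mul_comm]
      exact hX.trans_le h2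
    have h4 : Valued.v (algebraMap N (v.adicCompletion N) X) = Valued.v x := by
      have h5 : Valued.v (algebraMap N (v.adicCompletion N) X / x - 1) < Valued.v (1 : v.adicCompletion N) := by
        rw [map_one]
        exact h3.trans_le ht1
      have h6 := Valuation.map_add_eq_of_lt_right _ h5
      rw [sub_add_cancel, map_one, map_div₀, div_eq_one_iff_eq hxv] at h6
      exact h6
    refine ⟨X, ?_, h3, hX.trans_le h1, h4⟩
    rintro rfl
    rw [map_zero, map_zero] at h4
    exact hxv h4.symm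
  -- the class of `a X`
  have haX : ∀ (x β : v.adicCompletion N) (X : N), x ≠ 0 →
      β ^ 2 = algebraMap N (v.adicCompletion N) a * x →
      Valued.v (algebraMap N (v.adicCompletion N) X / x - 1) < v.valuation N 16 →
      Sq (v.valuation N) (a * X) := by
    intro x β X hx hβ hX
    have hβ0 : β ≠ 0 := by
      rintro rfl
      rw [zero_pow two_ne_zero] at hβ
      exact (mul_ne_zero ha' hx) hβ.symm
    refine Dens_sq v _ β hβ0 ?_
    rw [hβ, map_mul, mul_div_mul_left _ _ ha']
    exact hX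
  rcases h with h | h | ⟨x, β, hx, hβ⟩ | ⟨x, y, β, hxy, hx0, hy0, hβ⟩
  · exact Or.inl (Dens_sq' v _ ha h)
  · exact Or.inr (Or.inl (Dens_sq' v _ (mul_ne_zero ha hd) h))
  · right; right; left
    have hx0 : x ≠ 0 := by
      rintro rfl
      rw [zero_pow two_ne_zero] at hx
      exact hd' hx.symm
    obtain ⟨X, hX0, hX1, -, -⟩ := happ x 1 hx0 one_ne_zero
    refine ⟨X, hX0, ?_, haX x β X hx0 hβ hX1⟩
    rw [← Dens_val v, map_sub, map_div₀, map_pow, map_one, ← hx, ← div_pow, sq]
    exact Dens_mul _ ht1 hX1 hX1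
  · right; right; right
    have hprod : x * (x ^ 2 - algebraMap N (v.adicCompletion N) d) = y ^ 2 := by
      linear_combination -hxy
    have hm0 : x ^ 2 - algebraMap N (v.adicCompletion N) d ≠ 0 := by
      intro hc
      rw [hc, mul_zero] at hprod
      exact (pow_ne_zero 2 hy0) hprod.symm
    have hmv : (Valued.v (x ^ 2 - algebraMap N (v.adicCompletion N) d) : ℤᵐ⁰) ≠ 0 := by
      rw [Ne, Valuation.zero_iff]
      exact hm0
    have hxv : (Valued.v x : ℤᵐ⁰) ≠ 0 := by
      rw [Ne, Valuation.zero_iff]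
      exact hx0
    obtain ⟨X, hX0, hX1, hX2, hX3⟩ := happ x
      (Valued.v (x ^ 2 - algebraMap N (v.adicCompletion N) d) * v.valuation N 16 / Valued.v x) hx0
      (div_ne_zero (mul_ne_zero hmv ht0) hxv)
    refine ⟨X, hX0, ?_, haX x β X hx0 hβ hX1⟩
    refine Dens_sq v _ y hy0 ?_
    have e : algebraMap N (v.adicCompletion N) (X * (X ^ 2 - d)) / y ^ 2 =
        (algebraMap N (v.adicCompletion N) X / x) *
        ((algebraMap N (v.adicCompletion N) X ^ 2 - algebraMap N (v.adicCompletion N) d) /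
          (x ^ 2 - algebraMap N (v.adicCompletion N) d)) := by
      rw [div_mul_div_comm, hprod, map_mul, map_sub, map_pow]
    rw [e]
    refine Dens_mul _ ht1 hX1 ?_
    have e1 : (algebraMap N (v.adicCompletion N) X ^ 2 - algebraMap N (v.adicCompletion N) d) /
        (x ^ 2 - algebraMap N (v.adicCompletion N) d) - 1 =
        -((x - algebraMap N (v.adicCompletion N) X) * (x + algebraMap N (v.adicCompletion N) X) /
          (x ^ 2 - algebraMap N (v.adicCompletion N) d)) := by
      rw [div_sub_one hm0, ← neg_div]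
      congr 1
      ring
    have hsum : (Valued.v (x + algebraMap N (v.adicCompletion N) X) : ℤᵐ⁰) ≤ Valued.v x :=
      Valuation.map_add_le _ le_rfl hX3.le
    rw [e1, Valuation.map_neg, map_div₀, map_mul, div_lt_iff₀ (zero_lt_iff.2 hmv)]
    calc _ ≤ Valued.v (x - algebraMap N (v.adicCompletion N) X) * Valued.v x :=
          mul_le_mul_right hsum _
      _ < v.valuation N 16 * Valued.v (x ^ 2 - algebraMap N (v.adicCompletion N) d) := by
          rw [lt_div_iff₀ (zero_lt_iff.2 hxv)] at hX2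
          rw [mul_comm (v.valuation N 16)]
          exact hX2

end

end Pool.Agent.Lib.MP_1a91b9_ntQ.C
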