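import Pool.Agent.Lib.MP_1a91b9_ntT.S9.MA
import Pool.Agent.Lib.MP_1a91b9_ntT3.R3.Defs
import Pool.Agent.Lib.MP_1a91b9_ntQ.C.Dens

/-!
# Locally trivial cocycles, the descent by `1 - i`, the 2-torsion of the Tate-Shafarevich group
-/

set_option autoImplicit false

namespace Pool.Agent.Lib.MP_1a91b9_ntQ.C

open WeierstrassCurve WithZero NumberField IsDedekindDomain
open Pool.Agent.Lib.MP_1a91b9_ntT.S9 (Pts Gal coc cob trivOver shaCoc Sha up)
open Pool.Agent.Lib.MP_1a91b9_ntT3.S9 (ShaP)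
open scoped Classical

/-- The conclusion of the analysis of the Selmer elements of `y² = x³ - d x`. -/
def SelCl4 {N : Type*} [Field N] [NumberField N] (d : N) : Prop :=
  ∀ a : N, a ≠ 0 → (∀ v : HeightOneSpectrum (𝓞 N), GLoc4 (v.valuation N) d a) →
    IsSquare a ∨ IsSquare (a * d)

section

variable {N : Type*} [Field N] [NumberField N] {d : N} (hd : d ≠ 0) {z : N}
  (hz : z ^ 2 = -1) (hS : SelCl4 d)

include hS

/-- A locally trivial cocycle with values in the kernel of `1 - i` is the coboundary of a point `R`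
with `(1 - ω) R` in the kernel. -/
theorem main_coc (c : Gal N → Pts (cq d) (AlgebraicClosure N)) (hc : c ∈ shaCoc (cq d))
    (h2 : ∀ σ, mu (isQ_bc hd hz (AlgebraicClosure N)) (c σ) = 0) :
    ∃ R : Pts (cq d) (AlgebraicClosure N),
      (mu (isQ_bc hd hz (AlgebraicClosure N)) R = 0 ∨
        mu (isQ_bc hd hz (AlgebraicClosure N)) R = tq (isQ_bc hd hz (AlgebraicClosure N))) ∧
      ∀ σ, c σ = act (cq d) σ R - R := by
  obtain ⟨a, b, hk⟩ := exists_kd hd hz c hc.1.1 h2
  have ha : a ≠ 0 := by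
    rintro rfl
    have h := hk.sq
    rw [_root_.map_zero] at h
    exact hk.ne ((pow_eq_zero_iff two_ne_zero).1 h.symm)
  have hloc : ∀ v : HeightOneSpectrum (𝓞 N), GLoc4 (v.valuation N) d a := fun v => by
    have : CharZero (v.adicCompletion N) :=
      charZero_of_injective_algebraMap (algebraMap N (v.adicCompletion N)).injective
    have h : c ∈ ⨅ v : HeightOneSpectrum (𝓞 N), trivOver (cq d) (v.adicCompletion N) := hc.1.2
    have hcv : c ∈ trivOver (cq d) (v.adicCompletion N) := AddSubgroup.mem_iInf.1 h v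
    exact gloc_of_locAt v hd ha (kd_loc hd hz c h2 a b hk hcv)
  rcases hS a ha hloc with h | h
  · refine ⟨0, Or.inl (_root_.map_zero _), fun σ => ?_⟩
    rw [kd_zero c a b hk h σ, _root_.map_zero, sub_zero]
  · obtain ⟨R, hR, hc'⟩ := kd_cob hd hz c h2 a b hk h
    exact ⟨R, Or.inr hR, hc'⟩

include hd hz in
private theorem desc_pts0 (P : Pts (cq d) N) :
    ∃ T Q : Pts (cq d) N, mu (isQ_bc hd hz N) T = 0 ∧ P = T + mu (isQ_bc hd hz N) Q := by
  have hup : ∀ (σ : Gal N) (P : Pts (cq d) N),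
      act (cq d) σ (up (cq d) N (AlgebraicClosure N) P) = up (cq d) N (AlgebraicClosure N) P := by
    intro σ P
    show Affine.Point.map _ (Affine.Point.map _ _) = _
    rw [Affine.Point.map_map]
    have hcomp : (σ : AlgebraicClosure N →ₐ[N] AlgebraicClosure N).comp
        (IsScalarTower.toAlgHom N N (AlgebraicClosure N)) =
        IsScalarTower.toAlgHom N N (AlgebraicClosure N) := AlgHom.ext fun x => σ.commutes x
    rw [hcomp]
  obtain ⟨R₀, hR₀⟩ := exists_mu_closed (isQ_bc hd hz (AlgebraicClosure N))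
    (up (cq d) N (AlgebraicClosure N) P)
  obtain ⟨R, hR, hc⟩ := main_coc hd hz hS (fun σ => act (cq d) σ R₀ - R₀)
    (Pool.Agent.Lib.MP_1a91b9_ntT.S9.cob_le_shaCoc (cq d) ⟨R₀, fun σ => rfl⟩) fun σ => by
      rw [_root_.map_sub, ← act_mu hd hz, hR₀, hup, sub_self]
  obtain ⟨Q, hQ⟩ := Pool.Agent.Lib.MP_1a91b9_ntT.S9.fixed_pt (L := N) (cq d) (R₀ - R) fun σ => by
    have h1 : Affine.Point.map ((σ : AlgebraicClosure N →ₐ[N] AlgebraicClosure N).restrictScalars N)
        (R₀ - R) = act (cq d) σ (R₀ - R) := rfl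
    rw [h1, _root_.map_sub]
    have h2 := hc σ
    have h3 : act (cq d) σ R₀ - act (cq d) σ R = (act (cq d) σ R₀ - R₀) -
      (act (cq d) σ R - R) + (R₀ - R) := by abel
    rw [h3, ← h2, sub_self, zero_add]
  have hinj : Function.Injective (up (cq d) N (AlgebraicClosure N)) := Affine.Point.map_injective _
  have hmuup : ∀ P : Pts (cq d) N, up (cq d) N (AlgebraicClosure N) (mu (isQ_bc hd hz N) P) =
      mu (isQ_bc hd hz (AlgebraicClosure N)) (up (cq d) N (AlgebraicClosure N) P) := fun P =>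
    mu_map hd hz (IsScalarTower.toAlgHom N N (AlgebraicClosure N)) P
  have htq : up (cq d) N (AlgebraicClosure N) (tq (isQ_bc hd hz N)) =
      tq (isQ_bc hd hz (AlgebraicClosure N)) :=
    tq_map hd hz (IsScalarTower.toAlgHom N N (AlgebraicClosure N))
  have hP : up (cq d) N (AlgebraicClosure N) P =
      mu (isQ_bc hd hz (AlgebraicClosure N)) R +
        up (cq d) N (AlgebraicClosure N) (mu (isQ_bc hd hz N) Q) := by
    rw [hmuup, hQ, _root_.map_sub, hR₀]
    abel
  rcases hR with hR | hR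
  · refine ⟨0, Q, _root_.map_zero _, hinj ?_⟩
    rw [hP, hR, zero_add, zero_add]
  · refine ⟨tq (isQ_bc hd hz N), Q, mu_tq _, hinj ?_⟩
    rw [hP, hR, _root_.map_add, htq]

omit hS [NumberField N] in
theorem isQ_self {W : Affine N} (hW : W = cq d) (hd : d ≠ 0) (hz : z ^ 2 = -1) :
    IsQ W z d := ⟨hW, hz, hd⟩

omit hS in
private theorem desc_transport {W₁ W₂ : Affine N} (e : W₁ = W₂) {z₁ z₂ d₁ d₂ : N} (ez : z₁ = z₂)
    (ed : d₁ = d₂) (h₁ : IsQ W₁ z₁ d₁) (h₂ : IsQ W₂ z₂ d₂)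
    (h : ∀ P : W₁.Point, ∃ T Q : W₁.Point, mu h₁ T = 0 ∧ P = T + mu h₁ Q) :
    ∀ P : W₂.Point, ∃ T Q : W₂.Point, mu h₂ T = 0 ∧ P = T + mu h₂ Q := by
  subst e
  subst ez
  subst ed
  exact h

include hd hz in
theorem desc_pts {W : Affine N} (hW : IsQ W z d) (P : W.Point) :
    ∃ T Q : W.Point, mu hW T = 0 ∧ P = T + mu hW Q := by
  have h0 := isQ_bc hd hz N
  refine desc_transport (h0.eq.trans hW.eq.symm) rfl rfl h0 hW (desc_pts0 hd hz hS) P

include hd hz in
theorem mu_class (c : Gal N → Pts (cq d) (AlgebraicClosure N)) (hc : c ∈ shaCoc (cq d))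
    (h2 : (fun σ => mu (isQ_bc hd hz (AlgebraicClosure N)) (c σ)) ∈ cob (cq d)) :
    c ∈ cob (cq d) := by
  obtain ⟨Q, hQ⟩ := h2
  obtain ⟨R, hR⟩ := exists_mu_closed (isQ_bc hd hz (AlgebraicClosure N)) Q
  have hd' : (fun σ : Gal N => act (cq d) σ R - R) ∈ cob (cq d) := ⟨R, fun σ => rfl⟩
  have hc' : c - (fun σ : Gal N => act (cq d) σ R - R) ∈ cob (cq d) := by
    obtain ⟨R', _, h⟩ := main_coc hd hz hS _
      (sub_mem hc (Pool.Agent.Lib.MP_1a91b9_ntT.S9.cob_le_shaCoc (cq d) hd')) fun σ => by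
        have h1 : mu (isQ_bc hd hz (AlgebraicClosure N)) (c σ) = act (cq d) σ Q - Q := hQ σ
        simp only [Pi.sub_apply]
        rw [_root_.map_sub, _root_.map_sub, h1, ← act_mu hd hz, hR, sub_self]
    exact ⟨R', h⟩
  have h5 := add_mem hc' hd'
  rwa [sub_add_cancel] at h5

omit hS in
/-- `1 - i` preserves the locally trivial cocycles. -/
theorem mu_shaCoc (c : Gal N → Pts (cq d) (AlgebraicClosure N)) (hc : c ∈ shaCoc (cq d)) :
    (fun σ => mu (isQ_bc hd hz (AlgebraicClosure N)) (c σ)) ∈ shaCoc (cq d) := by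
  have htriv : ∀ (L : Type _) [Field L] [CharZero L] [Algebra N L], c ∈ trivOver (cq d) L →
      (fun σ => mu (isQ_bc hd hz (AlgebraicClosure N)) (c σ)) ∈ trivOver (cq d) L := by
    intro L _ _ _ h i
    obtain ⟨P, hP⟩ := h i
    refine ⟨mu (isQ_bc hd hz (AlgebraicClosure L)) P, fun σ τ hστ => ?_⟩
    rw [mu_map hd hz, hP σ τ hστ, _root_.map_sub, mu_map hd hz]
  refine ⟨⟨⟨?_, ?_⟩, ?_⟩, ?_⟩
  · exact hc.1.1.1.comp _
  · intro σ τ
    show mu (isQ_bc hd hz (AlgebraicClosure N)) (c (σ * τ)) = _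
    rw [hc.1.1.2 σ τ, _root_.map_add]
    congr 1
    exact (mu_map hd hz _ _).symm
  · refine AddSubgroup.mem_iInf.2 fun v => ?_
    have : CharZero (v.adicCompletion N) :=
      charZero_of_injective_algebraMap (algebraMap N (v.adicCompletion N)).injective
    exact htriv _ (AddSubgroup.mem_iInf.1 hc.1.2 v)
  · refine AddSubgroup.mem_iInf.2 fun v => ?_
    have : CharZero v.Completion :=
      charZero_of_injective_algebraMap (algebraMap N v.Completion).injective
    exact htriv _ (AddSubgroup.mem_iInf.1 hc.2 v)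

include hd hz in
theorem two_class (c : Gal N → Pts (cq d) (AlgebraicClosure N)) (hc : c ∈ shaCoc (cq d))
    (h3 : 2 • c ∈ cob (cq d)) : c ∈ cob (cq d) := by
  refine mu_class hd hz hS c hc (mu_class hd hz hS _ (mu_shaCoc hd hz c hc) ?_)
  obtain ⟨Q, hQ⟩ := h3
  refine ⟨-(omP (isQ_bc hd hz (AlgebraicClosure N)) Q), fun σ => ?_⟩
  have h1 : 2 • c σ = act (cq d) σ Q - Q := hQ σ
  show mu (isQ_bc hd hz (AlgebraicClosure N)) (mu (isQ_bc hd hz (AlgebraicClosure N)) (c σ)) =
    act (cq d) σ (-(omP (isQ_bc hd hz (AlgebraicClosure N)) Q)) -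
      -(omP (isQ_bc hd hz (AlgebraicClosure N)) Q)
  have h4 : act (cq d) σ (omP (isQ_bc hd hz (AlgebraicClosure N)) Q) =
      omP (isQ_bc hd hz (AlgebraicClosure N)) (act (cq d) σ Q) :=
    omP_map hd hz (σ : AlgebraicClosure N →ₐ[N] AlgebraicClosure N) Q
  rw [mu_mu, ← _root_.map_nsmul, h1, _root_.map_sub, _root_.map_neg, h4]
  abel

include hd hz in
theorem sha_two (x : Sha (cq d)) (h : 2 • x = 0) : x = 0 := by
  have key : ∀ y : shaCoc (cq d) ⧸ (cob (cq d)).addSubgroupOf (shaCoc (cq d)),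
      2 • y = 0 → y = 0 := by
    intro y hy
    obtain ⟨⟨c, hc⟩, rfl⟩ := QuotientAddGroup.mk_surjective y
    rw [← QuotientAddGroup.mk_nsmul, QuotientAddGroup.eq_zero_iff,
      AddSubgroup.mem_addSubgroupOf] at hy
    rw [QuotientAddGroup.eq_zero_iff, AddSubgroup.mem_addSubgroupOf]
    exact two_class hd hz hS c hc hy
  exact key x h

include hd hz in
/-- The 2-primary part of the Tate-Shafarevich group is trivial. -/
theorem card_shaP : Nat.card (ShaP 2 (cq d)) = 1 := by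
  have key : ∀ n : ℕ, ∀ y : Sha (cq d), 2 ^ n • y = 0 → y = 0 := by
    intro n
    induction n with
    | zero =>
      intro y hy
      simpa using hy
    | succ n ih =>
      intro y hy
      refine sha_two hd hz hS y (ih _ ?_)
      rw [← mul_nsmul', ← pow_succ]
      exact hy
  have h1 : ∀ x : AddCommGroup.primaryComponent (Sha (cq d)) 2, x = 0 := by
    rintro ⟨x, n, hn⟩
    exact Subtype.ext (key n x hn)
  exact Nat.card_eq_one_iff_unique.2
    ⟨⟨fun x y => (h1 x).trans (h1 y).symm⟩, ⟨(0 : AddCommGroup.primaryComponent (Sha (cq d)) 2)⟩⟩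

end

end Pool.Agent.Lib.MP_1a91b9_ntQ.C
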