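import Pool.Agent.Lib.MP_1a91b9_ntS.C.Hs
import Pool.Agent.Lib.MP_1a91b9_ntQ.C.Coc

/-!
# MP_1a91b9_nt (quartic twists), converse of the descent by `1 - i`: a Selmer element which is not the
class of a point gives a nonzero class in the 2-primary part of the Tate-Shafarevich group
-/

set_option autoImplicit false

namespace Pool.Agent.Lib.MP_1a91b9_ntQ.C

open WeierstrassCurve WithZero NumberField IsDedekindDomain
open Pool.Agent.Lib.MP_1a91b9_ntH.C (Sq)
open Pool.Agent.Lib.MP_1a91b9_ntT.S9 (Pts Gal coc cob trivOver shaCoc Sha up)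
open Pool.Agent.Lib.MP_1a91b9_ntT3.S9 (ShaP)
open Pool.Agent.Lib.MP_1a91b9_ntS.C (isSquare_of_Sq)
open scoped Classical

/-! ### the cocycle of an element -/

open scoped Pointwise in
private theorem cvq_lc {k : Type*} [Field k] [CharZero k] {X : Type*} (x : AlgebraicClosure k)
    (F : AlgebraicClosure k → X) : IsLocallyConstant fun σ : Gal k => F (σ x) := by
  rw [IsLocallyConstant.iff_exists_open]
  intro σ
  have hx : IsIntegral k x := (Algebra.IsAlgebraic.isAlgebraic x).isIntegral
  let M : IntermediateField k (AlgebraicClosure k) := IntermediateField.adjoin k {x}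
  have hM : FiniteDimensional k M := IntermediateField.adjoin.finiteDimensional hx
  have hxM : x ∈ M := IntermediateField.subset_adjoin k _ (by simp)
  refine ⟨σ • (M.fixingSubgroup : Set (Gal k)),
    (IntermediateField.fixingSubgroup_isOpen M).smul σ,
    ⟨1, one_mem _, by simp⟩, ?_⟩
  rintro _ ⟨τ, hτ, rfl⟩
  have hτ' : ∀ z ∈ M, τ z = z := (IntermediateField.mem_fixingSubgroup_iff M τ).1 hτ
  have e1 : (σ • τ : Gal k) x = σ x := congrArg σ (hτ' x hxM)
  show F ((σ • τ : Gal k) x) = F (σ x)
  rw [e1]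

private theorem cvq_congr {F : Type*} [Field F] {W : Affine F} {x x' y y' : F} (hx : x = x')
    (hy : y = y') (h1 : W.Nonsingular x y) (h2 : W.Nonsingular x' y') :
    Affine.Point.some x y h1 = Affine.Point.some x' y' h2 := by
  subst hx
  subst hy
  rfl

private theorem cvq_sgn {k : Type*} [Field k] [CharZero k] (a : k) (b : AlgebraicClosure k)
    (hab : algebraMap k (AlgebraicClosure k) a = b ^ 2) (σ : Gal k) : σ b = b ∨ σ b = -b := by
  refine sq_eq_sq_iff_eq_or_eq_neg.1 ?_
  rw [← map_pow, ← hab]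
  exact σ.commutes a

section

variable {k : Type*} [Field k] [CharZero k] {z d : k} (hd : d ≠ 0) (hz : z ^ 2 = -1)

/-- the cocycle of `a` -/
theorem exists_cocQ (a : k) (ha : a ≠ 0) :
    ∃ (c : Gal k → Pts (cq d) (AlgebraicClosure k)) (b : AlgebraicClosure k),
      c ∈ coc (cq d) ∧ (∀ σ, mu (isQ_bc hd hz (AlgebraicClosure k)) (c σ) = 0) ∧
      KD (d := d) c a b := by
  set h := isQ_bc hd hz (AlgebraicClosure k) with hh
  obtain ⟨b, hb⟩ : ∃ b : AlgebraicClosure k, b ^ 2 = algebraMap k (AlgebraicClosure k) a :=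
    IsAlgClosed.exists_pow_nat_eq _ (by norm_num)
  have hb0 : b ≠ 0 := by
    rintro rfl
    apply ha
    have h2 : algebraMap k (AlgebraicClosure k) a = 0 := by
      rw [← hb]
      norm_num
    rwa [map_eq_zero] at h2
  have hne : -b ≠ b := fun h => by
    have h2 : 2 * b = 0 := by linear_combination -h
    rcases mul_eq_zero.1 h2 with h3 | h3
    · exact two_ne_zero h3
    · exact hb0 h3
  set c : Gal k → Pts (cq d) (AlgebraicClosure k) := fun σ => if σ b = b then 0 else tq h with hc
  have hmu : ∀ σ, mu h (c σ) = 0 := by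
    intro σ
    rw [hc]
    dsimp only
    split_ifs
    · exact _root_.map_zero _
    · exact mu_tq h
  have hch : ∀ σ, ch (AlgebraicClosure k) (c σ) = if σ b = b then 1 else -1 := by
    intro σ
    rw [hc]
    dsimp only
    split_ifs
    · exact ch_zero
    · exact ch_tq h
  have hact : ∀ σ : Gal k, σ b = ch (AlgebraicClosure k) (c σ) * b := by
    intro σ
    rw [hch]
    split_ifs with h1
    · rw [h1, one_mul]
    · rcases cvq_sgn a b hb.symm σ with h2 | h2
      · exact absurd h2 h1
      · rw [h2, neg_one_mul]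
  refine ⟨c, b, ⟨?_, fun σ τ => ?_⟩, hmu, ⟨hb0, hb.symm, hact⟩⟩
  · exact cvq_lc b fun x => if x = b then 0 else tq h
  · have hτ : act (cq d) σ (c τ) = c τ := act_ker hd hz σ (c τ) (hmu τ)
    have hτ' : Affine.Point.map (σ : AlgebraicClosure k →ₐ[k] AlgebraicClosure k) (c τ) = c τ := hτ
    rw [hτ']
    refine ch_inj h (F' := AlgebraicClosure k) _ _ (hmu _) ?_ ?_
    · rw [_root_.map_add, hmu, hmu, add_zero]
    · rw [ch_add h _ _ (hmu _) (hmu _)]
      have h1 : (σ * τ) b = σ (τ b) := rfl
      apply mul_right_cancel₀ hb0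
      rw [← hact, h1, hact τ, map_mul, hact σ]
      have h2 : σ (ch (AlgebraicClosure k) (c τ)) = ch (AlgebraicClosure k) (c τ) := by
        rcases ch_cases (F' := AlgebraicClosure k) (c τ) with h3 | h3 <;> rw [h3]
        · exact map_one σ
        · rw [map_neg, map_one]
      rw [h2]
      ring

/-! ### the cocycle over an extension -/

section

variable (c : Gal k → Pts (cq d) (AlgebraicClosure k))
  (hmu : ∀ σ, mu (isQ_bc hd hz (AlgebraicClosure k)) (c σ) = 0) (a : k)
  (b : AlgebraicClosure k) (hk : KD c a b) {L : Type*} [Field L] [CharZero L] [Algebra k L]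

include hmu hk

/-- `a` is a square in `L` -/
theorem trivQ_of_sq (h : IsSquare (algebraMap k L a)) : c ∈ trivOver (cq d) L := by
  intro j
  refine ⟨0, fun σ τ hτ => ?_⟩
  have hja : ∀ x : k, j (algebraMap k (AlgebraicClosure k) x) =
      algebraMap L (AlgebraicClosure L) (algebraMap k L x) := by
    intro x
    rw [j.commutes, ← IsScalarTower.algebraMap_apply]
  have hc : c τ = 0 := by
    obtain ⟨s, hs⟩ := h
    have hb : j b ^ 2 = (algebraMap L (AlgebraicClosure L) s) ^ 2 := by
      rw [← map_pow, ← hk.sq, hja, hs, map_mul, sq]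
    have hfix : σ (j b) = j b := by
      rcases sq_eq_sq_iff_eq_or_eq_neg.1 hb with h | h
      · rw [h]
        exact σ.commutes s
      · rw [h, map_neg]
        exact congrArg _ (σ.commutes s)
    have hfix2 : τ b = b := j.injective ((hτ b).trans hfix)
    have hact := hk.act τ
    rw [hfix2] at hact
    have h3 : ch (AlgebraicClosure k) (c τ) = 1 := (mul_eq_right₀ hk.ne).1 hact.symm
    exact ch_eq_one _ h3
  rw [hc, _root_.map_zero, _root_.map_zero, sub_zero]

/-- the comparison of the cocycle with the coboundary of a point whose image is rational -/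
theorem trivQ_of_fn (j : AlgebraicClosure k →ₐ[k] AlgebraicClosure L)
    (S : Pts (cq d) (AlgebraicClosure L)) (f : AlgebraicClosure L) (hf0 : f ≠ 0)
    (hS : ∀ σ : Gal L, ∃ R : Pts (cq d) (AlgebraicClosure L),
      mu (isQ_bc hd hz (AlgebraicClosure L)) R = 0 ∧
      Affine.Point.map (W' := cq d)
        ((σ : AlgebraicClosure L →ₐ[L] AlgebraicClosure L).restrictScalars k) S = S + R ∧
      σ f = ch (AlgebraicClosure L) R * f)
    (κ : L) (hκ : (j b * f) ^ 2 = algebraMap L (AlgebraicClosure L) κ ^ 2)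
    (σ : Gal L) (τ : Gal k) (hτ : ∀ x, j (τ x) = σ (j x)) :
    Affine.Point.map j (c τ) =
      Affine.Point.map ((σ : AlgebraicClosure L →ₐ[L] _).restrictScalars k) S - S := by
  obtain ⟨R, hR0, hR, hf⟩ := hS σ
  have hj0 : mu (isQ_bc hd hz (AlgebraicClosure L)) (Affine.Point.map j (c τ)) = 0 := by
    rw [← mu_map hd hz, hmu, _root_.map_zero]
  have hbj : σ (j b) = ch (AlgebraicClosure L) (Affine.Point.map (W' := cq d) j (c τ)) * j b := by
    rw [← hτ, hk.act τ, map_mul, ch_map]
    congr 1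
    rcases ch_cases (F' := AlgebraicClosure k) (c τ) with h1 | h1
    · have h2 : c τ = 0 := by
        by_contra h3
        unfold ch at h1
        rw [if_neg h3] at h1
        exact two_ne_zero (α := AlgebraicClosure k) (by linear_combination -h1)
      rw [h1, h2, ch_zero, map_one]
    · have h2 : c τ ≠ 0 := by
        intro h3
        rw [h3, ch_zero] at h1
        exact two_ne_zero (α := AlgebraicClosure k) (by linear_combination h1)
      rw [h1, map_neg, map_one]
      unfold ch
      rw [if_neg h2]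
  have hfix : σ (j b * f) = j b * f := by
    rcases sq_eq_sq_iff_eq_or_eq_neg.1 hκ with h | h
    · rw [h]
      exact σ.commutes κ
    · rw [h, map_neg]
      exact congrArg _ (σ.commutes κ)
  rw [map_mul, hbj, hf] at hfix
  have hx0 : j b * f ≠ 0 := mul_ne_zero ((map_ne_zero j).2 hk.ne) hf0
  have hprod : ch (AlgebraicClosure L) (Affine.Point.map (W' := cq d) j (c τ)) *
      ch (AlgebraicClosure L) R = 1 := by
    apply mul_right_cancel₀ hx0
    linear_combination hfix
  have hch : ch (AlgebraicClosure L) (Affine.Point.map (W' := cq d) j (c τ)) =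
      ch (AlgebraicClosure L) R := by
    have h1 := ch_sq (F' := AlgebraicClosure L) R
    linear_combination (ch (AlgebraicClosure L) R) * hprod -
      (ch (AlgebraicClosure L) (Affine.Point.map (W' := cq d) j (c τ))) * h1
  have h2 := ch_inj (isQ_bc hd hz (AlgebraicClosure L)) (F' := AlgebraicClosure L) _ _ hj0 hR0 hch
  rw [h2, hR]
  abel

/-- `a` is the class of the point `(x, y)`, `x ≠ 0`, over `L` -/
theorem trivQ_of_pt (x y : L) (hxy : y ^ 2 = x ^ 3 - algebraMap k L d * x) (hx : x ≠ 0)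
    (h : IsSquare (algebraMap k L a * x)) : c ∈ trivOver (cq d) L := by
  intro j
  have hja : ∀ x : k, j (algebraMap k (AlgebraicClosure k) x) =
      algebraMap L (AlgebraicClosure L) (algebraMap k L x) := by
    intro x
    rw [j.commutes, ← IsScalarTower.algebraMap_apply]
  have hdd : algebraMap k (AlgebraicClosure L) d =
      algebraMap L (AlgebraicClosure L) (algebraMap k L d) := IsScalarTower.algebraMap_apply _ _ _ _
  set hA := isQ_bc hd hz (AlgebraicClosure L) with hAdef
  have hns : (Affine.baseChange (cq d) (AlgebraicClosure L)).Nonsingular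
      (algebraMap L (AlgebraicClosure L) x) (algebraMap L (AlgebraicClosure L) y) :=
    (hA.nons _ _).2 (by rw [hdd, ← map_pow, ← map_pow, ← map_mul, ← map_sub, hxy])
  obtain ⟨S, hS⟩ := exists_mu_closed hA (.some _ _ hns)
  have hne : mu hA S ≠ 0 := by
    rw [hS]
    exact Affine.Point.some_ne_zero _
  obtain ⟨κ, hκ⟩ := h
  have hcsq := cfn_sq hA S hns hS
  have hx' : algebraMap L (AlgebraicClosure L) x ≠ 0 := (map_ne_zero _).2 hx
  refine ⟨S, trivQ_of_fn hd hz c hmu a b hk j S (cfn (algebraMap k (AlgebraicClosure L) z) S) ?_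
    (fun σ => ?_) κ ?_⟩
  · intro h0
    rw [h0] at hcsq
    apply hx'
    rw [← hcsq]
    norm_num
  · have hfix : Affine.Point.map (W' := cq d)
        ((σ : AlgebraicClosure L →ₐ[L] AlgebraicClosure L).restrictScalars k) (.some _ _ hns) =
        .some _ _ hns := by
      rw [Affine.Point.map_some, Affine.Point.some.injEq]
      exact ⟨σ.commutes x, σ.commutes y⟩
    have hR0 : mu hA (Affine.Point.map (W' := cq d)
        ((σ : AlgebraicClosure L →ₐ[L] AlgebraicClosure L).restrictScalars k) S - S) = 0 := by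
      rw [_root_.map_sub, hAdef, ← mu_map hd hz, ← hAdef, hS, hfix, sub_self]
    refine ⟨_, hR0, by abel, ?_⟩
    have h1 : σ (cfn (algebraMap k (AlgebraicClosure L) z) S) =
        cfn (algebraMap k (AlgebraicClosure L) z) (Affine.Point.map (W' := cq d)
          ((σ : AlgebraicClosure L →ₐ[L] AlgebraicClosure L).restrictScalars k) S) :=
      (cfn_map ((σ : AlgebraicClosure L →ₐ[L] AlgebraicClosure L).restrictScalars k) S).symm
    rw [h1, ← cfn_add hA S _ hne hR0, add_sub_cancel]
  · rw [mul_pow, hcsq, ← map_pow, ← hk.sq, hja, ← map_mul, hκ, map_mul, sq]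

/-- `a` is the class of the point `(0, 0)` over `L` -/
theorem trivQ_of_tq (h : IsSquare (algebraMap k L (a * d))) : c ∈ trivOver (cq d) L := by
  intro j
  have hja : ∀ x : k, j (algebraMap k (AlgebraicClosure k) x) =
      algebraMap L (AlgebraicClosure L) (algebraMap k L x) := by
    intro x
    rw [j.commutes, ← IsScalarTower.algebraMap_apply]
  have hdd : algebraMap k (AlgebraicClosure L) d =
      algebraMap L (AlgebraicClosure L) (algebraMap k L d) := IsScalarTower.algebraMap_apply _ _ _ _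
  set hA := isQ_bc hd hz (AlgebraicClosure L) with hAdef
  obtain ⟨X, hX⟩ := IsAlgClosed.exists_pow_nat_eq (algebraMap k (AlgebraicClosure L) d) (n := 2)
    (by norm_num)
  have hX0 : X ≠ 0 := by
    rintro rfl
    apply hA.hd
    rw [← hX]
    ring
  have hns : (Affine.baseChange (cq d) (AlgebraicClosure L)).Nonsingular X 0 := (hA.nons _ _).2 (by
    rw [← hX]
    ring)
  obtain ⟨κ, hκ⟩ := h
  refine ⟨.some X 0 hns, trivQ_of_fn hd hz c hmu a b hk j (.some X 0 hns) X hX0 (fun σ => ?_) κ ?_⟩
  · obtain ⟨hn3, h4⟩ := add_tq hA hns hX0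
    have h1 : Affine.Point.map (W' := cq d)
        ((σ : AlgebraicClosure L →ₐ[L] AlgebraicClosure L).restrictScalars k) (.some X 0 hns) =
        Affine.Point.some (σ X) (σ 0) (by
          exact (Affine.baseChange_nonsingular (cq d)
            ((σ : AlgebraicClosure L →ₐ[L] AlgebraicClosure L).restrictScalars k).injective
              X 0).2 hns) := rfl
    have h2 : σ X = X ∨ σ X = -X := by
      refine sq_eq_sq_iff_eq_or_eq_neg.1 ?_
      rw [← map_pow, hX, hdd]
      exact σ.commutes _
    rcases h2 with h2 | h2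
    · refine ⟨0, _root_.map_zero _, h1.trans ?_, by rw [ch_zero, one_mul, h2]⟩
      rw [add_zero]
      exact cvq_congr h2 (map_zero σ) _ _
    · refine ⟨tq hA, mu_tq hA, h1.trans ?_, by rw [ch_tq, h2, neg_one_mul]⟩
      rw [h4]
      refine cvq_congr ?_ ?_ _ _
      · rw [h2, ← hX]
        field_simp
      · rw [map_zero, mul_zero, zero_div]
  · rw [mul_pow, hX, hdd, ← map_pow, ← hk.sq, hja, ← map_mul, ← map_mul, hκ, map_mul, sq]

end

end

/-! ### the local condition -/

section

variable {N : Type*} [Field N] [NumberField N] {d z : N} (hd : d ≠ 0) (hz : z ^ 2 = -1)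

/-- an element of the completion near `1` has a square root near `1` -/
theorem sqrt_near (v : HeightOneSpectrum (𝓞 N)) (t : v.adicCompletion N) (ht : Valued.v t < 1) :
    ∃ s : v.adicCompletion N, Valued.v s = Valued.v t ∧ (1 + 2 * s) ^ 2 = 1 + 4 * t := by
  obtain ⟨s, hs1, hs⟩ := Pool.Agent.Lib.MP_1a91b9_ntT.S9.hensel_small v (-t) 1 1 0 0
    (by rw [Valuation.map_neg]; exact ht) (map_one _) (by rw [map_one]) (by rw [map_zero]; exact zero_le)
    (by rw [map_zero]; exact zero_le)
  refine ⟨s, ?_, by linear_combination 4 * hs⟩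
  have h1 : Valued.v (1 + s) = (1 : ℤᵐ⁰) := Valuation.map_one_add_of_lt _ hs1
  have h2 : t = s * (1 + s) := by linear_combination -hs
  rw [h2, map_mul, h1, mul_one]

/-- the local condition makes the cocycle locally trivial -/
theorem trivQ_of_gloc (c : Gal N → Pts (cq d) (AlgebraicClosure N))
    (hmu : ∀ σ, mu (isQ_bc hd hz (AlgebraicClosure N)) (c σ) = 0) (a : N)
    (b : AlgebraicClosure N) (hk : KD c a b) (v : HeightOneSpectrum (𝓞 N))
    (h : GLoc4 (v.valuation N) d a) : c ∈ trivOver (cq d) (v.adicCompletion N) := by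
  have : CharZero (v.adicCompletion N) :=
    charZero_of_injective_algebraMap (algebraMap N (v.adicCompletion N)).injective
  have hval : ∀ x : N, Valued.v (algebraMap N (v.adicCompletion N) x) = v.valuation N x :=
    fun x => HeightOneSpectrum.valuedAdicCompletion_eq_valuation' v x
  have hint : ∀ n : ℕ, v.valuation N (n : N) ≤ 1 := by
    intro n
    have h5 := HeightOneSpectrum.valuation_le_one (K := N) v (n : 𝓞 N)
    have h6 : algebraMap (𝓞 N) N (n : 𝓞 N) = n := map_natCast _ n
    exact h6 ▸ h5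
  rcases h with h | h | ⟨x, hx0, hx, h⟩ | ⟨x, hx0, hx, h⟩
  · exact trivQ_of_sq hd hz c hmu a b hk (isSquare_of_Sq v _ h)
  · exact trivQ_of_tq hd hz c hmu a b hk (isSquare_of_Sq v _ h)
  · -- a point of order two
    have h40 : v.valuation N 4 ≠ 0 := (Valuation.ne_zero_iff _).2 (by norm_num)
    have h20 : v.valuation N 2 ≠ 0 := (Valuation.ne_zero_iff _).2 (by norm_num)
    have h21 : v.valuation N 2 ≤ 1 := by exact_mod_cast hint 2
    have h41 : v.valuation N 4 ≤ 1 := by exact_mod_cast hint 4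
    have h42 : v.valuation N 4 ≤ v.valuation N 2 := by
      have e : (4 : N) = 2 * 2 := by norm_num
      rw [e, map_mul]
      exact mul_le_of_le_one_right' h21
    have h16 : v.valuation N 16 = v.valuation N 4 * v.valuation N 4 := by
      rw [← map_mul]
      norm_num
    -- `x ^ 2 / d = 1 + 4 t`
    obtain ⟨t, ht⟩ : ∃ t : N, t = (x ^ 2 / d - 1) / 4 := ⟨_, rfl⟩
    have ht4 : v.valuation N t < v.valuation N 4 := by
      rw [ht, map_div₀, div_lt_iff₀ (zero_lt_iff.2 h40), ← h16]
      exact hx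
    obtain ⟨s, hs, hs2⟩ := sqrt_near v (algebraMap N (v.adicCompletion N) t)
      (by rw [hval]; exact ht4.trans_le h41)
    -- `s = 2 t'`
    obtain ⟨t', ht'⟩ : ∃ t' : v.adicCompletion N, t' = s / 2 := ⟨_, rfl⟩
    have h2v : Valued.v (2 : v.adicCompletion N) = v.valuation N 2 := by
      rw [← hval 2, map_ofNat (algebraMap N (v.adicCompletion N)) 2]
    have ht1 : Valued.v t' < (1 : ℤᵐ⁰) := by
      rw [ht', map_div₀, h2v, hs, hval, div_lt_one₀ (zero_lt_iff.2 h20)]
      exact ht4.trans_le h42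
    obtain ⟨r, -, hr2⟩ := sqrt_near v t' ht1
    have h22 : (2 : v.adicCompletion N) ≠ 0 := two_ne_zero
    have hw : 1 + 2 * s = (1 + 2 * r) ^ 2 := by
      rw [hr2, ht']
      field_simp
      ring
    have hw0 : 1 + 2 * s ≠ 0 := by
      intro h0
      rw [h0] at hs2
      have h5 : v.valuation N (x ^ 2 / d) = 0 := by
        have h6 : algebraMap N (v.adicCompletion N) (x ^ 2 / d) = 0 := by
          have e : x ^ 2 / d = 1 + 4 * t := by
            rw [ht]
            field_simp
            ring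
          rw [e, map_add, map_mul, map_one, map_ofNat, ← hs2]
          norm_num
        rw [← hval, h6, map_zero]
      rw [Valuation.zero_iff] at h5
      exact div_ne_zero (pow_ne_zero 2 hx0) hd h5
    have hr0 : 1 + 2 * r ≠ 0 := by
      intro h0
      rw [h0] at hw
      apply hw0
      rw [hw]
      norm_num
    have hd2 : algebraMap N (v.adicCompletion N) d * (1 + 2 * s) ^ 2 =
        algebraMap N (v.adicCompletion N) x ^ 2 := by
      rw [hs2, ← map_pow]
      have e : x ^ 2 = d * (1 + 4 * t) := by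
        rw [ht]
        field_simp
        ring
      rw [e, map_mul, map_add, map_mul, map_one, map_ofNat]
    obtain ⟨κ, hκ⟩ := isSquare_of_Sq v _ h
    refine trivQ_of_pt hd hz c hmu a b hk (algebraMap N (v.adicCompletion N) x / (1 + 2 * s)) 0 ?_
      (div_ne_zero ((map_ne_zero _).2 hx0) hw0) ⟨κ / (1 + 2 * r), ?_⟩
    · have e : (algebraMap N (v.adicCompletion N) x / (1 + 2 * s)) ^ 2 =
          algebraMap N (v.adicCompletion N) d := by
        rw [div_pow, ← hd2, mul_div_cancel_right₀ _ (pow_ne_zero 2 hw0)]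
      linear_combination -(algebraMap N (v.adicCompletion N) x / (1 + 2 * s)) * e
    · rw [div_mul_div_comm, ← hκ, map_mul, hw, mul_div_assoc, sq]
  · obtain ⟨y, hy⟩ := isSquare_of_Sq v _ hx
    refine trivQ_of_pt hd hz c hmu a b hk (algebraMap N (v.adicCompletion N) x) y ?_
      ((map_ne_zero _).2 hx0) ?_
    · rw [← map_pow, ← map_mul, ← map_sub]
      have e : x ^ 3 - d * x = x * (x ^ 2 - d) := by ring
      rw [e, hy, sq]
    · rw [← map_mul]
      exact isSquare_of_Sq v _ h

/-! ### the converse -/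

theorem card_ker_mu {F : Type*} [Field F] [CharZero F] {W : Affine F} {z d : F} (h : IsQ W z d) :
    Nat.card (mu h).ker = 2 := by
  have hs : ((mu h).ker : Set W.Point) = {0, tq h} := by
    ext P
    simp only [SetLike.mem_coe, AddMonoidHom.mem_ker, Set.mem_insert_iff, Set.mem_singleton_iff]
    constructor
    · exact mu_ker_all h P
    · rintro (rfl | rfl)
      · exact _root_.map_zero _
      · exact mu_tq h
  have h1 : Nat.card (mu h).ker = ((mu h).ker : Set W.Point).ncard := rfl
  rw [h1, hs, Set.ncard_pair (tq_ne h).symm]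

/-- a finite group of points: every point is `mu Q` or `P₀ + mu Q` -/
theorem half_mu {F : Type*} [Field F] [CharZero F] {W : Affine F} {z d : F} (h : IsQ W z d)
    (hfin : Finite W.Point) (P₀ : W.Point) (h₀ : P₀ ∉ (mu h).range) (P : W.Point) :
    ∃ T Q : W.Point, (T = 0 ∨ T = P₀) ∧ P = T + mu h Q := by
  have hidx : (mu h).range.index = 2 := by
    have h1 := (mu h).ker.card_mul_index
    have h2 : (mu h).ker.index = Nat.card (mu h).range := AddSubgroup.index_ker (mu h)
    have h3 := (mu h).range.card_mul_index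
    rw [card_ker_mu h, h2, ← h3, mul_comm] at h1
    have h4 : 0 < Nat.card (mu h).range := Nat.card_pos
    exact (Nat.eq_of_mul_eq_mul_left h4 h1).symm
  by_cases hP : P ∈ (mu h).range
  · obtain ⟨Q, rfl⟩ := hP
    exact ⟨0, Q, Or.inl rfl, (zero_add _).symm⟩
  · have h1 : P + -P₀ ∈ (mu h).range := by
      rw [AddSubgroup.add_mem_iff_of_index_two hidx]
      exact ⟨fun h => absurd h hP, fun h => absurd (neg_mem_iff.1 h) h₀⟩
    obtain ⟨Q, hQ⟩ := h1
    refine ⟨P₀, Q, Or.inr rfl, ?_⟩
    rw [hQ]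
    abel

theorem tq_notMem {F : Type*} [Field F] [CharZero F] {W : Affine F} {z d : F} (h : IsQ W z d)
    (hnd : ¬ IsSquare d) : tq h ∉ (mu h).range := by
  rintro ⟨Q, hQ⟩
  obtain ⟨x, y, hn, rfl, hx0⟩ := mu_ne_cases h Q (by
    rw [hQ]
    exact tq_ne h)
  obtain ⟨x', y', hn', h1, h2⟩ := mu_x h hn hx0
  rw [h1] at hQ
  have h3 : x' = 0 := (Affine.Point.some.inj hQ).1
  rw [h3, eq_comm, div_eq_zero_iff] at h2
  rcases h2 with h4 | h4
  · apply hnd
    refine ⟨x, ?_⟩
    have h5 := (mul_eq_zero.1 h4).resolve_left h.z0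
    linear_combination -h5
  · exact mul_ne_zero two_ne_zero hx0 h4

theorem pt_notMem {F : Type*} [Field F] [CharZero F] {W : Affine F} {z d : F} (h : IsQ W z d)
    {x₀ y₀ : F} (hn₀ : W.Nonsingular x₀ y₀) (hx₀ : ¬ IsSquare x₀) :
    Affine.Point.some x₀ y₀ hn₀ ∉ (mu h).range := by
  rintro ⟨Q, hQ⟩
  obtain ⟨x, y, hn, rfl, hx0⟩ := mu_ne_cases h Q (by
    rw [hQ]
    exact Affine.Point.some_ne_zero _)
  obtain ⟨x', y', hn', h1, h2, -⟩ := mu_some h hn hx0
  rw [h1] at hQ
  have h3 : x' = x₀ := (Affine.Point.some.inj hQ).1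
  apply hx₀
  rw [← h3, h2]
  exact ⟨_, sq _⟩

section

variable (c : Gal N → Pts (cq d) (AlgebraicClosure N))
  (hmu : ∀ σ, mu (isQ_bc hd hz (AlgebraicClosure N)) (c σ) = 0) (a : N)
  (b : AlgebraicClosure N) (hk : KD c a b) (R : Pts (cq d) (AlgebraicClosure N))
  (hR : ∀ σ, c σ = act (cq d) σ R - R)

include hk hR

/-- the coboundary of a point of the kernel -/
theorem sq_of_mu_zero (h : mu (isQ_bc hd hz (AlgebraicClosure N)) R = 0) : IsSquare a := by
  have hfix : ∀ σ : Gal N, σ b = b := by
    intro σ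
    have h1 : c σ = 0 := by
      rw [hR σ, act_ker hd hz σ R h, sub_self]
    rw [hk.act σ, h1, ch_zero, one_mul]
  obtain ⟨β, hβ⟩ := Pool.Agent.Lib.MP_1a91b9_ntT.S9.fixed_elem (k := N) b hfix
  refine ⟨β, (algebraMap N (AlgebraicClosure N)).injective ?_⟩
  rw [map_mul, hβ, hk.sq, sq]

include hmu

/-- the coboundary of a point `R` with `mu R = (x₀, y₀)` -/
theorem sq_of_mu_pt {x₀ y₀ : N} (h₀ : (Affine.baseChange (cq d) N).Nonsingular x₀ y₀)
    (h : mu (isQ_bc hd hz (AlgebraicClosure N)) R =
      up (cq d) N (AlgebraicClosure N) (Affine.Point.some x₀ y₀ h₀)) : IsSquare (a * x₀) := by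
  set hA := isQ_bc hd hz (AlgebraicClosure N) with hAdef
  obtain ⟨hn2, hUV⟩ : ∃ hn2, up (cq d) N (AlgebraicClosure N) (Affine.Point.some x₀ y₀ h₀) =
    Affine.Point.some (algebraMap N (AlgebraicClosure N) x₀)
      (algebraMap N (AlgebraicClosure N) y₀) hn2 := ⟨_, rfl⟩
  rw [hUV] at h
  have hne : mu hA R ≠ 0 := by
    rw [h]
    exact Affine.Point.some_ne_zero _
  have hfix : ∀ σ : Gal N, σ (b * cfn (algebraMap N (AlgebraicClosure N) z) R) =
      b * cfn (algebraMap N (AlgebraicClosure N) z) R := by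
    intro σ
    have h1 : σ (cfn (algebraMap N (AlgebraicClosure N) z) R) =
        cfn (algebraMap N (AlgebraicClosure N) z) (act (cq d) σ R) :=
      (cfn_map (σ : AlgebraicClosure N →ₐ[N] AlgebraicClosure N) R).symm
    have h2 : act (cq d) σ R = R + c σ := by
      rw [hR σ]
      abel
    rw [map_mul, h1, h2, cfn_add hA R (c σ) hne (hmu σ), hk.act σ]
    linear_combination (b * cfn (algebraMap N (AlgebraicClosure N) z) R) *
      ch_sq (F' := AlgebraicClosure N) (c σ)
  obtain ⟨β, hβ⟩ := Pool.Agent.Lib.MP_1a91b9_ntT.S9.fixed_elem (k := N) _ hfix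
  refine ⟨β, (algebraMap N (AlgebraicClosure N)).injective ?_⟩
  rw [map_mul, map_mul, hβ, hk.sq, ← cfn_sq hA R hn2 h]
  ring

/-- the coboundary of a point `R` with `mu R = (0, 0)` -/
theorem sq_of_mu_tq (h : mu (isQ_bc hd hz (AlgebraicClosure N)) R =
    tq (isQ_bc hd hz (AlgebraicClosure N))) : IsSquare (a * d) := by
  set hA := isQ_bc hd hz (AlgebraicClosure N) with hAdef
  obtain ⟨X, Y, hXY, hRX, hX0⟩ := mu_ne_cases hA R (by
    rw [h]
    exact tq_ne hA)
  subst hRX
  obtain ⟨x', y', hn', h1, h2⟩ := mu_x hA hXY hX0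
  rw [h1] at h
  have h3 : x' = 0 := (Affine.Point.some.inj h).1
  have hX2 : X ^ 2 = algebraMap N (AlgebraicClosure N) d := by
    rw [h3, eq_comm, div_eq_zero_iff] at h2
    rcases h2 with h4 | h4
    · exact sub_eq_zero.1 ((mul_eq_zero.1 h4).resolve_left hA.z0)
    · exact absurd h4 (mul_ne_zero two_ne_zero hX0)
  have hY : Y = 0 := by
    have h4 := (hA.nons X Y).1 hXY
    refine (pow_eq_zero_iff two_ne_zero).1 ?_
    rw [h4, ← hX2]
    ring
  subst hY
  have hfix : ∀ σ : Gal N, σ (b * X) = b * X := by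
    intro σ
    have h5 : act (cq d) σ (.some X 0 hXY) = Affine.Point.some (σ X) (σ 0) (by
      exact (Affine.baseChange_nonsingular (cq d)
        (σ : AlgebraicClosure N →ₐ[N] AlgebraicClosure N).injective X 0).2 hXY) := rfl
    have h6 := hR σ
    rw [eq_sub_iff_add_eq, h5] at h6
    rw [map_mul, hk.act σ]
    rcases mu_ker_all hA (c σ) (hmu σ) with h7 | h7
    · rw [h7, zero_add] at h6
      rw [h7, ch_zero, one_mul, ← (Affine.Point.some.inj h6).1]
    · obtain ⟨hn3, h8⟩ := add_tq hA hXY hX0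
      rw [h7, add_comm, h8] at h6
      have h9 : σ X = -X := by
        rw [← (Affine.Point.some.inj h6).1, ← hX2]
        field_simp
      rw [h7, ch_tq, h9]
      ring
  obtain ⟨β, hβ⟩ := Pool.Agent.Lib.MP_1a91b9_ntT.S9.fixed_elem (k := N) _ hfix
  refine ⟨β, (algebraMap N (AlgebraicClosure N)).injective ?_⟩
  rw [map_mul, map_mul, hβ, ← hX2, hk.sq]
  ring

end

include hd hz in
/-- the common part of the two converses -/
theorem conv_core (hinf : ∀ v : InfinitePlace N, v.IsComplex) (a : N)
    (ha : a ≠ 0) (hloc : ∀ v : HeightOneSpectrum (𝓞 N), GLoc4 (v.valuation N) d a)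
    (hfin : Finite (cq d).toAffine.Point) (hcard : Nat.card (ShaP 2 (cq d)) = 1)
    (P₀ : Pts (cq d) N) (h₀ : P₀ ∉ (mu (isQ_bc hd hz N)).range) :
    ∃ (c : Gal N → Pts (cq d) (AlgebraicClosure N)) (b : AlgebraicClosure N)
      (R : Pts (cq d) (AlgebraicClosure N)),
      (∀ σ, mu (isQ_bc hd hz (AlgebraicClosure N)) (c σ) = 0) ∧ KD (d := d) c a b ∧
      (∀ σ, c σ = act (cq d) σ R - R) ∧
      (mu (isQ_bc hd hz (AlgebraicClosure N)) R = 0 ∨
        mu (isQ_bc hd hz (AlgebraicClosure N)) R = up (cq d) N (AlgebraicClosure N) P₀) := by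
  obtain ⟨c, b, hc, hmu, hk⟩ := exists_cocQ hd hz a ha
  set hA := isQ_bc hd hz (AlgebraicClosure N) with hAdef
  have hc2 : ∀ σ, c σ + c σ = 0 := by
    intro σ
    rcases mu_ker_all hA (c σ) (hmu σ) with h | h
    · rw [h, add_zero]
    · rw [h, tq_add_self]
  have hsha : c ∈ shaCoc (cq d) := by
    refine ⟨⟨hc, ?_⟩, ?_⟩
    · exact AddSubgroup.mem_iInf.2 fun v => trivQ_of_gloc hd hz c hmu a b hk v (hloc v)
    · refine AddSubgroup.mem_iInf.2 fun v => ?_
      have : CharZero v.Completion :=
        charZero_of_injective_algebraMap (algebraMap N v.Completion).injective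
      refine trivQ_of_sq hd hz c hmu a b hk ?_
      let e := InfinitePlace.Completion.ringEquivComplexOfIsComplex (hinf v)
      obtain ⟨y, hy⟩ := IsAlgClosed.exists_pow_nat_eq (e (algebraMap N v.Completion a))
        (n := 2) (by norm_num)
      refine ⟨e.symm y, e.injective ?_⟩
      rw [map_mul, e.apply_symm_apply, ← hy, sq]
  -- the class is zero
  have hcob : c ∈ cob (cq d) := by
    have hx : ∀ x : AddCommGroup.primaryComponent (Sha (cq d)) 2, x = 0 := by
      intro x
      have h1 := (Nat.card_eq_one_iff_unique.1 hcard).1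
      exact Subsingleton.elim _ _
    let y : Sha (cq d) := QuotientAddGroup.mk (⟨c, hsha⟩ : shaCoc (cq d))
    have hy : 2 ^ 1 • y = 0 := by
      rw [pow_one, two_smul]
      show (QuotientAddGroup.mk ((⟨c, hsha⟩ : shaCoc (cq d)) + ⟨c, hsha⟩) : Sha (cq d)) = 0
      rw [QuotientAddGroup.eq_zero_iff, AddSubgroup.mem_addSubgroupOf]
      refine ⟨0, fun σ => ?_⟩
      rw [_root_.map_zero, sub_zero]
      exact hc2 σ
    have h3 := congrArg Subtype.val (hx ⟨y, 1, hy⟩)
    have h4 : (QuotientAddGroup.mk (⟨c, hsha⟩ : shaCoc (cq d)) : Sha (cq d)) = 0 := h3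
    rw [QuotientAddGroup.eq_zero_iff, AddSubgroup.mem_addSubgroupOf] at h4
    exact h4
  obtain ⟨R, hR⟩ := hcob
  have hR' : ∀ σ, c σ = act (cq d) σ R - R := hR
  -- the point `mu R` comes from `N`
  obtain ⟨P, hP⟩ := Pool.Agent.Lib.MP_1a91b9_ntT.S9.fixed_pt (L := N) (cq d) (mu hA R) fun σ => by
    have h1 : Affine.Point.map ((σ : AlgebraicClosure N →ₐ[N] AlgebraicClosure N).restrictScalars N)
        (mu hA R) = act (cq d) σ (mu hA R) := rfl
    rw [h1, act_mu hd hz]
    have h3 := hmu σ
    rw [hR' σ, _root_.map_sub, sub_eq_zero] at h3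
    exact h3
  have h0 := isQ_bc hd hz N
  have hfin' : Finite (Affine.baseChange (cq d) N).Point := by
    have e : (Affine.baseChange (cq d) N) = (cq d).toAffine := h0.eq
    rw [e]
    exact hfin
  obtain ⟨T, Q, hT, hPQ⟩ := half_mu h0 hfin' P₀ h₀ P
  have hup : ∀ (σ : Gal N) (P : Pts (cq d) N),
      act (cq d) σ (up (cq d) N (AlgebraicClosure N) P) = up (cq d) N (AlgebraicClosure N) P := by
    intro σ P
    show Affine.Point.map _ (Affine.Point.map _ _) = _
    rw [Affine.Point.map_map]
    have hcomp : (σ : AlgebraicClosure N →ₐ[N] AlgebraicClosure N).comp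
        (IsScalarTower.toAlgHom N N (AlgebraicClosure N)) =
        IsScalarTower.toAlgHom N N (AlgebraicClosure N) := AlgHom.ext fun x => σ.commutes x
    rw [hcomp]
  have hmuup : ∀ P : Pts (cq d) N, up (cq d) N (AlgebraicClosure N) (mu h0 P) =
      mu hA (up (cq d) N (AlgebraicClosure N) P) := fun P =>
    mu_map hd hz (IsScalarTower.toAlgHom N N (AlgebraicClosure N)) P
  refine ⟨c, b, R - up (cq d) N (AlgebraicClosure N) Q, hmu, hk, fun σ => ?_, ?_⟩
  · rw [_root_.map_sub, hup, hR' σ]
    abel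
  · have hR2 : mu hA (R - up (cq d) N (AlgebraicClosure N) Q) =
        up (cq d) N (AlgebraicClosure N) T := by
      rw [_root_.map_sub, ← hmuup, ← hP, hPQ, _root_.map_add]
      abel
    rcases hT with rfl | rfl
    · left
      rw [hR2, _root_.map_zero]
    · right
      exact hR2

include hd hz in
/-- **The converse of the descent by `1 - i`.** `a` is a Selmer element, and neither `a` nor `a d` is a
square; the number `d` is not a square. If `W(N)` is finite, the 2-primary part of the
Tate-Shafarevich group of `W : y² = x³ - d x` is not trivial. -/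
theorem conv_selQ (hinf : ∀ v : InfinitePlace N, v.IsComplex) (hnd : ¬ IsSquare d) (a : N)
    (ha : a ≠ 0) (hloc : ∀ v : HeightOneSpectrum (𝓞 N), GLoc4 (v.valuation N) d a)
    (hna : ¬ IsSquare a) (hnad : ¬ IsSquare (a * d)) {W : WeierstrassCurve N} (hW : W = cq d)
    (hfin : Finite W.toAffine.Point) : Nat.card (ShaP 2 W) ≠ 1 := by
  subst hW
  intro hcard
  have hnd' : ¬ IsSquare (algebraMap N N d) := hnd
  obtain ⟨c, b, R, hmu, hk, hR, h1 | h1⟩ := conv_core hd hz hinf a ha hloc hfin hcard
    (tq (isQ_bc hd hz N)) (tq_notMem (isQ_bc hd hz N) hnd')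
  · exact hna (sq_of_mu_zero hd hz c a b hk R hR h1)
  · refine hnad (sq_of_mu_tq hd hz c hmu a b hk R hR ?_)
    rw [h1]
    exact tq_map hd hz (IsScalarTower.toAlgHom N N (AlgebraicClosure N))

include hd hz in
/-- **The converse of the descent by `1 - i`**, with a point `(x₀, y₀)` of `W(N)` such that `x₀` is not
a square: neither `a` nor `a x₀` is a square. -/
theorem conv_selP (hinf : ∀ v : InfinitePlace N, v.IsComplex) {x₀ y₀ : N}
    (h₀ : y₀ ^ 2 = x₀ ^ 3 - d * x₀) (hx₀ : ¬ IsSquare x₀) (a : N)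
    (ha : a ≠ 0) (hloc : ∀ v : HeightOneSpectrum (𝓞 N), GLoc4 (v.valuation N) d a)
    (hna : ¬ IsSquare a) (hnax : ¬ IsSquare (a * x₀)) {W : WeierstrassCurve N} (hW : W = cq d)
    (hfin : Finite W.toAffine.Point) : Nat.card (ShaP 2 W) ≠ 1 := by
  subst hW
  intro hcard
  have hn₀ : (Affine.baseChange (cq d) N).Nonsingular x₀ y₀ := ((isQ_bc hd hz N).nons _ _).2 h₀
  obtain ⟨c, b, R, hmu, hk, hR, h1 | h1⟩ := conv_core hd hz hinf a ha hloc hfin hcard
    (.some x₀ y₀ hn₀) (pt_notMem (isQ_bc hd hz N) hn₀ hx₀)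
  · exact hna (sq_of_mu_zero hd hz c a b hk R hR h1)
  · exact hnax (sq_of_mu_pt hd hz c hmu a b hk R hR hn₀ h1)

end

end Pool.Agent.Lib.MP_1a91b9_ntQ.C
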