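import Pool.Agent.Lib.MP_1a91b9_ntQ.C.SelC5
import Pool.Agent.Lib.MP_1a91b9_ntQ.C.ConvQ
import Pool.Agent.Lib.MP_1a91b9_ntQ.C.Pts5

/-!
# MP_1a91b9_nt (`y² = x³ - δ² x`), the converse of the descent by `1 - i`

`gd5_of_sha`: if `W(K)` is finite and the 2-primary part of the Tate-Shafarevich group is trivial, the
matrices of `δ = i ^ k lam ^ j ∏ q` are good.
-/

set_option autoImplicit false
set_option linter.unusedSectionVars false
set_option linter.unusedVariables false

namespace Pool.Agent.Lib.MP_1a91b9_ntQ.C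

open NumberField Finset WithZero IsDedekindDomain WeierstrassCurve Pool.Agent.Lib.MP_1a91b9_nuT
open Pool.Agent.Lib.MP_1a91b9_ntQ
open Pool.Agent.Lib.MP_1a91b9_ntH.C (Sq exists_nu isSquare_exp nu_one)
open Pool.Agent.Lib.MP_1a91b9_ntT3.S9 (ShaP)

noncomputable section

/-- a vector is the restriction of a function -/
private theorem ext_vec {S : Finset Pg} (v : S → ZMod 2) : ∃ f : Pg → ZMod 2, v = fun p : S => f p := by
  classical
  refine ⟨fun q => if h : q ∈ S then v ⟨q, h⟩ else 0, funext fun p => ?_⟩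
  show v p = if h : (p : Pg) ∈ S then v ⟨p, h⟩ else 0
  rw [dif_pos p.2]

/-- the sum of the rows -/
theorem sum_row5 (k l : ZMod 2) (S : Finset Pg) (f : Pg → ZMod 2) :
    ∑ q ∈ S, row5 k l S f q = ∑ q ∈ S, f q * (k * aa q.1 + l * bb q.1) := by
  unfold row5
  rw [sum_add_distrib]
  have h1 : ∑ q ∈ S, ∑ p ∈ S.erase q, (f p + f q) * s4 q p = 0 := by
    obtain ⟨g, hg⟩ : ∃ g : Pg → Pg → ZMod 2, g = fun q p => if p = q then 0 else
      (f p + f q) * s4 q p := ⟨_, rfl⟩
    have h2 : ∀ q ∈ S, ∑ p ∈ S.erase q, (f p + f q) * s4 q p = ∑ p ∈ S, g q p := by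
      intro q hq
      rw [← sum_erase S (a := q) (by rw [hg]; exact if_pos rfl)]
      refine sum_congr rfl fun p hp => ?_
      rw [hg]
      exact (if_neg (ne_of_mem_erase hp)).symm
    rw [sum_congr rfl h2]
    refine Pool.Agent.Lib.MP_1a91b9_ntQ.D.sum_symm_zero S g (fun q => ?_) fun q p => ?_
    · rw [hg]
      exact if_pos rfl
    · rw [hg]
      by_cases h : p = q
      · rw [h]
      · show (if p = q then _ else _) = (if q = p then _ else _)
        rw [if_neg h, if_neg (Ne.symm h), s4_symm (Ne.symm h), add_comm (f p)]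
  rw [h1, add_zero]

/-- the number `δ` is not a square -/
theorem dk5_not_sq {k : ZMod 4} {l : ZMod 2} {S : Finset Pg} (h : ¬ (md k = 0 ∧ l = 0 ∧ S = ∅)) :
    ¬ IsSquare (dk k l S : K) := by
  intro h1
  obtain ⟨m, hm, h2⟩ := dk_gp4 k l S
  have e : (dk k l S : K) = (m : K) ^ 2 * (gp4 S (md k) l (fun _ => 1) : K) := by
    rw [h2]
    push_cast
    rfl
  rw [e] at h1
  obtain ⟨g1, g2, g3⟩ := gp4_sq (coe_ne hm) h1
  refine h ⟨g1, g2, ?_⟩
  by_contra h3
  obtain ⟨q, hq⟩ := nonempty_iff_ne_empty.2 h3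
  exact one_ne_zero (g3 q hq)

private theorem complex_K4 (v : InfinitePlace K) : v.IsComplex := by
  rw [← InfinitePlace.not_isReal_iff_isComplex]
  intro h
  have h3 := congrArg (InfinitePlace.embedding_of_isReal h) iK_sq'
  rw [map_pow, map_neg, map_one] at h3
  nlinarith [sq_nonneg (InfinitePlace.embedding_of_isReal h (iO : K))]

/-- a Selmer element outside the classes of the points of order `2` -/
theorem sha5_ne {k : ZMod 4} {l : ZMod 2} {S : Finset Pg} (h : ¬ (md k = 0 ∧ l = 0 ∧ S = ∅))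
    {e : ZMod 2} {V : Pg → ZMod 2}
    (hrow : ∀ q ∈ S, e * aa q.1 + row5 (md k) l S V q = 0)
    (hlam : GLoc4 nuL ((dk k l S : K) ^ 2) (gp4 S e 0 V : K))
    (h0 : ¬ (e = 0 ∧ ∀ q ∈ S, V q = 0)) (h1 : ¬ (e = md k ∧ l = 0 ∧ ∀ q ∈ S, V q = 1))
    {W : WeierstrassCurve K4} (hW : W = cq ((dk k l S : K4) ^ 2))
    (hfin : Finite W.toAffine.Point) : Nat.card (ShaP 2 W) ≠ 1 := by
  obtain ⟨g0, g1⟩ := gp4_not_sq h0 h1
  refine conv_selP (pow_ne_zero 2 (coe_ne (dk_ne k l S))) iK_sq' ?_ (x₀ := (dk k l S : K4)) (y₀ := 0)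
    ?_ (dk5_not_sq h) _ (coe_ne (gp4_ne S e 0 V)) (gloc5_all hrow hlam) g0 g1 hW hfin
  · exact complex_K4
  · ring

/-- **The converse of the descent**: the good matrices. -/
theorem gd5_of_sha (k : ZMod 4) (j : Fin 2) (S : Finset Pg) (h : ¬ (md k = 0 ∧ j = 0 ∧ S = ∅))
    {δ : 𝓞 K4} (hδ : δ = iO ^ k.val * lam ^ (j : ℕ) * DDq S) {W : WeierstrassCurve K4}
    (hW : W = cq ((δ : K4) ^ 2)) (hfin : Finite W.toAffine.Point)
    (hcard : Nat.card (ShaP 2 W) = 1) : Gd5 k j S := by
  have hj : ∀ j : Fin 2, j = 0 ∨ j = 1 := by decide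
  have h01 : ∀ t : ZMod 2, t = 0 ∨ t = 1 := by decide
  have hz : ∀ x : ZMod 2, x ≠ 0 → x = 1 := by decide
  have e2 : ∀ x y : ZMod 2, x + y = 0 → x = y := by decide
  rcases hj j with rfl | rfl
  · have hD' : δ = dk k 0 S := hδ
    subst hD'
    refine ⟨fun hk => ?_, fun hk _ hA => ?_, fun hk _ hA => ?_⟩
    · -- `k` odd
      have hk1 : md k = 1 := hk.resolve_right (by decide)
      by_contra hdet
      obtain ⟨v, hv0, hv⟩ := Matrix.exists_mulVec_eq_zero_iff.2 hdet
      obtain ⟨f, rfl⟩ := ext_vec v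
      have hrow : ∀ q ∈ S, row5 (md k) 0 S f q = 0 := by
        intro q hq
        have h1 := congrFun hv ⟨q, hq⟩
        rw [N4_row (c := md k) (l := fun q => jj 0 * bb q.1) (fun q _ => rfl), Pi.zero_apply] at h1
        refine Eq.trans ?_ h1
        have e : jj 0 = 0 := if_neg (by decide)
        rw [e]
        unfold rowN row5
        ring
      have hne : ¬ ∀ q ∈ S, f q = 0 := fun h1 => hv0 (funext fun q => h1 q q.2)
      refine sha5_ne (l := 0) (e := 0) (fun h1 => ?_) (fun q hq => ?_) (lam5_C4 ?_)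
        (fun h1 => hne h1.2) (fun h1 => ?_) hW hfin hcard
      · rw [hk1] at h1
        exact one_ne_zero h1.1
      · rw [zero_mul, zero_add, hrow q hq]
      · have h2 := sum_row5 (md k) 0 S f
        rw [sum_eq_zero hrow, hk1] at h2
        rw [h2]
        refine sum_congr rfl fun q _ => ?_
        ring
      · rw [hk1] at h1
        exact zero_ne_one h1.1
    · -- `k` even, `∑ aa q = 1`
      refine ⟨nonempty_iff_ne_empty.2 fun h1 => ?_, fun v hv => ?_⟩
      · rw [h1, sum_empty] at hA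
        exact zero_ne_one hA
      obtain ⟨f, rfl⟩ := ext_vec v
      by_contra hc
      push Not at hc
      have hrow : ∀ q ∈ S, row5 (md k) 0 S f q = 0 := by
        intro q hq
        have h1 := congrFun hv ⟨q, hq⟩
        rw [N4_row (c := 0) (l := fun _ => 0) (fun q _ => by rw [Pi.zero_apply, zero_mul,
          add_zero]), Pi.zero_apply, mul_zero, add_zero] at h1
        rw [hk, row5_zero, h1]
      have hne : ∀ t : ZMod 2, ¬ ∀ q ∈ S, f q = t := fun t h1 => by
        obtain ⟨q, hq⟩ := hc t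
        exact hq (h1 q q.2)
      have hlam : GLoc4 nuL ((dk k 0 S : K) ^ 2) (gp4 S 0 0 f : K) := by
        rcases h01 (∑ q ∈ S, f q * aa q.1) with h2 | h2
        · exact lam5_C4 h2
        · refine lam5_C4' hk ?_
          have e : ∑ q ∈ S, (f q + 1) * aa q.1 = ∑ q ∈ S, f q * aa q.1 + ∑ q ∈ S, aa q.1 := by
            rw [← sum_add_distrib]
            exact sum_congr rfl fun q _ => by ring
          rw [e, h2, hA]
          rfl
      refine sha5_ne (l := 0) (e := 0) (fun h1 => ?_) (fun q hq => ?_) hlam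
        (fun h1 => hne 0 h1.2) (fun h1 => hne 1 h1.2.2) hW hfin hcard
      · rw [h1.2.2, sum_empty] at hA
        exact zero_ne_one hA
      · rw [zero_mul, zero_add, hrow q hq]
    · -- `k` even, `∑ aa q = 0`
      have hS : S ≠ ∅ := fun h1 => h ⟨hk, rfl, h1⟩
      refine ⟨nonempty_iff_ne_empty.2 hS, fun v hv => ?_⟩
      obtain ⟨f, hf⟩ := ext_vec (fun q : S => v (Sum.inl q))
      obtain ⟨s, hs⟩ : ∃ s : ZMod 2, s = v (Sum.inr ()) := ⟨_, rfl⟩
      have hve : v = Sum.elim (fun p : S => f p) fun _ : Unit => s := by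
        ext y
        rcases y with q | ⟨⟩
        · exact congrFun hf q
        · exact hs.symm
      rw [hve] at hv ⊢
      have hrow : ∀ q ∈ S, s * aa q.1 + row5 (md k) 0 S f q = 0 := by
        intro q hq
        have h1 := congrFun hv (Sum.inl ⟨q, hq⟩)
        rw [B4_row (c := 0) (l := fun _ => 0) (fun q _ => by rw [Pi.zero_apply, zero_mul,
          add_zero]), Pi.zero_apply, mul_zero, add_zero] at h1
        rw [hk, row5_zero, add_comm]
        exact h1
      have hlast : ∑ q ∈ S, f q * aa q.1 + s * ∑ q ∈ S, bb q.1 = 0 := by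
        have h1 := congrFun hv (Sum.inr ())
        rwa [B4_last, Pi.zero_apply] at h1
      by_contra hc
      have hne : ∀ t : ZMod 2, ¬ (s = 0 ∧ ∀ q ∈ S, f q = t) := fun t h1 =>
        hc ⟨t, fun q => h1.2 q q.2, h1.1⟩
      have hlam : GLoc4 nuL ((dk k 0 S : K) ^ 2) (gp4 S s 0 f : K) := by
        rcases h01 s with h2 | h2
        · rw [h2]
          rw [h2, zero_mul, add_zero] at hlast
          exact lam5_C4 hlast
        · rw [h2]
          rw [h2, one_mul] at hlast
          exact lam5_X hk hA hlast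
      refine sha5_ne (l := 0) (e := s) (fun h1 => hS h1.2.2) (fun q hq => hrow q hq) hlam
        (fun h1 => hne 0 h1) (fun h1 => hne 1 ⟨by rw [h1.1, hk], h1.2.2⟩) hW hfin hcard
  · have hD' : δ = dk k 1 S := hδ
    subst hD'
    refine ⟨fun hk => ?_, fun _ h1 => absurd h1 (by decide), fun _ h1 => absurd h1 (by decide)⟩
    by_contra hdet
    obtain ⟨v, hv0, hv⟩ := Matrix.exists_mulVec_eq_zero_iff.2 hdet
    obtain ⟨f, rfl⟩ := ext_vec v
    have e : jj 1 = 1 := if_pos rfl
    have hrow : ∀ q ∈ S, row5 (md k) 1 S f q = 0 := by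
      intro q hq
      have h1 := congrFun hv ⟨q, hq⟩
      rw [N4_row (c := md k) (l := fun q => jj 1 * bb q.1) (fun q _ => rfl), Pi.zero_apply] at h1
      refine Eq.trans ?_ h1
      rw [e]
      unfold rowN row5
      ring
    have hne : ¬ ∀ q ∈ S, f q = 0 := fun h1 => hv0 (funext fun q => h1 q q.2)
    refine sha5_ne (l := 1) (e := 0) (fun h1 => ?_) (fun q hq => ?_) (lam5_one ?_)
      (fun h1 => hne h1.2) (fun h1 => ?_) hW hfin hcard
    · exact one_ne_zero h1.2.1
    · rw [zero_mul, zero_add, hrow q hq]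
    · have h2 := sum_row5 (md k) 1 S f
      rw [sum_eq_zero hrow] at h2
      rw [h2]
      refine sum_congr rfl fun q _ => ?_
      ring
    · exact one_ne_zero h1.2.1

end

end Pool.Agent.Lib.MP_1a91b9_ntQ.C
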