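import Pool.Agent.Lib.MP_1a91b9_ntQ.C.Lam4
import Pool.Agent.Lib.MP_1a91b9_ntQ.C.Coc

/-!
# MP_1a91b9_nt (TwistDensity), quartic twists, part C: the Selmer elements of `y² = x³ - D x`

`D = i ^ k lam ^ l ∏ q`, `q ∈ S`. Classes I and II: `l = 0` and `D` is not `± 1` modulo `4`.
-/

set_option autoImplicit false
set_option linter.unusedSectionVars false
set_option linter.unusedVariables false

namespace Pool.Agent.Lib.MP_1a91b9_ntQ.C

open NumberField Finset WithZero IsDedekindDomain Pool.Agent.Lib.MP_1a91b9_nuT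
open Pool.Agent.Lib.MP_1a91b9_ntQ
open Pool.Agent.Lib.MP_1a91b9_ntH.C (Sq exists_nu isSquare_exp nu_one)

noncomputable section

/-! ### the steps which are common to all classes -/

theorem not_dvd_dk {π : 𝓞 K} (h : Prime π) (h3 : ¬ π ∣ lam) {S : Finset Pg}
    (hS : ∀ q ∈ S, ¬ π ∣ q.1) (k : ZMod 4) (l : ZMod 2) : ¬ π ∣ dk k l S := by
  unfold dk
  intro hd
  rcases h.dvd_or_dvd hd with h1 | h1
  · rcases h.dvd_or_dvd h1 with h2 | h2
    · exact not_dvd_of_unit h (isUnit_iO.pow _) h2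
    · exact h3 (h.dvd_of_dvd_pow h2)
  · obtain ⟨q, hq, h2⟩ := h.exists_mem_finset_dvd h1
    exact hS q hq h2

/-- the class of a Selmer element -/
theorem sel_cl {S : Finset Pg} {k : ZMod 4} {l : ZMod 2} {a : K} (ha : a ≠ 0)
    (h : ∀ v : HeightOneSpectrum (𝓞 K), GLoc4 (v.valuation K) (dk k l S : K) a) :
    ∃ (j l' : ZMod 2) (V : Pg → ZMod 2) (m : K), m ≠ 0 ∧ a = m ^ 2 * (gp4 S j l' V : K) := by
  refine decomp4 S a ha fun π hπ h3 hS => ?_
  exact loc4_even _ (val_four_odd hπ h3) (pv_one hπ (not_dvd_dk hπ h3 hS k l)) (h _)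

theorem val_dk_odd {S : Finset Pg} {q : Pg} (hq : q ∈ S) (k : ZMod 4) (l : ZMod 2) :
    ¬ IsSquare ((pv q.1 q.prime).valuation K (dk k l S : K)) := by
  obtain ⟨m, hm, h⟩ := dk_gp4 k l S
  have h2 : ((1 : ZMod 2)).val = 1 := rfl
  have e1 : (pv q.1 q.prime).valuation K ((m ^ 2 * (q.1 * gp4 (S.erase q) (md k) l (fun _ => 1)) :
      𝓞 K) : K) = exp (-1) * ((pv q.1 q.prime).valuation K (m : K)) ^ 2 := by
    push_cast
    rw [map_mul, map_pow, map_mul, pv_self, pv_one q.prime (not_dvd_gp4_erase _ _ _), mul_one,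
      mul_comm]
  rw [h, gp4_erase hq, h2, pow_one, e1,
    isSquare_mul_sq ((Valuation.ne_zero_iff _).2 (coe_ne hm))]
  intro h3
  exact absurd (exp_odd h3) (by decide)

/-- the row at `q` -/
theorem sel_row {S : Finset Pg} {q : Pg} (hq : q ∈ S) {k : ZMod 4} {l : ZMod 2} {a : K}
    {j l' : ZMod 2} {V : Pg → ZMod 2} {m : K} (hm : m ≠ 0) (ha : a = m ^ 2 * (gp4 S j l' V : K))
    (h : GLoc4 ((pv q.1 q.prime).valuation K) (dk k l S : K) a) :
    (j + V q * md k) * aa q.1 + (l' + V q * l) * c2 q lam +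
      ∑ p ∈ S.erase q, (V p + V q) * s4 q p = 0 := by
  have h4 := val_four_odd q.prime (not_dvd_lam4 q)
  obtain ⟨t, ht⟩ : ∃ t : ZMod 2, Sq ((pv q.1 q.prime).valuation K) (a * (dk k l S : K) ^ t.val) := by
    rcases loc4_bad _ iK_sq' h4 (coe_ne (dk_ne k l S)) (val_dk_odd hq k l) h with h1 | h1
    · exact ⟨0, by rwa [ZMod.val_zero, pow_zero, mul_one]⟩
    · refine ⟨1, ?_⟩
      have h2 : ((1 : ZMod 2)).val = 1 := rfl
      rwa [h2, pow_one]
  obtain ⟨n, hn, h1⟩ := cl_mul_pow (S := S) hm ha k l t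
  rw [h1, mul_comm] at ht
  obtain ⟨h2, h3⟩ := row_sq hq (Sq.of_mul_sq hn ht)
  have h5 : t = V q := by
    have h6 : ∀ x y : ZMod 2, x + y = 0 → y = x := by decide
    exact h6 _ _ h2
  rw [← h5]
  exact h3

/-- the element of a constant class -/
theorem sel_const {S : Finset Pg} {k : ZMod 4} {l : ZMod 2} {a : K}
    {j l' : ZMod 2} {V : Pg → ZMod 2} {m : K} (ha : a = m ^ 2 * (gp4 S j l' V : K)) (t : ZMod 2)
    (hV : ∀ q ∈ S, V q = t) (hj : j = t * md k) (hl : l' = t * l) :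
    IsSquare a ∨ IsSquare (a * (dk k l S : K)) := by
  have e : gp4 S j l' V = gp4 S (t * md k) (t * l) (fun _ => t) := by
    unfold gp4
    rw [hj, hl]
    congr 1
    exact prod_congr rfl fun q hq => by rw [hV q hq]
  obtain ⟨n, hn, h1⟩ := dk_pow k l S t
  have h2 : (dk k l S : K) ^ t.val = (n : K) ^ 2 *
      (gp4 S (t * md k) (t * l) (fun _ => t) : K) := by
    rw [← map_pow]
    rw [h1, map_mul, map_pow]
  obtain ⟨g, hg⟩ : ∃ g : K, g = m * (n : K) * (gp4 S (t * md k) (t * l) (fun _ => t) : K) :=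
    ⟨_, rfl⟩
  have h3 : a * (dk k l S : K) ^ t.val = g * g := by
    rw [h2, ha, e, hg]
    ring
  have h0 : ∀ e : ZMod 2, e = 0 ∨ e = 1 := by decide
  rcases h0 t with h4 | h4
  · left
    refine ⟨g, ?_⟩
    rw [← h3, h4, ZMod.val_zero, pow_zero, mul_one]
  · right
    have h5 : ((1 : ZMod 2)).val = 1 := rfl
    refine ⟨g, ?_⟩
    rw [← h3, h4, h5, pow_one]

/-! ### classes I and II -/

theorem dk_zero (k : ZMod 4) (S : Finset Pg) : dk k 0 S = iO ^ k.val * DDq S := by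
  unfold dk
  rw [ZMod.val_zero, pow_zero, mul_one]

theorem nuL_dk (k : ZMod 4) (S : Finset Pg) : nuL (dk k 0 S : K) = 1 := by
  refine pv_one prime_lam ?_
  rw [dk_zero]
  intro hd
  rcases prime_lam.dvd_or_dvd hd with h2 | h1
  · exact not_dvd_of_unit prime_lam (isUnit_iO.pow _) h2
  · exact (DDq_in4 S).not_lam h1

theorem dk_C4 {k : ZMod 4} {S : Finset Pg} (h : C4 nuL (dk k 0 S : K)) :
    md k = 0 ∧ ∑ q ∈ S, aa q.1 = 0 := by
  obtain ⟨m, hm, h1⟩ := dk_gp4 k 0 S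
  have e : (dk k 0 S : K) = (m : K) ^ 2 * (gp4 S (md k) 0 (fun _ => 1) : K) := by
    rw [h1]
    push_cast
    rfl
  rw [e] at h
  obtain ⟨-, h2, h3⟩ := cl_C4 (coe_ne hm) h
  refine ⟨h2, ?_⟩
  rw [← h3]
  exact sum_congr rfl fun q _ => by rw [one_mul]

/-- The row of the matrix `N_k` at `q`: the off-diagonal elements are the symbols `s4 q p`, the
diagonal element is `k aa q + ∑ s4 q p`. -/
def rowN (κ : ZMod 2) (S : Finset Pg) (f : Pg → ZMod 2) (q : Pg) : ZMod 2 :=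
  f q * (κ * aa q.1) + ∑ p ∈ S.erase q, (f p + f q) * s4 q p

/-- **The Selmer elements in the classes I and II**: `D = i ^ k ∏ q` is not a square modulo `4`, and
the only solution of the rows with `∑ f q aa q = 0` is `0`. -/
theorem sel4_unit (k : ZMod 4) (S : Finset Pg) (hD : ¬ (md k = 0 ∧ ∑ q ∈ S, aa q.1 = 0))
    (hker : ∀ f : Pg → ZMod 2, (∀ q ∈ S, rowN (md k) S f q = 0) → ∑ q ∈ S, f q * aa q.1 = 0 →
      ∀ q ∈ S, f q = 0) : SelCl4 (dk k 0 S : K) := by
  intro a ha h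
  obtain ⟨j, l', V, m, hm, hma⟩ := sel_cl ha h
  obtain ⟨t, ht⟩ : ∃ t : ZMod 2, C4 nuL (a * (dk k 0 S : K) ^ t.val) := by
    rcases loc4_lam iK_sq' nuL_two nuL_res (nuL_dk k S) (fun hc => hD (dk_C4 hc))
      (h (pv lam prime_lam)) with h1 | h1
    · exact ⟨0, by rwa [ZMod.val_zero, pow_zero, mul_one]⟩
    · refine ⟨1, ?_⟩
      have h2 : ((1 : ZMod 2)).val = 1 := rfl
      rwa [h2, pow_one]
  obtain ⟨n, hn, h1⟩ := cl_mul_pow (S := S) hm hma k 0 t
  rw [h1] at ht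
  obtain ⟨hl, hj, hs⟩ := cl_C4 hn ht
  have e2 : ∀ x y : ZMod 2, x + y = 0 → x = y := by decide
  have hj' : j = t * md k := e2 _ _ hj
  have hl' : l' = t * 0 := e2 _ _ hl
  have h0 := hker (fun q => V q + t) (fun q hq => by
    have h3 := sel_row hq hm hma (h (pv q.1 q.prime))
    rw [hj', hl'] at h3
    unfold rowN
    rw [← h3]
    have h4 : ∑ p ∈ S.erase q, (V p + t + (V q + t)) * s4 q p =
        ∑ p ∈ S.erase q, (V p + V q) * s4 q p := by
      refine sum_congr rfl fun p _ => ?_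
      have h5 : ∀ x y t s : ZMod 2, (x + t + (y + t)) * s = (x + y) * s := by decide
      exact h5 _ _ _ _
    rw [h4]
    ring) hs
  exact sel_const hma t (fun q hq => e2 _ _ (h0 q hq)) hj' hl'

/-- Class I: `k` is odd. -/
theorem sel4_I (k : ZMod 4) (S : Finset Pg) (hk : md k = 1)
    (hker : ∀ f : Pg → ZMod 2, (∀ q ∈ S, rowN 1 S f q = 0) → ∀ q ∈ S, f q = 0) :
    SelCl4 (dk k 0 S : K) := by
  refine sel4_unit k S (fun h => ?_) fun f hf _ => hker f (by rw [hk] at hf; exact hf)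
  rw [h.1] at hk
  exact absurd hk (by decide)

/-- Class II: `k` is even, `∑ aa q = 1`. -/
theorem sel4_II (k : ZMod 4) (S : Finset Pg) (hk : md k = 0) (hS : ∑ q ∈ S, aa q.1 = 1)
    (hker : ∀ f : Pg → ZMod 2, (∀ q ∈ S, rowN 0 S f q = 0) →
      (∀ q ∈ S, f q = 0) ∨ ∀ q ∈ S, f q = 1) : SelCl4 (dk k 0 S : K) := by
  refine sel4_unit k S (fun h => ?_) fun f hf hs => ?_
  · rw [h.2] at hS
    exact absurd hS (by decide)
  · rw [hk] at hf
    rcases hker f hf with h | h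
    · exact h
    · exfalso
      rw [sum_congr rfl fun q hq => by rw [h q hq, one_mul], hS] at hs
      exact absurd hs (by decide)

end

end Pool.Agent.Lib.MP_1a91b9_ntQ.C
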