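import Pool.Agent.Lib.MP_1a91b9_ntQ.C.SelX
import Pool.Agent.Lib.MP_1a91b9_ntQ.R.Qd4

/-!
# MP_1a91b9_nt (TwistDensity), quartic twists, part C: the Selmer elements, `D = ∏ q`, `D = 1` modulo
`4`, the imaginary part of `D` is `0` modulo `8`
-/

set_option autoImplicit false
set_option linter.unusedSectionVars false
set_option linter.unusedVariables false

namespace Pool.Agent.Lib.MP_1a91b9_ntQ.C

open NumberField Finset WithZero IsDedekindDomain Pool.Agent.Lib.MP_1a91b9_nuT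
open Pool.Agent.Lib.MP_1a91b9_ntQ
open Pool.Agent.Lib.MP_1a91b9_ntH.C (Sq exists_nu isSquare_exp nu_one)

noncomputable section

/-- The quartic symbol of `lam` modulo `∏ q`. -/
theorem c4_lam_DDq (S : Finset Pg) : ∃ m n : ℤ,
    DDq S = 1 + lam ^ 3 * ((m : 𝓞 K4) + (n : 𝓞 K4) * iO) ∧
      ∑ q ∈ S, c4 q lam = -(m : ZMod 4) - ((m : ZMod 4) - n) ^ 2 := by
  classical
  induction S using Finset.induction_on with
  | empty =>
    refine ⟨0, 0, ?_, ?_⟩
    · rw [DDq_empty]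
      push_cast
      ring
    · rw [sum_empty]
      decide
  | insert q S hq ih =>
    obtain ⟨c, d, h1, h2⟩ := ih
    obtain ⟨a, b, h3⟩ := in4_form q.in4
    refine ⟨a + c + 2 * (-(a * c - b * d) - (a * d + b * c)),
      b + d + 2 * ((a * c - b * d) - (a * d + b * c)), ?_, ?_⟩
    · rw [DDq_insert hq, h1, h3, mul_form]
    · rw [sum_insert hq, h2, c4_lam q h3]
      push_cast
      have h4 : ∀ a b c d : ZMod 4, -a - (a - b) ^ 2 + (-c - (c - d) ^ 2) =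
          -(a + c + 2 * (-(a * c - b * d) - (a * d + b * c))) -
          (a + c + 2 * (-(a * c - b * d) - (a * d + b * c)) -
            (b + d + 2 * (a * c - b * d - (a * d + b * c)))) ^ 2 := by decide
      exact h4 _ _ _ _

/-- the corner -/
def xl (l : ZMod 4) : ZMod 2 := if l = 1 ∨ l = 2 then 1 else 0

/-- `D = ∏ q`, `D = 1` modulo `4`, the imaginary part of `D` is `0` modulo `8`: the bordered matrix
`[[N_0, a], [a^T, x]]` has corank `1`. -/
theorem sel4_X3 (S : Finset Pg) (hS : ∑ q ∈ S, aa q.1 = 0)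
    (hc : hf (∑ q ∈ S, nn q.1) + ∑ q ∈ S, bb q.1 = 0)
    (hker : ∀ (f : Pg → ZMod 2) (s : ZMod 2), (∀ q ∈ S, rowN 0 S f q + s * aa q.1 = 0) →
      ∑ q ∈ S, f q * aa q.1 + s * xl (∑ q ∈ S, c4 q lam) = 0 →
      ((∀ q ∈ S, f q = 0) ∨ ∀ q ∈ S, f q = 1) ∧ s = 0) :
    SelCl4 (dk 0 0 S : K) := by
  obtain ⟨c, d, h1, h2, h3⟩ := form4 (DDq_in4 S) (by rw [aa_DDq]; exact hS)
  rw [nn_DDq] at h2
  rw [bb_DDq] at h3
  rw [h2, hf_two, h3] at hc
  have hd : (d : ZMod 2) = 0 := by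
    push_cast at hc
    have h4 : ∀ c d : ZMod 2, c + (c + d) = 0 → d = 0 := by decide
    exact h4 _ _ hc
  obtain ⟨d', hd'⟩ := (ZMod.intCast_zmod_eq_zero_iff_dvd _ 2).1 hd
  obtain ⟨ρ, hρ⟩ : ∃ ρ : ZMod 2, ρ = (c : ZMod 2) := ⟨_, rfl⟩
  obtain ⟨c', hc'⟩ := digit2 c
  rw [← hρ] at hc'
  obtain ⟨κ, hκ⟩ : ∃ κ : ZMod 2, κ = ((c' + d' : ℤ) : ZMod 2) := ⟨_, rfl⟩
  obtain ⟨k', hk'⟩ := digit2 (c' + d')
  rw [← hκ] at hk'
  -- the symbol of `lam`
  have hl : ∑ q ∈ S, c4 q lam = ((c - d : ℤ) : ZMod 4) := by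
    obtain ⟨m, n, h5, h6⟩ := c4_lam_DDq S
    have h7 : (cp (DDq S)) = (1 - 2 * m - 2 * n, 2 * m - 2 * n) := by rw [h5, cp_form]
    have h8 : (cp (DDq S)) = (1 + 4 * c, 4 * d) := by
      have e : DDq S = ((1 + 4 * c : ℤ) : 𝓞 K4) + ((4 * d : ℤ) : 𝓞 K4) * iO := by
        rw [h1]
        push_cast
        ring
      rw [e, cp_coords]
    rw [h7] at h8
    have h9 := congrArg Prod.fst h8
    have h10 := congrArg Prod.snd h8
    dsimp only at h9 h10
    have hm : m = d - c := by omega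
    have hn : n = -c - d := by omega
    rw [h6, hm, hn]
    push_cast
    have h11 : ∀ c d : ZMod 4, -(d - c) - (d - c - (-c - d)) ^ 2 = c - d := by decide
    exact h11 _ _
  have hα : xl (∑ q ∈ S, c4 q lam) = ρ + κ := by
    rw [hl, hc']
    have e : ((((ρ.val : ℕ) : ℤ) + 2 * c' - d : ℤ) : ZMod 4) =
        ((ρ.val : ℕ) : ZMod 4) + 2 * ((κ.val : ℕ) : ZMod 4) := by
      have e1 : (((ρ.val : ℕ) : ℤ) + 2 * c' - d : ℤ) =
          ((ρ.val : ℕ) : ℤ) + 2 * ((κ.val : ℕ) : ℤ) + 4 * (k' - d') := by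
        push_cast at hd' hk' ⊢
        omega
      rw [e1]
      push_cast
      have h4 : (4 : ZMod 4) = 0 := by decide
      rw [h4, zero_mul, add_zero]
    rw [e]
    have h5 : ∀ ρ κ : ZMod 2, xl (((ρ.val : ℕ) : ZMod 4) + 2 * ((κ.val : ℕ) : ZMod 4)) =
        ρ + κ := by decide
    exact h5 _ _
  rw [hα] at hker
  obtain ⟨v, hv⟩ : ∃ v : 𝓞 K, v = -(c' : 𝓞 K) + (1 - iO) * (k' : 𝓞 K) := ⟨_, rfl⟩
  have hD : (dk 0 0 S : K) = 1 * (1 + 4 * ((ρ.val : K) +
      (1 + (iO : K)) ^ 2 * ((κ.val : K) + (1 + (iO : K)) * (v : K)))) := by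
    have e : dk 0 0 S = 1 * (1 + 4 * ((ρ.val : 𝓞 K) +
        (1 + iO) ^ 2 * ((κ.val : 𝓞 K) + (1 + iO) * v))) := by
      have e3 : ((κ.val : ℕ) : 𝓞 K) = (c' : 𝓞 K) + (d' : 𝓞 K) - 2 * (k' : 𝓞 K) := by
        have := congrArg (fun x : ℤ => (x : 𝓞 K)) hk'
        push_cast at this
        linear_combination -this
      have e4 : (c : 𝓞 K) = ((ρ.val : ℕ) : 𝓞 K) + 2 * (c' : 𝓞 K) := by
        have := congrArg (fun x : ℤ => (x : 𝓞 K)) hc'
        push_cast at this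
        exact this
      have e5 : (d : 𝓞 K) = 2 * (d' : 𝓞 K) := by
        have := congrArg (fun x : ℤ => (x : 𝓞 K)) hd'
        push_cast at this
        exact this
      rw [dk_zero, h1]
      have e2 : ((0 : ZMod 4)).val = 0 := rfl
      rw [e2, e3, hv]
      show iO ^ 0 * (1 + 4 * ((c : 𝓞 K) + (d : 𝓞 K) * iO)) = _
      rw [e4, e5]
      linear_combination (4 * iO ^ 2 * (k' : 𝓞 K) + 4 * (c' : 𝓞 K) * iO + 8 * iO * (k' : 𝓞 K) +
        8 * (c' : 𝓞 K) - 4 * (d' : 𝓞 K) + 4 * (k' : 𝓞 K)) * iO_sq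
    rw [e]
    push_cast
    rfl
  have h0 : ∀ x : ZMod 2, x = 0 ∨ x = 1 := by decide
  have hv1 : ((1 : ZMod 2)).val = 1 := rfl
  refine sel4_w 0 S (by decide) 1 (ρ + κ) (w := iO ^ 1 * (1 + lam ^ 3 * ((ρ + κ).val : 𝓞 K)))
    (z := 1 + lam ^ 3 * ((ρ + κ).val : 𝓞 K)) ?_ ?_ rfl ?_ ?_
  · exact ⟨((ρ + κ).val : 𝓞 K), by ring⟩
  · have h5 := aa_form ((ρ + κ).val : ℤ) 0
    have e : (1 + lam ^ 3 * (((((ρ + κ).val : ℕ) : ℤ) : 𝓞 K4) + ((0 : ℤ) : 𝓞 K4) * iO)) =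
        1 + lam ^ 3 * ((ρ + κ).val : 𝓞 K4) := by
      push_cast
      ring
    rw [e] at h5
    rw [h5]
    push_cast
    rw [add_zero, ZMod.natCast_val, ZMod.cast_id]
  · intro a ha
    have h6 := loc4_X3 iK_sq' nuL_two nuL_res (ρ := (ρ.val : K)) (κ := (κ.val : K))
      (α := ((ρ + κ).val : K)) (by
        rcases h0 ρ with h5 | h5 <;> rcases h0 κ with h6 | h6 <;> rw [h5, h6]
        · left
          refine ⟨?_, ?_, ?_⟩
          · rw [ZMod.val_zero, Nat.cast_zero]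
          · rw [ZMod.val_zero, Nat.cast_zero]
          · rw [add_zero, ZMod.val_zero, Nat.cast_zero]
        · right; left
          refine ⟨?_, ?_, ?_⟩
          · rw [ZMod.val_zero, Nat.cast_zero]
          · rw [hv1, Nat.cast_one]
          · rw [zero_add, hv1, Nat.cast_one]
        · right; right; left
          refine ⟨?_, ?_, ?_⟩
          · rw [hv1, Nat.cast_one]
          · rw [ZMod.val_zero, Nat.cast_zero]
          · rw [add_zero, hv1, Nat.cast_one]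
        · right; right; right
          have h7 : (1 : ZMod 2) + 1 = 0 := by decide
          refine ⟨?_, ?_, ?_⟩
          · rw [hv1, Nat.cast_one]
          · rw [hv1, Nat.cast_one]
          · rw [h7, ZMod.val_zero, Nat.cast_zero]) (nuL_O v) rfl hD ha
    rcases h6 with h7 | h7
    · exact Or.inl h7
    · right
      have e : ((iO ^ 1 * (1 + lam ^ 3 * ((ρ + κ).val : 𝓞 K)) : 𝓞 K) : K) =
          (iO : K) ^ 1 * (1 + (1 + (iO : K)) ^ 3 * ((ρ + κ).val : K)) := by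
        rw [← lam_coe]
        push_cast
        rfl
      rw [e]
      exact h7
  · intro f s h8 h9
    obtain ⟨g1, g2⟩ := hker f s (fun q hq => by
      have h10 := h8 q hq
      rwa [mul_one] at h10) h9
    exact ⟨g1, by rw [g2, zero_mul]⟩

end

end Pool.Agent.Lib.MP_1a91b9_ntQ.C
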