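import Pool.Agent.Lib.MP_1a91b9_ntQ.C.DescG
import Pool.Agent.Lib.MP_1a91b9_ntQ.C.TorsQK
import Pool.Agent.Lib.MP_1a91b9_ntQ.C.Sel4
import Pool.Agent.Lib.MP_1a91b9_ntQ.C.SelX3

/-!
# MP_1a91b9_nt, part C: the 2-primary parts of the Mordell-Weil groups of `y² = x³ - d x`

`d = D` squarefree, `D² ≠ 1`: two points. `d = δ²`, `δ` squarefree, `δ ≠ ± 1`: four points. The curve
`y² = x³ - x`: eight points, and the Tate-Shafarevich group has trivial 2-part.
-/

set_option autoImplicit false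
set_option linter.unusedSectionVars false
set_option linter.unusedVariables false

namespace Pool.Agent.Lib.MP_1a91b9_ntQ.C

open WithZero WeierstrassCurve NumberField IsDedekindDomain
open Pool.Agent.Lib.MP_1a91b9_ntQ
open Pool.Agent.Lib.MP_1a91b9_ntT.S9 (Pts Gal coc cob trivOver shaCoc Sha up)
open Pool.Agent.Lib.MP_1a91b9_ntT3.S9 (ShaP)
open scoped Classical

noncomputable section

section

variable {F : Type*} [Field F] [CharZero F] {W : Affine F} {z d : F} (h : IsQ W z d)

theorem iter_two (m : ℕ) : ∀ P : W.Point, 2 ^ m • P = 0 → (mu h)^[2 * m] P = 0 := by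
  induction m with
  | zero =>
    intro P hP
    simpa using hP
  | succ m ih =>
    intro P hP
    have e : 2 * (m + 1) = 2 * m + 2 := by ring
    rw [e, Function.iterate_add_apply]
    apply ih
    change 2 ^ m • mu h (mu h P) = 0
    rw [mu_mu, smul_neg, ← mul_smul, ← pow_succ, ← map_nsmul, hP, map_zero, neg_zero]

theorem two_iter (m : ℕ) : ∀ P : W.Point, (mu h)^[2 * m] P = 0 → 2 ^ m • P = 0 := by
  induction m with
  | zero =>
    intro P hP
    simpa using hP
  | succ m ih =>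
    intro P hP
    have e : 2 * (m + 1) = 2 * m + 2 := by ring
    rw [e, Function.iterate_add_apply] at hP
    have h1 : 2 ^ m • mu h (mu h P) = 0 := ih _ hP
    rw [mu_mu, smul_neg, ← mul_smul, ← pow_succ, ← map_nsmul, neg_eq_zero] at h1
    have h2 := congrArg (omP h) h1
    rwa [om_om, map_zero, neg_eq_zero] at h2

/-- the 2-primary part is the kernel of `(1 - i)ⁿ` -/
theorem prim_eq {n : ℕ} (hn : ∀ P : W.Point, (mu h)^[n] P ≠ tq h) :
    (AddCommGroup.primaryComponent W.Point 2 : Set W.Point) = {P | (mu h)^[n] P = 0} := by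
  have hn' : ∀ P : W.Point, (mu h)^[n + 1] P = 0 → (mu h)^[n] P = 0 := by
    intro P hP
    rw [Function.iterate_succ_apply'] at hP
    exact (mu_ker_all h _ hP).resolve_right (hn P)
  have key : ∀ j : ℕ, ∀ P : W.Point, (mu h)^[n + j] P = 0 → (mu h)^[n] P = 0 := by
    intro j
    induction j with
    | zero =>
      intro P hP
      exact hP
    | succ j ih =>
      intro P hP
      apply ih
      rw [Function.iterate_add_apply]
      apply hn'
      rw [← Function.iterate_add_apply]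
      have e : n + 1 + j = n + (j + 1) := by ring
      rw [e]
      exact hP
  ext P
  constructor
  · rintro ⟨m, hm⟩
    refine key (2 * m) P ?_
    rw [Function.iterate_add_apply, iter_two h m P hm, iterate_map_zero]
  · intro hP
    refine ⟨n, two_iter h n P ?_⟩
    rw [two_mul, Function.iterate_add_apply]
    have h1 : (mu h)^[n] P = 0 := hP
    rw [h1, iterate_map_zero]

theorem ker_zero : {P : W.Point | (mu h)^[0] P = 0}.Finite ∧
    {P : W.Point | (mu h)^[0] P = 0}.ncard = 1 := by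
  have e : {P : W.Point | (mu h)^[0] P = 0} = {0} := by
    ext P
    rfl
  rw [e]
  exact ⟨Set.finite_singleton _, Set.ncard_singleton _⟩

theorem ker_succ {n c : ℕ} {T : W.Point} (hT : (mu h)^[n] T = tq h)
    (hf : {P : W.Point | (mu h)^[n] P = 0}.Finite ∧
      {P : W.Point | (mu h)^[n] P = 0}.ncard = c) :
    {P : W.Point | (mu h)^[n + 1] P = 0}.Finite ∧
      {P : W.Point | (mu h)^[n + 1] P = 0}.ncard = 2 * c := by
  have e : {P : W.Point | (mu h)^[n + 1] P = 0} = {P : W.Point | (mu h)^[n] P = 0} ∪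
      (fun P => T + P) '' {P : W.Point | (mu h)^[n] P = 0} := by
    ext P
    simp only [Set.mem_ofPred_eq, Set.mem_union, Set.mem_image]
    rw [Function.iterate_succ_apply']
    constructor
    · intro hP
      rcases mu_ker_all h _ hP with h1 | h1
      · exact Or.inl h1
      · right
        refine ⟨P - T, ?_, ?_⟩
        · rw [iterate_map_sub, h1, hT, sub_self]
        · abel
    · rintro (h1 | ⟨Q, hQ, rfl⟩)
      · rw [h1, map_zero]
      · rw [iterate_map_add, hQ, add_zero, hT, mu_tq]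
  have hinj : Function.Injective fun P : W.Point => T + P := add_right_injective T
  have hf2 : ((fun P => T + P) '' {P : W.Point | (mu h)^[n] P = 0}).Finite := hf.1.image _
  rw [e]
  refine ⟨hf.1.union hf2, ?_⟩
  rw [Set.ncard_union_eq _ hf.1 hf2, Set.ncard_image_of_injective _ hinj, hf.2, two_mul]
  rw [Set.disjoint_left]
  rintro _ h1 ⟨Q, hQ, rfl⟩
  have h1' : (mu h)^[n] (T + Q) = 0 := h1
  have hQ' : (mu h)^[n] Q = 0 := hQ
  rw [iterate_map_add, hQ', add_zero, hT] at h1'
  exact tq_ne h h1'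

theorem ker_one : {P : W.Point | (mu h)^[1] P = 0}.Finite ∧
    {P : W.Point | (mu h)^[1] P = 0}.ncard = 2 :=
  ker_succ h (n := 0) (T := tq h) rfl (ker_zero h)

theorem ker_2 {e : F} (he : e ^ 2 = d) : {P : W.Point | (mu h)^[2] P = 0}.Finite ∧
    {P : W.Point | (mu h)^[2] P = 0}.ncard = 4 :=
  ker_succ h (n := 1) (T := te h he) (mu_te h he) (ker_one h)

/-- the points which `1 - i` maps to `(0, 0)` -/
theorem mu_eq_tq {P : W.Point} (hP : mu h P = tq h) :
    ∃ (e : F) (he : e ^ 2 = d), P = te h he := by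
  obtain ⟨X, Y, hXY, rfl, hX⟩ := mu_ne_cases h P (by
    rw [hP]
    exact tq_ne h)
  obtain ⟨x', y', hn', hmu, hx'⟩ := mu_x' h hXY hX
  rw [hP, tq, Affine.Point.some.injEq] at hmu
  rw [← hmu.1, mul_zero] at hx'
  have h5 : X ^ 2 = d := sub_eq_zero.1 ((mul_eq_zero.1 hx'.symm).resolve_left h.z0)
  have h6 : Y = 0 := by
    have h7 := (h.nons _ _).1 hXY
    refine (pow_eq_zero_iff two_ne_zero).1 (?_ : Y ^ 2 = 0)
    rw [h7]
    linear_combination X * h5
  subst h6
  exact ⟨X, h5, rfl⟩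

/-- the abscissa of `mu P` is a square -/
theorem mu_x_sq {P : W.Point} {x y : F} {hn : W.Nonsingular x y} (hP : mu h P = .some x y hn) :
    ∃ s : F, s ^ 2 = x := ⟨_, cfn_sq h P hn hP⟩

theorem no_tq_one (hd : ∀ t : F, t ^ 2 ≠ d) (P : W.Point) : (mu h)^[1] P ≠ tq h := by
  intro hP
  obtain ⟨e, he, -⟩ := mu_eq_tq h (P := P) hP
  exact hd e he

theorem no_tq_two {δ : F} (hδ : δ ^ 2 = d) (hd : ∀ t : F, t ^ 2 ≠ δ) (P : W.Point) :
    (mu h)^[2] P ≠ tq h := by
  intro hP
  obtain ⟨e, he, h1⟩ := mu_eq_tq h (P := mu h P) hP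
  obtain ⟨s, hs⟩ := mu_x_sq h h1
  rw [← hδ] at he
  rcases sq_eq_sq_iff_eq_or_eq_neg.1 he with h2 | h2
  · exact hd s (hs.trans h2)
  · refine hd (z * s) ?_
    rw [mul_pow, hs, h2, h.hz]
    ring

theorem no_tq_three (hd : d = 1) (hz : ∀ t : F, t ^ 2 ≠ z) (P : W.Point) :
    (mu h)^[3] P ≠ tq h := by
  intro hP
  obtain ⟨e, he, h1⟩ := mu_eq_tq h (P := mu h (mu h P)) hP
  obtain ⟨X, Y, hXY, h2, hX⟩ := mu_ne_cases h (mu h P) (by
    rw [h1, te]
    exact Affine.Point.some_ne_zero _)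
  obtain ⟨s, hs⟩ := mu_x_sq h h2
  obtain ⟨x', y', hn', hmu, hx'⟩ := mu_x' h hXY hX
  rw [← h2, h1, te, Affine.Point.some.injEq] at hmu
  rw [← hmu.1, hd] at hx'
  have he2 : (e - 1) * (e + 1) = 0 := by linear_combination he + hd
  rcases mul_eq_zero.1 he2 with h3 | h3
  · -- `e = 1`, `X = - z`
    have h4 : (X + z) ^ 2 = 0 := by
      linear_combination z * hx' + (X ^ 2) * h.hz - 2 * X * z * h3
    have h5 : X = -z := by
      have := (pow_eq_zero_iff two_ne_zero).1 h4
      linear_combination this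
    refine hz (z * s) ?_
    rw [mul_pow, hs, h5, h.hz]
    ring
  · have h4 : (X - z) ^ 2 = 0 := by
      linear_combination z * hx' + (X ^ 2) * h.hz - 2 * X * z * h3
    have h5 : X = z := by
      have := (pow_eq_zero_iff two_ne_zero).1 h4
      linear_combination this
    exact hz s (hs.trans h5)

/-- `(1 - i) (-z, ± (1 + z)) = (1, 0)` -/
theorem mu_P0 (hd : d = 1) {x y : F} (hn : W.Nonsingular x y) (hx : x = -z) :
    mu h (.some x y hn) = te h (e := 1) (by rw [hd, one_pow]) := by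
  have hx0 : x ≠ 0 := by
    rw [hx]
    exact neg_ne_zero.2 h.z0
  obtain ⟨x', y', hn', hmu, hx'⟩ := mu_x' h hn hx0
  have ex : x' = 1 := by
    have h2 : (2 * x) * x' = (2 * x) * 1 := by
      rw [hx', hx, hd]
      linear_combination z * h.hz
    exact mul_left_cancel₀ (mul_ne_zero two_ne_zero hx0) h2
  subst ex
  have ey : y' = 0 := by
    have h3 := (h.nons _ _).1 hn'
    rw [hd] at h3
    refine (pow_eq_zero_iff two_ne_zero).1 (?_ : y' ^ 2 = 0)
    rw [h3]
    ring
  subst ey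
  exact hmu

theorem ker_3 (hd : d = 1) : {P : W.Point | (mu h)^[3] P = 0}.Finite ∧
    {P : W.Point | (mu h)^[3] P = 0}.ncard = 8 := by
  have hn : W.Nonsingular (-z) (1 + z) := (h.nons _ _).2 (by
    rw [hd]
    linear_combination (1 + z) * h.hz)
  refine ker_succ h (n := 2) (T := .some _ _ hn) ?_ (ker_2 h (e := 1) (by rw [hd, one_pow]))
  change mu h (mu h _) = _
  rw [mu_P0 h hd hn rfl, mu_te]

end

/-! ### over `ℚ(i)` -/

/-- a squarefree element with `D² ≠ 1` is not a square of the field -/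
theorem not_sq_sqf {D : 𝓞 K4} (hD : Squarefree D) (h1 : D ^ 2 ≠ 1) (t : K4) :
    t ^ 2 ≠ (D : K4) := by
  intro h
  have hinj : Function.Injective (algebraMap (𝓞 K4) K4) := FaithfulSMul.algebraMap_injective _ _
  have h2 : IsIntegral ℤ t := by
    refine IsIntegral.of_pow (n := 2) (by norm_num) ?_
    rw [h]
    exact RingOfIntegers.isIntegral_coe _
  obtain ⟨T, hT⟩ : ∃ T : 𝓞 K4, (T : K4) = t := ⟨⟨_, h2⟩, rfl⟩
  have h3 : T ^ 2 = D := by
    apply hinj
    exact (cpow T 2).trans ((congrArg (· ^ 2) hT).trans h)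
  have hu : IsUnit T := hD T ⟨1, by rw [← h3]; ring⟩
  obtain ⟨k, -, hk⟩ := exists_unit hu
  apply h1
  rw [← h3, hk]
  have h4 : (iO : 𝓞 K4) ^ 4 = 1 := by linear_combination (iO ^ 2 - 1) * iO_sq
  calc ((iO ^ k) ^ 2) ^ 2 = (iO ^ 4) ^ k := by ring
    _ = 1 := by rw [h4, one_pow]

theorem c_iO : ((iO : 𝓞 K4) : K4) = iK := rfl

/-- `i` is not a square of the field -/
theorem not_sq_iK (t : K4) : t ^ 2 ≠ iK := by
  rw [← c_iO]
  refine not_sq_sqf iO_unit.squarefree ?_ t
  rw [iO_sq]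
  intro h
  have h1 : (2 : 𝓞 K4) = 0 := by linear_combination -h
  exact two_ne_zero h1

/-- **`d = D` squarefree**, `D² ≠ 1`: the 2-primary part has two elements -/
theorem card_prim4 {D : 𝓞 K4} (hD : Squarefree D) (h1 : D ^ 2 ≠ 1) {W : WeierstrassCurve K4}
    (hW : W = cq (D : K4)) : Nat.card (AddCommGroup.primaryComponent W.toAffine.Point 2) = 2 := by
  subst hW
  have hd : (D : K4) ≠ 0 := fun h0 => hD.ne_zero
    ((map_eq_zero_iff (algebraMap (𝓞 K4) K4) (FaithfulSMul.algebraMap_injective _ _)).1 h0)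
  have h : IsQ (cq (D : K4)).toAffine iK (D : K4) := ⟨rfl, iK_sq, hd⟩
  have h2 := prim_eq h (n := 1) (no_tq_one h (not_sq_sqf hD h1))
  have h3 := (ker_one h).2
  rw [← h2] at h3
  exact h3

/-- **`d = δ²`, `δ` squarefree**, `δ ≠ ± 1`: the 2-primary part has four elements -/
theorem card_prim5 {δ : 𝓞 K4} (hs : Squarefree δ) (h1 : δ ≠ 1) (h2 : δ ≠ -1)
    {W : WeierstrassCurve K4} (hW : W = cq ((δ : K4) ^ 2)) :
    Nat.card (AddCommGroup.primaryComponent W.toAffine.Point 2) = 4 := by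
  subst hW
  have hd : (δ : K4) ≠ 0 := fun h0 => hs.ne_zero
    ((map_eq_zero_iff (algebraMap (𝓞 K4) K4) (FaithfulSMul.algebraMap_injective _ _)).1 h0)
  have h : IsQ (cq ((δ : K4) ^ 2)).toAffine iK ((δ : K4) ^ 2) := ⟨rfl, iK_sq, pow_ne_zero 2 hd⟩
  have h12 : δ ^ 2 ≠ 1 := by
    intro h0
    have h3 : (δ - 1) * (δ + 1) = 0 := by linear_combination h0
    rcases mul_eq_zero.1 h3 with h4 | h4
    · exact h1 (sub_eq_zero.1 h4)
    · exact h2 (eq_neg_of_add_eq_zero_left h4)
  have h4 := prim_eq h (n := 2) (no_tq_two h rfl (not_sq_sqf hs h12))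
  have h3 := (ker_2 h (e := (δ : K4)) rfl).2
  rw [← h4] at h3
  exact h3

/-- the Selmer elements of `y² = x³ - x` -/
theorem sel_one (a : K4) (ha : a ≠ 0)
    (h : ∀ v : HeightOneSpectrum (𝓞 K4), GLoc4 (v.valuation K4) 1 a) :
    IsSquare a ∨ IsSquare (a * -iK) := by
  have hdk : ((dk 0 0 ∅ : 𝓞 K4) : K4) = 1 := by
    unfold dk
    rw [ZMod.val_zero, ZMod.val_zero, pow_zero, pow_zero, one_mul, one_mul]
    have e : DDq ∅ = 1 := by
      unfold DDq
      rfl
    rw [e]
    exact map_one (algebraMap (𝓞 K4) K4)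
  obtain ⟨j, l', V, m, hm, hma⟩ := sel_cl (S := ∅) (k := 0) (l := 0) ha (by
    intro v
    rw [hdk]
    exact h v)
  have hl : l' = 0 := by
    by_contra hl
    have h0 : ∀ e : ZMod 2, e ≠ 0 → e = 1 := by decide
    have h1v : ((1 : ZMod 2)).val = 1 := rfl
    have hev : IsSquare (nuL a) := by
      have h41 : nuL (4 : K4) < 1 := by
        have e : (4 : K4) = 2 * 2 := by norm_num
        rw [e, map_mul, nuL_two, ← exp_add, ← exp_zero, exp_lt_exp]
        norm_num
      have h5 := loc4_X3 (ν := nuL) (i := (iO : K4)) (D := 1) (a := a) (u := 0) (v := 0) (ρ := 0)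
        (κ := 0) (α := 0) iK_sq' nuL_two nuL_res (Or.inl ⟨rfl, rfl, rfl⟩) (by
          rw [map_zero]
          exact zero_le) (by ring) (by ring) (h (pv lam prime_lam))
      rcases h5 with h5 | h5
      · exact h5.even h41
      · have h6 := h5.even h41
        rwa [mul_zero, add_zero, mul_one, pow_one, map_mul, nuL_i, mul_one] at h6
    have e : nuL a = nuL m ^ 2 * exp (-1) := by
      rw [hma, map_mul, map_pow]
      congr 1
      have e : ((gp4 ∅ j l' V : 𝓞 K4) : K4) = (lam : K4) * (gp4 ∅ j 0 V : K4) := by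
        rw [gp4_lam, h0 l' hl, h1v, pow_one]
        exact map_mul (algebraMap (𝓞 K4) K4) _ _
      have h3 : nuL ((gp4 ∅ j 0 V : 𝓞 K4) : K4) = 1 := pv_one prime_lam (not_dvd_gp4_lam _ _)
      rw [e, map_mul, nuL_lam, h3, mul_one]
    rw [e, mul_comm, isSquare_mul_sq ((Valuation.ne_zero_iff _).2 hm)] at hev
    exact absurd (exp_odd hev) (by decide)
  subst hl
  have h0 : ∀ x : ZMod 2, x = 0 ∨ x = 1 := by decide
  have hgp : ((gp4 ∅ j 0 V : 𝓞 K4) : K4) = iK ^ j.val := by
    unfold gp4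
    rw [Finset.prod_empty, mul_one, ZMod.val_zero, pow_zero, mul_one]
    exact cpow iO _
  rw [hgp] at hma
  rcases h0 j with rfl | rfl
  · left
    refine ⟨m, ?_⟩
    rw [hma, ZMod.val_zero, pow_zero, mul_one, sq]
  · right
    have h1v : ((1 : ZMod 2)).val = 1 := rfl
    refine ⟨m, ?_⟩
    rw [hma, h1v, pow_one]
    linear_combination (-m ^ 2) * iK_sq

private theorem P0_nons (N : Type*) [Field N] [CharZero N] {W : Affine N} {z : N} {d : N} (h : IsQ W z d)
    (hd : d = 1) : W.Nonsingular (-z) (1 + z) := (h.nons _ _).2 (by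
    rw [hd]
    linear_combination (1 + z) * h.hz)

/-- **`y² = x³ - x`**: finitely many points, eight in the 2-primary part, and the
Tate-Shafarevich group has trivial 2-primary part -/
theorem one5 {W : WeierstrassCurve K4} (hW : W = cq 1) :
    Finite W.toAffine.Point ∧
      Nat.card (AddCommGroup.primaryComponent W.toAffine.Point 2) = 8 ∧
      Nat.card (ShaP 2 W) = 1 := by
  subst hW
  have h : IsQ (cq (1 : K4)).toAffine iK 1 := ⟨rfl, iK_sq, one_ne_zero⟩
  have hb := isQ_bc (k := K4) (z := iK) (d := 1) one_ne_zero iK_sq K4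
  have hns : (Affine.baseChange (cq (1 : K4)) K4).Nonsingular (algebraMap K4 K4 (-iK))
      (algebraMap K4 K4 (1 + iK)) := by
    have h1 := P0_nons K4 hb (map_one _)
    rw [map_neg, map_add, map_one]
    exact h1
  have hM : CocCl (one_ne_zero : (1 : K4) ≠ 0) iK_sq (.some _ _ hns) :=
    cocCl_of_sel one_ne_zero iK_sq (neg_ne_zero.2 h.z0) sel_one hns
  have hP₀ : (mu hb)^[3] (.some _ _ hns) = 0 := by
    change mu hb (mu hb (mu hb _)) = 0
    rw [mu_P0 hb (map_one _) hns (map_neg _ _), mu_te, mu_tq]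
  have hP := desc_ptsG one_ne_zero iK_sq hM hP₀ h
  refine ⟨fin_of_descG h 3 hP, ?_, card_shaPG one_ne_zero iK_sq hM⟩
  have h2 := prim_eq h (n := 3) (no_tq_three h rfl not_sq_iK)
  have h3 := (ker_3 h rfl).2
  rw [← h2] at h3
  exact h3

end

end Pool.Agent.Lib.MP_1a91b9_ntQ.C
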