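import Pool.Agent.Lib.MP_1a91b9_ntQ.C.TamLm
import Pool.Agent.Lib.MP_1a91b9_ntQ.A.LocDef4
import Pool.Agent.Lib.MP_1a91b9_ntQ.R.Arith4

/-!
# MP_1a91b9_nt (quartic twists), Tamagawa numbers of `y² = x³ - D x` over `ℚ(i)`, the places

`tam = 2` where `D` is a uniformizer, `1` at the good odd places; at `1 + i`, `D` a unit:
`1` if `D` is not `± 1` modulo `4` (kinds (I), (II), (III), good reduction included).
The hypothesis `hu` says that the scaling factor of the minimal change is a unit.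
-/

set_option autoImplicit false
set_option linter.unusedSectionVars false

namespace Pool.Agent.Lib.MP_1a91b9_ntQ.C

open NumberField IsDedekindDomain WithZero WeierstrassCurve Pool.Agent.Lib.MP_1a91b9_ntQ
open Pool.Agent.Lib.MP_1a91b9_ntH.C (nsSet nsG tam_def)
open Pool.Agent.Lib.MP_1a91b9_ntH.C.TamT (index_smul Itg_bc)
open Pool.Agent.Lib.MP_1a91b9_ntK.C (coef_gen tam_eq tam_one)
open Pool.Agent.Lib.MP_1a91b9_ntT.S9 (tam minModel minChange minModel_isMinimal)
open Pool.Agent.Lib.MP_1a91b9_ntT.CT (min_int min_le ns_unit ns)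
open scoped Classical

section general

variable {N : Type*} [Field N] [NumberField N] (v : HeightOneSpectrum (𝓞 N))

/-- The Tamagawa number on an integral equation if the scaling factor is a unit. -/
theorem tam_eq_hu (W : WeierstrassCurve N)
    (hI : ∃ I : WeierstrassCurve (v.adicCompletionIntegers N),
      W.baseChange (v.adicCompletion N) = I.baseChange (v.adicCompletion N))
    (hu : Valued.v ((minChange W v).u : v.adicCompletion N) = (1 : ℤᵐ⁰)) :
    tam W v = (nsG (Valued.v : Valuation (v.adicCompletion N) ℤᵐ⁰)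
      (W.baseChange (v.adicCompletion N))).index := by
  rw [tam_def]
  have hm := minModel_isMinimal W v
  unfold minModel at hm ⊢
  generalize W.baseChange (v.adicCompletion N) = W₀ at *
  generalize minChange W v = C at *
  have hM := Itg_bc (min_int (C • W₀) hm)
  obtain ⟨hr, hs⟩ := coef_gen (Valued.v : Valuation (v.adicCompletion N) ℤᵐ⁰) (Itg_bc hI) hM hu
  exact index_smul hM hu hr hs

/-- Potentially non-minimal equation, good reduction. -/
theorem tam_one_of (W : WeierstrassCurve N) (C₀ : VariableChange (v.adicCompletion N))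
    (hI : ∃ I : WeierstrassCurve (v.adicCompletionIntegers N),
      C₀ • W.baseChange (v.adicCompletion N) = I.baseChange (v.adicCompletion N))
    (hΔ : Valued.v (C₀ • W.baseChange (v.adicCompletion N)).Δ = (1 : ℤᵐ⁰)) : tam W v = 1 := by
  rw [tam_def]
  have hm := minModel_isMinimal W v
  unfold minModel at hm ⊢
  generalize W.baseChange (v.adicCompletion N) = W₀ at *
  generalize minChange W v = C at *
  obtain ⟨I, hI⟩ := hI
  obtain ⟨I', hI'⟩ := min_int (C • W₀) hm
  have e : (C * C₀⁻¹) • (C₀ • W₀) = C • W₀ := by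
    rw [← mul_smul, inv_mul_cancel_right]
  have h1 := min_le (C₀ • W₀) I hI (C * C₀⁻¹) (by rw [e]; exact hm)
  rw [e, hΔ] at h1
  have h2 : Valued.v (C • W₀).Δ ≤ (1 : ℤᵐ⁰) := by
    rw [hI', WeierstrassCurve.baseChange, WeierstrassCurve.map_Δ]
    exact I'.Δ.2
  have h4 := ns_unit (C • W₀) I' hI' (le_antisymm h2 h1)
  have h5 : nsG Valued.v (C • W₀) = ns (C • W₀) := rfl
  rw [h5, h4, AddSubgroup.index_top]

theorem hval (x : N) : (Valued.v : Valuation (v.adicCompletion N) ℤᵐ⁰)
    (algebraMap N (v.adicCompletion N) x) = v.valuation N x :=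
  HeightOneSpectrum.valuedAdicCompletion_eq_valuation' v x

/-- an integer near an integral element of the completion -/
theorem near (x : v.adicCompletion N) (hx : Valued.v x ≤ (1 : ℤᵐ⁰)) :
    ∃ y : 𝓞 N, Valued.v (x - algebraMap N (v.adicCompletion N) (y : N)) < (1 : ℤᵐ⁰) := by
  have hn1 : exp (-(1 : ℤ)) < (1 : ℤᵐ⁰) := by
    rw [← exp_zero, exp_lt_exp]
    omega
  obtain ⟨c, hc⟩ := HeightOneSpectrum.valuedAdicCompletion_surjective N v (exp (-(1 : ℤ)))
  have hcr : Valued.v.restrict c ≠ 0 := by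
    rw [Ne, Valuation.restrict_eq_zero_iff, hc]
    exact exp_ne_zero
  have hO : IsOpen ((fun y : v.adicCompletion N => x - y) ⁻¹'
      {z : v.adicCompletion N | Valued.v.restrict z ≤ Valued.v.restrict c}) :=
    (Valued.isOpen_closedBall _ hcr).preimage (continuous_const.sub continuous_id)
  obtain ⟨z, hz⟩ := (HeightOneSpectrum.denseRange_algebraMap N v).exists_mem_open hO
    ⟨x, by
      rw [Set.mem_preimage, sub_self, Set.mem_ofPred_eq, map_zero]
      exact zero_le⟩
  rw [Set.mem_preimage, Set.mem_ofPred_eq, Valuation.restrict_le_iff, hc] at hz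
  have hz1 := hz.trans_lt hn1
  have hvz : v.valuation N z ≤ 1 := by
    rw [← hval]
    have e : algebraMap N (v.adicCompletion N) z =
        x - (x - algebraMap N (v.adicCompletion N) z) := by ring
    rw [e]
    exact (Valuation.map_sub _ _ _).trans (max_le hx hz1.le)
  obtain ⟨y, hy⟩ := v.exists_valuation_sub_lt_of_integer (K := N) hvz 1
  refine ⟨y, ?_⟩
  have e : x - algebraMap N (v.adicCompletion N) (y : N) =
      (x - algebraMap N (v.adicCompletion N) z) - algebraMap N (v.adicCompletion N) ((y : N) - z) := by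
    rw [map_sub]
    ring
  rw [e]
  refine (Valuation.map_sub _ _ _).trans_lt (max_lt hz1 ?_)
  rw [hval]
  simpa using hy

/-- a place which contains a prime element is generated by it -/
theorem ideal_eq' {v : HeightOneSpectrum (𝓞 N)} {p : 𝓞 N} (hp : Prime p) (h : p ∈ v.asIdeal) :
    v.asIdeal = Ideal.span {p} := by
  have h1 : (Ideal.span {p}).IsPrime := (Ideal.span_singleton_prime hp.ne_zero).2 hp
  have h2 : Ideal.span {p} ≠ ⊥ := by
    rw [Ne, Ideal.span_singleton_eq_bot]
    exact hp.ne_zero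
  have h3 : (Ideal.span {p}).IsMaximal := h1.isMaximal h2
  exact (h3.eq_of_le v.isPrime.ne_top ((Ideal.span_singleton_le_iff_mem _).2 h)).symm

theorem val_prime' {v : HeightOneSpectrum (𝓞 N)} {p : 𝓞 N} (hp : Prime p) (h : p ∈ v.asIdeal) :
    v.valuation N (p : N) = exp (-1 : ℤ) := by
  have h1 : v.valuation N (p : N) = v.intValuation p := v.valuation_of_algebraMap p
  rw [h1]
  exact v.intValuation_singleton hp.ne_zero (ideal_eq' hp h)

theorem val_le_pow' {v : HeightOneSpectrum (𝓞 N)} {p : 𝓞 N} (hp : Prime p) (h : p ∈ v.asIdeal)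
    {x : 𝓞 N} (n : ℕ) : v.valuation N (x : N) ≤ exp (-(n : ℤ)) ↔ p ^ n ∣ x := by
  have h1 : v.valuation N (x : N) = v.intValuation x := v.valuation_of_algebraMap x
  rw [h1, v.intValuation_le_pow_iff_mem, ideal_eq' hp h, Ideal.span_singleton_pow,
    Ideal.mem_span_singleton]

theorem val_one' {v : HeightOneSpectrum (𝓞 N)} {x : 𝓞 N} (h : x ∉ v.asIdeal) :
    v.valuation N (x : N) = 1 := v.valuation_eq_one_iff_notMem.2 h

end general

section

variable {D : 𝓞 K4} {v : HeightOneSpectrum (𝓞 K4)}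

theorem wq_bc (D : 𝓞 K4) (v : HeightOneSpectrum (𝓞 K4)) :
    (WD4 D).baseChange (v.adicCompletion K4) =
      wq (algebraMap K4 (v.adicCompletion K4) (D : K4)) := by
  rw [WeierstrassCurve.baseChange]
  ext <;> simp [WD4, wq, WeierstrassCurve.map]

theorem wq_int (D : 𝓞 K4) (v : HeightOneSpectrum (𝓞 K4)) :
    ∃ I : WeierstrassCurve (v.adicCompletionIntegers K4),
      (WD4 D).baseChange (v.adicCompletion K4) = I.baseChange (v.adicCompletion K4) := by
  have hD : Valued.v (algebraMap K4 (v.adicCompletion K4) (D : K4)) ≤ (1 : ℤᵐ⁰) := by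
    rw [hval]
    exact v.valuation_le_one D
  refine ⟨⟨0, 0, 0, -⟨algebraMap K4 (v.adicCompletion K4) (D : K4), hD⟩, 0⟩, ?_⟩
  rw [wq_bc]
  ext <;> simp [wq, WeierstrassCurve.map, WeierstrassCurve.baseChange]

theorem wq_val (D : 𝓞 K4) (v : HeightOneSpectrum (𝓞 K4)) :
    Valued.v ((WD4 D).baseChange (v.adicCompletion K4)).Δ =
      v.valuation K4 2 ^ 6 * v.valuation K4 (D : K4) ^ 3 := by
  have e : (wq (algebraMap K4 (v.adicCompletion K4) (D : K4))).Δ =
      algebraMap K4 (v.adicCompletion K4) (2 ^ 6 * (D : K4) ^ 3) := by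
    rw [wq_disc, map_mul, map_pow, map_pow, map_ofNat]
    norm_num
  rw [wq_bc, e, hval, map_mul, map_pow, map_pow]

theorem charZero4 (v : HeightOneSpectrum (𝓞 K4)) : CharZero (v.adicCompletion K4) :=
  charZero_of_injective_algebraMap (algebraMap K4 (v.adicCompletion K4)).injective

theorem two_val (v : HeightOneSpectrum (𝓞 K4)) :
    v.valuation K4 (2 : K4) = v.valuation K4 (lam : K4) ^ 2 := by
  have h1 : ((lam : 𝓞 K4) : K4) ^ 2 = 2 * iK := by
    have := congrArg (algebraMap (𝓞 K4) K4) lam_sq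
    rw [map_pow, map_mul, map_ofNat] at this
    exact this
  have h2 : v.valuation K4 iK = 1 := by
    have := congrArg (v.valuation K4) iK_sq
    rw [map_pow, Valuation.map_neg, map_one] at this
    exact (pow_eq_one_iff_of_nonneg zero_le (by norm_num)).1 this
  rw [← map_pow, h1, map_mul, h2, mul_one]

/-- the value of `2` at the other places -/
theorem two_val_one (h : lam ∉ v.asIdeal) : v.valuation K4 (2 : K4) = 1 := by
  rw [two_val, val_one' h, one_pow]

theorem lam_val (h : lam ∈ v.asIdeal) : v.valuation K4 (lam : K4) = exp (-1 : ℤ) :=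
  val_prime' lam_prime h

/-- the local data at `1 + i` -/
theorem hyp_lam (h : lam ∈ v.asIdeal) :
    Lm.Hyp (Valued.v : Valuation (v.adicCompletion K4) ℤᵐ⁰)
      (algebraMap K4 (v.adicCompletion K4) iK) := by
  refine ⟨?_, ?_, ?_⟩
  · rw [← map_pow, iK_sq, map_neg, map_one]
  · have e : 1 + algebraMap K4 (v.adicCompletion K4) iK =
        algebraMap K4 (v.adicCompletion K4) ((lam : 𝓞 K4) : K4) := by
      have e1 : ((lam : 𝓞 K4) : K4) = 1 + iK := by
        have e2 : ((lam : 𝓞 K4) : K4) = algebraMap (𝓞 K4) K4 (1 + iO) := rfl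
        rw [e2, map_add, map_one]
        rfl
      rw [e1, map_add, map_one]
    rw [e, hval]
    exact lam_val h
  · intro x hx
    obtain ⟨y, hy⟩ := near v x hx
    have key : ∀ z : 𝓞 K4, lam ∣ y - z →
        Valued.v (x - algebraMap K4 (v.adicCompletion K4) (z : K4)) < (1 : ℤᵐ⁰) := by
      intro z hz
      have h1 : v.valuation K4 ((y - z : 𝓞 K4) : K4) < 1 := by
        refine (v.valuation_lt_one_iff_mem (y - z)).2 ?_
        exact v.asIdeal.mem_of_dvd hz h
      have e : x - algebraMap K4 (v.adicCompletion K4) (z : K4) =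
          (x - algebraMap K4 (v.adicCompletion K4) (y : K4)) +
            algebraMap K4 (v.adicCompletion K4) ((y - z : 𝓞 K4) : K4) := by
        have e1 : ((y - z : 𝓞 K4) : K4) = (y : K4) - (z : K4) := map_sub (algebraMap (𝓞 K4) K4) y z
        rw [e1, map_sub]
        ring
      rw [e]
      refine (Valuation.map_add _ _ _).trans_lt (max_lt hy ?_)
      rw [hval]
      exact h1
    by_cases h2 : lam ∣ y
    · left
      have := key 0 (by rwa [sub_zero])
      have e1 : ((0 : 𝓞 K4) : K4) = 0 := map_zero (algebraMap (𝓞 K4) K4)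
      rwa [e1, map_zero, sub_zero] at this
    · right
      have h3 : lam ∣ y - 1 := by
        rw [lam_dvd_iff] at h2 ⊢
        rw [cp_sub, cp_one]
        simp only [Prod.fst_sub, Prod.snd_sub]
        omega
      have := key 1 h3
      have e1 : ((1 : 𝓞 K4) : K4) = 1 := map_one (algebraMap (𝓞 K4) K4)
      rwa [e1, map_one] at this

/-- **A uniformizer.** `hu` is not needed at the odd places (see `tam4_dvd_odd`). -/
theorem tam4_dvd {q : 𝓞 K4} (hq : Prime q) (hqD : q ∣ D) (hq2 : ¬ q ^ 2 ∣ D) (hv : q ∈ v.asIdeal)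
    (hu : Valued.v ((minChange (WD4 D) v).u : v.adicCompletion K4) = (1 : ℤᵐ⁰)) :
    tam (WD4 D) v = 2 := by
  have hc := charZero4 v
  have hle : v.valuation K4 (D : K4) ≤ exp (-1 : ℤ) := by
    have := (val_le_pow' hq hv (x := D) 1).2 (by rwa [pow_one])
    simpa using this
  have hgt : exp (-2 : ℤ) < v.valuation K4 (D : K4) := by
    rw [← not_le]
    intro h1
    exact hq2 ((val_le_pow' hq hv (x := D) 2).1 (by simpa using h1))
  have hD : v.valuation K4 (D : K4) = exp (-1 : ℤ) := by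
    have h0 : v.valuation K4 (D : K4) ≠ 0 := (zero_le.trans_lt hgt).ne'
    obtain ⟨n, hn⟩ : ∃ n : ℤ, v.valuation K4 (D : K4) = exp n :=
      ⟨WithZero.log _, (WithZero.exp_log h0).symm⟩
    rw [hn, exp_le_exp] at hle
    rw [hn, exp_lt_exp] at hgt
    rw [hn]
    congr 1
    omega
  rw [tam_eq_hu v (WD4 D) (wq_int D v) hu, wq_bc]
  refine index_two _ ?_ ?_
  · rw [hval]; exact hD
  · by_cases h2 : lam ∈ v.asIdeal
    · exact Or.inl (Lm.v3 (hyp_lam h2))
    · right
      have := two_val_one h2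
      rw [← hval, map_ofNat] at this
      exact this

theorem tam4_dvd_odd {q : 𝓞 K4} (hq : Prime q) (hqD : q ∣ D) (hq2 : ¬ q ^ 2 ∣ D)
    (hv : q ∈ v.asIdeal) (hl : lam ∉ v.asIdeal) : tam (WD4 D) v = 2 := by
  have hc := charZero4 v
  have hle : v.valuation K4 (D : K4) ≤ exp (-1 : ℤ) := by
    have := (val_le_pow' hq hv (x := D) 1).2 (by rwa [pow_one])
    simpa using this
  have hgt : exp (-2 : ℤ) < v.valuation K4 (D : K4) := by
    rw [← not_le]
    intro h1
    exact hq2 ((val_le_pow' hq hv (x := D) 2).1 (by simpa using h1))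
  have hD : v.valuation K4 (D : K4) = exp (-1 : ℤ) := by
    have h0 : v.valuation K4 (D : K4) ≠ 0 := (zero_le.trans_lt hgt).ne'
    obtain ⟨n, hn⟩ : ∃ n : ℤ, v.valuation K4 (D : K4) = exp n :=
      ⟨WithZero.log _, (WithZero.exp_log h0).symm⟩
    rw [hn, exp_le_exp] at hle
    rw [hn, exp_lt_exp] at hgt
    rw [hn]
    congr 1
    omega
  rw [tam_eq v (WD4 D) (wq_int D v), wq_bc]
  · refine index_two _ ?_ ?_
    · rw [hval]; exact hD
    · right
      have := two_val_one hl
      rw [← hval, map_ofNat] at this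
      exact this
  · rw [wq_val, two_val_one hl, hD, one_pow, one_mul, ← exp_nsmul, exp_lt_exp]
    norm_num

/-- The good odd places. -/
theorem tam4_good (hl : lam ∉ v.asIdeal) (hD : D ∉ v.asIdeal) : tam (WD4 D) v = 1 := by
  refine tam_one v (WD4 D) (wq_int D v) ?_
  rw [wq_val, two_val_one hl, val_one' hD]
  simp

theorem coe_sub_one (x y : 𝓞 K4) : ((x - y : 𝓞 K4) : K4) = (x : K4) - (y : K4) :=
  map_sub (algebraMap (𝓞 K4) K4) x y

/-- value in the completion of a difference -/
theorem val_sub (x y : 𝓞 K4) :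
    Valued.v (algebraMap K4 (v.adicCompletion K4) (x : K4) -
      algebraMap K4 (v.adicCompletion K4) (y : K4)) = v.valuation K4 ((x - y : 𝓞 K4) : K4) := by
  rw [coe_sub_one, ← map_sub, hval]

/-- Kind (I). -/
theorem tam4_lam_I (hl : ¬ lam ∣ D) (h1 : ¬ lam ^ 3 ∣ D - 1) (h2 : ¬ lam ^ 3 ∣ D + 1)
    (hv : lam ∈ v.asIdeal)
    (hu : Valued.v ((minChange (WD4 D) v).u : v.adicCompletion K4) = (1 : ℤᵐ⁰)) :
    tam (WD4 D) v = 1 := by
  have hc := charZero4 v
  have hD : Valued.v (algebraMap K4 (v.adicCompletion K4) (D : K4)) = (1 : ℤᵐ⁰) := by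
    rw [hval]
    apply val_one'
    intro hm
    rw [ideal_eq' lam_prime hv, Ideal.mem_span_singleton] at hm
    exact hl hm
  have key : ∀ x : 𝓞 K4, ¬ lam ^ 3 ∣ x → exp (-3 : ℤ) < v.valuation K4 (x : K4) := by
    intro x hx
    rw [← not_le]
    intro h3
    exact hx ((val_le_pow' lam_prime hv (x := x) 3).1 (by simpa using h3))
  rw [tam_eq_hu v (WD4 D) (wq_int D v) hu, wq_bc]
  refine Lm.index_one (hyp_lam hv) hD (Lm.no_I (hyp_lam hv) hD ?_ ?_)
  · have := key _ h1
    rw [← val_sub] at this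
    have e1 : ((1 : 𝓞 K4) : K4) = 1 := map_one (algebraMap (𝓞 K4) K4)
    rwa [e1, map_one] at this
  · have h2' : ¬ lam ^ 3 ∣ D - (-1) := by rwa [sub_neg_eq_add]
    have := key _ h2'
    rw [← val_sub] at this
    have e1 : ((-1 : 𝓞 K4) : K4) = -1 := by
      have e2 : ((-1 : 𝓞 K4) : K4) = algebraMap (𝓞 K4) K4 (-1) := rfl
      rw [e2, map_neg, map_one]
    rwa [e1, map_neg, map_one, sub_neg_eq_add] at this

/-- Kind (II). -/
theorem tam4_lam_II (h : 4 ∣ D - (3 + 2 * iO)) (hv : lam ∈ v.asIdeal)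
    (hu : Valued.v ((minChange (WD4 D) v).u : v.adicCompletion K4) = (1 : ℤᵐ⁰)) :
    tam (WD4 D) v = 1 := by
  have hc := charZero4 v
  have hlam4 : lam ^ 4 ∣ D - (3 + 2 * iO) := by
    rw [lam_pow4]
    exact (neg_dvd).2 h
  have hm : v.valuation K4 ((D - (3 + 2 * iO) : 𝓞 K4) : K4) ≤ exp (-4 : ℤ) := by
    have := (val_le_pow' lam_prime hv (x := D - (3 + 2 * iO)) 4).2 hlam4
    simpa using this
  rw [← val_sub] at hm
  have e1 : ((3 + 2 * iO : 𝓞 K4) : K4) = 3 + 2 * iK := by
    have e2 : ((3 + 2 * iO : 𝓞 K4) : K4) = algebraMap (𝓞 K4) K4 (3 + 2 * iO) := rfl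
    rw [e2, map_add, map_mul, map_ofNat, map_ofNat]
    rfl
  rw [e1, map_add, map_mul, map_ofNat, map_ofNat] at hm
  have hD : Valued.v (algebraMap K4 (v.adicCompletion K4) (D : K4)) = (1 : ℤᵐ⁰) := by
    rw [hval]
    apply val_one'
    intro hmem
    rw [ideal_eq' lam_prime hv, Ideal.mem_span_singleton] at hmem
    have h3 : lam ∣ (3 + 2 * iO : 𝓞 K4) := by
      have h4 : lam ∣ D - (3 + 2 * iO) := (dvd_pow_self lam (by norm_num)).trans hlam4
      have := dvd_sub hmem h4
      rwa [sub_sub_cancel] at this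
    rw [lam_dvd_iff] at h3
    have e3 : (3 + 2 * iO : 𝓞 K4) = ((3 : ℤ) : 𝓞 K4) + ((2 : ℤ) : 𝓞 K4) * iO := by push_cast; ring
    rw [e3, cp_coords] at h3
    norm_num at h3
  rw [tam_eq_hu v (WD4 D) (wq_int D v) hu, wq_bc]
  exact Lm.index_one (hyp_lam hv) hD (Lm.no_II (hyp_lam hv) hm)

end

end Pool.Agent.Lib.MP_1a91b9_ntQ.C
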