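import Pool.Agent.Lib.MP_1a91b9_ntQ.C.Cmp4
import Pool.Agent.Lib.MP_1a91b9_ntQ.C.Tam4

/-!
# MP_1a91b9_nt (quartic twists), Tamagawa numbers at `lam`: the classes `D = ± 1` modulo `4`
-/

set_option autoImplicit false

namespace Pool.Agent.Lib.MP_1a91b9_ntQ.C

open NumberField WithZero IsDedekindDomain WeierstrassCurve Pool.Agent.Lib.MP_1a91b9_nuT
open Pool.Agent.Lib.MP_1a91b9_ntQ
open Pool.Agent.Lib.MP_1a91b9_ntH.C (nsSet nsG)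
open Pool.Agent.Lib.MP_1a91b9_ntT.S9 (tam minChange)
open scoped Classical

variable {D : 𝓞 K4} {v : HeightOneSpectrum (𝓞 K4)}

theorem v_eq_lam (hv : lam ∈ v.asIdeal) : v = pv lam prime_lam := by
  apply HeightOneSpectrum.ext
  rw [ideal_eq' prime_lam hv]
  rfl

theorem tam4_X_eq (hv : lam ∈ v.asIdeal)
    (hu : Valued.v ((minChange (WD4 D) v).u : v.adicCompletion K4) = (1 : ℤᵐ⁰)) :
    tam (WD4 D) v = (nsG (Valued.v : Valuation L4 ℤᵐ⁰) (wq (algebraMap K4 L4 (D : K4)))).index := by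
  rw [tam_eq_hu v (WD4 D) (wq_int D v) hu, wq_bc]
  obtain rfl := v_eq_lam hv
  rfl

/-- (X1) -/
theorem tam4_lam_X1 (h : 4 ∣ D + 1) (hv : lam ∈ v.asIdeal)
    (hu : Valued.v ((minChange (WD4 D) v).u : v.adicCompletion K4) = (1 : ℤᵐ⁰)) :
    tam (WD4 D) v = 2 :=
  (tam4_X_eq hv hu).trans (idx_X1 h)

/-- (X2) -/
theorem tam4_lam_X2 (h : 8 ∣ D - (1 + 4 * iO) ∨ 8 ∣ D - (5 + 4 * iO)) (hv : lam ∈ v.asIdeal)
    (hu : Valued.v ((minChange (WD4 D) v).u : v.adicCompletion K4) = (1 : ℤᵐ⁰)) :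
    tam (WD4 D) v = 2 :=
  (tam4_X_eq hv hu).trans (idx_X2 h)

/-- (X3) -/
theorem tam4_lam_X3 (h : 8 ∣ D - 1 ∨ 8 ∣ D - 5) (hv : lam ∈ v.asIdeal)
    (hu : Valued.v ((minChange (WD4 D) v).u : v.adicCompletion K4) = (1 : ℤᵐ⁰)) :
    tam (WD4 D) v = 4 :=
  (tam4_X_eq hv hu).trans (idx_X3 h)

end Pool.Agent.Lib.MP_1a91b9_ntQ.C
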