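import Pool.Agent.Lib.MP_1a91b9_ntQ.C.Q24
import Pool.Agent.Lib.MP_1a91b9_ntQ.C.TamXK
import Pool.Agent.Lib.MP_1a91b9_ntQ.A.ValX

/-!
# Quartic twists, part C, file Q24X: the formula modulo `2` for the class (X), `D = ± 1` modulo `4`

For every nonempty `S` with `∑ a = 0` and `D = ± ∏ q` : `g(1) √4 / Ω = q ∏ c_v / 4` with a rational number
`q` with odd denominator, and `q` is odd if and only if the cofactor is not `0`.
-/

set_option autoImplicit false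
set_option linter.unusedSectionVars false

namespace Pool.Agent.Lib.MP_1a91b9_ntQ.C

open NumberField IsDedekindDomain WithZero WeierstrassCurve Pool.Agent.Lib.MP_1a91b9_ntQ
  Pool.Agent.Lib.MP_1a91b9_nuT
open Pool.Agent.Lib.MP_1a91b9_ntT.S9 (tam normFactor period minChange)
open Pool.Agent.Lib.MP_1a91b9_ntT3.S9 (UnitAt ShaP PPart PPartQ unitAt_of_val ppartQ_of)
open scoped Classical

/-- **The formula modulo `2`** from the valuation of `nu4 k S / lm ^ e`. -/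
theorem form4_ofe {D : 𝓞 K4} (hD0 : D ≠ 0) {S : Finset Pg} (hn : ‖em D‖ = ‖em (DDq S)‖)
    (hp : period (WD4 D) = 2 * (‖Om‖ ^ 2 / ‖em D‖ ^ (1 / 2 : ℝ))) {k : ZMod 4} {g1 : ℂ}
    (hg : g1 = Pool.Agent.Lib.MP_1a91b9_ntQ.L4 k S 1 *
      (starRingEnd ℂ) (Pool.Agent.Lib.MP_1a91b9_ntQ.L4 k S 1)) {b : Prop} {e : ℕ}
    (hV : Vc (nu4 k S / lm ^ e) b) {T : ℕ} (hT : T = 2 ^ (S.card + e)) :
    ∃ q : ℚ, ¬ 2 ∣ q.den ∧ (¬ (2 : ℤ) ∣ q.num ↔ b) ∧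
      g1 * (√|(discr K4 : ℝ)| : ℝ) / (period (WD4 D) : ℝ) = (q * ((T : ℝ) / 4) : ℝ) := by
  have hg' := part4_g hg
  refine form4_gen (by rw [hT]; positivity) (prod_perAt_ne hD0)
    (x := ‖nu4 k S / lm ^ e‖ ^ 2 * ‖em (DDq S)‖ ^ (((-3 : ℤ) : ℝ) / 2)) ?_
    (rat4 hD0 hn hg') (fun hb B hB => ?_) fun hb B hB => ?_
  · have hl : (‖lm‖ ^ 2) ^ e = 2 ^ e := by rw [norm_lm_sq]
    have h1 : ‖nu4 k S‖ ^ 2 = ‖nu4 k S / lm ^ e‖ ^ 2 * 2 ^ e := by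
      rw [norm_div, div_pow, norm_pow, ← pow_mul, mul_comm e 2, pow_mul, hl,
        div_mul_cancel₀ _ (by positivity)]
    rw [val4 hn one_ne_zero (q4_std hp) hg', hT, h1]
    push_cast
    rw [pow_add]
    ring
  · rw [Complex.ofReal_mul, map_mul, part4_normsq hB (hV.1 hb), part4_rpow hB (nz_DDq S) (-3),
      one_mul]
  · rw [Complex.ofReal_mul, map_mul, part4_rpow hB (nz_DDq S) (-3), mul_one]
    exact part4_normsq_lt hB (hV.2 hb)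

/-- the coordinates in the class (X) -/
theorem q4x_cp {S : Finset Pg} (hA : ∑ q ∈ S, aa q.1 = 0) :
    ∃ m n : ℤ, cp (DDq S) = (1 - 2 * (m + n), 2 * (m - n)) ∧ (m + n) % 2 = 0 ∧
      ((∑ q ∈ S, nn q.1 = 2 ↔ (m + n) % 4 = 2) ∧ (∑ q ∈ S, nn q.1 = 1 → False) ∧
      ∑ q ∈ S, bb q.1 = (n : ZMod 2)) := by
  obtain ⟨m, n, h⟩ := in4_form (DDq_in4 S)
  have hnn : ∑ q ∈ S, nn q.1 = ((m + n : ℤ) : ZMod 4) := by
    rw [← nn_DDq, h, nn_form]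
    push_cast
    rfl
  have haa : ∑ q ∈ S, aa q.1 = md (∑ q ∈ S, nn q.1) := by
    rw [map_sum]
    rfl
  have hev : (m + n) % 2 = 0 := by
    rw [haa, hnn] at hA
    have h3 : md (((m + n : ℤ) : ZMod 4)) = ((m + n : ℤ) : ZMod 2) := map_intCast md _
    rw [h3, ZMod.intCast_zmod_eq_zero_iff_dvd] at hA
    omega
  refine ⟨m, n, ?_, hev, ?_, ?_, ?_⟩
  · rw [h, cp_form]
    ext <;> simp <;> ring
  · rw [hnn]
    constructor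
    · intro h2
      have e : ((m + n - 2 : ℤ) : ZMod 4) = 0 := by
        push_cast at h2 ⊢
        rw [h2, sub_self]
      rw [ZMod.intCast_zmod_eq_zero_iff_dvd] at e
      omega
    · intro h2
      have e : ((m + n - 2 : ℤ) : ZMod 4) = 0 := by
        rw [ZMod.intCast_zmod_eq_zero_iff_dvd]
        omega
      push_cast at e ⊢
      linear_combination e
  · rw [hnn]
    intro h2
    have e : ((m + n - 1 : ℤ) : ZMod 4) = 0 := by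
      push_cast at h2 ⊢
      rw [h2, sub_self]
    rw [ZMod.intCast_zmod_eq_zero_iff_dvd] at e
    omega
  · rw [← bb_DDq, h, bb_form]

theorem q4x_ng {κ : ZMod 4} {S : Finset Pg} {a b : ℤ} (h : cp (Dq κ S) = (a, b))
    (hb : b % 4 = 0) : ¬ 8 ∣ Dq κ S - (1 + 2 * iO) ∧ ¬ 8 ∣ Dq κ S - (1 - 2 * iO) := by
  have hng : ¬ (8 ∣ Dq κ S - (1 + 2 * iO) ∨ 8 ∣ Dq κ S - (1 - 2 * iO)) := by
    rw [q4_good, h]
    rintro ⟨-, h1⟩
    simp only at h1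
    omega
  exact not_or.1 hng

/-- **Class (X1)**, `D = -1` modulo `4`. -/
theorem form4_X1 {S : Finset Pg} (hS : S.Nonempty) (hA : ∑ q ∈ S, aa q.1 = 0) :
    ∃ g : ℂ → ℂ, Differentiable ℂ g ∧ (∀ s : ℂ, 3 / 2 < s.re → g s = (WD4 (Dq 2 S)).LSeries s) ∧
      ∃ q : ℚ, ¬ 2 ∣ q.den ∧ (¬ (2 : ℤ) ∣ q.num ↔
        kapX s4 (fun q => aa q.1) (if ∑ q ∈ S, nn q.1 = 2 then 1 else 0) S ≠ 0) ∧
        g 1 * (√|(discr K4 : ℝ)| : ℝ) / (period (WD4 (Dq 2 S)) : ℝ) =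
          (q * (((∏ᶠ v : HeightOneSpectrum (𝓞 K4), tam (WD4 (Dq 2 S)) v : ℕ) : ℝ) / 4) : ℝ) := by
  obtain ⟨w, hw⟩ := exists_w4
  obtain ⟨m, n, hc, hev, -, h1n, -⟩ := q4x_cp hA
  have hD := (q4_cpD (κ := 2) hc).2.2.1 rfl
  obtain ⟨hn1, hn2⟩ := q4x_ng hD (by omega)
  have hsq := q4_sq 2 S
  have h4 : 4 ∣ Dq 2 S + 1 := by
    have := (q4_4 (a := -1) (b := 0) (x := Dq 2 S)).2 (by
      rw [hD]
      constructor
      · simp only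
        omega
      · simp only
        omega)
    push_cast at this
    rwa [zero_mul, add_zero, sub_neg_eq_add] at this
  have hT : ∏ᶠ v : HeightOneSpectrum (𝓞 K4), tam (WD4 (Dq 2 S)) v = 2 ^ (S.card + 1) := by
    rw [finprod_tam4 (part4_PD 2 S) hw, tam4_lam_X1 h4 hw (per4_u hsq hn1 hn2 w), pow_succ]
  obtain ⟨g, hgd, hgs, hg⟩ := ser4 2 S fun v hv => by
    rw [eq_pv_lam hv, Dq_two]
    refine (locLG S 0).2 fun h => h1n ?_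
    rw [← nn_DDq]
    exact h
  have hk : (2 : ZMod 4) + 2 * ∑ q ∈ S, nn q.1 = 2 := by rw [two_mul_nn hA, add_zero]
  rw [hk] at hg
  obtain ⟨q, hq⟩ := form4_ofe (part4_ne 2 S) (part4_norm 2 S) (period4 hsq hn1 hn2) hg
    (Vc_X1 hS hA) hT
  exact ⟨g, hgd, hgs, q, hq⟩

/-- **Class (X2)**, `D = 1` modulo `4`, `Im D = 4` modulo `8`. -/
theorem form4_X2 {S : Finset Pg} (hS : S.Nonempty) (hA : ∑ q ∈ S, aa q.1 = 0)
    (hc : (if ∑ q ∈ S, nn q.1 = 2 then 1 else 0 : ZMod 2) + ∑ q ∈ S, bb q.1 = 1) :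
    ∃ g : ℂ → ℂ, Differentiable ℂ g ∧ (∀ s : ℂ, 3 / 2 < s.re → g s = (WD4 (Dq 0 S)).LSeries s) ∧
      ∃ q : ℚ, ¬ 2 ∣ q.den ∧ (¬ (2 : ℤ) ∣ q.num ↔ kap0 s4 S ≠ 0) ∧
        g 1 * (√|(discr K4 : ℝ)| : ℝ) / (period (WD4 (Dq 0 S)) : ℝ) =
          (q * (((∏ᶠ v : HeightOneSpectrum (𝓞 K4), tam (WD4 (Dq 0 S)) v : ℕ) : ℝ) / 4) : ℝ) := by
  obtain ⟨w, hw⟩ := exists_w4
  obtain ⟨m, n, hcp, hev, h2n, -, hb⟩ := q4x_cp hA
  have hD := (q4_cpD (κ := 0) hcp).1 rfl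
  obtain ⟨hn1, hn2⟩ := q4x_ng hD (by omega)
  have hsq := q4_sq 0 S
  have h8 : 8 ∣ Dq 0 S - (1 + 4 * iO) ∨ 8 ∣ Dq 0 S - (5 + 4 * iO) := by
    have e1 := q4_8 (a := 1) (b := 4) (x := Dq 0 S)
    have e2 := q4_8 (a := 5) (b := 4) (x := Dq 0 S)
    push_cast at e1 e2
    rw [e1, e2, hD]
    simp only
    rw [hb] at hc
    by_cases h : (m + n) % 4 = 2
    · rw [if_pos (h2n.2 h)] at hc
      have hn0 : (n : ZMod 2) = 0 := by linear_combination hc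
      rw [ZMod.intCast_zmod_eq_zero_iff_dvd] at hn0
      omega
    · rw [if_neg fun h3 => h (h2n.1 h3), zero_add] at hc
      have hn0 : ((n - 1 : ℤ) : ZMod 2) = 0 := by
        push_cast
        rw [hc, sub_self]
      rw [ZMod.intCast_zmod_eq_zero_iff_dvd] at hn0
      omega
  have hT : ∏ᶠ v : HeightOneSpectrum (𝓞 K4), tam (WD4 (Dq 0 S)) v = 2 ^ (S.card + 1) := by
    rw [finprod_tam4 (part4_PD 0 S) hw, tam4_lam_X2 h8 hw (per4_u hsq hn1 hn2 w), pow_succ]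
  obtain ⟨g, hgd, hgs, hg⟩ := ser4_add (κ := 0) (by decide) S
  have hk : (0 : ZMod 4) + 2 * ∑ q ∈ S, nn q.1 = 0 := by rw [two_mul_nn hA, add_zero]
  rw [hk] at hg
  obtain ⟨q, hq⟩ := form4_ofe (part4_ne 0 S) (part4_norm 0 S) (period4 hsq hn1 hn2) hg
    (Vc_X2 hS hA hc) hT
  exact ⟨g, hgd, hgs, q, hq⟩

/-- **Class (X3)**, `D = 1` modulo `4`, `Im D = 0` modulo `8`. -/
theorem form4_X3 {S : Finset Pg} (hS : S.Nonempty) (hA : ∑ q ∈ S, aa q.1 = 0)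
    (hc : (if ∑ q ∈ S, nn q.1 = 2 then 1 else 0 : ZMod 2) + ∑ q ∈ S, bb q.1 = 0) :
    ∃ g : ℂ → ℂ, Differentiable ℂ g ∧ (∀ s : ℂ, 3 / 2 < s.re → g s = (WD4 (Dq 0 S)).LSeries s) ∧
      ∃ q : ℚ, ¬ 2 ∣ q.den ∧ (¬ (2 : ℤ) ∣ q.num ↔ kapX s4 (fun q => aa q.1)
        (if ∑ q ∈ S, c4 q lam = 1 ∨ ∑ q ∈ S, c4 q lam = 2 then 1 else 0) S ≠ 0) ∧
        g 1 * (√|(discr K4 : ℝ)| : ℝ) / (period (WD4 (Dq 0 S)) : ℝ) =
          (q * (((∏ᶠ v : HeightOneSpectrum (𝓞 K4), tam (WD4 (Dq 0 S)) v : ℕ) : ℝ) / 4) : ℝ) := by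
  obtain ⟨w, hw⟩ := exists_w4
  obtain ⟨m, n, hcp, hev, h2n, -, hb⟩ := q4x_cp hA
  have hD := (q4_cpD (κ := 0) hcp).1 rfl
  obtain ⟨hn1, hn2⟩ := q4x_ng hD (by omega)
  have hsq := q4_sq 0 S
  have h8 : 8 ∣ Dq 0 S - 1 ∨ 8 ∣ Dq 0 S - 5 := by
    have e1 := q4_8 (a := 1) (b := 0) (x := Dq 0 S)
    have e2 := q4_8 (a := 5) (b := 0) (x := Dq 0 S)
    push_cast at e1 e2
    rw [zero_mul, add_zero] at e1 e2
    rw [e1, e2, hD]
    simp only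
    rw [hb] at hc
    by_cases h : (m + n) % 4 = 2
    · rw [if_pos (h2n.2 h)] at hc
      have hn0 : ((n - 1 : ℤ) : ZMod 2) = 0 := by
        push_cast
        have key : ∀ x : ZMod 2, 1 + x = 0 → x - 1 = 0 := by decide
        exact key _ hc
      rw [ZMod.intCast_zmod_eq_zero_iff_dvd] at hn0
      omega
    · rw [if_neg fun h3 => h (h2n.1 h3), zero_add] at hc
      rw [ZMod.intCast_zmod_eq_zero_iff_dvd] at hc
      omega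
  have hT : ∏ᶠ v : HeightOneSpectrum (𝓞 K4), tam (WD4 (Dq 0 S)) v = 2 ^ (S.card + 2) := by
    rw [finprod_tam4 (part4_PD 0 S) hw, tam4_lam_X3 h8 hw (per4_u hsq hn1 hn2 w), pow_add]
    norm_num
  obtain ⟨g, hgd, hgs, hg⟩ := ser4_add (κ := 0) (by decide) S
  have hk : (0 : ZMod 4) + 2 * ∑ q ∈ S, nn q.1 = 0 := by rw [two_mul_nn hA, add_zero]
  rw [hk] at hg
  obtain ⟨q, hq⟩ := form4_ofe (part4_ne 0 S) (part4_norm 0 S) (period4 hsq hn1 hn2) hg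
    (Vc_X3 hS hA hc) hT
  exact ⟨g, hgd, hgs, q, hq⟩

end Pool.Agent.Lib.MP_1a91b9_ntQ.C
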