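import Pool.Agent.Lib.MP_1a91b9_ntQ.C.TamQ2

/-!
# MP_1a91b9_nt (quartic twists), Tamagawa numbers: the place `1 + i`, `D` a unit, index one

`W : y² = x³ - D x` over a field `L` with a valuation `V` and an element `j`, `j² = -1`, `1 + j` a
uniformizer, residue field with two elements. If `D` is a unit then the points with singular reduction
are those with `V x = 1`. There are none if `D = ± j` modulo `(1 + j)³`, if `D = 3 + 2 j` modulo `4` or
if `D = 5 ± 2 j` modulo `8`.
-/

set_option autoImplicit false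

namespace Pool.Agent.Lib.MP_1a91b9_ntQ.C

open WithZero WeierstrassCurve
open Pool.Agent.Lib.MP_1a91b9_ntH.C (nsSet nsG)
open scoped Classical

namespace Lm

section
variable {L : Type*} [Field L] (V : Valuation L ℤᵐ⁰)

/-- the data -/
structure Hyp (j : L) : Prop where
  sq : j ^ 2 = -1
  v : V (1 + j) = exp (-1 : ℤ)
  res : ∀ x : L, V x ≤ 1 → V x < 1 ∨ V (x - 1) < 1

variable {V} {j D : L}

theorem le_of_lt {γ : ℤᵐ⁰} (n : ℤ) (h : γ < exp (-n)) : γ ≤ exp (-(n + 1)) := by
  rcases eq_or_ne γ 0 with rfl | h0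
  · exact zero_le
  · rw [← exp_log h0] at h ⊢
    rw [exp_lt_exp] at h
    rw [exp_le_exp]
    omega

theorem le_one {γ : ℤᵐ⁰} (h : γ < 1) : γ ≤ exp (-1 : ℤ) := le_of_lt 0 (by simpa using h)

theorem e1lt : exp (-1 : ℤ) < (1 : ℤᵐ⁰) := by
  rw [← exp_zero, exp_lt_exp]
  norm_num

theorem e2lt : exp (-2 : ℤ) < (1 : ℤᵐ⁰) := by
  rw [← exp_zero, exp_lt_exp]
  norm_num

theorem e21 : exp (-2 : ℤ) < exp (-1 : ℤ) := by
  rw [exp_lt_exp]
  norm_num

/-- an odd value is not the value of a square -/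
theorem odd_val {y : L} {n : ℤ} (h : V (y ^ 2) = exp n) : (2 : ℤ) ∣ n := by
  rw [map_pow] at h
  exact sqV_exp ⟨V y, h.symm⟩

variable (H : Hyp V j)
include H

theorem vj : V j = 1 := by
  have h := congrArg V H.sq
  rw [map_pow, Valuation.map_neg, map_one] at h
  exact (pow_eq_one_iff_of_nonneg zero_le (by norm_num)).1 h

theorem v2 : V (2 : L) = exp (-2 : ℤ) := by
  have e : (2 : L) * j = (1 + j) ^ 2 := by linear_combination -H.sq
  have h := congrArg V e
  rw [map_mul, vj H, mul_one, map_pow, H.v, ← exp_nsmul] at h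
  rw [h]
  norm_num

theorem v2lt : V (2 : L) < 1 := by
  rw [v2 H]
  exact e2lt

theorem v4 : V (4 : L) = exp (-4 : ℤ) := by
  have e : (4 : L) = 2 * 2 := by norm_num
  rw [e, map_mul, v2 H, ← exp_add]
  norm_num

theorem v3 : V (3 : L) = 1 := by
  have e : (3 : L) = 2 + 1 := by norm_num
  rw [e, Valuation.map_add_eq_of_lt_right, map_one]
  rw [map_one]
  exact v2lt H

theorem v1 : V (1 - j) = exp (-1 : ℤ) := by
  have e : 1 - j = -j * (1 + j) := by linear_combination H.sq
  rw [e, map_mul, Valuation.map_neg, vj H, one_mul, H.v]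

/-- the other root -/
theorem symm : Hyp V (-j) :=
  ⟨by rw [neg_sq, H.sq], by rw [← sub_eq_add_neg]; exact v1 H, H.res⟩

/-- units are `1` or `j` modulo `2` -/
theorem unit {x : L} (hx : V x = 1) :
    (∃ w, V w ≤ 1 ∧ x = 1 + 2 * w) ∨ (∃ w, V w ≤ 1 ∧ x = j + 2 * w) := by
  have h20 : (2 : L) ≠ 0 := by
    intro h0
    have := v2 H
    rw [h0, map_zero] at this
    exact exp_ne_zero this.symm
  have hl0 : (1 + j : L) ≠ 0 := by
    intro h0
    have := H.v
    rw [h0, map_zero] at this
    exact exp_ne_zero this.symm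
  have h1 : V (x - 1) < 1 := (H.res x hx.le).resolve_left hx.not_lt
  obtain ⟨t, ht⟩ : ∃ t, t = (x - 1) / (1 + j) := ⟨_, rfl⟩
  have hxt : x - 1 = (1 + j) * t := by
    rw [ht]
    field_simp
  have hvt : V t ≤ 1 := by
    rw [ht, map_div₀, H.v]
    exact (div_le_one₀ exp_pos).2 (le_one h1)
  have half : ∀ z : L, V z ≤ exp (-2 : ℤ) → V (z / 2) ≤ 1 := by
    intro z hz
    rw [map_div₀, v2 H]
    exact (div_le_one₀ exp_pos).2 hz
  rcases H.res t hvt with h2 | h2
  · left
    refine ⟨(x - 1) / 2, half _ ?_, by field_simp; ring⟩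
    rw [hxt, map_mul, H.v]
    calc exp (-1 : ℤ) * V t ≤ exp (-1 : ℤ) * exp (-1 : ℤ) := by
          gcongr
          exact le_one h2
      _ = exp (-2 : ℤ) := by
          rw [← exp_add]
          norm_num
  · right
    refine ⟨(x - j) / 2, half _ ?_, by field_simp; ring⟩
    have e : x - j = (1 + j) * (t - 1) + 2 := by linear_combination hxt
    rw [e]
    refine (Valuation.map_add _ _ _).trans (max_le ?_ (v2 H).le)
    rw [map_mul, H.v]
    calc exp (-1 : ℤ) * V (t - 1) ≤ exp (-1 : ℤ) * exp (-1 : ℤ) := by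
          gcongr
          exact le_one h2
      _ = exp (-2 : ℤ) := by
          rw [← exp_add]
          norm_num

/-- squares of units are `± 1` modulo `4` -/
theorem sq_pm {z : L} (hz : V z = 1) :
    V (z ^ 2 - 1) ≤ exp (-4 : ℤ) ∨ V (z ^ 2 + 1) ≤ exp (-4 : ℤ) := by
  have h4 : ∀ x : L, V x ≤ 1 → V (4 * x) ≤ exp (-4 : ℤ) := by
    intro x hx
    rw [map_mul, v4 H]
    calc exp (-4 : ℤ) * V x ≤ exp (-4 : ℤ) * 1 := by gcongr
      _ = exp (-4 : ℤ) := mul_one _
  rcases unit H hz with ⟨w, hw, rfl⟩ | ⟨w, hw, rfl⟩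
  · left
    have e : (1 + 2 * w) ^ 2 - 1 = 4 * (w * (w + 1)) := by ring
    rw [e]
    apply h4
    rw [map_mul]
    exact mul_le_one' hw ((Valuation.map_add _ _ _).trans (max_le hw (map_one V).le))
  · right
    have e : (j + 2 * w) ^ 2 + 1 = 4 * (w * (w + j)) := by linear_combination H.sq
    rw [e]
    apply h4
    rw [map_mul]
    exact mul_le_one' hw ((Valuation.map_add _ _ _).trans (max_le hw (vj H).le))

/-- The points with `V x ≠ 1` have nonsingular reduction. -/
theorem mem_of (hD : V D = 1) {x y : L} (h : (wq D).toAffine.Nonsingular x y) (hx : V x ≠ 1) :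
    Affine.Point.some x y h ∈ nsSet V (wq D) := by
  refine Or.inr ⟨x, y, h, rfl, ?_⟩
  rcases lt_or_gt_of_ne hx with h1 | h1
  · right; right
    have e3 : 3 * x ^ 2 + 2 * (wq D).a₂ * x + (wq D).a₄ - (wq D).a₁ * y = 3 * x ^ 2 - D := by
      simp only [wq]
      ring
    rw [e3, Valuation.map_sub_eq_of_lt_right, hD]
    rw [hD, map_mul, v3 H, one_mul, map_pow]
    exact pow_lt_one₀ zero_le h1 (by norm_num)
  · exact Or.inl h1

/-- The points with nonsingular reduction have `V x ≠ 1`. -/
theorem of_mem (hD : V D = 1) {x y : L} {h : (wq D).toAffine.Nonsingular x y}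
    (hP : Affine.Point.some x y h ∈ nsSet V (wq D)) : V x ≠ 1 := by
  intro hx
  have heq := (wq_eqn _ _).1 h.1
  rcases hP with h0 | ⟨x', y', h', hxy, hcase⟩
  · exact absurd h0 (Affine.Point.some_ne_zero _)
  obtain ⟨rfl, rfl⟩ := (Affine.Point.some.injEq ..).mp hxy
  have hD1 : V (D - 1) < 1 := (H.res D hD.le).resolve_left hD.not_lt
  have hx1 : V (x - 1) < 1 := (H.res x hx.le).resolve_left hx.not_lt
  have hx2 : V (x ^ 2 - 1) < 1 := by
    have e : x ^ 2 - 1 = (x - 1) * (x + 1) := by ring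
    rw [e, map_mul]
    exact mul_lt_one_of_lt_of_le hx1 ((Valuation.map_add _ _ _).trans (max_le hx.le (map_one V).le))
  rcases hcase with h1 | h1 | h1
  · exact absurd h1 (not_lt.2 hx.le)
  · have e2 : 2 * y + (wq D).a₁ * x + (wq D).a₃ = 2 * y := by simp [wq]
    have k1 : V (x ^ 2 - D) ≤ 1 := by
      refine (Valuation.map_sub _ _ _).trans (max_le ?_ hD.le)
      rw [map_pow, hx, one_pow]
    have k2 : V y ≤ 1 := by
      have k3 : V (y ^ 2) ≤ 1 := by
        have e : x ^ 3 - D * x = x * (x ^ 2 - D) := by ring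
        rw [heq, e, map_mul, hx, one_mul]
        exact k1
      rw [map_pow] at k3
      exact (pow_le_one_iff_of_nonneg zero_le two_ne_zero).1 k3
    rw [e2, map_mul] at h1
    have k4 := mul_lt_one_of_lt_of_le (v2lt H) k2
    rw [h1] at k4
    exact lt_irrefl _ k4
  · have e3 : 3 * x ^ 2 + 2 * (wq D).a₂ * x + (wq D).a₄ - (wq D).a₁ * y =
        3 * (x ^ 2 - 1) - (D - 1) + 2 := by
      simp only [wq]
      ring
    have k1 : V (3 * (x ^ 2 - 1) - (D - 1) + 2) < 1 := by
      refine Valuation.map_add_lt _ (Valuation.map_sub_lt _ ?_ hD1) (v2lt H)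
      rw [map_mul, v3 H, one_mul]
      exact hx2
    rw [e3] at h1
    rw [h1] at k1
    exact lt_irrefl _ k1

/-- Index one if there is no point with `V x = 1`. -/
theorem index_one (hD : V D = 1) (hno : ∀ x y : L, y ^ 2 = x ^ 3 - D * x → V x ≠ 1) :
    (nsG V (wq D)).index = 1 := by
  rw [AddSubgroup.index_eq_one, eq_top_iff]
  rintro P -
  apply AddSubgroup.subset_closure
  rcases P with _ | ⟨x, y, h⟩
  · exact Or.inl rfl
  · exact mem_of H hD h (hno x y ((wq_eqn _ _).1 h.1))

/-- Kind (I). -/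
theorem no_I (hD : V D = 1) (h1 : exp (-3 : ℤ) < V (D - 1)) (h2 : exp (-3 : ℤ) < V (D + 1))
    (x y : L) (h : y ^ 2 = x ^ 3 - D * x) : V x ≠ 1 := by
  intro hx
  have h2' : ∀ z : L, V z ≤ 1 → V (2 * z) ≤ exp (-2 : ℤ) := by
    intro z hz
    rw [map_mul, v2 H]
    calc exp (-2 : ℤ) * V z ≤ exp (-2 : ℤ) * 1 := by gcongr
      _ = exp (-2 : ℤ) := mul_one _
  have hm : ∀ z : L, V z < 1 → V (2 * z) ≤ exp (-3 : ℤ) := by
    intro z hz
    rw [map_mul, v2 H]
    calc exp (-2 : ℤ) * V z ≤ exp (-2 : ℤ) * exp (-1 : ℤ) := by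
          gcongr
          exact le_one hz
      _ = exp (-3 : ℤ) := by
          rw [← exp_add]
          norm_num
  obtain ⟨w, hw, hDw⟩ : ∃ w, V w ≤ 1 ∧ D = j + 2 * w := by
    rcases unit H hD with ⟨w, hw, hDw⟩ | h3
    · exfalso
      rcases H.res w hw with h3 | h3
      · have e : D - 1 = 2 * w := by rw [hDw]; ring
        rw [e] at h1
        exact absurd (hm w h3) (not_le.2 h1)
      · have e : D + 1 = 2 * ((w - 1) + 2) := by rw [hDw]; ring
        rw [e] at h2
        exact absurd (hm _ (Valuation.map_add_lt _ h3 (v2lt H))) (not_le.2 h2)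
    · exact h3
  have key : V (x ^ 2 - D) = exp (-1 : ℤ) := by
    have h42 : exp (-4 : ℤ) ≤ exp (-2 : ℤ) := by
      rw [exp_le_exp]
      norm_num
    rcases sq_pm H hx with h3 | h3
    · have e : x ^ 2 - D = (1 - j) + ((x ^ 2 - 1) - 2 * w) := by rw [hDw]; ring
      have h4 : V ((x ^ 2 - 1) - 2 * w) ≤ exp (-2 : ℤ) :=
        (Valuation.map_sub _ _ _).trans (max_le (h3.trans h42) (h2' w hw))
      rw [e, Valuation.map_add_eq_of_lt_left, v1 H]
      rw [v1 H]
      exact h4.trans_lt e21
    · have e : x ^ 2 - D = -(1 + j) + ((x ^ 2 + 1) - 2 * w) := by rw [hDw]; ring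
      have h4 : V ((x ^ 2 + 1) - 2 * w) ≤ exp (-2 : ℤ) :=
        (Valuation.map_sub _ _ _).trans (max_le (h3.trans h42) (h2' w hw))
      rw [e, Valuation.map_add_eq_of_lt_left, Valuation.map_neg, H.v]
      rw [Valuation.map_neg, H.v]
      exact h4.trans_lt e21
  have h5 : V (y ^ 2) = exp (-1 : ℤ) := by
    have e : x ^ 3 - D * x = x * (x ^ 2 - D) := by ring
    rw [h, e, map_mul, hx, one_mul, key]
  have := odd_val h5
  omega

/-- a unit square is not `j` modulo `2` -/
theorem no_sq {z s : L} (hs : V s ≤ 1) (h : z ^ 2 = j + 2 * s) : False := by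
  have h2' : V (2 * s) ≤ exp (-2 : ℤ) := by
    rw [map_mul, v2 H]
    calc exp (-2 : ℤ) * V s ≤ exp (-2 : ℤ) * 1 := by gcongr
      _ = exp (-2 : ℤ) := mul_one _
  have hz : V z = 1 := by
    have h3 : V (z ^ 2) = 1 := by
      rw [h, Valuation.map_add_eq_of_lt_left, vj H]
      rw [vj H]
      exact h2'.trans_lt e2lt
    rw [map_pow] at h3
    exact (pow_eq_one_iff_of_nonneg zero_le (by norm_num)).1 h3
  have h42 : exp (-4 : ℤ) ≤ exp (-2 : ℤ) := by
    rw [exp_le_exp]
    norm_num
  rcases sq_pm H hz with h3 | h3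
  · have e : 1 - j = 2 * s - (z ^ 2 - 1) := by rw [h]; ring
    have h4 : V (1 - j) ≤ exp (-2 : ℤ) := by
      rw [e]
      exact (Valuation.map_sub _ _ _).trans (max_le h2' (h3.trans h42))
    rw [v1 H] at h4
    exact absurd h4 (not_le.2 e21)
  · have e : 1 + j = (z ^ 2 + 1) - 2 * s := by rw [h]; ring
    have h4 : V (1 + j) ≤ exp (-2 : ℤ) := by
      rw [e]
      exact (Valuation.map_sub _ _ _).trans (max_le (h3.trans h42) h2')
    rw [H.v] at h4
    exact absurd h4 (not_le.2 e21)

/-- multiples of four -/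
theorem four {z : L} (h : V z ≤ exp (-4 : ℤ)) : ∃ w, V w ≤ 1 ∧ z = 4 * w := by
  have h40 : (4 : L) ≠ 0 := by
    intro h0
    have := v4 H
    rw [h0, map_zero] at this
    exact exp_ne_zero this.symm
  refine ⟨z / 4, ?_, by field_simp⟩
  rw [map_div₀, v4 H]
  exact (div_le_one₀ exp_pos).2 h

/-- Kind (II). -/
theorem no_II (hD : V (D - (3 + 2 * j)) ≤ exp (-4 : ℤ)) (x y : L) (h : y ^ 2 = x ^ 3 - D * x) :
    V x ≠ 1 := by
  intro hx
  obtain ⟨d, hd, hDd⟩ := four H hD
  have hDd' : D = 3 + 2 * j + 4 * d := by linear_combination hDd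
  have hj := vj H
  have i1 : V (1 : L) ≤ 1 := (map_one V).le
  rcases unit H hx with ⟨u, hu, hxu⟩ | ⟨u, hu, hxu⟩
  · -- `x² = 1` modulo `4`
    have e : x ^ 3 - D * x = x * (-(2 * (1 + j)) + 4 * (u * (u + 1) - d)) := by
      rw [hDd', hxu]
      ring
    have k1 : V (-(2 * (1 + j))) = exp (-3 : ℤ) := by
      rw [Valuation.map_neg, map_mul, v2 H, H.v, ← exp_add]
      norm_num
    have k2 : V (4 * (u * (u + 1) - d)) ≤ exp (-4 : ℤ) := by
      rw [map_mul, v4 H]
      have k3 : V (u * (u + 1) - d) ≤ 1 := by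
        refine (Valuation.map_sub _ _ _).trans (max_le ?_ hd)
        rw [map_mul]
        exact mul_le_one' hu ((Valuation.map_add _ _ _).trans (max_le hu i1))
      calc exp (-4 : ℤ) * V (u * (u + 1) - d) ≤ exp (-4 : ℤ) * 1 := by gcongr
        _ = exp (-4 : ℤ) := mul_one _
    have k4 : V (y ^ 2) = exp (-3 : ℤ) := by
      rw [h, e, map_mul, hx, one_mul, Valuation.map_add_eq_of_lt_left, k1]
      rw [k1]
      refine k2.trans_lt ?_
      rw [exp_lt_exp]
      norm_num
    have := odd_val k4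
    omega
  · -- `x² = - 1` modulo `4`
    have hl0 : (1 - j : L) ≠ 0 := by
      intro h0
      have := v1 H
      rw [h0, map_zero] at this
      exact exp_ne_zero this.symm
    obtain ⟨s, hs⟩ : ∃ s, s = j * (u * (u + j) - d - 1) := ⟨_, rfl⟩
    have hvs : V s ≤ 1 := by
      rw [hs, map_mul, hj, one_mul]
      refine (Valuation.map_sub _ _ _).trans (max_le ((Valuation.map_sub _ _ _).trans (max_le ?_ hd)) i1)
      rw [map_mul]
      exact mul_le_one' hu ((Valuation.map_add _ _ _).trans (max_le hu hj.le))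
    have e : (y / (1 - j)) ^ 2 = j + 2 * (u + j * s + 2 * (u * s)) := by
      have e1 : (1 - j) ^ 2 = -2 * j := by linear_combination H.sq
      have hj0 : (-2 * j : L) ≠ 0 := by
        rw [← e1]
        exact pow_ne_zero 2 hl0
      rw [div_pow, e1, h, div_eq_iff hj0, hDd', hxu, hs]
      linear_combination (j + 2 * u) * (1 + 4 * (u * (u + j) - d - 1)) * H.sq
    refine no_sq H ?_ e
    refine (Valuation.map_add _ _ _).trans (max_le ((Valuation.map_add _ _ _).trans (max_le hu ?_)) ?_)
    · rw [map_mul, hj, one_mul]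
      exact hvs
    · rw [map_mul, map_mul]
      exact mul_le_one' (v2lt H).le (mul_le_one' hu hvs)

/-- Kind (III), bad reduction. -/
theorem no_III (hD : V (D - (5 + 2 * j)) ≤ exp (-6 : ℤ)) (x y : L) (h : y ^ 2 = x ^ 3 - D * x) :
    V x ≠ 1 := by
  intro hx
  have hj := vj H
  have i1 : V (1 : L) ≤ 1 := (map_one V).le
  have v8 : V (8 : L) = exp (-6 : ℤ) := by
    have e : (8 : L) = 4 * 2 := by norm_num
    rw [e, map_mul, v4 H, v2 H, ← exp_add]
    norm_num
  have h80 : (8 : L) ≠ 0 := by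
    intro h0
    rw [h0, map_zero] at v8
    exact exp_ne_zero v8.symm
  obtain ⟨d, hd, hDd⟩ : ∃ d, V d ≤ 1 ∧ D = 5 + 2 * j + 8 * d := by
    refine ⟨(D - (5 + 2 * j)) / 8, ?_, by field_simp; ring⟩
    rw [map_div₀, v8]
    exact (div_le_one₀ exp_pos).2 hD
  have vn1 : V (1 + j) ≠ 1 := by
    rw [H.v]
    exact e1lt.ne
  rcases unit H hx with ⟨u, hu, hxu⟩ | ⟨u, hu, hxu⟩
  · -- `x² = 1` modulo `4`
    have hl0 : (1 - j : L) ≠ 0 := by
      intro h0
      have := v1 H
      rw [h0, map_zero] at this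
      exact exp_ne_zero this.symm
    obtain ⟨s, hs⟩ : ∃ s, s = j * (u * (u + 1) - 1 - 2 * d) := ⟨_, rfl⟩
    have hvs : V s ≤ 1 := by
      rw [hs, map_mul, hj, one_mul]
      refine (Valuation.map_sub _ _ _).trans (max_le ((Valuation.map_sub _ _ _).trans
        (max_le ?_ i1)) ?_)
      · rw [map_mul]
        exact mul_le_one' hu ((Valuation.map_add _ _ _).trans (max_le hu i1))
      · rw [map_mul]
        exact mul_le_one' (v2lt H).le hd
    have e : (y / (1 - j)) ^ 2 = 1 + 2 * (u + s + 2 * (u * s)) := by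
      have e1 : (1 - j) ^ 2 = -2 * j := by linear_combination H.sq
      have hj0 : (-2 * j : L) ≠ 0 := by
        rw [← e1]
        exact pow_ne_zero 2 hl0
      rw [div_pow, e1, h, div_eq_iff hj0, hDd, hxu, hs]
      linear_combination (1 + 2 * u) * (4 * (u * (u + 1) - 1 - 2 * d)) * H.sq
    obtain ⟨z, hz⟩ : ∃ z, z = y / (1 - j) := ⟨_, rfl⟩
    rw [← hz] at e
    have hus : V (2 * (u * s)) ≤ exp (-2 : ℤ) := by
      rw [map_mul, v2 H, map_mul]
      calc exp (-2 : ℤ) * (V u * V s) ≤ exp (-2 : ℤ) * 1 := by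
            gcongr
            exact mul_le_one' hu hvs
        _ = exp (-2 : ℤ) := mul_one _
    have hB : V (2 * (u + s + 2 * (u * s))) ≤ exp (-2 : ℤ) := by
      rw [map_mul, v2 H]
      calc exp (-2 : ℤ) * V (u + s + 2 * (u * s)) ≤ exp (-2 : ℤ) * 1 := by
            gcongr
            exact (Valuation.map_add _ _ _).trans (max_le ((Valuation.map_add _ _ _).trans
              (max_le hu hvs)) (hus.trans e2lt.le))
        _ = exp (-2 : ℤ) := mul_one _
    have hvz : V z = 1 := by
      have h3 : V (z ^ 2) = 1 := by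
        rw [e, Valuation.map_add_eq_of_lt_left, map_one]
        rw [map_one]
        exact hB.trans_lt e2lt
      rw [map_pow] at h3
      exact (pow_eq_one_iff_of_nonneg zero_le (by norm_num)).1 h3
    have half : ∀ w : L, V (2 * w) ≤ exp (-4 : ℤ) → V w ≤ exp (-2 : ℤ) := by
      intro w hw
      rw [map_mul, v2 H] at hw
      have e4 : exp (-4 : ℤ) = exp (-2 : ℤ) * exp (-2 : ℤ) := by
        rw [← exp_add]
        norm_num
      rw [e4] at hw
      exact le_of_mul_le_mul_left hw exp_pos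
    -- `u + s` is `0` or `- 1` modulo `2`
    have hcase : V (u + s) ≤ exp (-2 : ℤ) ∨ V (u + s + 1) ≤ exp (-2 : ℤ) := by
      rcases sq_pm H hvz with h3 | h3
      · left
        have e5 : z ^ 2 - 1 = 2 * (u + s + 2 * (u * s)) := by rw [e]; ring
        rw [e5] at h3
        have e6 : u + s = (u + s + 2 * (u * s)) - 2 * (u * s) := by ring
        rw [e6]
        exact (Valuation.map_sub _ _ _).trans (max_le (half _ h3) hus)
      · right
        have e5 : z ^ 2 + 1 = 2 * (u + s + 1 + 2 * (u * s)) := by rw [e]; ring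
        rw [e5] at h3
        have e6 : u + s + 1 = (u + s + 1 + 2 * (u * s)) - 2 * (u * s) := by ring
        rw [e6]
        exact (Valuation.map_sub _ _ _).trans (max_le (half _ h3) hus)
    have h2d : V (2 * (j * d)) ≤ exp (-2 : ℤ) := by
      rw [map_mul, v2 H, map_mul, hj, one_mul]
      calc exp (-2 : ℤ) * V d ≤ exp (-2 : ℤ) * 1 := by gcongr
        _ = exp (-2 : ℤ) := mul_one _
    have e11 : exp (-1 : ℤ) * exp (-1 : ℤ) = exp (-2 : ℤ) := by
      rw [← exp_add]
      norm_num
    have small : ∀ a b : L, V a < 1 → V b < 1 → V (a * b) ≤ exp (-2 : ℤ) := by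
      intro a b ha hb
      rw [map_mul, ← e11]
      exact mul_le_mul' (le_one ha) (le_one hb)
    have vl : V (1 + j) < 1 := by
      rw [H.v]
      exact e1lt
    rcases H.res u hu with h5 | h5
    · -- `u + s = - j` modulo `2`
      have k1 : V (u + s + j) ≤ exp (-2 : ℤ) := by
        have e6 : u + s + j = u * ((1 + j) + j * u) - 2 * (j * d) := by rw [hs]; ring
        rw [e6]
        refine (Valuation.map_sub _ _ _).trans (max_le (small _ _ h5 ?_) h2d)
        refine Valuation.map_add_lt _ vl ?_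
        rw [map_mul, hj, one_mul]
        exact h5
      rcases hcase with h6 | h6
      · have e7 : j = (u + s + j) - (u + s) := by ring
        have k2 : V j ≤ exp (-2 : ℤ) := by
          rw [e7]
          exact (Valuation.map_sub _ _ _).trans (max_le k1 h6)
        rw [hj] at k2
        exact absurd k2 (not_le.2 e2lt)
      · have e7 : 1 - j = (u + s + 1) - (u + s + j) := by ring
        have k2 : V (1 - j) ≤ exp (-2 : ℤ) := by
          rw [e7]
          exact (Valuation.map_sub _ _ _).trans (max_le h6 k1)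
        rw [v1 H] at k2
        exact absurd k2 (not_le.2 e21)
    · -- `u + s = 1 + j` modulo `2`
      have k1 : V (u + s - (1 + j)) ≤ exp (-2 : ℤ) := by
        have e6 : u + s - (1 + j) = (u - 1) * ((1 + j) + j * (u - 1) + 2 * j) - 2 * (j * d) := by
          rw [hs]
          ring
        rw [e6]
        refine (Valuation.map_sub _ _ _).trans (max_le (small _ _ h5 ?_) h2d)
        refine Valuation.map_add_lt _ (Valuation.map_add_lt _ vl ?_) ?_
        · rw [map_mul, hj, one_mul]
          exact h5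
        · rw [map_mul, hj, mul_one]
          exact v2lt H
      rcases hcase with h6 | h6
      · have e7 : 1 + j = (u + s) - (u + s - (1 + j)) := by ring
        have k2 : V (1 + j) ≤ exp (-2 : ℤ) := by
          rw [e7]
          exact (Valuation.map_sub _ _ _).trans (max_le h6 k1)
        rw [H.v] at k2
        exact absurd k2 (not_le.2 e21)
      · have e7 : j = (u + s + 1) - (u + s - (1 + j)) - 2 := by ring
        have k2 : V j ≤ exp (-2 : ℤ) := by
          rw [e7]
          exact (Valuation.map_sub _ _ _).trans (max_le ((Valuation.map_sub _ _ _).trans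
            (max_le h6 k1)) (v2 H).le)
        rw [hj] at k2
        exact absurd k2 (not_le.2 e2lt)
  · -- `x² = - 1` modulo `4`
    have e : x ^ 3 - D * x = x * (-(2 * (1 + j)) + 4 * (u * (u + j) - 2 * d - 1)) := by
      rw [hDd, hxu]
      linear_combination (j + 2 * u) * H.sq
    have k1 : V (-(2 * (1 + j))) = exp (-3 : ℤ) := by
      rw [Valuation.map_neg, map_mul, v2 H, H.v, ← exp_add]
      norm_num
    have k2 : V (4 * (u * (u + j) - 2 * d - 1)) ≤ exp (-4 : ℤ) := by
      rw [map_mul, v4 H]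
      have k3 : V (u * (u + j) - 2 * d - 1) ≤ 1 := by
        refine (Valuation.map_sub _ _ _).trans (max_le ((Valuation.map_sub _ _ _).trans
          (max_le ?_ ?_)) i1)
        · rw [map_mul]
          exact mul_le_one' hu ((Valuation.map_add _ _ _).trans (max_le hu hj.le))
        · rw [map_mul]
          exact mul_le_one' (v2lt H).le hd
      calc exp (-4 : ℤ) * V (u * (u + j) - 2 * d - 1) ≤ exp (-4 : ℤ) * 1 := by gcongr
        _ = exp (-4 : ℤ) := mul_one _
    have k4 : V (y ^ 2) = exp (-3 : ℤ) := by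
      rw [h, e, map_mul, hx, one_mul, Valuation.map_add_eq_of_lt_left, k1]
      rw [k1]
      refine k2.trans_lt ?_
      rw [exp_lt_exp]
      norm_num
    have := odd_val k4
    omega

end

end Lm

end Pool.Agent.Lib.MP_1a91b9_ntQ.C
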