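import Pool.Agent.Lib.MP_1a91b9_ntQ.C.TamS0

/-!
# MP_1a91b9_nt (quartic twists), Tamagawa numbers at `lam`: `y² = x³ - D x`, `D = ± 1` modulo `4`

(X1) `D = - (1 + 4 u)`: index `2`. (X2) `D = 1 + 4 u`, the imaginary part of `u` odd: index `2`.
(X3) `D = 1 + 4 u`, the imaginary part of `u` even (`D = 1` or `5` modulo `8`): index `4`.
The field is henselian in the weak form `Hen`.
-/

set_option autoImplicit false
set_option linter.unusedSectionVars false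
set_option linter.unusedVariables false
set_option linter.unusedTactic false
set_option linter.unreachableTactic false

namespace Pool.Agent.Lib.MP_1a91b9_ntQ.C

open WithZero WeierstrassCurve
open Pool.Agent.Lib.MP_1a91b9_ntH.C (nsSet nsG Sq exists_nu)
open scoped Classical

variable {L : Type*} [Field L] [CharZero L] {ν : Valuation L ℤᵐ⁰}

/-- Hensel's lemma for a small root of a quartic. -/
def Hen (ν : Valuation L ℤᵐ⁰) : Prop := ∀ A B C D F : L, ν A < 1 → ν B = 1 → ν C ≤ 1 → ν D ≤ 1 →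
  ν F ≤ 1 → ∃ m : L, ν m < 1 ∧ A + B * m + C * m ^ 2 + D * m ^ 3 + F * m ^ 4 = 0

theorem Sq_exact (h4 : ν 4 < 1) {b : L} (hb : b ≠ 0) : Sq ν (b ^ 2) := by
  refine ⟨b, hb, ?_⟩
  rw [div_self (pow_ne_zero 2 hb), sub_self, map_zero, zero_lt_iff, ν.ne_zero_iff]
  norm_num

/-- the point of order two, or the class of the point -/
theorem pt_alt {D x y : L} (h4 : ν 4 < 1) (hD0 : D ≠ 0) (hx0 : x ≠ 0) (he : y ^ 2 = x ^ 3 - D * x) :
    ν (x ^ 2 / D - 1) < ν 16 ∨ Sq ν (x * (x ^ 2 - D)) := by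
  by_cases hy : y = 0
  · left
    have e : x * (x ^ 2 - D) = 0 := by
      rw [hy] at he
      linear_combination -he
    have e1 : x ^ 2 = D := by
      rcases mul_eq_zero.1 e with h | h
      · exact absurd h hx0
      · exact sub_eq_zero.1 h
    rw [e1, div_self hD0, sub_self, map_zero, zero_lt_iff, ν.ne_zero_iff]
    norm_num
  · right
    have e : x * (x ^ 2 - D) = y ^ 2 := by rw [he]; ring
    rw [e]
    exact Sq_exact h4 hy

theorem pt_GLoc4 {D x y : L} (h4 : ν 4 < 1) (hD0 : D ≠ 0) (hx0 : x ≠ 0)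
    (he : y ^ 2 = x ^ 3 - D * x) : GLoc4 ν D x := by
  have hxx : Sq ν (x * x) := by
    rw [← pow_two]
    exact Sq_exact h4 hx0
  rcases pt_alt (ν := ν) h4 hD0 hx0 he with h | h
  · exact Or.inr (Or.inr (Or.inl ⟨x, hx0, h, hxx⟩))
  · exact Or.inr (Or.inr (Or.inr ⟨x, hx0, h, hxx⟩))

section

variable {i : L} (hi : i ^ 2 = -1) (h2 : ν 2 = exp (-2))
  (hres : ∀ x : L, ν x = 1 → ν (x - 1) < 1)

include hi h2

theorem nu_two_lt : ν 2 < 1 := by
  rw [h2, ← exp_zero, exp_lt_exp]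
  norm_num

include hres

/-- an integral element modulo `lam ^ 2` -/
theorem split_u {u : L} (hu : ν u ≤ 1) : ∃ ρ n v : L, (ρ = 0 ∨ ρ = 1) ∧ (n = 0 ∨ n = 1) ∧ ν v ≤ 1 ∧
    u = ρ + i * n + (1 + i) ^ 2 * v := by
  have hl := nu_lam2 hi h2
  have hi1 := (nu_i (ν := ν) hi).le
  obtain ⟨t, ht, h | h⟩ := res_lam hl hres hu <;> obtain ⟨s, hs, h' | h'⟩ := res_lam hl hres ht
  · exact ⟨0, 0, s, Or.inl rfl, Or.inl rfl, hs, by rw [h, h']; ring⟩
  · exact ⟨1, 1, s, Or.inr rfl, Or.inr rfl, hs, by rw [h, h']; ring⟩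
  · exact ⟨1, 0, s, Or.inr rfl, Or.inl rfl, hs, by rw [h, h']; ring⟩
  · refine ⟨0, 1, s - i, Or.inl rfl, Or.inr rfl, nu_sub_le' hs hi1, ?_⟩
    rw [h, h']
    linear_combination (i + 2) * hi

/-- `i (1 + lam ^ 2 t)` is not a square modulo `4` -/
theorem not_C4_odd {m : ℕ} (hm : Odd m) {t : L} (ht : ν t ≤ 1) :
    ¬ C4 ν (i ^ m * (1 + (1 + i) ^ 2 * t)) := by
  intro h
  have := even_of_C4 hi h2 hres ht h
  rw [← Nat.not_even_iff_odd] at hm
  exact hm this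

/-- (X1): the abscissas which are units -/
theorem pt_X1 {D u : L} (hu : ν u ≤ 1) (hD : D = -1 * (1 + 4 * u)) :
    ∃ w : L, ¬ C4 ν w ∧ ∀ x y : L, y ^ 2 = x ^ 3 - D * x → ν x = 1 → C4 ν (x * w) := by
  have h4 := nu_four4_le h2
  have hl := nu_lam2 hi h2
  have hi1 := (nu_i (ν := ν) hi).le
  obtain ⟨ρ, n, v, hρ, hn, hv, huu⟩ := split_u hi h2 hres hu
  obtain ⟨hD1, hDc⟩ := D_data hi h2 (Or.inr rfl) hD hu
  have hD0 := hDc.ne h4
  have hρ1 : ν ρ ≤ 1 := by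
    rcases hρ with h | h <;> rw [h]
    · rw [map_zero]; exact zero_le
    · exact (map_one _).le
  refine ⟨i ^ 1 * (1 + (1 + i) ^ 3 * ρ), ?_, ?_⟩
  · have e : i ^ 1 * (1 + (1 + i) ^ 3 * ρ) = i ^ 1 * (1 + (1 + i) ^ 2 * ((1 + i) * ρ)) := by ring
    rw [e]
    exact not_C4_odd hi h2 hres (by decide) (by (repeat' first
      | assumption | exact (map_one _).le | exact nu_ofNat_le' _ | apply nu_add_le
      | apply nu_sub_le' | apply nu_neg_le' | apply nu_mul_le | apply nu_pow_le'))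
  · intro x y he hx
    have hx0 : x ≠ 0 := by
      rintro rfl
      rw [map_zero] at hx
      exact zero_ne_one hx
    rcases loc4_X1 hi h2 hres hρ hn hv huu hD (pt_GLoc4 h4 hD0 hx0 he) with h | h
    · exfalso
      obtain ⟨m, t, ht, hxe, ⟨hm, -⟩ | ⟨h1, -⟩⟩ := unitX hi h2 hres (Or.inr rfl) hD hu hx
        (pt_alt h4 hD0 hx0 he)
      · have hodd : Odd m := by
          rw [← Nat.not_even_iff_odd]
          intro hc
          rw [hc.neg_one_pow] at hm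
          have h3 : (2 : L) = 0 := by linear_combination hm
          exact absurd h3 two_ne_zero
        have e : x = i ^ m * (1 + (1 + i) ^ 2 * ((1 + i) * t)) := by rw [hxe]; ring
        rw [e] at h
        exact not_C4_odd hi h2 hres hodd (by (repeat' first
      | assumption | exact (map_one _).le | exact nu_ofNat_le' _ | apply nu_add_le
      | apply nu_sub_le' | apply nu_neg_le' | apply nu_mul_le | apply nu_pow_le')) h
      · have h3 : (2 : L) = 0 := by linear_combination -h1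
        exact absurd h3 two_ne_zero
    · exact h

/-- (X2): the abscissas which are units -/
theorem pt_X2 {D u v ρ : L} (hρ : ρ = 0 ∨ ρ = 1) (hv : ν v ≤ 1)
    (huu : u = ρ + i + (1 + i) ^ 2 * v) (hD : D = 1 * (1 + 4 * u)) :
    ∃ w : L, ¬ C4 ν w ∧ ∀ x y : L, y ^ 2 = x ^ 3 - D * x → ν x = 1 → C4 ν (x * w) := by
  have h4 := nu_four4_le h2
  have hl := nu_lam2 hi h2
  have hi1 := (nu_i (ν := ν) hi).le
  have h0 : ν (0 : L) ≤ 1 := by
    rw [map_zero]
    exact zero_le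
  have hρ1 : ν ρ ≤ 1 := by
    rcases hρ with h | h <;> rw [h]
    · rw [map_zero]; exact zero_le
    · exact (map_one _).le
  have hu : ν u ≤ 1 := by
    rw [huu]
    (repeat' first
      | assumption | exact (map_one _).le | exact nu_ofNat_le' _ | apply nu_add_le
      | apply nu_sub_le' | apply nu_neg_le' | apply nu_mul_le | apply nu_pow_le')
  obtain ⟨hD1, hDc⟩ := D_data hi h2 (Or.inl rfl) hD hu
  have hD0 := hDc.ne h4
  refine ⟨i ^ 0 * (1 + (1 + i) ^ 3 * 1), ?_, ?_⟩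
  · intro h
    exact not_C4 hi h2 hres (δ := 1) (y := 0) (Or.inl rfl) h0 (by ring) h
  · intro x y he hx
    have hx0 : x ≠ 0 := by
      rintro rfl
      rw [map_zero] at hx
      exact zero_ne_one hx
    rcases loc4_X2 hi h2 hres hρ hv huu hD (pt_GLoc4 h4 hD0 hx0 he) with h | h
    · obtain ⟨m, t, ht, hxe, ⟨hm, hg⟩ | ⟨-, hodd, -⟩⟩ := unitX hi h2 hres (Or.inl rfl) hD hu hx
        (pt_alt h4 hD0 hx0 he)
      · have hev : Even m := by
          rw [← Nat.not_odd_iff_even]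
          intro hc
          rw [hc.neg_one_pow] at hm
          have h3 : (2 : L) = 0 := by linear_combination -hm
          exact absurd h3 two_ne_zero
        have he0 : Even (m + 0) := hev
        have ho1 : Odd (m + 1) := hev.add_odd (by decide)
        obtain ⟨t₁, ht₁, h6 | h6⟩ := res_lam hl hres ht
        · exfalso
          rcases hρ with h5 | h5
          · refine killX hi h2 hres (r := 1) ht (y := -i * v + 2 * t₁ ^ 2 - t₁) (by (repeat' first
      | assumption | exact (map_one _).le | exact nu_ofNat_le' _ | apply nu_add_le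
      | apply nu_sub_le' | apply nu_neg_le' | apply nu_mul_le | apply nu_pow_le')) hxe
              (Or.inr ⟨?_, ho1⟩) hg
            rw [huu, h5, h6]
            linear_combination (i ^ 2 * t₁ ^ 2 + 2 * i * t₁ ^ 2 + i ^ 2 * v + 2 * i * v + t₁ ^ 2 + v) * hi
          · refine killX hi h2 hres (r := 1) ht (y := 2 * i * t₁ ^ 2 - i * t₁ + v) (by (repeat' first
      | assumption | exact (map_one _).le | exact nu_ofNat_le' _ | apply nu_add_le
      | apply nu_sub_le' | apply nu_neg_le' | apply nu_mul_le | apply nu_pow_le')) hxe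
              (Or.inl ?_) hg
            rw [huu, h5, h6]
            linear_combination (i ^ 2 * t₁ ^ 2 + 2 * i * t₁ ^ 2 + t₁ ^ 2) * hi
        · exact goodX hi h2 (t₁ := t₁) (r := 0) (Or.inr rfl) ht₁ (by rw [hxe, h6]) he0
      · exfalso
        have e : x = i ^ m * (1 + (1 + i) ^ 2 * ((1 + i) * t)) := by rw [hxe]; ring
        rw [e] at h
        exact not_C4_odd hi h2 hres hodd (by (repeat' first
      | assumption | exact (map_one _).le | exact nu_ofNat_le' _ | apply nu_add_le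
      | apply nu_sub_le' | apply nu_neg_le' | apply nu_mul_le | apply nu_pow_le')) h
    · exact h

/-- (X3): all abscissas -/
theorem pt_X3 {D u v ρ κ α : L} (hρ : (ρ = 0 ∧ κ = 0 ∧ α = 0) ∨ (ρ = 0 ∧ κ = 1 ∧ α = 1) ∨
      (ρ = 1 ∧ κ = 0 ∧ α = 1) ∨ (ρ = 1 ∧ κ = 1 ∧ α = 0))
    (hv : ν v ≤ 1) (huu : u = ρ + (1 + i) ^ 2 * (κ + (1 + i) * v)) (hD : D = 1 * (1 + 4 * u))
    (hu : ν u ≤ 1) :
    ¬ C4 ν (i ^ 1 * (1 + (1 + i) ^ 3 * α)) ∧ ∀ x y : L, y ^ 2 = x ^ 3 - D * x → x ≠ 0 →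
      C4 ν x ∨ C4 ν (x * (i ^ 1 * (1 + (1 + i) ^ 3 * α))) := by
  have h4 := nu_four4_le h2
  have hl := nu_lam2 hi h2
  have hi1 := (nu_i (ν := ν) hi).le
  have h0 : ν (0 : L) ≤ 1 := by
    rw [map_zero]
    exact zero_le
  have hα1 : ν α ≤ 1 := by
    rcases hρ with ⟨-, -, h⟩ | ⟨-, -, h⟩ | ⟨-, -, h⟩ | ⟨-, -, h⟩ <;> rw [h] <;> (repeat' first
      | assumption | exact (map_one _).le | exact nu_ofNat_le' _ | apply nu_add_le
      | apply nu_sub_le' | apply nu_neg_le' | apply nu_mul_le | apply nu_pow_le')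
  obtain ⟨hD1, hDc⟩ := D_data hi h2 (Or.inl rfl) hD hu
  have hD0 := hDc.ne h4
  constructor
  · have e : i ^ 1 * (1 + (1 + i) ^ 3 * α) = i ^ 1 * (1 + (1 + i) ^ 2 * ((1 + i) * α)) := by ring
    rw [e]
    exact not_C4_odd hi h2 hres (by decide) (by (repeat' first
      | assumption | exact (map_one _).le | exact nu_ofNat_le' _ | apply nu_add_le
      | apply nu_sub_le' | apply nu_neg_le' | apply nu_mul_le | apply nu_pow_le'))
  · intro x y he hx0
    exact loc4_X3 hi h2 hres hρ hv huu hD (pt_GLoc4 h4 hD0 hx0 he)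

/-! ### existence -/

omit hres in
theorem sq_of_near (hH : Hen ν) {s : L} (hs : ν s ≤ 1) :
    ∃ r : L, r ^ 2 = 1 + (1 + i) ^ 5 * s := by
  have hl := nu_lam2 hi h2
  have h11 : ν (1 : L) ≤ 1 := (map_one ν).le
  have h0 : ν (0 : L) ≤ 1 := by
    rw [map_zero]
    exact zero_le
  obtain ⟨e, -, he⟩ := hH ((1 + i) * s) 1 1 0 0 (by
    rw [map_mul, hl]
    calc exp (-1) * ν s ≤ exp (-1) * 1 := by gcongr
      _ < 1 := by
        rw [mul_one, ← exp_zero, exp_lt_exp]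
        norm_num) (map_one ν) h11 h0 h0
  refine ⟨1 + 2 * e, ?_⟩
  linear_combination 4 * he - (s * (1 + i) * (i ^ 2 + 4 * i + 5)) * hi

/-- a point with abscissa `ε (1 + lam ^ 3 t)`, `ε ^ 2 = σ` -/
theorem ex_A (hH : Hen ν) {D u ε c : L} (hε : (ε = 1 ∧ c = 1) ∨ (ε = i ∧ c = i)) (hu : ν u ≤ 1)
    (hD : D = ε ^ 2 * (1 + 4 * u)) :
    ∃ t y : L, ν t ≤ 1 ∧ y ^ 2 = (ε * (1 + (1 + i) ^ 3 * t)) ^ 3 - D * (ε * (1 + (1 + i) ^ 3 * t)) := by
  have hl := nu_lam2 hi h2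
  have hi1 := (nu_i (ν := ν) hi).le
  have h11 : ν (1 : L) ≤ 1 := (map_one ν).le
  have h0 : ν (0 : L) ≤ 1 := by
    rw [map_zero]
    exact zero_le
  have hεc : ε ^ 3 * c = 1 := by
    rcases hε with ⟨h, h'⟩ | ⟨h, h'⟩ <;> rw [h, h']
    · ring
    · linear_combination (i ^ 2 - 1) * hi
  rcases res4 hres hu with h | h
  · -- `D` is a square
    obtain ⟨e, he1, he⟩ := hH (-u) 1 1 0 0 (by rwa [Valuation.map_neg]) (map_one ν) h11 h0 h0
    obtain ⟨t, ht, het⟩ := div_lam hl he1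
    refine ⟨-i * t, 0, nu_mul_le (nu_neg_le' hi1) ht, ?_⟩
    have e1 : (1 + i) ^ 3 * (-i * t) = 2 * e := by
      rw [het]
      linear_combination (-t * (1 + i) * (i + 2)) * hi
    rw [e1, hD]
    linear_combination (-4 * ε ^ 3 * (1 + 2 * e)) * he
  · -- `u` is a unit
    have hc1 : ν (c - 1) < 1 := by
      rcases hε with ⟨h, h'⟩ | ⟨h, h'⟩
      · rw [h', sub_self, map_zero]
        exact zero_lt_one
      · rw [h']
        exact hres _ (nu_i hi)
    have h22 : ν (2 * u) < 1 := by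
      rw [map_mul]
      exact mul_lt_one_of_lt_of_le (nu_two_lt hi h2) hu
    obtain ⟨e, he1, he⟩ := hH (u - c) (-i * (1 - 2 * u)) 3 ((1 + i) ^ 2) 0 (by
      have e : u - c = (u - 1) - (c - 1) := by ring
      rw [e]
      exact (ν.map_sub _ _).trans_lt (max_lt h hc1)) (by
      rw [map_mul, Valuation.map_neg, nu_i hi, one_mul, sub_eq_add_neg]
      exact ν.map_one_add_of_lt (by rwa [Valuation.map_neg])) (by (repeat' first
      | assumption | exact (map_one _).le | exact nu_ofNat_le' _ | apply nu_add_le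
      | apply nu_sub_le' | apply nu_neg_le' | apply nu_mul_le | apply nu_pow_le')) (by (repeat' first
      | assumption | exact (map_one _).le | exact nu_ofNat_le' _ | apply nu_add_le
      | apply nu_sub_le' | apply nu_neg_le' | apply nu_mul_le | apply nu_pow_le')) h0
    obtain ⟨t, ht, het⟩ := div_lam hl he1
    refine ⟨t, (1 + i) ^ 2, ht, ?_⟩
    have e1 : (1 + i) ^ 3 * t = (1 + i) ^ 2 * e := by
      rw [het]
      ring
    have hl4 : (1 + i) ^ 4 = -4 := by linear_combination (i ^ 2 + 4 * i + 5) * hi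
    have hl2 : (1 + i) ^ 2 = 2 * i := by linear_combination hi
    rw [e1, hD]
    have e2 : (ε * (1 + (1 + i) ^ 2 * e)) ^ 3 - ε ^ 2 * (1 + 4 * u) * (ε * (1 + (1 + i) ^ 2 * e)) =
        ε ^ 3 * (-4 * c) + ε ^ 3 * (-4) * ((u - c) + (-i * (1 - 2 * u)) * e + 3 * e ^ 2 + (1 + i) ^ 2 * e ^ 3 + 0 * e ^ 4) := by
      have k1 : (1 + (1 + i) ^ 2 * e) ^ 3 - (1 + 4 * u) * (1 + (1 + i) ^ 2 * e) = -4 * c +
          (-4) * ((u - c) + (-i * (1 - 2 * u)) * e + 3 * e ^ 2 + (1 + i) ^ 2 * e ^ 3) := by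
        rw [hl2]
        linear_combination (12 * e ^ 2 + 8 * i * e ^ 3) * hi
      linear_combination ε ^ 3 * k1
    rw [e2, he]
    rw [mul_zero, add_zero]
    have e3 : ((1 + i) ^ 2) ^ 2 = -4 := by rw [← hl4]; ring
    rw [e3]
    linear_combination 4 * hεc

/-- (X3): a point with abscissa `i (1 + lam ^ 3 α)` -/
theorem ex_B (hH : Hen ν) {D u v ρ κ α : L} (hρ : (ρ = 0 ∧ κ = 0 ∧ α = 0) ∨ (ρ = 0 ∧ κ = 1 ∧ α = 1) ∨
      (ρ = 1 ∧ κ = 0 ∧ α = 1) ∨ (ρ = 1 ∧ κ = 1 ∧ α = 0))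
    (hv : ν v ≤ 1) (huu : u = ρ + (1 + i) ^ 2 * (κ + (1 + i) * v)) (hD : D = 1 * (1 + 4 * u)) :
    ∃ y : L, y ^ 2 = (i * (1 + (1 + i) ^ 3 * α)) ^ 3 - D * (i * (1 + (1 + i) ^ 3 * α)) := by
  have hi1 := (nu_i (ν := ν) hi).le
  have key : ∀ (x δ s : L), (δ = 1 ∨ δ = -1) → ν s ≤ 1 →
      x ^ 3 - D * x = -(1 + i) ^ 2 * δ * (1 + (1 + i) ^ 5 * s) → ∃ y : L, y ^ 2 = x ^ 3 - D * x := by
    intro x δ s hδ hs hx
    obtain ⟨r, hr⟩ := sq_of_near hi h2 hH hs
    rcases hδ with h | h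
    · refine ⟨i * (1 + i) * r, ?_⟩
      rw [hx, h, ← hr]
      linear_combination ((1 + i) ^ 2 * r ^ 2) * hi
    · refine ⟨(1 + i) * r, ?_⟩
      rw [hx, h, ← hr]
      ring
  rcases hρ with ⟨h5, h6, h7⟩ | ⟨h5, h6, h7⟩ | ⟨h5, h6, h7⟩ | ⟨h5, h6, h7⟩
  · refine key _ 1 (-i * v) (Or.inl rfl) (by (repeat' first
      | assumption | exact (map_one _).le | exact nu_ofNat_le' _ | apply nu_add_le
      | apply nu_sub_le' | apply nu_neg_le' | apply nu_mul_le | apply nu_pow_le')) ?_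
    rw [hD, huu, h5, h6, h7]
    linear_combination (-i ^ 6 * v - 7 * i ^ 5 * v - 20 * i ^ 4 * v - 28 * i ^ 3 * v - 19 * i ^ 2 * v - 5 * i * v + i + 1) * hi
  · refine key _ 1 (i * v + 2 * v + 1) (Or.inl rfl) (by (repeat' first
      | assumption | exact (map_one _).le | exact nu_ofNat_le' _ | apply nu_add_le
      | apply nu_sub_le' | apply nu_neg_le' | apply nu_mul_le | apply nu_pow_le')) ?_
    rw [hD, huu, h5, h6, h7]
    linear_combination (i ^ 10 + 9 * i ^ 9 + 35 * i ^ 8 + i ^ 6 * v + 78 * i ^ 7 + 5 * i ^ 5 * v + 109 * i ^ 6 + 10 * i ^ 4 * v + 94 * i ^ 5 + 12 * i ^ 3 * v + 41 * i ^ 4 + 11 * i ^ 2 * v - 3 * i ^ 3 + 7 * i * v - 11 * i ^ 2 - i + 2 * v + 2) * hi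
  · refine key _ (-1) (-i * v - 2 * v + 1) (Or.inr rfl) (by (repeat' first
      | assumption | exact (map_one _).le | exact nu_ofNat_le' _ | apply nu_add_le
      | apply nu_sub_le' | apply nu_neg_le' | apply nu_mul_le | apply nu_pow_le')) ?_
    rw [hD, huu, h5, h6, h7]
    linear_combination (i ^ 10 + 9 * i ^ 9 + 35 * i ^ 8 + i ^ 6 * v + 78 * i ^ 7 + 5 * i ^ 5 * v + 109 * i ^ 6 + 10 * i ^ 4 * v + 92 * i ^ 5 + 12 * i ^ 3 * v + 31 * i ^ 4 + 11 * i ^ 2 * v - 23 * i ^ 3 + 7 * i * v - 35 * i ^ 2 - 19 * i + 2 * v - 2) * hi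
  · refine key _ (-1) (i * v + 1) (Or.inr rfl) (by (repeat' first
      | assumption | exact (map_one _).le | exact nu_ofNat_le' _ | apply nu_add_le
      | apply nu_sub_le' | apply nu_neg_le' | apply nu_mul_le | apply nu_pow_le')) ?_
    rw [hD, huu, h5, h6, h7]
    linear_combination (-i ^ 6 * v - 7 * i ^ 5 * v - 20 * i ^ 4 * v - i ^ 5 - 28 * i ^ 3 * v - 7 * i ^ 4 - 19 * i ^ 2 * v - 20 * i ^ 3 - 5 * i * v - 28 * i ^ 2 - 18 * i - 2) * hi

theorem nu_eps {t ε : L} (hε : ν ε = 1) (ht : ν t ≤ 1) : ν (ε * (1 + (1 + i) ^ 3 * t)) = 1 := by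
  have hl := nu_lam2 hi h2
  have hi1 := (nu_i (ν := ν) hi).le
  have e : ε * (1 + (1 + i) ^ 3 * t) = ε * (1 + (1 + i) * ((1 + i) ^ 2 * t)) := by ring
  rw [e, map_mul, hε, one_mul]
  exact nu_onel hl (by (repeat' first
      | assumption | exact (map_one _).le | exact nu_ofNat_le' _ | apply nu_add_le
      | apply nu_sub_le' | apply nu_neg_le' | apply nu_mul_le | apply nu_pow_le'))

/-- **(X1)** -/
theorem index_X1 (hH : Hen ν) {D u : L} (hu : ν u ≤ 1) (hD : D = -1 * (1 + 4 * u)) :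
    (nsG ν (wq D)).index = 2 := by
  obtain ⟨w, hw, hc⟩ := pt_X1 hi h2 hres hu hD
  obtain ⟨hD1, -⟩ := D_data hi h2 (Or.inr rfl) hD hu
  obtain ⟨t, y, ht, he⟩ := ex_A hi h2 hres hH (D := D) (Or.inr ⟨rfl, rfl⟩) hu (by rw [hD, hi])
  exact index_w (nu_two_lt hi h2) (nu_four4_le h2) hD1 hres hw hc
    ⟨_, y, he, nu_eps hi h2 hres (nu_i hi) ht⟩

/-- **(X2)** -/
theorem index_X2 (hH : Hen ν) {D v ρ : L} (hρ : ρ = 0 ∨ ρ = 1) (hv : ν v ≤ 1)
    (hD : D = 1 + 4 * (ρ + i + 2 * v)) : (nsG ν (wq D)).index = 2 := by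
  have hi1 := (nu_i (ν := ν) hi).le
  have huu : ρ + i + 2 * v = ρ + i + (1 + i) ^ 2 * (-i * v) := by
    linear_combination (v * (i + 2)) * hi
  have hρ1 : ν ρ ≤ 1 := by
    rcases hρ with h | h <;> rw [h]
    · rw [map_zero]; exact zero_le
    · exact (map_one _).le
  have hu : ν (ρ + i + 2 * v) ≤ 1 := by (repeat' first
      | assumption | exact (map_one _).le | exact nu_ofNat_le' _ | apply nu_add_le
      | apply nu_sub_le' | apply nu_neg_le' | apply nu_mul_le | apply nu_pow_le')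
  have hD' : D = 1 * (1 + 4 * (ρ + i + 2 * v)) := by rw [hD, one_mul]
  obtain ⟨w, hw, hc⟩ := pt_X2 hi h2 hres hρ (v := -i * v) (by (repeat' first
      | assumption | exact (map_one _).le | exact nu_ofNat_le' _ | apply nu_add_le
      | apply nu_sub_le' | apply nu_neg_le' | apply nu_mul_le | apply nu_pow_le')) huu hD'
  obtain ⟨hD1, -⟩ := D_data hi h2 (Or.inl rfl) hD' hu
  obtain ⟨t, y, ht, he⟩ := ex_A hi h2 hres hH (D := D) (Or.inl ⟨rfl, rfl⟩) hu (by
    rw [hD', one_pow])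
  exact index_w (nu_two_lt hi h2) (nu_four4_le h2) hD1 hres hw hc
    ⟨_, y, he, nu_eps hi h2 hres (map_one ν) ht⟩

/-- a point which is not in `G1` -/
theorem sum_G1 (h4 : ν 4 < 1) {D w : L} (hDc : C4 ν D) (hw : ¬ C4 ν w)
    (hall : ∀ x y : L, y ^ 2 = x ^ 3 - D * x → x ≠ 0 → C4 ν x ∨ C4 ν (x * w))
    {P Q : (wq D).toAffine.Point} (hP : P ∉ G1 ν i hi h4 hDc) (hQ : Q ∉ G1 ν i hi h4 hDc) :
    P + Q ∈ G1 ν i hi h4 hDc := by
  rcases P with _ | ⟨x₁, y₁, h₁⟩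
  · exact absurd (Or.inl rfl) hP
  rcases Q with _ | ⟨x₂, y₂, h₂⟩
  · exact absurd (Or.inl rfl) hQ
  rw [mem_G1, not_or] at hP hQ
  rcases add_cases (P := Affine.Point.some x₁ y₁ h₁) (Q := Affine.Point.some x₂ y₂ h₂) rfl rfl with
    h | ⟨x₃, y₃, h₃, l, n, h, hl⟩
  · exact Or.inl h
  rw [h, mem_G1]
  by_contra hc
  rw [not_or] at hc
  exact line_w h4 hw ((hall _ _ ((wq_eqn _ _).1 h₁.1) hP.1).resolve_left hP.2)
    ((hall _ _ ((wq_eqn _ _).1 h₂.1) hQ.1).resolve_left hQ.2)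
    ((hall _ _ ((wq_eqn _ _).1 h₃.1) hc.1).resolve_left hc.2) hl

/-- two units which are squares modulo `4`: the third point is in `S0` -/
theorem line_C4 {D x₁ x₂ x₃ : L} (hD : ν (D - 1) ≤ exp (-4)) (n₁ : ν x₁ = 1) (n₂ : ν x₂ = 1)
    (n₃ : ν x₃ = 1) (c₁ : C4 ν x₁) (c₂ : C4 ν x₂) (c₃ : C4 ν x₃)
    (he : (D + (x₁ * x₂ + x₃ * (x₁ + x₂))) ^ 2 = 4 * (x₁ + x₂ + x₃) * (x₁ * x₂ * x₃)) : False := by
  have h4 := nu_four4 h2
  obtain ⟨ε₁, hε₁, k₁⟩ := C4_near hi h2 hres n₁ c₁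
  obtain ⟨ε₂, hε₂, k₂⟩ := C4_near hi h2 hres n₂ c₂
  obtain ⟨ε₃, hε₃, k₃⟩ := C4_near hi h2 hres n₃ c₃
  have e44 : exp (-((4 : ℕ) : ℤ)) = exp (-4 : ℤ) := by norm_num
  rw [e44] at k₁ k₂ k₃
  have hm : ∀ a b : L, ν a ≤ exp (-4) → ν b = 1 → ν (a * b) ≤ exp (-4) := by
    intro a b ha hb
    rwa [map_mul, hb, mul_one]
  have ha : ∀ a b : L, ν a ≤ exp (-4) → ν b ≤ exp (-4) → ν (a + b) ≤ exp (-4) :=
    fun a b ha hb => (ν.map_add _ _).trans (max_le ha hb)
  have s1 := nu_sign (ν := ν) hε₁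
  have s2 := nu_sign (ν := ν) hε₂
  have s3 := nu_sign (ν := ν) hε₃
  have key : ν (1 + (ε₁ * ε₂ + ε₃ * (ε₁ + ε₂))) ≤ exp (-4) := by
    have e : 1 + (ε₁ * ε₂ + ε₃ * (ε₁ + ε₂)) = 4 ∨ 1 + (ε₁ * ε₂ + ε₃ * (ε₁ + ε₂)) = 0 := by
      rcases hε₁ with a | a <;> rcases hε₂ with b | b <;> rcases hε₃ with c | c <;> rw [a, b, c] <;>
        norm_num
    rcases e with e | e <;> rw [e]
    · exact h4.le
    · rw [map_zero]
      exact zero_le
  have lhs : ν (D + (x₁ * x₂ + x₃ * (x₁ + x₂))) ≤ exp (-4) := by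
    have e : D + (x₁ * x₂ + x₃ * (x₁ + x₂)) = (D - 1) + ((x₁ - ε₁) * x₂ + ((x₂ - ε₂) * ε₁ +
        ((x₃ - ε₃) * x₁ + ((x₁ - ε₁) * ε₃ + ((x₃ - ε₃) * x₂ + ((x₂ - ε₂) * ε₃ +
        (1 + (ε₁ * ε₂ + ε₃ * (ε₁ + ε₂))))))))) := by ring
    rw [e]
    exact ha _ _ hD (ha _ _ (hm _ _ k₁ n₂) (ha _ _ (hm _ _ k₂ s1) (ha _ _ (hm _ _ k₃ n₁)
      (ha _ _ (hm _ _ k₁ s3) (ha _ _ (hm _ _ k₃ n₂) (ha _ _ (hm _ _ k₂ s3) key))))))
  have r1 : ν (x₁ + x₂ + x₃) = 1 := by
    have e : x₁ + x₂ + x₃ = 1 + ((x₁ - 1) + (x₂ - 1) + (x₃ - 1) + 2) := by ring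
    rw [e]
    refine ν.map_one_add_of_lt ?_
    exact (ν.map_add _ _).trans_lt (max_lt ((ν.map_add _ _).trans_lt (max_lt ((ν.map_add _ _).trans_lt
      (max_lt (hres _ n₁) (hres _ n₂))) (hres _ n₃))) (nu_two_lt hi h2))
  have hE := congrArg ν he
  rw [map_pow, map_mul, map_mul, map_mul, map_mul, r1, n₁, n₂, n₃, h4, mul_one, mul_one, mul_one,
    mul_one] at hE
  have k := pow_le_pow_left₀ zero_le lhs 2
  rw [hE, ← exp_nsmul, exp_le_exp] at k
  norm_num at k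

/-- the points of `S0` are in `G1` -/
theorem S0_le (h4 : ν 4 < 1) {D : L} (hD : ν D = 1) (hDc : C4 ν D) :
    S0 ν h4 hD ≤ G1 ν i hi h4 hDc := by
  intro P hP
  rcases P with _ | ⟨x, y, h⟩
  · exact Or.inl rfl
  rw [mem_S0] at hP
  rw [mem_G1]
  by_cases hx0 : x = 0
  · exact Or.inl hx0
  right
  have hD0 := hDc.ne h4
  have hG := pt_GLoc4 (ν := ν) h4 hD0 hx0 ((wq_eqn _ _).1 h.1)
  obtain ⟨n, hn⟩ := exists_nu ν hx0
  have h3 : ν (x ^ 2 / D - 1) < ν 16 → ν x = 1 := by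
    intro hx
    have h16 : ν 16 < 1 := by
      have e : (16 : L) = 4 * 4 := by norm_num
      rw [e, map_mul, nu_four4 h2, ← exp_add, ← exp_zero, exp_lt_exp]
      norm_num
    have h1 : ν (x ^ 2 / D) = 1 := by
      have := ν.map_one_add_of_lt (x := x ^ 2 / D - 1) (hx.trans h16)
      rwa [add_sub_cancel] at this
    rw [map_div₀, hD, div_one, map_pow] at h1
    exact (pow_eq_one_iff_of_nonneg zero_le two_ne_zero).1 h1
  rcases pt_alt (ν := ν) h4 hD0 hx0 ((wq_eqn _ _).1 h.1) with h5 | hx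
  · exact absurd (h3 h5) hP
  have hev := hx.even h4.le
  have hxx : x ^ 2 - D ≠ 0 := fun h => hx.ne h4.le (by rw [h, mul_zero])
  rcases lt_trichotomy n 0 with h0 | h0 | h0
  · have h3 : ν (x ^ 2) < ν D := by
      rw [map_pow, hn, hD, ← exp_nsmul, ← exp_zero, exp_lt_exp]
      simp only [nsmul_eq_mul, Nat.cast_ofNat]
      omega
    rw [map_mul, nu_subr h3, hD, mul_one, hn,
      Pool.Agent.Lib.MP_1a91b9_ntH.C.isSquare_exp] at hev
    have h5 : C4 ν (-(x * D)) := by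
      refine C4.congr h4 (C4.of_sq hx) ?_
      have e : -(x * D) / (x * (x ^ 2 - D)) - 1 = -(x ^ 2 / (x ^ 2 - D)) := by
        field_simp
        ring
      rw [e, Valuation.map_neg, map_div₀, nu_subr h3, hD, div_one, map_pow, hn, ← exp_nsmul,
        nu_four4 h2, exp_le_exp]
      simp only [nsmul_eq_mul, Nat.cast_ofNat]
      obtain ⟨r, hr⟩ := hev
      omega
    exact C4.cancel h4 (C4.neg hi h5) hDc
  · exact absurd (by rw [hn, h0, exp_zero]) hP
  · have h3 : ν D < ν (x ^ 2) := by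
      rw [map_pow, hn, hD, ← exp_nsmul, ← exp_zero, exp_lt_exp]
      simp only [nsmul_eq_mul, Nat.cast_ofNat]
      omega
    rw [map_mul, nu_subl h3, map_pow, hn, ← exp_nsmul, ← exp_add,
      Pool.Agent.Lib.MP_1a91b9_ntH.C.isSquare_exp] at hev
    simp only [nsmul_eq_mul, Nat.cast_ofNat] at hev
    have hev' := odd_three hev
    have h5 : C4 ν (x ^ 3) := by
      refine C4.congr h4 (C4.of_sq hx) ?_
      have e : x ^ 3 / (x * (x ^ 2 - D)) - 1 = D / (x ^ 2 - D) := by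
        field_simp
        ring
      rw [e, map_div₀, nu_subl h3, hD, map_pow, hn, ← exp_nsmul, nu_four4 h2, one_div, ← exp_neg,
        exp_le_exp]
      simp only [nsmul_eq_mul, Nat.cast_ofNat]
      obtain ⟨r, hr⟩ := hev'
      omega
    refine C4.of_mul_sq hx0 ?_
    have e : x * x ^ 2 = x ^ 3 := by ring
    rwa [e]

/-- **(X3)** -/
theorem index_X3 (hH : Hen ν) {D v' ρ : L} (hρ : ρ = 0 ∨ ρ = 1) (hv' : ν v' ≤ 1)
    (hD : D = 1 + 4 * (ρ + 2 * v')) : (nsG ν (wq D)).index = 4 := by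
  have h4 := nu_four4_le h2
  have hl := nu_lam2 hi h2
  have hi1 := (nu_i (ν := ν) hi).le
  obtain ⟨κ, α, v, hv, hρκ, huu⟩ : ∃ κ α v : L, ν v ≤ 1 ∧
      ((ρ = 0 ∧ κ = 0 ∧ α = 0) ∨ (ρ = 0 ∧ κ = 1 ∧ α = 1) ∨
      (ρ = 1 ∧ κ = 0 ∧ α = 1) ∨ (ρ = 1 ∧ κ = 1 ∧ α = 0)) ∧
      ρ + 2 * v' = ρ + (1 + i) ^ 2 * (κ + (1 + i) * v) := by
    obtain ⟨s, hs, h | h⟩ := res_lam hl hres hv'
    · rcases hρ with h' | h'
      · refine ⟨0, 0, -i * s, by (repeat' first
      | assumption | exact (map_one _).le | exact nu_ofNat_le' _ | apply nu_add_le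
      | apply nu_sub_le' | apply nu_neg_le' | apply nu_mul_le | apply nu_pow_le'), Or.inl ⟨h', rfl, rfl⟩, ?_⟩
        rw [h]
        linear_combination (s * (1 + i) * (i + 2)) * hi
      · refine ⟨0, 1, -i * s, by (repeat' first
      | assumption | exact (map_one _).le | exact nu_ofNat_le' _ | apply nu_add_le
      | apply nu_sub_le' | apply nu_neg_le' | apply nu_mul_le | apply nu_pow_le'), Or.inr (Or.inr (Or.inl ⟨h', rfl, rfl⟩)), ?_⟩
        rw [h]
        linear_combination (s * (1 + i) * (i + 2)) * hi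
    · rcases hρ with h' | h'
      · refine ⟨1, 1, -1 - i * s, by (repeat' first
      | assumption | exact (map_one _).le | exact nu_ofNat_le' _ | apply nu_add_le
      | apply nu_sub_le' | apply nu_neg_le' | apply nu_mul_le | apply nu_pow_le'), Or.inr (Or.inl ⟨h', rfl, rfl⟩), ?_⟩
        rw [h]
        linear_combination (s * (1 + i) * (i + 2) + i + 2) * hi
      · refine ⟨1, 0, -1 - i * s, by (repeat' first
      | assumption | exact (map_one _).le | exact nu_ofNat_le' _ | apply nu_add_le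
      | apply nu_sub_le' | apply nu_neg_le' | apply nu_mul_le | apply nu_pow_le'), Or.inr (Or.inr (Or.inr ⟨h', rfl, rfl⟩)), ?_⟩
        rw [h]
        linear_combination (s * (1 + i) * (i + 2) + i + 2) * hi
  have hρ1 : ν ρ ≤ 1 := by
    rcases hρ with h | h <;> rw [h]
    · rw [map_zero]; exact zero_le
    · exact (map_one _).le
  have hu : ν (ρ + 2 * v') ≤ 1 := by (repeat' first
      | assumption | exact (map_one _).le | exact nu_ofNat_le' _ | apply nu_add_le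
      | apply nu_sub_le' | apply nu_neg_le' | apply nu_mul_le | apply nu_pow_le')
  have hD' : D = 1 * (1 + 4 * (ρ + 2 * v')) := by rw [hD, one_mul]
  obtain ⟨hD1, hDc⟩ := D_data hi h2 (Or.inl rfl) hD' hu
  have hD0 := hDc.ne h4
  have hDn : ν (D - 1) ≤ exp (-4) := by
    have e : D - 1 = 4 * (ρ + 2 * v') := by rw [hD]; ring
    rw [e, map_mul, nu_four4 h2]
    calc exp (-4) * ν (ρ + 2 * v') ≤ exp (-4) * 1 := by gcongr
      _ = exp (-4) := mul_one _
  obtain ⟨hw, hall⟩ := pt_X3 hi h2 hres hρκ hv huu hD' hu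
  obtain ⟨w, hww⟩ : ∃ w, w = i ^ 1 * (1 + (1 + i) ^ 3 * α) := ⟨_, rfl⟩
  rw [← hww] at hw hall
  have hα1 : ν α ≤ 1 := by
    have h0 : ν (0 : L) ≤ 1 := by
      rw [map_zero]
      exact zero_le
    rcases hρκ with ⟨-, -, h⟩ | ⟨-, -, h⟩ | ⟨-, -, h⟩ | ⟨-, -, h⟩ <;> rw [h] <;> (repeat' first
      | assumption | exact (map_one _).le | exact nu_ofNat_le' _ | apply nu_add_le
      | apply nu_sub_le' | apply nu_neg_le' | apply nu_mul_le | apply nu_pow_le')
  -- the point `A`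
  obtain ⟨t, yA, ht, heA⟩ := ex_A hi h2 hres hH (D := D) (Or.inl ⟨rfl, rfl⟩) hu (by
    rw [hD', one_pow])
  have nA := (wq_nons hD0 _ _).2 heA
  obtain ⟨A, hA⟩ : ∃ A : (wq D).toAffine.Point, A = Affine.Point.some _ _ nA := ⟨_, rfl⟩
  have vA : ν (1 * (1 + (1 + i) ^ 3 * t)) = 1 := nu_eps hi h2 hres (map_one ν) ht
  have nA0 : 1 * (1 + (1 + i) ^ 3 * t) ≠ 0 := by
    intro h
    rw [h, map_zero] at vA
    exact zero_ne_one vA
  have cA : C4 ν (1 * (1 + (1 + i) ^ 3 * t)) := by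
    rcases hall _ _ heA nA0 with h | h
    · exact h
    · exfalso
      have e : 1 * (1 + (1 + i) ^ 3 * t) * w =
          i ^ 1 * (1 + (1 + i) ^ 2 * ((1 + i) * (t + α + (1 + i) ^ 3 * t * α))) := by
        rw [hww]
        ring
      rw [e] at h
      exact not_C4_odd hi h2 hres (by decide) (by (repeat' first
      | assumption | exact (map_one _).le | exact nu_ofNat_le' _ | apply nu_add_le
      | apply nu_sub_le' | apply nu_neg_le' | apply nu_mul_le | apply nu_pow_le')) h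
  have hAG : A ∈ G1 ν i hi h4 hDc := by
    rw [hA]
    exact mem_G1.2 (Or.inr cA)
  have hAS : A ∉ S0 ν h4 hD1 := by
    rw [hA, mem_S0]
    exact fun h => h vA
  -- the point `B`
  obtain ⟨yB, heB⟩ := ex_B hi h2 hres hH hρκ hv huu hD'
  have nB := (wq_nons hD0 _ _).2 heB
  obtain ⟨B, hB⟩ : ∃ B : (wq D).toAffine.Point, B = Affine.Point.some _ _ nB := ⟨_, rfl⟩
  have hBG : B ∉ G1 ν i hi h4 hDc := by
    rw [hB, mem_G1]
    rintro (h | h)
    · have h5 := nu_eps hi h2 hres (ε := i) (nu_i hi) hα1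
      rw [h, map_zero] at h5
      exact zero_ne_one h5
    · refine hw ?_
      rw [hww, pow_one]
      exact h
  have hle := S0_le hi h2 hres h4 hD1 hDc
  have hGtop : (G1 ν i hi h4 hDc).index = 2 := by
    rw [AddSubgroup.index_eq_two_iff]
    refine ⟨B, fun b => ?_⟩
    by_cases hb : b ∈ G1 ν i hi h4 hDc
    · refine Or.inr ⟨hb, fun h => hBG ?_⟩
      have := (G1 ν i hi h4 hDc).sub_mem h hb
      rwa [add_sub_cancel_left] at this
    · exact Or.inl ⟨sum_G1 hi h2 hres h4 hDc hw hall hb hBG, hb⟩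
  have hrel : (S0 ν h4 hD1).relIndex (G1 ν i hi h4 hDc) = 2 := by
    rw [AddSubgroup.relIndex, AddSubgroup.index_eq_two_iff]
    refine ⟨⟨A, hAG⟩, fun b => ?_⟩
    rw [AddSubgroup.mem_addSubgroupOf, AddSubgroup.mem_addSubgroupOf]
    obtain ⟨b, hbG⟩ := b
    change Xor (b + A ∈ S0 ν h4 hD1) (b ∈ S0 ν h4 hD1)
    by_cases hb : b ∈ S0 ν h4 hD1
    · refine Or.inr ⟨hb, fun h => hAS ?_⟩
      have := (S0 ν h4 hD1).sub_mem h hb
      rwa [add_sub_cancel_left] at this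
    refine Or.inl ⟨?_, hb⟩
    rcases b with _ | ⟨x₂, y₂, h₂⟩
    · exact absurd (Or.inl rfl) hb
    have hx₂ : ν x₂ = 1 := by
      by_contra h
      exact hb (mem_S0.2 h)
    have hsum := (G1 ν i hi h4 hDc).add_mem hbG hAG
    have c₂ : C4 ν x₂ := by
      rcases mem_G1.1 hbG with h | h
      · rw [h, map_zero] at hx₂
        exact absurd hx₂ zero_ne_one
      · exact h
    rcases add_cases (P := Affine.Point.some x₂ y₂ h₂) (Q := A) rfl hA with
      h | ⟨x₃, y₃, h₃, l, n, h, hl⟩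
    · rw [h]
      exact Or.inl rfl
    · rw [h] at hsum ⊢
      rw [mem_S0]
      intro hx₃
      have c₃ : C4 ν x₃ := by
        rcases mem_G1.1 hsum with h | h
        · rw [h, map_zero] at hx₃
          exact absurd hx₃ zero_ne_one
        · exact h
      exact line_C4 hi h2 hres hDn hx₂ vA hx₃ c₂ cA c₃ (line_sq hl)
  rw [nsG_S0 (nu_two_lt hi h2) h4 hD1 hres, ← AddSubgroup.relIndex_mul_index hle, hrel, hGtop]

end

end Pool.Agent.Lib.MP_1a91b9_ntQ.C
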