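import Pool.Agent.Lib.MP_1a91b9_ntQ.R.Ring4
import Pool.Agent.Lib.MP_1a91b9_ntQ.C.Tors4N

/-!
# MP_1a91b9_nt (quartic twists), part C: the points over `ℚ(i)`

For `D` squarefree, if the Selmer elements are the classes of `(0, 0)` and `O`, then the points of
`y² = x³ - D x` over `ℚ(i)` are `O` and `(0, 0)`, unless `D = 1 ± 2 i`.
-/

set_option autoImplicit false

namespace Pool.Agent.Lib.MP_1a91b9_ntQ.C

open WithZero WeierstrassCurve NumberField IsDedekindDomain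
open Pool.Agent.Lib.MP_1a91b9_ntT3.S9 (ShaP)
open scoped Classical

noncomputable section

theorem cmul (a b : 𝓞 K4) : ((a * b : 𝓞 K4) : K4) = (a : K4) * (b : K4) :=
  map_mul (algebraMap (𝓞 K4) K4) a b

theorem cpow (a : 𝓞 K4) (n : ℕ) : ((a ^ n : 𝓞 K4) : K4) = (a : K4) ^ n :=
  map_pow (algebraMap (𝓞 K4) K4) a n

theorem c_five : ((1 + 2 * iO : 𝓞 K4) : K4) = 1 + 2 * iK := by
  have h : algebraMap (𝓞 K4) K4 (1 + 2 * iO) = 1 + 2 * algebraMap (𝓞 K4) K4 iO := by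
    rw [map_add, map_one, map_mul, map_ofNat]
  exact h

theorem c_five' : ((1 - 2 * iO : 𝓞 K4) : K4) = 1 - 2 * iK := by
  have h : algebraMap (𝓞 K4) K4 (1 - 2 * iO) = 1 - 2 * algebraMap (𝓞 K4) K4 iO := by
    rw [map_sub, map_one, map_mul, map_ofNat]
  exact h

theorem c_lam : (lam : K4) = 1 + iK := by
  have h : algebraMap (𝓞 K4) K4 (1 + iO) = 1 + algebraMap (𝓞 K4) K4 iO := by
    rw [map_add, map_one]
  exact h

/-- a squarefree element which is a prime up to a fourth power of the field is this prime -/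
theorem eq_of_four {D p : 𝓞 K4} (hD : Squarefree D) (hp : Prime p) {s : K4}
    (h : (D : K4) = s ^ 4 * (p : K4)) : D = p := by
  have hinj : Function.Injective (algebraMap (𝓞 K4) K4) := FaithfulSMul.algebraMap_injective _ _
  have h1 : (s * (p : K4)) ^ 4 = ((D * p ^ 3 : 𝓞 K4) : K4) := by
    rw [cmul, cpow, h]
    ring
  have h2 : IsIntegral ℤ (s * (p : K4)) := by
    refine IsIntegral.of_pow (n := 4) (by norm_num) ?_
    rw [h1]
    exact RingOfIntegers.isIntegral_coe _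
  obtain ⟨T, hT⟩ : ∃ T : 𝓞 K4, (T : K4) = s * (p : K4) := ⟨⟨_, h2⟩, rfl⟩
  have h3 : T ^ 4 = D * p ^ 3 := by
    apply hinj
    exact (cpow T 4).trans ((congrArg (· ^ 4) hT).trans h1)
  have h4 : p ∣ T := by
    refine hp.dvd_of_dvd_pow (n := 4) ?_
    rw [h3]
    exact ⟨D * p ^ 2, by ring⟩
  obtain ⟨c, rfl⟩ := h4
  have h5 : D = p * c ^ 4 := by
    refine mul_right_cancel₀ (pow_ne_zero 3 hp.ne_zero) ?_
    rw [← h3]
    ring
  have h6 : IsUnit c := hD c ⟨p * c ^ 2, by rw [h5]; ring⟩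
  obtain ⟨k, hk⟩ := exists_pow_unit h6
  have h7 : c ^ 4 = 1 := by
    rw [hk, ← pow_mul, mul_comm, pow_mul, iO_four, one_pow]
  rw [h5, h7, mul_one]

theorem prime_five : Prime (1 + 2 * iO) := by
  refine prime_of_Nz ?_
  have h := Nz_coords 1 2
  have e : ((1 : ℤ) : 𝓞 K4) + ((2 : ℤ) : 𝓞 K4) * iO = 1 + 2 * iO := by push_cast; ring
  rw [e] at h
  have h2 : Nz (1 + 2 * iO) = 5 := by
    have : ((1 : ℤ) ^ 2 + 2 ^ 2) = 5 := by norm_num
    rw [this] at h
    exact_mod_cast h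
  rw [h2]
  norm_num

theorem prime_five' : Prime (1 - 2 * iO) := by
  refine prime_of_Nz ?_
  have h := Nz_coords 1 (-2)
  have e : ((1 : ℤ) : 𝓞 K4) + ((-2 : ℤ) : 𝓞 K4) * iO = 1 - 2 * iO := by push_cast; ring
  rw [e] at h
  have h2 : Nz (1 - 2 * iO) = 5 := by
    have : ((1 : ℤ) ^ 2 + (-2) ^ 2) = 5 := by norm_num
    rw [this] at h
    exact_mod_cast h
  rw [h2]
  norm_num

theorem tors_res_lam (y : 𝓞 K4) : lam ∣ y ∨ lam ∣ y - 1 := by
  rw [lam_dvd_iff', lam_dvd_iff', cp_sub, cp_one]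
  simp only [Prod.fst_sub, Prod.snd_sub]
  omega

/-- **part C, quartic twists over `ℚ(i)`** -/
theorem main4_K {D : 𝓞 K4} (hD : Squarefree D) (hS : SelCl4 (D : K4)) (h1 : D ≠ 1 + 2 * iO)
    (h2 : D ≠ 1 - 2 * iO) {W : WeierstrassCurve K4} (hW : W = cq (D : K4)) :
    Finite W.toAffine.Point ∧ Nat.card W.toAffine.Point = 2 ∧ Nat.card (ShaP 2 W) = 1 ∧
      ∀ x y : K4, y ^ 2 = x ^ 3 - (D : K4) * x → x = 0 ∧ y = 0 := by
  have hlam : (lam : K4) = iK ^ (0 : ℤ) * (1 + iK) := by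
    rw [zpow_zero, one_mul, c_lam]
  refine main4_int hD.ne_zero iK_sq hS hW prime_lam hlam tors_res_lam (fun h => ?_) (fun s => ⟨?_, ?_⟩)
  · exact prime_lam.not_isUnit (hD lam (by rwa [← sq]))
  · intro h
    refine h1 (eq_of_four hD prime_five (s := s) ?_)
    rw [h, c_five]
  · intro h
    refine h2 (eq_of_four hD prime_five' (s := s) ?_)
    rw [h, c_five']

end

end Pool.Agent.Lib.MP_1a91b9_ntQ.C
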