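import Pool.Agent.Lib.MP_1a91b9_ntQ.C.TamX4
import Pool.Agent.Lib.MP_1a91b9_ntQ.C.Lam4
import Pool.Agent.Lib.MP_1a91b9_ntT.S9.QD

/-!
# MP_1a91b9_nt (quartic twists), Tamagawa numbers: the completion of `ℚ(i)` at `lam`
-/

set_option autoImplicit false

namespace Pool.Agent.Lib.MP_1a91b9_ntQ.C

open NumberField WithZero IsDedekindDomain WeierstrassCurve Pool.Agent.Lib.MP_1a91b9_nuT
open Pool.Agent.Lib.MP_1a91b9_ntQ
open Pool.Agent.Lib.MP_1a91b9_ntH.C (nsSet nsG)
open Pool.Agent.Lib.MP_1a91b9_ntT.S9 (hensel_small)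
open scoped Classical

/-- The completion of `K` at `lam`. -/
abbrev L4 := (pv lam prime_lam).adicCompletion K

noncomputable instance : CharZero L4 :=
  charZero_of_injective_algebraMap (algebraMap K L4).injective

theorem cmp_val (x : K) : (Valued.v : Valuation L4 ℤᵐ⁰) (algebraMap K L4 x) = nuL x :=
  HeightOneSpectrum.valuedAdicCompletion_eq_valuation' _ x

theorem cmp_dense (x : L4) : ∃ X : K, Valued.v (x - algebraMap K L4 X) < (1 : ℤᵐ⁰) := by
  have hn1 : exp (-(1 : ℤ)) < (1 : ℤᵐ⁰) := by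
    rw [← exp_zero, exp_lt_exp]
    omega
  obtain ⟨c, hc⟩ := HeightOneSpectrum.valuedAdicCompletion_surjective K (pv lam prime_lam)
    (exp (-(1 : ℤ)))
  have hcr : Valued.v.restrict c ≠ 0 := by
    rw [Ne, Valuation.restrict_eq_zero_iff, hc]
    exact exp_ne_zero
  have hO : IsOpen ((fun y : L4 => x - y) ⁻¹'
      {z : L4 | Valued.v.restrict z ≤ Valued.v.restrict c}) :=
    (Valued.isOpen_closedBall _ hcr).preimage (continuous_const.sub continuous_id)
  obtain ⟨z, hz⟩ := (HeightOneSpectrum.denseRange_algebraMap K (pv lam prime_lam)).exists_mem_open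
    hO ⟨x, by
      rw [Set.mem_preimage, sub_self, Set.mem_ofPred_eq, map_zero]
      exact zero_le⟩
  rw [Set.mem_preimage, Set.mem_ofPred_eq, Valuation.restrict_le_iff, hc] at hz
  exact ⟨z, hz.trans_lt hn1⟩

/-- the residue field has two elements -/
theorem cmp_res (x : L4) (hx : Valued.v x = (1 : ℤᵐ⁰)) : Valued.v (x - 1) < (1 : ℤᵐ⁰) := by
  obtain ⟨X, hX⟩ := cmp_dense x
  have hX1 : nuL X = 1 := by
    rw [← cmp_val]
    have e : algebraMap K L4 X = x - (x - algebraMap K L4 X) := by ring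
    rw [e, Valuation.map_sub_eq_of_lt_left _ (by rwa [hx]), hx]
  have e : x - 1 = (x - algebraMap K L4 X) + algebraMap K L4 (X - 1) := by
    rw [map_sub, map_one]
    ring
  rw [e]
  refine (Valuation.map_add _ _ _).trans_lt (max_lt hX ?_)
  rw [cmp_val]
  exact nuL_res X hX1

theorem cmp_two : (Valued.v : Valuation L4 ℤᵐ⁰) 2 = exp (-2) := by
  have e : (2 : L4) = algebraMap K L4 2 := (map_ofNat _ 2).symm
  rw [e, cmp_val, nuL_two]

/-- `i` in the completion -/
noncomputable def cI : L4 := algebraMap K L4 ((iO : 𝓞 K) : K)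

theorem cI_sq : cI ^ 2 = -1 := by
  rw [cI, ← map_pow, iK_sq', map_neg, map_one]

theorem cmp_hen : Hen (Valued.v : Valuation L4 ℤᵐ⁰) := fun A B C D F hA hB hC hD hF =>
  hensel_small (pv lam prime_lam) A B C D F hA hB hC hD hF

theorem cmp_O (x : 𝓞 K) : (Valued.v : Valuation L4 ℤᵐ⁰) (algebraMap K L4 (x : K)) ≤ 1 := by
  rw [cmp_val]
  exact nuL_O x

/-- **(X1)** `D = -1` modulo `4` -/
theorem idx_X1 {D : 𝓞 K} (h : 4 ∣ D + 1) :
    (nsG (Valued.v : Valuation L4 ℤᵐ⁰) (wq (algebraMap K L4 (D : K)))).index = 2 := by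
  obtain ⟨u, hu⟩ := h
  have e : D = -1 * (1 + 4 * (-u)) := by linear_combination hu
  have e2 : (D : K) = -1 * (1 + 4 * ((-u : 𝓞 K) : K)) := by
    rw [e]
    push_cast
    rfl
  refine index_X1 cI_sq cmp_two cmp_res cmp_hen (cmp_O (-u)) ?_
  rw [e2]
  simp only [map_mul, map_add, map_neg, map_one, map_ofNat]

/-- **(X3)** `D = 1` or `5` modulo `8` -/
theorem idx_X3 {D : 𝓞 K} (h : 8 ∣ D - 1 ∨ 8 ∣ D - 5) :
    (nsG (Valued.v : Valuation L4 ℤᵐ⁰) (wq (algebraMap K L4 (D : K)))).index = 4 := by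
  rcases h with ⟨v, hv⟩ | ⟨v, hv⟩
  · have e : D = 1 + 4 * (0 + 2 * v) := by linear_combination hv
    have e2 : (D : K) = 1 + 4 * (0 + 2 * (v : K)) := by
      rw [e]
      push_cast
      rfl
    refine index_X3 cI_sq cmp_two cmp_res cmp_hen (Or.inl rfl) (cmp_O v) ?_
    rw [e2]
    simp only [map_mul, map_add, map_one, map_ofNat, map_zero]
  · have e : D = 1 + 4 * (1 + 2 * v) := by linear_combination hv
    have e2 : (D : K) = 1 + 4 * (1 + 2 * (v : K)) := by
      rw [e]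
      push_cast
      rfl
    refine index_X3 cI_sq cmp_two cmp_res cmp_hen (Or.inr rfl) (cmp_O v) ?_
    rw [e2]
    simp only [map_mul, map_add, map_one, map_ofNat]

/-- **(X2)** `D = 1 + 4 i` or `5 + 4 i` modulo `8` -/
theorem idx_X2 {D : 𝓞 K} (h : 8 ∣ D - (1 + 4 * iO) ∨ 8 ∣ D - (5 + 4 * iO)) :
    (nsG (Valued.v : Valuation L4 ℤᵐ⁰) (wq (algebraMap K L4 (D : K)))).index = 2 := by
  rcases h with ⟨v, hv⟩ | ⟨v, hv⟩
  · have e : D = 1 + 4 * (0 + iO + 2 * v) := by linear_combination hv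
    have e2 : (D : K) = 1 + 4 * (0 + ((iO : 𝓞 K) : K) + 2 * (v : K)) := by
      rw [e]
      push_cast
      rfl
    refine index_X2 cI_sq cmp_two cmp_res cmp_hen (Or.inl rfl) (cmp_O v) ?_
    rw [e2]
    simp only [map_mul, map_add, map_one, map_ofNat, map_zero]
    rfl
  · have e : D = 1 + 4 * (1 + iO + 2 * v) := by linear_combination hv
    have e2 : (D : K) = 1 + 4 * (1 + ((iO : 𝓞 K) : K) + 2 * (v : K)) := by
      rw [e]
      push_cast
      rfl
    refine index_X2 cI_sq cmp_two cmp_res cmp_hen (Or.inr rfl) (cmp_O v) ?_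
    rw [e2]
    simp only [map_mul, map_add, map_one, map_ofNat]
    rfl

/-- `D = 1` modulo `4`: the classes modulo `8` -/
theorem one_mod_eight {D : 𝓞 K} (h : 4 ∣ D - 1) : (8 ∣ D - 1 ∨ 8 ∣ D - 5) ∨
    (8 ∣ D - (1 + 4 * iO) ∨ 8 ∣ D - (5 + 4 * iO)) := by
  obtain ⟨u, hu⟩ := h
  have key : (lam ∣ u ∨ lam ∣ u - 1) := by
    by_cases h1 : lam ∣ u
    · exact Or.inl h1
    · right
      exact lam_dvd_sub h1 (fun hc => prime_lam.not_unit (isUnit_of_dvd_one hc))
  have hl2 : (2 : 𝓞 K) ∣ lam * lam := by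
    have e := RingOfIntegers.ext (by
      have h1 := lam_coe
      have h2 := iK_sq'
      push_cast
      show ((lam : 𝓞 K) : K) * ((lam : 𝓞 K) : K) = (2 : K) * ((iO : 𝓞 K) : K)
      rw [h1]
      linear_combination h2 : (((lam * lam : 𝓞 K)) : K) = ((2 * iO : 𝓞 K) : K))
    rw [e]
    exact Dvd.intro _ rfl
  have hli : (lam : 𝓞 K) = 1 + iO := RingOfIntegers.ext (by
    push_cast
    exact lam_coe)
  have key2 : ∀ a : 𝓞 K, lam ∣ a → (2 ∣ a ∨ 2 ∣ a - lam) := by
    rintro a ⟨b, rfl⟩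
    by_cases h1 : lam ∣ b
    · left
      obtain ⟨c, rfl⟩ := h1
      exact (hl2.mul_right c).trans (by rw [mul_assoc])
    · right
      obtain ⟨c, hc⟩ := lam_dvd_sub h1 (d := 1) (fun hc => prime_lam.not_unit (isUnit_of_dvd_one hc))
      have e : lam * b - lam = lam * lam * c := by linear_combination lam * hc
      rw [e]
      exact hl2.mul_right c
  have h48 : ∀ a b : 𝓞 K, 2 ∣ u - a → D - b = 4 * (u - a) → 8 ∣ D - b := by
    rintro a b ⟨c, hc⟩ h
    exact ⟨c, by rw [h, hc]; ring⟩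
  rcases key with h | h
  · rcases key2 _ h with h1 | h1
    · left; left
      exact h48 0 1 (by rwa [sub_zero]) (by rw [hu, sub_zero])
    · right; right
      refine h48 (1 + iO) _ (by rwa [hli] at h1) ?_
      linear_combination hu
  · rcases key2 _ h with h1 | h1
    · left; right
      refine h48 1 _ h1 ?_
      linear_combination hu
    · right; left
      rw [hli] at h1
      obtain ⟨c, hc⟩ := h1
      refine h48 iO _ ⟨c + 1, ?_⟩ ?_
      · linear_combination hc
      · linear_combination hu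

end Pool.Agent.Lib.MP_1a91b9_ntQ.C
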