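import Pool.Agent.Lib.MP_1a91b9_ntQ.C.LocX4

/-!
# MP_1a91b9_nt (quartic twists), converse of the descent: the local image at `lam`, `D` a unit

The abscissa `5 / lam ^ 2` has the class of `5 = 1 + 4`; the translation by `(0, 0)`.
-/

set_option autoImplicit false
set_option linter.unusedSectionVars false

namespace Pool.Agent.Lib.MP_1a91b9_ntQ.C

open WithZero
open Pool.Agent.Lib.MP_1a91b9_ntH.C (Sq exists_nu isSquare_exp nu_one)

variable {L : Type*} [Field L] [CharZero L] {ν : Valuation L ℤᵐ⁰}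

theorem GLoc4.of_mul_sq {D a s : L} (hs : s ≠ 0) (h : GLoc4 ν D (a * s ^ 2)) : GLoc4 ν D a := by
  rcases h with h | h | ⟨x, hx, h1, h2⟩ | ⟨x, hx, h1, h2⟩
  · exact Or.inl (Sq.of_mul_sq hs h)
  · refine Or.inr (Or.inl (Sq.of_mul_sq hs ?_))
    have e : a * D * s ^ 2 = a * s ^ 2 * D := by ring
    rwa [e]
  · refine Or.inr (Or.inr (Or.inl ⟨x, hx, h1, Sq.of_mul_sq hs ?_⟩))
    have e : a * x * s ^ 2 = a * s ^ 2 * x := by ring
    rwa [e]
  · refine Or.inr (Or.inr (Or.inr ⟨x, hx, h1, Sq.of_mul_sq hs ?_⟩))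
    have e : a * x * s ^ 2 = a * s ^ 2 * x := by ring
    rwa [e]

/-- a square of `L` -/
theorem Sq.pow_two {x : L} (hx : x ≠ 0) : Sq ν (x ^ 2) :=
  Sq.of_isSquare ⟨x, by ring⟩ (pow_ne_zero 2 hx)

/-- `16` is smaller than `4` -/
theorem nu_sixteen (h4 : ν 4 ≤ 1) : ν 16 ≤ ν 4 := by
  have e : (16 : L) = 4 * 4 := by norm_num
  rw [e, map_mul]
  exact mul_le_of_le_one_left zero_le h4

/-- the translation by `(0, 0)` -/
theorem gloc4_mul_D {i D a : L} (hi : i ^ 2 = -1) (h4 : ν 4 ≤ 1) (hD0 : D ≠ 0)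
    (h : GLoc4 ν D a) : GLoc4 ν D (a * D) := by
  rcases h with h | h | ⟨x, hx, h1, h2⟩ | ⟨x, hx, h1, h2⟩
  · refine Or.inr (Or.inl ?_)
    have e : a * D * D = a * D ^ 2 := by ring
    rw [e]
    exact h.mul h4 (Sq.pow_two hD0)
  · exact Or.inl h
  · refine Or.inr (Or.inr (Or.inl ⟨-x, neg_ne_zero.2 hx, by rwa [neg_sq], ?_⟩))
    -- `a D (- x) = (a x) (x ^ 2 / D)⁻¹ ..`
    have h3 : Sq ν (x ^ 2 / D) := Sq.one (h1.trans_le (nu_sixteen h4))
    refine Sq.neg' hi (Sq.of_mul_sq (s := x / D) (div_ne_zero hx hD0) ?_)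
    have e : -(a * D * -x) * (x / D) ^ 2 = a * x * (x ^ 2 / D) := by
      field_simp
    rw [e]
    exact h2.mul h4 h3
  · refine Or.inr (Or.inr (Or.inr ⟨-D / x, div_ne_zero (neg_ne_zero.2 hD0) hx, ?_, ?_⟩))
    · have e : -D / x * ((-D / x) ^ 2 - D) = x * (x ^ 2 - D) * (D / x ^ 2) ^ 2 := by
        field_simp
        ring
      rw [e]
      exact h1.mul h4 (Sq.pow_two (div_ne_zero hD0 (pow_ne_zero 2 hx)))
    · have e : a * D * (-D / x) = a * x * (i * D / x) ^ 2 := by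
        field_simp
        linear_combination (-a) * hi
      rw [e]
      exact h2.mul h4 (Sq.pow_two (div_ne_zero (mul_ne_zero (i_ne hi) hD0) hx))

/-- the class of an element which is a square modulo `4` -/
theorem C4.cases {i : L} (hi : i ^ 2 = -1) (h2 : ν 2 = exp (-2))
    (hres : ∀ x : L, ν x = 1 → ν (x - 1) < 1) {a : L} (h : C4 ν a) :
    ∃ b t : L, b ≠ 0 ∧ ν t ≤ 1 ∧ (a = b ^ 2 * (1 + 4 * ((1 + i) * t)) ∨
      a = b ^ 2 * (1 + 4 * (1 + (1 + i) * t))) := by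
  obtain ⟨b, hb, h1⟩ := h
  obtain ⟨y, hy⟩ : ∃ y : L, y = (a / b ^ 2 - 1) / 4 := ⟨_, rfl⟩
  have h40 : ν 4 ≠ 0 := (Valuation.ne_zero_iff _).2 (by norm_num)
  have hy1 : ν y ≤ 1 := by
    rw [hy, map_div₀]
    exact (div_le_one₀ (zero_lt_iff.2 h40)).2 h1
  have ha : a = b ^ 2 * (1 + 4 * y) := by
    rw [hy]
    field_simp
    ring
  obtain ⟨t, ht, h3 | h3⟩ := res_lam (nu_lam2 hi h2) hres hy1
  · exact ⟨b, t, hb, ht, Or.inl (by rw [ha, h3])⟩
  · exact ⟨b, t, hb, ht, Or.inr (by rw [ha, h3])⟩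

/-- `1 + 4 lam t` is a square -/
theorem Sq.four_lam {i : L} (hi : i ^ 2 = -1) (h2 : ν 2 = exp (-2)) {t : L} (ht : ν t ≤ 1) :
    Sq ν (1 + 4 * ((1 + i) * t)) := by
  refine Sq.one ?_
  have e : 1 + 4 * ((1 + i) * t) - 1 = 4 * ((1 + i) * t) := by ring
  rw [e, map_mul, map_mul, nu_lam2 hi h2]
  have h4 : ν (4 : L) = exp (-4) := nu_four4 h2
  rw [h4]
  refine lt_of_le_of_lt (mul_le_mul_right (mul_le_of_le_one_right zero_le ht) _) ?_
  rw [← exp_add, exp_lt_exp]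
  norm_num

/-- **The class `1 + 4`**: for every unit `D` the squares modulo `4` are in the image. -/
theorem c4_gloc4 {i D a : L} (hi : i ^ 2 = -1) (h2 : ν 2 = exp (-2))
    (hres : ∀ x : L, ν x = 1 → ν (x - 1) < 1) (hD : ν D = 1) (h : C4 ν a) : GLoc4 ν D a := by
  have hl := nu_lam2 hi h2
  have h4 : ν (4 : L) < 1 := nu_four4_le h2
  have hl0 : (1 + i : L) ≠ 0 := by
    rw [← ν.ne_zero_iff, hl]
    exact exp_ne_zero
  obtain ⟨b, t, hb, ht, h1 | h1⟩ := C4.cases hi h2 hres h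
  · left
    rw [h1, mul_comm]
    exact (Sq.four_lam hi h2 ht).mul h4.le (Sq.pow_two hb)
  · right; right; right
    -- `D = 1 + lam r`
    obtain ⟨r, hr, hDr⟩ := div_lam hl (hres D hD)
    have hi1 := (nu_i (ν := ν) hi).le
    have h5 : (1 + i) * (1 - i) = (2 : L) := by linear_combination -hi
    refine ⟨5 / (1 + i) ^ 2, div_ne_zero (by norm_num) (pow_ne_zero 2 hl0), ?_, ?_⟩
    · -- `5 (25 + 4 D) / lam ^ 6`
      have e4 : (1 + i) ^ 4 = (-4 : L) := by linear_combination (i ^ 2 + 4 * i + 5) * hi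
      have e : 5 / (1 + i) ^ 2 * ((5 / (1 + i) ^ 2) ^ 2 - D) =
          5 * (25 + 4 * D) * (1 / (1 + i) ^ 3) ^ 2 := by
        field_simp
        linear_combination (-D) * e4
      rw [e]
      refine Sq.mul h4.le ?_ (Sq.pow_two (div_ne_zero one_ne_zero (pow_ne_zero 3 hl0)))
      -- `5 (25 + 4 D) = 145 + 20 lam r = 1 + 4 lam (18 (1 - i) + 5 r)`
      have e2 : 5 * (25 + 4 * D) = 1 + 4 * ((1 + i) * (18 * (1 - i) + 5 * r)) := by
        linear_combination 20 * hDr + (-72) * h5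
      rw [e2]
      refine Sq.four_lam hi h2 (nu_add_le (nu_mul_le (nu_ofNat_le' _) (nu_sub_le' (map_one _).le hi1))
        (nu_mul_le (nu_ofNat_le' _) hr))
    · -- `a 5 / lam ^ 2`
      have e : a * (5 / (1 + i) ^ 2) =
          (1 + 4 * ((1 + i) * (3 * (1 - i) + 5 * t))) * (b / (1 + i)) ^ 2 := by
        rw [h1]
        field_simp
        linear_combination (-12) * h5
      rw [e]
      refine Sq.mul h4.le (Sq.four_lam hi h2 (nu_add_le (nu_mul_le (nu_ofNat_le' _)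
        (nu_sub_le' (map_one _).le hi1)) (nu_mul_le (nu_ofNat_le' _) ht)))
        (Sq.pow_two (div_ne_zero hb hl0))

end Pool.Agent.Lib.MP_1a91b9_ntQ.C
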