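import Pool.Agent.Lib.MP_1a91b9_ntS.C.GoodV
import Pool.Agent.Lib.MP_1a91b9_ntQ.C.LocDefs
import Mathlib.NumberTheory.JacobiSum.Basic

/-!
# MP_1a91b9_nt (quartic twists), converse of the descent: the good odd places

At a place where `2` and `D` are units every element with a value which is a square satisfies the local
condition. Over a finite field in which `-1` is a square there is `x` such that neither `x` nor `x² - 1`
is a square: `∑ (1 - χ x) (1 - χ (x² - 1)) = 1 + ∑ (1 + χ (x³ - x)) > 0`.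
-/

set_option autoImplicit false

namespace Pool.Agent.Lib.MP_1a91b9_ntQ.C

open WithZero NumberField IsDedekindDomain
open Pool.Agent.Lib.MP_1a91b9_ntH.C (Sq)
open Pool.Agent.Lib.MP_1a91b9_ntS.C (Rs exists_rs rs_surj rs_unique rs_zero_iff rs_sub rs_mul rs_pow
  rs_one sq_of_rs sq_mul rs_int rs_le rs_neg)
open scoped Classical

section fin

variable {F : Type*} [Field F] [Fintype F]

theorem sum_sq_sub_one (h2 : ringChar F ≠ 2) (h1 : IsSquare (-1 : F)) :
    ∑ x : F, quadraticChar F (x ^ 2 - 1) = -1 := by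
  have h20 : (2 : F) ≠ 0 := Ring.two_ne_zero h2
  have hq := quadraticChar_isQuadratic F
  have hne : quadraticChar F ≠ 1 := quadraticChar_ne_one h2
  have h3 := jacobiSum_nontrivial_inv hne
  rw [hq.inv, (quadraticChar_one_iff_isSquare (neg_ne_zero.2 one_ne_zero)).2 h1] at h3
  rw [jacobiSum] at h3
  rw [← h3]
  refine (Fintype.sum_equiv ((Equiv.mulLeft₀ (2 : F) h20).trans (Equiv.subRight 1)) _ _ ?_).symm
  intro x
  have e : ((Equiv.mulLeft₀ (2 : F) h20).trans (Equiv.subRight 1)) x = 2 * x - 1 := rfl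
  have e2 : (2 * x - 1) ^ 2 - 1 = (2 ^ 2 * (-1)) * (x * (1 - x)) := by ring
  rw [e, e2, map_mul, map_mul, map_mul, quadraticChar_sq_one' h20,
    (quadraticChar_one_iff_isSquare (neg_ne_zero.2 one_ne_zero)).2 h1, one_mul, one_mul]

/-- two elements which are not squares -/
theorem exists_nonsq (h2 : ringChar F ≠ 2) (h1 : IsSquare (-1 : F)) :
    ∃ x : F, ¬ IsSquare x ∧ ¬ IsSquare (x ^ 2 - 1) := by
  by_contra hcon
  push Not at hcon
  have hz : ∀ x : F, (1 - quadraticChar F x) * (1 - quadraticChar F (x ^ 2 - 1)) ≤ 0 := by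
    intro x
    by_cases hx : IsSquare x
    · by_cases hx0 : x = 0
      · subst hx0
        have e : (0 : F) ^ 2 - 1 = -1 := by ring
        rw [e, (quadraticChar_one_iff_isSquare (neg_ne_zero.2 one_ne_zero)).2 h1]
        norm_num
      · rw [(quadraticChar_one_iff_isSquare hx0).2 hx]
        norm_num
    · have h5 := hcon x hx
      by_cases h6 : x ^ 2 - 1 = 0
      · exfalso
        have h7 : (x - 1) * (x + 1) = 0 := by linear_combination h6
        rcases mul_eq_zero.1 h7 with h8 | h8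
        · exact hx ⟨1, by rw [mul_one]; exact sub_eq_zero.1 h8⟩
        · apply hx
          have h9 : x = -1 := by linear_combination h8
          rw [h9]
          exact h1
      · rw [(quadraticChar_one_iff_isSquare h6).2 h5]
        norm_num
  have hsum := Finset.sum_nonpos (s := Finset.univ) (fun x _ => hz x)
  have e : ∀ x : F, (1 - quadraticChar F x) * (1 - quadraticChar F (x ^ 2 - 1)) =
      (1 + quadraticChar F (x * (x ^ 2 - 1))) - quadraticChar F x -
        quadraticChar F (x ^ 2 - 1) := by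
    intro x
    rw [map_mul]
    ring
  rw [Finset.sum_congr rfl (fun x _ => e x), Finset.sum_sub_distrib, Finset.sum_sub_distrib,
    quadraticChar_sum_zero h2, sum_sq_sub_one h2 h1] at hsum
  have hpos : ∀ x : F, 0 ≤ 1 + quadraticChar F (x * (x ^ 2 - 1)) := by
    intro x
    rcases eq_or_ne (x * (x ^ 2 - 1)) 0 with h | h
    · rw [h, MulChar.map_zero]
      norm_num
    · rcases quadraticChar_dichotomy h with h | h <;> rw [h] <;> norm_num
  have hp := Finset.sum_nonneg (s := Finset.univ) (fun x _ => hpos x)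
  omega

theorem nonsq_mul (h2 : ringChar F ≠ 2) {a b : F} (ha : ¬ IsSquare a) (hb : ¬ IsSquare b) :
    IsSquare (a * b) := by
  have ha0 : a ≠ 0 := by
    rintro rfl
    exact ha ⟨0, by ring⟩
  have hb0 : b ≠ 0 := by
    rintro rfl
    exact hb ⟨0, by ring⟩
  rw [← quadraticChar_one_iff_isSquare (mul_ne_zero ha0 hb0), map_mul]
  rw [← quadraticChar_one_iff_isSquare ha0] at ha
  rw [← quadraticChar_one_iff_isSquare hb0] at hb
  rcases quadraticChar_dichotomy ha0 with h | h
  · exact absurd h ha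
  · rcases quadraticChar_dichotomy hb0 with h' | h'
    · exact absurd h' hb
    · rw [h, h']
      norm_num

/-- the statement over a finite field -/
theorem fin4 (h2 : ringChar F ≠ 2) (h1 : IsSquare (-1 : F)) {D a : F} (hD : D ≠ 0) :
    IsSquare a ∨ IsSquare (a * D) ∨ (∃ x : F, x ^ 2 = D ∧ IsSquare (a * x)) ∨
      ∃ x : F, x ≠ 0 ∧ x ^ 2 - D ≠ 0 ∧ IsSquare (x * (x ^ 2 - D)) ∧ IsSquare (a * x) := by
  by_cases ha : IsSquare a
  · exact Or.inl ha
  right
  by_cases hDs : IsSquare D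
  swap
  · exact Or.inl (nonsq_mul h2 ha hDs)
  right
  obtain ⟨d, hd⟩ := hDs
  have hd0 : d ≠ 0 := by
    rintro rfl
    rw [mul_zero] at hd
    exact hD hd
  by_cases hds : IsSquare d
  swap
  · exact Or.inl ⟨d, by rw [hd, pow_two], nonsq_mul h2 ha hds⟩
  right
  obtain ⟨e, he⟩ := hds
  have he0 : e ≠ 0 := by
    rintro rfl
    rw [mul_zero] at he
    exact hd0 he
  obtain ⟨x, hx, hx'⟩ := exists_nonsq h2 h1
  have hx0 : x ≠ 0 := by
    rintro rfl
    exact hx ⟨0, by ring⟩
  have hx1 : x ^ 2 - 1 ≠ 0 := by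
    intro h
    rw [h] at hx'
    exact hx' ⟨0, by ring⟩
  refine ⟨e * e * x, mul_ne_zero (mul_ne_zero he0 he0) hx0, ?_, ?_, ?_⟩
  · have e1 : (e * e * x) ^ 2 - D = D * (x ^ 2 - 1) := by
      rw [hd, he]
      ring
    rw [e1]
    exact mul_ne_zero hD hx1
  · obtain ⟨w, hw⟩ := nonsq_mul h2 hx hx'
    refine ⟨e * d * w, ?_⟩
    rw [hd, he] 
    linear_combination e ^ 6 * hw
  · obtain ⟨w, hw⟩ := nonsq_mul h2 ha hx
    exact ⟨e * w, by linear_combination e ^ 2 * hw⟩

end fin

section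

variable {N : Type*} [Field N] [NumberField N] (v : HeightOneSpectrum (𝓞 N))

/-- the local condition for units at the good odd places -/
theorem goodV4_unit {i : N} (hi : i ^ 2 = -1) (h2 : v.valuation N 2 = 1) {D a : N}
    (hD : v.valuation N D = 1) (ha : v.valuation N a = 1) : GLoc4 (v.valuation N) D a := by
  letI : Field (𝓞 N ⧸ v.asIdeal) := Ideal.Quotient.field v.asIdeal
  haveI : Finite (𝓞 N ⧸ v.asIdeal) := Ideal.finiteQuotientOfFreeOfNeBot _ v.ne_bot
  letI : Fintype (𝓞 N ⧸ v.asIdeal) := Fintype.ofFinite _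
  have h4 : v.valuation N 4 = 1 := by
    have e : (4 : N) = 2 * 2 := by norm_num
    rw [e, map_mul, h2, one_mul]
  have h16 : v.valuation N 16 = 1 := by
    have e : (16 : N) = 4 * 4 := by norm_num
    rw [e, map_mul, h4, one_mul]
  have hvi : v.valuation N i = 1 := by
    have h5 := congrArg (v.valuation N) hi
    rw [map_pow, Valuation.map_neg, map_one] at h5
    exact (pow_eq_one_iff_of_nonneg zero_le two_ne_zero).1 h5
  have hr2 : (2 : 𝓞 N ⧸ v.asIdeal) ≠ 0 := by
    have h5 : Rs v (2 : N) (2 : 𝓞 N ⧸ v.asIdeal) := by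
      have := rs_int v (2 : 𝓞 N)
      rwa [map_ofNat, map_ofNat] at this
    exact (rs_zero_iff v h5).1 h2
  have hrc : ringChar (𝓞 N ⧸ v.asIdeal) ≠ 2 := by
    intro h
    apply hr2
    have := ringChar.Nat.cast_ringChar (R := 𝓞 N ⧸ v.asIdeal)
    rw [h] at this
    exact_mod_cast this
  obtain ⟨ri, hri⟩ := exists_rs v hvi.le
  obtain ⟨rD, hrD⟩ := exists_rs v hD.le
  obtain ⟨ra, hra⟩ := exists_rs v ha.le
  have hrD0 := (rs_zero_iff v hrD).1 hD
  have hra0 := (rs_zero_iff v hra).1 ha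
  have h1 : IsSquare (-1 : 𝓞 N ⧸ v.asIdeal) := by
    refine ⟨ri, ?_⟩
    have h5 := rs_pow v hri 2
    rw [hi] at h5
    have h6 := rs_neg v (rs_one v)
    rw [rs_unique v h6 h5, pow_two]
  have hD0 : D ≠ 0 := by
    rintro rfl
    rw [map_zero] at hD
    exact zero_ne_one hD
  rcases fin4 hrc h1 (a := ra) hrD0 with h | h | ⟨x, hx, h⟩ | ⟨x, hx0, hxD, hxs, h⟩
  · exact Or.inl (sq_of_rs v h4 hra hra0 h)
  · exact Or.inr (Or.inl (sq_of_rs v h4 (rs_mul v hra hrD) (mul_ne_zero hra0 hrD0) h))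
  · obtain ⟨X, hX⟩ := rs_surj v x
    have hx0 : x ≠ 0 := by
      rintro rfl
      rw [zero_pow two_ne_zero] at hx
      exact hrD0 hx.symm
    have hX1 : v.valuation N X = 1 := (rs_zero_iff v hX).2 hx0
    have hX0 : X ≠ 0 := by
      rintro rfl
      rw [map_zero] at hX1
      exact zero_ne_one hX1
    refine Or.inr (Or.inr (Or.inl ⟨X, hX0, ?_, sq_of_rs v h4 (rs_mul v hra hX)
      (mul_ne_zero hra0 hx0) h⟩))
    have h5 := rs_sub v (rs_pow v hX 2) hrD
    have h6 : ¬ v.valuation N (X ^ 2 - D) = 1 := by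
      rw [rs_zero_iff v h5, hx, sub_self]
      exact fun h => h rfl
    have h7 : v.valuation N (X ^ 2 - D) < 1 := lt_of_le_of_ne (rs_le v h5) h6
    have e : X ^ 2 / D - 1 = (X ^ 2 - D) / D := by
      rw [sub_div, div_self hD0]
    rw [e, map_div₀, hD, div_one, h16]
    exact h7
  · obtain ⟨X, hX⟩ := rs_surj v x
    have hX1 : v.valuation N X = 1 := (rs_zero_iff v hX).2 hx0
    have hX0 : X ≠ 0 := by
      rintro rfl
      rw [map_zero] at hX1
      exact zero_ne_one hX1
    refine Or.inr (Or.inr (Or.inr ⟨X, hX0, ?_, sq_of_rs v h4 (rs_mul v hra hX)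
      (mul_ne_zero hra0 hx0) h⟩))
    exact sq_of_rs v h4 (rs_mul v hX (rs_sub v (rs_pow v hX 2) hrD)) (mul_ne_zero hx0 hxD) hxs

end

section

variable {L : Type*} [Field L] [CharZero L] {ν : Valuation L ℤᵐ⁰}

theorem Sq_mul_sq {u b : L} (hb : b ≠ 0) (h : Sq ν u) : Sq ν (u * b ^ 2) := by
  obtain ⟨c, hc, h⟩ := h
  refine ⟨c * b, mul_ne_zero hc hb, ?_⟩
  have e : u * b ^ 2 / (c * b) ^ 2 - 1 = u / c ^ 2 - 1 := by
    field_simp
  rwa [e]

/-- the local condition depends on the class modulo squares only -/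
theorem GLoc4.mul_sq {D a b : L} (hb : b ≠ 0) (h : GLoc4 ν D a) : GLoc4 ν D (a * b ^ 2) := by
  rcases h with h | h | ⟨x, hx0, hx, h⟩ | ⟨x, hx0, hx, h⟩
  · exact Or.inl (Sq_mul_sq hb h)
  · refine Or.inr (Or.inl ?_)
    have e : a * b ^ 2 * D = a * D * b ^ 2 := by ring
    rw [e]
    exact Sq_mul_sq hb h
  · refine Or.inr (Or.inr (Or.inl ⟨x, hx0, hx, ?_⟩))
    have e : a * b ^ 2 * x = a * x * b ^ 2 := by ring
    rw [e]
    exact Sq_mul_sq hb h
  · refine Or.inr (Or.inr (Or.inr ⟨x, hx0, hx, ?_⟩))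
    have e : a * b ^ 2 * x = a * x * b ^ 2 := by ring
    rw [e]
    exact Sq_mul_sq hb h

theorem GLoc4.of_mul_sq {D a b : L} (hb : b ≠ 0) (h : GLoc4 ν D (a * b ^ 2)) : GLoc4 ν D a := by
  have h1 := h.mul_sq (inv_ne_zero hb)
  have e : a * b ^ 2 * b⁻¹ ^ 2 = a := by
    field_simp
  rwa [e] at h1

end

/-- **The local condition at the good odd places.** -/
theorem goodV4 {N : Type*} [Field N] [NumberField N] (v : HeightOneSpectrum (𝓞 N)) {i : N}
    (hi : i ^ 2 = -1) (h2 : v.valuation N 2 = 1) {D a : N} (hD : v.valuation N D = 1)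
    (ha0 : a ≠ 0) (ha : IsSquare (v.valuation N a)) : GLoc4 (v.valuation N) D a := by
  obtain ⟨g, hg⟩ := ha
  obtain ⟨b, hb⟩ := v.valuation_surjective N g
  have hb0 : b ≠ 0 := by
    rintro rfl
    rw [map_zero] at hb
    rw [← hb, mul_zero] at hg
    exact ha0 ((Valuation.zero_iff _).1 hg)
  refine GLoc4.of_mul_sq (b := b⁻¹) (inv_ne_zero hb0) (goodV4_unit v hi h2 hD ?_)
  rw [map_mul, map_pow, map_inv₀, hb, hg]
  have hg0 : g ≠ 0 := by
    rw [← hb]
    exact (Valuation.ne_zero_iff _).2 hb0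
  field_simp

end Pool.Agent.Lib.MP_1a91b9_ntQ.C
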