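import Pool.Agent.Lib.MP_1a91b9_ntQ.C.LocX4
import Pool.Agent.Lib.MP_1a91b9_ntQ.C.GoodC4

/-!
# MP_1a91b9_nt (quartic twists), converse of the descent: the local conditions at `lam`

The converses of `loc4_lam` (`D` a unit: `a` or `a D` a square modulo `4`) and of `loc4_one` (`D` of value
`exp (-1)`: `a D ^ t (1 + D) ^ s` a square). The points: `x = 5 / lam ^ 2` and `x = 1 + D`.
-/

set_option autoImplicit false
set_option linter.unusedSectionVars false
set_option linter.unusedVariables false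

namespace Pool.Agent.Lib.MP_1a91b9_ntQ.C

open WithZero
open Pool.Agent.Lib.MP_1a91b9_ntH.C (Sq exists_nu isSquare_exp nu_one)

variable {L : Type*} [Field L] [CharZero L] {ν : Valuation L ℤᵐ⁰}

theorem Sq.one_near {u : L} (h : ν (u - 1) < ν 4) : Sq ν u :=
  ⟨1, one_ne_zero, by rwa [one_pow, div_one]⟩

/-- **the translation by `(0, 0)`** -/
theorem GLoc4.flip {i D a : L} (hi : i ^ 2 = -1) (h4 : ν 4 ≤ 1) (hD0 : D ≠ 0)
    (h : GLoc4 ν D a) : GLoc4 ν D (a * D) := by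
  have key : ∀ x : L, x ≠ 0 → Sq ν (a * x) → Sq ν (a * D * (-D / x)) := by
    intro x hx0 h
    have e : a * D * (-D / x) = -(a * x) * (D / x) ^ 2 := by
      field_simp
    rw [e]
    refine Sq_mul_sq (div_ne_zero hD0 hx0) (Sq.neg' hi ?_)
    rwa [neg_neg]
  rcases h with h | h | ⟨x, hx0, hx, h⟩ | ⟨x, hx0, hx, h⟩
  · refine Or.inr (Or.inl ?_)
    have e : a * D * D = a * D ^ 2 := by ring
    rw [e]
    exact Sq_mul_sq hD0 h
  · exact Or.inl h
  · have hx0' : -D / x ≠ 0 := div_ne_zero (neg_ne_zero.2 hD0) hx0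
    refine Or.inr (Or.inr (Or.inl ⟨-D / x, hx0', ?_, key x hx0 h⟩))
    have hn16 : ν 16 ≤ 1 := by
      have e : (16 : L) = 4 * 4 := by norm_num
      rw [e, map_mul]
      exact mul_le_one' h4 h4
    have h1 : ν (x ^ 2 / D) = 1 := by
      have := ν.map_one_add_of_lt (x := x ^ 2 / D - 1) (hx.trans_le hn16)
      rwa [add_sub_cancel] at this
    have e : (-D / x) ^ 2 / D - 1 = -((x ^ 2 / D - 1) / (x ^ 2 / D)) := by
      field_simp
      ring
    rw [e, Valuation.map_neg, map_div₀, h1, div_one]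
    exact hx
  · have hx0' : -D / x ≠ 0 := div_ne_zero (neg_ne_zero.2 hD0) hx0
    refine Or.inr (Or.inr (Or.inr ⟨-D / x, hx0', ?_, key x hx0 h⟩))
    have e : -D / x * ((-D / x) ^ 2 - D) * (x ^ 2 / D) ^ 2 = x * (x ^ 2 - D) := by
      field_simp
      ring
    refine Sq.of_mul_sq (div_ne_zero (pow_ne_zero 2 hx0) hD0) ?_
    rwa [e]

theorem GLoc4.of_flip {i D a : L} (hi : i ^ 2 = -1) (h4 : ν 4 ≤ 1) (hD0 : D ≠ 0)
    (h : GLoc4 ν D (a * D)) : GLoc4 ν D a := by
  have h1 := h.flip hi h4 hD0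
  have e : a * D * D = a * D ^ 2 := by ring
  rw [e] at h1
  exact GLoc4.of_mul_sq hD0 h1

section

variable {i : L} (hi : i ^ 2 = -1) (h2 : ν 2 = exp (-2)) (hres : ∀ x : L, ν x = 1 → ν (x - 1) < 1)

include hi h2 hres

/-- a square modulo `4`: a square, or `5` times a square -/
theorem C4_or {a : L} (h : C4 ν a) : Sq ν a ∨ Sq ν (a * 5) := by
  obtain ⟨b, hb, h⟩ := h
  rcases h.lt_or_eq with h | h
  · exact Or.inl ⟨b, hb, h⟩
  right
  have h4 := nu_four4 h2
  have h40 : (4 : L) ≠ 0 := by norm_num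
  obtain ⟨y, hy⟩ : ∃ y : L, y = (a / b ^ 2 - 1) / 4 := ⟨_, rfl⟩
  have hy1 : ν y = 1 := by
    rw [hy, map_div₀, h]
    exact div_self ((Valuation.ne_zero_iff _).2 h40)
  have e : a / b ^ 2 = 1 + 4 * y := by
    rw [hy]
    field_simp
    ring
  refine ⟨b, hb, ?_⟩
  have e2 : a * 5 / b ^ 2 - 1 = 4 * (5 * (y - 1) + 6) := by
    have e3 : a * 5 / b ^ 2 = a / b ^ 2 * 5 := by ring
    rw [e3, e]
    ring
  have h20 : ν (2 : L) < 1 := by
    rw [h2, ← exp_zero, exp_lt_exp]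
    norm_num
  have h6 : ν (5 * (y - 1) + 6) < 1 := by
    refine (ν.map_add _ _).trans_lt (max_lt ?_ ?_)
    · rw [map_mul, mul_comm]
      exact mul_lt_one_of_lt_of_le (hres _ hy1) (nu_ofNat_le' 5)
    · have e4 : (6 : L) = 2 * 3 := by norm_num
      rw [e4, map_mul]
      exact mul_lt_one_of_lt_of_le h20 (nu_ofNat_le' 3)
  rw [e2, map_mul]
  calc ν 4 * ν (5 * (y - 1) + 6) < ν 4 * 1 := by
        refine mul_lt_mul_of_pos_left h6 (zero_lt_iff.2 ?_)
        rw [Valuation.ne_zero_iff]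
        exact h40
    _ = ν 4 := mul_one _

/-- the point with abscissa `5 / lam ^ 2` -/
theorem pt_five {D : L} (hD : ν D = 1) : Sq ν (5 / (1 + i) ^ 2 * ((5 / (1 + i) ^ 2) ^ 2 - D)) := by
  have hl := nu_lam2 hi h2
  have hl0 : (1 + i) ≠ 0 := by
    rw [← ν.ne_zero_iff, hl]
    exact exp_ne_zero
  have hl4 : (1 + i) ^ 4 = -4 := by linear_combination (i ^ 2 + 4 * i + 5) * hi
  have h50 : (5 : L) ≠ 0 := by norm_num
  have h40 : (4 : L) ≠ 0 := by norm_num
  have h20 : ν (2 : L) < 1 := by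
    rw [h2, ← exp_zero, exp_lt_exp]
    norm_num
  have h5 : ν (5 : L) = 1 := by
    have e : (5 : L) = 1 + 2 * 2 := by norm_num
    rw [e]
    refine ν.map_one_add_of_lt ?_
    rw [map_mul]
    exact mul_lt_one_of_lt_of_le h20 h20.le
  refine ⟨5 / (1 + i) ^ 3, div_ne_zero h50 (pow_ne_zero 3 hl0), ?_⟩
  have e : 5 / (1 + i) ^ 2 * ((5 / (1 + i) ^ 2) ^ 2 - D) / (5 / (1 + i) ^ 3) ^ 2 - 1 =
      4 * (1 + D / 5) := by
    have e1 : 5 / (1 + i) ^ 2 * ((5 / (1 + i) ^ 2) ^ 2 - D) / (5 / (1 + i) ^ 3) ^ 2 =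
        5 - D * (1 + i) ^ 4 / 5 := by
      field_simp
    rw [e1, hl4]
    ring
  have hd : ν (1 + D / 5) < 1 := by
    have e1 : 1 + D / 5 = (D / 5 - 1) + 2 := by ring
    rw [e1]
    refine (ν.map_add _ _).trans_lt (max_lt (hres _ ?_) h20)
    rw [map_div₀, hD, h5, div_one]
  rw [e, map_mul]
  calc ν 4 * ν (1 + D / 5) < ν 4 * 1 := by
        refine mul_lt_mul_of_pos_left hd (zero_lt_iff.2 ?_)
        rw [Valuation.ne_zero_iff]
        exact h40
    _ = ν 4 := mul_one _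

/-- `D` a unit: the squares modulo `4` -/
theorem conv_C4 {D a : L} (hD : ν D = 1) (h : C4 ν a) : GLoc4 ν D a := by
  rcases C4_or hi h2 hres h with h | h
  · exact Or.inl h
  · have hl := nu_lam2 hi h2
    have hl0 : (1 + i) ≠ 0 := by
      rw [← ν.ne_zero_iff, hl]
      exact exp_ne_zero
    have h50 : (5 : L) ≠ 0 := by norm_num
    refine Or.inr (Or.inr (Or.inr ⟨5 / (1 + i) ^ 2, div_ne_zero h50 (pow_ne_zero 2 hl0),
      pt_five hi h2 hres hD, ?_⟩))
    have e : a * (5 / (1 + i) ^ 2) = a * 5 * ((1 + i)⁻¹) ^ 2 := by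
      field_simp
    rw [e]
    exact Sq_mul_sq (inv_ne_zero hl0) h

/-- **the converse of `loc4_lam`**, `D` a unit -/
theorem conv_lam {D a : L} (hD : ν D = 1) (h : C4 ν a ∨ C4 ν (a * D)) : GLoc4 ν D a := by
  rcases h with h | h
  · exact conv_C4 hi h2 hres hD h
  · have hD0 : D ≠ 0 := by
      rintro rfl
      rw [map_zero] at hD
      exact zero_ne_one hD
    exact (conv_C4 hi h2 hres hD h).of_flip hi (nu_four4_le h2).le hD0

/-- **the converse of `loc4_one`**, `D` of value `exp (-1)` -/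
theorem conv_one {D a : L} (hD : ν D = exp (-1)) {t s : ℕ} (ht : t < 2) (hs : s < 2)
    (h : Sq ν (a * D ^ t * (1 + D) ^ s)) : GLoc4 ν D a := by
  have h4 := nu_four4_le h2
  have hD0 : D ≠ 0 := by
    rintro rfl
    rw [map_zero] at hD
    exact exp_ne_zero hD.symm
  have hD1 : ν D < 1 := by
    rw [hD, ← exp_zero, exp_lt_exp]
    norm_num
  have hD2 : ν (1 + D) = 1 := ν.map_one_add_of_lt hD1
  have hD20 : 1 + D ≠ 0 := by
    rw [← ν.ne_zero_iff, hD2]
    exact one_ne_zero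
  -- the point `1 + D`
  have hpt : Sq ν ((1 + D) * ((1 + D) ^ 2 - D)) := by
    refine Sq.one_near ?_
    have e : (1 + D) * ((1 + D) ^ 2 - D) - 1 = D * (D ^ 2 + 2 * D + 2) := by ring
    have hl := nu_lam2 hi h2
    have hl0 : (1 + i) ≠ 0 := by
      rw [← ν.ne_zero_iff, hl]
      exact exp_ne_zero
    obtain ⟨ε, hε1, hε⟩ := div_lam hl hD1
    have hε2 : ν ε = 1 := by
      have h5 := congrArg ν hε
      rw [hD, map_mul, hl] at h5
      have h6 : exp (-1 : ℤ) * 1 = exp (-1) * ν ε := by rw [mul_one]; exact h5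
      exact (mul_left_cancel₀ exp_ne_zero h6).symm
    obtain ⟨η, hη1, hη⟩ := div_lam hl (hres _ hε2)
    have hi1 := (nu_i (ν := ν) hi).le
    -- `D ^ 2 + 2 D + 2 = lam ^ 4 (...)`
    have hDη : D = (1 + i) * (1 + (1 + i) * η) := by
      rw [hε]
      linear_combination (1 + i) * hη
    have e2 : D ^ 2 + 2 * D + 2 = (1 + i) ^ 4 * (η ^ 2 - 2 * i * η + η - i - 1) := by
      rw [hDη]
      linear_combination (2 * i ^ 3 * η + 7 * i ^ 2 * η + i ^ 3 + 8 * i * η + 5 * i ^ 2 + 9 * i + 3 * η + 6) * hi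
    have hg : ν (η ^ 2 - 2 * i * η + η - i - 1) ≤ 1 := by
      (repeat' first
      | assumption | exact (map_one _).le | exact nu_ofNat_le' _ | apply nu_add_le
      | apply nu_sub_le' | apply nu_neg_le' | apply nu_mul_le | apply nu_pow_le')
    rw [e, e2, map_mul, map_mul, hD, nu_lpow hl, nu_four4 h2]
    calc exp (-1) * (exp (-((4 : ℕ) : ℤ)) * ν (η ^ 2 - 2 * i * η + η - i - 1))
        ≤ exp (-1) * (exp (-((4 : ℕ) : ℤ)) * 1) := by gcongr
      _ < exp (-4) := by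
        rw [mul_one, ← exp_add, exp_lt_exp]
        norm_num
  have hb : ∀ a : L, Sq ν (a * (1 + D) ^ s) → GLoc4 ν D a := by
    intro a h
    rcases (show s = 0 ∨ s = 1 by omega) with h5 | h5
    · rw [h5, pow_zero, mul_one] at h
      exact Or.inl h
    · rw [h5, pow_one] at h
      exact Or.inr (Or.inr (Or.inr ⟨1 + D, hD20, hpt, h⟩))
  rcases (show t = 0 ∨ t = 1 by omega) with h5 | h5
  · rw [h5, pow_zero, mul_one] at h
    exact hb a h
  · rw [h5, pow_one] at h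
    exact (hb _ h).of_flip hi h4.le hD0

/-- `conv_one` with exponents in `ZMod 2` -/
theorem gloc4_one {D a : L} (hD : ν D = exp (-1)) (t s : ZMod 2)
    (h : Sq ν (a * D ^ t.val * (1 + D) ^ s.val)) : GLoc4 ν D a :=
  conv_one hi h2 hres hD (ZMod.val_lt t) (ZMod.val_lt s) h

end

/-- **The local condition at the good odd places.** -/
theorem gloc4_good {N : Type*} [Field N] [NumberField N]
    (v : IsDedekindDomain.HeightOneSpectrum (NumberField.RingOfIntegers N)) {D a : N} (z : N)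
    (hz : z ^ 2 = -1) (h4 : v.valuation N 4 = 1) (hD : v.valuation N D = 1)
    (ha : IsSquare (v.valuation N a)) (ha0 : a ≠ 0) : GLoc4 (v.valuation N) D a := by
  refine goodV4 v hz ?_ hD ha0 ha
  have e : (4 : N) = 2 ^ 2 := by norm_num
  rw [e, map_pow] at h4
  exact (pow_eq_one_iff_of_nonneg zero_le two_ne_zero).1 h4

end Pool.Agent.Lib.MP_1a91b9_ntQ.C
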