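import Pool.Agent.Lib.MP_1a91b9_ntK.A.Forest
import Pool.Agent.Lib.MP_1a91b9_ntQ.C.Sel4
import Pool.Agent.Lib.MP_1a91b9_ntQ.C.Tors4K

/-!
# MP_1a91b9_nt (quartic twists), part C: the points, from the matrices

`D = i ^ k * ∏ q`, `k` odd: `det N_1(S) ≠ 0`; `k` even: `∑ a_q = 1` and the kernel of `N_0(S)` is
`{0, 1}`.
-/

set_option autoImplicit false

namespace Pool.Agent.Lib.MP_1a91b9_ntQ.C

open NumberField Finset WeierstrassCurve Pool.Agent.Lib.MP_1a91b9_nuT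
open Pool.Agent.Lib.MP_1a91b9_ntQ
open Pool.Agent.Lib.MP_1a91b9_ntK (NM)
open Pool.Agent.Lib.MP_1a91b9_ntT3.S9 (ShaP)

noncomputable section

theorem sum_erase_coe4 {ι M : Type*} [DecidableEq ι] [AddCommMonoid M] {S : Finset ι} (q : S)
    (f : ι → M) : ∑ p ∈ univ.erase q, f p = ∑ p ∈ S.erase q, f p := by
  have h5 : ((univ : Finset S).erase q).map (Function.Embedding.subtype _) = S.erase q := by
    ext p
    simp only [mem_map, mem_erase, mem_univ, and_true, Function.Embedding.coe_subtype]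
    constructor
    · rintro ⟨x, hx, rfl⟩
      exact ⟨fun h => hx (Subtype.ext h), x.2⟩
    · rintro ⟨h1, h2⟩
      exact ⟨⟨p, h2⟩, fun h => h1 (congrArg Subtype.val h), rfl⟩
  rw [← h5, sum_map]
  rfl

theorem two4 : (2 : ZMod 2) = 0 := rfl

/-- a row of the matrix -/
theorem NM_row4 {S : Finset Pg} {c : ZMod 2} {κ : Pg → ZMod 2} (hκ : ∀ q ∈ S, κ q = c * aa q.1)
    (f : Pg → ZMod 2) (q : S) :
    (NM s4 κ S).mulVec (fun p => f p) q = rowN c S f q := by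
  rw [Matrix.mulVec, dotProduct, ← add_sum_erase univ _ (mem_univ q)]
  have h3 : ∑ p ∈ univ.erase q, NM s4 κ S q p * f p = ∑ p ∈ S.erase (q : Pg), f p * s4 q p := by
    rw [← sum_erase_coe4 q fun p => f p * s4 q p]
    refine sum_congr rfl fun p hp => ?_
    have hpq : p ≠ q := (mem_erase.1 hp).1
    unfold NM
    rw [if_neg (Ne.symm hpq)]
    linear_combination (-(s4 q p * f p)) * two4
  rw [h3]
  unfold NM rowN
  rw [if_pos rfl, hκ q q.2]
  have h4 : ∑ p ∈ S.erase (q : Pg), (f p + f q) * s4 q p =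
      ∑ p ∈ S.erase (q : Pg), f p * s4 q p + f q * ∑ p ∈ S.erase (q : Pg), s4 q p := by
    rw [mul_sum, ← sum_add_distrib]
    exact sum_congr rfl fun p _ => by ring
  rw [h4]
  ring

theorem ker_of_det4 {S : Finset Pg} {c : ZMod 2} {κ : Pg → ZMod 2}
    (hκ : ∀ q ∈ S, κ q = c * aa q.1) (h : (NM s4 κ S).det ≠ 0) (f : Pg → ZMod 2)
    (hf : ∀ q ∈ S, rowN c S f q = 0) : ∀ q ∈ S, f q = 0 := by
  have h1 := Matrix.eq_zero_of_mulVec_eq_zero h (v := fun p : S => f p) (by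
    ext q
    rw [NM_row4 hκ, hf q q.2, Pi.zero_apply])
  exact fun q hq => congrFun h1 ⟨q, hq⟩

theorem ker_of_ker4 {S : Finset Pg} {κ : Pg → ZMod 2} (hκ : ∀ q ∈ S, κ q = 0)
    (h : ∀ v : S → ZMod 2, (NM s4 κ S).mulVec v = 0 → ∃ t : ZMod 2, ∀ q, v q = t)
    (f : Pg → ZMod 2) (hf : ∀ q ∈ S, rowN 0 S f q = 0) :
    (∀ q ∈ S, f q = 0) ∨ ∀ q ∈ S, f q = 1 := by
  obtain ⟨t, ht⟩ := h (fun p : S => f p) (by
    ext q
    rw [NM_row4 (c := 0) (fun q hq => by rw [hκ q hq, zero_mul]), hf q q.2, Pi.zero_apply])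
  have h2 : ∀ t : ZMod 2, t = 0 ∨ t = 1 := by decide
  rcases h2 t with rfl | rfl
  · exact Or.inl fun q hq => ht ⟨q, hq⟩
  · exact Or.inr fun q hq => ht ⟨q, hq⟩

theorem dk_squarefree (k : ZMod 4) (S : Finset Pg) : Squarefree (dk k 0 S) := by
  have h1 : dk k 0 S = iO ^ k.val * DDq S := by
    unfold dk
    rw [ZMod.val_zero, pow_zero, mul_one]
  rw [h1]
  intro c hc
  refine DDq_squarefree S c ?_
  exact (isUnit_iO.pow k.val).dvd_mul_left.1 hc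

theorem dk_ne_five (k : ZMod 4) (S : Finset Pg) (hk : k ≠ 2) :
    dk k 0 S ≠ 1 + 2 * iO ∧ dk k 0 S ≠ 1 - 2 * iO := by
  have h1 : dk k 0 S = iO ^ k.val * DDq S := by
    unfold dk
    rw [ZMod.val_zero, pow_zero, mul_one]
  have h2 : iO ^ (2 : ZMod 4).val = -1 := by
    have : (2 : ZMod 4).val = 2 := rfl
    rw [this, iO_sq]
  rw [h1]
  constructor
  · intro h
    refine hk (in4_unique (k := 2) (y := -1 - 2 * iO) (DDq_in4 S) ?_ ?_).1
    · have e : -1 - 2 * iO = ((-1 : ℤ) : 𝓞 K4) + ((-2 : ℤ) : 𝓞 K4) * iO := by push_cast; ring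
      rw [e, In4_iff, cp_coords]
      norm_num
    · rw [h2, h]
      ring
  · intro h
    refine hk (in4_unique (k := 2) (y := -1 + 2 * iO) (DDq_in4 S) ?_ ?_).1
    · have e : -1 + 2 * iO = ((-1 : ℤ) : 𝓞 K4) + ((2 : ℤ) : 𝓞 K4) * iO := by push_cast; ring
      rw [e, In4_iff, cp_coords]
      norm_num
    · rw [h2, h]
      ring

/-- **class I**, `k` odd -/
theorem pts4_I (k : ZMod 4) (S : Finset Pg) (hk : md k = 1) {κ : Pg → ZMod 2}
    (hκ : ∀ q ∈ S, κ q = aa q.1) (h : (NM s4 κ S).det ≠ 0) {W : WeierstrassCurve K4}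
    (hW : W = cq (dk k 0 S : K4)) :
    Finite W.toAffine.Point ∧ Nat.card W.toAffine.Point = 2 ∧ Nat.card (ShaP 2 W) = 1 ∧
      ∀ x y : K4, y ^ 2 = x ^ 3 - (dk k 0 S : K4) * x → x = 0 ∧ y = 0 := by
  have hk2 : k ≠ 2 := by
    rintro rfl
    exact absurd hk (by decide)
  obtain ⟨h1, h2⟩ := dk_ne_five k S hk2
  exact main4_K (dk_squarefree k S) (sel4_I k S hk fun f hf => ker_of_det4 (c := 1)
    (fun q hq => by rw [hκ q hq, one_mul]) h f hf) h1 h2 hW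

/-- **class II**, `k` even, `∑ a_q = 1`; the two exceptions -/
theorem pts4_II (k : ZMod 4) (S : Finset Pg) (hk : md k = 0) (hS : ∑ q ∈ S, aa q.1 = 1)
    {κ : Pg → ZMod 2} (hκ : ∀ q ∈ S, κ q = 0)
    (h : ∀ v : S → ZMod 2, (NM s4 κ S).mulVec v = 0 → ∃ t : ZMod 2, ∀ q, v q = t)
    (h1 : dk k 0 S ≠ 1 + 2 * iO) (h2 : dk k 0 S ≠ 1 - 2 * iO) {W : WeierstrassCurve K4}
    (hW : W = cq (dk k 0 S : K4)) :
    Finite W.toAffine.Point ∧ Nat.card W.toAffine.Point = 2 ∧ Nat.card (ShaP 2 W) = 1 ∧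
      ∀ x y : K4, y ^ 2 = x ^ 3 - (dk k 0 S : K4) * x → x = 0 ∧ y = 0 :=
  main4_K (dk_squarefree k S) (sel4_II k S hk hS fun f hf => ker_of_ker4 hκ h f hf) h1 h2 hW

end

end Pool.Agent.Lib.MP_1a91b9_ntQ.C
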