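import Pool.Agent.Lib.MP_1a91b9_ntQ.A.AlgX
import Pool.Agent.Lib.MP_1a91b9_ntQ.C.SelX3
import Pool.Agent.Lib.MP_1a91b9_ntQ.C.Pts4

/-!
# MP_1a91b9_nt (quartic twists), part C: the points, `lam ∣ D` and `D = ± 1` modulo `4`

The hypotheses are in the form of the L side: `BE` (file A/AlgE), `B4` and `N4` (A/For4, A/AlgX).
-/

set_option autoImplicit false
set_option linter.unusedSectionVars false
set_option linter.unusedVariables false

namespace Pool.Agent.Lib.MP_1a91b9_ntQ.C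

open NumberField Finset WeierstrassCurve Pool.Agent.Lib.MP_1a91b9_nuT
open Pool.Agent.Lib.MP_1a91b9_ntQ
open Pool.Agent.Lib.MP_1a91b9_ntK (NM)
open Pool.Agent.Lib.MP_1a91b9_ntT3.S9 (ShaP)

noncomputable section

/-- a row of `N4` -/
theorem N4_row {S : Finset Pg} {c : ZMod 2} {κ l : Pg → ZMod 2}
    (hκ : ∀ q ∈ S, κ q = c * aa q.1 + l q) (f : Pg → ZMod 2) (q : S) :
    (N4 s4 κ S).mulVec (fun p => f p) q = rowN c S f q + f q * l q := by
  have h1 : (N4 s4 κ S).mulVec (fun p : S => f p) q =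
      (NM s4 (fun q => c * aa q.1) S).mulVec (fun p : S => f p) q + f q * l q := by
    rw [N4_eq, Matrix.mulVec, Matrix.mulVec, dotProduct, dotProduct,
      ← add_sum_erase univ _ (mem_univ q), ← add_sum_erase univ (fun i => NM s4 (fun q => c * aa q.1)
        S q i * f i) (mem_univ q)]
    have h2 : ∑ p ∈ univ.erase q, NM s4 κ S q p * f p =
        ∑ p ∈ univ.erase q, NM s4 (fun q => c * aa q.1) S q p * f p := by
      refine sum_congr rfl fun p hp => ?_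
      have hpq : p ≠ q := (mem_erase.1 hp).1
      unfold NM
      rw [if_neg (Ne.symm hpq), if_neg (Ne.symm hpq)]
    rw [h2]
    unfold NM
    rw [if_pos rfl, if_pos rfl, hκ q q.2]
    ring
  rw [h1, NM_row4 (c := c) (fun q _ => rfl)]

/-- a row of `B4` -/
theorem B4_row {S : Finset Pg} {c x s : ZMod 2} {κ l a : Pg → ZMod 2}
    (hκ : ∀ q ∈ S, κ q = c * aa q.1 + l q) (f : Pg → ZMod 2) (q : S) :
    (B4 s4 κ a x S).mulVec (Sum.elim (fun p => f p) fun _ => s) (Sum.inl q) =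
      rowN c S f q + f q * l q + s * a q := by
  have h1 := N4_row hκ f q
  rw [← h1]
  simp only [Matrix.mulVec, dotProduct, B4, Fintype.sum_sum_type, Matrix.fromBlocks_apply₁₁,
    Matrix.fromBlocks_apply₁₂, Sum.elim_inl, Sum.elim_inr, Finset.univ_unique, sum_singleton]
  ring

/-- the last row of `B4` -/
theorem B4_last {S : Finset Pg} {x s : ZMod 2} {κ a : Pg → ZMod 2} (f : Pg → ZMod 2) :
    (B4 s4 κ a x S).mulVec (Sum.elim (fun p => f p) fun _ => s) (Sum.inr ()) =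
      ∑ q ∈ S, f q * a q + s * x := by
  simp only [Matrix.mulVec, dotProduct, B4, Fintype.sum_sum_type, Matrix.fromBlocks_apply₂₁,
    Matrix.fromBlocks_apply₂₂, Sum.elim_inl, Sum.elim_inr, Finset.univ_unique, sum_singleton]
  rw [sum_coe_sort S fun q => a q * f q, mul_comm x s]
  congr 1
  exact sum_congr rfl fun q _ => mul_comm _ _

theorem Bker_of_det {S : Finset Pg} {c x : ZMod 2} {κ l a : Pg → ZMod 2}
    (hκ : ∀ q ∈ S, κ q = c * aa q.1 + l q) (h : (B4 s4 κ a x S).det ≠ 0) (f : Pg → ZMod 2)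
    (s : ZMod 2) (h1 : ∀ q ∈ S, rowN c S f q + f q * l q + s * a q = 0)
    (h2 : ∑ q ∈ S, f q * a q + s * x = 0) : (∀ q ∈ S, f q = 0) ∧ s = 0 := by
  have h3 := Matrix.eq_zero_of_mulVec_eq_zero h
    (v := Sum.elim (fun p : S => f p) fun _ : Unit => s) (by
      ext y
      rcases y with q | ⟨⟩
      · rw [B4_row hκ, h1 q q.2, Pi.zero_apply]
      · rw [B4_last, h2, Pi.zero_apply])
  exact ⟨fun q hq => congrFun h3 (Sum.inl ⟨q, hq⟩), congrFun h3 (Sum.inr ())⟩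

theorem Bker_of_ker {S : Finset Pg} {x : ZMod 2} {a : Pg → ZMod 2}
    (h : ∀ v : S ⊕ Unit → ZMod 2, (B4 s4 0 a x S).mulVec v = 0 →
      ∃ c : ZMod 2, (∀ i : S, v (Sum.inl i) = c) ∧ v (Sum.inr ()) = 0) (f : Pg → ZMod 2)
    (s : ZMod 2) (h1 : ∀ q ∈ S, rowN 0 S f q + s * a q = 0)
    (h2 : ∑ q ∈ S, f q * a q + s * x = 0) :
    ((∀ q ∈ S, f q = 0) ∨ ∀ q ∈ S, f q = 1) ∧ s = 0 := by
  obtain ⟨c, h3, h4⟩ := h (Sum.elim (fun p : S => f p) fun _ : Unit => s) (by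
    ext y
    rcases y with q | ⟨⟩
    · rw [B4_row (c := 0) (l := fun _ => 0) (fun q _ => by rw [Pi.zero_apply, zero_mul, add_zero]),
        mul_zero, add_zero, h1 q q.2, Pi.zero_apply]
    · rw [B4_last, h2, Pi.zero_apply])
  refine ⟨?_, h4⟩
  have h5 : ∀ t : ZMod 2, t = 0 ∨ t = 1 := by decide
  rcases h5 c with rfl | rfl
  · exact Or.inl fun q hq => h3 ⟨q, hq⟩
  · exact Or.inr fun q hq => h3 ⟨q, hq⟩

theorem dk_one_squarefree (k : ZMod 4) (S : Finset Pg) : Squarefree (dk k 1 S) := by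
  have h1 : dk k 1 S = iO ^ k.val * (lam * DDq S) := by
    unfold dk
    have : (1 : ZMod 2).val = 1 := rfl
    rw [this, pow_one, mul_assoc]
  rw [h1]
  have h2 : Squarefree (lam * DDq S) := by
    rw [squarefree_iff_no_irreducibles (mul_ne_zero prime_lam.ne_zero (DDq_in4 S).ne_zero)]
    intro p hp hpp
    have hp' : Prime p := hp.prime
    rcases hp'.dvd_or_dvd ((dvd_mul_right _ _).trans hpp) with h3 | h3
    · have h4 : Associated p lam := hp'.associated_of_dvd prime_lam h3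
      have h5 : lam * lam ∣ lam * DDq S := (h4.symm.mul_mul h4.symm).dvd.trans hpp
      exact (DDq_in4 S).not_lam ((mul_dvd_mul_iff_left prime_lam.ne_zero).1 h5)
    · have h4 : ¬ p ∣ lam := fun h4 => (DDq_in4 S).not_lam
        ((hp'.associated_of_dvd prime_lam h4).symm.dvd.trans h3)
      obtain ⟨c, hc⟩ := hpp
      obtain ⟨d, hd⟩ := h3
      have h5 : p * c = lam * d := by
        apply mul_left_cancel₀ hp'.ne_zero
        linear_combination -hc + lam * hd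
      rcases hp'.dvd_or_dvd (⟨c, h5.symm⟩ : p ∣ lam * d) with h6 | h6
      · exact h4 h6
      · obtain ⟨e, he⟩ := h6
        exact hp'.not_isUnit (DDq_squarefree S p ⟨e, by rw [hd, he, mul_assoc]⟩)
  intro c hc
  exact h2 c ((isUnit_iO.pow k.val).dvd_mul_left.1 hc)

theorem dk_one_ne_five (k : ZMod 4) (S : Finset Pg) :
    dk k 1 S ≠ 1 + 2 * iO ∧ dk k 1 S ≠ 1 - 2 * iO := by
  have h1 : lam ∣ dk k 1 S := by
    unfold dk
    have : (1 : ZMod 2).val = 1 := rfl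
    rw [this, pow_one]
    exact (dvd_mul_left _ _).trans (dvd_mul_right _ _)
  constructor
  · intro h
    rw [h] at h1
    refine prime_lam.not_dvd_one ?_
    exact (dvd_add_left (lam_dvd_two.trans (dvd_mul_right _ _))).1 h1
  · intro h
    rw [h] at h1
    refine prime_lam.not_dvd_one ?_
    exact (dvd_sub_left (lam_dvd_two.trans (dvd_mul_right _ _))).1 h1

/-- **class IV / E**, `lam ∣ D`, `D = i ^ k lam ∏ q` -/
theorem pts4_IV (k : ZMod 4) (S : Finset Pg)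
    (h : (B4 s4 (dlE (fun q => aa q.1) (fun q => c2 q lam) (md k)) (fun q => aa q.1) (xk k) S).det
      ≠ 0) {W : WeierstrassCurve K4} (hW : W = cq (dk k 1 S : K4)) :
    Finite W.toAffine.Point ∧ Nat.card W.toAffine.Point = 2 ∧ Nat.card (ShaP 2 W) = 1 ∧
      ∀ x y : K4, y ^ 2 = x ^ 3 - (dk k 1 S : K4) * x → x = 0 ∧ y = 0 := by
  obtain ⟨h1, h2⟩ := dk_one_ne_five k S
  exact main4_K (dk_one_squarefree k S) (sel4_IV k S fun f s h3 h4 =>
    Bker_of_det (c := md k) (l := fun q => c2 q lam) (a := fun q => aa q.1) (fun q _ => rfl) h f s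
      h3 h4) h1 h2 hW

theorem aa_nn (S : Finset Pg) : ∑ q ∈ S, aa q.1 = md (∑ q ∈ S, nn q.1) := by
  rw [← aa_DDq, ← nn_DDq]
  rfl

/-- **class E in the form of the L side**: `D = i ^ κ lam ∏ q`, `k = κ + 2 ∑ n_q` -/
theorem pts4_E (κ : ZMod 4) (S : Finset Pg) {x : ZMod 4 → ZMod 2} (hx : ∀ k, x k = xk k)
    (h : (BE s4 (fun q => aa q.1) (fun q => c2 q lam) (md (κ + 2 * ∑ q ∈ S, nn q.1))
      (x (κ + 2 * ∑ q ∈ S, nn q.1)) S).det ≠ 0)
    {W : WeierstrassCurve K4} (hW : W = cq (dk κ 1 S : K4)) :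
    Finite W.toAffine.Point ∧ Nat.card W.toAffine.Point = 2 ∧ Nat.card (ShaP 2 W) = 1 ∧
      ∀ x y : K4, y ^ 2 = x ^ 3 - (dk κ 1 S : K4) * x → x = 0 ∧ y = 0 := by
  refine pts4_IV κ S ?_ hW
  have h1 : ∀ κ n : ZMod 4, md (κ + 2 * n) = md κ ∧ xk (κ + 2 * n) + md n = xk κ := by
    decide
  obtain ⟨h2, h3⟩ := h1 κ (∑ q ∈ S, nn q.1)
  rwa [BE, hx, h2, aa_nn, h3] at h

theorem dk_zero_ne_five (S : Finset Pg) (hS : ∑ q ∈ S, aa q.1 = 0) :
    dk 2 0 S ≠ 1 + 2 * iO ∧ dk 2 0 S ≠ 1 - 2 * iO := by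
  obtain ⟨c, d, h1, h2, h3⟩ := form4 (DDq_in4 S) (by rw [aa_DDq]; exact hS)
  have e2 : ((2 : ZMod 4)).val = 2 := rfl
  have h4 : dk 2 0 S = ((-1 - 4 * c : ℤ) : 𝓞 K4) + ((-4 * d : ℤ) : 𝓞 K4) * iO := by
    rw [dk_zero, h1, e2]
    push_cast
    linear_combination (1 + 4 * ((c : 𝓞 K4) + (d : 𝓞 K4) * iO)) * iO_sq
  constructor
  · intro h
    rw [h4] at h
    have h5 : cp (((-1 - 4 * c : ℤ) : 𝓞 K4) + ((-4 * d : ℤ) : 𝓞 K4) * iO) =
        cp (((1 : ℤ) : 𝓞 K4) + ((2 : ℤ) : 𝓞 K4) * iO) := by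
      rw [h]
      push_cast
      rfl
    rw [cp_coords, cp_coords, Prod.mk.injEq] at h5
    omega
  · intro h
    rw [h4] at h
    have h5 : cp (((-1 - 4 * c : ℤ) : 𝓞 K4) + ((-4 * d : ℤ) : 𝓞 K4) * iO) =
        cp (((1 : ℤ) : 𝓞 K4) + ((-2 : ℤ) : 𝓞 K4) * iO) := by
      rw [h]
      push_cast
      congr 1
      ring
    rw [cp_coords, cp_coords, Prod.mk.injEq] at h5
    omega

/-- **class X, `D = - 1` modulo `4`**: the kernel of `[[N_0, a], [aᵀ, n_S / 2]]` is `{0, (1, 0)}` -/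
theorem pts4_X1 (S : Finset Pg) (hS : ∑ q ∈ S, aa q.1 = 0)
    (h : ∀ v : S ⊕ Unit → ZMod 2,
      (B4 s4 0 (fun q => aa q.1) (hf (∑ q ∈ S, nn q.1)) S).mulVec v = 0 →
      ∃ c : ZMod 2, (∀ i : S, v (Sum.inl i) = c) ∧ v (Sum.inr ()) = 0)
    {W : WeierstrassCurve K4} (hW : W = cq (dk 2 0 S : K4)) :
    Finite W.toAffine.Point ∧ Nat.card W.toAffine.Point = 2 ∧ Nat.card (ShaP 2 W) = 1 ∧
      ∀ x y : K4, y ^ 2 = x ^ 3 - (dk 2 0 S : K4) * x → x = 0 ∧ y = 0 := by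
  obtain ⟨h1, h2⟩ := dk_zero_ne_five S hS
  exact main4_K (dk_squarefree 2 S) (sel4_X1 S hS fun f s h3 h4 =>
    Bker_of_ker (a := fun q => aa q.1) h f s h3 h4) h1 h2 hW

/-- **class X, `D = 1` modulo `4`, the imaginary part is `4` modulo `8`**: the kernel of `N_0` is
`{0, 1}` -/
theorem pts4_X2 (S : Finset Pg) (hS : ∑ q ∈ S, aa q.1 = 0)
    (hc : hf (∑ q ∈ S, nn q.1) + ∑ q ∈ S, bb q.1 = 1) {κ : Pg → ZMod 2} (hκ : ∀ q ∈ S, κ q = 0)
    (h : ∀ v : S → ZMod 2, (NM s4 κ S).mulVec v = 0 → ∃ t : ZMod 2, ∀ q, v q = t)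
    {W : WeierstrassCurve K4} (hW : W = cq (dk 0 0 S : K4)) :
    Finite W.toAffine.Point ∧ Nat.card W.toAffine.Point = 2 ∧ Nat.card (ShaP 2 W) = 1 ∧
      ∀ x y : K4, y ^ 2 = x ^ 3 - (dk 0 0 S : K4) * x → x = 0 ∧ y = 0 := by
  obtain ⟨h1, h2⟩ := dk_ne_five 0 S (by decide)
  exact main4_K (dk_squarefree 0 S) (sel4_X2 S hS hc fun f hf => ker_of_ker4 hκ h f hf) h1 h2 hW

/-- **class X, `D = 1` modulo `4`, the imaginary part is `0` modulo `8`**: the kernel of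
`[[N_0, a], [aᵀ, l (l + 1) / 2]]` is `{0, (1, 0)}` -/
theorem pts4_X3 (S : Finset Pg) (hS : ∑ q ∈ S, aa q.1 = 0)
    (hc : hf (∑ q ∈ S, nn q.1) + ∑ q ∈ S, bb q.1 = 0)
    (h : ∀ v : S ⊕ Unit → ZMod 2,
      (B4 s4 0 (fun q => aa q.1) (xl (∑ q ∈ S, c4 q lam)) S).mulVec v = 0 →
      ∃ c : ZMod 2, (∀ i : S, v (Sum.inl i) = c) ∧ v (Sum.inr ()) = 0)
    {W : WeierstrassCurve K4} (hW : W = cq (dk 0 0 S : K4)) :
    Finite W.toAffine.Point ∧ Nat.card W.toAffine.Point = 2 ∧ Nat.card (ShaP 2 W) = 1 ∧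
      ∀ x y : K4, y ^ 2 = x ^ 3 - (dk 0 0 S : K4) * x → x = 0 ∧ y = 0 := by
  obtain ⟨h1, h2⟩ := dk_ne_five 0 S (by decide)
  exact main4_K (dk_squarefree 0 S) (sel4_X3 S hS hc fun f s h3 h4 =>
    Bker_of_ker (a := fun q => aa q.1) h f s h3 h4) h1 h2 hW

end

end Pool.Agent.Lib.MP_1a91b9_ntQ.C
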