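import Pool.Agent.Lib.MP_1a91b9_ntQ.C.SelC4
import Pool.Agent.Lib.MP_1a91b9_ntQ.C.LocC0
import Pool.Agent.Lib.MP_1a91b9_ntQ.C.LocC4
import Pool.Agent.Lib.MP_1a91b9_ntQ.C.LocCX
import Pool.Agent.Lib.MP_1a91b9_ntQ.C.PtsX
import Pool.Agent.Lib.MP_1a91b9_ntQ.D.Gd4

/-!
# MP_1a91b9_nt (quartic twists), converse of the descent: all squarefree `D ≠ ± 1`

If `Gd4 k j S` is not true and `W(K)` is finite, then the 2-primary part of the Tate-Shafarevich group of
`W : y² = x³ - D x`, `D = i ^ k lam ^ j ∏ (q ∈ S) q`, is not trivial.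
-/

set_option autoImplicit false
set_option linter.unusedSectionVars false
set_option linter.unusedVariables false

namespace Pool.Agent.Lib.MP_1a91b9_ntQ.C

open NumberField Finset WithZero IsDedekindDomain Pool.Agent.Lib.MP_1a91b9_nuT
open Pool.Agent.Lib.MP_1a91b9_ntQ
open Pool.Agent.Lib.MP_1a91b9_ntH.C (Sq exists_nu isSquare_exp nu_one)
open Pool.Agent.Lib.MP_1a91b9_ntT3.S9 (ShaP)

noncomputable section

theorem goodQ : GoodQ := by
  intro v D a h4 hD ha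
  refine gloc4_good v _ iK_sq' h4 hD ?_ ?_
  · rw [ha]
    exact ⟨1, (one_mul 1).symm⟩
  · rintro rfl
    rw [map_zero] at ha
    exact zero_ne_one ha

theorem complex_K4 (v : InfinitePlace K) : v.IsComplex := by
  rw [← InfinitePlace.not_isReal_iff_isComplex]
  intro h
  have h3 := congrArg (InfinitePlace.embedding_of_isReal h) iK_sq'
  rw [map_pow, map_neg, map_one] at h3
  nlinarith [sq_nonneg (InfinitePlace.embedding_of_isReal h ((iO : 𝓞 K) : K))]

/-- a vector on `S` as a function on the primes -/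
theorem exists_ext {S : Finset Pg} (v : S → ZMod 2) : ∃ f : Pg → ZMod 2, v = fun q : S => f q :=
  ⟨fun q => if hq : q ∈ S then v ⟨q, hq⟩ else 0, funext fun q => by simp⟩

theorem nu4_le : nuL (4 : K) ≤ 1 := (nu_four4_le nuL_two).le

/-! ### kinds I and II -/

/-- the class of a vector with `s = 0` -/
theorem conv_zero {S : Finset Pg} (k : ZMod 4) (hD : S.Nonempty ∨ md k = 1) (f : Pg → ZMod 2)
    (hrow : ∀ q ∈ S, rowN (md k) S f q = 0)
    (hlam : GLoc4 nuL (dk k 0 S : K) (gp4 S 0 0 f : K))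
    (hne : ¬ ∀ q ∈ S, f q = 0) (hne' : md k = 0 → ¬ ∀ q ∈ S, f q = 1)
    {W : WeierstrassCurve K} (hW : W = cq (dk k 0 S : K)) (hfin : Finite W.toAffine.Point) :
    Nat.card (ShaP 2 W) ≠ 1 := by
  refine conv_class goodQ complex_K4 k 0 0 f (hD.imp_right Or.inr) (fun q hq => ?_) hlam
    (fun h => hne h.2) (fun h => hne' (by rw [← h.1, zero_add]) h.2.2) hW hfin
  have h1 := hrow q hq
  unfold rowN at h1
  linear_combination h1

/-- kind I -/
theorem conv_I (k : ZMod 4) (S : Finset Pg) (hk : md k = 1)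
    (h : (N4 s4 (fun q => aa q.1) S).det = 0)
    {W : WeierstrassCurve K} (hW : W = cq (dk k 0 S : K)) (hfin : Finite W.toAffine.Point) :
    Nat.card (ShaP 2 W) ≠ 1 := by
  obtain ⟨v, hv0, hv⟩ := Matrix.exists_mulVec_eq_zero_iff.2 h
  obtain ⟨f, rfl⟩ := exists_ext v
  have hrow : ∀ q ∈ S, rowN (md k) S f q = 0 := by
    intro q hq
    have h1 := congrFun hv ⟨q, hq⟩
    rw [N4_row (c := 1) (l := fun _ => 0) (fun q _ => by rw [one_mul, add_zero]), mul_zero,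
      add_zero] at h1
    rw [hk]
    exact h1
  have hsum : ∑ q ∈ S, f q * aa q.1 = 0 := by
    have h1 := sum_rowN (md k) S f
    rw [sum_eq_zero hrow, hk, one_mul] at h1
    exact h1.symm
  refine conv_zero k (Or.inr hk) f hrow ?_ (fun h1 => hv0 ?_) (fun h1 => ?_) hW hfin
  · exact c4_gloc4 iK_sq' nuL_two nuL_res (nuL_dk k S) (C4_gp4_zero S f hsum)
  · funext q
    exact h1 q q.2
  · rw [hk] at h1
    exact absurd h1 one_ne_zero

/-- a kernel vector of the Laplacian which is not constant -/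
theorem exists_K2 {S : Finset Pg} (hS : S.Nonempty) (h : ¬ K2 S) :
    ∃ f : Pg → ZMod 2, (∀ q ∈ S, rowN 0 S f q = 0) ∧ (¬ ∀ q ∈ S, f q = 0) ∧
      ¬ ∀ q ∈ S, f q = 1 := by
  have h1 : ¬ ∀ v : S → ZMod 2, (N4 s4 0 S).mulVec v = 0 → ∃ t : ZMod 2, ∀ q, v q = t :=
    fun h2 => h ⟨hS, h2⟩
  push Not at h1
  obtain ⟨v, hv, h2⟩ := h1
  obtain ⟨f, rfl⟩ := exists_ext v
  refine ⟨f, fun q hq => ?_, fun h3 => ?_, fun h3 => ?_⟩
  · have h3 := congrFun hv ⟨q, hq⟩
    rw [N4_row (c := 0) (l := fun _ => 0) (fun q _ => by rw [Pi.zero_apply, zero_mul, add_zero]),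
      mul_zero, add_zero] at h3
    exact h3
  · obtain ⟨q, hq⟩ := h2 0
    exact hq (h3 q q.2)
  · obtain ⟨q, hq⟩ := h2 1
    exact hq (h3 q q.2)

/-- kind II -/
theorem conv_II (k : ZMod 4) (S : Finset Pg) (hk : md k = 0) (hA : ∑ q ∈ S, aa q.1 = 1)
    (h : ¬ K2 S) {W : WeierstrassCurve K} (hW : W = cq (dk k 0 S : K))
    (hfin : Finite W.toAffine.Point) : Nat.card (ShaP 2 W) ≠ 1 := by
  have hS : S.Nonempty := by
    rw [nonempty_iff_ne_empty]
    rintro rfl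
    rw [sum_empty] at hA
    exact zero_ne_one hA
  obtain ⟨f, hf, h0, h1⟩ := exists_K2 hS h
  have h2 : ∀ x : ZMod 2, x = 0 ∨ x = 1 := by decide
  rcases h2 (∑ q ∈ S, f q * aa q.1) with hs | hs
  · refine conv_zero k (Or.inl hS) f (by rw [hk]; exact hf) ?_ h0 (fun _ => h1) hW hfin
    exact c4_gloc4 iK_sq' nuL_two nuL_res (nuL_dk k S) (C4_gp4_zero S f hs)
  · have hs' : ∑ q ∈ S, (f q + 1) * aa q.1 = 0 := by
      have e : ∑ q ∈ S, (f q + 1) * aa q.1 = ∑ q ∈ S, f q * aa q.1 + ∑ q ∈ S, aa q.1 := by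
        rw [← sum_add_distrib]
        exact sum_congr rfl fun q _ => by ring
      rw [e, hs, hA]
      decide
    refine conv_zero k (Or.inl hS) (fun q => f q + 1) (fun q hq => ?_) ?_ (fun h3 => h1 ?_)
      (fun _ h3 => h0 ?_) hW hfin
    · rw [hk]
      have h7 := hf q hq
      unfold rowN at h7 ⊢
      have e : ∑ p ∈ S.erase q, (f p + 1 + (f q + 1)) * s4 q p =
          ∑ p ∈ S.erase q, (f p + f q) * s4 q p := by
        refine sum_congr rfl fun p _ => ?_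
        have h5 : ∀ x y s : ZMod 2, (x + 1 + (y + 1)) * s = (x + y) * s := by decide
        exact h5 _ _ _
      rw [e]
      linear_combination h7
    · exact c4_gloc4 iK_sq' nuL_two nuL_res (nuL_dk k S) (C4_gp4_zero S _ hs')
    · intro q hq
      have h5 : ∀ x : ZMod 2, x + 1 = 0 → x = 1 := by decide
      exact h5 _ (h3 q hq)
    · intro q hq
      have h5 : ∀ x : ZMod 2, x + 1 = 1 → x = 0 := by decide
      exact h5 _ (h3 q hq)

/-! ### `lam ∣ D` -/

/-- kind E -/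
theorem conv_E (k : ZMod 4) (S : Finset Pg)
    (h : (B4 s4 (fun q => md k * aa q.1 + bb q.1) (fun q => aa q.1) (xk k) S).det = 0)
    {W : WeierstrassCurve K} (hW : W = cq (dk k 1 S : K)) (hfin : Finite W.toAffine.Point) :
    Nat.card (ShaP 2 W) ≠ 1 := by
  obtain ⟨v, hv0, hv⟩ := Matrix.exists_mulVec_eq_zero_iff.2 h
  obtain ⟨f, hf⟩ := exists_ext fun q : S => v (Sum.inl q)
  obtain ⟨s, hs⟩ : ∃ s : ZMod 2, s = v (Sum.inr ()) := ⟨_, rfl⟩
  have hvf : v = Sum.elim (fun p : S => f p) fun _ : Unit => s := by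
    funext x
    rcases x with q | ⟨⟩
    · exact congrFun hf q
    · exact hs.symm
  rw [hvf] at hv
  have hrow : ∀ q ∈ S, rowN (md k) S f q + f q * c2 q lam + s * aa q.1 = 0 := by
    intro q hq
    have h1 := congrFun hv (Sum.inl ⟨q, hq⟩)
    rw [B4_row (c := md k) (l := fun q => c2 q lam) (fun q _ => by rw [c2_lam])] at h1
    exact h1
  have hlast : ∑ q ∈ S, f q * aa q.1 + s * xk k = 0 := by
    have h1 := congrFun hv (Sum.inr ())
    rw [B4_last] at h1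
    exact h1
  refine conv_class goodQ complex_K4 k 1 s f (Or.inr (Or.inl rfl)) (fun q hq => ?_) ?_
    (fun h1 => hv0 ?_) (fun h1 => absurd h1.2.1 one_ne_zero) hW hfin
  · have h1 := hrow q hq
    unfold rowN at h1
    rw [← h1]
    ring
  · refine gloc4_one iK_sq' nuL_two nuL_res (nuL_dk1 k S) 0 s ?_
    rw [ZMod.val_zero, pow_zero, mul_one]
    exact Sq_class_E k S f s hrow hlast
  · rw [hvf]
    funext x
    rcases x with q | ⟨⟩
    · exact h1.2 q q.2
    · exact h1.1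

/-! ### `D = ± 1` modulo `4` -/

/-- a kernel vector of the bordered Laplacian -/
theorem exists_K3 {x : ZMod 2} {S : Finset Pg} (hS : S.Nonempty) (h : ¬ K3 x S) :
    ∃ (f : Pg → ZMod 2) (s : ZMod 2), (∀ q ∈ S, rowN 0 S f q + s * aa q.1 = 0) ∧
      ∑ q ∈ S, f q * aa q.1 + s * x = 0 ∧ ¬ (s = 0 ∧ ∀ q ∈ S, f q = 0) ∧
      ¬ (s = 0 ∧ ∀ q ∈ S, f q = 1) := by
  have h1 : ¬ ∀ v : S ⊕ Unit → ZMod 2, (B4 s4 0 (fun q => aa q.1) x S).mulVec v = 0 →
      ∃ t : ZMod 2, (∀ q : S, v (Sum.inl q) = t) ∧ v (Sum.inr ()) = 0 := fun h2 => h ⟨hS, h2⟩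
  push Not at h1
  obtain ⟨v, hv, h2⟩ := h1
  obtain ⟨f, hf⟩ := exists_ext fun q : S => v (Sum.inl q)
  have hf' : ∀ q : S, v (Sum.inl q) = f q := fun q => congrFun hf q
  obtain ⟨s, hs⟩ : ∃ s : ZMod 2, s = v (Sum.inr ()) := ⟨_, rfl⟩
  have hvf : v = Sum.elim (fun p : S => f p) fun _ : Unit => s := by
    funext x
    rcases x with q | ⟨⟩
    · exact congrFun hf q
    · exact hs.symm
  rw [hvf] at hv
  refine ⟨f, s, fun q hq => ?_, ?_, fun h3 => ?_, fun h3 => ?_⟩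
  · have h3 := congrFun hv (Sum.inl ⟨q, hq⟩)
    rw [B4_row (c := 0) (l := fun _ => 0) (fun q _ => by rw [Pi.zero_apply, zero_mul, add_zero]),
      mul_zero, add_zero] at h3
    exact h3
  · have h3 := congrFun hv (Sum.inr ())
    rw [B4_last] at h3
    exact h3
  · exact h2 0 (fun q => by rw [hf', h3.2 q q.2]) (by rw [← hs]; exact h3.1)
  · exact h2 1 (fun q => by rw [hf', h3.2 q q.2]) (by rw [← hs]; exact h3.1)

/-- the classes `D = ± 1` modulo `4`, with the local image generated by `w` -/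
theorem conv_w {S : Finset Pg} (k : ZMod 4) (hk : md k = 0) (hS : S.Nonempty) {α : ZMod 2}
    {w z : 𝓞 K} (hz : In4 z) (hα : aa z = α) (f : Pg → ZMod 2) (s : ZMod 2)
    (hw : w = iO ^ s.val * z)
    (hloc : s = 1 → ∀ a : K, C4 nuL a ∨ C4 nuL (a * (w : K)) → GLoc4 nuL (dk k 0 S : K) a)
    (hrow : ∀ q ∈ S, rowN 0 S f q + s * aa q.1 = 0) (hlast : ∑ q ∈ S, f q * aa q.1 + s * α = 0)
    (h0 : ¬ (s = 0 ∧ ∀ q ∈ S, f q = 0)) (h1 : ¬ (s = 0 ∧ ∀ q ∈ S, f q = 1))
    {W : WeierstrassCurve K} (hW : W = cq (dk k 0 S : K)) (hfin : Finite W.toAffine.Point) :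
    Nat.card (ShaP 2 W) ≠ 1 := by
  have h2 : ∀ x : ZMod 2, x = 0 ∨ x = 1 := by decide
  refine conv_class goodQ complex_K4 k 0 s f (Or.inl hS) (fun q hq => ?_) ?_ h0
    (fun h3 => h1 ⟨by rw [← h3.1, hk, add_zero], h3.2.2⟩) hW hfin
  · have h3 := hrow q hq
    unfold rowN at h3
    rw [hk]
    linear_combination h3
  · rcases h2 s with rfl | rfl
    · rw [zero_mul, add_zero] at hlast
      exact c4_gloc4 iK_sq' nuL_two nuL_res (nuL_dk k S) (C4_gp4_zero S f hlast)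
    · refine hloc rfl _ (Or.inr ?_)
      rw [hw]
      exact C4_gp4_mul S f 1 hz (by rw [hα]; rw [one_mul] at hlast; exact hlast)

/-- `D = - 1` modulo `4` -/
theorem conv_X1 (S : Finset Pg) (hS : S.Nonempty) (hA : ∑ q ∈ S, aa q.1 = 0)
    (h : ¬ K3 (hf (∑ q ∈ S, nn q.1)) S)
    {W : WeierstrassCurve K} (hW : W = cq (dk 2 0 S : K)) (hfin : Finite W.toAffine.Point) :
    Nat.card (ShaP 2 W) ≠ 1 := by
  obtain ⟨f, s, g1, g2, g3, g4⟩ := exists_K3 hS h
  obtain ⟨c, d, h1, h2, h3⟩ := form4 (DDq_in4 S) (by rw [aa_DDq]; exact hA)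
  rw [nn_DDq] at h2
  rw [h2, hf_two] at g2
  obtain ⟨ρ, hρ⟩ : ∃ ρ : ZMod 2, ρ = (c : ZMod 2) := ⟨_, rfl⟩
  obtain ⟨n, hn⟩ : ∃ n : ZMod 2, n = (d : ZMod 2) := ⟨_, rfl⟩
  obtain ⟨c', hc'⟩ := digit2 c
  obtain ⟨d', hd'⟩ := digit2 d
  rw [← hρ] at hc' g2
  rw [← hn] at hd'
  -- `D = - (1 + 4 u)`
  have hD : (dk 2 0 S : K) = -1 * (1 + 4 * ((ρ.val : K) + (iO : K) * (n.val : K) +
      (1 + (iO : K)) ^ 2 * (-(iO : K) * (c' : K) + (d' : K)))) := by
    have e : dk 2 0 S = -1 * (1 + 4 * ((ρ.val : 𝓞 K) + iO * (n.val : 𝓞 K) +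
        (1 + iO) ^ 2 * (-iO * (c' : 𝓞 K) + (d' : 𝓞 K)))) := by
      rw [dk_zero, h1, hc', hd']
      have e2 : ((2 : ZMod 4)).val = 2 := rfl
      rw [e2]
      push_cast
      linear_combination (1 + 4 * ((ρ.val : 𝓞 K) + 2 * (c' : 𝓞 K) + ((n.val : 𝓞 K) +
        2 * (d' : 𝓞 K)) * iO) + 4 * (d' - iO * c' - 2 * c') ) * iO_sq
    rw [e]
    push_cast
    rfl
  have hv : nuL (-(iO : K) * (c' : K) + (d' : K)) ≤ 1 := by
    have h5 := nuL_O (-iO * (c' : 𝓞 K) + (d' : 𝓞 K))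
    push_cast at h5
    exact h5
  have h5 := aa_form (ρ.val : ℤ) 0
  have e : (1 + lam ^ 3 * ((((ρ.val : ℕ) : ℤ) : 𝓞 K4) + ((0 : ℤ) : 𝓞 K4) * iO)) =
      1 + lam ^ 3 * (ρ.val : 𝓞 K4) := by
    push_cast
    ring
  rw [e] at h5
  refine conv_w 2 (by decide) hS (z := 1 + lam ^ 3 * (ρ.val : 𝓞 K)) (α := ρ) ?_ ?_ f s rfl
    (fun hs a ha => ?_) g1 g2 g3 g4 hW hfin
  · exact ⟨(ρ.val : 𝓞 K), by ring⟩
  · rw [h5]
    push_cast
    rw [add_zero, ZMod.natCast_val, ZMod.cast_id]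
  · refine locC_X1 iK_sq' nuL_two nuL_res (coe_val01 ρ) (coe_val01 n) hv rfl hD (ha.imp_right ?_)
    intro h7
    have hv1 : ((1 : ZMod 2)).val = 1 := rfl
    have e : ((iO ^ s.val * (1 + lam ^ 3 * (ρ.val : 𝓞 K)) : 𝓞 K) : K) =
        (iO : K) ^ 1 * (1 + (1 + (iO : K)) ^ 3 * (ρ.val : K)) := by
      rw [← lam_coe, hs, hv1]
      push_cast
      rfl
    rwa [e] at h7

/-- `D = 1` modulo `4`, the imaginary part of `D` is `4` modulo `8` -/
theorem conv_X2 (S : Finset Pg) (hS : S.Nonempty) (hA : ∑ q ∈ S, aa q.1 = 0)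
    (hc : hf (∑ q ∈ S, nn q.1) + ∑ q ∈ S, bb q.1 = 1) (h : ¬ K2 S)
    {W : WeierstrassCurve K} (hW : W = cq (dk 0 0 S : K)) (hfin : Finite W.toAffine.Point) :
    Nat.card (ShaP 2 W) ≠ 1 := by
  obtain ⟨f, g1, g2, g3⟩ := exists_K2 hS h
  obtain ⟨c, d, h1, h2, h3⟩ := form4 (DDq_in4 S) (by rw [aa_DDq]; exact hA)
  rw [nn_DDq] at h2
  rw [bb_DDq] at h3
  rw [h2, hf_two, h3] at hc
  have hn : (d : ZMod 2) = 1 := by
    push_cast at hc
    have h4 : ∀ c d : ZMod 2, c + (c + d) = 1 → d = 1 := by decide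
    exact h4 _ _ hc
  obtain ⟨ρ, hρ⟩ : ∃ ρ : ZMod 2, ρ = (c : ZMod 2) := ⟨_, rfl⟩
  obtain ⟨c', hc'⟩ := digit2 c
  obtain ⟨d', hd'⟩ := digit2 d
  rw [← hρ] at hc'
  rw [hn] at hd'
  have hv1 : ((1 : ZMod 2)).val = 1 := rfl
  rw [hv1] at hd'
  have hD : (dk 0 0 S : K) = 1 * (1 + 4 * ((ρ.val : K) + (iO : K) +
      (1 + (iO : K)) ^ 2 * (-(iO : K) * (c' : K) + (d' : K)))) := by
    have e : dk 0 0 S = 1 * (1 + 4 * ((ρ.val : 𝓞 K) + iO +
        (1 + iO) ^ 2 * (-iO * (c' : 𝓞 K) + (d' : 𝓞 K)))) := by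
      rw [dk_zero, h1, hc', hd']
      have e2 : ((0 : ZMod 4)).val = 0 := rfl
      rw [e2]
      push_cast
      linear_combination (-4 * (d' - iO * c' - 2 * c')) * iO_sq
    rw [e]
    push_cast
    rfl
  have hv : nuL (-(iO : K) * (c' : K) + (d' : K)) ≤ 1 := by
    have h5 := nuL_O (-iO * (c' : 𝓞 K) + (d' : 𝓞 K))
    push_cast at h5
    exact h5
  have hz : In4 (1 + lam ^ 3 * 1) := ⟨1, by ring⟩
  have haz : aa (1 + lam ^ 3 * 1) = 1 := by
    have h5 := aa_form 1 0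
    have e : (1 + lam ^ 3 * (((1 : ℤ) : 𝓞 K4) + ((0 : ℤ) : 𝓞 K4) * iO)) =
        1 + lam ^ 3 * 1 := by
      push_cast
      ring
    rw [e] at h5
    rw [h5]
    decide
  refine conv_zero 0 (Or.inl hS) f (by rw [map_zero]; exact g1) ?_ g2 (fun _ => g3) hW hfin
  refine locC_X2 iK_sq' nuL_two nuL_res (coe_val01 ρ) hv rfl hD ?_
  have h0 : ∀ x : ZMod 2, x = 0 ∨ x = 1 := by decide
  rcases h0 (∑ q ∈ S, f q * aa q.1) with hs | hs
  · exact Or.inl (C4_gp4_zero S f hs)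
  · right
    have h7 := C4_gp4_mul S f 0 hz (by rw [hs, haz]; decide)
    have e : ((iO ^ (0 : ZMod 2).val * (1 + lam ^ 3 * 1) : 𝓞 K) : K) =
        (iO : K) ^ 0 * (1 + (1 + (iO : K)) ^ 3 * 1) := by
      rw [← lam_coe]
      push_cast
      rfl
    exact Eq.mp (congrArg (fun t : K => C4 nuL ((gp4 S 0 0 f : K) * t)) e) h7

/-- `D = 1` modulo `4`, the imaginary part of `D` is `0` modulo `8` -/
theorem conv_X3 (S : Finset Pg) (hS : S.Nonempty) (hA : ∑ q ∈ S, aa q.1 = 0)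
    (hc : hf (∑ q ∈ S, nn q.1) + ∑ q ∈ S, bb q.1 = 0)
    (h : ¬ K3 (xl (∑ q ∈ S, c4 q lam)) S)
    {W : WeierstrassCurve K} (hW : W = cq (dk 0 0 S : K)) (hfin : Finite W.toAffine.Point) :
    Nat.card (ShaP 2 W) ≠ 1 := by
  obtain ⟨f, s, g1, g2, g3, g4⟩ := exists_K3 hS h
  obtain ⟨c, d, h1, h2, h3⟩ := form4 (DDq_in4 S) (by rw [aa_DDq]; exact hA)
  rw [nn_DDq] at h2
  rw [bb_DDq] at h3
  rw [h2, hf_two, h3] at hc
  have hd : (d : ZMod 2) = 0 := by
    push_cast at hc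
    have h4 : ∀ c d : ZMod 2, c + (c + d) = 0 → d = 0 := by decide
    exact h4 _ _ hc
  obtain ⟨d', hd'⟩ := (ZMod.intCast_zmod_eq_zero_iff_dvd _ 2).1 hd
  obtain ⟨ρ, hρ⟩ : ∃ ρ : ZMod 2, ρ = (c : ZMod 2) := ⟨_, rfl⟩
  obtain ⟨c', hc'⟩ := digit2 c
  rw [← hρ] at hc'
  obtain ⟨κ, hκ⟩ : ∃ κ : ZMod 2, κ = ((c' + d' : ℤ) : ZMod 2) := ⟨_, rfl⟩
  obtain ⟨k', hk'⟩ := digit2 (c' + d')
  rw [← hκ] at hk'
  -- the symbol of `lam`
  have hl : ∑ q ∈ S, c4 q lam = ((c - d : ℤ) : ZMod 4) := by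
    obtain ⟨m, n, h5, h6⟩ := c4_lam_DDq S
    have h7 : (cp (DDq S)) = (1 - 2 * m - 2 * n, 2 * m - 2 * n) := by rw [h5, cp_form]
    have h8 : (cp (DDq S)) = (1 + 4 * c, 4 * d) := by
      have e : DDq S = ((1 + 4 * c : ℤ) : 𝓞 K4) + ((4 * d : ℤ) : 𝓞 K4) * iO := by
        rw [h1]
        push_cast
        ring
      rw [e, cp_coords]
    rw [h7] at h8
    have h9 := congrArg Prod.fst h8
    have h10 := congrArg Prod.snd h8
    dsimp only at h9 h10
    have hm : m = d - c := by omega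
    have hn : n = -c - d := by omega
    rw [h6, hm, hn]
    push_cast
    have h11 : ∀ c d : ZMod 4, -(d - c) - (d - c - (-c - d)) ^ 2 = c - d := by decide
    exact h11 _ _
  have hα : xl (∑ q ∈ S, c4 q lam) = ρ + κ := by
    rw [hl, hc']
    have e : ((((ρ.val : ℕ) : ℤ) + 2 * c' - d : ℤ) : ZMod 4) =
        ((ρ.val : ℕ) : ZMod 4) + 2 * ((κ.val : ℕ) : ZMod 4) := by
      have e1 : (((ρ.val : ℕ) : ℤ) + 2 * c' - d : ℤ) =
          ((ρ.val : ℕ) : ℤ) + 2 * ((κ.val : ℕ) : ℤ) + 4 * (k' - d') := by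
        push_cast at hd' hk' ⊢
        omega
      rw [e1]
      push_cast
      have h4 : (4 : ZMod 4) = 0 := by decide
      rw [h4, zero_mul, add_zero]
    rw [e]
    have h5 : ∀ ρ κ : ZMod 2, xl (((ρ.val : ℕ) : ZMod 4) + 2 * ((κ.val : ℕ) : ZMod 4)) =
        ρ + κ := by decide
    exact h5 _ _
  rw [hα] at g2
  obtain ⟨v, hv⟩ : ∃ v : 𝓞 K, v = -(c' : 𝓞 K) + (1 - iO) * (k' : 𝓞 K) := ⟨_, rfl⟩
  have hD : (dk 0 0 S : K) = 1 * (1 + 4 * ((ρ.val : K) +
      (1 + (iO : K)) ^ 2 * ((κ.val : K) + (1 + (iO : K)) * (v : K)))) := by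
    have e : dk 0 0 S = 1 * (1 + 4 * ((ρ.val : 𝓞 K) +
        (1 + iO) ^ 2 * ((κ.val : 𝓞 K) + (1 + iO) * v))) := by
      have e3 : ((κ.val : ℕ) : 𝓞 K) = (c' : 𝓞 K) + (d' : 𝓞 K) - 2 * (k' : 𝓞 K) := by
        have := congrArg (fun x : ℤ => (x : 𝓞 K)) hk'
        push_cast at this
        linear_combination -this
      have e4 : (c : 𝓞 K) = ((ρ.val : ℕ) : 𝓞 K) + 2 * (c' : 𝓞 K) := by
        have := congrArg (fun x : ℤ => (x : 𝓞 K)) hc'
        push_cast at this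
        exact this
      have e5 : (d : 𝓞 K) = 2 * (d' : 𝓞 K) := by
        have := congrArg (fun x : ℤ => (x : 𝓞 K)) hd'
        push_cast at this
        exact this
      rw [dk_zero, h1]
      have e2 : ((0 : ZMod 4)).val = 0 := rfl
      rw [e2, e3, hv]
      show iO ^ 0 * (1 + 4 * ((c : 𝓞 K) + (d : 𝓞 K) * iO)) = _
      rw [e4, e5]
      linear_combination (4 * iO ^ 2 * (k' : 𝓞 K) + 4 * (c' : 𝓞 K) * iO + 8 * iO * (k' : 𝓞 K) +
        8 * (c' : 𝓞 K) - 4 * (d' : 𝓞 K) + 4 * (k' : 𝓞 K)) * iO_sq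
    rw [e]
    push_cast
    rfl
  have h0 : ∀ x : ZMod 2, x = 0 ∨ x = 1 := by decide
  have hv1 : ((1 : ZMod 2)).val = 1 := rfl
  have h5 := aa_form ((ρ + κ).val : ℤ) 0
  have e : (1 + lam ^ 3 * (((((ρ + κ).val : ℕ) : ℤ) : 𝓞 K4) + ((0 : ℤ) : 𝓞 K4) * iO)) =
      1 + lam ^ 3 * ((ρ + κ).val : 𝓞 K4) := by
    push_cast
    ring
  rw [e] at h5
  refine conv_w 0 (by decide) hS (z := 1 + lam ^ 3 * ((ρ + κ).val : 𝓞 K)) (α := ρ + κ) ?_ ?_ f s
    rfl (fun hs a ha => ?_) g1 g2 g3 g4 hW hfin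
  · exact ⟨((ρ + κ).val : 𝓞 K), by ring⟩
  · rw [h5]
    push_cast
    rw [add_zero, ZMod.natCast_val, ZMod.cast_id]
  · refine locC_X3 iK_sq' nuL_two nuL_res (ρ := (ρ.val : K)) (κ := (κ.val : K))
      (α := ((ρ + κ).val : K)) (by
        rcases h0 ρ with h5 | h5 <;> rcases h0 κ with h6 | h6 <;> rw [h5, h6]
        · left
          refine ⟨?_, ?_, ?_⟩
          · rw [ZMod.val_zero, Nat.cast_zero]
          · rw [ZMod.val_zero, Nat.cast_zero]
          · rw [add_zero, ZMod.val_zero, Nat.cast_zero]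
        · right; left
          refine ⟨?_, ?_, ?_⟩
          · rw [ZMod.val_zero, Nat.cast_zero]
          · rw [hv1, Nat.cast_one]
          · rw [zero_add, hv1, Nat.cast_one]
        · right; right; left
          refine ⟨?_, ?_, ?_⟩
          · rw [hv1, Nat.cast_one]
          · rw [ZMod.val_zero, Nat.cast_zero]
          · rw [add_zero, hv1, Nat.cast_one]
        · right; right; right
          have h7 : (1 : ZMod 2) + 1 = 0 := by decide
          refine ⟨?_, ?_, ?_⟩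
          · rw [hv1, Nat.cast_one]
          · rw [hv1, Nat.cast_one]
          · rw [h7, ZMod.val_zero, Nat.cast_zero]) (nuL_O v) rfl hD (ha.imp_right ?_)
    intro h7
    have e : ((iO ^ s.val * (1 + lam ^ 3 * ((ρ + κ).val : 𝓞 K)) : 𝓞 K) : K) =
        (iO : K) ^ 1 * (1 + (1 + (iO : K)) ^ 3 * ((ρ + κ).val : K)) := by
      rw [← lam_coe, hs, hv1]
      push_cast
      rfl
    rwa [e] at h7

/-! ### all classes -/

theorem hf_eq (x : ZMod 4) : hf4 x = hf x := rfl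

theorem xl_eq (x : ZMod 4) : xl4 x = xl x := rfl

theorem xk_eq (x : ZMod 4) : xk4 x = xk x := rfl

private theorem cvg_j (j : Fin 2) : j = 0 ∨ j = 1 := by
  revert j
  decide

private theorem cvg_md (k : ZMod 4) : md k = 1 ∨ md k = 0 := by
  revert k
  decide

private theorem cvg_mk {k : ZMod 4} (h : md k = 0) : k = 0 ∨ k = 2 := by
  revert k
  decide

private theorem cvg_z (x : ZMod 2) : x = 0 ∨ x = 1 := by
  revert x
  decide

/-- **The converse of the descent by `1 - i`**: all squarefree `D ≠ ± 1`. -/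
theorem conv_gd4 {k : ZMod 4} {j : Fin 2} {S : Finset Pg} (hD : S.Nonempty ∨ j = 1 ∨ md k = 1)
    (h : ¬ Gd4 k j S) {W : WeierstrassCurve K4} (hW : W = cq (dk k j S : K4))
    (hfin : Finite W.toAffine.Point) : Nat.card (ShaP 2 W) ≠ 1 := by
  have h01 : (0 : Fin 2) ≠ 1 := by decide
  rcases cvg_j j with rfl | rfl
  · have hW' : W = cq (dk k 0 S : K) := hW
    have hD' : S.Nonempty ∨ md k = 1 := hD.imp_right fun h => h.resolve_left h01
    rcases cvg_md k with hk | hk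
    · refine conv_I k S hk ?_ hW' hfin
      by_contra hc
      refine h ⟨fun h' => absurd h' h01, fun _ _ => hc, fun _ h' => ?_, fun _ h' => ?_,
        fun _ h' => ?_, fun _ h' => ?_⟩
      · rw [hk] at h'
        exact absurd h' one_ne_zero
      · rw [h'] at hk
        exact absurd hk (by decide)
      · rw [h'] at hk
        exact absurd hk (by decide)
      · rw [h'] at hk
        exact absurd hk (by decide)
    · have hk1 : md k ≠ 1 := by
        rw [hk]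
        exact zero_ne_one
      have hS : S.Nonempty := hD'.resolve_right hk1
      rcases cvg_z (∑ q ∈ S, aa q.1) with hA | hA
      · have hA1 : ∑ q ∈ S, aa q.1 ≠ 1 := by
          rw [hA]
          exact zero_ne_one
        rcases cvg_mk hk with rfl | rfl
        · have k2 : (0 : ZMod 4) ≠ 2 := by decide
          rcases cvg_z (hf4 (∑ q ∈ S, nn q.1) + ∑ q ∈ S, bb q.1) with hc | hc
          · refine conv_X3 S hS hA hc ?_ hW' hfin
            intro h3
            refine h ⟨fun h' => absurd h' h01, fun _ h' => absurd h' hk1,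
              fun _ _ h' => absurd h' hA1, fun _ h' => absurd h' k2, fun _ _ _ h' => ?_,
              fun _ _ _ _ => h3⟩
            rw [hc] at h'
            exact absurd h' zero_ne_one
          · refine conv_X2 S hS hA hc ?_ hW' hfin
            intro h3
            refine h ⟨fun h' => absurd h' h01, fun _ h' => absurd h' hk1,
              fun _ _ h' => absurd h' hA1, fun _ h' => absurd h' k2, fun _ _ _ _ => h3,
              fun _ _ _ h' => ?_⟩
            rw [hc] at h'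
            exact absurd h' one_ne_zero
        · have k0 : (2 : ZMod 4) ≠ 0 := by decide
          refine conv_X1 S hS hA ?_ hW' hfin
          intro h3
          exact h ⟨fun h' => absurd h' h01, fun _ h' => absurd h' hk1,
            fun _ _ h' => absurd h' hA1, fun _ _ _ => h3, fun _ h' => absurd h' k0,
            fun _ h' => absurd h' k0⟩
      · refine conv_II k S hk hA ?_ hW' hfin
        intro h3
        have hA0 : ∑ q ∈ S, aa q.1 ≠ 0 := by
          rw [hA]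
          exact one_ne_zero
        exact h ⟨fun h' => absurd h' h01, fun _ h' => absurd h' hk1, fun _ _ _ => h3,
          fun _ _ h' => absurd h' hA0, fun _ _ h' => absurd h' hA0,
          fun _ _ h' => absurd h' hA0⟩
  · have h10 : (1 : Fin 2) ≠ 0 := by decide
    refine conv_E k S ?_ hW hfin
    by_contra hc
    exact h ⟨fun _ => hc, fun h' => absurd h' h10, fun h' => absurd h' h10,
      fun h' => absurd h' h10, fun h' => absurd h' h10, fun h' => absurd h' h10⟩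

end

end Pool.Agent.Lib.MP_1a91b9_ntQ.C
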