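import Pool.Agent.Lib.MP_1a91b9_ntQ.C.TorsQ

/-!
# MP_1a91b9_nt, part C: the descent by `1 - i` when the Selmer group is generated by the class of a
rational point
-/

set_option autoImplicit false
set_option linter.unusedSectionVars false

namespace Pool.Agent.Lib.MP_1a91b9_ntQ.C

open WeierstrassCurve WithZero NumberField IsDedekindDomain
open Pool.Agent.Lib.MP_1a91b9_ntT.S9 (Pts Gal coc cob trivOver shaCoc Sha up)
open Pool.Agent.Lib.MP_1a91b9_ntT3.S9 (ShaP)
open scoped Classical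

noncomputable section

section

variable {k : Type*} [Field k] [CharZero k] {z d : k} (hd : d ≠ 0) (hz : z ^ 2 = -1)

/-- The class of the points `R` with `mu R = (x₀, y₀)`, `x₀ ≠ 0`. -/
theorem kd_cobG (c : Gal k → Pts (cq d) (AlgebraicClosure k))
    (hmu : ∀ σ, mu (isQ_bc hd hz (AlgebraicClosure k)) (c σ) = 0) (a : k)
    (b : AlgebraicClosure k) (hk : KD c a b) {x₀ y₀ : k} (hx : x₀ ≠ 0)
    (hns : (Affine.baseChange (cq d) (AlgebraicClosure k)).Nonsingular
      (algebraMap k (AlgebraicClosure k) x₀) (algebraMap k (AlgebraicClosure k) y₀))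
    (ha : IsSquare (a * x₀)) :
    ∃ R : Pts (cq d) (AlgebraicClosure k),
      mu (isQ_bc hd hz (AlgebraicClosure k)) R = .some _ _ hns ∧
      ∀ σ, c σ = act (cq d) σ R - R := by
  set h := isQ_bc hd hz (AlgebraicClosure k) with hh
  obtain ⟨Z, hZ⟩ : ∃ Z, Z = algebraMap k (AlgebraicClosure k) z := ⟨_, rfl⟩
  obtain ⟨r, hr⟩ := ha
  obtain ⟨R, hR⟩ := exists_mu_closed h (.some _ _ hns)
  have hne : mu h R ≠ 0 := by
    rw [hR]
    exact Affine.Point.some_ne_zero _
  refine ⟨R, hR, fun σ => ?_⟩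
  have hx0 : algebraMap k (AlgebraicClosure k) x₀ ≠ 0 := (map_ne_zero _).2 hx
  have hsq : cfn Z R ^ 2 = algebraMap k (AlgebraicClosure k) x₀ := by
    rw [hZ]
    exact cfn_sq h R hns hR
  have hc0 : cfn Z R ≠ 0 := by
    intro h0
    rw [h0] at hsq
    apply hx0
    rw [← hsq]
    ring
  have hfix : σ (b * cfn Z R) = b * cfn Z R := by
    refine sq_root_fixed (r := r) ?_ σ
    rw [mul_pow, hsq, ← hk.sq, ← map_mul, hr, map_mul, sq]
  have hact : mu h (act (cq d) σ R) = mu h R := by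
    have h1 : act (cq d) σ (mu h R) = mu h (act (cq d) σ R) := act_mu hd hz σ R
    rw [← h1, hR]
    have h2 : act (cq d) σ (.some _ _ hns) = Affine.Point.some
        (σ (algebraMap k (AlgebraicClosure k) x₀)) (σ (algebraMap k (AlgebraicClosure k) y₀)) (by
        exact (Affine.baseChange_nonsingular (cq d)
          (σ : AlgebraicClosure k →ₐ[k] AlgebraicClosure k).injective _ _).2 hns) := rfl
    rw [h2, Affine.Point.some.injEq]
    exact ⟨σ.commutes _, σ.commutes _⟩
  have hD : mu h (act (cq d) σ R - R) = 0 := by rw [_root_.map_sub, hact, sub_self]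
  have hcf : σ (cfn Z R) = ch (AlgebraicClosure k) (act (cq d) σ R - R) * cfn Z R := by
    have h1 := cfn_add h R (act (cq d) σ R - R) hne hD
    rw [add_sub_cancel] at h1
    have h2 : cfn (algebraMap k (AlgebraicClosure k) z) (act (cq d) σ R) =
        σ (cfn (algebraMap k (AlgebraicClosure k) z) R) :=
      cfn_map (σ : AlgebraicClosure k →ₐ[k] AlgebraicClosure k) R
    rw [hZ, ← h2, h1]
  rw [map_mul, hk.act σ, hcf] at hfix
  have h3 : ch (AlgebraicClosure k) (c σ) * ch (AlgebraicClosure k) (act (cq d) σ R - R) = 1 := by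
    refine mul_right_cancel₀ (mul_ne_zero hk.ne hc0) ?_
    linear_combination hfix
  refine ch_inj (F' := AlgebraicClosure k) h _ _ (hmu σ) hD ?_
  have h4 := ch_sq (F' := AlgebraicClosure k) (act (cq d) σ R - R)
  calc ch (AlgebraicClosure k) (c σ) = ch (AlgebraicClosure k) (c σ) *
        ch (AlgebraicClosure k) (act (cq d) σ R - R) ^ 2 := by rw [h4, mul_one]
    _ = (ch (AlgebraicClosure k) (c σ) * ch (AlgebraicClosure k) (act (cq d) σ R - R)) *
        ch (AlgebraicClosure k) (act (cq d) σ R - R) := by ring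
    _ = _ := by rw [h3, one_mul]

end

/-- The class of a locally trivial cocycle with values in the kernel of `1 - i` is trivial or the
class of the point `P₀`. -/
def CocCl {N : Type*} [Field N] [NumberField N] {z d : N} (hd : d ≠ 0) (hz : z ^ 2 = -1)
    (P₀ : Pts (cq d) N) : Prop :=
  ∀ c : Gal N → Pts (cq d) (AlgebraicClosure N), c ∈ shaCoc (cq d) →
    (∀ σ, mu (isQ_bc hd hz (AlgebraicClosure N)) (c σ) = 0) →
    ∃ R : Pts (cq d) (AlgebraicClosure N),
      (mu (isQ_bc hd hz (AlgebraicClosure N)) R = 0 ∨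
        mu (isQ_bc hd hz (AlgebraicClosure N)) R = up (cq d) N (AlgebraicClosure N) P₀) ∧
      ∀ σ, c σ = act (cq d) σ R - R

section

variable {N : Type*} [Field N] [NumberField N] {d : N} (hd : d ≠ 0) {z : N} (hz : z ^ 2 = -1)

/-- the Selmer elements are the squares and the squares times the abscissa of a rational point -/
theorem cocCl_of_sel {x₀ y₀ : N} (hx : x₀ ≠ 0)
    (hS : ∀ a : N, a ≠ 0 → (∀ v : HeightOneSpectrum (𝓞 N), GLoc4 (v.valuation N) d a) →
      IsSquare a ∨ IsSquare (a * x₀))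
    (hns : (Affine.baseChange (cq d) N).Nonsingular (algebraMap N N x₀) (algebraMap N N y₀)) :
    CocCl hd hz (.some _ _ hns) := by
  intro c hc h2
  obtain ⟨a, b, hk⟩ := exists_kd hd hz c hc.1.1 h2
  have ha : a ≠ 0 := by
    rintro rfl
    have h := hk.sq
    rw [_root_.map_zero] at h
    exact hk.ne ((pow_eq_zero_iff two_ne_zero).1 h.symm)
  have hloc : ∀ v : HeightOneSpectrum (𝓞 N), GLoc4 (v.valuation N) d a := fun v => by
    have : CharZero (v.adicCompletion N) :=
      charZero_of_injective_algebraMap (algebraMap N (v.adicCompletion N)).injective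
    have h : c ∈ ⨅ v : HeightOneSpectrum (𝓞 N), trivOver (cq d) (v.adicCompletion N) := hc.1.2
    have hcv : c ∈ trivOver (cq d) (v.adicCompletion N) := AddSubgroup.mem_iInf.1 h v
    exact gloc_of_locAt v hd ha (kd_loc hd hz c h2 a b hk hcv)
  rcases hS a ha hloc with h | h
  · refine ⟨0, Or.inl (_root_.map_zero _), fun σ => ?_⟩
    rw [kd_zero c a b hk h σ, _root_.map_zero, sub_zero]
  · have h0 : (Affine.baseChange (cq d) (AlgebraicClosure N)).Nonsingular
        (algebraMap N (AlgebraicClosure N) x₀) (algebraMap N (AlgebraicClosure N) y₀) := by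
      have h1 := ((isQ_bc hd hz N).nons _ _).1 hns
      refine ((isQ_bc hd hz (AlgebraicClosure N)).nons _ _).2 ?_
      have h3 := congrArg (algebraMap N (AlgebraicClosure N)) h1
      simpa using h3
    obtain ⟨R, hR, hc'⟩ := kd_cobG hd hz c h2 a b hk hx h0 h
    exact ⟨R, Or.inr hR, hc'⟩

variable {P₀ : Pts (cq d) N} (hM : CocCl hd hz P₀) {n : ℕ}
  (hP₀ : (mu (isQ_bc hd hz N))^[n] P₀ = 0)

include hM

include hP₀ in
private theorem desc_ptsG0 (P : Pts (cq d) N) :
    ∃ T Q : Pts (cq d) N, (mu (isQ_bc hd hz N))^[n] T = 0 ∧ P = T + mu (isQ_bc hd hz N) Q := by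
  have hup : ∀ (σ : Gal N) (P : Pts (cq d) N),
      act (cq d) σ (up (cq d) N (AlgebraicClosure N) P) = up (cq d) N (AlgebraicClosure N) P := by
    intro σ P
    show Affine.Point.map _ (Affine.Point.map _ _) = _
    rw [Affine.Point.map_map]
    have hcomp : (σ : AlgebraicClosure N →ₐ[N] AlgebraicClosure N).comp
        (IsScalarTower.toAlgHom N N (AlgebraicClosure N)) =
        IsScalarTower.toAlgHom N N (AlgebraicClosure N) := AlgHom.ext fun x => σ.commutes x
    rw [hcomp]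
  obtain ⟨R₀, hR₀⟩ := exists_mu_closed (isQ_bc hd hz (AlgebraicClosure N))
    (up (cq d) N (AlgebraicClosure N) P)
  obtain ⟨R, hR, hc⟩ := hM (fun σ => act (cq d) σ R₀ - R₀)
    (Pool.Agent.Lib.MP_1a91b9_ntT.S9.cob_le_shaCoc (cq d) ⟨R₀, fun σ => rfl⟩) fun σ => by
      rw [_root_.map_sub, ← act_mu hd hz, hR₀, hup, sub_self]
  obtain ⟨Q, hQ⟩ := Pool.Agent.Lib.MP_1a91b9_ntT.S9.fixed_pt (L := N) (cq d) (R₀ - R) fun σ => by
    have h1 : Affine.Point.map ((σ : AlgebraicClosure N →ₐ[N] AlgebraicClosure N).restrictScalars N)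
        (R₀ - R) = act (cq d) σ (R₀ - R) := rfl
    rw [h1, _root_.map_sub]
    have h2 := hc σ
    have h3 : act (cq d) σ R₀ - act (cq d) σ R = (act (cq d) σ R₀ - R₀) -
      (act (cq d) σ R - R) + (R₀ - R) := by abel
    rw [h3, ← h2, sub_self, zero_add]
  have hinj : Function.Injective (up (cq d) N (AlgebraicClosure N)) := Affine.Point.map_injective _
  have hmuup : ∀ P : Pts (cq d) N, up (cq d) N (AlgebraicClosure N) (mu (isQ_bc hd hz N) P) =
      mu (isQ_bc hd hz (AlgebraicClosure N)) (up (cq d) N (AlgebraicClosure N) P) := fun P =>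
    mu_map hd hz (IsScalarTower.toAlgHom N N (AlgebraicClosure N)) P
  have hP : up (cq d) N (AlgebraicClosure N) P =
      mu (isQ_bc hd hz (AlgebraicClosure N)) R +
        up (cq d) N (AlgebraicClosure N) (mu (isQ_bc hd hz N) Q) := by
    rw [hmuup, hQ, _root_.map_sub, hR₀]
    abel
  rcases hR with hR | hR
  · refine ⟨0, Q, ?_, hinj ?_⟩
    · exact Function.iterate_fixed (_root_.map_zero _) _
    · rw [hP, hR, zero_add, zero_add]
  · refine ⟨P₀, Q, hP₀, hinj ?_⟩
    rw [hP, hR, _root_.map_add]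

omit hM in
private theorem desc_transportG {W₁ W₂ : Affine N} (e : W₁ = W₂) {z₁ z₂ d₁ d₂ : N} (ez : z₁ = z₂)
    (ed : d₁ = d₂) (h₁ : IsQ W₁ z₁ d₁) (h₂ : IsQ W₂ z₂ d₂)
    (h : ∀ P : W₁.Point, ∃ T Q : W₁.Point, (mu h₁)^[n] T = 0 ∧ P = T + mu h₁ Q) :
    ∀ P : W₂.Point, ∃ T Q : W₂.Point, (mu h₂)^[n] T = 0 ∧ P = T + mu h₂ Q := by
  subst e
  subst ez
  subst ed
  exact h

include hP₀ in
/-- **the descent**: every point is `T + (1 - i) Q` with `(1 - i)ⁿ T = 0` -/
theorem desc_ptsG {W : Affine N} (hW : IsQ W z d) (P : W.Point) :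
    ∃ T Q : W.Point, (mu hW)^[n] T = 0 ∧ P = T + mu hW Q := by
  have h0 := isQ_bc hd hz N
  refine desc_transportG (h0.eq.trans hW.eq.symm) rfl rfl h0 hW (desc_ptsG0 hd hz hM hP₀) P

theorem mu_classG (c : Gal N → Pts (cq d) (AlgebraicClosure N)) (hc : c ∈ shaCoc (cq d))
    (h2 : (fun σ => mu (isQ_bc hd hz (AlgebraicClosure N)) (c σ)) ∈ cob (cq d)) :
    c ∈ cob (cq d) := by
  obtain ⟨Q, hQ⟩ := h2
  obtain ⟨R, hR⟩ := exists_mu_closed (isQ_bc hd hz (AlgebraicClosure N)) Q
  have hd' : (fun σ : Gal N => act (cq d) σ R - R) ∈ cob (cq d) := ⟨R, fun σ => rfl⟩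
  have hc' : c - (fun σ : Gal N => act (cq d) σ R - R) ∈ cob (cq d) := by
    obtain ⟨R', _, h⟩ := hM _
      (sub_mem hc (Pool.Agent.Lib.MP_1a91b9_ntT.S9.cob_le_shaCoc (cq d) hd')) fun σ => by
        have h1 : mu (isQ_bc hd hz (AlgebraicClosure N)) (c σ) = act (cq d) σ Q - Q := hQ σ
        simp only [Pi.sub_apply]
        rw [_root_.map_sub, _root_.map_sub, h1, ← act_mu hd hz, hR, sub_self]
    exact ⟨R', h⟩
  have h5 := add_mem hc' hd'
  rwa [sub_add_cancel] at h5

theorem two_classG (c : Gal N → Pts (cq d) (AlgebraicClosure N)) (hc : c ∈ shaCoc (cq d))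
    (h3 : 2 • c ∈ cob (cq d)) : c ∈ cob (cq d) := by
  refine mu_classG hd hz hM c hc (mu_classG hd hz hM _ (mu_shaCoc hd hz c hc) ?_)
  obtain ⟨Q, hQ⟩ := h3
  refine ⟨-(omP (isQ_bc hd hz (AlgebraicClosure N)) Q), fun σ => ?_⟩
  have h1 : 2 • c σ = act (cq d) σ Q - Q := hQ σ
  show mu (isQ_bc hd hz (AlgebraicClosure N)) (mu (isQ_bc hd hz (AlgebraicClosure N)) (c σ)) =
    act (cq d) σ (-(omP (isQ_bc hd hz (AlgebraicClosure N)) Q)) -
      -(omP (isQ_bc hd hz (AlgebraicClosure N)) Q)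
  have h4 : act (cq d) σ (omP (isQ_bc hd hz (AlgebraicClosure N)) Q) =
      omP (isQ_bc hd hz (AlgebraicClosure N)) (act (cq d) σ Q) :=
    omP_map hd hz (σ : AlgebraicClosure N →ₐ[N] AlgebraicClosure N) Q
  rw [mu_mu, ← _root_.map_nsmul, h1, _root_.map_sub, _root_.map_neg, h4]
  abel

theorem sha_twoG (x : Sha (cq d)) (h : 2 • x = 0) : x = 0 := by
  have key : ∀ y : shaCoc (cq d) ⧸ (cob (cq d)).addSubgroupOf (shaCoc (cq d)),
      2 • y = 0 → y = 0 := by
    intro y hy
    obtain ⟨⟨c, hc⟩, rfl⟩ := QuotientAddGroup.mk_surjective y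
    rw [← QuotientAddGroup.mk_nsmul, QuotientAddGroup.eq_zero_iff,
      AddSubgroup.mem_addSubgroupOf] at hy
    rw [QuotientAddGroup.eq_zero_iff, AddSubgroup.mem_addSubgroupOf]
    exact two_classG hd hz hM c hc hy
  exact key x h

/-- The 2-primary part of the Tate-Shafarevich group is trivial. -/
theorem card_shaPG : Nat.card (ShaP 2 (cq d)) = 1 := by
  have key : ∀ n : ℕ, ∀ y : Sha (cq d), 2 ^ n • y = 0 → y = 0 := by
    intro n
    induction n with
    | zero =>
      intro y hy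
      simpa using hy
    | succ n ih =>
      intro y hy
      refine sha_twoG hd hz hM y (ih _ ?_)
      rw [← mul_nsmul', ← pow_succ]
      exact hy
  have h1 : ∀ x : AddCommGroup.primaryComponent (Sha (cq d)) 2, x = 0 := by
    rintro ⟨x, n, hn⟩
    exact Subtype.ext (key n x hn)
  exact Nat.card_eq_one_iff_unique.2
    ⟨⟨fun x y => (h1 x).trans (h1 y).symm⟩, ⟨(0 : AddCommGroup.primaryComponent (Sha (cq d)) 2)⟩⟩

end

section

variable {N : Type*} [Field N] [NumberField N] {W : Affine N} {z d : N}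

/-- **finitely many points** from the descent -/
theorem fin_of_descG (h : IsQ W z d) (n : ℕ)
    (hP : ∀ P : W.Point, ∃ T Q : W.Point, (mu h)^[n] T = 0 ∧ P = T + mu h Q) : Finite W.Point := by
  let H : AddSubgroup W.Point :=
    { carrier := {P | ∃ R : W.Point, (mu h)^[n] R = P}
      add_mem' := by
        rintro _ _ ⟨R, rfl⟩ ⟨S, rfl⟩
        exact ⟨R + S, iterate_map_add _ _ _ _⟩
      zero_mem' := ⟨0, iterate_map_zero _ _⟩
      neg_mem' := by
        rintro _ ⟨R, rfl⟩
        exact ⟨-R, iterate_map_neg _ _ _⟩ }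
  have h1 : Finite H := by
    refine finite_of_mu_div h H ?_
    rintro _ ⟨R, rfl⟩
    obtain ⟨T, Q, hT, rfl⟩ := hP R
    refine ⟨(mu h)^[n] Q, ⟨Q, rfl⟩, ?_⟩
    rw [iterate_map_add, hT, zero_add]
    exact (Function.iterate_succ_apply' _ _ _).symm.trans (Function.iterate_succ_apply _ _ _)
  have h2 : ∀ m : ℕ, {P | ∃ R : W.Point, (mu h)^[m] R = P}.Finite →
      (Set.univ : Set W.Point).Finite := by
    intro m
    induction m with
    | zero =>
      intro hf
      refine hf.subset fun P _ => ⟨P, rfl⟩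
    | succ m ih =>
      intro hf
      refine ih ((hf.preimage' (f := (mu h : W.Point → W.Point)) fun P _ => fibre_mu h P).subset ?_)
      rintro _ ⟨R, rfl⟩
      exact ⟨R, Function.iterate_succ_apply' _ _ _⟩
  exact Set.finite_univ_iff.1 (h2 n (Set.toFinite (H : Set W.Point)))

end

end

end Pool.Agent.Lib.MP_1a91b9_ntQ.C
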