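import Pool.Agent.Lib.MP_1a91b9_ntQ.C.Cfn

/-!
# Divisibility by `1 - i`

`Q = (x, y)`, `r² = x`, `r ≠ 0`: put `X = -z (x + y / r)`, `Y = (1 - z) r X`.
-/

set_option autoImplicit false

namespace Pool.Agent.Lib.MP_1a91b9_ntQ.C

open WeierstrassCurve
open scoped Classical

variable {F : Type*} [Field F] [CharZero F] {W : Affine F} {z d : F}

theorem exists_mu (h : IsQ W z d) {x y : F}
    (hn : W.Nonsingular x y) (r : F) (hr : r ^ 2 = x) (hr0 : r ≠ 0) :
    ∃ P : W.Point, mu h P = .some x y hn := by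
  have hz := h.hz
  have hz0 := h.z0
  have hc := (h.nons x y).1 hn
  obtain ⟨s, hs⟩ : ∃ s, s = y / r := ⟨_, rfl⟩
  have hsr : s * r = y := by rw [hs, div_mul_cancel₀ _ hr0]
  have hs2 : s ^ 2 = x ^ 2 - d := by
    have h3 : s ^ 2 * r ^ 2 = (x ^ 2 - d) * r ^ 2 := by
      rw [← mul_pow, hsr, hr]
      linear_combination hc
    exact mul_right_cancel₀ (pow_ne_zero 2 hr0) h3
  obtain ⟨X, hX⟩ : ∃ X, X = -z * (x + s) := ⟨_, rfl⟩
  obtain ⟨Y, hY⟩ : ∃ Y, Y = (1 - z) * r * X := ⟨_, rfl⟩
  have hX0 : X ≠ 0 := by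
    rw [hX]
    refine mul_ne_zero (neg_ne_zero.2 hz0) fun h0 => h.hd ?_
    linear_combination (x - s) * h0 + hs2
  have hXY : Y ^ 2 = X ^ 3 - d * X := by
    have e1 : X ^ 2 + 2 * z * x * X = d := by
      rw [hX]
      linear_combination (s ^ 2 - x ^ 2) * hz - hs2
    rw [hY, mul_pow, mul_pow, hr]
    linear_combination (X ^ 2 * x) * hz - X * e1
  have hns : W.Nonsingular X Y := (h.nons _ _).2 hXY
  refine ⟨.some X Y hns, ?_⟩
  obtain ⟨x', y', hn', e1, e2, e3⟩ := mu_some h hns hX0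
  have hm : (1 + z) * Y / (2 * X) = r := by
    rw [div_eq_iff (mul_ne_zero two_ne_zero hX0), hY]
    linear_combination (-r * X) * hz
  rw [hm] at e2 e3
  have ex : x' = x := by rw [e2, hr]
  have ey : y' = y := by
    rw [e3, hr, hY, hX, ← hsr]
    linear_combination (-r * (x + s)) * hz
  subst ex
  subst ey
  exact e1

theorem exists_mu_closed [IsAlgClosed F] (h : IsQ W z d) (Q : W.Point) :
    ∃ P : W.Point, mu h P = Q := by
  cases Q with
  | zero => exact ⟨0, map_zero _⟩
  | some x y hn =>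
    by_cases hx : x = 0
    · obtain ⟨r, hr⟩ := IsAlgClosed.exists_pow_nat_eq d (n := 2) (by norm_num)
      have hr0 : r ≠ 0 := by
        rintro rfl
        apply h.hd
        rw [← hr]
        ring
      have hns : W.Nonsingular r 0 := (h.nons _ _).2 (by
        rw [← hr]
        ring)
      refine ⟨.some r 0 hns, ?_⟩
      obtain ⟨x', y', hn', e1, e2, e3⟩ := mu_some h hns hr0
      have ex : x' = x := by
        rw [e2, hx, mul_zero, zero_div]
        ring
      subst ex
      subst hx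
      have ey : y' = y := by rw [y_zero h hn', y_zero h hn]
      subst ey
      exact e1
    · obtain ⟨r, hr⟩ := IsAlgClosed.exists_pow_nat_eq x (n := 2) (by norm_num)
      refine exists_mu h hn r hr ?_
      rintro rfl
      apply hx
      rw [← hr]
      ring

end Pool.Agent.Lib.MP_1a91b9_ntQ.C
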