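import Mathlib

/-!
# Heights for the map `t ↦ z (t² - d) / (2 t)`

Forms `F₀ = z (X² - d Z²)`, `F₁ = 2 X Z`, identities with linear coefficients:
`X³ = (1 / z) X F₀ + (d / 2) Z F₁`, `Z³ = - (1 / (z d)) Z F₀ + (1 / (2 d)) X F₁`.
-/

set_option autoImplicit false

namespace Pool.Agent.Lib.MP_1a91b9_ntQ.C

open NumberField

section Heights_aux

open MvPolynomial

variable {N : Type*} [Field N] [NumberField N]

/-- the linear coefficients -/
private noncomputable def Ht_q (z d : N) (a : Fin 2 × Fin 2) : MvPolynomial (Fin 2) N :=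
  (![![C (1 / z) * X 0, C (d / 2) * X 1],
    ![C (-(1 / (z * d))) * X 1, C (1 / (2 * d)) * X 0]] :
      Fin 2 → Fin 2 → MvPolynomial (Fin 2) N) a.1 a.2

omit [NumberField N] in
private theorem Ht_q_hom (z d : N) (a : Fin 2 × Fin 2) :
    (Ht_q (N := N) z d a).IsHomogeneous 1 := by
  obtain ⟨i, j⟩ := a
  fin_cases i <;> fin_cases j
  · exact (isHomogeneous_X N 0).C_mul _
  · exact (isHomogeneous_X N 1).C_mul _
  · exact (isHomogeneous_X N 1).C_mul _
  · exact (isHomogeneous_X N 0).C_mul _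

end Heights_aux

theorem height_two {N : Type*} [Field N] [NumberField N] (z d : N) (hz : z ≠ 0) (hd : d ≠ 0) :
    ∃ C₁ : ℝ, ∀ t : N, t ≠ 0 →
      C₁ + 2 * Height.logHeight₁ t ≤ Height.logHeight₁ (z * (t ^ 2 - d) / (2 * t)) := by
  obtain ⟨C₁, hC⟩ := Height.logHeight_eval_ge' (K := N) (M := 1) (N := 2) (Ht_q_hom (N := N) z d)
  refine ⟨C₁, fun t _ => ?_⟩
  have h1 := hC (fun j => MvPolynomial.C ((![z * (t ^ 2 - d), 2 * t] : Fin 2 → N) j))
    (x := ![t, 1]) (by
    intro k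
    fin_cases k
    · simp [Ht_q, Fin.sum_univ_two]
      field_simp
      ring
    · simp [Ht_q, Fin.sum_univ_two]
      field_simp
      ring)
  rw [Height.logHeight₁_div_eq_logHeight, Height.logHeight₁_eq_logHeight]
  have h2 : (fun j => (MvPolynomial.C ((![z * (t ^ 2 - d), 2 * t] : Fin 2 → N) j) :
      MvPolynomial (Fin 2) N).eval ![t, 1]) = ![z * (t ^ 2 - d), 2 * t] := by
    funext j
    rw [MvPolynomial.eval_C]
  rw [h2] at h1
  exact_mod_cast h1

theorem finite_of_two {N : Type*} [Field N] [NumberField N] (z d : N) (hz : z ≠ 0) (hd : d ≠ 0)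
    (S : Set N) (h : ∀ x ∈ S, ∃ t ∈ S, t ≠ 0 ∧ x = z * (t ^ 2 - d) / (2 * t)) : S.Finite := by
  obtain ⟨C₁, hC⟩ := height_two z d hz hd
  choose g₀ hg₀ hne hfg using h
  set g : S → S := fun x => ⟨g₀ x.1 x.2, hg₀ x.1 x.2⟩ with hg
  have hinj : Function.Injective g := by
    intro x y hxy
    have h1 : g₀ x.1 x.2 = g₀ y.1 y.2 := congrArg Subtype.val hxy
    apply Subtype.ext
    rw [hfg x.1 x.2, hfg y.1 y.2, h1]
  have hh : ∀ x : S, Height.logHeight₁ (g x).1 ≤ (Height.logHeight₁ x.1 + |C₁|) / 2 := by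
    intro x
    have h1 := hC (g x).1 (hne x.1 x.2)
    have h2 : z * ((g x).1 ^ 2 - d) / (2 * (g x).1) = x.1 := (hfg x.1 x.2).symm
    rw [h2] at h1
    have h3 := neg_abs_le C₁
    linarith
  have hit : ∀ (n : ℕ) (x : S), Height.logHeight₁ (g^[n] x).1 ≤
      Height.logHeight₁ x.1 / 2 ^ n + |C₁| := by
    intro n
    induction n with
    | zero =>
      intro x
      have h1 := abs_nonneg C₁
      simp only [Function.iterate_zero, id_eq, pow_zero, div_one]
      linarith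
    | succ n ih =>
      intro x
      rw [Function.iterate_succ_apply', pow_succ]
      have h1 := hh (g^[n] x)
      have h2 := ih x
      have h3 : Height.logHeight₁ x.1 / (2 ^ n * 2) = Height.logHeight₁ x.1 / 2 ^ n / 2 := by
        rw [div_div]
      rw [h3]
      linarith
  have hT : {x : N | Height.logHeight₁ x ≤ |C₁| + 1}.Finite :=
    NumberField.finite_setOfPred_logHeight₁_le N _
  refine hT.subset fun x hx => ?_
  obtain ⟨n₀, hn₀⟩ : ∃ n₀ : ℕ, ∀ n ≥ n₀, Height.logHeight₁ (g^[n] ⟨x, hx⟩).1 ≤ |C₁| + 1 := by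
    obtain ⟨n₀, h1⟩ := pow_unbounded_of_one_lt (Height.logHeight₁ x) (by norm_num : (1 : ℝ) < 2)
    refine ⟨n₀, fun n hn => ?_⟩
    have h2 := hit n ⟨x, hx⟩
    have h3 : (2 : ℝ) ^ n₀ ≤ 2 ^ n := pow_le_pow_right₀ (by norm_num) hn
    have h4 : Height.logHeight₁ x / 2 ^ n ≤ 1 := by
      rw [div_le_one (by positivity)]
      linarith
    have h5 : Height.logHeight₁ (⟨x, hx⟩ : S).1 / 2 ^ n ≤ 1 := h4
    linarith
  have hni : ¬ Function.Injective (fun n : ℕ => (⟨(g^[n₀ + n] ⟨x, hx⟩).1,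
      hn₀ _ (Nat.le_add_right _ _)⟩ : {x : N | Height.logHeight₁ x ≤ |C₁| + 1})) := by
    have := hT.to_subtype
    exact not_injective_infinite_finite _
  rw [Function.Injective] at hni
  push Not at hni
  obtain ⟨a, b, hab, hne'⟩ := hni
  wlog hlt : a < b generalizing a b
  · exact this b a hab.symm hne'.symm (lt_of_le_of_ne (not_lt.mp hlt) hne'.symm)
  have h1 : g^[n₀ + a] ⟨x, hx⟩ = g^[n₀ + b] ⟨x, hx⟩ := Subtype.ext (Subtype.mk.inj hab)
  have h2 : g^[b - a] ⟨x, hx⟩ = ⟨x, hx⟩ := by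
    have h3 : n₀ + b = n₀ + a + (b - a) := by omega
    rw [h3, Function.iterate_add_apply g (n₀ + a) (b - a)] at h1
    exact (hinj.iterate _ h1).symm
  have h4 : g^[n₀ * (b - a)] ⟨x, hx⟩ = ⟨x, hx⟩ := by
    rw [mul_comm, Function.iterate_mul]
    exact Function.iterate_fixed h2 n₀
  have h5 := hn₀ (n₀ * (b - a)) (Nat.le_mul_of_pos_right _ (by omega))
  rw [h4] at h5
  exact h5

end Pool.Agent.Lib.MP_1a91b9_ntQ.C
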