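import Pool.Agent.Lib.MP_1a91b9_ntQ.C.Cfn
import Pool.Agent.Lib.MP_1a91b9_ntQ.C.Ht

/-!
# If every point is `(1 - i) Q` up to the kernel of `1 - i`, then there are finitely many points
-/

set_option autoImplicit false

namespace Pool.Agent.Lib.MP_1a91b9_ntQ.C

open WeierstrassCurve
open scoped Classical

variable {N : Type*} [Field N] [NumberField N] {W : Affine N} {z d : N}

/-- the abscissa -/
private def FK_x : W.Point → Option N
  | .zero => none
  | .some x _ _ => some x

omit [NumberField N] in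
private theorem FK_fiber (o : Option N) : ((FK_x : W.Point → Option N) ⁻¹' {o}).Finite := by
  rcases Set.eq_empty_or_nonempty ((FK_x : W.Point → Option N) ⁻¹' {o}) with h | h
  · rw [h]
    exact Set.finite_empty
  · obtain ⟨P₀, hP₀⟩ := h
    refine (Set.toFinite {P₀, -P₀}).subset fun P hP => ?_
    have he : FK_x P = FK_x P₀ := hP.trans hP₀.symm
    rcases P with _ | ⟨x, y, hxy⟩
    · rcases P₀ with _ | ⟨x₀, y₀, h₀⟩
      · exact Or.inl rfl
      · simp [FK_x] at he
    · rcases P₀ with _ | ⟨x₀, y₀, h₀⟩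
      · simp [FK_x] at he
      · have hx : x = x₀ := by simpa [FK_x] using he
        exact (Affine.Point.X_eq_iff (h₁ := hxy) (h₂ := h₀)).1 hx

/-- A subgroup on which `1 - i` is surjective is finite. -/
theorem finite_of_mu_div (h : IsQ W z d) (H : AddSubgroup W.Point)
    (hH : ∀ P ∈ H, ∃ Q ∈ H, mu h Q = P) : Finite H := by
  have hS : {x : N | ∃ (y : N) (hn : W.Nonsingular x y), Affine.Point.some x y hn ∈ H}.Finite := by
    refine finite_of_two z d h.z0 h.hd _ ?_
    rintro x ⟨y, hn, hP⟩
    obtain ⟨Q, hQ, hQP⟩ := hH _ hP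
    obtain ⟨t, s, hts, rfl, ht⟩ := mu_ne_cases h Q (by
      rw [hQP]
      exact Affine.Point.some_ne_zero _)
    refine ⟨t, ⟨s, hts, hQ⟩, ht, ?_⟩
    obtain ⟨x', y', hn', hmu, hx'⟩ := mu_x h hts ht
    rw [hmu] at hQP
    rw [← (Affine.Point.some.inj hQP).1, hx']
  have h2 : (insert none (Option.some '' {x : N | ∃ (y : N) (hn : W.Nonsingular x y),
      Affine.Point.some x y hn ∈ H})).Finite := (hS.image _).insert _
  refine ((h2.preimage' (f := (FK_x : W.Point → Option N)) (fun o _ => FK_fiber o)).subset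
    fun P hP => ?_).to_subtype
  rcases P with _ | ⟨x, y, hxy⟩
  · exact Set.mem_insert _ _
  · exact Set.mem_insert_of_mem _ ⟨x, ⟨y, hxy, hP⟩, rfl⟩

omit [NumberField N] in
private theorem FK_div [CharZero N] (h : IsQ W z d)
    (hP : ∀ P : W.Point, ∃ T Q : W.Point, mu h T = 0 ∧ P = T + mu h Q) (P : W.Point)
    (hPr : P ∈ (mu h).range) : ∃ Q ∈ (mu h).range, mu h Q = P := by
  obtain ⟨R, rfl⟩ := hPr
  obtain ⟨T, Q, hT, hR⟩ := hP R
  exact ⟨mu h Q, ⟨Q, rfl⟩, by rw [hR, map_add, hT, zero_add]⟩

omit [NumberField N] in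
private theorem FK_ker [CharZero N] (h : IsQ W z d) : Nat.card (mu h).ker = 2 := by
  have hs : ((mu h).ker : Set W.Point) = {0, tq h} := by
    ext P
    simp only [SetLike.mem_coe, AddMonoidHom.mem_ker, Set.mem_insert_iff, Set.mem_singleton_iff]
    constructor
    · exact mu_ker_all h P
    · rintro (rfl | rfl)
      · exact map_zero _
      · exact mu_tq h
  have h1 : Nat.card (mu h).ker = ((mu h).ker : Set W.Point).ncard := rfl
  rw [h1, hs, Set.ncard_pair (tq_ne h).symm]

/-- If every point is `(1 - i) Q` up to the kernel, then there are only finitely many points. -/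
theorem fin_of_desc (h : IsQ W z d)
    (hP : ∀ P : W.Point, ∃ T Q : W.Point, mu h T = 0 ∧ P = T + mu h Q) : Finite W.Point := by
  have h1 : Finite (mu h).range := finite_of_mu_div h _ (FK_div h hP)
  have h2 : Finite (mu h).ker := Nat.finite_of_card_ne_zero (by rw [FK_ker h]; norm_num)
  have h3 : Finite (W.Point ⧸ (mu h).ker) :=
    Finite.of_equiv _ (QuotientAddGroup.quotientKerEquivRange (mu h)).symm.toEquiv
  exact Finite.of_equiv _ (AddSubgroup.addGroupEquivQuotientProdAddSubgroup
    (s := (mu h).ker)).symm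

/-- The number of the points is two times an odd number. -/
theorem card_of_desc (h : IsQ W z d)
    (hP : ∀ P : W.Point, ∃ T Q : W.Point, mu h T = 0 ∧ P = T + mu h Q) :
    ∃ m : ℕ, Odd m ∧ Nat.card W.Point = 2 * m := by
  have h1 : Finite (mu h).range := finite_of_mu_div h _ (FK_div h hP)
  refine ⟨Nat.card (mu h).range, Nat.not_even_iff_odd.1 fun h3 => ?_, ?_⟩
  · -- `mu` is injective on its range
    let f : (mu h).range → (mu h).range := fun P => ⟨mu h P.1, ⟨P.1, rfl⟩⟩
    have hsurj : Function.Surjective f := by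
      intro P
      obtain ⟨Q, hQ, hQP⟩ := FK_div h hP P.1 P.2
      exact ⟨⟨Q, hQ⟩, Subtype.ext hQP⟩
    have hinj : Function.Injective f := Finite.injective_iff_surjective.2 hsurj
    have h0 : ∀ P : (mu h).range, mu h P.1 = 0 → P = 0 := by
      intro P hP0
      apply hinj
      apply Subtype.ext
      change mu h P.1 = mu h (0 : W.Point)
      rw [hP0, map_zero]
    have : Fact (Nat.Prime 2) := ⟨by norm_num⟩
    obtain ⟨P, hPo⟩ := exists_prime_addOrderOf_dvd_card' 2 (even_iff_two_dvd.1 h3)
    have hP3 : 2 • P = 0 := by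
      rw [← hPo]
      exact addOrderOf_nsmul_eq_zero P
    have hP3' : 2 • (P : W.Point) = 0 := by
      have := congrArg Subtype.val hP3
      simpa using this
    have h4 : mu h (mu h P.1) = 0 := by
      rw [mu_mu, ← map_nsmul, hP3', map_zero, neg_zero]
    have h5 : (⟨mu h P.1, ⟨P.1, rfl⟩⟩ : (mu h).range) = 0 := h0 _ h4
    have h6 : mu h P.1 = 0 := congrArg Subtype.val h5
    have h7 : P = 0 := h0 P h6
    rw [h7, addOrderOf_zero] at hPo
    norm_num at hPo
  · rw [AddSubgroup.card_eq_card_quotient_mul_card_addSubgroup (mu h).ker, FK_ker h, mul_comm,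
      Nat.card_congr (QuotientAddGroup.quotientKerEquivRange (mu h)).toEquiv]

end Pool.Agent.Lib.MP_1a91b9_ntQ.C
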