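import Pool.Agent.Lib.MP_1a91b9_ntQ.C.Coc
import Pool.Agent.Lib.MP_1a91b9_ntQ.C.Fin

/-!
# The points and the Tate-Shafarevich group of `y² = x³ - d x` from the Selmer elements
-/

set_option autoImplicit false

namespace Pool.Agent.Lib.MP_1a91b9_ntQ.C

open WeierstrassCurve NumberField IsDedekindDomain
open Pool.Agent.Lib.MP_1a91b9_ntT3.S9 (ShaP)
open scoped Classical

variable {N : Type*} [Field N] [NumberField N] {d z : N}

/-- `W : y² = x³ - d x` over a number field which contains `z`, `z² = -1`. If the Selmer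
elements are the classes of the points in the kernel of `1 - i`, then `W(N)` is finite, its order is
`2 m` with `m` odd, and the 2-primary part of the Tate-Shafarevich group is trivial. -/
theorem of_selCl4 (hd : d ≠ 0) (hz : z ^ 2 = -1) (hS : SelCl4 d) {W : WeierstrassCurve N}
    (hW : W = cq d) :
    Finite W.toAffine.Point ∧ (∃ m : ℕ, Odd m ∧ Nat.card W.toAffine.Point = 2 * m) ∧
      Nat.card (ShaP 2 W) = 1 := by
  subst hW
  have h : IsQ (cq d).toAffine z d := ⟨rfl, hz, hd⟩
  exact ⟨fin_of_desc h (desc_pts hd hz hS h), card_of_desc h (desc_pts hd hz hS h),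
    card_shaP hd hz hS⟩

end Pool.Agent.Lib.MP_1a91b9_ntQ.C
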