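import Pool.Agent.Lib.MP_1a91b9_ntT.S9.MB
import Pool.Agent.Lib.MP_1a91b9_ntT3.S9.Kum
import Pool.Agent.Lib.MP_1a91b9_ntQ.C.Bc
import Pool.Agent.Lib.MP_1a91b9_ntQ.C.Em

/-!
# Kummer data of a cocycle with values in the kernel of `1 - i`
-/

set_option autoImplicit false

namespace Pool.Agent.Lib.MP_1a91b9_ntQ.C

open WeierstrassCurve
open Pool.Agent.Lib.MP_1a91b9_ntT.S9 (Pts Gal coc cob trivOver shaCoc Sha up)
open scoped Classical

/-- The action of an automorphism on the points over the algebraic closure. -/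
noncomputable abbrev act {k : Type*} [Field k] (W : WeierstrassCurve k) (σ : Gal k) :
    Pts W (AlgebraicClosure k) →+ Pts W (AlgebraicClosure k) :=
  Affine.Point.map (W' := W) (σ : AlgebraicClosure k →ₐ[k] AlgebraicClosure k)

section

variable {k : Type*} [Field k] [CharZero k] {z d : k} (hd : d ≠ 0) (hz : z ^ 2 = -1)

/-- Kummer data: `b ^ 2 = a` and `σ b = ch (c σ) b`. -/
structure KD (c : Gal k → Pts (cq d) (AlgebraicClosure k)) (a : k) (b : AlgebraicClosure k) :
    Prop where
  ne : b ≠ 0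
  sq : algebraMap k (AlgebraicClosure k) a = b ^ 2
  act : ∀ σ : Gal k, σ b = ch (AlgebraicClosure k) (c σ) * b

theorem act_mu (σ : Gal k) (P : Pts (cq d) (AlgebraicClosure k)) :
    act (cq d) σ (mu (isQ_bc hd hz (AlgebraicClosure k)) P) =
      mu (isQ_bc hd hz (AlgebraicClosure k)) (act (cq d) σ P) :=
  mu_map hd hz _ P

theorem act_ker (σ : Gal k) (P : Pts (cq d) (AlgebraicClosure k))
    (hP : mu (isQ_bc hd hz (AlgebraicClosure k)) P = 0) : act (cq d) σ P = P := by
  rcases mu_ker_all _ P hP with h | h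
  · rw [h, map_zero]
  · rw [h, tq_map hd hz]

theorem exists_kd (c : Gal k → Pts (cq d) (AlgebraicClosure k)) (hc : c ∈ coc (cq d))
    (hmu : ∀ σ, mu (isQ_bc hd hz (AlgebraicClosure k)) (c σ) = 0) : ∃ a b, KD (d := d) c a b := by
  set h := isQ_bc hd hz (AlgebraicClosure k) with hh
  obtain ⟨M0, hM0, hM⟩ := Pool.Agent.Lib.MP_1a91b9_ntT.S9.exists_open (cq d) c hc
  have hch : ∀ σ, algebraMap k (AlgebraicClosure k) (ch k (c σ)) = ch (AlgebraicClosure k) (c σ) :=
    fun σ => (ch_alg (c σ)).symm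
  obtain ⟨b', hb0, hb⟩ := Pool.Agent.Lib.MP_1a91b9_ntT3.S9.kummer_gen (k := k)
    (Ω := AlgebraicClosure k) (fun σ => ch k (c σ)) (by
      intro σ h0
      exact ch_ne (F' := k) (c σ) h0) (by
      intro σ τ
      have h1 : c (σ * τ) = c σ + act (cq d) σ (c τ) := hc.2 σ τ
      show ch k (c (σ * τ)) = ch k (c σ) * ch k (c τ)
      rw [h1, act_ker hd hz σ (c τ) (hmu τ), ch_add h _ _ (hmu _) (hmu _)])
      M0 (by
      intro σ hσ
      show ch k (c σ) = 1
      rw [hM σ hσ, ch_zero])
  have hact : ∀ σ : Gal k, σ b' = ch (AlgebraicClosure k) (c σ) * b' := by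
    intro σ
    rw [hb σ, hch]
  obtain ⟨a, ha⟩ := Pool.Agent.Lib.MP_1a91b9_ntT.S9.fixed_elem (b' ^ 2) (by
    intro σ
    rw [map_pow, hact σ, mul_pow, ch_sq, one_mul])
  exact ⟨a, b', hb0, ha, hact⟩

end

/-- The local condition over an extension `L` of `k` for an element `a` of `k`. -/
def LocAt {k : Type*} [Field k] (d a : k) (L : Type*) [Field L] [Algebra k L] : Prop :=
  (∃ β : L, β ^ 2 = algebraMap k L a) ∨ (∃ β : L, β ^ 2 = algebraMap k L (a * d)) ∨
    (∃ x β : L, x ^ 2 = algebraMap k L d ∧ β ^ 2 = algebraMap k L a * x) ∨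
    ∃ x y β : L, y ^ 2 = x ^ 3 - algebraMap k L d * x ∧ x ≠ 0 ∧ y ≠ 0 ∧
      β ^ 2 = algebraMap k L a * x

section

variable {k : Type*} [Field k] [CharZero k] {z d : k} (hd : d ≠ 0) (hz : z ^ 2 = -1)

/-- JOB Tr. -/
theorem transfer {L : Type*} [Field L] [CharZero L] [Algebra k L]
    (c : Gal k → Pts (cq d) (AlgebraicClosure k)) (hc : c ∈ trivOver (cq d) L)
    (hmu : ∀ σ, mu (isQ_bc hd hz (AlgebraicClosure k)) (c σ) = 0)
    (ι : AlgebraicClosure k →ₐ[k] AlgebraicClosure L) :
    ∃ (P : Pts (cq d) (AlgebraicClosure L)) (Q : Pts (cq d) L),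
      mu (isQ_bc hd hz (AlgebraicClosure L)) P = up (cq d) L (AlgebraicClosure L) Q ∧
      ∀ (σ : Gal L) (τ : Gal k), (∀ x, ι (τ x) = σ (ι x)) →
        Affine.Point.map ι (c τ) =
          Affine.Point.map ((σ : AlgebraicClosure L →ₐ[L] _).restrictScalars k) P - P := by
  obtain ⟨P, hP⟩ := hc ι
  have key : ∀ σ' : Gal L, Affine.Point.map ((σ' : AlgebraicClosure L →ₐ[L] _).restrictScalars k)
      (mu (isQ_bc hd hz (AlgebraicClosure L)) P) = mu (isQ_bc hd hz (AlgebraicClosure L)) P := by
    intro σ'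
    obtain ⟨τ, hτ⟩ := Pool.Agent.Lib.MP_1a91b9_ntT.S9.exists_comp ι
      (((σ' : AlgebraicClosure L →ₐ[L] _).restrictScalars k).comp ι)
    have h1 := hP σ' τ (fun x => (hτ x).symm)
    have h3 : mu (isQ_bc hd hz (AlgebraicClosure L)) (Affine.Point.map ι (c τ)) = 0 := by
      rw [← mu_map hd hz, hmu, _root_.map_zero]
    rw [h1, _root_.map_sub, sub_eq_zero] at h3
    rw [mu_map hd hz]
    exact h3
  obtain ⟨Q, hQ⟩ := Pool.Agent.Lib.MP_1a91b9_ntT.S9.fixed_pt (cq d)
    (mu (isQ_bc hd hz (AlgebraicClosure L)) P) key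
  exact ⟨P, Q, hQ.symm, hP⟩

theorem kd_loc (c : Gal k → Pts (cq d) (AlgebraicClosure k))
    (hmu : ∀ σ, mu (isQ_bc hd hz (AlgebraicClosure k)) (c σ) = 0) (a : k)
    (b : AlgebraicClosure k) (hk : KD c a b) {L : Type*} [Field L] [CharZero L] [Algebra k L]
    (hc : c ∈ trivOver (cq d) L) : LocAt d a L := by
  obtain ⟨j⟩ : Nonempty (AlgebraicClosure k →ₐ[k] AlgebraicClosure L) := ⟨IsAlgClosed.lift⟩
  obtain ⟨P, Q, hPQ, hP⟩ := transfer hd hz c hc hmu j
  have hja : ∀ x : k, j (algebraMap k (AlgebraicClosure k) x) =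
      algebraMap L (AlgebraicClosure L) (algebraMap k L x) := by
    intro x
    rw [j.commutes, ← IsScalarTower.algebraMap_apply]
  have htau : ∀ σ : Gal L, ∃ τ : Gal k, ∀ x, j (τ x) = σ (j x) := by
    intro σ
    obtain ⟨τ, hτ⟩ := Pool.Agent.Lib.MP_1a91b9_ntT.S9.exists_comp j
      ((((σ : AlgebraicClosure L →ₐ[L] AlgebraicClosure L)).restrictScalars k).comp j)
    exact ⟨τ, fun x => (hτ x).symm⟩
  set hA := isQ_bc hd hz (AlgebraicClosure L) with hAdef
  have hjb : j b ^ 2 = algebraMap L (AlgebraicClosure L) (algebraMap k L a) := by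
    rw [← map_pow, ← hk.sq, hja]
  -- the Galois action on `P` and on `b`
  have hS : ∀ (σ : Gal L), ∃ R : Pts (cq d) (AlgebraicClosure L), mu hA R = 0 ∧
      Affine.Point.map (W' := cq d)
        ((σ : AlgebraicClosure L →ₐ[L] AlgebraicClosure L).restrictScalars k) P = P + R ∧
      σ (j b) = ch (AlgebraicClosure L) R * j b := by
    intro σ
    obtain ⟨τ, hτ⟩ := htau σ
    refine ⟨Affine.Point.map j (c τ), ?_, ?_, ?_⟩
    · rw [hAdef, ← mu_map hd hz, hmu, map_zero]
    · rw [hP σ τ hτ]
      abel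
    · rw [← hτ, hk.act τ, map_mul, ch_map]
      congr 1
      rcases ch_cases (F' := AlgebraicClosure k) (c τ) with h1 | h1
      · have h2 : c τ = 0 := by
          by_contra h3
          unfold ch at h1
          rw [if_neg h3] at h1
          exact two_ne_zero (α := AlgebraicClosure k) (by linear_combination -h1)
        rw [h1, h2, ch_zero, map_one]
      · have h2 : c τ ≠ 0 := by
          intro h3
          rw [h3, ch_zero] at h1
          exact two_ne_zero (α := AlgebraicClosure k) (by linear_combination h1)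
        rw [h1, map_neg, map_one]
        unfold ch
        rw [if_neg h2]
  have hcfn : ∀ (σ : Gal L), σ (cfn (algebraMap k (AlgebraicClosure L) z) P) =
      cfn (algebraMap k (AlgebraicClosure L) z) (Affine.Point.map (W' := cq d)
        ((σ : AlgebraicClosure L →ₐ[L] AlgebraicClosure L).restrictScalars k) P) := by
    intro σ
    exact (cfn_map ((σ : AlgebraicClosure L →ₐ[L] AlgebraicClosure L).restrictScalars k) P).symm
  have hdd : algebraMap k (AlgebraicClosure L) d =
      algebraMap L (AlgebraicClosure L) (algebraMap k L d) := IsScalarTower.algebraMap_apply _ _ _ _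
  cases Q with
  | zero =>
    left
    have hP0 : mu hA P = 0 := hPQ
    obtain ⟨β, hβ⟩ := Pool.Agent.Lib.MP_1a91b9_ntT.S9.fixed_elem (k := L) (j b) (by
      intro σ
      obtain ⟨R, hR0, hR, hb⟩ := hS σ
      have h1 : Affine.Point.map (W' := cq d)
          ((σ : AlgebraicClosure L →ₐ[L] AlgebraicClosure L).restrictScalars k) P = P := by
        rcases mu_ker_all _ P hP0 with h | h
        · rw [h, map_zero]
        · rw [h, hAdef, tq_map hd hz]
      have h2 : R = 0 := by
        rw [h1] at hR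
        exact (add_eq_left.1 hR.symm)
      rw [hb, h2, ch_zero, one_mul])
    refine ⟨β, ?_⟩
    apply (algebraMap L (AlgebraicClosure L)).injective
    rw [map_pow, hβ, hjb]
  | some x y h =>
    obtain ⟨hn2, hUV⟩ : ∃ hn2, up (cq d) L (AlgebraicClosure L) (Affine.Point.some x y h) =
      Affine.Point.some (algebraMap L (AlgebraicClosure L) x)
        (algebraMap L (AlgebraicClosure L) y) hn2 := ⟨_, rfl⟩
    rw [hUV] at hPQ
    have hne : mu hA P ≠ 0 := by
      rw [hPQ]
      exact Affine.Point.some_ne_zero _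
    have heq : y ^ 2 = x ^ 3 - algebraMap k L d * x := ((isQ_bc hd hz L).nons x y).1 h
    have hfix : ∀ σ : Gal L, σ (j b * cfn (algebraMap k (AlgebraicClosure L) z) P) =
        j b * cfn (algebraMap k (AlgebraicClosure L) z) P := by
      intro σ
      obtain ⟨R, hR0, hR, hb⟩ := hS σ
      rw [map_mul, hcfn, hR, cfn_add hA P R hne hR0, hb]
      linear_combination (j b * cfn (algebraMap k (AlgebraicClosure L) z) P) *
        ch_sq (F' := AlgebraicClosure L) R
    obtain ⟨β, hβ⟩ := Pool.Agent.Lib.MP_1a91b9_ntT.S9.fixed_elem _ hfix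
    have hβ2 : β ^ 2 = algebraMap k L a * x := by
      apply (algebraMap L (AlgebraicClosure L)).injective
      rw [map_pow, hβ, mul_pow, hjb, cfn_sq hA P hn2 hPQ, map_mul]
    by_cases hx : x = 0
    · -- `P = sqrt d`
      right; left
      obtain ⟨X, Y, hXY, rfl, hX⟩ := mu_ne_cases hA P hne
      obtain ⟨x', y', hn', hmu, hx'⟩ := mu_x hA hXY hX
      rw [hPQ] at hmu
      have hx0 : x' = 0 := by
        rw [← (Affine.Point.some.inj hmu).1, hx, map_zero]
      have hXd : X ^ 2 = algebraMap k (AlgebraicClosure L) d := by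
        rw [hx0, eq_comm, div_eq_zero_iff] at hx'
        rcases hx' with h1 | h1
        · exact sub_eq_zero.1 ((mul_eq_zero.1 h1).resolve_left hA.z0)
        · exact absurd h1 (mul_ne_zero two_ne_zero hX)
      have hY0 : Y = 0 := by
        have h1 := (hA.nons X Y).1 hXY
        refine (pow_eq_zero_iff two_ne_zero).1 ?_
        linear_combination h1 + X * hXd
      subst hY0
      -- `sigma X = ch R X`
      have hfix' : ∀ σ : Gal L, σ (j b * X) = j b * X := by
        intro σ
        obtain ⟨R, hR0, hR, hb⟩ := hS σ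
        have h1 : Affine.Point.map (W' := cq d)
          ((σ : AlgebraicClosure L →ₐ[L] AlgebraicClosure L).restrictScalars k)
            (Affine.Point.some X 0 hXY) = Affine.Point.some (σ X) (σ 0) (by
              exact (Affine.baseChange_nonsingular (cq d)
                ((σ : AlgebraicClosure L →ₐ[L] AlgebraicClosure L).restrictScalars k).injective
                  X 0).2 hXY) := rfl
        rw [h1] at hR
        rcases mu_ker_all hA R hR0 with h2 | h2
        · rw [h2, add_zero] at hR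
          have h3 := (Affine.Point.some.inj hR).1
          rw [map_mul, hb, h2, ch_zero, h3, one_mul]
        · obtain ⟨hn3, h4⟩ := add_tq hA hXY hX
          rw [h2, h4] at hR
          have h3 := (Affine.Point.some.inj hR).1
          have h5 : -algebraMap k (AlgebraicClosure L) d / X = -X := by
            rw [← hXd]
            field_simp
          rw [map_mul, hb, h2, ch_tq hA, h3, h5]
          ring
      obtain ⟨γ, hγ⟩ := Pool.Agent.Lib.MP_1a91b9_ntT.S9.fixed_elem _ hfix'
      refine ⟨γ, ?_⟩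
      apply (algebraMap L (AlgebraicClosure L)).injective
      rw [map_pow, hγ, mul_pow, hjb, hXd, map_mul, map_mul, hdd]
    · by_cases hy : y = 0
      · right; right; left
        refine ⟨x, β, ?_, hβ2⟩
        rw [hy] at heq
        have h1 : x * (x ^ 2 - algebraMap k L d) = 0 := by linear_combination -heq
        exact sub_eq_zero.1 ((mul_eq_zero.1 h1).resolve_left hx)
      · exact Or.inr (Or.inr (Or.inr ⟨x, y, β, heq, hx, hy, hβ2⟩))

/-- the square roots of a square -/
theorem sq_root_fixed {r : k} {x : AlgebraicClosure k}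
    (h : x ^ 2 = algebraMap k (AlgebraicClosure k) r ^ 2) (σ : Gal k) : σ x = x := by
  rcases sq_eq_sq_iff_eq_or_eq_neg.1 h with h1 | h1
  · rw [h1, AlgEquiv.commutes]
  · rw [h1, map_neg, AlgEquiv.commutes]

theorem ch_eq_one {F' : Type*} [Field F'] [CharZero F'] {F : Type*} [Field F] {W : Affine F}
    (P : W.Point) (h : ch F' P = 1) : P = 0 := by
  by_contra h3
  unfold ch at h
  rw [if_neg h3] at h
  exact two_ne_zero (α := F') (by linear_combination -h)

theorem kd_zero (c : Gal k → Pts (cq d) (AlgebraicClosure k)) (a : k)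
    (b : AlgebraicClosure k) (hk : KD c a b) (ha : IsSquare a) (σ : Gal k) : c σ = 0 := by
  obtain ⟨r, hr⟩ := ha
  have h1 : σ b = b := sq_root_fixed (r := r) (by rw [← hk.sq, hr, map_mul, sq]) σ
  have h2 := hk.act σ
  rw [h1] at h2
  have h3 : ch (AlgebraicClosure k) (c σ) = 1 := (mul_eq_right₀ hk.ne).1 h2.symm
  exact ch_eq_one _ h3

/-- The class of the points `R` with `mu R = (0, 0)`. -/
theorem kd_cob (c : Gal k → Pts (cq d) (AlgebraicClosure k))
    (hmu : ∀ σ, mu (isQ_bc hd hz (AlgebraicClosure k)) (c σ) = 0) (a : k)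
    (b : AlgebraicClosure k) (hk : KD c a b) (ha : IsSquare (a * d)) :
    ∃ R : Pts (cq d) (AlgebraicClosure k),
      mu (isQ_bc hd hz (AlgebraicClosure k)) R = tq (isQ_bc hd hz (AlgebraicClosure k)) ∧
      ∀ σ, c σ = act (cq d) σ R - R := by
  set h := isQ_bc hd hz (AlgebraicClosure k) with hh
  obtain ⟨r, hr⟩ := ha
  obtain ⟨X, hX⟩ := IsAlgClosed.exists_pow_nat_eq (algebraMap k (AlgebraicClosure k) d) (n := 2)
    (by norm_num)
  have hX0 : X ≠ 0 := by
    rintro rfl
    apply h.hd
    rw [← hX]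
    ring
  have hns : (Affine.baseChange (cq d) (AlgebraicClosure k)).Nonsingular X 0 := (h.nons _ _).2 (by
    rw [← hX]
    ring)
  have hmuR : mu h (.some X 0 hns) = tq h := by
    obtain ⟨x', y', hn', e1, e2, e3⟩ := mu_some h hns hX0
    have ex : x' = 0 := by
      rw [e2, mul_zero, zero_div]
      ring
    subst ex
    have ey : y' = 0 := y_zero h hn'
    subst ey
    exact e1
  refine ⟨.some X 0 hns, hmuR, fun σ => ?_⟩
  have hfix : σ (b * X) = b * X := by
    refine sq_root_fixed (r := r) ?_ σ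
    rw [mul_pow, hX, ← hk.sq, ← map_mul, hr, map_mul, sq]
  rw [map_mul, hk.act σ] at hfix
  have h1 : act (cq d) σ (.some X 0 hns) = Affine.Point.some (σ X) (σ 0) (by
    exact (Affine.baseChange_nonsingular (cq d)
      (σ : AlgebraicClosure k →ₐ[k] AlgebraicClosure k).injective X 0).2 hns) := rfl
  rcases mu_ker_all h (c σ) (hmu σ) with h2 | h2
  · rw [h2, ch_zero, one_mul] at hfix
    have h3 : σ X = X := mul_left_cancel₀ hk.ne hfix
    rw [h2, eq_comm, sub_eq_zero, h1, Affine.Point.some.injEq]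
    exact ⟨h3, map_zero σ⟩
  · rw [h2, ch_tq h] at hfix
    have h3 : σ X = -X := mul_left_cancel₀ hk.ne (by linear_combination -hfix)
    obtain ⟨hn3, h4⟩ := add_tq h hns hX0
    rw [h2, eq_sub_iff_add_eq, add_comm, h4, h1, Affine.Point.some.injEq]
    refine ⟨?_, ?_⟩
    · rw [h3, ← hX]
      field_simp
    · rw [map_zero, mul_zero, zero_div]

end

end Pool.Agent.Lib.MP_1a91b9_ntQ.C
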