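import Pool.Agent.Lib.MP_1a91b9_ntH.C.V
import Pool.Agent.Lib.MP_1a91b9_ntQ.C.LocDefs

/-!
# MP_1a91b9_nt (TwistDensity), quartic twists, part C: the local images of `y² = x³ - D x`

`C4 ν u`: `u` is a square modulo `4`. `i² = -1`, `lam = 1 + i`.
-/

set_option autoImplicit false
set_option linter.unusedSectionVars false

namespace Pool.Agent.Lib.MP_1a91b9_ntQ.C

open WithZero
open Pool.Agent.Lib.MP_1a91b9_ntH.C (Sq exists_nu isSquare_exp nu_one)

variable {L : Type*} [Field L] [CharZero L]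

/-- `u` is a square modulo `4` -/
def C4 (ν : Valuation L ℤᵐ⁰) (u : L) : Prop := ∃ b : L, b ≠ 0 ∧ ν (u / b ^ 2 - 1) ≤ ν 4

variable (ν : Valuation L ℤᵐ⁰)

/-! ### `Sq` -/

theorem nu_subl {ν : Valuation L ℤᵐ⁰} {x y : L} (h : ν y < ν x) : ν (x - y) = ν x := by
  rw [sub_eq_add_neg, ν.map_add_eq_of_lt_left (by rwa [Valuation.map_neg])]

theorem nu_subr {ν : Valuation L ℤᵐ⁰} {x y : L} (h : ν x < ν y) : ν (x - y) = ν y := by
  rw [sub_eq_add_neg, ν.map_add_eq_of_lt_right (by rwa [Valuation.map_neg]), Valuation.map_neg]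

/-- `a x` and `x y` are squares, so `a y` is a square -/
theorem Sq.trans' {ν : Valuation L ℤᵐ⁰} {a x y : L} (h4 : ν 4 ≤ 1) (h : Sq ν (a * x))
    (h' : Sq ν (x * y)) : Sq ν (a * y) := by
  have hx : x ≠ 0 := fun h0 => h.ne h4 (by rw [h0, mul_zero])
  have h1 := h.mul h4 h'
  have e : a * x * (x * y) = a * y * x ^ 2 := by ring
  rw [e] at h1
  exact Sq.of_mul_sq hx h1

/-- `u` is a square and `v = u (1 + small)` -/
theorem Sq.congr' {ν : Valuation L ℤᵐ⁰} {u v : L} (h4 : ν 4 ≤ 1) (h : Sq ν u)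
    (hv : ν (v / u - 1) < ν 4) : Sq ν v := by
  have h1 : Sq ν (1 * u) := by rwa [one_mul]
  have h2 := h1.near h4 hv
  rwa [one_mul] at h2

theorem i_ne {i : L} (hi : i ^ 2 = -1) : i ≠ 0 := by
  rintro rfl
  norm_num at hi

theorem Sq.neg' {ν : Valuation L ℤᵐ⁰} {i u : L} (hi : i ^ 2 = -1) (h : Sq ν (-u)) : Sq ν u := by
  refine Sq.of_mul_sq (i_ne hi) ?_
  rw [hi]
  have e : u * -1 = -u := by ring
  rwa [e]

/-! ### the places where `2` is a unit -/

theorem odd_three {n : ℤ} (h : Even (n + 2 * n)) : Even n := by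
  obtain ⟨m, hm⟩ := h
  exact ⟨m - n, by omega⟩

/-- (C1) -/
theorem loc4_even {D a : L} (h4 : ν 4 = 1) (hD : ν D = 1) (h : GLoc4 ν D a) :
    IsSquare (ν a) := by
  have hD0 : D ≠ 0 := by
    rintro rfl
    rw [map_zero] at hD
    exact zero_ne_one hD
  have key : ∀ x : L, x ≠ 0 → IsSquare (ν x) → Sq ν (a * x) → IsSquare (ν a) := by
    intro x hx0 hx h
    have ha0 : a ≠ 0 := fun h0 => h.ne h4.le (by rw [h0, zero_mul])
    obtain ⟨n, hn⟩ := exists_nu ν hx0
    obtain ⟨m, hm⟩ := exists_nu ν ha0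
    have h1 := h.even h4.le
    rw [map_mul, hn, hm, ← exp_add, isSquare_exp] at h1
    rw [hn, isSquare_exp] at hx
    rw [hm, isSquare_exp]
    obtain ⟨r, hr⟩ := hx
    obtain ⟨s, hs⟩ := h1
    exact ⟨s - r, by omega⟩
  rcases h with h | h | ⟨x, hx0, hx, h⟩ | ⟨x, hx0, hx, h⟩
  · exact h.even h4.le
  · have h1 := h.even h4.le
    rwa [map_mul, hD, mul_one] at h1
  · refine key x hx0 ?_ h
    have h16 : ν 16 = 1 := by
      have e : (16 : L) = 4 * 4 := by norm_num
      rw [e, map_mul, h4, one_mul]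
    have h1 : ν (x ^ 2 / D) = 1 := by
      have := ν.map_one_add_of_lt (x := x ^ 2 / D - 1) (by rw [← h16]; exact hx)
      rwa [add_sub_cancel] at this
    rw [map_div₀, hD, div_one, map_pow] at h1
    rw [(pow_eq_one_iff_of_nonneg zero_le (by norm_num)).1 h1]
    exact ⟨1, by rw [mul_one]⟩
  · refine key x hx0 ?_ h
    obtain ⟨n, hn⟩ := exists_nu ν hx0
    have h2 := hx.even h4.le
    rw [map_mul, hn] at h2
    rw [hn, isSquare_exp]
    rcases lt_trichotomy n 0 with h0 | h0 | h0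
    · have h3 : ν (x ^ 2) < ν D := by
        rw [map_pow, hn, hD, ← exp_nsmul, ← exp_zero, exp_lt_exp]
        simp only [nsmul_eq_mul, Nat.cast_ofNat]
        omega
      rw [nu_subr h3, hD, mul_one, isSquare_exp] at h2
      exact h2
    · rw [h0]
      exact Even.zero
    · have h3 : ν D < ν (x ^ 2) := by
        rw [map_pow, hn, hD, ← exp_nsmul, ← exp_zero, exp_lt_exp]
        simp only [nsmul_eq_mul, Nat.cast_ofNat]
        omega
      rw [nu_subl h3, map_pow, hn, ← exp_nsmul, ← exp_add, isSquare_exp] at h2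
      simp only [nsmul_eq_mul, Nat.cast_ofNat] at h2
      exact odd_three h2

/-- (C2) the value of `D` is odd -/
theorem loc4_bad {i D a : L} (hi : i ^ 2 = -1) (h4 : ν 4 = 1) (hD0 : D ≠ 0)
    (hD : ¬ IsSquare (ν D)) (h : GLoc4 ν D a) : Sq ν a ∨ Sq ν (a * D) := by
  have hνD : ν D ≠ 0 := ν.ne_zero_iff.2 hD0
  rcases h with h | h | ⟨x, hx0, hx, h⟩ | ⟨x, hx0, hx, h⟩
  · exact Or.inl h
  · exact Or.inr h
  · exfalso
    have h16 : ν 16 = 1 := by
      have e : (16 : L) = 4 * 4 := by norm_num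
      rw [e, map_mul, h4, one_mul]
    have h1 : ν (x ^ 2 / D) = 1 := by
      have := ν.map_one_add_of_lt (x := x ^ 2 / D - 1) (by rw [← h16]; exact hx)
      rwa [add_sub_cancel] at this
    rw [map_div₀, div_eq_one_iff_eq hνD, map_pow] at h1
    exact hD ⟨ν x, by rw [← h1, sq]⟩
  · have hne : ν (x ^ 2) ≠ ν D := fun h0 => hD (by rw [← h0, map_pow]; exact ⟨ν x, sq _⟩)
    have hνx : ν (x ^ 2) ≠ 0 := ν.ne_zero_iff.2 (pow_ne_zero 2 hx0)
    rcases lt_or_gt_of_ne hne with h0 | h0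
    · -- `x ^ 2` is small
      right
      have h1 : Sq ν (-(x * D)) := by
        refine Sq.congr' h4.le hx ?_
        have hxx : x ^ 2 - D ≠ 0 := fun h' => h0.ne (by rw [sub_eq_zero.1 h'])
        have e : -(x * D) / (x * (x ^ 2 - D)) - 1 = -(x ^ 2 / (x ^ 2 - D)) := by
          field_simp
          ring
        rw [e, Valuation.map_neg, map_div₀, nu_subr h0, h4]
        exact (div_lt_one₀ (zero_lt_iff.2 hνD)).2 h0
      exact Sq.trans' h4.le h (Sq.neg' hi h1)
    · left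
      have h1 : Sq ν (x ^ 3) := by
        refine Sq.congr' h4.le hx ?_
        have hxx : x ^ 2 - D ≠ 0 := fun h' => h0.ne (by rw [sub_eq_zero.1 h'])
        have e : x ^ 3 / (x * (x ^ 2 - D)) - 1 = D / (x ^ 2 - D) := by
          field_simp
          ring
        rw [e, map_div₀, nu_subl h0, h4]
        exact (div_lt_one₀ (zero_lt_iff.2 hνx)).2 h0
      have h2 : Sq ν x := by
        refine Sq.of_mul_sq hx0 ?_
        have e : x * x ^ 2 = x ^ 3 := by ring
        rwa [e]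
      exact h.cancel h4.le h2

/-! ### the place above `2` -/

section two

variable {ν}

theorem nu_i {i : L} (hi : i ^ 2 = -1) : ν i = 1 := by
  have h := congrArg ν hi
  rw [map_pow, Valuation.map_neg, map_one] at h
  exact (pow_eq_one_iff_of_nonneg zero_le (by norm_num)).1 h

theorem nu_ipow {i : L} (hi : i ^ 2 = -1) (m : ℕ) : ν (i ^ m) = 1 := by
  rw [map_pow, nu_i hi, one_pow]

theorem nu_lam2 {i : L} (hi : i ^ 2 = -1) (h2 : ν 2 = exp (-2)) : ν (1 + i) = exp (-1) := by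
  have e : (1 + i) ^ 2 = 2 * i := by linear_combination hi
  have h := congrArg ν e
  have h0 : (1 + i) ≠ 0 := by
    intro h0
    rw [h0, zero_pow two_ne_zero] at e
    exact mul_ne_zero two_ne_zero (i_ne hi) e.symm
  obtain ⟨n, hn⟩ := exists_nu ν h0
  rw [map_pow, map_mul, nu_i hi, mul_one, h2, hn, ← exp_nsmul, exp_inj] at h
  simp only [nsmul_eq_mul, Nat.cast_ofNat] at h
  rw [hn]
  congr 1
  omega

theorem nu_four4 (h2 : ν 2 = exp (-2)) : ν 4 = exp (-4) := by
  have e : (4 : L) = 2 * 2 := by norm_num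
  rw [e, map_mul, h2, ← exp_add]
  norm_num

theorem nu_four4_le (h2 : ν 2 = exp (-2)) : ν 4 < 1 := by
  rw [nu_four4 h2, ← exp_zero, exp_lt_exp]
  norm_num

theorem C4.of_sq {u : L} (h : Sq ν u) : C4 ν u := by
  obtain ⟨b, hb, h⟩ := h
  exact ⟨b, hb, h.le⟩

theorem C4.ne {u : L} (h4 : ν 4 < 1) (h : C4 ν u) : u ≠ 0 := by
  rintro rfl
  obtain ⟨b, hb, h⟩ := h
  rw [zero_div, zero_sub, Valuation.map_neg, map_one] at h
  exact absurd h (not_le.2 h4)

theorem C4.mul {u v : L} (h4 : ν 4 < 1) (h : C4 ν u) (h' : C4 ν v) : C4 ν (u * v) := by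
  obtain ⟨b, hb, h⟩ := h
  obtain ⟨b', hb', h'⟩ := h'
  refine ⟨b * b', mul_ne_zero hb hb', ?_⟩
  have e : u * v / (b * b') ^ 2 - 1 = (u / b ^ 2) * (v / b' ^ 2 - 1) + (u / b ^ 2 - 1) := by
    field_simp
    ring
  have h1 : ν (u / b ^ 2) = 1 := by
    have := ν.map_one_add_of_lt (lt_of_le_of_lt h h4)
    rwa [add_sub_cancel] at this
  rw [e]
  refine ν.map_add_le ?_ h
  rw [map_mul, h1, one_mul]
  exact h'

theorem C4.of_mul_sq {u s : L} (hs : s ≠ 0) (h : C4 ν (u * s ^ 2)) : C4 ν u := by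
  obtain ⟨b, hb, h⟩ := h
  refine ⟨b / s, div_ne_zero hb hs, ?_⟩
  have e : u / (b / s) ^ 2 = u * s ^ 2 / b ^ 2 := by field_simp
  rwa [e]

theorem C4.one {u : L} (h : ν (u - 1) ≤ ν 4) : C4 ν u := ⟨1, one_ne_zero, by rwa [one_pow, div_one]⟩

theorem C4.neg {i u : L} (hi : i ^ 2 = -1) (h : C4 ν (-u)) : C4 ν u := by
  refine C4.of_mul_sq (i_ne hi) ?_
  rw [hi]
  have e : u * -1 = -u := by ring
  rwa [e]

/-- `u` is `± 1` modulo `4` -/
theorem C4.neg_one {i u : L} (hi : i ^ 2 = -1) (h : ν (u + 1) ≤ ν 4) : C4 ν u := by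
  refine C4.neg hi (C4.one ?_)
  have e : -u - 1 = -(u + 1) := by ring
  rwa [e, Valuation.map_neg]

theorem C4.congr {u v : L} (h4 : ν 4 < 1) (h : C4 ν u) (hv : ν (v / u - 1) ≤ ν 4) : C4 ν v := by
  have h1 := h.mul h4 (C4.one hv)
  have hu := h.ne h4
  have e : u * (v / u) = v := by field_simp
  rwa [e] at h1

theorem C4.even {u : L} (h4 : ν 4 < 1) (h : C4 ν u) : IsSquare (ν u) := by
  obtain ⟨b, hb, h⟩ := h
  refine ⟨ν b, ?_⟩
  have h1 : ν (u / b ^ 2) = 1 := by
    have := ν.map_one_add_of_lt (lt_of_le_of_lt h h4)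
    rwa [add_sub_cancel] at this
  have e : u = b * b * (u / b ^ 2) := by field_simp
  rw [e, map_mul, map_mul, h1, mul_one]

theorem C4.trans {a x y : L} (h4 : ν 4 < 1) (h : C4 ν (a * x)) (h' : C4 ν (x * y)) :
    C4 ν (a * y) := by
  have hx : x ≠ 0 := fun h0 => h.ne h4 (by rw [h0, mul_zero])
  have h1 := h.mul h4 h'
  have e : a * x * (x * y) = a * y * x ^ 2 := by ring
  rw [e] at h1
  exact C4.of_mul_sq hx h1

theorem C4.cancel {a x : L} (h4 : ν 4 < 1) (h : C4 ν (a * x)) (hx : C4 ν x) : C4 ν a := by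
  refine C4.of_mul_sq (hx.ne h4) ?_
  have h2 := h.mul h4 hx
  have e : a * x * x = a * x ^ 2 := by ring
  rwa [e] at h2

theorem lt_le {g : ℤᵐ⁰} {m : ℤ} (h : g < exp m) : g ≤ exp (m - 1) := by
  by_cases h0 : g = 0
  · rw [h0]
    exact zero_le
  · obtain ⟨n, rfl⟩ := Pool.Agent.Lib.MP_1a91b9_ntH.C.exists_exp h0
    rw [exp_lt_exp] at h
    rw [exp_le_exp]
    omega

/-- the residue field has two elements -/
theorem res4 (hres : ∀ x : L, ν x = 1 → ν (x - 1) < 1) {y : L} (hy : ν y ≤ 1) :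
    ν y < 1 ∨ ν (y - 1) < 1 := by
  rcases hy.lt_or_eq with h | h
  · exact Or.inl h
  · exact Or.inr (hres y h)

/-- division by `lam` -/
theorem div_lam {l y : L} (hl : ν l = exp (-1)) (hy : ν y < 1) : ∃ t : L, ν t ≤ 1 ∧ y = l * t := by
  have hl0 : l ≠ 0 := by
    rw [← ν.ne_zero_iff, hl]
    exact exp_ne_zero
  refine ⟨y / l, ?_, by field_simp⟩
  rw [map_div₀, hl]
  rw [← exp_zero] at hy
  have h5 := lt_le hy
  exact (div_le_one₀ exp_pos).2 (by simpa using h5)

/-- an integral element is `0` or `1` modulo `lam` -/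
theorem res_lam {l : L} (hl : ν l = exp (-1)) (hres : ∀ x : L, ν x = 1 → ν (x - 1) < 1) {y : L}
    (hy : ν y ≤ 1) : ∃ t : L, ν t ≤ 1 ∧ (y = l * t ∨ y = 1 + l * t) := by
  rcases res4 hres hy with h | h
  · obtain ⟨t, ht, h1⟩ := div_lam hl h
    exact ⟨t, ht, Or.inl h1⟩
  · obtain ⟨t, ht, h1⟩ := div_lam hl h
    exact ⟨t, ht, Or.inr (by rw [← h1]; ring)⟩

theorem nu_add_le {x y : L} (hx : ν x ≤ 1) (hy : ν y ≤ 1) : ν (x + y) ≤ 1 := ν.map_add_le hx hy

theorem nu_mul_le {x y : L} (hx : ν x ≤ 1) (hy : ν y ≤ 1) : ν (x * y) ≤ 1 := by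
  rw [map_mul]
  exact mul_le_one' hx hy

/-- a unit is `i ^ m (1 + lam ^ 3 t)` -/
theorem unit4 {i : L} (hi : i ^ 2 = -1) (h2 : ν 2 = exp (-2))
    (hres : ∀ x : L, ν x = 1 → ν (x - 1) < 1) {x : L} (hx : ν x = 1) :
    ∃ (m : ℕ) (t : L), ν t ≤ 1 ∧ x = i ^ m * (1 + (1 + i) ^ 3 * t) := by
  have hl := nu_lam2 hi h2
  have hi1 := (nu_i (ν := ν) hi).le
  have h11 : ν (1 : L) ≤ 1 := (map_one ν).le
  obtain ⟨l, hld⟩ : ∃ l : L, l = 1 + i := ⟨_, rfl⟩
  rw [← hld] at hl ⊢
  have hl1 : ν l ≤ 1 := by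
    rw [hl, ← exp_zero, exp_le_exp]
    norm_num
  have hii : i = l - 1 := by rw [hld]; ring
  have hll : l ^ 2 = 2 * l - 2 := by
    rw [hii] at hi
    linear_combination hi
  -- modulo `lam`
  obtain ⟨y, hy1, hy⟩ := div_lam hl (hres x hx)
  -- modulo `lam ^ 2`
  have s1 : ∃ (m : ℕ) (t : L), ν t ≤ 1 ∧ x = i ^ m * (1 + l ^ 2 * t) := by
    obtain ⟨t, ht, h1 | h1⟩ := res_lam hl hres hy1
    · refine ⟨0, t, ht, ?_⟩
      rw [pow_zero, one_mul]
      linear_combination hy + l * h1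
    · -- `x = 1 + l + l ^ 2 t = i (1 + ...)`, `1 + l = i + 2`
      refine ⟨1, i * (i - t), nu_mul_le hi1 ?_, ?_⟩
      · rw [sub_eq_add_neg]
        exact nu_add_le hi1 (by rwa [Valuation.map_neg])
      · rw [pow_one]
        have e : x = 1 + l * (1 + l * t) := by linear_combination hy + l * h1
        rw [e, hld]
        linear_combination (2 + (1 + i) ^ 2 * t - i * (1 + i) ^ 2 + i) * hi
  obtain ⟨m, y', hy1', hx'⟩ := s1
  obtain ⟨t, ht, h1 | h1⟩ := res_lam hl hres hy1'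
  · refine ⟨m, t, ht, ?_⟩
    rw [hx', h1]
    ring
  · -- `1 + l ^ 2 + l ^ 3 t = -(1 + ...)`, `2 + l ^ 2 = 2 l = -i l ^ 3`
    refine ⟨m + 2, i - t, ?_, ?_⟩
    · rw [sub_eq_add_neg]
      exact nu_add_le hi1 (by rwa [Valuation.map_neg])
    · rw [hx', h1, pow_add, hi, hld]
      linear_combination (i ^ m * (i ^ 2 + 3 * i + 3)) * hi

/-- the square of a unit -/
theorem sq_unit4 {i : L} (hi : i ^ 2 = -1) (m : ℕ) (t : L) :
    (i ^ m * (1 + (1 + i) ^ 3 * t)) ^ 2 =
      (-1) ^ m * (1 + (1 + i) ^ 5 * (-i * t + (1 + i) * t ^ 2)) := by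
  have h1 : (i ^ m) ^ 2 = (-1) ^ m := by rw [← pow_mul, mul_comm, pow_mul, hi]
  rw [mul_pow, h1]
  have e : (1 + (1 + i) ^ 3 * t) ^ 2 = 1 + (1 + i) ^ 5 * (-i * t + (1 + i) * t ^ 2) := by
    linear_combination ((1 + i) ^ 3 * t + t * (1 + i) ^ 4) * hi
  rw [e]

/-- an element of value `1` is not divisible by `lam` -/
theorem nu_not {l t : L} (hl : ν l = exp (-1)) (ht : ν t ≤ 1) : 1 + l * t ≠ 0 := by
  intro h
  have h1 : l * t = -1 := by linear_combination h
  have h3 := congrArg ν h1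
  rw [map_mul, hl, Valuation.map_neg, map_one] at h3
  have h5 : exp (-1) * ν t < 1 := by
    calc exp (-1) * ν t ≤ exp (-1) * 1 := by gcongr
      _ < 1 := by
        rw [mul_one, ← exp_zero, exp_lt_exp]
        norm_num
  exact h5.ne h3

/-- `1 + lam t` is a unit -/
theorem nu_onel {l t : L} (hl : ν l = exp (-1)) (ht : ν t ≤ 1) : ν (1 + l * t) = 1 := by
  refine ν.map_one_add_of_lt ?_
  rw [map_mul, hl]
  calc exp (-1) * ν t ≤ exp (-1) * 1 := by gcongr
    _ < 1 := by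
      rw [mul_one, ← exp_zero, exp_lt_exp]
      norm_num

/-- `lam ^ 2`, .. -/
theorem nu_lpow {l : L} (hl : ν l = exp (-1)) (k : ℕ) : ν (l ^ k) = exp (-(k : ℤ)) := by
  rw [map_pow, hl, ← exp_nsmul]
  congr 1
  simp

/-- a square modulo `4` which is a unit is `i ^ m` modulo `lam ^ 2`, `m` even -/
theorem even_of_C4 {i : L} (hi : i ^ 2 = -1) (h2 : ν 2 = exp (-2))
    (hres : ∀ x : L, ν x = 1 → ν (x - 1) < 1) {m : ℕ} {t : L} (ht : ν t ≤ 1)
    (h : C4 ν (i ^ m * (1 + (1 + i) ^ 2 * t))) : Even m := by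
  by_contra hm
  rw [Nat.not_even_iff_odd] at hm
  have h4 := nu_four4_le h2
  have hl := nu_lam2 hi h2
  have hi1 := (nu_i (ν := ν) hi).le
  have h11 : ν (1 : L) ≤ 1 := (map_one ν).le
  have hl1 : ν (1 + i) ≤ 1 := by
    rw [hl, ← exp_zero, exp_le_exp]
    norm_num
  -- `u` is a unit, so is `b`
  obtain ⟨b, hb, h⟩ := h
  have hu : ν (i ^ m * (1 + (1 + i) ^ 2 * t)) = 1 := by
    rw [map_mul, nu_ipow hi, one_mul, pow_two, mul_assoc]
    exact nu_onel hl (nu_mul_le hl1 ht)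
  have h1 : ν (i ^ m * (1 + (1 + i) ^ 2 * t) / b ^ 2) = 1 := by
    have := ν.map_one_add_of_lt (lt_of_le_of_lt h h4)
    rwa [add_sub_cancel] at this
  have hvb : ν b = 1 := by
    have hb0 : ν b ≠ 0 := ν.ne_zero_iff.2 hb
    rw [map_div₀, map_pow, hu, div_eq_one_iff_eq (pow_ne_zero 2 hb0)] at h1
    exact (pow_eq_one_iff_of_nonneg zero_le two_ne_zero).1 h1.symm
  obtain ⟨k, s, hs, rfl⟩ := unit4 hi h2 hres hvb
  -- `u - b ^ 2` is divisible by `4`
  have h3 : ν (i ^ m * (1 + (1 + i) ^ 2 * t) - (i ^ k * (1 + (1 + i) ^ 3 * s)) ^ 2) ≤ exp (-2) := by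
    have e : i ^ m * (1 + (1 + i) ^ 2 * t) - (i ^ k * (1 + (1 + i) ^ 3 * s)) ^ 2 =
        (i ^ k * (1 + (1 + i) ^ 3 * s)) ^ 2 *
          (i ^ m * (1 + (1 + i) ^ 2 * t) / (i ^ k * (1 + (1 + i) ^ 3 * s)) ^ 2 - 1) := by
      have hb2 := pow_ne_zero 2 hb
      generalize (i ^ k * (1 + (1 + i) ^ 3 * s)) ^ 2 = B at hb2 ⊢
      field_simp
    rw [e, map_mul, map_pow, hvb, one_pow, one_mul]
    refine h.trans ?_
    rw [nu_four4 h2, exp_le_exp]
    norm_num
  rw [sq_unit4 hi] at h3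
  have hk : ((-1 : L) ^ k = 1) ∨ ((-1 : L) ^ k = -1) := neg_one_pow_eq_or L k
  have hmm : (i ^ m = i) ∨ (i ^ m = -i) := by
    obtain ⟨r, rfl⟩ := hm
    rw [pow_succ, pow_mul, hi]
    rcases neg_one_pow_eq_or L r with h5 | h5 <;> rw [h5]
    · left; ring
    · right; ring
  obtain ⟨ε, hε, hεm⟩ : ∃ ε : L, (ε = 1 ∨ ε = -1) ∧ i ^ m = ε * i := by
    rcases hmm with h5 | h5
    · exact ⟨1, Or.inl rfl, by rw [h5]; ring⟩
    · exact ⟨-1, Or.inr rfl, by rw [h5]; ring⟩
  obtain ⟨δ, hδ, hδk⟩ : ∃ δ : L, (δ = 1 ∨ δ = -1) ∧ (-1 : L) ^ k = δ := ⟨_, hk, rfl⟩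
  rw [hεm, hδk] at h3
  -- `ε i - δ` has the value of `lam`
  have h5 : ν (ε * i - δ) ≤ exp (-2) := by
    obtain ⟨r, hr⟩ : ∃ r : L, r = ε * i * t - (1 + i) ^ 3 * (δ * (-i * s + (1 + i) * s ^ 2)) := ⟨_, rfl⟩
    have hδ1 : ν δ ≤ 1 := by
      rcases hδ with h6 | h6 <;> rw [h6]
      · exact h11
      · rw [Valuation.map_neg]; exact h11
    have hε1 : ν ε ≤ 1 := by
      rcases hε with h6 | h6 <;> rw [h6]
      · exact h11
      · rw [Valuation.map_neg]; exact h11
    have hr1 : ν r ≤ 1 := by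
      rw [hr, sub_eq_add_neg]
      refine nu_add_le (nu_mul_le (nu_mul_le hε1 hi1) ht) ?_
      rw [Valuation.map_neg]
      refine nu_mul_le ?_ (nu_mul_le hδ1 (nu_add_le (nu_mul_le ?_ hs) (nu_mul_le hl1 ?_)))
      · rw [map_pow]
        exact pow_le_one' hl1 3
      · rw [Valuation.map_neg]
        exact hi1
      · rw [map_pow]
        exact pow_le_one' hs 2
    have e : ε * i - δ = (ε * i * (1 + (1 + i) ^ 2 * t) -
        δ * (1 + (1 + i) ^ 5 * (-i * s + (1 + i) * s ^ 2))) - (1 + i) ^ 2 * r := by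
      rw [hr]
      ring
    rw [e, sub_eq_add_neg]
    refine ν.map_add_le h3 ?_
    rw [Valuation.map_neg, map_mul, nu_lpow hl]
    calc exp (-((2 : ℕ) : ℤ)) * ν r ≤ exp (-((2 : ℕ) : ℤ)) * 1 := by gcongr
      _ = exp (-2) := by
        rw [mul_one]
        norm_num
  have h6 : ν (ε * i - δ) = exp (-1) := by
    have key : ∀ x : L, x ^ 2 = 2 * i ∨ x ^ 2 = -(2 * i) → ν x = exp (-1) := by
      intro x hx
      have h7 : ν (x ^ 2) = exp (-2) := by
        rcases hx with h8 | h8 <;> rw [h8]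
        · rw [map_mul, nu_i hi, mul_one, h2]
        · rw [Valuation.map_neg, map_mul, nu_i hi, mul_one, h2]
      have hx0 : x ≠ 0 := by
        rintro rfl
        rw [zero_pow two_ne_zero, map_zero] at h7
        exact exp_ne_zero h7.symm
      obtain ⟨n, hn⟩ := exists_nu ν hx0
      rw [map_pow, hn, ← exp_nsmul, exp_inj] at h7
      simp only [nsmul_eq_mul, Nat.cast_ofNat] at h7
      rw [hn]
      congr 1
      omega
    rcases hε with h7 | h7 <;> rcases hδ with h8 | h8 <;> rw [h7, h8] <;> apply key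
    · right; linear_combination hi
    · left; linear_combination hi
    · left; linear_combination hi
    · right; linear_combination hi
  rw [h6, exp_le_exp] at h5
  norm_num at h5

/-- the sign of an even power -/
theorem ipow_even {i : L} (hi : i ^ 2 = -1) {m : ℕ} (h : Even m) : i ^ m = 1 ∨ i ^ m = -1 := by
  obtain ⟨r, rfl⟩ := h
  rw [← two_mul, pow_mul, hi]
  exact neg_one_pow_eq_or L r

/-- the value of `± i ± 1` -/
theorem nu_i_one {i : L} (hi : i ^ 2 = -1) (h2 : ν 2 = exp (-2)) {ε δ : L} (hε : ε = 1 ∨ ε = -1)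
    (hδ : δ = 1 ∨ δ = -1) : ν (ε * i - δ) = exp (-1) := by
  have key : ∀ x : L, x ^ 2 = 2 * i ∨ x ^ 2 = -(2 * i) → ν x = exp (-1) := by
    intro x hx
    have h7 : ν (x ^ 2) = exp (-2) := by
      rcases hx with h8 | h8 <;> rw [h8]
      · rw [map_mul, nu_i hi, mul_one, h2]
      · rw [Valuation.map_neg, map_mul, nu_i hi, mul_one, h2]
    have hx0 : x ≠ 0 := by
      rintro rfl
      rw [zero_pow two_ne_zero, map_zero] at h7
      exact exp_ne_zero h7.symm
    obtain ⟨n, hn⟩ := exists_nu ν hx0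
    rw [map_pow, hn, ← exp_nsmul, exp_inj] at h7
    simp only [nsmul_eq_mul, Nat.cast_ofNat] at h7
    rw [hn]
    congr 1
    omega
  rcases hε with h7 | h7 <;> rcases hδ with h8 | h8 <;> rw [h7, h8] <;> apply key
  · right; linear_combination hi
  · left; linear_combination hi
  · left; linear_combination hi
  · right; linear_combination hi

/-- the sign of an odd power -/
theorem ipow_odd {i : L} (hi : i ^ 2 = -1) {m : ℕ} (h : Odd m) :
    ∃ ε : L, (ε = 1 ∨ ε = -1) ∧ i ^ m = ε * i := by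
  obtain ⟨r, rfl⟩ := h
  exact ⟨(-1) ^ r, neg_one_pow_eq_or L r, by rw [pow_succ, pow_mul, hi]⟩

theorem nu_sign {ε : L} (h : ε = 1 ∨ ε = -1) : ν ε = 1 := by
  rcases h with h | h <;> rw [h]
  · exact map_one ν
  · rw [Valuation.map_neg, map_one]

/-- `± (1 + lam ^ 4 y)` is a square modulo `4` -/
theorem C4_sign {i : L} (hi : i ^ 2 = -1) (h2 : ν 2 = exp (-2)) {ε y : L} (hε : ε = 1 ∨ ε = -1)
    (hy : ν y ≤ 1) : C4 ν (ε * (1 + (1 + i) ^ 4 * y)) := by
  have h5 : ν ((1 + i) ^ 4 * y) ≤ ν 4 := by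
    rw [map_mul, nu_lpow (nu_lam2 hi h2), nu_four4 h2]
    calc exp (-((4 : ℕ) : ℤ)) * ν y ≤ exp (-((4 : ℕ) : ℤ)) * 1 := by gcongr
      _ = exp (-4) := by
        rw [mul_one]
        norm_num
  have h6 : C4 ν (1 + (1 + i) ^ 4 * y) := C4.one (by rwa [add_sub_cancel_left])
  rcases hε with h | h <;> rw [h]
  · rwa [one_mul]
  · refine C4.neg hi ?_
    rwa [neg_one_mul, neg_neg]

/-- (C3), the points: `D` is a unit which is not a square modulo `4`. -/
theorem loc4_lam_pt {i D x : L} (hi : i ^ 2 = -1) (h2 : ν 2 = exp (-2))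
    (hres : ∀ x : L, ν x = 1 → ν (x - 1) < 1) (hD : ν D = 1) (hDn : ¬ C4 ν D) (hx0 : x ≠ 0)
    (hx : Sq ν (x * (x ^ 2 - D))) : C4 ν x ∨ C4 ν (x * D) := by
  have h4 := nu_four4_le h2
  have hl := nu_lam2 hi h2
  have hi1 := (nu_i (ν := ν) hi).le
  have h11 : ν (1 : L) ≤ 1 := (map_one ν).le
  have hl1 : ν (1 + i) ≤ 1 := by
    rw [hl, ← exp_zero, exp_le_exp]
    norm_num
  have hD0 : D ≠ 0 := by
    rintro rfl
    rw [map_zero] at hD
    exact zero_ne_one hD
  have hev := hx.even h4.le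
  have hxx : x ^ 2 - D ≠ 0 := fun h => hx.ne h4.le (by rw [h, mul_zero])
  obtain ⟨n, hn⟩ := exists_nu ν hx0
  rcases lt_trichotomy n 0 with h0 | h0 | h0
  · -- `x` is divisible by `lam`
    right
    have h3 : ν (x ^ 2) < ν D := by
      rw [map_pow, hn, hD, ← exp_nsmul, ← exp_zero, exp_lt_exp]
      simp only [nsmul_eq_mul, Nat.cast_ofNat]
      omega
    rw [map_mul, nu_subr h3, hD, mul_one, hn, isSquare_exp] at hev
    have h5 : C4 ν (-(x * D)) := by
      refine C4.congr h4 (C4.of_sq hx) ?_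
      have e : -(x * D) / (x * (x ^ 2 - D)) - 1 = -(x ^ 2 / (x ^ 2 - D)) := by
        field_simp
        ring
      rw [e, Valuation.map_neg, map_div₀, nu_subr h3, hD, div_one, map_pow, hn, ← exp_nsmul,
        nu_four4 h2, exp_le_exp]
      simp only [nsmul_eq_mul, Nat.cast_ofNat]
      obtain ⟨r, hr⟩ := hev
      omega
    exact C4.neg hi h5
  · -- `x` is a unit
    rw [h0, exp_zero] at hn
    obtain ⟨m, t, ht, hxe⟩ := unit4 hi h2 hres hn
    obtain ⟨k, r, hr, hDe⟩ := unit4 hi h2 hres hD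
    obtain ⟨s, hsd⟩ : ∃ s : L, s = -i * t + (1 + i) * t ^ 2 := ⟨_, rfl⟩
    have hs : ν s ≤ 1 := by
      rw [hsd]
      refine nu_add_le (nu_mul_le ?_ ht) (nu_mul_le hl1 ?_)
      · rw [Valuation.map_neg]
        exact hi1
      · rw [map_pow]
        exact pow_le_one' ht 2
    have hx2 : x ^ 2 = (-1) ^ m * (1 + (1 + i) ^ 5 * s) := by
      rw [hxe, sq_unit4 hi, hsd]
    obtain ⟨ε, hε, hεm⟩ : ∃ ε : L, (ε = 1 ∨ ε = -1) ∧ (-1 : L) ^ m = ε :=
      ⟨_, neg_one_pow_eq_or L m, rfl⟩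
    rw [hεm] at hx2
    rw [map_mul, hn, one_mul] at hev
    -- `k` is even
    have hk : Even k := by
      by_contra hk
      rw [Nat.not_even_iff_odd] at hk
      obtain ⟨δ, hδ, hδk⟩ := ipow_odd hi hk
      have e : x ^ 2 - D = -(δ * i - ε) + (1 + i) ^ 3 * (ε * (1 + i) ^ 2 * s - δ * i * r) := by
        rw [hx2, hDe, hδk]
        ring
      have hsm : ν ((1 + i) ^ 3 * (ε * (1 + i) ^ 2 * s - δ * i * r)) < exp (-1) := by
        have h5 : ν (ε * (1 + i) ^ 2 * s - δ * i * r) ≤ 1 := by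
          rw [sub_eq_add_neg]
          refine nu_add_le (nu_mul_le (nu_mul_le (nu_sign hε).le ?_) hs) ?_
          · rw [map_pow]
            exact pow_le_one' hl1 2
          · rw [Valuation.map_neg]
            exact nu_mul_le (nu_mul_le (nu_sign hδ).le hi1) hr
        rw [map_mul, nu_lpow hl]
        calc exp (-((3 : ℕ) : ℤ)) * _ ≤ exp (-((3 : ℕ) : ℤ)) * 1 := by gcongr
          _ < exp (-1) := by
            rw [mul_one, exp_lt_exp]
            norm_num
      have h5 : ν (x ^ 2 - D) = exp (-1) := by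
        rw [e, ν.map_add_eq_of_lt_left (by
          rw [Valuation.map_neg, nu_i_one hi h2 hδ hε]
          exact hsm), Valuation.map_neg, nu_i_one hi h2 hδ hε]
      rw [h5, isSquare_exp] at hev
      exact absurd hev (by decide)
    -- `r` is a unit
    obtain ⟨δ, hδ, hδk⟩ : ∃ δ : L, (δ = 1 ∨ δ = -1) ∧ i ^ k = δ := ⟨_, ipow_even hi hk, rfl⟩
    rw [hδk] at hDe
    obtain ⟨r₁, hr₁, hr' | hr'⟩ := res_lam hl hres hr
    · exfalso
      apply hDn
      have e : D = δ * (1 + (1 + i) ^ 4 * r₁) := by rw [hDe, hr']; ring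
      rw [e]
      exact C4_sign hi h2 hδ hr₁
    by_cases hεδ : ε = δ
    · -- the value of `x ^ 2 - D` is odd
      exfalso
      have e : x ^ 2 - D = δ * (1 + i) ^ 3 * (-(1 + (1 + i) * (r₁ - (1 + i) * s))) := by
        rw [hx2, hDe, hεδ, hr']
        ring
      have h5 : ν (r₁ - (1 + i) * s) ≤ 1 := by
        rw [sub_eq_add_neg]
        refine nu_add_le hr₁ ?_
        rw [Valuation.map_neg]
        exact nu_mul_le hl1 hs
      rw [e, map_mul, map_mul, nu_sign hδ, one_mul, nu_lpow hl, Valuation.map_neg,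
        nu_onel hl h5, mul_one, isSquare_exp] at hev
      exact absurd hev (by decide)
    · have hεδ' : ε = -δ := by
        rcases hε with h5 | h5 <;> rcases hδ with h6 | h6 <;> rw [h5, h6] at hεδ ⊢
        · exact absurd rfl hεδ
        · ring
        · exact absurd rfl hεδ
      have e : x ^ 2 - D = -δ * (1 + i) ^ 2 * (1 + (1 + i) ^ 2 * (r₁ + (1 + i) * s)) := by
        rw [hx2, hDe, hεδ', hr']
        linear_combination (-δ * (i + 2)) * hi
      have hm : Even m := by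
        obtain ⟨t', ht'⟩ : ∃ t' : L, t' = (1 + i) * t + (r₁ + (1 + i) * s) +
            (1 + i) ^ 3 * t * (r₁ + (1 + i) * s) := ⟨_, rfl⟩
        have ht1 : ν t' ≤ 1 := by
          have h7 := nu_add_le hr₁ (nu_mul_le hl1 hs)
          rw [ht']
          refine nu_add_le (nu_add_le (nu_mul_le hl1 ht) h7) (nu_mul_le (nu_mul_le ?_ ht) h7)
          rw [map_pow]
          exact pow_le_one' hl1 3
        refine even_of_C4 hi h2 hres (m := m) ht1 ?_
        have hl0 : (1 + i) ≠ 0 := by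
          rw [← ν.ne_zero_iff, hl]
          exact exp_ne_zero
        refine C4.of_mul_sq hl0 ?_
        have h7 : x * (x ^ 2 - D) = -δ * (i ^ m * (1 + (1 + i) ^ 2 * t') * (1 + i) ^ 2) := by
          rw [e, hxe, ht']
          ring
        have h8 := C4.of_sq hx
        rw [h7] at h8
        rcases hδ with h9 | h9 <;> rw [h9] at h8
        · rw [neg_one_mul] at h8
          exact C4.neg hi h8
        · rwa [neg_neg, one_mul] at h8
      obtain ⟨μ, hμ, hμm⟩ : ∃ μ : L, (μ = 1 ∨ μ = -1) ∧ i ^ m = μ := ⟨_, ipow_even hi hm, rfl⟩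
      rw [hμm] at hxe
      obtain ⟨t₁, ht₁, ht' | ht'⟩ := res_lam hl hres ht
      · left
        have e : x = μ * (1 + (1 + i) ^ 4 * t₁) := by rw [hxe, ht']; ring
        rw [e]
        exact C4_sign hi h2 hμ ht₁
      · right
        have e : x * D = (μ * δ) * (1 + (1 + i) ^ 4 * (-i * (1 + i) + t₁ + r₁ +
            (1 + i) ^ 2 * ((1 + (1 + i) * t₁) * (1 + (1 + i) * r₁)))) := by
          rw [hxe, hDe, ht', hr']
          linear_combination (μ * δ * (i ^ 4 + 5 * i ^ 3 + 9 * i ^ 2 + 7 * i + 2)) * hi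
        rw [e]
        refine C4_sign hi h2 ?_ ?_
        · rcases hμ with h5 | h5 <;> rcases hδ with h6 | h6 <;> rw [h5, h6]
          · left; ring
          · right; ring
          · right; ring
          · left; ring
        · have h12 : ν ((1 + i) ^ 2) ≤ 1 := by
            rw [map_pow]
            exact pow_le_one' hl1 2
          have hni : ν (-i) ≤ 1 := by rw [Valuation.map_neg]; exact hi1
          exact nu_add_le (nu_add_le (nu_add_le (nu_mul_le hni hl1) ht₁) hr₁)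
            (nu_mul_le h12 (nu_mul_le (nu_add_le h11 (nu_mul_le hl1 ht₁))
              (nu_add_le h11 (nu_mul_le hl1 hr₁))))
  · left
    have h3 : ν D < ν (x ^ 2) := by
      rw [map_pow, hn, hD, ← exp_nsmul, ← exp_zero, exp_lt_exp]
      simp only [nsmul_eq_mul, Nat.cast_ofNat]
      omega
    rw [map_mul, nu_subl h3, map_pow, hn, ← exp_nsmul, ← exp_add, isSquare_exp] at hev
    simp only [nsmul_eq_mul, Nat.cast_ofNat] at hev
    have hev' := odd_three hev
    have h5 : C4 ν (x ^ 3) := by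
      refine C4.congr h4 (C4.of_sq hx) ?_
      have e : x ^ 3 / (x * (x ^ 2 - D)) - 1 = D / (x ^ 2 - D) := by
        field_simp
        ring
      rw [e, map_div₀, nu_subl h3, hD, map_pow, hn, ← exp_nsmul, nu_four4 h2, one_div, ← exp_neg,
        exp_le_exp]
      simp only [nsmul_eq_mul, Nat.cast_ofNat]
      obtain ⟨r, hr⟩ := hev'
      omega
    refine C4.of_mul_sq hx0 ?_
    have e : x * x ^ 2 = x ^ 3 := by ring
    rwa [e]

/-- **(C3)** `D` is a unit which is not a square modulo `4`: `a` or `a D` is a square modulo `4`. -/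
theorem loc4_lam {i D a : L} (hi : i ^ 2 = -1) (h2 : ν 2 = exp (-2))
    (hres : ∀ x : L, ν x = 1 → ν (x - 1) < 1) (hD : ν D = 1) (hDn : ¬ C4 ν D)
    (h : GLoc4 ν D a) : C4 ν a ∨ C4 ν (a * D) := by
  have h4 := nu_four4_le h2
  have hD0 : D ≠ 0 := by
    rintro rfl
    rw [map_zero] at hD
    exact zero_ne_one hD
  rcases h with h | h | ⟨x, hx0, hx, h⟩ | ⟨x, hx0, hx, h⟩
  · exact Or.inl (C4.of_sq h)
  · exact Or.inr (C4.of_sq h)
  · exfalso
    apply hDn
    refine ⟨x, hx0, ?_⟩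
    have h16 : ν 16 < ν 4 := by
      have e : (16 : L) = 4 * 4 := by norm_num
      rw [e, map_mul, nu_four4 h2, ← exp_add, exp_lt_exp]
      norm_num
    have h1 : ν (x ^ 2 / D) = 1 := by
      have := ν.map_one_add_of_lt (x := x ^ 2 / D - 1) (hx.trans (h16.trans h4))
      rwa [add_sub_cancel] at this
    have e : D / x ^ 2 - 1 = -((x ^ 2 / D - 1) / (x ^ 2 / D)) := by
      field_simp
      ring
    rw [e, Valuation.map_neg, map_div₀, h1, div_one]
    exact (hx.trans h16).le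
  · rcases loc4_lam_pt hi h2 hres hD hDn hx0 hx with h1 | h1
    · exact Or.inl (C4.cancel h4 (C4.of_sq h) h1)
    · exact Or.inr (C4.trans h4 (C4.of_sq h) h1)

/-! ### `D` of value `exp (-1)` -/

/-- the points with `ν x` at least `1` -/
theorem loc4_one_pt {i D x : L} (hi : i ^ 2 = -1) (h2 : ν 2 = exp (-2))
    (hres : ∀ x : L, ν x = 1 → ν (x - 1) < 1) (hD : ν D = exp (-1)) (hx1 : 1 ≤ ν x) (hx0 : x ≠ 0)
    (hx : Sq ν (x * (x ^ 2 - D))) : Sq ν x ∨ Sq ν (x * (1 + D)) := by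
  have h4 := nu_four4_le h2
  have hl := nu_lam2 hi h2
  have hi1 := (nu_i (ν := ν) hi).le
  have h11 : ν (1 : L) ≤ 1 := (map_one ν).le
  have hl1 : ν (1 + i) ≤ 1 := by
    rw [hl, ← exp_zero, exp_le_exp]
    norm_num
  have hev := hx.even h4.le
  have hxx : x ^ 2 - D ≠ 0 := fun h => hx.ne h4.le (by rw [h, mul_zero])
  obtain ⟨n, hn⟩ := exists_nu ν hx0
  rw [hn, ← exp_zero, exp_le_exp] at hx1
  have h3 : ν D < ν (x ^ 2) := by
    rw [map_pow, hn, hD, ← exp_nsmul, exp_lt_exp]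
    simp only [nsmul_eq_mul, Nat.cast_ofNat]
    omega
  rw [map_mul, nu_subl h3, map_pow, hn, ← exp_nsmul, ← exp_add, isSquare_exp] at hev
  simp only [nsmul_eq_mul, Nat.cast_ofNat] at hev
  obtain ⟨r, hr⟩ := odd_three hev
  -- `x (1 - D / x ^ 2)` is a square
  have h5 : Sq ν (x * (1 - D / x ^ 2)) := by
    refine Sq.of_mul_sq hx0 ?_
    have e : x * (1 - D / x ^ 2) * x ^ 2 = x * (x ^ 2 - D) := by field_simp
    rwa [e]
  rcases hx1.lt_or_eq with h0 | h0
  · left
    have h6 : Sq ν (1 - D / x ^ 2) := by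
      refine Sq.one ?_
      have e : 1 - D / x ^ 2 - 1 = -(D / x ^ 2) := by ring
      rw [e, Valuation.map_neg, map_div₀, hD, map_pow, hn, ← exp_nsmul, nu_four4 h2, ← exp_sub,
        exp_lt_exp]
      simp only [nsmul_eq_mul, Nat.cast_ofNat]
      omega
    exact h5.cancel h4.le h6
  · right
    rw [← h0, exp_zero] at hn
    obtain ⟨m, t, ht, hxe⟩ := unit4 hi h2 hres hn
    obtain ⟨s, hsd⟩ : ∃ s : L, s = -i * t + (1 + i) * t ^ 2 := ⟨_, rfl⟩
    have hs : ν s ≤ 1 := by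
      rw [hsd]
      refine nu_add_le (nu_mul_le ?_ ht) (nu_mul_le hl1 ?_)
      · rw [Valuation.map_neg]
        exact hi1
      · rw [map_pow]
        exact pow_le_one' ht 2
    have hx2 : x ^ 2 = (-1) ^ m * (1 + (1 + i) ^ 5 * s) := by
      rw [hxe, sq_unit4 hi, hsd]
    have hD0 : D ≠ 0 := by
      rintro rfl
      rw [map_zero] at hD
      exact exp_ne_zero hD.symm
    have hD1 : ν D < 1 := by
      rw [hD, ← exp_zero, exp_lt_exp]
      norm_num
    rcases Nat.even_or_odd m with hm | hm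
    · -- `x (1 - D)` is `± (1 + lam)` modulo `lam ^ 2`
      exfalso
      obtain ⟨D', hD', hDD⟩ := div_lam hl hD1
      have hvD : ν D' = 1 := by
        rw [hDD, map_mul, hl] at hD
        have e : exp (-1 : ℤ) * ν D' = exp (-1) * 1 := by rw [hD, mul_one]
        exact mul_left_cancel₀ exp_ne_zero e
      obtain ⟨u, hu, hDu⟩ := div_lam hl (hres D' hvD)
      obtain ⟨μ, hμ, hμm⟩ : ∃ μ : L, (μ = 1 ∨ μ = -1) ∧ i ^ m = μ := ⟨_, ipow_even hi hm, rfl⟩
      rw [hμm] at hxe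
      -- `x * (1 - D / x ^ 2) = i ^ 3 (1 + lam ^ 2 ..)`
      have h8 : C4 ν (x - D * x⁻¹) := by
        have e : x * (1 - D / x ^ 2) = x - D * x⁻¹ := by
          field_simp
        rw [← e]
        exact C4.of_sq h5
      obtain ⟨v, hv, hxv⟩ := div_lam hl (hres x⁻¹ (by rw [map_inv₀, hn, inv_one]))
      have hxv' : x⁻¹ = 1 + (1 + i) * v := by rw [← hxv]; ring
      have hDu' : D' = 1 + (1 + i) * u := by rw [← hDu]; ring
      obtain ⟨y, hy⟩ : ∃ y : L, y = μ * ((1 + i) * t) - (u + (v + (1 + i) * (u * v))) := ⟨_, rfl⟩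
      have hy1 : ν y ≤ 1 := by
        rw [hy, sub_eq_add_neg]
        refine nu_add_le (nu_mul_le (nu_sign hμ).le (nu_mul_le hl1 ht)) ?_
        rw [Valuation.map_neg]
        exact nu_add_le hu (nu_add_le hv (nu_mul_le hl1 (nu_mul_le hu hv)))
      have e : x - D * x⁻¹ = μ - (1 + i) + (1 + i) ^ 2 * y := by
        rw [hxv', hDD, hDu', hxe, hy]
        ring
      have h3 : ¬ Even 3 := by decide
      rcases hμ with hμ' | hμ'
      · have e2 : x - D * x⁻¹ = i ^ 3 * (1 + (1 + i) ^ 2 * (i * y)) := by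
          rw [e, hμ']
          linear_combination (-i - (i ^ 2 - 1) * (1 + i) ^ 2 * y) * hi
        rw [e2] at h8
        exact h3 (even_of_C4 hi h2 hres (nu_mul_le hi1 hy1) h8)
      · have e2 : x - D * x⁻¹ = i ^ 3 * (1 + (1 + i) ^ 2 * (i * y + -1)) := by
          rw [e, hμ']
          linear_combination (-i - (i ^ 2 - 1) * (1 + i) ^ 2 * y + (i ^ 3 + 2 * i ^ 2 - 2)) * hi
        rw [e2] at h8
        exact h3 (even_of_C4 hi h2 hres (nu_add_le (nu_mul_le hi1 hy1)
          (by rw [Valuation.map_neg]; exact h11)) h8)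
    · have h7 : (-1 : L) ^ m = -1 := hm.neg_one_pow
      rw [h7] at hx2
      refine Sq.congr' h4.le h5 ?_
      have h9 : D / x ^ 2 ≠ 1 := by
        intro h9
        have h12 := congrArg ν h9
        rw [map_div₀, map_pow, hn, one_pow, div_one, map_one] at h12
        exact hD1.ne h12
      have h10 : ν (1 - D / x ^ 2) = 1 := by
        rw [nu_subl, map_one]
        rw [map_one, map_div₀, map_pow, hn, one_pow, div_one]
        exact hD1
      have h11' : (1 - D / x ^ 2) ≠ 0 := fun h => h9 (sub_eq_zero.1 h).symm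
      have e : x * (1 + D) / (x * (1 - D / x ^ 2)) - 1 =
          D * (x ^ 2 + 1) / x ^ 2 / (1 - D / x ^ 2) := by
        rw [div_sub_one (mul_ne_zero hx0 h11'), div_eq_div_iff (mul_ne_zero hx0 h11') h11']
        field_simp
        ring
      have h12 : x ^ 2 + 1 = (1 + i) ^ 5 * -s := by rw [hx2]; ring
      rw [e, map_div₀, map_div₀, map_mul, h10, map_pow, hn, one_pow, div_one, div_one, hD, h12,
        map_mul, Valuation.map_neg, nu_lpow hl, nu_four4 h2]
      calc exp (-1) * (exp (-((5 : ℕ) : ℤ)) * ν s) ≤ exp (-1) * (exp (-((5 : ℕ) : ℤ)) * 1) := by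
            gcongr
        _ < exp (-4) := by
          rw [mul_one, ← exp_add, exp_lt_exp]
          norm_num

/-- **(IV)** `D` has the value `exp (-1)`: `a D ^ t (1 + D) ^ s` is a square. -/
theorem loc4_one {i D a : L} (hi : i ^ 2 = -1) (h2 : ν 2 = exp (-2))
    (hres : ∀ x : L, ν x = 1 → ν (x - 1) < 1) (hD : ν D = exp (-1)) (h : GLoc4 ν D a) :
    ∃ t s : ℕ, t < 2 ∧ s < 2 ∧ Sq ν (a * D ^ t * (1 + D) ^ s) := by
  have h4 := nu_four4_le h2
  have hD0 : D ≠ 0 := by
    rintro rfl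
    rw [map_zero] at hD
    exact exp_ne_zero hD.symm
  rcases h with h | h | ⟨x, hx0, hx, h⟩ | ⟨x, hx0, hx, h⟩
  · exact ⟨0, 0, by norm_num, by norm_num, by rwa [pow_zero, pow_zero, mul_one, mul_one]⟩
  · exact ⟨1, 0, by norm_num, by norm_num, by rwa [pow_one, pow_zero, mul_one]⟩
  · exfalso
    have h16 : ν 16 < ν 4 := by
      have e : (16 : L) = 4 * 4 := by norm_num
      rw [e, map_mul, nu_four4 h2, ← exp_add, exp_lt_exp]
      norm_num
    have h1 : ν (x ^ 2 / D) = 1 := by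
      have := ν.map_one_add_of_lt (x := x ^ 2 / D - 1) (hx.trans (h16.trans h4))
      rwa [add_sub_cancel] at this
    obtain ⟨n, hn⟩ := exists_nu ν hx0
    rw [map_div₀, hD, map_pow, hn, div_eq_one_iff_eq exp_ne_zero, ← exp_nsmul, exp_inj] at h1
    simp only [nsmul_eq_mul, Nat.cast_ofNat] at h1
    omega
  · by_cases hx1 : 1 ≤ ν x
    · rcases loc4_one_pt hi h2 hres hD hx1 hx0 hx with h1 | h1
      · exact ⟨0, 0, by norm_num, by norm_num, by
          rw [pow_zero, pow_zero, mul_one, mul_one]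
          exact h.cancel h4.le h1⟩
      · exact ⟨0, 1, by norm_num, by norm_num, by
          rw [pow_zero, pow_one, mul_one]
          exact Sq.trans' h4.le h h1⟩
    · -- `x' = - D / x`
      have hx0' : -D / x ≠ 0 := div_ne_zero (neg_ne_zero.2 hD0) hx0
      have hx1' : 1 ≤ ν (-D / x) := by
        obtain ⟨n, hn⟩ := exists_nu ν hx0
        rw [not_le, hn, ← exp_zero, exp_lt_exp] at hx1
        rw [map_div₀, Valuation.map_neg, hD, hn, ← exp_sub, ← exp_zero, exp_le_exp]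
        omega
      have hx' : Sq ν (-D / x * ((-D / x) ^ 2 - D)) := by
        have e : -D / x * ((-D / x) ^ 2 - D) * (x ^ 2 / D) ^ 2 = x * (x ^ 2 - D) := by
          field_simp
          ring
        refine Sq.of_mul_sq (div_ne_zero (pow_ne_zero 2 hx0) hD0) ?_
        rwa [e]
      have hax : Sq ν (a * D * (-D / x)) := by
        refine Sq.neg' hi ?_
        have e : -(a * D * (-D / x)) = a * x * (D / x) ^ 2 := by
          field_simp
        rw [e]
        refine Sq.of_mul_sq (div_ne_zero hx0 hD0) ?_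
        have e2 : a * x * (D / x) ^ 2 * (x / D) ^ 2 = a * x := by field_simp
        rwa [e2]
      rcases loc4_one_pt hi h2 hres hD hx1' hx0' hx' with h1 | h1
      · exact ⟨1, 0, by norm_num, by norm_num, by
          rw [pow_one, pow_zero, mul_one]
          exact hax.cancel h4.le h1⟩
      · exact ⟨1, 1, by norm_num, by norm_num, by
          rw [pow_one, pow_one]
          exact Sq.trans' h4.le hax h1⟩

end two

end Pool.Agent.Lib.MP_1a91b9_ntQ.C
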