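import Pool.Agent.Lib.MP_1a91b9_ntQ.C.LocQ
import Pool.Agent.Lib.MP_1a91b9_ntQ.C.LocC4

/-!
# MP_1a91b9_nt (`y² = x³ - δ² x`), converse of the descent: the local conditions

The local images of the descent by `1 - i` at the places which divide `δ` and at `lam`:
`a` or `a δ` is a square at the odd places; at `lam` the points `(δ, 0)`, `x = 5 / lam ^ 2` (the class
`5`), `x = δ i (1 + lam ^ 3 t)` for `δ = ± (1 + 4 e)`, and `x = δ (5 - 6 i + 8 s)`,
`x = δ (5 + 6 i + 8 i s)` for `δ = ± lam (1 + lam ^ 3 s)`, `δ = ± i lam (1 + lam ^ 3 s)`.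
-/

set_option autoImplicit false
set_option linter.unusedSectionVars false
set_option linter.unusedVariables false

namespace Pool.Agent.Lib.MP_1a91b9_ntQ.C

open WithZero
open Pool.Agent.Lib.MP_1a91b9_ntH.C (Sq exists_nu isSquare_exp nu_one)

variable {L : Type*} [Field L] [CharZero L] {ν : Valuation L ℤᵐ⁰}

theorem Sq_pow_two {x : L} (hx : x ≠ 0) : Sq ν (x ^ 2) := Sq.of_isSquare ⟨x, sq x⟩ (pow_ne_zero 2 hx)

theorem Sq_ne {u : L} (h4 : ν 4 ≤ 1) (h : Sq ν u) : u ≠ 0 := by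
  rintro rfl
  obtain ⟨b, hb, h⟩ := h
  rw [zero_div, zero_sub, Valuation.map_neg, map_one] at h
  exact absurd h (not_lt.2 h4)

/-- the class of the point `(δ, 0)` -/
theorem gloc5_delta {δ a : L} (h4 : ν 4 ≤ 1) (hδ : δ ≠ 0) (h : Sq ν (a * δ)) :
    GLoc4 ν (δ ^ 2) a := by
  refine Or.inr (Or.inr (Or.inl ⟨δ, hδ, ?_, h⟩))
  rw [div_self (pow_ne_zero 2 hδ), sub_self, map_zero]
  exact zero_lt_iff.2 ((Valuation.ne_zero_iff _).2 (by norm_num))

/-- **The converse of `loc5_bad`.** -/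
theorem conv5_bad {δ a : L} (h4 : ν 4 ≤ 1) (hδ : δ ≠ 0) (h : Sq ν a ∨ Sq ν (a * δ)) :
    GLoc4 ν (δ ^ 2) a := by
  rcases h with h | h
  · exact Or.inl h
  · exact gloc5_delta h4 hδ h

/-- **the translation by `(δ, 0)`** -/
theorem GLoc4.flip5 {i δ a : L} (hi : i ^ 2 = -1) (h4 : ν 4 ≤ 1) (hδ : δ ≠ 0)
    (h : GLoc4 ν (δ ^ 2) a) : GLoc4 ν (δ ^ 2) (a * δ) := by
  rcases gloc5 hi h4 hδ h with h | h | ⟨x, hx0, hx, h⟩
  · refine gloc5_delta h4 hδ ?_
    have e : a * δ * δ = a * δ ^ 2 := by ring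
    rw [e]
    exact Sq_mul_sq hδ h
  · exact Or.inl h
  · have hne := Sq_ne h4 hx
    have h1 : x - δ ≠ 0 := fun h5 => hne (by rw [sub_eq_zero.1 h5]; ring)
    have h3 : x + δ ≠ 0 := fun h5 => hne (by
      have e : x = -δ := by linear_combination h5
      rw [e]
      ring)
    refine Or.inr (Or.inr (Or.inr ⟨δ * (x + δ) / (x - δ), div_ne_zero (mul_ne_zero hδ h3) h1,
      ?_, ?_⟩))
    · have e : δ * (x + δ) / (x - δ) * ((δ * (x + δ) / (x - δ)) ^ 2 - δ ^ 2) =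
          x * (x ^ 2 - δ ^ 2) * (2 * δ ^ 2 / (x - δ) ^ 2) ^ 2 := by
        field_simp
        ring
      rw [e]
      exact Sq_mul_sq (div_ne_zero (mul_ne_zero two_ne_zero (pow_ne_zero 2 hδ))
        (pow_ne_zero 2 h1)) hx
    · have e : a * δ * (δ * (x + δ) / (x - δ)) = a * x * (x * (x ^ 2 - δ ^ 2)) *
          (δ / (x * (x - δ))) ^ 2 := by
        field_simp
        ring
      rw [e]
      exact Sq_mul_sq (div_ne_zero hδ (mul_ne_zero hx0 h1)) (h.mul h4 hx)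

theorem GLoc4.of_flip5 {i δ a : L} (hi : i ^ 2 = -1) (h4 : ν 4 ≤ 1) (hδ : δ ≠ 0)
    (h : GLoc4 ν (δ ^ 2) (a * δ)) : GLoc4 ν (δ ^ 2) a := by
  have h1 := h.flip5 hi h4 hδ
  have e : a * δ * δ = a * δ ^ 2 := by ring
  rw [e] at h1
  exact GLoc4.of_mul_sq hδ h1

/-- the points with abscissa `δ y` -/
theorem pt5_unit {δ y : L} (hδ : δ ≠ 0) (h : Sq ν (δ * (y * (y ^ 2 - 1)))) :
    Sq ν (δ * y * ((δ * y) ^ 2 - δ ^ 2)) := by
  have e : δ * y * ((δ * y) ^ 2 - δ ^ 2) = δ * (y * (y ^ 2 - 1)) * δ ^ 2 := by ring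
  rw [e]
  exact Sq_mul_sq hδ h

section

variable {i : L} (hi : i ^ 2 = -1) (h2 : ν 2 = exp (-2)) (hres : ∀ x : L, ν x = 1 → ν (x - 1) < 1)

include hi h2

/-- `μ (1 + 4 lam t)` is a square -/
theorem Sq_four_lam {μ t : L} (hμ : μ = 1 ∨ μ = -1) (ht : ν t ≤ 1) :
    Sq ν (μ * (1 + 4 * ((1 + i) * t))) := by
  have key : Sq ν (1 + 4 * ((1 + i) * t)) := by
    refine Sq.one_near ?_
    have e : 1 + 4 * ((1 + i) * t) - 1 = 4 * ((1 + i) * t) := by ring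
    rw [e, map_mul, map_mul, nu_lam2 hi h2]
    have h4 : ν (4 : L) = exp (-4) := nu_four4 h2
    rw [h4]
    refine lt_of_le_of_lt (mul_le_mul_right (mul_le_of_le_one_right zero_le ht) _) ?_
    rw [← exp_add, exp_lt_exp]
    norm_num
  rcases hμ with rfl | rfl
  · rwa [one_mul]
  · refine Sq.neg' hi ?_
    have e : -(-1 * (1 + 4 * ((1 + i) * t))) = 1 + 4 * ((1 + i) * t) := by ring
    rwa [e]

include hres

/-- **the converse of `loc5_lam`** -/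
theorem conv5_lam {δ a : L} (hδ : ν δ = 1) (h : C4 ν a ∨ C4 ν (a * δ)) : GLoc4 ν (δ ^ 2) a := by
  have hδ0 : δ ≠ 0 := by
    rintro rfl
    rw [map_zero] at hδ
    exact zero_ne_one hδ
  have hD : ν (δ ^ 2) = 1 := by rw [map_pow, hδ, one_pow]
  rcases h with h | h
  · exact conv_C4 hi h2 hres hD h
  · exact (conv_C4 hi h2 hres hD h).of_flip5 hi (nu_four4_le h2).le hδ0

/-- **the converse of `loc5_X`** : `δ = ± (1 + 4 e)` -/
theorem conv5_X {δ a μ e e' : L} (hμ : μ = 1 ∨ μ = -1) (he : ν e ≤ 1)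
    (he' : ν e' ≤ 1) (hee : ν (e + e') < 1) (hδe : δ = μ * (1 + 4 * e))
    (h : C4 ν a ∨ C4 ν (a * (i ^ 1 * (1 + (1 + i) ^ 3 * e')))) : GLoc4 ν (δ ^ 2) a := by
  have h4 := nu_four4_le h2
  have hl := nu_lam2 hi h2
  have hi1 := (nu_i (ν := ν) hi).le
  have hl1 : ν (1 + i) ≤ 1 := nu_add_le (map_one ν).le hi1
  obtain ⟨hδ, hδc⟩ := D_data hi h2 hμ hδe he
  have hδ0 : δ ≠ 0 := by
    rintro rfl
    rw [map_zero] at hδ
    exact zero_ne_one hδ
  rcases h with h | h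
  · exact conv5_lam hi h2 hres hδ (Or.inl h)
  have h0 : ν (0 : L) ≤ 1 := by rw [map_zero]; exact zero_le
  have hl0 : (1 + i) ≠ 0 := by
    rw [← ν.ne_zero_iff, hl]
    exact exp_ne_zero
  have hl3 : (1 + i) ^ 3 = 2 * i - 2 := by linear_combination (i + 3) * hi
  obtain ⟨g, hg, hge⟩ := div_lam hl hee
  obtain ⟨f, hf, hfe⟩ : ∃ f : L, ν f ≤ 1 ∧ e ^ 2 - e = (1 + i) * f := by
    refine div_lam hl ?_
    have e3 : e ^ 2 - e = e * (e - 1) := by ring
    rw [e3, map_mul]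
    rcases he.lt_or_eq with h5 | h5
    · exact mul_lt_one_of_lt_of_le h5 (nu_sub_le' he (map_one ν).le)
    · rw [h5, one_mul]
      exact hres e h5
  have hμ' : -μ = 1 ∨ -μ = -1 := by
    rcases hμ with h5 | h5
    · exact Or.inr (by rw [h5])
    · exact Or.inl (by rw [h5, neg_neg])
  -- the point with `t = - e' + lam w`
  have pt : ∀ w : L, ν w ≤ 1 → Sq ν (δ * (i * (1 + (2 * i - 2) * (-e' + (1 + i) * w))) *
      ((δ * (i * (1 + (2 * i - 2) * (-e' + (1 + i) * w)))) ^ 2 - δ ^ 2)) := by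
    intro w hw
    refine pt5_unit hδ0 ?_
    -- `t = e + lam r`
    obtain ⟨r, hr⟩ : ∃ r : L, r = w - g := ⟨_, rfl⟩
    have hr1 : ν r ≤ 1 := by
      rw [hr]
      exact nu_sub_le' hw hg
    have ht : -e' + (1 + i) * w = e + (1 + i) * r := by
      rw [hr]
      linear_combination -hge
    rw [ht]
    obtain ⟨t, htd⟩ : ∃ t : L, t = e + (1 + i) * r := ⟨_, rfl⟩
    rw [← htd]
    have ht1 : ν t ≤ 1 := by
      rw [htd]
      exact nu_add_le he (nu_mul_le hl1 hr1)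
    obtain ⟨X, hX⟩ : ∃ X : L, X = (i - 1) * t - 3 * i * t ^ 2 + 2 * (1 + i) * t ^ 3 := ⟨_, rfl⟩
    have hX1 : ν X ≤ 1 := by
      rw [hX]
      (repeat' first
      | assumption | exact (map_one _).le | exact nu_ofNat_le' _ | apply nu_add_le
      | apply nu_sub_le' | apply nu_neg_le' | apply nu_mul_le | apply nu_pow_le')
    have e1 : δ * (i * (1 + (2 * i - 2) * t) * ((i * (1 + (2 * i - 2) * t)) ^ 2 - 1)) =
        -μ * ((1 + 4 * e) * (1 + 4 * X)) * (1 + i) ^ 2 := by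
      rw [hδe, hX]
      linear_combination (32 * e * i ^ 4 * t ^ 3 * μ - 96 * e * i ^ 3 * t ^ 3 * μ +
        8 * i ^ 4 * t ^ 3 * μ + 64 * e * i ^ 2 * t ^ 3 * μ + 48 * e * i ^ 3 * t ^ 2 * μ -
        24 * i ^ 3 * t ^ 3 * μ + 96 * e * i * t ^ 3 * μ - 96 * e * i ^ 2 * t ^ 2 * μ +
        16 * i ^ 2 * t ^ 3 * μ + 12 * i ^ 3 * t ^ 2 * μ - 48 * e * i * t ^ 2 * μ +
        24 * e * i ^ 2 * t * μ + 32 * e * t ^ 3 * μ + 24 * i * t ^ 3 * μ -
        24 * i ^ 2 * t ^ 2 * μ - 8 * e * i * t * μ - 12 * i * t ^ 2 * μ + 6 * i ^ 2 * t * μ +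
        8 * t ^ 3 * μ + 4 * e * i * μ - 16 * e * t * μ - 2 * i * t * μ + 4 * e * μ + i * μ -
        4 * t * μ + μ) * hi
    have e2 : (1 + 4 * e) * (1 + 4 * X) = 1 + 4 * ((1 + i) * (i * t - e * (1 + 2 * i) -
        3 * i * (f + 2 * e * r + (1 + i) * r ^ 2) + 2 * t ^ 3 + (2 - 2 * i) * e * X)) := by
      rw [hX, htd]
      linear_combination (16 * e * i ^ 4 * r ^ 3 + 64 * e * i ^ 3 * r ^ 3 +
        48 * e ^ 2 * i ^ 3 * r ^ 2 + 96 * e * i ^ 2 * r ^ 3 - 24 * e * i ^ 3 * r ^ 2 +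
        144 * e ^ 2 * i ^ 2 * r ^ 2 + 48 * e ^ 3 * i ^ 2 * r + 64 * e * i * r ^ 3 -
        48 * e * i ^ 2 * r ^ 2 + 144 * e ^ 2 * i * r ^ 2 - 48 * e ^ 2 * i ^ 2 * r +
        96 * e ^ 3 * i * r + 16 * e ^ 4 * i - 24 * e * i * r ^ 2 + 8 * e * i ^ 2 * r +
        16 * e * r ^ 3 - 48 * e ^ 2 * i * r + 48 * e ^ 2 * r ^ 2 - 24 * e ^ 3 * i +
        48 * e ^ 3 * r + 16 * e ^ 4 + 8 * e ^ 2 * i - 8 * e * r - 8 * e ^ 2 - 4 * i * r +
        4 * e - 4 * r) * hi - 12 * i * hfe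
    rw [e1, e2]
    refine Sq_mul_sq hl0 (Sq_four_lam hi h2 hμ' ?_)
    (repeat' first
      | assumption | exact (map_one _).le | exact nu_ofNat_le' _ | apply nu_add_le
      | apply nu_sub_le' | apply nu_neg_le' | apply nu_mul_le | apply nu_pow_le')
  -- the class of the point
  have cl : ∀ w u : L, Sq ν (a * (i ^ 1 * (1 + (1 + i) ^ 3 * e')) * u) → ν w ≤ 1 → u ≠ 0 →
      Sq ν (u * (δ * ((1 + (2 * i - 2) * (-e' + (1 + i) * w)) * (1 + (2 * i - 2) * e')))) →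
      GLoc4 ν (δ ^ 2) a := by
    intro w u h5 hw hu h6
    have h7 := pt w hw
    refine Or.inr (Or.inr (Or.inr ⟨_, ?_, h7, ?_⟩))
    · intro h8
      rw [h8, zero_mul] at h7
      exact Sq_ne h4.le h7 rfl
    · have h9 := h5.mul h4.le h6
      rw [hl3] at h9
      have hne : 1 + (2 * i - 2) * e' ≠ 0 := by
        intro h8
        rw [h8, mul_zero, mul_zero, mul_zero] at h6
        exact Sq_ne h4.le h6 rfl
      refine Sq.of_mul_sq (mul_ne_zero hu hne) ?_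
      have e3 : a * (δ * (i * (1 + (2 * i - 2) * (-e' + (1 + i) * w)))) *
          (u * (1 + (2 * i - 2) * e')) ^ 2 = a * (i ^ 1 * (1 + (2 * i - 2) * e')) * u *
          (u * (δ * ((1 + (2 * i - 2) * (-e' + (1 + i) * w)) * (1 + (2 * i - 2) * e')))) := by
        ring
      rw [e3]
      exact h9
  rcases C4_or hi h2 hres h with h5 | h5
  · refine cl e 1 (by rwa [mul_one]) he one_ne_zero ?_
    have e1 : 1 * (δ * ((1 + (2 * i - 2) * (-e' + (1 + i) * e)) * (1 + (2 * i - 2) * e'))) =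
        μ * (1 + 4 * ((1 + i) * (-((2 - 2 * i) * e * e) -
          (1 + i) * ((-e' + (1 + i) * e) * e') * (1 + 4 * e)))) := by
      rw [hδe]
      linear_combination μ * (32 * e ^ 2 * e' * i + 8 * e * e' * i - 32 * e * e' ^ 2 +
        32 * e ^ 2 * e' + 8 * e * e' - 8 * e' ^ 2 + 2 * e) * hi
    rw [e1]
    refine Sq_four_lam hi h2 hμ ?_
    (repeat' first
      | assumption | exact (map_one _).le | exact nu_ofNat_le' _ | apply nu_add_le
      | apply nu_sub_le' | apply nu_neg_le' | apply nu_mul_le | apply nu_pow_le')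
  · refine cl (e + 1) 5 h5 (nu_add_le he (map_one ν).le) (by norm_num) ?_
    have e1 : 5 * (δ * ((1 + (2 * i - 2) * (-e' + (1 + i) * (e + 1))) * (1 + (2 * i - 2) * e'))) =
        μ * (1 + 4 * ((1 + i) * (-(2 - 2 * i) - 5 * (2 - 2 * i) * e * (e + 1) -
          5 * (1 + i) * ((-e' + (1 + i) * (e + 1)) * e') * (1 + 4 * e)))) := by
      rw [hδe]
      linear_combination μ * (160 * e ^ 2 * e' * i + 200 * e * e' * i - 160 * e * e' ^ 2 +
        160 * e ^ 2 * e' + 200 * e * e' + 40 * e' * i - 40 * e' ^ 2 + 10 * e + 40 * e' + 2) * hi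
    rw [e1]
    refine Sq_four_lam hi h2 hμ ?_
    (repeat' first
      | assumption | exact (map_one _).le | exact nu_ofNat_le' _ | apply nu_add_le
      | apply nu_sub_le' | apply nu_neg_le' | apply nu_mul_le | apply nu_pow_le')

omit hres in
/-- the point with abscissa `δ y` gives the class `y` -/
theorem conv5_y {δ a y z : L} (hp : Sq ν (δ * (y * (y ^ 2 - 1)))) (hy : Sq ν (y * z))
    (h : Sq ν (a * z)) : GLoc4 ν (δ ^ 2) a := by
  have h4 := nu_four4_le h2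
  have hδ0 : δ ≠ 0 := fun h8 => Sq_ne h4.le hp (by rw [h8, zero_mul])
  have hz0 : z ≠ 0 := fun h8 => Sq_ne h4.le h (by rw [h8, mul_zero])
  have hy0 : y ≠ 0 := fun h8 => Sq_ne h4.le hy (by rw [h8, zero_mul])
  refine GLoc4.of_flip5 hi h4.le hδ0 ?_
  refine Or.inr (Or.inr (Or.inr ⟨δ * y, mul_ne_zero hδ0 hy0, pt5_unit hδ0 hp, ?_⟩))
  refine Sq.of_mul_sq hz0 ?_
  have e : a * δ * (δ * y) * z ^ 2 = a * z * (y * z) * δ ^ 2 := by ring
  rw [e]
  exact Sq_mul_sq hδ0 (h.mul h4.le hy)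

omit hres in
/-- `δ = ± lam (1 + lam ^ 3 s)` -/
theorem conv5_even {δ a μ s : L} (hμ : μ = 1 ∨ μ = -1) (hs : ν s ≤ 1)
    (hδe : δ = μ * ((1 + i) * (1 + (1 + i) ^ 3 * s))) (h : Sq ν (a * (1 + (1 + i) ^ 3))) :
    GLoc4 ν (δ ^ 2) a := by
  have h4 := nu_four4_le h2
  have hl := nu_lam2 hi h2
  have hi1 := (nu_i (ν := ν) hi).le
  have hl3 : (1 + i) ^ 3 = 2 * i - 2 := by linear_combination (i + 3) * hi
  have hl0 : (1 + i) ≠ 0 := by
    rw [← ν.ne_zero_iff, hl]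
    exact exp_ne_zero
  have hμ' : -μ = 1 ∨ -μ = -1 := by
    rcases hμ with h5 | h5
    · exact Or.inr (by rw [h5])
    · exact Or.inl (by rw [h5, neg_neg])
  refine conv5_y (y := 5 - 6 * i + 8 * s) hi h2 ?_ ?_ h
  · have e1 : δ * ((5 - 6 * i + 8 * s) * ((5 - 6 * i + 8 * s) ^ 2 - 1)) =
        -μ * (1 + 4 * ((1 + i) * (-32 * i * s ^ 4 + 28 * i * s ^ 3 - 32 * s ^ 4 +
          137 * i * s ^ 2 - 132 * s ^ 3 + 32 * i * s - 37 * s ^ 2 - 13 * i + 57 * s + 7))) *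
          (2 * (1 + i)) ^ 2 := by
      rw [hδe, hl3]
      linear_combination (-512 * i ^ 2 * s ^ 4 * μ - 2048 * i * s ^ 4 * μ +
        448 * i ^ 2 * s ^ 3 * μ - 3072 * i * s ^ 3 * μ + 3920 * i ^ 2 * s ^ 2 * μ -
        432 * i ^ 3 * s * μ - 1536 * s ^ 4 * μ + 3104 * i * s ^ 2 * μ + 1592 * i ^ 2 * s * μ -
        3520 * s ^ 3 * μ + 3288 * i * s * μ - 424 * i ^ 2 * μ - 816 * s ^ 2 * μ - 188 * i * μ +
        1264 * s * μ + 236 * μ) * hi
    rw [e1]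
    refine Sq_mul_sq (mul_ne_zero two_ne_zero hl0) (Sq_four_lam hi h2 hμ' ?_)
    (repeat' first
      | assumption | exact (map_one _).le | exact nu_ofNat_le' _ | apply nu_add_le
      | apply nu_sub_le' | apply nu_neg_le' | apply nu_mul_le | apply nu_pow_le')
  · have e1 : (5 - 6 * i + 8 * s) * (1 + (1 + i) ^ 3) =
        -1 * (1 + 4 * ((1 + i) * (-3 * i * s - i - s - 3))) := by
      rw [hl3]
      linear_combination -(12 * s + 16) * hi
    rw [e1]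
    refine Sq_four_lam hi h2 (Or.inr rfl) ?_
    (repeat' first
      | assumption | exact (map_one _).le | exact nu_ofNat_le' _ | apply nu_add_le
      | apply nu_sub_le' | apply nu_neg_le' | apply nu_mul_le | apply nu_pow_le')

omit hres in
/-- `δ = ± i lam (1 + lam ^ 3 s)` -/
theorem conv5_odd {δ a μ s : L} (hμ : μ = 1 ∨ μ = -1) (hs : ν s ≤ 1)
    (hδe : δ = μ * (i * ((1 + i) * (1 + (1 + i) ^ 3 * s)))) (h : Sq ν (a * (1 + (1 + i) ^ 3 * i))) :
    GLoc4 ν (δ ^ 2) a := by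
  have h4 := nu_four4_le h2
  have hl := nu_lam2 hi h2
  have hi1 := (nu_i (ν := ν) hi).le
  have hl3 : (1 + i) ^ 3 = 2 * i - 2 := by linear_combination (i + 3) * hi
  have hl0 : (1 + i) ≠ 0 := by
    rw [← ν.ne_zero_iff, hl]
    exact exp_ne_zero
  have hμ' : -μ = 1 ∨ -μ = -1 := by
    rcases hμ with h5 | h5
    · exact Or.inr (by rw [h5])
    · exact Or.inl (by rw [h5, neg_neg])
  refine conv5_y (y := 5 + 6 * i + 8 * i * s) hi h2 ?_ ?_ h
  · have e1 : δ * ((5 + 6 * i + 8 * i * s) * ((5 + 6 * i + 8 * i * s) ^ 2 - 1)) =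
        -μ * (1 + 4 * ((1 + i) * (-32 * i * s ^ 4 + 4 * i * s ^ 3 - 32 * s ^ 4 +
          109 * i * s ^ 2 - 132 * s ^ 3 + 49 * i * s - 77 * s ^ 2 - 7 * i + 33 * s + 13))) *
          (2 * (1 + i)) ^ 2 := by
      rw [hδe, hl3]
      linear_combination (1024 * i ^ 4 * s ^ 4 * μ + 2304 * i ^ 4 * s ^ 3 * μ -
        2560 * i ^ 2 * s ^ 4 * μ + 2432 * i ^ 3 * s ^ 3 * μ + 1728 * i ^ 4 * s ^ 2 * μ -
        2048 * i * s ^ 4 * μ - 4032 * i ^ 2 * s ^ 3 * μ + 4032 * i ^ 3 * s ^ 2 * μ +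
        432 * i ^ 4 * s * μ - 6272 * i * s ^ 3 * μ + 1584 * i ^ 2 * s ^ 2 * μ +
        1944 * i ^ 3 * s * μ - 512 * s ^ 4 * μ - 1952 * i * s ^ 2 * μ + 3112 * i ^ 2 * s * μ +
        216 * i ^ 3 * μ - 2112 * s ^ 3 * μ + 2128 * i * s * μ + 644 * i ^ 2 * μ -
        1232 * s ^ 2 * μ + 640 * i * μ + 528 * s * μ + 212 * μ) * hi
    rw [e1]
    refine Sq_mul_sq (mul_ne_zero two_ne_zero hl0) (Sq_four_lam hi h2 hμ' ?_)
    (repeat' first
      | assumption | exact (map_one _).le | exact nu_ofNat_le' _ | apply nu_add_le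
      | apply nu_sub_le' | apply nu_neg_le' | apply nu_mul_le | apply nu_pow_le')
  · have e1 : (5 + 6 * i + 8 * i * s) * (1 + (1 + i) ^ 3 * i) =
        -1 * (1 + 4 * ((1 + i) * (3 * i * s + 3 * i - s + 1))) := by
      rw [hl3]
      linear_combination -(-16 * i * s - 12 * i + 4 * s - 10) * hi
    rw [e1]
    refine Sq_four_lam hi h2 (Or.inr rfl) ?_
    (repeat' first
      | assumption | exact (map_one _).le | exact nu_ofNat_le' _ | apply nu_add_le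
      | apply nu_sub_le' | apply nu_neg_le' | apply nu_mul_le | apply nu_pow_le')

end

end Pool.Agent.Lib.MP_1a91b9_ntQ.C
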