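import Pool.Agent.Lib.MP_1a91b9_ntQ.C.Om

/-!
# The endomorphism `1 - i` of `y² = x³ - d x` and its kernel
-/

set_option autoImplicit false

namespace Pool.Agent.Lib.MP_1a91b9_ntQ.C

open WeierstrassCurve
open scoped Classical

variable {F : Type*} [Field F] [CharZero F] {W : Affine F} {z d : F}

private theorem mu_congr {x x' y y' : F} (hx : x = x') (hy : y = y') (h1 : W.Nonsingular x y)
    (h2 : W.Nonsingular x' y') : Affine.Point.some x y h1 = Affine.Point.some x' y' h2 := by
  subst hx
  subst hy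
  rfl

theorem negY_eq (h : IsQ W z d) (x y : F) : W.negY x y = -y := by
  have ha1 : W.a₁ = 0 := by rw [h.eq, cq]
  have ha3 : W.a₃ = 0 := by rw [h.eq, cq]
  rw [Affine.negY, ha1, ha3]
  ring

theorem om_om (h : IsQ W z d) (P : W.Point) : omP h (omP h P) = -P := by
  rcases P with _ | ⟨x, y, hn⟩
  · change omP h (omP h 0) = -(0 : W.Point)
    rw [map_zero, map_zero, neg_zero]
  · obtain ⟨hn1, h1⟩ := omP_some h x y hn
    obtain ⟨hn2, h2⟩ := omP_some h (-x) (z * y) hn1
    rw [h1, h2, Affine.Point.neg_some]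
    exact mu_congr (neg_neg x) (by
      rw [negY_eq h]
      linear_combination y * h.hz) _ _

/-- the point with abscissa `0` -/
theorem y_zero (h : IsQ W z d) {y : F} (hn : W.Nonsingular 0 y) : y = 0 := by
  have h1 := (h.nons 0 y).1 hn
  exact (pow_eq_zero_iff two_ne_zero).1 (by linear_combination h1)

theorem omP_fixed (h : IsQ W z d) {x y : F} (hn : W.Nonsingular x y) :
    omP h (.some x y hn) = .some x y hn ↔ x = 0 := by
  obtain ⟨hn1, h1⟩ := omP_some h x y hn
  rw [h1]
  constructor
  · intro h2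
    have h3 : -x = x := by
      injection h2
    have h4 : 2 * x = 0 := by linear_combination -h3
    exact (mul_eq_zero.1 h4).resolve_left two_ne_zero
  · intro hx
    subst hx
    have hy := y_zero h hn
    exact mu_congr neg_zero (by rw [hy, mul_zero]) hn1 hn

/-- The endomorphism `1 - i`. -/
noncomputable def mu (h : IsQ W z d) : W.Point →+ W.Point := AddMonoidHom.id _ - omP h

theorem mu_apply (h : IsQ W z d) (P : W.Point) : mu h P = P - omP h P := rfl

theorem mu_mu (h : IsQ W z d) (P : W.Point) : mu h (mu h P) = -(2 • omP h P) := by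
  rw [mu_apply, mu_apply, map_sub, om_om]
  abel

theorem mu_om (h : IsQ W z d) (P : W.Point) : mu h (omP h P) = omP h (mu h P) := by
  rw [mu_apply, mu_apply, map_sub]

theorem mu_zero (h : IsQ W z d) (P : W.Point) (hP : mu h P = 0) :
    P = 0 ∨ ∃ (x y : F) (hn : W.Nonsingular x y), P = .some x y hn ∧ x = 0 := by
  rcases P with _ | ⟨x, y, hn⟩
  · exact Or.inl rfl
  · refine Or.inr ⟨x, y, hn, rfl, ?_⟩
    rw [mu_apply, sub_eq_zero] at hP
    exact (omP_fixed h hn).1 hP.symm

/-- The point `(0, 0)`. -/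
noncomputable def tq (h : IsQ W z d) : W.Point :=
  Affine.Point.some 0 0 ((h.nons _ _).2 (by ring))

theorem tq_ne (h : IsQ W z d) : tq h ≠ 0 := by
  unfold tq
  exact Affine.Point.some_ne_zero _

theorem neg_tq (h : IsQ W z d) : -tq h = tq h := by
  unfold tq
  rw [Affine.Point.neg_some, Affine.Point.some.injEq]
  refine ⟨rfl, ?_⟩
  rw [negY_eq h, neg_zero]

theorem mu_tq (h : IsQ W z d) : mu h (tq h) = 0 := by
  rw [mu_apply, sub_eq_zero]
  symm
  unfold tq
  rw [omP_fixed]

theorem tq_add_self (h : IsQ W z d) : tq h + tq h = 0 := by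
  nth_rewrite 1 [← neg_tq h]
  exact neg_add_cancel _

theorem mu_ker_all (h : IsQ W z d) (P : W.Point) (hP : mu h P = 0) : P = 0 ∨ P = tq h := by
  rcases mu_zero h P hP with h1 | ⟨x, y, hn, rfl, rfl⟩
  · exact Or.inl h1
  · right
    exact mu_congr rfl (y_zero h hn) _ _

/-- The character of the kernel of `1 - i`. -/
noncomputable def ch (F' : Type*) [Field F'] (P : W.Point) : F' :=
  if P = 0 then 1 else -1

omit [CharZero F] in
theorem ch_zero {F' : Type*} [Field F'] : ch F' (0 : W.Point) = 1 := by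
  unfold ch
  rw [if_pos rfl]

theorem ch_tq (h : IsQ W z d) {F' : Type*} [Field F'] : ch F' (tq h) = -1 := by
  unfold ch
  rw [if_neg (tq_ne h)]

omit [CharZero F] in
theorem ch_cases {F' : Type*} [Field F'] (P : W.Point) : ch F' P = 1 ∨ ch F' P = -1 := by
  unfold ch
  split_ifs
  · exact Or.inl rfl
  · exact Or.inr rfl

omit [CharZero F] in
theorem ch_sq {F' : Type*} [Field F'] (P : W.Point) : ch F' P ^ 2 = 1 := by
  rcases ch_cases (F' := F') P with e | e
  · rw [e, one_pow]
  · rw [e, neg_one_sq]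

omit [CharZero F] in
theorem ch_ne {F' : Type*} [Field F'] (P : W.Point) : ch F' P ≠ 0 := by
  intro h0
  have h1 := ch_sq (F' := F') P
  rw [h0] at h1
  norm_num at h1

theorem ch_add (h : IsQ W z d) {F' : Type*} [Field F'] (P Q : W.Point) (hP : mu h P = 0)
    (hQ : mu h Q = 0) : ch F' (P + Q) = ch F' P * ch F' Q := by
  rcases mu_ker_all h P hP with rfl | rfl
  · rw [zero_add, ch_zero, one_mul]
  · rcases mu_ker_all h Q hQ with rfl | rfl
    · rw [add_zero, ch_zero, mul_one]
    · rw [tq_add_self, ch_zero, ch_tq]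
      norm_num

theorem ch_inj (h : IsQ W z d) {F' : Type*} [Field F'] [CharZero F'] (P Q : W.Point)
    (hP : mu h P = 0) (hQ : mu h Q = 0) (e : ch F' P = ch F' Q) : P = Q := by
  have h2 : (2 : F') ≠ 0 := two_ne_zero
  rcases mu_ker_all h P hP with rfl | rfl <;> rcases mu_ker_all h Q hQ with rfl | rfl
  · rfl
  · rw [ch_zero, ch_tq h] at e
    exact absurd (by linear_combination e) h2
  · rw [ch_zero, ch_tq h] at e
    exact absurd (by linear_combination -e) h2
  · rfl

end Pool.Agent.Lib.MP_1a91b9_ntQ.C
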