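import Pool.Agent.Lib.MP_1a91b9_nt.VcPoint
import Pool.Agent.Lib.MP_1a91b9_ntT.S9.KB
import Pool.Agent.Lib.MP_1a91b9_ntT3.S9.Defs

/-!
# The curve `y² = x³ - d x`, `z² = -1`, and its automorphism `(x, y) ↦ (-x, z y)`
-/

set_option autoImplicit false

namespace Pool.Agent.Lib.MP_1a91b9_ntQ.C

open WeierstrassCurve
open scoped Classical

/-- The curve `y² = x³ - d x`. -/
def cq {F : Type*} [Field F] (d : F) : WeierstrassCurve F := ⟨0, 0, 0, -d, 0⟩

/-- `W` is the curve `y² = x³ - d x`, `d ≠ 0`, and `z² = -1`. -/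
structure IsQ {F : Type*} [Field F] (W : Affine F) (z d : F) : Prop where
  eq : W = cq d
  hz : z ^ 2 = -1
  hd : d ≠ 0

section
variable {F : Type*} [Field F] {W : Affine F} {z d : F}

theorem IsQ.eqn (h : IsQ W z d) (x y : F) : W.Equation x y ↔ y ^ 2 = x ^ 3 - d * x := by
  rw [h.eq, cq, Affine.equation_iff]
  dsimp only
  constructor
  · intro e
    linear_combination e
  · intro e
    linear_combination e

theorem IsQ.nons [CharZero F] (h : IsQ W z d) (x y : F) :
    W.Nonsingular x y ↔ y ^ 2 = x ^ 3 - d * x := by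
  rw [Affine.nonsingular_iff, h.eqn]
  constructor
  · exact fun e => e.1
  · intro e
    refine ⟨e, ?_⟩
    by_contra hc
    push Not at hc
    obtain ⟨h1, h2⟩ := hc
    rw [h.eq, cq] at h1 h2
    dsimp only at h1 h2
    have hy : 2 * y = 0 := by linear_combination h2
    have hy' : y = 0 := (mul_eq_zero.1 hy).resolve_left two_ne_zero
    have hx2 : 3 * x ^ 2 = d := by linear_combination -h1
    have hx3 : 2 * x ^ 3 = 0 := by
      rw [hy'] at e
      linear_combination e + x * hx2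
    have hx : x = 0 := (pow_eq_zero_iff three_ne_zero).1
      ((mul_eq_zero.1 hx3).resolve_left two_ne_zero)
    apply h.hd
    rw [← hx2, hx]
    ring

theorem IsQ.z4 (h : IsQ W z d) : z ^ 4 = 1 := by
  linear_combination (z ^ 2 - 1) * h.hz

theorem IsQ.z0 (h : IsQ W z d) : z ≠ 0 := by
  rintro rfl
  have hz := h.hz
  norm_num at hz

theorem IsQ.z1 [CharZero F] (h : IsQ W z d) : 1 - z ≠ 0 := by
  intro h1
  have h2 : (2 : F) = 0 := by linear_combination (1 + z) * h1 + h.hz
  exact two_ne_zero h2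

theorem exists_omP (h : IsQ W z d) : ∃ f : W.Point →+ W.Point, ∀ (x y : F)
    (hn : W.Nonsingular x y), ∃ hn', f (.some x y hn) = .some (-x) (z * y) hn' := by
  have hz := h.hz
  have hz0 := h.z0
  let C : VariableChange F := ⟨Units.mk0 (-z) (neg_ne_zero.2 hz0), 0, 0, 0⟩
  have hui : ((C.u⁻¹ : Fˣ) : F) = z := by
    change ((Units.mk0 (-z) (neg_ne_zero.2 hz0))⁻¹ : Fˣ).val = z
    rw [Units.val_inv_eq_inv_val, Units.val_mk0]
    exact inv_eq_of_mul_eq_one_right (by linear_combination -hz)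
  have hCW : C • W = W := by
    rw [h.eq, cq]
    ext
    · rw [variableChange_a₁, hui]
      change z * (0 + 2 * 0) = 0
      ring
    · rw [variableChange_a₂, hui]
      change z ^ 2 * (0 - 0 * 0 + 3 * 0 - 0 ^ 2) = 0
      ring
    · rw [variableChange_a₃, hui]
      change z ^ 3 * (0 + 0 * 0 + 2 * 0) = 0
      ring
    · rw [variableChange_a₄, hui]
      change z ^ 4 * (-d - 0 * 0 + 2 * 0 * 0 - (0 + 0 * 0) * 0 +
        3 * (0) ^ 2 - 2 * 0 * 0) = -d
      linear_combination (-d) * h.z4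
    · rw [variableChange_a₆, hui]
      change z ^ 6 * (0 + 0 * (-d) + (0) ^ 2 * 0 + (0) ^ 3 - 0 * 0 - 0 ^ 2 -
        0 * 0 * 0) = 0
      ring
  have key := Pool.Agent.Lib.MP_1a91b9_nt.exists_point_equiv W C
  rw [hCW] at key
  obtain ⟨e, he⟩ := key
  refine ⟨e.toAddMonoidHom, fun x y hn => ?_⟩
  obtain ⟨h', h1⟩ := he x y hn
  have e2 : ((C.u : F)) = -z := rfl
  have ex : (C.u : F) ^ 2 * x + C.r = -x := by
    rw [e2]
    change (-z) ^ 2 * x + 0 = _
    linear_combination x * hz
  have ey : (C.u : F) ^ 3 * y + (C.u : F) ^ 2 * C.s * x + C.t = z * y := by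
    rw [e2]
    change (-z) ^ 3 * y + (-z) ^ 2 * 0 * x + 0 = _
    linear_combination (-z * y) * hz
  have h2 : ∀ (x' y' : F) (h' : W.Nonsingular x' y'), x' = -x → y' = z * y →
      e (.some x y hn) = .some x' y' h' → ∃ hn', e (.some x y hn) = .some (-x) (z * y) hn' := by
    intro x' y' hq hx' hy' h3
    subst hx'
    subst hy'
    exact ⟨hq, h3⟩
  exact h2 _ _ h' ex ey h1

/-- The automorphism `(x, y) ↦ (-x, z y)`. -/
noncomputable def omP (h : IsQ W z d) : W.Point →+ W.Point := (exists_omP h).choose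

theorem omP_some (h : IsQ W z d) (x y : F) (hn : W.Nonsingular x y) :
    ∃ hn', omP h (.some x y hn) = .some (-x) (z * y) hn' :=
  (exists_omP h).choose_spec x y hn

end

end Pool.Agent.Lib.MP_1a91b9_ntQ.C
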