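import Pool.Agent.Lib.MP_1a91b9_ntQ.C.Per4
import Pool.Agent.Lib.MP_1a91b9_ntQ.A.Inst
import Pool.Agent.Lib.MP_1a91b9_nuX.QW.PerA

/-!
# Quartic twists, part C, file Prd4: the period of `y² = x³ - D x` over `ℚ(i)`

The period is `2 ‖Om‖² / ‖D‖^(1/2)`, and twice that if `D = 1 ± 2 i` modulo `8`.
-/

set_option autoImplicit false
set_option linter.unusedSectionVars false

namespace Pool.Agent.Lib.MP_1a91b9_ntQ.C

open NumberField IsDedekindDomain WithZero WeierstrassCurve Pool.Agent.Lib.MP_1a91b9_ntQ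
  Pool.Agent.Lib.MP_1a91b9_nuT
open Pool.Agent.Lib.MP_1a91b9_ntT.S9 (tam normFactor period minChange)
open Pool.Agent.Lib.MP_1a91b9_ntT.Per (perAt)
open scoped Classical

/-! ### The infinite place -/

theorem sd4 : sd = 2 := by
  have h : sd = Real.sqrt ((4 * CD.nm - CD.tr ^ 2 : ℤ) : ℝ) := rfl
  have h1 : (CD.nm : ℤ) = 1 := q4.nm
  have h2 : (CD.tr : ℤ) = 0 := q4.tr
  rw [h, h1, h2]
  have : (((4 * 1 - 0 ^ 2 : ℤ)) : ℝ) = 2 ^ 2 := by norm_num
  rw [this]
  exact Real.sqrt_sq (by norm_num)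

theorem not_real4 (v : InfinitePlace K4) : ¬ v.IsReal := by
  intro h
  have h1 := congrArg (InfinitePlace.embedding_of_isReal h) iK_sq
  rw [map_pow, map_neg, map_one] at h1
  nlinarith [sq_nonneg (InfinitePlace.embedding_of_isReal h iK)]

theorem card_places4 : Fintype.card (InfinitePlace K4) = 1 := by
  have h1 := InfinitePlace.card_add_two_mul_card_eq_rank K4
  rw [finrank_K4] at h1
  have h2 : InfinitePlace.nrRealPlaces K4 = 0 := by
    rw [InfinitePlace.nrRealPlaces, Fintype.card_eq_zero_iff]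
    exact ⟨fun w => not_real4 w.1 w.2⟩
  have h3 := InfinitePlace.card_eq_nrRealPlaces_add_nrComplexPlaces K4
  omega

theorem perAt4 {D : K4} (hD : D ≠ 0) (v : InfinitePlace K4) :
    perAt (⟨0, 0, 0, -D, 0⟩ : WeierstrassCurve K4) v =
      2 * (‖Om‖ ^ 2 / ‖emb4 D‖ ^ (1 / 2 : ℝ)) := by
  obtain ⟨t, ht⟩ := IsAlgClosed.exists_pow_nat_eq (v.embedding D) (n := 4) (by norm_num)
  have hv0 : v.embedding D ≠ 0 := (map_ne_zero v.embedding).2 hD
  have ht0 : t ≠ 0 := by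
    rintro rfl
    rw [zero_pow (by norm_num)] at ht
    exact hv0 ht.symm
  have hA : (CD.A : ℤ) = -1 := q4.A
  have hB : (CD.B : ℤ) = 0 := q4.B
  have h1 := Pool.Agent.Lib.MP_1a91b9_nuX.QW.perAt_complex (N := K4) (a := -D) (b := 0) (v := v)
    (t := t) (not_real4 v) ht0
    (by rw [hA, map_neg, ht]; push_cast; ring)
    (by rw [hB, map_zero]; push_cast; ring)
  have h2 : perAt (⟨0, 0, 0, -D, 0⟩ : WeierstrassCurve K4) v =
      Pool.Agent.Lib.MP_1a91b9_nuT.Per.perAt (Per.cv (-D) 0) v := rfl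
  have h3 : ‖v.embedding D‖ = ‖emb4 D‖ := by
    have h4 : v = InfinitePlace.mk emb4.toRingHom :=
      (Fintype.card_le_one_iff.1 card_places4.le) _ _
    have h5 : ‖v.embedding D‖ = v D := by
      rw [← InfinitePlace.apply, InfinitePlace.mk_embedding]
    rw [h5, h4]
    rfl
  have h4 : ‖t‖ ^ 2 = ‖emb4 D‖ ^ (1 / 2 : ℝ) := by
    rw [← h3, ← ht, norm_pow, ← Real.sqrt_eq_rpow]
    have e : ‖t‖ ^ 4 = (‖t‖ ^ 2) ^ 2 := by ring
    rw [e, Real.sqrt_sq (by positivity)]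
  rw [h2, h1, sd4, h4]

theorem prod_perAt4 {D : 𝓞 K4} (hD : D ≠ 0) :
    ∏ v : InfinitePlace K4, perAt (WD4 D) v = 2 * (‖Om‖ ^ 2 / ‖em D‖ ^ (1 / 2 : ℝ)) := by
  have hDK : (D : K4) ≠ 0 := fun h => hD (RingOfIntegers.ext h)
  have h : ∀ v : InfinitePlace K4, perAt (WD4 D) v = 2 * (‖Om‖ ^ 2 / ‖em D‖ ^ (1 / 2 : ℝ)) :=
    fun v => perAt4 hDK v
  simp only [h]
  rw [Finset.prod_const, Finset.card_univ, card_places4, pow_one]

/-! ### The finite places -/

variable {D : 𝓞 K4}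

theorem nf4_one {v : HeightOneSpectrum (𝓞 K4)}
    (h : Valued.v ((minChange (WD4 D) v).u : v.adicCompletion K4) = (1 : ℤᵐ⁰)) :
    normFactor (WD4 D) v = 1 := by
  rw [normFactor, h, log_one, neg_zero, zpow_zero]

/-- **The period.** -/
theorem period4 (hD : Squarefree D) (h1 : ¬ 8 ∣ D - (1 + 2 * iO)) (h2 : ¬ 8 ∣ D - (1 - 2 * iO)) :
    period (WD4 D) = 2 * (‖Om‖ ^ 2 / ‖em D‖ ^ (1 / 2 : ℝ)) := by
  rw [period, finprod_congr (fun v => nf4_one (per4_u hD h1 h2 v)), finprod_one,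
    prod_perAt4 hD.ne_zero, one_mul]

/-- **The period if `D = 1 ± 2 i` modulo `8`.** -/
theorem period4_good (hD : Squarefree D) (h : 8 ∣ D - (1 + 2 * iO) ∨ 8 ∣ D - (1 - 2 * iO)) :
    period (WD4 D) = 2 * (2 * (‖Om‖ ^ 2 / ‖em D‖ ^ (1 / 2 : ℝ))) := by
  obtain ⟨w, hw⟩ : ∃ w : HeightOneSpectrum (𝓞 K4), w.asIdeal = Ideal.span {lam} :=
    ⟨⟨Ideal.span {lam}, (Ideal.span_singleton_prime lam_prime.ne_zero).2 lam_prime, by
      rw [Ne, Ideal.span_singleton_eq_bot]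
      exact lam_prime.ne_zero⟩, rfl⟩
  have hlw : lam ∈ w.asIdeal := by
    rw [hw]
    exact Ideal.mem_span_singleton_self _
  have h1 : ∏ᶠ v : HeightOneSpectrum (𝓞 K4), normFactor (WD4 D) v = 2 := by
    rw [finprod_eq_single _ w]
    · rw [normFactor, per4_u_good h hlw, log_exp, neg_neg, zpow_one, hw,
        Ideal.absNorm_span_singleton]
      have h3 : (Algebra.norm ℤ (lam : 𝓞 K4)).natAbs = 2 := Nz_lam
      rw [h3]
      norm_num
    · intro v hv
      apply nf4_one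
      apply per4_u_odd hD
      intro hm
      apply hv
      apply HeightOneSpectrum.ext
      rw [ideal_eq' lam_prime hm, hw]
  rw [period, h1, prod_perAt4 hD.ne_zero]

/-! ### The discriminant of the field -/

theorem discr_K4 : discr K4 = -4 := by
  have h3 : Fact (Nat.Prime 2) := ⟨Nat.prime_two⟩
  have hi : IsCyclotomicExtension {2 ^ (1 + 1)} ℚ K4 := by
    have : (2 ^ (1 + 1) : ℕ) = 4 := by norm_num
    rw [this]
    infer_instance
  have h := IsCyclotomicExtension.Rat.discr_prime_pow_succ 2 1 K4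
  norm_num at h
  exact h

theorem sqrt_discr_K4 : √|(discr K4 : ℝ)| = 2 := by
  rw [discr_K4]
  have : |((-4 : ℤ) : ℝ)| = 2 ^ 2 := by norm_num
  rw [this]
  exact Real.sqrt_sq (by norm_num)

end Pool.Agent.Lib.MP_1a91b9_ntQ.C
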