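import Pool.Agent.Lib.MP_1a91b9_ntQ.C.Tam4

/-!
# MP_1a91b9_nt (quartic twists), the product of the Tamagawa numbers of `y² = x³ - D x`

`p q`, `q` in `S`: the odd primes which divide `D`, each once. The product of the Tamagawa numbers is
`2 ^ S.card` times the one at `1 + i`.
-/

set_option autoImplicit false
set_option linter.unusedSectionVars false

namespace Pool.Agent.Lib.MP_1a91b9_ntQ.C

open NumberField IsDedekindDomain WithZero Finset Pool.Agent.Lib.MP_1a91b9_ntQ
open Pool.Agent.Lib.MP_1a91b9_ntT.S9 (tam)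
open scoped Classical

/-- `p q`, `q` in `S`, are the odd primes which divide `D`, with exponent one. -/
structure PD4 {ι : Type} (D : 𝓞 K4) (p : ι → 𝓞 K4) (S : Finset ι) : Prop where
  prime : ∀ q ∈ S, Prime (p q)
  inj : ∀ q ∈ S, ∀ r ∈ S, p q ∣ p r → q = r
  dvd : ∀ q ∈ S, p q ∣ D
  sq : ∀ q ∈ S, ¬ p q ^ 2 ∣ D
  odd : ∀ q ∈ S, ¬ lam ∣ p q
  all : ∀ r : 𝓞 K4, Prime r → ¬ lam ∣ r → r ∣ D → ∃ q ∈ S, p q ∣ r

/-- **The product of the Tamagawa numbers.** -/
theorem finprod_tam4 {ι : Type} {D : 𝓞 K4} {p : ι → 𝓞 K4} {S : Finset ι} (h : PD4 D p S)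
    {w : HeightOneSpectrum (𝓞 K4)} (hw : lam ∈ w.asIdeal) :
    ∏ᶠ v : HeightOneSpectrum (𝓞 K4), tam (WD4 D) v = 2 ^ S.card * tam (WD4 D) w := by
  have hpid : IsPrincipalIdealRing (𝓞 K4) := pidK4
  have hex : ∀ q : ι, ∃ v : HeightOneSpectrum (𝓞 K4), q ∈ S → v.asIdeal = Ideal.span {p q} := by
    intro q
    by_cases hq : q ∈ S
    · exact ⟨⟨Ideal.span {p q}, (Ideal.span_singleton_prime (h.prime q hq).ne_zero).2 (h.prime q hq),
        by
          rw [Ne, Ideal.span_singleton_eq_bot]
          exact (h.prime q hq).ne_zero⟩, fun _ => rfl⟩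
    · exact ⟨w, fun h4 => absurd h4 hq⟩
  choose P hP using hex
  have hmem : ∀ q ∈ S, p q ∈ (P q).asIdeal := by
    intro q hq
    rw [hP q hq]
    exact Ideal.mem_span_singleton_self _
  have hlP : ∀ q ∈ S, lam ∉ (P q).asIdeal := by
    intro q hq hm
    have h1 : p q ∈ Ideal.span {lam} := by
      rw [← ideal_eq' lam_prime hm]
      exact hmem q hq
    exact h.odd q hq (Ideal.mem_span_singleton.1 h1)
  have hinj : Set.InjOn P S := by
    intro q hq r hr hqr
    apply h.inj q hq r hr
    rw [← Ideal.mem_span_singleton, ← hP q hq, hqr]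
    exact hmem r hr
  have hwS : w ∉ S.image P := by
    intro hm
    obtain ⟨q, hq, rfl⟩ := Finset.mem_image.1 hm
    exact hlP q hq hw
  have hsupp : (Function.mulSupport fun v : HeightOneSpectrum (𝓞 K4) => tam (WD4 D) v) ⊆
      ((insert w (S.image P) : Finset (HeightOneSpectrum (𝓞 K4))) :
        Set (HeightOneSpectrum (𝓞 K4))) := by
    intro v hv
    rw [Function.mem_mulSupport] at hv
    rw [Finset.mem_coe, Finset.mem_insert, Finset.mem_image]
    by_contra hcon
    push Not at hcon
    obtain ⟨nw, nS⟩ := hcon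
    have hlv : lam ∉ v.asIdeal := by
      intro hm
      apply nw
      apply HeightOneSpectrum.ext
      rw [ideal_eq' lam_prime hm, ideal_eq' lam_prime hw]
    apply hv
    apply tam4_good hlv
    intro hm
    obtain ⟨r, hr⟩ := (hpid.principal v.asIdeal).principal
    have hr' : v.asIdeal = Ideal.span {r} := hr
    have hr0 : r ≠ 0 := by
      rintro rfl
      apply v.ne_bot
      rw [hr', Ideal.span_singleton_eq_bot.2 rfl]
    have hrp : Prime r := by
      rw [← Ideal.span_singleton_prime hr0, ← hr']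
      exact v.isPrime
    have hlr : ¬ lam ∣ r := by
      intro h5
      apply hlv
      have h6 := (lam_prime.dvd_prime_iff_associated hrp).1 h5
      rw [hr', ← Ideal.span_singleton_eq_span_singleton.2 h6]
      exact Ideal.mem_span_singleton_self _
    rw [hr', Ideal.mem_span_singleton] at hm
    obtain ⟨q, hq, hqr⟩ := h.all r hrp hlr hm
    apply nS q hq
    apply HeightOneSpectrum.ext
    rw [hP q hq, hr', Ideal.span_singleton_eq_span_singleton]
    exact ((h.prime q hq).dvd_prime_iff_associated hrp).1 hqr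
  rw [finprod_eq_prod_of_mulSupport_subset _ hsupp, Finset.prod_insert hwS,
    Finset.prod_image hinj, Finset.prod_congr rfl (fun q hq =>
      tam4_dvd_odd (h.prime q hq) (h.dvd q hq) (h.sq q hq) (hmem q hq) (hlP q hq)),
    Finset.prod_const, mul_comm]

end Pool.Agent.Lib.MP_1a91b9_ntQ.C
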