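import Pool.Agent.Lib.MP_1a91b9_ntQ.A.Rat4N
import Pool.Agent.Lib.MP_1a91b9_ntQ.A.SerP
import Pool.Agent.Lib.MP_1a91b9_ntQ.C.Prd4
import Pool.Agent.Lib.MP_1a91b9_ntQ.C.TamP4
import Pool.Agent.Lib.MP_1a91b9_ntT3.R3.Defs
import Pool.Agent.Lib.MP_1a91b9_ntT3.S9.Un

/-!
# Quartic twists, part C, file Part4: the 2-part of the formula of Birch and Swinnerton-Dyer

`g(1) √4 / Ω = (‖nu‖² ‖D‖ ^ (-3/2)) * 2 ^ |S| / 4`, and `nu` is a unit above `2`.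
-/

set_option autoImplicit false
set_option linter.unusedSectionVars false

namespace Pool.Agent.Lib.MP_1a91b9_ntQ.C

open NumberField IsDedekindDomain WithZero WeierstrassCurve Pool.Agent.Lib.MP_1a91b9_ntQ
  Pool.Agent.Lib.MP_1a91b9_nuT
open Pool.Agent.Lib.MP_1a91b9_ntT.S9 (tam normFactor period minChange)
open Pool.Agent.Lib.MP_1a91b9_ntT3.S9 (UnitAt ShaP PPart PPartQ unitAt_of_val ppartQ_of)
open scoped Classical

/-! ### Valuation rings above `2` -/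

section val
variable {B : ValuationSubring ℂ}

theorem part4_conj {x : ℂ} (h : (B.comap (starRingEnd ℂ)).valuation x = 1) :
    B.valuation ((starRingEnd ℂ) x) = 1 := by
  have h0 : x ≠ 0 := by
    rintro rfl
    rw [map_zero] at h
    exact zero_ne_one h
  have h1 : x ∈ B.comap (starRingEnd ℂ) := by
    rw [← ValuationSubring.valuation_le_one_iff, h]
  have h2 : x⁻¹ ∈ B.comap (starRingEnd ℂ) := by
    rw [← ValuationSubring.valuation_le_one_iff, map_inv₀, h, inv_one]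
  rw [ValuationSubring.mem_comap] at h1 h2
  rw [map_inv₀] at h2
  have h3 := (B.valuation_le_one_iff _).2 h1
  have h4 := (B.valuation_le_one_iff _).2 h2
  rw [map_inv₀] at h4
  refine le_antisymm h3 ?_
  have h5 : B.valuation ((starRingEnd ℂ) x) ≠ 0 := by
    rw [Valuation.ne_zero_iff]
    exact (map_ne_zero _).2 h0
  exact (inv_le_one₀ (zero_lt_iff.2 h5)).1 h4

theorem part4_comap (hB : (2 : ℂ)⁻¹ ∉ B) : (2 : ℂ)⁻¹ ∉ B.comap (starRingEnd ℂ) := by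
  intro h
  apply hB
  rw [ValuationSubring.mem_comap, map_inv₀, map_ofNat] at h
  exact h

theorem part4_normsq {y : ℂ} (hB : (2 : ℂ)⁻¹ ∉ B)
    (h : ∀ B : ValuationSubring ℂ, (2 : ℂ)⁻¹ ∉ B → B.valuation y = 1) :
    B.valuation ((‖y‖ ^ 2 : ℝ) : ℂ) = 1 := by
  rw [Complex.ofReal_pow, ← Complex.conj_mul', map_mul, part4_conj (h _ (part4_comap hB)), h B hB,
    one_mul]

theorem part4_pow {y : ℂ} {n : ℕ} (hn : n ≠ 0) (h : B.valuation (y ^ n) = 1) :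
    B.valuation y = 1 := by
  rw [map_pow] at h
  exact (pow_eq_one_iff_of_nonneg zero_le hn).1 h

theorem part4_odd (hB : (2 : ℂ)⁻¹ ∉ B) {n : ℕ} (hn : Odd n) : B.valuation (n : ℂ) = 1 := by
  refine (Rt.natCast hB n).unit ?_
  obtain ⟨m, rfl⟩ := hn
  push_cast
  have h : (2 : ZMod 2) = 0 := rfl
  rw [h, zero_mul, zero_add]
  exact one_ne_zero

/-- a power of the absolute value of an odd integer -/
theorem part4_rpow (hB : (2 : ℂ)⁻¹ ∉ B) {x : 𝓞 K4} (hx : Odd (Nz x)) (m : ℤ) :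
    B.valuation ((‖em x‖ ^ ((m : ℝ) / 2) : ℝ) : ℂ) = 1 := by
  have hN : (Nz x : ℝ) = ‖em x‖ ^ 2 := Nz_eq x
  refine part4_pow (n := 4) (by norm_num) ?_
  have h1 : (‖em x‖ ^ ((m : ℝ) / 2) : ℝ) ^ 4 = (Nz x : ℝ) ^ m := by
    rw [hN, ← Real.rpow_natCast, ← Real.rpow_mul (norm_nonneg _), ← Real.rpow_intCast,
      ← Real.rpow_natCast, ← Real.rpow_mul (norm_nonneg _)]
    congr 1
    push_cast
    ring
  rw [← Complex.ofReal_pow, h1, Complex.ofReal_zpow, Complex.ofReal_natCast, map_zpow₀,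
    part4_odd hB hx, one_zpow]

end val

theorem part4_conj_le {B : ValuationSubring ℂ} {x : ℂ}
    (h : (B.comap (starRingEnd ℂ)).valuation x ≤ 1) : B.valuation ((starRingEnd ℂ) x) ≤ 1 := by
  rw [ValuationSubring.valuation_le_one_iff, ValuationSubring.mem_comap] at h
  rwa [ValuationSubring.valuation_le_one_iff]

theorem part4_normsq_lt {B : ValuationSubring ℂ} {y : ℂ} (hB : (2 : ℂ)⁻¹ ∉ B)
    (h : ∀ B : ValuationSubring ℂ, (2 : ℂ)⁻¹ ∉ B → B.valuation y < 1) :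
    B.valuation ((‖y‖ ^ 2 : ℝ) : ℂ) < 1 := by
  rw [Complex.ofReal_pow, ← Complex.conj_mul', map_mul, mul_comm]
  exact mul_lt_one_of_lt_of_le (h B hB) (part4_conj_le (h _ (part4_comap hB)).le)

theorem part4_even {B : ValuationSubring ℂ} (hB : (2 : ℂ)⁻¹ ∉ B) {n : ℕ} (h : 2 ∣ n) :
    B.valuation (n : ℂ) < 1 := by
  obtain ⟨m, rfl⟩ := h
  have h1 := Rt.natCast hB (2 * m)
  have h2 : ((2 * m : ℕ) : ZMod 2) = 0 := by
    push_cast
    have h : (2 : ZMod 2) = 0 := rfl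
    rw [h, zero_mul]
  rw [h2] at h1
  exact h1.lt

theorem part4_int {B : ValuationSubring ℂ} (n : ℤ) :
    B.valuation (n : ℂ) = B.valuation ((n.natAbs : ℕ) : ℂ) := by
  rcases Int.natAbs_eq n with h | h
  · conv_lhs => rw [h]
    rw [Int.cast_natCast]
  · conv_lhs => rw [h]
    rw [Int.cast_neg, Int.cast_natCast, Valuation.map_neg]

/-- A rational number which is a unit above `2`, or is in the maximal ideals. -/
theorem rat_par4 {x : ℝ} {q : ℚ} (hx : x = (q : ℝ)) {b : Prop}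
    (h1 : b → ∀ B : ValuationSubring ℂ, (2 : ℂ)⁻¹ ∉ B → B.valuation (x : ℂ) = 1)
    (h0 : ¬ b → ∀ B : ValuationSubring ℂ, (2 : ℂ)⁻¹ ∉ B → B.valuation (x : ℂ) < 1) :
    ¬ 2 ∣ q.den ∧ (¬ (2 : ℤ) ∣ q.num ↔ b) := by
  obtain ⟨B, hB⟩ := exists_B2
  have hle : B.valuation (x : ℂ) ≤ 1 := by
    by_cases hb : b
    · exact (h1 hb B hB).le
    · exact (h0 hb B hB).le
  have hxq : (x : ℂ) = (q.num : ℂ) / (q.den : ℂ) := by
    rw [hx, Complex.ofReal_ratCast]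
    exact Rat.cast_def q
  have hodd : ∀ n : ℕ, ¬ 2 ∣ n → B.valuation (n : ℂ) = 1 := fun n hn =>
    part4_odd hB (Nat.not_even_iff_odd.1 fun h => hn (even_iff_two_dvd.1 h))
  have hd : ¬ 2 ∣ q.den := by
    intro h
    have hn : ¬ 2 ∣ q.num.natAbs := by
      intro h4
      have h3 := Nat.dvd_gcd h4 h
      rw [Nat.Coprime.gcd_eq_one q.reduced] at h3
      omega
    have h3 := part4_even hB h
    have h4 : B.valuation ((q.num : ℤ) : ℂ) = 1 := by rw [part4_int, hodd _ hn]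
    have h5 : (x : ℂ) * (q.den : ℂ) = (q.num : ℂ) := by
      rw [hxq, div_mul_cancel₀]
      exact_mod_cast q.den_nz
    have h6 := congrArg B.valuation h5
    rw [map_mul, h4, mul_comm] at h6
    have h7 := mul_lt_one_of_lt_of_le h3 hle
    rw [h6] at h7
    exact lt_irrefl _ h7
  have hv : B.valuation (x : ℂ) = B.valuation ((q.num.natAbs : ℕ) : ℂ) := by
    rw [hxq, map_div₀, hodd _ hd, div_one, part4_int]
  have hdv : (2 : ℤ) ∣ q.num ↔ 2 ∣ q.num.natAbs := by omega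
  rw [hdv]
  refine ⟨hd, fun hn => ?_, fun hb hn => ?_⟩
  · by_contra hb
    have h2 := h0 hb B hB
    rw [hv, hodd _ hn] at h2
    exact lt_irrefl _ h2
  · have h2 := h1 hb B hB
    rw [hv] at h2
    have h3 := part4_even hB hn
    rw [h2] at h3
    exact lt_irrefl _ h3

/-! ### The general form -/

/-- The formula modulo `2` : `b` says that the normalised value is a unit above `2`. -/
theorem form4_gen {W : WeierstrassCurve K4} {g1 : ℂ} {x : ℝ} {T : ℕ} (hT : T ≠ 0)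
    (hP : (∏ v : InfinitePlace K4, Pool.Agent.Lib.MP_1a91b9_ntT.Per.perAt W v : ℝ) ≠ 0)
    (he : g1 * (√|(discr K4 : ℝ)| : ℝ) / (period W : ℝ) = (x * ((T : ℝ) / 4) : ℝ))
    (hrat : ∃ q : ℚ, g1 * (√|(discr K4 : ℝ)| : ℝ) =
      (q : ℂ) * (∏ v : InfinitePlace K4, Pool.Agent.Lib.MP_1a91b9_ntT.Per.perAt W v : ℝ)) {b : Prop}
    (h1 : b → ∀ B : ValuationSubring ℂ, (2 : ℂ)⁻¹ ∉ B → B.valuation (x : ℂ) = 1)
    (h0 : ¬ b → ∀ B : ValuationSubring ℂ, (2 : ℂ)⁻¹ ∉ B → B.valuation (x : ℂ) < 1) :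
    ∃ q : ℚ, ¬ 2 ∣ q.den ∧ (¬ (2 : ℤ) ∣ q.num ↔ b) ∧
      g1 * (√|(discr K4 : ℝ)| : ℝ) / (period W : ℝ) = (q * ((T : ℝ) / 4) : ℝ) := by
  obtain ⟨q, hq⟩ := hrat
  obtain ⟨φ, hφ⟩ := Pool.Agent.Lib.MP_1a91b9_ntT3.S9.rat_normFactor W
  have hφ0 := Pool.Agent.Lib.MP_1a91b9_ntT3.S9.finprod_normFactor_ne W
  rw [← hφ] at hφ0
  obtain ⟨P, hPd⟩ : ∃ P : ℝ, P = ∏ v : InfinitePlace K4,
    Pool.Agent.Lib.MP_1a91b9_ntT.Per.perAt W v := ⟨_, rfl⟩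
  rw [← hPd] at hP hq
  have hper : period W = (φ : ℝ) * P := by
    rw [hφ, hPd]
    rfl
  have hT0 : (T : ℝ) ≠ 0 := by exact_mod_cast hT
  have hxq : x = ((4 * q / (φ * T) : ℚ) : ℝ) := by
    rw [hq, hper] at he
    have h2 : ((q : ℝ) * P / (φ * P) : ℝ) = x * ((T : ℝ) / 4) := by exact_mod_cast he
    rw [mul_div_mul_right _ _ hP] at h2
    push_cast
    rw [eq_div_iff (mul_ne_zero hφ0 hT0)]
    rw [div_eq_iff hφ0] at h2
    linear_combination -4 * h2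
  obtain ⟨h3, h4⟩ := rat_par4 hxq h1 h0
  exact ⟨_, h3, h4, by rw [he, hxq]⟩

/-- **The 2-part, strong form**, for a curve with two points and trivial `Sha[2^∞]`. -/
theorem ppartQ4_form {W : WeierstrassCurve K4} {g : ℂ → ℂ} (hgd : Differentiable ℂ g)
    (hgs : ∀ s : ℂ, 3 / 2 < s.re → g s = W.LSeries s)
    (hfin : Finite W.toAffine.Point) (hC : Nat.card W.toAffine.Point = 2)
    (hsha : Nat.card (ShaP 2 W) = 1) (hT : (∏ᶠ v : HeightOneSpectrum (𝓞 K4), tam W v) ≠ 0)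
    (he : ∃ q : ℚ, ¬ 2 ∣ q.den ∧ ¬ (2 : ℤ) ∣ q.num ∧
      g 1 * (√|(discr K4 : ℝ)| : ℝ) / (period W : ℝ) =
        (q * (((∏ᶠ v : HeightOneSpectrum (𝓞 K4), tam W v : ℕ) : ℝ) / 4) : ℝ)) :
    PPartQ 2 W := by
  obtain ⟨q, h1, h2, h3⟩ := he
  have hf : Finite (ShaP 2 W) := Nat.finite_of_card_ne_zero (by rw [hsha]; exact one_ne_zero)
  have hq0 : (q : ℝ) ≠ 0 := by
    intro h
    apply h2
    have : q = 0 := by exact_mod_cast h
    rw [this]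
    exact dvd_zero _
  refine ⟨g, q, hgd, hgs, ?_, hfin, hf, ?_, ?_, ?_⟩
  · intro h
    rw [h, zero_mul, zero_div] at h3
    have h4 : (q * (((∏ᶠ v : HeightOneSpectrum (𝓞 K4), tam W v : ℕ) : ℝ) / 4) : ℝ) = 0 := by
      exact_mod_cast h3.symm
    rcases mul_eq_zero.1 h4 with h5 | h5
    · exact hq0 h5
    · apply hT
      have h6 : ((∏ᶠ v : HeightOneSpectrum (𝓞 K4), tam W v : ℕ) : ℝ) = 0 := by linarith
      exact_mod_cast h6
  · rw [Int.isCoprime_iff_gcd_eq_one]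
    have h5 : ¬ 2 ∣ q.num.natAbs := by omega
    exact ((Nat.Prime.coprime_iff_not_dvd Nat.prime_two).2 h5).symm
  · exact ((Nat.Prime.coprime_iff_not_dvd Nat.prime_two).2 h1).symm
  · rw [hsha, hC, h3, Nat.cast_one, one_mul]
    congr 2
    norm_num

/-! ### The value of the L-series -/

/-- The value divided by the period, for `g(1) = c ‖L4‖²` and the period `m` times the standard
one. -/
theorem val4 {D : 𝓞 K4} {S : Finset Pg} (hn : ‖em D‖ = ‖em (DDq S)‖) {c m : ℝ} (hm : m ≠ 0)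
    (hp : period (WD4 D) = 2 * (m * (‖Om‖ ^ 2 / ‖em D‖ ^ (1 / 2 : ℝ)))) {k : ZMod 4} {g1 : ℂ}
    (hg : g1 = ((c * ‖L4 k S 1‖ ^ 2 : ℝ) : ℂ)) :
    g1 * (√|(discr K4 : ℝ)| : ℝ) / (period (WD4 D) : ℝ) =
      ((c / m * ‖nu4 k S‖ ^ 2 * ‖em (DDq S)‖ ^ (((-3 : ℤ) : ℝ) / 2)) * (2 ^ S.card / 4) : ℝ) := by
  have hO : ‖Om‖ ≠ 0 := norm_ne_zero_iff.2 Om_ne
  have hd : 0 < ‖em (DDq S)‖ := norm_pos_iff.2 (em_ne (DDq_in4 S).ne_zero)
  have h1 := norm_L4 k S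
  have h2 : ‖em (DDq S)‖ ^ (((-3 : ℤ) : ℝ) / 2) =
      ‖em (DDq S)‖ ^ (1 / 2 : ℝ) / ‖em (DDq S)‖ ^ 2 := by
    rw [← Real.rpow_natCast, ← Real.rpow_sub hd]
    congr 1
    norm_num
  have h3 : ‖em (DDq S)‖ ^ (1 / 2 : ℝ) ≠ 0 := (Real.rpow_pos_of_pos hd _).ne'
  have h4 : ‖L4 k S 1‖ ^ 2 = ‖nu4 k S‖ ^ 2 * 2 ^ S.card * ‖Om‖ ^ 2 / (4 * ‖em (DDq S)‖ ^ 2) := by
    rw [eq_div_iff (by positivity), h1]
  rw [hg, sqrt_discr_K4, hp, hn, ← Complex.ofReal_mul, ← Complex.ofReal_div, h4, h2]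
  congr 1
  field_simp

/-- The rationality. -/
theorem rat4 {D : 𝓞 K4} (hD0 : D ≠ 0) {S : Finset Pg} (hn : ‖em D‖ = ‖em (DDq S)‖) {c : ℚ}
    {k : ZMod 4} {g1 : ℂ} (hg : g1 = (((c : ℝ) * ‖L4 k S 1‖ ^ 2 : ℝ) : ℂ)) :
    ∃ q : ℚ, g1 * (√|(discr K4 : ℝ)| : ℝ) = (q : ℂ) *
      (∏ v : InfinitePlace K4, Pool.Agent.Lib.MP_1a91b9_ntT.Per.perAt (WD4 D) v : ℝ) := by
  obtain ⟨q, hq⟩ := crat4 k S
  have hd : 0 < ‖em (DDq S)‖ := norm_pos_iff.2 (em_ne (DDq_in4 S).ne_zero)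
  have h3 : ‖em (DDq S)‖ ^ (1 / 2 : ℝ) ≠ 0 := (Real.rpow_pos_of_pos hd _).ne'
  have h4 : ‖L4 k S 1‖ ^ 2 = q * ‖Om‖ ^ 2 / ‖em (DDq S)‖ ^ (1 / 2 : ℝ) := by
    rw [eq_div_iff h3, hq]
  refine ⟨c * q, ?_⟩
  rw [hg, sqrt_discr_K4, prod_perAt4 hD0, hn, h4, ← Complex.ofReal_ratCast, ← Complex.ofReal_mul,
    ← Complex.ofReal_mul]
  congr 1
  push_cast
  ring

theorem nz_DDq (S : Finset Pg) : Odd (Nz (DDq S)) := by
  have h := (DDq_in4 S).Nz_mod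
  exact ⟨2 * (Nz (DDq S) / 4), by omega⟩

theorem prod_perAt_ne {D : 𝓞 K4} (hD0 : D ≠ 0) :
    (∏ v : InfinitePlace K4, Pool.Agent.Lib.MP_1a91b9_ntT.Per.perAt (WD4 D) v : ℝ) ≠ 0 := by
  rw [prod_perAt4 hD0]
  have hd : 0 < ‖em D‖ := norm_pos_iff.2 (em_ne hD0)
  have hO : 0 < ‖Om‖ := norm_pos_iff.2 Om_ne
  positivity

/-- **The formula modulo `2`** from the residue class of the normalised value of the L-series. -/
theorem form4_of {D : 𝓞 K4} (hD0 : D ≠ 0) {S : Finset Pg} (hn : ‖em D‖ = ‖em (DDq S)‖) {c : ℚ}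
    {m : ℝ} (hm : m ≠ 0)
    (hp : period (WD4 D) = 2 * (m * (‖Om‖ ^ 2 / ‖em D‖ ^ (1 / 2 : ℝ)))) {k : ZMod 4}
    (hcm : ∀ B : ValuationSubring ℂ, (2 : ℂ)⁻¹ ∉ B → B.valuation ((c / m : ℝ) : ℂ) = 1)
    {g1 : ℂ} (hg : g1 = (((c : ℝ) * ‖L4 k S 1‖ ^ 2 : ℝ) : ℂ)) {b : Prop}
    (h1 : b → ∀ B : ValuationSubring ℂ, (2 : ℂ)⁻¹ ∉ B → B.valuation (nu4 k S) = 1)
    (h0 : ¬ b → ∀ B : ValuationSubring ℂ, (2 : ℂ)⁻¹ ∉ B → B.valuation (nu4 k S) < 1) {T : ℕ}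
    (hT : T = 2 ^ S.card) :
    ∃ q : ℚ, ¬ 2 ∣ q.den ∧ (¬ (2 : ℤ) ∣ q.num ↔ b) ∧
      g1 * (√|(discr K4 : ℝ)| : ℝ) / (period (WD4 D) : ℝ) = (q * ((T : ℝ) / 4) : ℝ) := by
  refine form4_gen (by rw [hT]; positivity) (prod_perAt_ne hD0)
    (x := c / m * ‖nu4 k S‖ ^ 2 * ‖em (DDq S)‖ ^ (((-3 : ℤ) : ℝ) / 2)) ?_
    (rat4 hD0 hn hg) (fun hb B hB => ?_) fun hb B hB => ?_
  · rw [val4 hn hm hp hg, hT]
    push_cast
    rfl
  · rw [Complex.ofReal_mul, Complex.ofReal_mul, map_mul, map_mul, hcm B hB,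
      part4_normsq hB (h1 hb), part4_rpow hB (nz_DDq S) (-3), one_mul, one_mul]
  · rw [Complex.ofReal_mul, Complex.ofReal_mul, map_mul, map_mul, hcm B hB,
      part4_rpow hB (nz_DDq S) (-3), one_mul, mul_one]
    exact part4_normsq_lt hB (h0 hb)

/-! ### The twists `D = i ^ κ ∏ q` -/

theorem part4_norm (κ : ZMod 4) (S : Finset Pg) : ‖em (Dq κ S)‖ = ‖em (DDq S)‖ := by
  rw [Dq, em_mul, em_pow, norm_mul, norm_pow, em_iO_norm, one_pow, one_mul]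

theorem part4_ne (κ : ZMod 4) (S : Finset Pg) : Dq κ S ≠ 0 :=
  mul_ne_zero (pow_ne_zero _ isUnit_iO.ne_zero) (DDq_in4 S).ne_zero

theorem part4_g {L g1 : ℂ} (h : g1 = L * (starRingEnd ℂ) L) :
    g1 = ((((1 : ℚ) : ℝ) * ‖L‖ ^ 2 : ℝ) : ℂ) := by
  rw [h, Complex.mul_conj, Complex.normSq_eq_norm_sq]
  norm_num

theorem part4_PD (κ : ZMod 4) (S : Finset Pg) : PD4 (Dq κ S) (fun q : Pg => q.1) S where
  prime q _ := q.prime
  inj q _ r _ h := by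
    by_contra hne
    exact Pg.not_dvd hne h
  dvd q hq := (dvd_DDq.2 hq).mul_left _
  sq q hq := by
    intro h
    have hc : IsCoprime (iO ^ κ.val) (q.1 ^ 2) := by
      obtain ⟨u, hu⟩ := isUnit_iO.pow κ.val
      rw [← hu]
      exact ⟨((u⁻¹ : (𝓞 K4)ˣ) : 𝓞 K4), 0, by simp⟩
    have h1 : q.1 ^ 2 ∣ DDq S := hc.symm.dvd_of_dvd_mul_left h
    have h2 : DDq S = q.1 * DDq (S.erase q) := by
      rw [DDq, DDq, Finset.mul_prod_erase S (fun q : Pg => q.1) hq]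
    rw [h2, sq] at h1
    have h3 : q.1 ∣ DDq (S.erase q) := (mul_dvd_mul_iff_left q.prime.ne_zero).1 h1
    exact Finset.notMem_erase q S (dvd_DDq.1 h3)
  odd q _ h := by
    have h1 := (lam_prime.dvd_prime_iff_associated q.prime).1 h
    exact lam_not_dvd q (h1.symm.dvd)
  all r hr hl h := by
    rcases hr.dvd_or_dvd h with h1 | h1
    · exact absurd (isUnit_of_dvd_unit h1 (isUnit_iO.pow _)) hr.not_isUnit
    · obtain ⟨q, hq, h2⟩ := hr.exists_mem_finset_dvd h1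
      exact ⟨q, hq, ((hr.dvd_prime_iff_associated q.prime).1 h2).symm.dvd⟩

theorem exists_w4 : ∃ w : HeightOneSpectrum (𝓞 K4), lam ∈ w.asIdeal :=
  ⟨⟨Ideal.span {lam}, (Ideal.span_singleton_prime lam_prime.ne_zero).2 lam_prime, by
    rw [Ne, Ideal.span_singleton_eq_bot]
    exact lam_prime.ne_zero⟩, Ideal.mem_span_singleton_self _⟩

end Pool.Agent.Lib.MP_1a91b9_ntQ.C
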