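import Pool.Agent.Lib.MP_1a91b9_ntQ.A.Rat5
import Pool.Agent.Lib.MP_1a91b9_ntQ.C.Part4
import Pool.Agent.Lib.MP_1a91b9_ntQ.C.TamP5
import Pool.Agent.Lib.MP_1a91b9_ntQ.C.PtsX

/-!
# MP_1a91b9_nt (phase 5), part C, file Part5: the formula of Birch and Swinnerton-Dyer modulo `2` for
`y² = x³ - δ² x`

`g(1) √4 / Ω = q * ∏ c_v / 16` for every `δ = i ^ κ lam ^ j ∏ (q ∈ S) q` different from `1`, `-1`; `q` has
an odd denominator.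
-/

set_option autoImplicit false
set_option linter.unusedSectionVars false

namespace Pool.Agent.Lib.MP_1a91b9_ntQ.C

open NumberField IsDedekindDomain WithZero WeierstrassCurve Pool.Agent.Lib.MP_1a91b9_ntQ
  Pool.Agent.Lib.MP_1a91b9_nuT
open Pool.Agent.Lib.MP_1a91b9_ntT.S9 (tam normFactor period minChange)
open Pool.Agent.Lib.MP_1a91b9_ntT3.S9 (UnitAt ShaP PPart PPartQ unitAt_of_val ppartQ_of)
open scoped Classical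

/-! ### The period -/

theorem norm_sq_half {δ : 𝓞 K4} : ‖em (δ ^ 2)‖ ^ (1 / 2 : ℝ) = ‖em δ‖ := by
  rw [em_pow, norm_pow, ← Real.sqrt_eq_rpow, Real.sqrt_sq (norm_nonneg _)]

/-- **The period.** -/
theorem period5 {δ : 𝓞 K4} (hδ : Squarefree δ) :
    period (WD4 (δ ^ 2)) = 2 * (‖Om‖ ^ 2 / ‖em δ‖) := by
  rw [period, finprod_congr (fun v => nf4_one (per5_u hδ v)), finprod_one,
    prod_perAt4 (pow_ne_zero 2 hδ.ne_zero), one_mul, norm_sq_half]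

/-! ### The general form -/

/-- The formula modulo `2` : `b` says that the normalised value is a unit above `2`. -/
theorem form5_gen {W : WeierstrassCurve K4} {g1 : ℂ} {x : ℝ} {T t : ℕ} (hT : T ≠ 0) (ht : t ≠ 0)
    (hP : (∏ v : InfinitePlace K4, Pool.Agent.Lib.MP_1a91b9_ntT.Per.perAt W v : ℝ) ≠ 0)
    (he : g1 * (√|(discr K4 : ℝ)| : ℝ) / (period W : ℝ) = (x * ((T : ℝ) / t) : ℝ))
    (hrat : ∃ q : ℚ, g1 * (√|(discr K4 : ℝ)| : ℝ) =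
      (q : ℂ) * (∏ v : InfinitePlace K4, Pool.Agent.Lib.MP_1a91b9_ntT.Per.perAt W v : ℝ)) {b : Prop}
    (h1 : b → ∀ B : ValuationSubring ℂ, (2 : ℂ)⁻¹ ∉ B → B.valuation (x : ℂ) = 1)
    (h0 : ¬ b → ∀ B : ValuationSubring ℂ, (2 : ℂ)⁻¹ ∉ B → B.valuation (x : ℂ) < 1) :
    ∃ q : ℚ, ¬ 2 ∣ q.den ∧ (¬ (2 : ℤ) ∣ q.num ↔ b) ∧
      g1 * (√|(discr K4 : ℝ)| : ℝ) / (period W : ℝ) = (q * ((T : ℝ) / t) : ℝ) := by
  obtain ⟨q, hq⟩ := hrat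
  obtain ⟨φ, hφ⟩ := Pool.Agent.Lib.MP_1a91b9_ntT3.S9.rat_normFactor W
  have hφ0 := Pool.Agent.Lib.MP_1a91b9_ntT3.S9.finprod_normFactor_ne W
  rw [← hφ] at hφ0
  obtain ⟨P, hPd⟩ : ∃ P : ℝ, P = ∏ v : InfinitePlace K4,
    Pool.Agent.Lib.MP_1a91b9_ntT.Per.perAt W v := ⟨_, rfl⟩
  rw [← hPd] at hP hq
  have hper : period W = (φ : ℝ) * P := by
    rw [hφ, hPd]
    rfl
  have hT0 : (T : ℝ) ≠ 0 := by exact_mod_cast hT
  have ht0 : (t : ℝ) ≠ 0 := by exact_mod_cast ht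
  have hxq : x = ((t * q / (φ * T) : ℚ) : ℝ) := by
    rw [hq, hper] at he
    have h2 : ((q : ℝ) * P / (φ * P) : ℝ) = x * ((T : ℝ) / t) := by exact_mod_cast he
    rw [mul_div_mul_right _ _ hP] at h2
    push_cast
    rw [eq_div_iff (mul_ne_zero hφ0 hT0)]
    rw [div_eq_iff hφ0] at h2
    have h3 : (t : ℝ) * (x * ((T : ℝ) / t)) = x * T := by field_simp
    linear_combination (-(t : ℝ)) * h2 - φ * h3
  obtain ⟨h3, h4⟩ := rat_par4 hxq h1 h0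
  exact ⟨_, h3, h4, by rw [he, hxq]⟩

/-! ### The value of the L-series -/

variable {κ : ZMod 4} {j : ZMod 2} {S : Finset Pg}

theorem dC_sqf (κ : ZMod 4) (j : ZMod 2) (S : Finset Pg) : Squarefree (dC κ j S) := by
  rcases zmod2_cases j with rfl | rfl
  · exact dk_squarefree κ S
  · exact dk_one_squarefree κ S

theorem norm_dC (κ : ZMod 4) (j : ZMod 2) (S : Finset Pg) :
    ‖em (dC κ j S)‖ = ‖lm‖ ^ j.val * ‖em (DDq S)‖ := by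
  rw [dC, em_mul, em_mul, em_pow, em_pow, em_lam, norm_mul, norm_mul, norm_pow, norm_pow,
    em_iO_norm, one_pow, one_mul]

theorem norm_lm_pos : 0 < ‖lm‖ := norm_pos_iff.2 lm_ne

theorem norm_DD_pos (S : Finset Pg) : 0 < ‖em (DDq S)‖ :=
  norm_pos_iff.2 (em_ne (DDq_in4 S).ne_zero)

theorem val5 (κ : ZMod 4) (j : ZMod 2) (S : Finset Pg) {g1 : ℂ}
    (hg : g1 = LC (md κ) j S 1 * (starRingEnd ℂ) (LC (md κ) j S 1)) :
    g1 * (√|(discr K4 : ℝ)| : ℝ) / (period (WD4 (dC κ j S ^ 2)) : ℝ) =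
      ((‖nuC (md κ) j S‖ ^ 2 * (rC (md κ) j / 2 ^ (3 + nC (md κ) j)) *
        ‖em (DDq S)‖ ^ (((-2 : ℤ) : ℝ) / 2)) * 4 ^ S.card : ℝ) := by
  have hO : ‖Om‖ ≠ 0 := norm_ne_zero_iff.2 Om_ne
  have hd := norm_DD_pos S
  have hl := norm_lm_pos
  have h1 := norm_LC (md κ) j S
  have h2 : ‖em (DDq S)‖ ^ (((-2 : ℤ) : ℝ) / 2) = ‖em (DDq S)‖⁻¹ := by
    have e : (((-2 : ℤ) : ℝ) / 2) = -1 := by norm_num
    rw [e, Real.rpow_neg_one]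
  have hl' : ‖lm‖ ^ j.val ≠ 0 := (pow_pos hl _).ne'
  have h4 : ‖LC (md κ) j S 1‖ ^ 2 = ‖nuC (md κ) j S‖ ^ 2 * 4 ^ S.card * rC (md κ) j * ‖Om‖ ^ 2 /
      (‖lm‖ ^ j.val * (2 ^ (3 + nC (md κ) j) * ‖em (DDq S)‖ ^ 2)) := by
    rw [eq_div_iff (by positivity), h1]
  have hg' : g1 = ((‖LC (md κ) j S 1‖ ^ 2 : ℝ) : ℂ) := by
    rw [hg, Complex.mul_conj, Complex.normSq_eq_norm_sq]
  rw [hg', sqrt_discr_K4, period5 (dC_sqf κ j S), norm_dC, ← Complex.ofReal_mul,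
    ← Complex.ofReal_div, h4, h2]
  congr 1
  field_simp

theorem rat5 (κ : ZMod 4) (j : ZMod 2) (S : Finset Pg) {g1 : ℂ}
    (hg : g1 = LC (md κ) j S 1 * (starRingEnd ℂ) (LC (md κ) j S 1)) :
    ∃ q : ℚ, g1 * (√|(discr K4 : ℝ)| : ℝ) = (q : ℂ) *
      (∏ v : InfinitePlace K4,
        Pool.Agent.Lib.MP_1a91b9_ntT.Per.perAt (WD4 (dC κ j S ^ 2)) v : ℝ) := by
  obtain ⟨q, hq⟩ := crat5 (md κ) j S
  have hd := norm_DD_pos S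
  have hl := norm_lm_pos
  have hl' : ‖lm‖ ^ j.val ≠ 0 := (pow_pos hl _).ne'
  have hg' : g1 = ((‖LC (md κ) j S 1‖ ^ 2 : ℝ) : ℂ) := by
    rw [hg, Complex.mul_conj, Complex.normSq_eq_norm_sq]
  have h4 : ‖LC (md κ) j S 1‖ ^ 2 = q * ‖Om‖ ^ 2 / (‖lm‖ ^ j.val * ‖em (DDq S)‖) := by
    rw [eq_div_iff (by positivity), hq]
  refine ⟨q, ?_⟩
  rw [hg', sqrt_discr_K4, prod_perAt4 (pow_ne_zero 2 (dC_sqf κ j S).ne_zero), norm_sq_half,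
    norm_dC, h4, ← Complex.ofReal_ratCast, ← Complex.ofReal_mul, ← Complex.ofReal_mul]
  congr 1
  ring

/-! ### The Tamagawa numbers -/

theorem dC_PD (κ : ZMod 4) (j : ZMod 2) (S : Finset Pg) :
    PD4 (dC κ j S) (fun q : Pg => q.1) S where
  prime q _ := q.prime
  inj q _ r _ h := by
    by_contra hne
    exact Pg.not_dvd hne h
  dvd q hq := dC_dvd.2 hq
  sq q _ := dC_sq
  odd q _ h := by
    have h1 := (lam_prime.dvd_prime_iff_associated q.prime).1 h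
    exact lam_not_dvd q (h1.symm.dvd)
  all r hr hl h := by
    rw [dC] at h
    rcases hr.dvd_or_dvd h with h1 | h1
    · exfalso
      rcases hr.dvd_or_dvd h1 with h2 | h2
      · exact absurd (isUnit_of_dvd_unit h2 (isUnit_iO.pow _)) hr.not_isUnit
      · have h3 := hr.dvd_of_dvd_pow h2
        exact hl ((hr.dvd_prime_iff_associated lam_prime).1 h3).symm.dvd
    · obtain ⟨q, hq, h2⟩ := hr.exists_mem_finset_dvd h1
      exact ⟨q, hq, ((hr.dvd_prime_iff_associated q.prime).1 h2).symm.dvd⟩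

/-- coordinates of the product -/
theorem DDq_form (S : Finset Pg) : ∃ m n : ℤ,
    DDq S = 1 + lam ^ 3 * ((m : 𝓞 K4) + (n : 𝓞 K4) * iO) ∧
      ∑ q ∈ S, aa q.1 = ((m + n : ℤ) : ZMod 2) := by
  obtain ⟨x, hx⟩ := DDq_in4 S
  obtain ⟨m, n, rfl⟩ := exists_coords4 x
  have h : DDq S = 1 + lam ^ 3 * ((m : 𝓞 K4) + (n : 𝓞 K4) * iO) := by linear_combination hx
  refine ⟨m, n, h, ?_⟩
  rw [← aa_DDq, h, aa_form]
  push_cast
  rfl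

theorem lam_cube : (lam : 𝓞 K4) ^ 3 = 2 * (iO - 1) := by
  have h : (lam : 𝓞 K4) ^ 3 = lam ^ 2 * lam := by ring
  rw [h, lam_sq]
  have h2 : (lam : 𝓞 K4) = 1 + iO := rfl
  rw [h2]
  linear_combination 2 * iO_sq

theorem DDq_sq (S : Finset Pg) {m n : ℤ}
    (h : DDq S = 1 + lam ^ 3 * ((m : 𝓞 K4) + (n : 𝓞 K4) * iO)) :
    DDq S ^ 2 = 1 + 4 * ((-(m + n : ℤ) : 𝓞 K4) + ((m - n : ℤ) : 𝓞 K4) * iO) -
      8 * (iO * ((m : 𝓞 K4) + (n : 𝓞 K4) * iO) ^ 2) := by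
  rw [h, lam_cube]
  push_cast
  linear_combination (4 * ((m : 𝓞 K4) + (n : 𝓞 K4) * iO) ^ 2 + 4 * (n : 𝓞 K4)) * iO_sq

theorem iO_two_mul {κ : ZMod 4} (h : md κ = 0) : (iO ^ κ.val) ^ 2 = 1 := by
  have h1 : ∀ κ : ZMod 4, md κ = 0 → κ = 0 ∨ κ = 2 := by decide
  rcases h1 κ h with rfl | rfl
  · have : (0 : ZMod 4).val = 0 := rfl
    rw [this, pow_zero, one_pow]
  · have : (2 : ZMod 4).val = 2 := rfl
    rw [this, iO_sq]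
    ring

theorem iO_two_mul' {κ : ZMod 4} (h : md κ = 1) : (iO ^ κ.val) ^ 2 = -1 := by
  have h1 : ∀ κ : ZMod 4, md κ = 1 → κ = 1 ∨ κ = 3 := by decide
  rcases h1 κ h with rfl | rfl
  · have : (1 : ZMod 4).val = 1 := rfl
    rw [this, pow_one, iO_sq]
  · have : (3 : ZMod 4).val = 3 := rfl
    have e : ((iO : 𝓞 K4) ^ 3) ^ 2 = (iO ^ 2) ^ 3 := by ring
    rw [this, e, iO_sq]
    ring

theorem dC_zero_sq (κ : ZMod 4) (S : Finset Pg) :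
    dC κ 0 S ^ 2 = (iO ^ κ.val) ^ 2 * DDq S ^ 2 := by
  rw [dC, ZMod.val_zero, pow_zero, mul_one, mul_pow]

/-- the Tamagawa number at `1 + i`: `4`, `2`, `2`, `4` -/
theorem tam5_one (κ : ZMod 4) (S : Finset Pg) {w : HeightOneSpectrum (𝓞 K4)}
    (hw : lam ∈ w.asIdeal) : tam (WD4 (dC κ 1 S ^ 2)) w = 4 := by
  refine tam5_dvd (dC_sqf κ 1 S) lam_prime ?_ hw
  rw [dC]
  have : (1 : ZMod 2).val = 1 := rfl
  rw [this, pow_one]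
  exact (Dvd.intro_left _ rfl).mul_right _

theorem tam5_odd {κ : ZMod 4} (hκ : md κ = 1) (S : Finset Pg) {w : HeightOneSpectrum (𝓞 K4)}
    (hw : lam ∈ w.asIdeal) : tam (WD4 (dC κ 0 S ^ 2)) w = 2 := by
  refine tam5_lam_1 (dC_sqf κ 0 S) ?_ hw
  obtain ⟨m, n, h, -⟩ := DDq_form S
  rw [dC_zero_sq, iO_two_mul' hκ, DDq_sq S h]
  refine ⟨-((-(m + n : ℤ) : 𝓞 K4) + ((m - n : ℤ) : 𝓞 K4) * iO) +
    2 * (iO * ((m : 𝓞 K4) + (n : 𝓞 K4) * iO) ^ 2), ?_⟩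
  ring

theorem tam5_II {κ : ZMod 4} (hκ : md κ = 0) {S : Finset Pg} (hA : ∑ q ∈ S, aa q.1 = 1)
    {w : HeightOneSpectrum (𝓞 K4)} (hw : lam ∈ w.asIdeal) : tam (WD4 (dC κ 0 S ^ 2)) w = 2 := by
  refine tam5_lam_2 (dC_sqf κ 0 S) ?_ hw
  obtain ⟨m, n, h, h2⟩ := DDq_form S
  rw [hA] at h2
  have h3 : (m + n) % 2 = 1 := by
    have h4 : ((m + n - 1 : ℤ) : ZMod 2) = 0 := by
      push_cast at h2 ⊢
      rw [← h2, sub_self]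
    have h5 := (ZMod.intCast_zmod_eq_zero_iff_dvd _ 2).1 h4
    omega
  obtain ⟨t, ht⟩ : ∃ t : ℤ, m = 2 * t + 1 - n := ⟨(m + n) / 2, by omega⟩
  rw [dC_zero_sq, iO_two_mul hκ, DDq_sq S h]
  refine ⟨(-(t + 1 : ℤ) : 𝓞 K4) + ((t - n : ℤ) : 𝓞 K4) * iO -
    iO * ((m : 𝓞 K4) + (n : 𝓞 K4) * iO) ^ 2, ?_⟩
  rw [ht]
  push_cast
  ring

theorem tam5_III {κ : ZMod 4} (hκ : md κ = 0) {S : Finset Pg} (hA : ∑ q ∈ S, aa q.1 = 0)
    {w : HeightOneSpectrum (𝓞 K4)} (hw : lam ∈ w.asIdeal) : tam (WD4 (dC κ 0 S ^ 2)) w = 4 := by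
  refine tam5_lam_3 (dC_sqf κ 0 S) ?_ hw
  obtain ⟨m, n, h, h2⟩ := DDq_form S
  rw [hA] at h2
  have h3 : (m + n) % 2 = 0 := by
    have h5 := (ZMod.intCast_zmod_eq_zero_iff_dvd _ 2).1 h2.symm
    omega
  obtain ⟨t, ht⟩ : ∃ t : ℤ, m = 2 * t - n := ⟨(m + n) / 2, by omega⟩
  rw [dC_zero_sq, iO_two_mul hκ, DDq_sq S h]
  refine ⟨(-(t : ℤ) : 𝓞 K4) + ((t - n : ℤ) : 𝓞 K4) * iO -
    iO * ((m : 𝓞 K4) + (n : 𝓞 K4) * iO) ^ 2, ?_⟩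
  rw [ht]
  push_cast
  ring

/-! ### The formula -/

/-- **The formula modulo `2`**, from the residue class of `nuC / lm ^ e`. -/
theorem form5_of (κ : ZMod 4) (j : ZMod 2) (S : Finset Pg) (e c : ℕ)
    (hc : ∀ w : HeightOneSpectrum (𝓞 K4), lam ∈ w.asIdeal → tam (WD4 (dC κ j S ^ 2)) w = c)
    (hec : (2 : ℝ) ^ e * 16 * (rC (md κ) j / 2 ^ (3 + nC (md κ) j)) = c) {b : Prop}
    (h1 : b → ∀ B : ValuationSubring ℂ, (2 : ℂ)⁻¹ ∉ B →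
      B.valuation (nuC (md κ) j S / lm ^ e) = 1)
    (h0 : ¬ b → ∀ B : ValuationSubring ℂ, (2 : ℂ)⁻¹ ∉ B →
      B.valuation (nuC (md κ) j S / lm ^ e) < 1) (hc0 : c ≠ 0) :
    ∃ (g : ℂ → ℂ) (q : ℚ), Differentiable ℂ g ∧
      (∀ s : ℂ, 3 / 2 < s.re → g s = (WD4 (dC κ j S ^ 2)).LSeries s) ∧
      g 1 * (√|(discr K4 : ℝ)| : ℝ) / (period (WD4 (dC κ j S ^ 2)) : ℝ) =
        (q * (((∏ᶠ v : HeightOneSpectrum (𝓞 K4), tam (WD4 (dC κ j S ^ 2)) v : ℕ) : ℝ) / 16) :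
          ℝ) ∧
      ¬ 2 ∣ q.den ∧ (¬ (2 : ℤ) ∣ q.num ↔ b) := by
  obtain ⟨g, hgd, hgs, hg⟩ := serC κ j S
  obtain ⟨w, hw⟩ := exists_w4
  have hT : ∏ᶠ v : HeightOneSpectrum (𝓞 K4), tam (WD4 (dC κ j S ^ 2)) v = 4 ^ S.card * c := by
    rw [finprod_tam5 (dC_sqf κ j S) (dC_PD κ j S) hw, hc w hw]
  have hl2 : ‖lm‖ ^ 2 = 2 := norm_lm_sq
  have hn : ‖nuC (md κ) j S / lm ^ e‖ ^ 2 * 2 ^ e = ‖nuC (md κ) j S‖ ^ 2 := by
    rw [norm_div, norm_pow, div_pow, ← pow_mul, mul_comm e 2, pow_mul, hl2,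
      div_mul_cancel₀ _ (pow_ne_zero _ two_ne_zero)]
  obtain ⟨q, hq1, hq2, hq3⟩ := form5_gen (W := WD4 (dC κ j S ^ 2)) (g1 := g 1)
    (x := ‖nuC (md κ) j S / lm ^ e‖ ^ 2 * ‖em (DDq S)‖ ^ (((-2 : ℤ) : ℝ) / 2))
    (T := 4 ^ S.card * c) (t := 16) (mul_ne_zero (pow_ne_zero _ (by norm_num)) hc0) (by norm_num)
    (by
      rw [prod_perAt4 (pow_ne_zero 2 (dC_sqf κ j S).ne_zero), norm_sq_half]
      have h3 : 0 < ‖em (dC κ j S)‖ := norm_pos_iff.2 (em_ne (dC_sqf κ j S).ne_zero)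
      have h4 : 0 < ‖Om‖ := norm_pos_iff.2 Om_ne
      positivity)
    (by
      rw [val5 κ j S hg, ← hn]
      congr 1
      push_cast
      rw [← hec]
      ring)
    (rat5 κ j S hg) (b := b)
    (fun hb B hB => by
      rw [Complex.ofReal_mul, map_mul, part4_normsq hB (h1 hb), part4_rpow hB (nz_DDq S) (-2),
        one_mul])
    (fun hb B hB => by
      rw [Complex.ofReal_mul, map_mul, part4_rpow hB (nz_DDq S) (-2), mul_one]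
      exact part4_normsq_lt hB (h0 hb))
  refine ⟨g, q, hgd, hgs, ?_, hq1, hq2⟩
  rw [hq3, hT]
  push_cast
  rfl

theorem Rt_dich {B : ValuationSubring ℂ} {z : ℂ} {y : ZMod 2} (h : Rt B z y) :
    (y ≠ 0 → B.valuation z = 1) ∧ (¬ y ≠ 0 → B.valuation z < 1) := by
  refine ⟨h.unit, fun h1 => ?_⟩
  rw [not_not] at h1
  subst h1
  exact h.lt

/-- `(k, j) ≠ (0, 0)` -/
theorem form5_I {κ : ZMod 4} {j : ZMod 2} (h : md κ = 1 ∨ j = 1) (S : Finset Pg) :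
    ∃ (g : ℂ → ℂ) (q : ℚ), Differentiable ℂ g ∧
      (∀ s : ℂ, 3 / 2 < s.re → g s = (WD4 (dC κ j S ^ 2)).LSeries s) ∧
      g 1 * (√|(discr K4 : ℝ)| : ℝ) / (period (WD4 (dC κ j S ^ 2)) : ℝ) =
        (q * (((∏ᶠ v : HeightOneSpectrum (𝓞 K4), tam (WD4 (dC κ j S ^ 2)) v : ℕ) : ℝ) / 16) :
          ℝ) ∧
      ¬ 2 ∣ q.den ∧
        (¬ (2 : ℤ) ∣ q.num ↔ (N4 s4 (fun q => md κ * aa q.1 + j * bb q.1) S).det ≠ 0) := by
  have hR : ∀ B : ValuationSubring ℂ, (2 : ℂ)⁻¹ ∉ B → Rt B (nuC (md κ) j S / lm ^ 0)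
      (N4 s4 (fun q => md κ * aa q.1 + j * bb q.1) S).det := by
    intro B hB
    rw [pow_zero, div_one]
    exact Rt_nuC hB h S
  rcases zmod2_cases j with rfl | rfl
  · have hk : md κ = 1 := by
      rcases h with h | h
      · exact h
      · exact absurd h (by decide)
    refine form5_of κ 0 S 0 2 (fun w hw => tam5_odd hk S hw) ?_
      (fun hb B hB => (Rt_dich (hR B hB)).1 hb) (fun hb B hB => (Rt_dich (hR B hB)).2 hb)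
      (by norm_num)
    rw [hk, nC_10]
    have : rC 1 0 = 2 := by
      unfold rC
      rw [if_neg (by decide), if_pos rfl]
    rw [this]
    norm_num
  · refine form5_of κ 1 S 0 4 (fun w hw => tam5_one κ S hw) ?_
      (fun hb B hB => (Rt_dich (hR B hB)).1 hb) (fun hb B hB => (Rt_dich (hR B hB)).2 hb)
      (by norm_num)
    rw [nC_1]
    have : rC (md κ) 1 = 8 := by
      unfold rC
      rw [if_pos rfl]
    rw [this]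
    norm_num

theorem rC_00 : rC 0 0 = 1 / 2 := by
  unfold rC
  rw [if_neg (by decide), if_neg (by decide)]

/-- `k = j = 0`, `∑ a = 1` -/
theorem form5_II {κ : ZMod 4} (h : md κ = 0) {S : Finset Pg} (hA : ∑ q ∈ S, aa q.1 = 1) :
    ∃ (g : ℂ → ℂ) (q : ℚ), Differentiable ℂ g ∧
      (∀ s : ℂ, 3 / 2 < s.re → g s = (WD4 (dC κ 0 S ^ 2)).LSeries s) ∧
      g 1 * (√|(discr K4 : ℝ)| : ℝ) / (period (WD4 (dC κ 0 S ^ 2)) : ℝ) =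
        (q * (((∏ᶠ v : HeightOneSpectrum (𝓞 K4), tam (WD4 (dC κ 0 S ^ 2)) v : ℕ) : ℝ) / 16) :
          ℝ) ∧
      ¬ 2 ∣ q.den ∧ (¬ (2 : ℤ) ∣ q.num ↔ kap0 s4 S ≠ 0) := by
  have hR : ∀ B : ValuationSubring ℂ, (2 : ℂ)⁻¹ ∉ B → Rt B (nuC (md κ) 0 S / lm ^ 1)
      (kap0 s4 S) := by
    intro B hB
    rw [pow_one, h]
    exact Rt_nuC_one hB hA
  refine form5_of κ 0 S 1 2 (fun w hw => tam5_II h hA hw) ?_
    (fun hb B hB => (Rt_dich (hR B hB)).1 hb) (fun hb B hB => (Rt_dich (hR B hB)).2 hb)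
    (by norm_num)
  rw [h, nC_00, rC_00]
  norm_num

/-- `k = j = 0`, `∑ a = 0`, `S` nonempty -/
theorem form5_III {κ : ZMod 4} (h : md κ = 0) {S : Finset Pg} (hS : S.Nonempty)
    (hA : ∑ q ∈ S, aa q.1 = 0) :
    ∃ (g : ℂ → ℂ) (q : ℚ), Differentiable ℂ g ∧
      (∀ s : ℂ, 3 / 2 < s.re → g s = (WD4 (dC κ 0 S ^ 2)).LSeries s) ∧
      g 1 * (√|(discr K4 : ℝ)| : ℝ) / (period (WD4 (dC κ 0 S ^ 2)) : ℝ) =
        (q * (((∏ᶠ v : HeightOneSpectrum (𝓞 K4), tam (WD4 (dC κ 0 S ^ 2)) v : ℕ) : ℝ) / 16) :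
          ℝ) ∧
      ¬ 2 ∣ q.den ∧
        (¬ (2 : ℤ) ∣ q.num ↔ kapX s4 (fun q => aa q.1) (∑ q ∈ S, bb q.1) S ≠ 0) := by
  have hR : ∀ B : ValuationSubring ℂ, (2 : ℂ)⁻¹ ∉ B → Rt B (nuC (md κ) 0 S / lm ^ 2)
      (kapX s4 (fun q => aa q.1) (∑ q ∈ S, bb q.1) S) := by
    intro B hB
    rw [h]
    exact Rt_nuC_zero hB hS hA
  refine form5_of κ 0 S 2 4 (fun w hw => tam5_III h hA hw) ?_
    (fun hb B hB => (Rt_dich (hR B hB)).1 hb) (fun hb B hB => (Rt_dich (hR B hB)).2 hb)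
    (by norm_num)
  rw [h, nC_00, rC_00]
  norm_num

/-- `δ = 1, -1`: `g(1) √4 / Ω = ∏ c_v / 64` -/
theorem form5_one {κ : ZMod 4} (h : md κ = 0) :
    ∃ (g : ℂ → ℂ), Differentiable ℂ g ∧
      (∀ s : ℂ, 3 / 2 < s.re → g s = (WD4 (dC κ 0 ∅ ^ 2)).LSeries s) ∧
      g 1 * (√|(discr K4 : ℝ)| : ℝ) / (period (WD4 (dC κ 0 ∅ ^ 2)) : ℝ) =
        (((∏ᶠ v : HeightOneSpectrum (𝓞 K4), tam (WD4 (dC κ 0 ∅ ^ 2)) v : ℕ) : ℝ) / 64 : ℝ) := by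
  obtain ⟨g, hgd, hgs, hg⟩ := serC κ 0 ∅
  obtain ⟨w, hw⟩ := exists_w4
  have hT : ∏ᶠ v : HeightOneSpectrum (𝓞 K4), tam (WD4 (dC κ 0 ∅ ^ 2)) v = 4 := by
    rw [finprod_tam5 (dC_sqf κ 0 ∅) (dC_PD κ 0 ∅) hw, tam5_III h (by rw [Finset.sum_empty]) hw,
      Finset.card_empty, pow_zero, one_mul]
  refine ⟨g, hgd, hgs, ?_⟩
  rw [val5 κ 0 ∅ hg, hT, h, nuC_empty, nC_00, rC_00, DDq_empty, em_one, norm_one,
    Real.one_rpow, Finset.card_empty]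
  norm_num

end Pool.Agent.Lib.MP_1a91b9_ntQ.C
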