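import Pool.Agent.Lib.MP_1a91b9_ntQ.C.Per4A
import Pool.Agent.Lib.MP_1a91b9_ntQ.C.TamIII

/-!
# Quartic twists, part C, file Per4: the minimal model of `y² = x³ - D x` over `ℚ(i)`, `D` squarefree

The equation is minimal everywhere unless `D = 1 ± 2 i` modulo `8`; in this case it is minimal at the
odd places and the scaling factor of the change to the minimal model is a uniformizer at `1 + i`.
-/

set_option autoImplicit false
set_option linter.unusedSectionVars false

namespace Pool.Agent.Lib.MP_1a91b9_ntQ.C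

open NumberField IsDedekindDomain WithZero WeierstrassCurve Pool.Agent.Lib.MP_1a91b9_ntQ
open Pool.Agent.Lib.MP_1a91b9_ntT.S9 (tam normFactor period minModel minChange minModel_isMinimal)
open Pool.Agent.Lib.MP_1a91b9_ntK.C (perj_unique)
open Pool.Agent.Lib.MP_1a91b9_ntH.C (perb_unique)
open scoped Classical

variable {D : 𝓞 K4} {v : HeightOneSpectrum (𝓞 K4)}

theorem exists_gen4 (v : HeightOneSpectrum (𝓞 K4)) : ∃ p : 𝓞 K4, Prime p ∧ p ∈ v.asIdeal := by
  have hpid := pidK4
  obtain ⟨r, hr⟩ := (hpid.principal v.asIdeal).principal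
  have hr' : v.asIdeal = Ideal.span {r} := hr
  have hr0 : r ≠ 0 := by
    rintro rfl
    apply v.ne_bot
    rw [hr', Ideal.span_singleton_eq_bot.2 rfl]
  refine ⟨r, ?_, ?_⟩
  · rw [← Ideal.span_singleton_prime hr0, ← hr']
    exact v.isPrime
  · rw [hr']
    exact Ideal.mem_span_singleton_self r

theorem per4_sqf (hD : Squarefree D) (v : HeightOneSpectrum (𝓞 K4)) :
    exp (-1 : ℤ) ≤ v.valuation K4 (D : K4) := by
  obtain ⟨p, hp, hv⟩ := exists_gen4 v
  by_contra hcon
  rw [not_le] at hcon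
  have h1 : v.valuation K4 (D : K4) ≤ exp (-((2 : ℕ) : ℤ)) := by
    have := Lm.le_of_lt 1 hcon
    norm_num at this ⊢
    exact this
  rw [val_le_pow' hp hv, sq] at h1
  exact hp.not_isUnit (hD p h1)

theorem per4_ne (hD : Squarefree D) (v : HeightOneSpectrum (𝓞 K4)) :
    v.valuation K4 (D : K4) ≠ 0 := fun h => by
  have h1 := per4_sqf hD v
  rw [h] at h1
  exact absurd h1 (not_le.2 exp_pos)

/-- the odd places -/
theorem per4_u_odd (hD : Squarefree D) (hl : lam ∉ v.asIdeal) :
    Valued.v ((minChange (WD4 D) v).u : v.adicCompletion K4) = (1 : ℤᵐ⁰) := by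
  obtain ⟨I, hI⟩ := wq_int D v
  have h1 := perb_unique (WD4 D) v 1 I (by rw [one_smul]; exact hI) (by
    rw [one_smul, wq_val, two_val_one hl, one_pow, one_mul]
    refine lt_of_lt_of_le (b := exp (-3 : ℤ)) (exp_lt_exp.2 (by norm_num)) ?_
    have h1 := pow_le_pow_left₀ zero_le (per4_sqf hD v) 3
    rw [← exp_nsmul] at h1
    simpa using h1)
  have h3 : Valued.v (((1 : VariableChange (v.adicCompletion K4)).u : (v.adicCompletion K4)ˣ) :
      v.adicCompletion K4) = (1 : ℤᵐ⁰) := by
    change Valued.v (((1 : (v.adicCompletion K4)ˣ)) : v.adicCompletion K4) = (1 : ℤᵐ⁰)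
    rw [Units.val_one, map_one]
  rw [h3] at h1
  exact h1

/-- `x = y` modulo `8` at the place `1 + i` -/
theorem per4_eight (hv : lam ∈ v.asIdeal) {x : 𝓞 K4}
    (h : v.valuation K4 (x : K4) ≤ exp (-6 : ℤ)) : 8 ∣ x := by
  have h1 : v.valuation K4 (x : K4) ≤ exp (-((6 : ℕ) : ℤ)) := by
    simpa using h
  rw [val_le_pow' lam_prime hv, lam_pow6] at h1
  obtain ⟨t, rfl⟩ := h1
  exact ⟨-iO * t, by ring⟩

/-- **The equation is minimal.** -/
theorem per4_u (hD : Squarefree D) (h1 : ¬ 8 ∣ D - (1 + 2 * iO)) (h2 : ¬ 8 ∣ D - (1 - 2 * iO))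
    (v : HeightOneSpectrum (𝓞 K4)) :
    Valued.v ((minChange (WD4 D) v).u : v.adicCompletion K4) = (1 : ℤᵐ⁰) := by
  by_cases hl : lam ∈ v.asIdeal
  swap
  · exact per4_u_odd hD hl
  obtain ⟨I, hI⟩ := wq_int D v
  have H := hyp_lam hl
  refine perj_unique (WD4 D) v I hI ?_ fun C hC hu => ?_
  · rw [wq_val]
    refine mul_ne_zero (pow_ne_zero _ ?_) (pow_ne_zero _ (per4_ne hD v))
    rw [two_val, lam_val hl]
    exact pow_ne_zero _ exp_ne_zero
  · obtain ⟨J, hJ⟩ := hC
    rw [wq_bc] at hJ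
    obtain ⟨d, hd⟩ : ∃ d, d = algebraMap K4 (v.adicCompletion K4) (D : K4) := ⟨_, rfl⟩
    rw [← hd] at hJ
    have hu0 : (C.u : v.adicCompletion K4) ≠ 0 := C.u.ne_zero
    have hui : ((C.u⁻¹ : (v.adicCompletion K4)ˣ) : v.adicCompletion K4) =
      (C.u : v.adicCompletion K4)⁻¹ := by simp
    have hVu : 0 < Valued.v (C.u : v.adicCompletion K4) :=
      zero_lt_iff.2 ((Valuation.ne_zero_iff _).2 hu0)
    have k1 : Valued.v (C • wq d).a₁ ≤ (1 : ℤᵐ⁰) := by
      rw [hJ]
      exact J.a₁.2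
    have k2 : Valued.v (C • wq d).a₂ ≤ (1 : ℤᵐ⁰) := by
      rw [hJ]
      exact J.a₂.2
    have k3 : Valued.v (C • wq d).a₃ ≤ (1 : ℤᵐ⁰) := by
      rw [hJ]
      exact J.a₃.2
    have k4 : Valued.v (C • wq d).a₄ ≤ (1 : ℤᵐ⁰) := by
      rw [hJ]
      exact J.a₄.2
    have k6 : Valued.v (C • wq d).a₆ ≤ (1 : ℤᵐ⁰) := by
      rw [hJ]
      exact J.a₆.2
    rw [variableChange_a₁, hui, map_mul, map_inv₀, inv_mul_le_one₀ hVu] at k1
    rw [variableChange_a₂, hui, inv_pow, map_mul, map_inv₀, map_pow,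
      inv_mul_le_one₀ (pow_pos hVu 2)] at k2
    rw [variableChange_a₃, hui, inv_pow, map_mul, map_inv₀, map_pow,
      inv_mul_le_one₀ (pow_pos hVu 3)] at k3
    rw [variableChange_a₄, hui, inv_pow, map_mul, map_inv₀, map_pow,
      inv_mul_le_one₀ (pow_pos hVu 4)] at k4
    rw [variableChange_a₆, hui, inv_pow, map_mul, map_inv₀, map_pow,
      inv_mul_le_one₀ (pow_pos hVu 6)] at k6
    have key := per4_val (Valued.v : Valuation (v.adicCompletion K4) ℤᵐ⁰) H.sq H.v H.res (D := d)
      (u := C.u) (r := C.r) (s := C.s) (t := C.t)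
      (by rw [hd, hval]; exact per4_sqf hD v) (by rw [hd, hval]; exact v.valuation_le_one D) hu
      (by
        refine (congrArg Valued.v ?_).trans_le k1
        simp [wq])
      (by
        refine (congrArg Valued.v ?_).trans_le k2
        simp [wq])
      (by
        refine (congrArg Valued.v ?_).trans_le k3
        simp [wq])
      (by
        refine (congrArg Valued.v ?_).trans_le k4
        simp [wq]
        ring)
      (by
        refine (congrArg Valued.v ?_).trans_le k6
        simp [wq]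
        ring)
    have hc : ∀ n : ℤ, ((1 + (n : 𝓞 K4) * iO : 𝓞 K4) : K4) = 1 + (n : K4) * iK := by
      intro n
      have e2 : ((1 + (n : 𝓞 K4) * iO : 𝓞 K4) : K4) = algebraMap (𝓞 K4) K4 (1 + (n : 𝓞 K4) * iO) :=
        rfl
      rw [e2, map_add, map_mul, map_one, map_intCast]
      rfl
    have hdv : ∀ n : ℤ, Valued.v (d - (1 + (n : v.adicCompletion K4) *
        algebraMap K4 (v.adicCompletion K4) iK)) ≤ exp (-6 : ℤ) →
        8 ∣ D - (1 + (n : 𝓞 K4) * iO) := by
      intro n hn
      apply per4_eight hl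
      rw [← val_sub, hc, map_add, map_one, map_mul, map_intCast, ← hd]
      exact hn
    rcases key with h | h
    · have := hdv 2 (by push_cast; exact h)
      push_cast at this
      exact h1 this
    · have := hdv 6 (by push_cast; exact h)
      push_cast at this
      apply h2
      obtain ⟨t, ht⟩ := this
      exact ⟨t + iO, by linear_combination ht⟩

/-- the change to the minimal model at `1 + i` if `D = 1 ± 2 i` modulo `8` -/
theorem per4_good_aux {j : v.adicCompletion K4}
    (H : Lm.Hyp (Valued.v : Valuation (v.adicCompletion K4) ℤᵐ⁰) j)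
    (hm : Valued.v (algebraMap K4 (v.adicCompletion K4) (D : K4) - (1 + 2 * j)) ≤ exp (-6 : ℤ)) :
    Valued.v ((minChange (WD4 D) v).u : v.adicCompletion K4) = exp (-1 : ℤ) := by
  have hc := charZero4 v
  have hv8 : Valued.v (8 : v.adicCompletion K4) = exp (-6 : ℤ) := by
    have e : (8 : v.adicCompletion K4) = 4 * 2 := by norm_num
    rw [e, map_mul, Lm.v4 H, Lm.v2 H, ← exp_add]
    norm_num
  have h80 : (8 : v.adicCompletion K4) ≠ 0 := by norm_num
  obtain ⟨d, hd, hDd⟩ : ∃ d : v.adicCompletion K4, Valued.v d ≤ (1 : ℤᵐ⁰) ∧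
      algebraMap K4 (v.adicCompletion K4) (D : K4) = 1 + 2 * j + 8 * d := by
    refine ⟨(algebraMap K4 (v.adicCompletion K4) (D : K4) - (1 + 2 * j)) / 8, ?_, by
      field_simp; ring⟩
    rw [map_div₀, hv8]
    exact (div_le_one₀ exp_pos).2 hm
  have hl0 : (1 + j : v.adicCompletion K4) ≠ 0 := by
    intro h0
    have := H.v
    rw [h0, map_zero] at this
    exact exp_ne_zero this.symm
  have hgc := good_change two_ne_zero H.sq hl0 hDd
  have hj1 := Lm.vj H
  have hj1' : Valued.v (1 - j) ≤ (1 : ℤᵐ⁰) := by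
    rw [Lm.v1 H]
    exact Lm.e1lt.le
  have h2d : Valued.v (2 * d) ≤ (1 : ℤᵐ⁰) := by
    rw [map_mul]
    exact mul_le_one' (Lm.v2lt H).le hd
  have h1 := perb_unique (WD4 D) v ⟨Units.mk0 (1 + j) hl0, 1, 1, 1 - j⟩
    ⟨⟨1 - j, hj1'⟩, -⟨j, hj1.le⟩, -1, ⟨2 * d, h2d⟩, -⟨j, hj1.le⟩ * ⟨d, hd⟩⟩ (by
      rw [wq_bc, hgc]
      ext <;> simp [WeierstrassCurve.map, WeierstrassCurve.baseChange]) (by
      rw [wq_bc, variableChange_Δ, wq_disc, map_mul, map_pow, Units.val_inv_eq_inv_val, map_inv₀,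
        Units.val_mk0, H.v]
      have e64 : (64 : v.adicCompletion K4) * algebraMap K4 (v.adicCompletion K4) (D : K4) ^ 3 =
          4 * 4 * 4 * algebraMap K4 (v.adicCompletion K4) (D : K4) ^ 3 := by norm_num
      have hD1 : Valued.v (algebraMap K4 (v.adicCompletion K4) (D : K4)) = (1 : ℤᵐ⁰) := by
        have e : algebraMap K4 (v.adicCompletion K4) (D : K4) = 1 + 2 * (j + 4 * d) := by
          rw [hDd]
          ring
        have h3 : Valued.v (2 * (j + 4 * d)) < (1 : ℤᵐ⁰) := by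
          rw [map_mul]
          refine mul_lt_one_of_lt_of_le (Lm.v2lt H)
            ((Valuation.map_add _ _ _).trans (max_le hj1.le ?_))
          rw [map_mul, Lm.v4 H]
          refine mul_le_one' ?_ hd
          rw [← exp_zero, exp_le_exp]
          norm_num
        rw [e, Valuation.map_add_eq_of_lt_left, map_one]
        rw [map_one]
        exact h3
      rw [e64, map_mul, map_mul, map_mul, map_pow, hD1, Lm.v4 H, one_pow, mul_one, ← exp_neg,
        ← exp_nsmul, ← exp_add, ← exp_add, ← exp_add, exp_lt_exp]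
      norm_num)
  rw [h1, Units.val_mk0]
  exact H.v

/-- The scaling factor at `1 + i` if `D = 1 ± 2 i` modulo `8`. -/
theorem per4_u_good (h : 8 ∣ D - (1 + 2 * iO) ∨ 8 ∣ D - (1 - 2 * iO)) (hv : lam ∈ v.asIdeal) :
    Valued.v ((minChange (WD4 D) v).u : v.adicCompletion K4) = exp (-1 : ℤ) := by
  have H := hyp_lam hv
  have key : ∀ n : ℤ, 8 ∣ D - (1 + (n : 𝓞 K4) * iO) →
      Valued.v (algebraMap K4 (v.adicCompletion K4) (D : K4) -
        (1 + (n : v.adicCompletion K4) * algebraMap K4 (v.adicCompletion K4) iK)) ≤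
          exp (-6 : ℤ) := by
    intro n h8
    have h1 := eight_val hv h8
    rw [← val_sub] at h1
    have e2 : ((1 + (n : 𝓞 K4) * iO : 𝓞 K4) : K4) = 1 + (n : K4) * iK := by
      have e2 : ((1 + (n : 𝓞 K4) * iO : 𝓞 K4) : K4) = algebraMap (𝓞 K4) K4 (1 + (n : 𝓞 K4) * iO) :=
        rfl
      rw [e2, map_add, map_mul, map_one, map_intCast]
      rfl
    rw [e2, map_add, map_one, map_mul, map_intCast] at h1
    exact h1
  rcases h with h | h
  · refine per4_good_aux H ?_
    have := key 2 (by push_cast; exact h)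
    push_cast at this
    exact this
  · refine per4_good_aux (Lm.symm H) ?_
    have := key (-2) (by push_cast; rw [neg_mul, ← sub_eq_add_neg]; exact h)
    push_cast at this
    have e : (1 + 2 * -algebraMap K4 (v.adicCompletion K4) iK : v.adicCompletion K4) =
        1 + -2 * algebraMap K4 (v.adicCompletion K4) iK := by ring
    rw [e]
    exact this

end Pool.Agent.Lib.MP_1a91b9_ntQ.C
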