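import Pool.Agent.Lib.MP_1a91b9_ntK.C.PerJ

/-!
# Quartic twists, part C, file Per4A: the changes of `y² = x³ - D x` at the place above `2`

If there is a change to an integral equation whose scaling factor is not a unit then
`D = 1 + 2 i` or `D = 1 + 6 i` modulo `8`.
-/

set_option autoImplicit false

namespace Pool.Agent.Lib.MP_1a91b9_ntQ.C

open WithZero

/-! ### In a ring -/

section ring
variable {R : Type*} [CommRing R] [IsDomain R] {ι : R}

theorem per4_ring (hι : ι ^ 2 = -1) (hres : ∀ x : R, (1 + ι) ∣ x ∨ (1 + ι) ∣ x - 1)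
    (hl : Prime (1 + ι)) {r s t D : R} (h1 : 2 ∣ 3 * r - s ^ 2) (h2 : (1 + ι) ∣ t)
    (h3 : 4 ∣ 3 * r ^ 2 - D - 2 * s * t) (h4 : 8 ∣ r ^ 3 - r * D - t ^ 2) (hD : ¬ 2 ∣ D) :
    8 ∣ D - (1 + 2 * ι) ∨ 8 ∣ D - (1 + 6 * ι) := by
  have hl2 : (1 + ι) ∣ 2 := ⟨1 - ι, by linear_combination hι⟩
  have h20 : (2 : R) ≠ 0 := by
    intro h
    apply hl.ne_zero
    have e : (1 + ι) ^ 2 = 0 := by linear_combination hι + ι * h
    exact pow_eq_zero_iff two_ne_zero |>.1 e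
  obtain ⟨f, hf⟩ := h1
  obtain ⟨τ, rfl⟩ := h2
  obtain ⟨e, he⟩ := h3
  obtain ⟨g, hg⟩ := h4
  -- `r` is a unit
  have hr : ¬ (1 + ι) ∣ r := by
    rintro ⟨r₁, rfl⟩
    exact hD ⟨3 * ι * r₁ ^ 2 - s * ((1 + ι) * τ) - 2 * e, by
      linear_combination -he + 3 * r₁ ^ 2 * hι⟩
  -- `s` is a unit
  have hs : ¬ (1 + ι) ∣ s := by
    rintro ⟨s₁, rfl⟩
    apply hr
    have e1 : r = (1 + ι) * ((1 + ι) * s₁ ^ 2) + 2 * (f - r) := by linear_combination hf
    rw [e1]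
    exact dvd_add (dvd_mul_right _ _) (hl2.mul_right _)
  obtain ⟨σ, hσ⟩ := (hres s).resolve_left hs
  obtain rfl : s = 1 + (1 + ι) * σ := by linear_combination hσ
  obtain ⟨ρ, hρ⟩ : ∃ ρ, r = 1 + 2 * ι * ρ :=
    ⟨-ι * ((1 + ι) * σ + ι * σ ^ 2 + f - r), by
      linear_combination hf + (σ ^ 2 + 2 * ((1 + ι) * σ + ι * σ ^ 2 + f - r)) * hι⟩
  -- `τ` is a unit
  have hτ : ¬ (1 + ι) ∣ τ := by
    rintro ⟨τ₁, rfl⟩
    apply hr
    have e1 : (2 : R) * r ^ 3 = 2 * (2 * (ι * r * (1 + (1 + ι) * σ) * τ₁ + r * e + τ₁ ^ 2 -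
        2 * g)) := by
      linear_combination -hg + r * he + (2 * r * (1 + (1 + ι) * σ) * τ₁ -
        (ι ^ 2 + 4 * ι + 5) * τ₁ ^ 2) * hι
    have e2 := mul_left_cancel₀ h20 e1
    exact hl.dvd_of_dvd_pow (n := 3) (by rw [e2]; exact hl2.mul_right _)
  obtain ⟨κ, hκ⟩ := (hres τ).resolve_left hτ
  obtain rfl : τ = 1 + (1 + ι) * κ := by linear_combination hκ
  -- `D` modulo `4`
  obtain ⟨δ, hδ⟩ : ∃ δ, D = 1 + 2 * ι + 4 * δ :=
    ⟨-ι + 3 * ι * ρ - 3 * ρ ^ 2 - ι * (σ + κ + (1 + ι) * σ * κ) - e, by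
      rw [hρ] at he
      linear_combination -he +
        (-2 * ι * σ * κ + 12 * ρ ^ 2 - 2 * σ * κ - 2 * σ - 2 * κ) * hι⟩
  rw [hρ, hδ] at hg
  rw [hδ]
  rcases hres ρ with ⟨p, hp⟩ | ⟨p, hp⟩ <;> rcases hres κ with ⟨k, hk⟩ | ⟨k, hk⟩
  · right
    rw [hp, hk] at hg
    exact ⟨2 * ι * p ^ 3 - ι * p * δ - 3 * ι * p ^ 2 + ι * k ^ 2 + 2 * p ^ 3 + ι * p + p * δ - ι +
      k - g, by
      linear_combination (8 * ι ^ 4 * p ^ 3 + 24 * ι ^ 3 * p ^ 3 - ι ^ 4 * k ^ 2 +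
        16 * ι ^ 2 * p ^ 3 - 6 * ι ^ 3 * k ^ 2 - 16 * ι * p ^ 3 + 12 * ι ^ 2 * p ^ 2 -
        14 * ι ^ 2 * k ^ 2 + 24 * ι * p ^ 2 - 14 * ι * k ^ 2 - 2 * ι ^ 2 * k - 16 * p ^ 3 -
        4 * ι * p - 8 * ι * k - 8 * p * δ - k ^ 2 - 10 * k - 1) * hι - hg⟩
  · left
    have hk' : κ = 1 + (1 + ι) * k := by linear_combination hk
    rw [hp, hk'] at hg
    exact ⟨2 * ι * p ^ 3 - ι * p * δ - 3 * ι * p ^ 2 + ι * k ^ 2 + 2 * p ^ 3 + ι * p + ι * k +
      p * δ - ι + 2 * k + 1 - g, by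
      linear_combination (8 * ι ^ 4 * p ^ 3 + 24 * ι ^ 3 * p ^ 3 - ι ^ 4 * k ^ 2 +
        16 * ι ^ 2 * p ^ 3 - 6 * ι ^ 3 * k ^ 2 - 16 * ι * p ^ 3 + 12 * ι ^ 2 * p ^ 2 -
        14 * ι ^ 2 * k ^ 2 - 2 * ι ^ 3 * k + 24 * ι * p ^ 2 - 14 * ι * k ^ 2 - 12 * ι ^ 2 * k -
        16 * p ^ 3 - 4 * ι * p - 26 * ι * k - ι ^ 2 - 8 * p * δ - k ^ 2 - 6 * ι - 20 * k -
        12) * hι - hg⟩
  · left
    have hp' : ρ = 1 + (1 + ι) * p := by linear_combination hp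
    rw [hp', hk] at hg
    exact ⟨2 * ι * p ^ 3 - ι * p * δ - 3 * ι * p ^ 2 + ι * k ^ 2 + 2 * p ^ 3 - 5 * ι * p - ι * δ +
      p * δ + 6 * p ^ 2 - ι + k - 1 - g, by
      linear_combination (8 * ι ^ 4 * p ^ 3 + 24 * ι ^ 3 * p ^ 3 - ι ^ 4 * k ^ 2 +
        16 * ι ^ 2 * p ^ 3 + 24 * ι ^ 3 * p ^ 2 - 6 * ι ^ 3 * k ^ 2 - 16 * ι * p ^ 3 +
        60 * ι ^ 2 * p ^ 2 - 14 * ι ^ 2 * k ^ 2 + 24 * ι * p ^ 2 - 14 * ι * k ^ 2 +
        24 * ι ^ 2 * p - 2 * ι ^ 2 * k - 16 * p ^ 3 + 44 * ι * p - 8 * ι * k - 8 * p * δ -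
        48 * p ^ 2 - k ^ 2 + 8 * ι - 10 * k + 7) * hι - hg⟩
  · right
    have hp' : ρ = 1 + (1 + ι) * p := by linear_combination hp
    have hk' : κ = 1 + (1 + ι) * k := by linear_combination hk
    rw [hp', hk'] at hg
    exact ⟨2 * ι * p ^ 3 - ι * p * δ - 3 * ι * p ^ 2 + ι * k ^ 2 + 2 * p ^ 3 - 5 * ι * p + ι * k -
      ι * δ + p * δ + 6 * p ^ 2 - 2 * ι + 2 * k - g, by
      linear_combination (8 * ι ^ 4 * p ^ 3 + 24 * ι ^ 3 * p ^ 3 - ι ^ 4 * k ^ 2 +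
        16 * ι ^ 2 * p ^ 3 + 24 * ι ^ 3 * p ^ 2 - 6 * ι ^ 3 * k ^ 2 - 16 * ι * p ^ 3 +
        60 * ι ^ 2 * p ^ 2 - 14 * ι ^ 2 * k ^ 2 - 2 * ι ^ 3 * k + 24 * ι * p ^ 2 -
        14 * ι * k ^ 2 - 12 * ι ^ 2 * k + 24 * ι ^ 2 * p - 16 * p ^ 3 + 44 * ι * p - 26 * ι * k -
        ι ^ 2 - 8 * p * δ - 48 * p ^ 2 - k ^ 2 + 2 * ι - 20 * k - 4) * hι - hg⟩

end ring

/-! ### In a field with a valuation -/

section val
variable {F : Type*} [Field F] (V : Valuation F ℤᵐ⁰) {ι : F}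

theorem per4_lt {x : ℤᵐ⁰} (h : x < 1) : x ≤ exp (-1 : ℤ) := by
  rcases eq_or_ne x 0 with rfl | h0
  · exact zero_le
  · rw [← exp_log h0] at h ⊢
    rw [← exp_zero, exp_lt_exp] at h
    rw [exp_le_exp]
    omega

theorem per4_two (hι : ι ^ 2 = -1) (hl : V (1 + ι) = exp (-1 : ℤ)) : V 2 = exp (-2 : ℤ) := by
  have hi : V ι = 1 := by
    have h1 : V ι ^ 2 = 1 := by rw [← map_pow, hι, Valuation.map_neg, map_one]
    exact (pow_eq_one_iff_of_nonneg zero_le two_ne_zero).1 h1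
  have h1 : V ((1 + ι) ^ 2) = V 2 := by
    have e : (1 + ι) ^ 2 = 2 * ι := by linear_combination hι
    rw [e, map_mul, hi, mul_one]
  rw [← h1, map_pow, hl, ← exp_nsmul]
  norm_num

/-- no change to an integral equation whose scaling factor is not a unit -/
theorem per4_val (hι : ι ^ 2 = -1) (hl : V (1 + ι) = exp (-1 : ℤ))
    (hres : ∀ x : F, V x ≤ 1 → V x < 1 ∨ V (x - 1) < 1) {D u r s t : F}
    (hD : exp (-1 : ℤ) ≤ V D) (hD1 : V D ≤ 1) (hu : V u < 1)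
    (h1 : V (2 * s) ≤ V u) (h2 : V (3 * r - s ^ 2) ≤ V u ^ 2) (h3 : V (2 * t) ≤ V u ^ 3)
    (h4 : V (3 * r ^ 2 - D - 2 * s * t) ≤ V u ^ 4) (h6 : V (r ^ 3 - r * D - t ^ 2) ≤ V u ^ 6) :
    V (D - (1 + 2 * ι)) ≤ exp (-6 : ℤ) ∨ V (D - (1 + 6 * ι)) ≤ exp (-6 : ℤ) := by
  have hu1 := per4_lt hu
  have v2 := per4_two V hι hl
  have hpow : ∀ n : ℕ, V u ^ n ≤ exp (-(n : ℤ)) := by
    intro n
    refine (pow_le_pow_left₀ zero_le hu1 n).trans_eq ?_
    rw [← exp_nsmul]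
    simp
  have v3 : V 3 = 1 := by
    have e : (3 : F) = 1 + 2 := by norm_num
    rw [e, Valuation.map_add_eq_of_lt_left, map_one]
    rw [map_one, v2, ← exp_zero, exp_lt_exp]
    norm_num
  have v4 : V 4 = exp (-4 : ℤ) := by
    have e : (4 : F) = 2 * 2 := by norm_num
    rw [e, map_mul, v2, ← exp_add]
    norm_num
  have v8 : V 8 = exp (-6 : ℤ) := by
    have e : (8 : F) = 2 * 4 := by norm_num
    rw [e, map_mul, v2, v4, ← exp_add]
    norm_num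
  have h1' := h1.trans hu1
  have h2' := h2.trans (hpow 2)
  have h3' := h3.trans (hpow 3)
  have h4' := h4.trans (hpow 4)
  have h6' := h6.trans (hpow 6)
  push_cast at h2' h3' h4' h6'
  have hexp : ∀ a b : ℤ, exp a * exp b = exp (a + b) := fun a b => (exp_add a b).symm
  have hdiv : ∀ {x : F} {n : ℤ}, V (2 * x) ≤ exp n → V x ≤ exp (n + 2) := by
    intro x n h
    rw [map_mul, v2] at h
    have h7 := mul_le_mul_right h (exp (2 : ℤ))
    rw [← mul_assoc, hexp, hexp, show (2 : ℤ) + -2 = 0 by norm_num, exp_zero, one_mul,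
      add_comm] at h7
    exact h7
  have ht : V t ≤ exp (-1 : ℤ) := (hdiv h3').trans_eq (congrArg exp (by norm_num))
  have hs : V s ≤ exp (1 : ℤ) := (hdiv h1').trans_eq (congrArg exp (by norm_num))
  -- `s` is integral
  have hs1 : V s ≤ 1 := by
    by_contra hcon
    rw [not_le] at hcon
    have hs0 : V s ≠ 0 := (zero_lt_one.trans hcon).ne'
    obtain ⟨m, hm⟩ : ∃ m : ℤ, V s = exp m := ⟨_, (exp_log hs0).symm⟩
    rw [hm, ← exp_zero, exp_lt_exp] at hcon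
    rw [hm, exp_le_exp] at hs
    obtain rfl : m = 1 := by omega
    have e1 : V (s ^ 2) = exp (2 : ℤ) := by
      rw [map_pow, hm, ← exp_nsmul]
      norm_num
    have e2 : V (3 * r) = exp (2 : ℤ) := by
      have e : 3 * r = (3 * r - s ^ 2) + s ^ 2 := by ring
      rw [e, Valuation.map_add_eq_of_lt_right, e1]
      rw [e1]
      exact h2'.trans_lt (exp_lt_exp.2 (by norm_num))
    rw [map_mul, v3, one_mul] at e2
    have e3 : V (3 * r ^ 2) = exp (4 : ℤ) := by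
      rw [map_mul, v3, one_mul, map_pow, e2, ← exp_nsmul]
      norm_num
    have e4 : V (D + 2 * s * t) ≤ 1 := by
      refine (V.map_add _ _).trans (max_le hD1 ?_)
      rw [map_mul, map_mul, v2, hm, hexp]
      refine (mul_le_mul_right ht _).trans ?_
      rw [hexp, ← exp_zero, exp_le_exp]
      norm_num
    have e5 : V (3 * r ^ 2 - D - 2 * s * t) = exp (4 : ℤ) := by
      have e : 3 * r ^ 2 - D - 2 * s * t = -(D + 2 * s * t) + 3 * r ^ 2 := by ring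
      rw [e, Valuation.map_add_eq_of_lt_right, e3]
      rw [e3, Valuation.map_neg]
      exact e4.trans_lt (by rw [← exp_zero, exp_lt_exp]; norm_num)
    rw [e5, exp_le_exp] at h4'
    norm_num at h4'
  have hr1 : V r ≤ 1 := by
    have h7 : V (3 * r) ≤ 1 := by
      have e : 3 * r = (3 * r - s ^ 2) + s ^ 2 := by ring
      rw [e]
      refine (V.map_add _ _).trans (max_le (h2'.trans ?_) ?_)
      · rw [← exp_zero, exp_le_exp]
        norm_num
      · rw [map_pow]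
        exact pow_le_one₀ zero_le hs1
    rwa [map_mul, v3, one_mul] at h7
  have ht1 : V t ≤ 1 := ht.trans (by rw [← exp_zero, exp_le_exp]; norm_num)
  have hi : V ι ≤ 1 := by
    have h1 : V ι ^ 2 = 1 := by rw [← map_pow, hι, Valuation.map_neg, map_one]
    exact ((pow_eq_one_iff_of_nonneg zero_le two_ne_zero).1 h1).le
  -- in the ring of the integral elements
  have hO := Valuation.integer.integers V
  have hdvd : ∀ {x y : V.integer}, x ∣ y ↔ V (y : F) ≤ V (x : F) := fun {x y} => hO.dvd_iff_le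
  have key := per4_ring (R := V.integer) (ι := ⟨ι, hi⟩) (Subtype.ext hι) (fun x => by
      rcases hres x x.2 with h | h
      · left
        rw [hdvd]
        exact (per4_lt h).trans_eq hl.symm
      · right
        rw [hdvd]
        exact (per4_lt h).trans_eq hl.symm) (by
      refine ⟨?_, ?_, ?_⟩
      · intro h
        have h7 := congrArg (fun z : V.integer => V (z : F)) h
        change V (1 + ι) = V 0 at h7
        rw [hl, map_zero] at h7
        exact exp_ne_zero h7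
      · intro h
        have h7 := (hdvd (x := ⟨1 + ι, hl.le.trans (by rw [← exp_zero, exp_le_exp]; norm_num)⟩)
          (y := 1)).1 (h.dvd)
        change V 1 ≤ V (1 + ι) at h7
        rw [map_one, hl, ← exp_zero, exp_le_exp] at h7
        norm_num at h7
      · intro a b h
        rw [hdvd] at h ⊢
        rw [hdvd]
        change V ((a : F) * b) ≤ V (1 + ι) at h
        change V (a : F) ≤ V (1 + ι) ∨ V (b : F) ≤ V (1 + ι)
        rw [hl] at h ⊢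
        by_contra hcon
        push Not at hcon
        have k1 : V (a : F) = 1 := le_antisymm a.2 (not_lt.1 fun h7 =>
          absurd (per4_lt h7) (not_le.2 hcon.1))
        have k2 : V (b : F) = 1 := le_antisymm b.2 (not_lt.1 fun h7 =>
          absurd (per4_lt h7) (not_le.2 hcon.2))
        rw [map_mul, k1, k2, mul_one, ← exp_zero, exp_le_exp] at h
        norm_num at h)
    (r := ⟨r, hr1⟩) (s := ⟨s, hs1⟩) (t := ⟨t, ht1⟩) (D := ⟨D, hD1⟩)
    (by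
      rw [hdvd]
      change V (3 * r - s ^ 2) ≤ V 2
      rw [v2]
      exact h2') (by
      rw [hdvd]
      change V t ≤ V (1 + ι)
      rw [hl]
      exact ht) (by
      rw [hdvd]
      change V (3 * r ^ 2 - D - 2 * s * t) ≤ V 4
      rw [v4]
      exact h4') (by
      rw [hdvd]
      change V (r ^ 3 - r * D - t ^ 2) ≤ V 8
      rw [v8]
      exact h6') (by
      rw [hdvd]
      change ¬ V D ≤ V 2
      rw [v2, not_le]
      exact lt_of_lt_of_le (exp_lt_exp.2 (by norm_num)) hD)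
  rcases key with h | h
  · left
    rw [hdvd] at h
    change V (D - (1 + 2 * ι)) ≤ V 8 at h
    rwa [v8] at h
  · right
    rw [hdvd] at h
    change V (D - (1 + 6 * ι)) ≤ V 8 at h
    rwa [v8] at h

end val

end Pool.Agent.Lib.MP_1a91b9_ntQ.C
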