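import Pool.Agent.Lib.MP_1a91b9_ntQ.C.TamS0

/-!
# MP_1a91b9_nt (phase 5), Tamagawa numbers: the curve `y² = x³ - d² x`, `d` a uniformizer

The points with nonsingular reduction are `O` and the points with `1 ≤ V x`; the index is four (the
four points of order two).
-/

set_option autoImplicit false
set_option linter.unusedSectionVars false
set_option linter.unusedVariables false

namespace Pool.Agent.Lib.MP_1a91b9_ntQ.C

open WithZero WeierstrassCurve
open Pool.Agent.Lib.MP_1a91b9_ntH.C (nsSet nsG Sq)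
open scoped Classical

namespace T5

variable {L : Type*} [Field L] [CharZero L] {ν : Valuation L ℤᵐ⁰} {D : L}

/-- two of three abscissas are not small: neither is the third -/
theorem line_big (h4 : ν 4 ≤ 1) (hD : ν D < 1) {x₁ x₂ x₃ : L}
    (he : (D + (x₁ * x₂ + x₃ * (x₁ + x₂))) ^ 2 = 4 * (x₁ + x₂ + x₃) * (x₁ * x₂ * x₃))
    (h₁ : 1 ≤ ν x₁) (h₂ : 1 ≤ ν x₂) : 1 ≤ ν x₃ := by
  by_contra hc
  rw [not_le] at hc
  have hE := congrArg ν he
  rw [map_pow, map_mul, map_mul, map_mul, map_mul] at hE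
  have n1 : ν x₁ ≠ 0 := (zero_lt_one.trans_le h₁).ne'
  have n2 : ν x₂ ≠ 0 := (zero_lt_one.trans_le h₂).ne'
  have m1 : ν x₁ ≤ ν x₁ * ν x₂ := le_mul_of_one_le_right' h₂
  have m2 : ν x₂ ≤ ν x₁ * ν x₂ := le_mul_of_one_le_left' h₁
  have m0 : 1 ≤ ν x₁ * ν x₂ := h₁.trans m1
  have nm : ν x₁ * ν x₂ ≠ 0 := mul_ne_zero n1 n2
  have hlt : ν x₃ * (ν x₁ * ν x₂) < ν x₁ * ν x₂ := by
    calc ν x₃ * (ν x₁ * ν x₂) < 1 * (ν x₁ * ν x₂) :=
          mul_lt_mul_of_pos_right hc (zero_lt_iff.2 nm)
      _ = ν x₁ * ν x₂ := one_mul _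
  have e1 : ν (D + (x₁ * x₂ + x₃ * (x₁ + x₂))) = ν x₁ * ν x₂ := by
    have e : D + (x₁ * x₂ + x₃ * (x₁ + x₂)) = x₁ * x₂ + (D + x₃ * (x₁ + x₂)) := by ring
    have e' : ν (x₁ * x₂) = ν x₁ * ν x₂ := map_mul _ _ _
    rw [e, ν.map_add_eq_of_lt_left, e']
    rw [e']
    refine (ν.map_add _ _).trans_lt (max_lt (hD.trans_le m0) ?_)
    rw [map_mul]
    refine lt_of_le_of_lt ?_ hlt
    gcongr
    exact (ν.map_add _ _).trans (max_le m1 m2)
  have e2 : ν (x₁ + x₂ + x₃) ≤ ν x₁ * ν x₂ :=
    (ν.map_add _ _).trans (max_le ((ν.map_add _ _).trans (max_le m1 m2)) (hc.le.trans m0))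
  rw [e1] at hE
  have k : ν 4 * ν (x₁ + x₂ + x₃) * (ν x₁ * ν x₂ * ν x₃) < (ν x₁ * ν x₂) ^ 2 := by
    calc ν 4 * ν (x₁ + x₂ + x₃) * (ν x₁ * ν x₂ * ν x₃)
        ≤ 1 * (ν x₁ * ν x₂) * (ν x₁ * ν x₂ * ν x₃) := by gcongr
      _ = (ν x₁ * ν x₂) * (ν x₃ * (ν x₁ * ν x₂)) := by
        rw [one_mul, mul_comm (ν x₁ * ν x₂) (ν x₃)]
      _ < (ν x₁ * ν x₂) * (ν x₁ * ν x₂) := mul_lt_mul_of_pos_left hlt (zero_lt_iff.2 nm)
      _ = (ν x₁ * ν x₂) ^ 2 := (pow_two _).symm
  rw [← hE] at k
  exact lt_irrefl _ k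

/-- The points with `1 ≤ V x`. -/
noncomputable def E0 (ν : Valuation L ℤᵐ⁰) (h4 : ν 4 ≤ 1) (hD : ν D < 1) :
    AddSubgroup (wq D).toAffine.Point where
  carrier := {P | P = 0 ∨ ∃ (x y : L) (h : (wq D).toAffine.Nonsingular x y),
    P = Affine.Point.some x y h ∧ 1 ≤ ν x}
  zero_mem' := Or.inl rfl
  add_mem' := by
    rintro P Q hP hQ
    rcases hP with rfl | ⟨x₁, y₁, h₁, rfl, hP⟩
    · rw [zero_add]; exact hQ
    rcases hQ with rfl | ⟨x₂, y₂, h₂, rfl, hQ⟩
    · rw [add_zero]; exact Or.inr ⟨x₁, y₁, h₁, rfl, hP⟩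
    by_cases hxy : x₁ = x₂ ∧ y₁ = (wq D).toAffine.negY x₂ y₂
    · left
      exact Affine.Point.add_of_Y_eq hxy.1 hxy.2
    right
    obtain ⟨l, n, x₃, y₃, hx3, -, -, -, -, hl⟩ := wq_line h₁.1 h₂.1 hxy
    refine ⟨_, _, _, Affine.Point.add_some hxy, ?_⟩
    rw [hx3]
    exact line_big h4 hD (line_sq hl) hP hQ
  neg_mem' := by
    rintro P (rfl | ⟨x, y, h, rfl, hP⟩)
    · left; exact neg_zero
    · right
      exact ⟨_, _, _, Affine.Point.neg_some h, hP⟩

theorem mem_E0 {h4 : ν 4 ≤ 1} {hD : ν D < 1} {x y : L} {h : (wq D).toAffine.Nonsingular x y} :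
    Affine.Point.some x y h ∈ E0 ν h4 hD ↔ 1 ≤ ν x := by
  constructor
  · rintro (h0 | ⟨x', y', h', hxy, hc⟩)
    · exact absurd h0 (Affine.Point.some_ne_zero _)
    · obtain ⟨rfl, rfl⟩ := (Affine.Point.some.injEq ..).mp hxy
      exact hc
  · intro hx
    exact Or.inr ⟨x, y, h, rfl, hx⟩

/-- **the points with nonsingular reduction**, `D` not a unit -/
theorem nsG_E0 (h2 : ν 2 ≤ 1) (h4 : ν 4 ≤ 1) (h3 : ν 3 = 1 ∨ ν 2 = 1) (hD : ν D < 1) :
    nsG ν (wq D) = E0 ν h4 hD := by
  have e2 : ∀ x y : L, 2 * y + (wq D).a₁ * x + (wq D).a₃ = 2 * y := by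
    intro x y
    simp [wq]
  have e3 : ∀ x y : L, 3 * x ^ 2 + 2 * (wq D).a₂ * x + (wq D).a₄ - (wq D).a₁ * y = 3 * x ^ 2 - D := by
    intro x y
    simp only [wq]
    ring
  have h3le : ν (3 : L) ≤ 1 := by
    have e : (3 : L) = 2 + 1 := by norm_num
    rw [e]
    exact (ν.map_add _ _).trans (max_le h2 (map_one ν).le)
  have hset : nsSet ν (wq D) = (E0 ν h4 hD : Set (wq D).toAffine.Point) := by
    ext P
    rcases P with _ | ⟨x, y, h⟩
    · constructor
      · intro _
        exact Or.inl rfl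
      · intro _
        exact Or.inl rfl
    constructor
    · rintro (h0 | ⟨x', y', h', hxy, hc⟩)
      · exact absurd h0 (Affine.Point.some_ne_zero _)
      obtain ⟨rfl, rfl⟩ := (Affine.Point.some.injEq ..).mp hxy
      refine Or.inr ⟨x, y, h, rfl, ?_⟩
      by_contra hlt
      push Not at hlt
      rcases hc with h1 | h1 | h1
      · exact absurd h1 (not_lt.2 hlt.le)
      · have heq := congrArg ν ((wq_eqn _ _).1 h.1)
        have e0 : x ^ 3 - D * x = (x ^ 2 - D) * x := by ring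
        have k1 : ν (x ^ 2 - D) < 1 := by
          refine Valuation.map_sub_lt _ ?_ hD
          rw [map_pow]
          exact pow_lt_one₀ zero_le hlt (by norm_num)
        have k2 : ν (y ^ 2) < 1 := by
          rw [heq, e0, map_mul]
          exact mul_lt_one_of_lt_of_le k1 hlt.le
        have k3 : ν y < 1 := by
          by_contra hc
          rw [map_pow] at k2
          exact absurd k2 (not_lt.2 (one_le_pow₀ (not_lt.1 hc)))
        rw [e2 x y, map_mul, mul_comm] at h1
        have k4 := mul_lt_one_of_lt_of_le k3 h2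
        rw [h1] at k4
        exact lt_irrefl _ k4
      · rw [e3 x y] at h1
        have k1 : ν (3 * x ^ 2 - D) < 1 := by
          refine Valuation.map_sub_lt _ ?_ hD
          rw [map_mul, mul_comm, map_pow]
          exact mul_lt_one_of_lt_of_le (pow_lt_one₀ zero_le hlt (by norm_num)) h3le
        rw [h1] at k1
        exact lt_irrefl _ k1
    · intro hP
      have hx : 1 ≤ ν x := mem_E0.1 hP
      refine Or.inr ⟨x, y, h, rfl, ?_⟩
      rcases hx.lt_or_eq with hx1 | hx1
      · exact Or.inl hx1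
      · right
        rcases h3 with h3 | h2
        · right
          rw [e3 x y, Valuation.map_sub_eq_of_lt_left, map_mul, map_pow, h3, ← hx1, one_pow, one_mul]
          rw [map_mul, map_pow, h3, ← hx1, one_pow, one_mul]
          exact hD
        · left
          have heq := congrArg ν ((wq_eqn _ _).1 h.1)
          have e0 : x ^ 3 - D * x = x * (x ^ 2 - D) := by ring
          have e1 : ν (x ^ 2 - D) = 1 := by
            rw [Valuation.map_sub_eq_of_lt_left, map_pow, ← hx1, one_pow]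
            rw [map_pow, ← hx1, one_pow]
            exact hD
          rw [e0, map_mul, e1, ← hx1, one_mul, map_pow] at heq
          have hy : ν y = 1 := (pow_eq_one_iff_of_nonneg zero_le (by norm_num)).1 heq
          rw [e2 x y, map_mul, h2, hy, one_mul]
  rw [nsG, hset, AddSubgroup.closure_eq]

/-- the sum with a point of order two `(e, 0)`, `e² = D` -/
theorem add_T {e : L} (he : e ^ 2 = D) (hT : (wq D).toAffine.Nonsingular e 0) {x y : L}
    (h : (wq D).toAffine.Nonsingular x y) (hx : x ≠ e) :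
    ∃ (y' : L) (h' : (wq D).toAffine.Nonsingular (e * (x + e) / (x - e)) y'),
      Affine.Point.some x y h + Affine.Point.some e 0 hT = Affine.Point.some _ y' h' := by
  have heq := (wq_eqn _ _).1 h.1
  have hxy : ¬ (x = e ∧ y = (wq D).toAffine.negY e 0) := fun h6 => hx h6.1
  have hxe : x - e ≠ 0 := sub_ne_zero.2 hx
  have key : (wq D).toAffine.addX x e ((wq D).toAffine.slope x e y 0) = e * (x + e) / (x - e) := by
    rw [Affine.slope_of_X_ne hx]
    simp only [Affine.addX, wq]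
    field_simp
    rw [← he] at heq
    linear_combination heq
  have h5 := Affine.nonsingular_add h hT hxy
  rw [key] at h5
  refine ⟨_, h5, ?_⟩
  rw [Affine.Point.add_some hxy]
  simp only [key]

/-- the sum with the point `(0, 0)` -/
theorem add_T0 (hT : (wq D).toAffine.Nonsingular 0 0) {x y : L}
    (h : (wq D).toAffine.Nonsingular x y) (hx : x ≠ 0) :
    ∃ (y' : L) (h' : (wq D).toAffine.Nonsingular (-(D / x)) y'),
      Affine.Point.some x y h + Affine.Point.some 0 0 hT = Affine.Point.some _ y' h' := by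
  have heq := (wq_eqn _ _).1 h.1
  have hxy : ¬ (x = 0 ∧ y = (wq D).toAffine.negY 0 0) := fun h6 => hx h6.1
  have key : (wq D).toAffine.addX x 0 ((wq D).toAffine.slope x 0 y 0) = -(D / x) := by
    rw [Affine.slope_of_X_ne hx]
    simp only [Affine.addX, wq]
    field_simp
    linear_combination x * heq
  have h5 := Affine.nonsingular_add h hT hxy
  rw [key] at h5
  refine ⟨_, h5, ?_⟩
  rw [Affine.Point.add_some hxy]
  simp only [key]

/-- the values of `w` and `w + 2` -/
theorem w_cases (h2 : ν 2 = 1 ∨ (ν 2 = exp (-2) ∧ ∀ x : L, ν x = 1 → ν (x - 1) < 1)) {w : L}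
    (hw : w ≠ 0) (hw2 : w + 2 ≠ 0) (h1 : ν (1 + w) = 1)
    (hodd : ¬ IsSquare (ν w * ν (w + 2))) :
    ν w ≤ exp (-1) * ν (w + 2) ∨ ν (w + 2) ≤ exp (-1) * ν w := by
  have hwle : ν w ≤ 1 := by
    have e : w = (1 + w) - 1 := by ring
    rw [e]
    exact (ν.map_sub _ _).trans (max_le h1.le (map_one ν).le)
  rcases h2 with h2 | ⟨h2, hres⟩
  · rcases hwle.lt_or_eq with h5 | h5
    · left
      have h6 : ν (w + 2) = 1 := by
        rw [ν.map_add_eq_of_lt_right, h2]
        rwa [h2]
      rw [h6, mul_one]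
      rw [← exp_zero] at h5
      simpa using lt_le h5
    · right
      have h6 : ν (w + 2) ≤ 1 := (ν.map_add _ _).trans (max_le hwle h2.le)
      rcases h6.lt_or_eq with h7 | h7
      · rw [h5, mul_one]
        rw [← exp_zero] at h7
        simpa using lt_le h7
      · exfalso
        apply hodd
        rw [h5, h7]
        exact ⟨1, rfl⟩
  · obtain ⟨n, hn⟩ := Pool.Agent.Lib.MP_1a91b9_ntH.C.exists_nu ν hw
    have hn0 : n ≤ 0 := by
      rw [hn, ← exp_zero, exp_le_exp] at hwle
      exact hwle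
    rcases lt_trichotomy n (-2) with h5 | h5 | h5
    · left
      have h6 : ν (w + 2) = exp (-2) := by
        rw [ν.map_add_eq_of_lt_right, h2]
        rw [h2, hn, exp_lt_exp]
        exact h5
      rw [h6, hn, ← exp_add, exp_le_exp]
      omega
    · right
      have h6 : ν (w / 2) = 1 := by
        rw [map_div₀, hn, h5, h2]
        exact div_self exp_ne_zero
      have h7 := hres _ h6
      have e : w + 2 = 2 * ((w / 2 - 1) + 2) := by
        field_simp
        ring
      have h20 : ν (2 : L) < 1 := by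
        rw [h2, ← exp_zero, exp_lt_exp]
        norm_num
      have h8 : ν ((w / 2 - 1) + 2) < 1 := (ν.map_add _ _).trans_lt (max_lt h7 h20)
      rw [← exp_zero] at h8
      have h9 := lt_le h8
      rw [e, map_mul, h2, hn, h5]
      calc exp (-2) * ν ((w / 2 - 1) + 2) ≤ exp (-2) * exp (0 - 1) := by gcongr
        _ = exp (-1) * exp (-2) := by
          rw [← exp_add, ← exp_add]
          norm_num
    · exfalso
      have h6 : ν (w + 2) = exp n := by
        rw [ν.map_add_eq_of_lt_left, hn]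
        rw [h2, hn, exp_lt_exp]
        exact h5
      apply hodd
      rw [hn, h6]
      exact ⟨exp n, rfl⟩

/-- **the index is four** where `D = d²`, `d` a uniformizer -/
theorem index_four (h2 : ν 2 = 1 ∨ (ν 2 = exp (-2) ∧ ∀ x : L, ν x = 1 → ν (x - 1) < 1)) {d : L}
    (hd : ν d = exp (-1)) (hDd : D = d ^ 2) : (nsG ν (wq D)).index = 4 := by
  have hn1 : exp (-1 : ℤ) < (1 : ℤᵐ⁰) := by
    rw [← exp_zero, exp_lt_exp]
    norm_num
  have h2le : ν (2 : L) ≤ 1 := nu_ofNat_le' 2
  have h4le : ν (4 : L) ≤ 1 := nu_ofNat_le' 4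
  have h3 : ν (3 : L) = 1 ∨ ν (2 : L) = 1 := by
    rcases h2 with h | ⟨h, -⟩
    · exact Or.inr h
    · left
      have e : (3 : L) = 1 + 2 := by norm_num
      rw [e]
      refine ν.map_one_add_of_lt ?_
      rw [h, ← exp_zero, exp_lt_exp]
      norm_num
  have hd0 : d ≠ 0 := by
    rintro rfl
    rw [map_zero] at hd
    exact exp_ne_zero hd.symm
  have hD0 : D ≠ 0 := by
    rw [hDd]
    exact pow_ne_zero 2 hd0
  have hVD : ν D = exp (-2) := by
    rw [hDd, map_pow, hd, ← exp_nsmul]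
    norm_num
  have hD : ν D < 1 := by
    rw [hVD, ← exp_zero, exp_lt_exp]
    norm_num
  rw [nsG_E0 h2le h4le h3 hD]
  have n0 : (wq D).toAffine.Nonsingular 0 0 := (wq_nons hD0 _ _).2 (by ring)
  have n1 : (wq D).toAffine.Nonsingular d 0 := (wq_nons hD0 _ _).2 (by rw [hDd]; ring)
  have n2 : (wq D).toAffine.Nonsingular (-d) 0 := (wq_nons hD0 _ _).2 (by rw [hDd]; ring)
  obtain ⟨T0, hT0⟩ : ∃ T : (wq D).toAffine.Point, T = Affine.Point.some 0 0 n0 := ⟨_, rfl⟩
  obtain ⟨T1, hT1⟩ : ∃ T : (wq D).toAffine.Point, T = Affine.Point.some d 0 n1 := ⟨_, rfl⟩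
  obtain ⟨T2, hT2⟩ : ∃ T : (wq D).toAffine.Point, T = Affine.Point.some (-d) 0 n2 := ⟨_, rfl⟩
  have dbl : ∀ (x : L) (h : (wq D).toAffine.Nonsingular x 0),
      Affine.Point.some x 0 h + Affine.Point.some x 0 h = 0 := fun x h =>
    Affine.Point.add_of_Y_eq rfl (by rw [wq_negY, neg_zero])
  have g0 : -T0 = T0 := by
    rw [neg_eq_iff_add_eq_zero, hT0]
    exact dbl _ _
  have g1 : -T1 = T1 := by
    rw [neg_eq_iff_add_eq_zero, hT1]
    exact dbl _ _
  have g2 : -T2 = T2 := by
    rw [neg_eq_iff_add_eq_zero, hT2]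
    exact dbl _ _
  have d2 : ν (-d) = exp (-1) := by rw [Valuation.map_neg, hd]
  have v0 : ¬ (1 : ℤᵐ⁰) ≤ ν (0 : L) := by
    rw [map_zero, not_le]
    exact zero_lt_one
  have v1 : ¬ (1 : ℤᵐ⁰) ≤ ν d := by
    rw [hd, not_le]
    exact hn1
  have v2 : ¬ (1 : ℤᵐ⁰) ≤ ν (-d) := by
    rw [d2, not_le]
    exact hn1
  have m0 : T0 ∉ E0 ν h4le hD := by rwa [hT0, mem_E0]
  have m1 : T1 ∉ E0 ν h4le hD := by rwa [hT1, mem_E0]
  have m2 : T2 ∉ E0 ν h4le hD := by rwa [hT2, mem_E0]
  have hdn : d ≠ -d := by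
    intro h
    have h5 : 2 * d = 0 := by linear_combination h
    exact (mul_ne_zero two_ne_zero hd0) h5
  have he1 : d ^ 2 = D := hDd.symm
  have he2 : (-d) ^ 2 = D := by rw [hDd]; ring
  have m01 : T0 + T1 ∉ E0 ν h4le hD := by
    obtain ⟨y', h', h⟩ := add_T he1 n1 n0 hd0.symm
    rw [hT0, hT1, h, mem_E0]
    have e : d * (0 + d) / (0 - d) = -d := by
      field_simp
      ring
    rwa [e]
  have m02 : T0 + T2 ∉ E0 ν h4le hD := by
    obtain ⟨y', h', h⟩ := add_T he2 n2 n0 (neg_ne_zero.2 hd0).symm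
    rw [hT0, hT2, h, mem_E0]
    have e : -d * (0 + -d) / (0 - -d) = d := by
      rw [zero_add, zero_sub, neg_neg, neg_mul_neg, mul_div_assoc, div_self hd0, mul_one]
    rwa [e]
  have m12 : T1 + T2 ∉ E0 ν h4le hD := by
    obtain ⟨y', h', h⟩ := add_T he2 n2 n1 hdn
    rw [hT1, hT2, h, mem_E0]
    have e : -d * (d + -d) / (d - -d) = 0 := by
      rw [add_neg_cancel, mul_zero, zero_div]
    rwa [e]
  have hinj : Function.Injective (fun i : Fin 4 =>
      (QuotientAddGroup.mk (![0, T0, T1, T2] i) : (wq D).toAffine.Point ⧸ E0 ν h4le hD)) := by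
    intro i j hij
    have hij' : -(![0, T0, T1, T2] i) + ![0, T0, T1, T2] j ∈ E0 ν h4le hD :=
      QuotientAddGroup.eq.1 hij
    have m10 : T1 + T0 ∉ E0 ν h4le hD := by rwa [add_comm]
    have m20 : T2 + T0 ∉ E0 ν h4le hD := by rwa [add_comm]
    have m21 : T2 + T1 ∉ E0 ν h4le hD := by rwa [add_comm]
    fin_cases i <;> fin_cases j <;> simp [g0, g1, g2, m0, m1, m2, m01, m02, m12, m10, m20, m21] at hij' ⊢
  have hsurj : Function.Surjective (fun i : Fin 4 =>
      (QuotientAddGroup.mk (![0, T0, T1, T2] i) : (wq D).toAffine.Point ⧸ E0 ν h4le hD)) := by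
    intro q
    obtain ⟨P, rfl⟩ := QuotientAddGroup.mk_surjective q
    have hred : ∀ i : Fin 4, -(![0, T0, T1, T2] i) + P ∈ E0 ν h4le hD → ∃ i : Fin 4,
        (QuotientAddGroup.mk (![0, T0, T1, T2] i) : (wq D).toAffine.Point ⧸ E0 ν h4le hD) =
          QuotientAddGroup.mk P := fun i hi =>
      ⟨i, QuotientAddGroup.eq.2 hi⟩
    rcases P with _ | ⟨x, y, h⟩
    · refine hred 0 ?_
      change -0 + 0 ∈ _
      rw [neg_zero, zero_add]
      exact Or.inl rfl
    by_cases hx : 1 ≤ ν x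
    · refine hred 0 ?_
      change -0 + _ ∈ _
      rw [neg_zero, zero_add]
      exact mem_E0.2 hx
    have heq := (wq_eqn _ _).1 h.1
    -- `x = 0`
    by_cases hx0 : x = 0
    · subst hx0
      have hy : y = 0 := by
        have h6 : y ^ 2 = 0 := by linear_combination heq
        exact pow_eq_zero_iff two_ne_zero |>.1 h6
      subst hy
      refine hred 1 ?_
      change -T0 + _ ∈ _
      rw [g0, hT0]
      exact Or.inl (dbl _ _)
    rw [not_le] at hx
    obtain ⟨n, hn⟩ := Pool.Agent.Lib.MP_1a91b9_ntH.C.exists_nu ν hx0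
    have hn1' : n < 0 := by
      rw [hn, ← exp_zero, exp_lt_exp] at hx
      exact hx
    rcases (show n ≤ -2 ∨ n = -1 by omega) with h5 | h5
    · -- near `T0`
      refine hred 1 ?_
      change -T0 + _ ∈ _
      rw [g0, add_comm, hT0]
      obtain ⟨y', h', h6⟩ := add_T0 n0 h hx0
      rw [h6, mem_E0, Valuation.map_neg, map_div₀, hVD, hn, ← exp_sub, ← exp_zero, exp_le_exp]
      omega
    -- `x = d (1 + w)`
    obtain ⟨w, hw⟩ : ∃ w, w = x / d - 1 := ⟨_, rfl⟩
    have hxw : x = d * (1 + w) := by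
      rw [hw]
      field_simp
      ring
    have h1w : ν (1 + w) = 1 := by
      have e : 1 + w = x / d := by rw [hw]; ring
      rw [e, map_div₀, hn, h5, hd]
      exact div_self exp_ne_zero
    by_cases hw0 : w = 0
    · have hxd : x = d := by rw [hxw, hw0, add_zero, mul_one]
      subst hxd
      have hy : y = 0 := by
        have h6 : y ^ 2 = 0 := by
          rw [heq, hDd]
          ring
        exact pow_eq_zero_iff two_ne_zero |>.1 h6
      subst hy
      refine hred 2 ?_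
      change -T1 + _ ∈ _
      rw [g1, hT1]
      exact Or.inl (dbl _ _)
    by_cases hw2 : w + 2 = 0
    · have hxd : x = -d := by
        have e : w = -2 := by linear_combination hw2
        rw [hxw, e]
        ring
      subst hxd
      have hy : y = 0 := by
        have h6 : y ^ 2 = 0 := by
          rw [heq, hDd]
          ring
        exact pow_eq_zero_iff two_ne_zero |>.1 h6
      subst hy
      refine hred 3 ?_
      change -T2 + _ ∈ _
      rw [g2, hT2]
      exact Or.inl (dbl _ _)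
    have hxd1 : x ≠ d := by
      intro h6
      apply hw0
      rw [hw, h6, div_self hd0, sub_self]
    have hxd2 : x ≠ -d := by
      intro h6
      apply hw2
      rw [hw, h6, neg_div, div_self hd0]
      ring
    have hodd : ¬ IsSquare (ν w * ν (w + 2)) := by
      rintro ⟨a, ha⟩
      have e : y ^ 2 = d ^ 3 * ((1 + w) * (w * (w + 2))) := by
        rw [heq, hDd, hxw]
        ring
      have h6 := congrArg ν e
      rw [map_pow, map_mul, map_mul, map_mul, map_pow, h1w, one_mul, hd, ha, ← exp_nsmul] at h6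
      have ha0 : a ≠ 0 := by
        rintro rfl
        rw [mul_zero] at ha
        exact (mul_ne_zero ((Valuation.ne_zero_iff _).2 hw0) ((Valuation.ne_zero_iff _).2 hw2)) ha
      have hy0 : ν y ≠ 0 := by
        intro h7
        rw [h7, zero_pow two_ne_zero] at h6
        exact mul_ne_zero exp_ne_zero (mul_ne_zero ha0 ha0) h6.symm
      obtain ⟨p, hp⟩ := Pool.Agent.Lib.MP_1a91b9_ntH.C.exists_exp ha0
      obtain ⟨q, hq⟩ := Pool.Agent.Lib.MP_1a91b9_ntH.C.exists_exp hy0
      rw [hp, hq, ← exp_nsmul, ← exp_add, ← exp_add, exp_inj] at h6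
      simp only [nsmul_eq_mul, Nat.cast_ofNat] at h6
      omega
    rcases w_cases h2 hw0 hw2 h1w hodd with h6 | h6
    · refine hred 2 ?_
      change -T1 + _ ∈ _
      rw [g1, add_comm, hT1]
      obtain ⟨y', h', h7⟩ := add_T he1 n1 h hxd1
      rw [h7, mem_E0]
      have e : d * (x + d) / (x - d) = d * (w + 2) / w := by
        have e1 : x - d = d * w := by rw [hxw]; ring
        have e2 : x + d = d * (w + 2) := by rw [hxw]; ring
        rw [e1, e2]
        field_simp
      rw [e, map_div₀, map_mul, hd, one_le_div₀ (zero_lt_iff.2 ((Valuation.ne_zero_iff _).2 hw0))]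
      exact h6
    · refine hred 3 ?_
      change -T2 + _ ∈ _
      rw [g2, add_comm, hT2]
      obtain ⟨y', h', h7⟩ := add_T he2 n2 h hxd2
      rw [h7, mem_E0]
      have e : -d * (x + -d) / (x - -d) = -(d * w / (w + 2)) := by
        have e1 : x - -d = d * (w + 2) := by rw [hxw]; ring
        have e2 : x + -d = d * w := by rw [hxw]; ring
        rw [e1, e2]
        field_simp
      rw [e, Valuation.map_neg, map_div₀, map_mul, hd,
        one_le_div₀ (zero_lt_iff.2 ((Valuation.ne_zero_iff _).2 hw2))]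
      exact h6
  have hcard := Nat.card_congr (Equiv.ofBijective _ ⟨hinj, hsurj⟩)
  rw [Nat.card_eq_fintype_card, Fintype.card_fin] at hcard
  exact hcard.symm

end T5

end Pool.Agent.Lib.MP_1a91b9_ntQ.C
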