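import Pool.Agent.Lib.MP_1a91b9_ntQ.C.Per4
import Pool.Agent.Lib.MP_1a91b9_ntQ.C.Tam5
import Pool.Agent.Lib.MP_1a91b9_ntQ.C.TamXK

/-!
# MP_1a91b9_nt (phase 5), part C: `y² = x³ - δ² x`, `δ` squarefree: the minimal model and the
Tamagawa numbers

The equation is minimal everywhere. `tam = 4` at the prime divisors of `δ` (`1 + i` included); if
`1 + i` does not divide `δ` then `tam` at `1 + i` is `2` if `δ² = - 1` modulo `4`, `4` if `δ² = 1`
modulo `8`, `2` if `δ² = 5 + 4 i` modulo `8`, and these are all the cases.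
-/

set_option autoImplicit false
set_option linter.unusedSectionVars false

namespace Pool.Agent.Lib.MP_1a91b9_ntQ.C

open NumberField IsDedekindDomain WithZero WeierstrassCurve Pool.Agent.Lib.MP_1a91b9_ntQ
open Pool.Agent.Lib.MP_1a91b9_ntH.C (nsSet nsG tam_def)
open Pool.Agent.Lib.MP_1a91b9_ntK.C (perj_unique)
open Pool.Agent.Lib.MP_1a91b9_ntH.C (perb_unique)
open Pool.Agent.Lib.MP_1a91b9_ntT.S9 (tam minModel minChange minModel_isMinimal)
open scoped Classical

section val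
variable {F : Type*} [Field F] (V : Valuation F ℤᵐ⁰) {ι : F}

/-- no change to an integral equation whose scaling factor is not a unit, `V D = exp (-2)` -/
theorem per5_val (hι : ι ^ 2 = -1) (hl : V (1 + ι) = exp (-1 : ℤ)) {D u r s t : F}
    (hD : V D = exp (-2 : ℤ)) (hu : V u < 1)
    (h1 : V (2 * s) ≤ V u) (h2 : V (3 * r - s ^ 2) ≤ V u ^ 2) (h3 : V (2 * t) ≤ V u ^ 3)
    (h4 : V (3 * r ^ 2 - D - 2 * s * t) ≤ V u ^ 4) : False := by
  have hD1 : V D ≤ 1 := by
    rw [hD, ← exp_zero, exp_le_exp]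
    norm_num
  have hu1 := per4_lt hu
  have v2 := per4_two V hι hl
  have hpow : ∀ n : ℕ, V u ^ n ≤ exp (-(n : ℤ)) := by
    intro n
    refine (pow_le_pow_left₀ zero_le hu1 n).trans_eq ?_
    rw [← exp_nsmul]
    simp
  have v3 : V 3 = 1 := by
    have e : (3 : F) = 1 + 2 := by norm_num
    rw [e, Valuation.map_add_eq_of_lt_left, map_one]
    rw [map_one, v2, ← exp_zero, exp_lt_exp]
    norm_num
  have v4 : V 4 = exp (-4 : ℤ) := by
    have e : (4 : F) = 2 * 2 := by norm_num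
    rw [e, map_mul, v2, ← exp_add]
    norm_num
  have v8 : V 8 = exp (-6 : ℤ) := by
    have e : (8 : F) = 2 * 4 := by norm_num
    rw [e, map_mul, v2, v4, ← exp_add]
    norm_num
  have h1' := h1.trans hu1
  have h2' := h2.trans (hpow 2)
  have h3' := h3.trans (hpow 3)
  have h4' := h4.trans (hpow 4)
  push_cast at h2' h3' h4'
  have hexp : ∀ a b : ℤ, exp a * exp b = exp (a + b) := fun a b => (exp_add a b).symm
  have hdiv : ∀ {x : F} {n : ℤ}, V (2 * x) ≤ exp n → V x ≤ exp (n + 2) := by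
    intro x n h
    rw [map_mul, v2] at h
    have h7 := mul_le_mul_right h (exp (2 : ℤ))
    rw [← mul_assoc, hexp, hexp, show (2 : ℤ) + -2 = 0 by norm_num, exp_zero, one_mul,
      add_comm] at h7
    exact h7
  have ht : V t ≤ exp (-1 : ℤ) := (hdiv h3').trans_eq (congrArg exp (by norm_num))
  have hs : V s ≤ exp (1 : ℤ) := (hdiv h1').trans_eq (congrArg exp (by norm_num))
  -- `s` is integral
  have hs1 : V s ≤ 1 := by
    by_contra hcon
    rw [not_le] at hcon
    have hs0 : V s ≠ 0 := (zero_lt_one.trans hcon).ne'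
    obtain ⟨m, hm⟩ : ∃ m : ℤ, V s = exp m := ⟨_, (exp_log hs0).symm⟩
    rw [hm, ← exp_zero, exp_lt_exp] at hcon
    rw [hm, exp_le_exp] at hs
    obtain rfl : m = 1 := by omega
    have e1 : V (s ^ 2) = exp (2 : ℤ) := by
      rw [map_pow, hm, ← exp_nsmul]
      norm_num
    have e2 : V (3 * r) = exp (2 : ℤ) := by
      have e : 3 * r = (3 * r - s ^ 2) + s ^ 2 := by ring
      rw [e, Valuation.map_add_eq_of_lt_right, e1]
      rw [e1]
      exact h2'.trans_lt (exp_lt_exp.2 (by norm_num))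
    rw [map_mul, v3, one_mul] at e2
    have e3 : V (3 * r ^ 2) = exp (4 : ℤ) := by
      rw [map_mul, v3, one_mul, map_pow, e2, ← exp_nsmul]
      norm_num
    have e4 : V (D + 2 * s * t) ≤ 1 := by
      refine (V.map_add _ _).trans (max_le hD1 ?_)
      rw [map_mul, map_mul, v2, hm, hexp]
      refine (mul_le_mul_right ht _).trans ?_
      rw [hexp, ← exp_zero, exp_le_exp]
      norm_num
    have e5 : V (3 * r ^ 2 - D - 2 * s * t) = exp (4 : ℤ) := by
      have e : 3 * r ^ 2 - D - 2 * s * t = -(D + 2 * s * t) + 3 * r ^ 2 := by ring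
      rw [e, Valuation.map_add_eq_of_lt_right, e3]
      rw [e3, Valuation.map_neg]
      exact e4.trans_lt (by rw [← exp_zero, exp_lt_exp]; norm_num)
    rw [e5, exp_le_exp] at h4'
    norm_num at h4'
  have hr1 : V r ≤ 1 := by
    have h7 : V (3 * r) ≤ 1 := by
      have e : 3 * r = (3 * r - s ^ 2) + s ^ 2 := by ring
      rw [e]
      refine (V.map_add _ _).trans (max_le (h2'.trans ?_) ?_)
      · rw [← exp_zero, exp_le_exp]
        norm_num
      · rw [map_pow]
        exact pow_le_one₀ zero_le hs1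
    rwa [map_mul, v3, one_mul] at h7
  have ht1 : V t ≤ 1 := ht.trans (by rw [← exp_zero, exp_le_exp]; norm_num)
  have e0 : V (2 * s * t) ≤ exp (-3 : ℤ) := by
    rw [map_mul, map_mul, v2]
    calc exp (-2 : ℤ) * V s * V t ≤ exp (-2 : ℤ) * 1 * exp (-1 : ℤ) := by gcongr
      _ = exp (-3 : ℤ) := by rw [mul_one, hexp]; norm_num
  have e1 : V (3 * r ^ 2 - D) ≤ exp (-3 : ℤ) := by
    have e : 3 * r ^ 2 - D = (3 * r ^ 2 - D - 2 * s * t) + 2 * s * t := by ring
    rw [e]
    refine (V.map_add _ _).trans (max_le (h4'.trans ?_) e0)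
    rw [exp_le_exp]
    norm_num
  have e2 : V (3 * r ^ 2) = exp (-2 : ℤ) := by
    have e : 3 * r ^ 2 = D + (3 * r ^ 2 - D) := by ring
    rw [e, Valuation.map_add_eq_of_lt_left, hD]
    rw [hD]
    exact e1.trans_lt (exp_lt_exp.2 (by norm_num))
  rw [map_mul, v3, one_mul, map_pow] at e2
  have hr0 : V r ≠ 0 := by
    intro h
    rw [h, zero_pow two_ne_zero] at e2
    exact exp_ne_zero e2.symm
  obtain ⟨m, hm⟩ : ∃ m : ℤ, V r = exp m := ⟨_, (exp_log hr0).symm⟩
  rw [hm, ← exp_nsmul, exp_inj] at e2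
  simp only [nsmul_eq_mul, Nat.cast_ofNat] at e2
  obtain rfl : m = -1 := by omega
  have e3 : V (s ^ 2) = exp (-1 : ℤ) := by
    have e : s ^ 2 = 3 * r - (3 * r - s ^ 2) := by ring
    rw [e, Valuation.map_sub_eq_of_lt_left, map_mul, v3, one_mul, hm]
    rw [map_mul, v3, one_mul, hm]
    exact h2'.trans_lt (exp_lt_exp.2 (by norm_num))
  have hs0 : V s ≠ 0 := by
    intro h
    rw [map_pow, h, zero_pow two_ne_zero] at e3
    exact exp_ne_zero e3.symm
  obtain ⟨n, hn⟩ : ∃ n : ℤ, V s = exp n := ⟨_, (exp_log hs0).symm⟩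
  rw [map_pow, hn, ← exp_nsmul, exp_inj] at e3
  simp only [nsmul_eq_mul, Nat.cast_ofNat] at e3
  omega

end val

variable {δ : 𝓞 K4} {v : HeightOneSpectrum (𝓞 K4)}

theorem sq_coe (δ : 𝓞 K4) : ((δ ^ 2 : 𝓞 K4) : K4) = (δ : K4) ^ 2 :=
  map_pow (algebraMap (𝓞 K4) K4) δ 2

/-- the value of a squarefree integer -/
theorem sqf_val (hδ : Squarefree δ) (v : HeightOneSpectrum (𝓞 K4)) :
    v.valuation K4 (δ : K4) = 1 ∨ v.valuation K4 (δ : K4) = exp (-1 : ℤ) := by
  have h1 := per4_sqf hδ v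
  have h2 := v.valuation_le_one (K := K4) δ
  obtain ⟨n, hn⟩ : ∃ n : ℤ, v.valuation K4 (δ : K4) = exp n :=
    ⟨_, (exp_log (per4_ne hδ v)).symm⟩
  rw [hn, exp_le_exp] at h1
  rw [show v.valuation K4 (algebraMap (𝓞 K4) K4 δ) = exp n from hn, ← exp_zero, exp_le_exp] at h2
  rcases (show n = 0 ∨ n = -1 by omega) with h | h
  · left
    rw [hn, h, exp_zero]
  · right
    rw [hn, h]

theorem sq_val (δ : 𝓞 K4) (v : HeightOneSpectrum (𝓞 K4)) :
    v.valuation K4 ((δ ^ 2 : 𝓞 K4) : K4) = v.valuation K4 (δ : K4) ^ 2 := by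
  rw [sq_coe, map_pow]

/-- the odd places -/
theorem per5_u_odd (hδ : Squarefree δ) (hl : lam ∉ v.asIdeal) :
    Valued.v ((minChange (WD4 (δ ^ 2)) v).u : v.adicCompletion K4) = (1 : ℤᵐ⁰) := by
  obtain ⟨I, hI⟩ := wq_int (δ ^ 2) v
  have h1 := perb_unique (WD4 (δ ^ 2)) v 1 I (by rw [one_smul]; exact hI) (by
    rw [one_smul, wq_val, two_val_one hl, one_pow, one_mul]
    refine lt_of_lt_of_le (b := exp (-6 : ℤ)) (exp_lt_exp.2 (by norm_num)) ?_
    have h1 := pow_le_pow_left₀ zero_le (per4_sqf hδ v) 6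
    rw [← exp_nsmul] at h1
    rw [sq_val, ← pow_mul]
    simpa using h1)
  have h3 : Valued.v (((1 : VariableChange (v.adicCompletion K4)).u : (v.adicCompletion K4)ˣ) :
      v.adicCompletion K4) = (1 : ℤᵐ⁰) := by
    change Valued.v (((1 : (v.adicCompletion K4)ˣ)) : v.adicCompletion K4) = (1 : ℤᵐ⁰)
    rw [Units.val_one, map_one]
  rw [h3] at h1
  exact h1

/-- the square of a unit at `1 + i` is not congruent to `1 + 2 i` modulo `4` -/
theorem sq_not {L : Type*} [Field L] [CharZero L] {ν : Valuation L ℤᵐ⁰} {i : L} (hi : i ^ 2 = -1)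
    (h2 : ν 2 = exp (-2)) (hres : ∀ x : L, ν x = 1 → ν (x - 1) < 1) {b : L} (hb : ν b = 1) {n : L}
    (hn : n = 1 + 2 * i ∨ n = 1 + 6 * i) (h : ν (b ^ 2 - n) ≤ exp (-6)) : False := by
  obtain ⟨ε, hε, h5⟩ := unit_near hi h2 hres hb
  have hl := nu_lam2 hi h2
  have h6 : ν (n - ε) ≤ exp (-5) := by
    have e : n - ε = (b ^ 2 - ε) - (b ^ 2 - n) := by ring
    rw [e]
    refine (ν.map_sub _ _).trans (max_le (h5.trans_eq (by norm_num)) (h.trans ?_))
    rw [exp_le_exp]
    norm_num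
  have hi1 := nu_i (ν := ν) hi
  have v13 : ν (1 + 3 * i) = exp (-1) := by
    have e : 1 + 3 * i = (1 + i) + 2 * i := by ring
    rw [e, ν.map_add_eq_of_lt_left, hl]
    rw [hl, map_mul, h2, hi1, mul_one, exp_lt_exp]
    norm_num
  have v3 : ν (3 : L) = 1 := by
    have e : (3 : L) = 1 + 2 := by norm_num
    rw [e]
    refine ν.map_one_add_of_lt ?_
    rw [h2, ← exp_zero, exp_lt_exp]
    norm_num
  have key : exp (-3) ≤ ν (n - ε) := by
    rcases hn with h7 | h7 <;> rcases hε with h8 | h8 <;> rw [h7, h8]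
    · have e : 1 + 2 * i - 1 = 2 * i := by ring
      rw [e, map_mul, h2, hi1, mul_one, exp_le_exp]
      norm_num
    · have e : 1 + 2 * i - -1 = 2 * (1 + i) := by ring
      rw [e, map_mul, h2, hl, ← exp_add, exp_le_exp]
      norm_num
    · have e : 1 + 6 * i - 1 = 2 * 3 * i := by ring
      rw [e, map_mul, map_mul, h2, hi1, v3, mul_one, mul_one, exp_le_exp]
      norm_num
    · have e : 1 + 6 * i - -1 = 2 * (1 + 3 * i) := by ring
      rw [e, map_mul, h2, v13, ← exp_add, exp_le_exp]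
      norm_num
  have h9 := key.trans h6
  rw [exp_le_exp] at h9
  norm_num at h9

/-- **The equation is minimal.** -/
theorem per5_u (hδ : Squarefree δ) (v : HeightOneSpectrum (𝓞 K4)) :
    Valued.v ((minChange (WD4 (δ ^ 2)) v).u : v.adicCompletion K4) = (1 : ℤᵐ⁰) := by
  by_cases hl : lam ∈ v.asIdeal
  swap
  · exact per5_u_odd hδ hl
  obtain ⟨I, hI⟩ := wq_int (δ ^ 2) v
  have H := hyp_lam hl
  have hc0 := charZero4 v
  refine perj_unique (WD4 (δ ^ 2)) v I hI ?_ fun C hC hu => ?_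
  · rw [wq_val, sq_val]
    refine mul_ne_zero (pow_ne_zero _ ?_) (pow_ne_zero _ (pow_ne_zero _ (per4_ne hδ v)))
    rw [two_val, lam_val hl]
    exact pow_ne_zero _ exp_ne_zero
  · obtain ⟨J, hJ⟩ := hC
    rw [wq_bc] at hJ
    obtain ⟨d, hd⟩ : ∃ d, d = algebraMap K4 (v.adicCompletion K4) ((δ ^ 2 : 𝓞 K4) : K4) :=
      ⟨_, rfl⟩
    rw [← hd] at hJ
    have hu0 : (C.u : v.adicCompletion K4) ≠ 0 := C.u.ne_zero
    have hui : ((C.u⁻¹ : (v.adicCompletion K4)ˣ) : v.adicCompletion K4) =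
      (C.u : v.adicCompletion K4)⁻¹ := by simp
    have hVu : 0 < Valued.v (C.u : v.adicCompletion K4) :=
      zero_lt_iff.2 ((Valuation.ne_zero_iff _).2 hu0)
    have k1 : Valued.v (C • wq d).a₁ ≤ (1 : ℤᵐ⁰) := by
      rw [hJ]
      exact J.a₁.2
    have k2 : Valued.v (C • wq d).a₂ ≤ (1 : ℤᵐ⁰) := by
      rw [hJ]
      exact J.a₂.2
    have k3 : Valued.v (C • wq d).a₃ ≤ (1 : ℤᵐ⁰) := by
      rw [hJ]
      exact J.a₃.2
    have k4 : Valued.v (C • wq d).a₄ ≤ (1 : ℤᵐ⁰) := by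
      rw [hJ]
      exact J.a₄.2
    have k6 : Valued.v (C • wq d).a₆ ≤ (1 : ℤᵐ⁰) := by
      rw [hJ]
      exact J.a₆.2
    rw [variableChange_a₁, hui, map_mul, map_inv₀, inv_mul_le_one₀ hVu] at k1
    rw [variableChange_a₂, hui, inv_pow, map_mul, map_inv₀, map_pow,
      inv_mul_le_one₀ (pow_pos hVu 2)] at k2
    rw [variableChange_a₃, hui, inv_pow, map_mul, map_inv₀, map_pow,
      inv_mul_le_one₀ (pow_pos hVu 3)] at k3
    rw [variableChange_a₄, hui, inv_pow, map_mul, map_inv₀, map_pow,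
      inv_mul_le_one₀ (pow_pos hVu 4)] at k4
    rw [variableChange_a₆, hui, inv_pow, map_mul, map_inv₀, map_pow,
      inv_mul_le_one₀ (pow_pos hVu 6)] at k6
    have m1 : Valued.v (2 * C.s) ≤ Valued.v (C.u : v.adicCompletion K4) := by
      refine (congrArg Valued.v ?_).trans_le k1
      simp [wq]
    have m2 : Valued.v (3 * C.r - C.s ^ 2) ≤ Valued.v (C.u : v.adicCompletion K4) ^ 2 := by
      refine (congrArg Valued.v ?_).trans_le k2
      simp [wq]
    have m3 : Valued.v (2 * C.t) ≤ Valued.v (C.u : v.adicCompletion K4) ^ 3 := by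
      refine (congrArg Valued.v ?_).trans_le k3
      simp [wq]
    have m4 : Valued.v (3 * C.r ^ 2 - d - 2 * C.s * C.t) ≤
        Valued.v (C.u : v.adicCompletion K4) ^ 4 := by
      refine (congrArg Valued.v ?_).trans_le k4
      simp [wq]
      ring
    have m6 : Valued.v (C.r ^ 3 - C.r * d - C.t ^ 2) ≤
        Valued.v (C.u : v.adicCompletion K4) ^ 6 := by
      refine (congrArg Valued.v ?_).trans_le k6
      simp [wq]
      ring
    have hdd : d = (algebraMap K4 (v.adicCompletion K4) (δ : K4)) ^ 2 := by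
      rw [hd, sq_coe, map_pow]
    rcases sqf_val hδ v with h5 | h5
    · have hb : (Valued.v : Valuation (v.adicCompletion K4) ℤᵐ⁰)
          (algebraMap K4 (v.adicCompletion K4) (δ : K4)) = 1 := by
        rw [hval, h5]
      have hVd : Valued.v d = (1 : ℤᵐ⁰) := by
        rw [hdd, map_pow, hb, one_pow]
      have hres : ∀ x : v.adicCompletion K4, Valued.v x = (1 : ℤᵐ⁰) →
          Valued.v (x - 1) < (1 : ℤᵐ⁰) := by
        intro x hx
        rcases H.res x hx.le with h | h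
        · rw [hx] at h
          exact absurd h (lt_irrefl _)
        · exact h
      have key := per4_val (Valued.v : Valuation (v.adicCompletion K4) ℤᵐ⁰) H.sq H.v H.res (D := d)
        (u := C.u) (r := C.r) (s := C.s) (t := C.t)
        (by rw [hVd, ← exp_zero, exp_le_exp]; norm_num) hVd.le hu m1 m2 m3 m4 m6
      rw [hdd] at key
      rcases key with h | h
      · exact sq_not H.sq (Lm.v2 H) hres hb (Or.inl rfl) h
      · exact sq_not H.sq (Lm.v2 H) hres hb (Or.inr rfl) h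
    · refine per5_val (Valued.v : Valuation (v.adicCompletion K4) ℤᵐ⁰) H.sq H.v (D := d)
        (u := C.u) (r := C.r) (s := C.s) (t := C.t) ?_ hu m1 m2 m3 m4
      rw [hdd, map_pow, hval, h5, ← exp_nsmul]
      norm_num

/-- **A prime divisor of `δ`**, `1 + i` included. -/
theorem tam5_dvd (hδ : Squarefree δ) {q : 𝓞 K4} (hq : Prime q) (hqD : q ∣ δ)
    (hv : q ∈ v.asIdeal) : tam (WD4 (δ ^ 2)) v = 4 := by
  have hc := charZero4 v
  have hle : v.valuation K4 (δ : K4) ≤ exp (-1 : ℤ) := by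
    have := (val_le_pow' hq hv (x := δ) 1).2 (by rwa [pow_one])
    simpa using this
  have hD : v.valuation K4 (δ : K4) = exp (-1 : ℤ) := by
    rcases sqf_val hδ v with h | h
    · rw [h, ← exp_zero, exp_le_exp] at hle
      norm_num at hle
    · exact h
  rw [tam_eq_hu v (WD4 (δ ^ 2)) (wq_int (δ ^ 2) v) (per5_u hδ v), wq_bc]
  refine T5.index_four (d := algebraMap K4 (v.adicCompletion K4) (δ : K4)) ?_ ?_ ?_
  · by_cases h2 : lam ∈ v.asIdeal
    · right
      have H := hyp_lam h2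
      refine ⟨Lm.v2 H, fun x hx => ?_⟩
      rcases H.res x hx.le with h | h
      · rw [hx] at h
        exact absurd h (lt_irrefl _)
      · exact h
    · left
      have := two_val_one h2
      rw [← hval, map_ofNat] at this
      exact this
  · rw [hval, hD]
  · rw [sq_coe, map_pow]

/-- the good odd places -/
theorem tam5_good (hl : lam ∉ v.asIdeal) (hD : δ ∉ v.asIdeal) : tam (WD4 (δ ^ 2)) v = 1 :=
  tam4_good hl fun h => hD (v.isPrime.mem_of_pow_mem 2 h)

/-- `1 + i`, `δ² = - 1` modulo `4` -/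
theorem tam5_lam_1 (hδ : Squarefree δ) (h : 4 ∣ δ ^ 2 + 1) (hv : lam ∈ v.asIdeal) :
    tam (WD4 (δ ^ 2)) v = 2 := tam4_lam_X1 h hv (per5_u hδ v)

/-- `1 + i`, `δ² = 5 + 4 i` modulo `8` -/
theorem tam5_lam_2 (hδ : Squarefree δ) (h : 8 ∣ δ ^ 2 - (5 + 4 * iO)) (hv : lam ∈ v.asIdeal) :
    tam (WD4 (δ ^ 2)) v = 2 := tam4_lam_X2 (Or.inr h) hv (per5_u hδ v)

/-- `1 + i`, `δ² = 1` modulo `8` -/
theorem tam5_lam_3 (hδ : Squarefree δ) (h : 8 ∣ δ ^ 2 - 1) (hv : lam ∈ v.asIdeal) :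
    tam (WD4 (δ ^ 2)) v = 4 := tam4_lam_X3 (Or.inl h) hv (per5_u hδ v)

end Pool.Agent.Lib.MP_1a91b9_ntQ.C
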