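import Pool.Agent.Lib.MP_1a91b9_ntQ.C.PtsX
import Pool.Agent.Lib.MP_1a91b9_ntQ.D.Gd4

/-!
# MP_1a91b9_nt (quartic twists), part C: the points for every squarefree `D` whose matrix is good
-/

set_option autoImplicit false

namespace Pool.Agent.Lib.MP_1a91b9_ntQ.C

open NumberField Finset WeierstrassCurve Pool.Agent.Lib.MP_1a91b9_nuT
open Pool.Agent.Lib.MP_1a91b9_ntQ
open Pool.Agent.Lib.MP_1a91b9_ntK (NM)
open Pool.Agent.Lib.MP_1a91b9_ntT3.S9 (ShaP)

noncomputable section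

/-- **part C, all squarefree `D = i ^ k lam ^ j ∏ q`** -/
theorem pts4_all (k : ZMod 4) (j : Fin 2) (S : Finset Pg) (hG : Gd4 k j S) {D : 𝓞 K4}
    (hD : D = iO ^ k.val * lam ^ (j : ℕ) * DDq S) (h1 : D ≠ 1 + 2 * iO) (h2 : D ≠ 1 - 2 * iO)
    {W : WeierstrassCurve K4} (hW : W = cq (D : K4)) :
    Finite W.toAffine.Point ∧ Nat.card W.toAffine.Point = 2 ∧ Nat.card (ShaP 2 W) = 1 ∧
      ∀ x y : K4, y ^ 2 = x ^ 3 - (D : K4) * x → x = 0 ∧ y = 0 := by
  obtain ⟨g1, g2, g3, g4, g5, g6⟩ := hG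
  have hj : ∀ j : Fin 2, j = 0 ∨ j = 1 := by decide
  rcases hj j with rfl | rfl
  · have hD' : D = dk k 0 S := hD
    subst hD'
    have h01 : ∀ t : ZMod 2, t = 0 ∨ t = 1 := by decide
    rcases h01 (md k) with hk | hk
    · rcases h01 (∑ q ∈ S, aa q.1) with hA | hA
      · have hk2 : ∀ k : ZMod 4, md k = 0 → k = 2 ∨ k = 0 := by decide
        rcases hk2 k hk with rfl | rfl
        · exact pts4_X1 S hA (g4 rfl rfl hA).2 hW
        · rcases h01 (hf4 (∑ q ∈ S, nn q.1) + ∑ q ∈ S, bb q.1) with hc | hc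
          · exact pts4_X3 S hA hc (g6 rfl rfl hA hc).2 hW
          · refine pts4_X2 S hA hc (κ := 0) (fun q _ => rfl) (fun v hv => ?_) hW
            rw [← N4_eq] at hv
            exact (g5 rfl rfl hA hc).2 v hv
      · refine pts4_II k S hk hA (κ := 0) (fun q _ => rfl) (fun v hv => ?_) h1 h2 hW
        rw [← N4_eq] at hv
        exact (g3 rfl hk hA).2 v hv
    · refine pts4_I k S hk (κ := fun q => aa q.1) (fun q _ => rfl) ?_ hW
      rw [← N4_eq]
      exact g2 rfl hk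
  · have hD' : D = dk k 1 S := hD
    subst hD'
    refine pts4_IV k S ?_ hW
    have e : dlE (fun q : Pg => aa q.1) (fun q => c2 q lam) (md k) =
        fun q => md k * aa q.1 + bb q.1 := by
      funext q
      rw [dlE, c2_lam]
    rw [e]
    exact g1 rfl

end

end Pool.Agent.Lib.MP_1a91b9_ntQ.C
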