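import Pool.Agent.Lib.MP_1a91b9_ntQ.C.Part4
import Pool.Agent.Lib.MP_1a91b9_ntQ.A.Top4

/-!
# Quartic twists, part C, file Q24: the formula modulo `2` for the kinds I, II and III

For every `S` : `g(1) √4 / Ω = q ∏ c_v / 4` with a rational number `q` with odd denominator, and `q` is
odd if and only if the criterion on the matrices is satisfied.
-/

set_option autoImplicit false
set_option linter.unusedSectionVars false

namespace Pool.Agent.Lib.MP_1a91b9_ntQ.C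

open NumberField IsDedekindDomain WithZero WeierstrassCurve Pool.Agent.Lib.MP_1a91b9_ntQ
  Pool.Agent.Lib.MP_1a91b9_nuT
open Pool.Agent.Lib.MP_1a91b9_ntT.S9 (tam normFactor period minChange)
open Pool.Agent.Lib.MP_1a91b9_ntT3.S9 (UnitAt ShaP PPart PPartQ unitAt_of_val ppartQ_of)
open scoped Classical

/-! ### The coordinates of `D` -/

theorem q4_cp (S : Finset Pg) : ∃ m n : ℤ, cp (DDq S) = (1 - 2 * (m + n), 2 * (m - n)) ∧
    nn (DDq S) = (m : ZMod 4) + (n : ZMod 4) := by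
  obtain ⟨m, n, h⟩ := in4_form (DDq_in4 S)
  refine ⟨m, n, ?_, ?_⟩
  · rw [h, cp_form]
    ext <;> simp <;> ring
  · rw [h, nn_form]

theorem q4_cpD {κ : ZMod 4} {S : Finset Pg} {a b : ℤ} (h : cp (DDq S) = (a, b)) :
    (κ = 0 → cp (Dq κ S) = (a, b)) ∧ (κ = 1 → cp (Dq κ S) = (-b, a)) ∧
      (κ = 2 → cp (Dq κ S) = (-a, -b)) ∧ (κ = 3 → cp (Dq κ S) = (b, -a)) := by
  have e1 : cp (iO * DDq S) = (-b, a) := by
    rw [cp_mul, cp_iO, h]
    ext <;> simp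
  refine ⟨?_, ?_, ?_, ?_⟩
  · rintro rfl
    have h0 : (0 : ZMod 4).val = 0 := rfl
    rw [Dq, h0, pow_zero, one_mul, h]
  · rintro rfl
    have h0 : (1 : ZMod 4).val = 1 := rfl
    rw [Dq, h0, pow_one, e1]
  · rintro rfl
    rw [Dq_two, cp_neg, h]
    ext <;> simp
  · rintro rfl
    have h0 : (3 : ZMod 4).val = 3 := rfl
    have e : iO ^ 3 * DDq S = -(iO * DDq S) := by linear_combination iO * DDq S * iO_sq
    rw [Dq, h0, e, cp_neg, e1]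
    ext <;> simp

theorem q4_cpc (a b : ℤ) : cp ((a : 𝓞 K4) + (b : 𝓞 K4) * iO) = (a, b) := by
  have h := cp_coords a b
  exact h

/-- divisibility by an integer, in coordinates -/
theorem q4_dvd {n : ℤ} {x : 𝓞 K4} : (n : 𝓞 K4) ∣ x ↔ n ∣ (cp x).1 ∧ n ∣ (cp x).2 := by
  constructor
  · rintro ⟨y, rfl⟩
    have e : cp ((n : 𝓞 K4)) = (n, 0) := by
      have := q4_cpc n 0
      rwa [Int.cast_zero, zero_mul, add_zero] at this
    rw [cp_mul, e]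
    exact ⟨⟨(cp y).1, by simp⟩, ⟨(cp y).2, by simp⟩⟩
  · rintro ⟨⟨a, ha⟩, ⟨b, hb⟩⟩
    refine ⟨(a : 𝓞 K4) + (b : 𝓞 K4) * iO, ?_⟩
    have h := eq_cp x
    rw [ha, hb] at h
    rw [h]
    push_cast
    ring

theorem q4_dvd_sub {n a b : ℤ} {x : 𝓞 K4} : (n : 𝓞 K4) ∣ x - ((a : 𝓞 K4) + (b : 𝓞 K4) * iO) ↔
    n ∣ (cp x).1 - a ∧ n ∣ (cp x).2 - b := by
  rw [q4_dvd, cp_sub, q4_cpc]
  rfl

theorem q4_8 {a b : ℤ} {x : 𝓞 K4} : 8 ∣ x - ((a : 𝓞 K4) + (b : 𝓞 K4) * iO) ↔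
    (8 : ℤ) ∣ (cp x).1 - a ∧ (8 : ℤ) ∣ (cp x).2 - b := by
  have h := q4_dvd_sub (n := 8) (a := a) (b := b) (x := x)
  rwa [Int.cast_ofNat] at h

theorem q4_4 {a b : ℤ} {x : 𝓞 K4} : 4 ∣ x - ((a : 𝓞 K4) + (b : 𝓞 K4) * iO) ↔
    (4 : ℤ) ∣ (cp x).1 - a ∧ (4 : ℤ) ∣ (cp x).2 - b := by
  have h := q4_dvd_sub (n := 4) (a := a) (b := b) (x := x)
  rwa [Int.cast_ofNat] at h

/-- the two classes with good reduction -/
theorem q4_good {x : 𝓞 K4} : (8 ∣ x - (1 + 2 * iO) ∨ 8 ∣ x - (1 - 2 * iO)) ↔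
    (8 : ℤ) ∣ (cp x).1 - 1 ∧ ((8 : ℤ) ∣ (cp x).2 - 2 ∨ (8 : ℤ) ∣ (cp x).2 + 2) := by
  have h1 := q4_8 (a := 1) (b := 2) (x := x)
  have h2 := q4_8 (a := 1) (b := -2) (x := x)
  push_cast at h1 h2
  rw [neg_mul, ← sub_eq_add_neg, sub_neg_eq_add] at h2
  rw [h1, h2]
  tauto

theorem q4_sq (κ : ZMod 4) (S : Finset Pg) : Squarefree (Dq κ S) := by
  intro p hp
  by_contra hu
  have hp0 : p ≠ 0 := by
    rintro rfl
    rw [mul_zero, zero_dvd_iff] at hp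
    exact part4_ne κ S hp
  have hpid : IsPrincipalIdealRing (𝓞 K4) := pidK4
  obtain ⟨r, hr, hrp⟩ := WfDvdMonoid.exists_irreducible_factor hu hp0
  have hr' : Prime r := hr.prime
  have h2 : r * r ∣ Dq κ S := (mul_dvd_mul hrp hrp).trans hp
  have h1 : r ∣ Dq κ S := (dvd_mul_right r r).trans h2
  by_cases hl : lam ∣ r
  · have h3 : lam ∣ Dq κ S := hl.trans h1
    rcases lam_prime.dvd_or_dvd h3 with h4 | h4
    · exact lam_prime.not_isUnit (isUnit_of_dvd_unit h4 (isUnit_iO.pow _))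
    · exact (DDq_in4 S).not_lam h4
  · obtain ⟨q, hq, h5⟩ := (part4_PD κ S).all r hr' hl h1
    refine (part4_PD κ S).sq q hq ?_
    rw [sq]
    exact (mul_dvd_mul h5 h5).trans h2

theorem q4_Rt {z : ℂ} {y : ZMod 2} (h : ∀ B : ValuationSubring ℂ, (2 : ℂ)⁻¹ ∉ B → Rt B z y) :
    (y ≠ 0 → ∀ B : ValuationSubring ℂ, (2 : ℂ)⁻¹ ∉ B → B.valuation z = 1) ∧
      (¬ y ≠ 0 → ∀ B : ValuationSubring ℂ, (2 : ℂ)⁻¹ ∉ B → B.valuation z < 1) := by
  refine ⟨fun hy B hB => (h B hB).unit hy, fun hy B hB => ?_⟩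
  rw [not_not] at hy
  have := h B hB
  rw [hy] at this
  exact this.lt

theorem q4_std {D : 𝓞 K4} (h : period (WD4 D) = 2 * (‖Om‖ ^ 2 / ‖em D‖ ^ (1 / 2 : ℝ))) :
    period (WD4 D) = 2 * (1 * (‖Om‖ ^ 2 / ‖em D‖ ^ (1 / 2 : ℝ))) := by
  rw [h, one_mul]

/-! ### Kind I -/

/-- **Kind I.** The formula modulo `2` for every `D = ± i ∏ q`. -/
theorem form4_I {κ : ZMod 4} (hκ : md κ = 1) (S : Finset Pg) :
    ∃ g : ℂ → ℂ, Differentiable ℂ g ∧ (∀ s : ℂ, 3 / 2 < s.re → g s = (WD4 (Dq κ S)).LSeries s) ∧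
      ∃ q : ℚ, ¬ 2 ∣ q.den ∧ (¬ (2 : ℤ) ∣ q.num ↔ (N4 s4 (fun q => aa q.1) S).det ≠ 0) ∧
        g 1 * (√|(discr K4 : ℝ)| : ℝ) / (period (WD4 (Dq κ S)) : ℝ) =
          (q * (((∏ᶠ v : HeightOneSpectrum (𝓞 K4), tam (WD4 (Dq κ S)) v : ℕ) : ℝ) / 4) : ℝ) := by
  obtain ⟨w, hw⟩ := exists_w4
  obtain ⟨m, n, hc, -⟩ := q4_cp S
  have hκ' : κ = 1 ∨ κ = 3 := by
    revert κ
    decide
  have hκ2 : κ ≠ 2 := by
    rintro rfl
    exact absurd hκ (by decide)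
  -- the coordinates of `D`
  obtain ⟨a, b, hD⟩ : ∃ a b : ℤ, cp (Dq κ S) = (2 * a, 2 * b + 1) := by
    obtain ⟨-, h1, -, h3⟩ := q4_cpD (κ := κ) hc
    rcases hκ' with rfl | rfl
    · refine ⟨-(m - n), -(m + n), ?_⟩
      rw [h1 rfl]
      ext <;> simp <;> ring
    · refine ⟨m - n, m + n - 1, ?_⟩
      rw [h3 rfl]
      ext <;> simp <;> ring
  have hng : ¬ (8 ∣ Dq κ S - (1 + 2 * iO) ∨ 8 ∣ Dq κ S - (1 - 2 * iO)) := by
    rw [q4_good, hD]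
    rintro ⟨h1, -⟩
    simp only at h1
    omega
  push Not at hng
  have hsq := q4_sq κ S
  have hper := q4_std (period4 hsq hng.1 hng.2)
  have hT : ∏ᶠ v : HeightOneSpectrum (𝓞 K4), tam (WD4 (Dq κ S)) v = 2 ^ S.card := by
    rw [finprod_tam4 (part4_PD κ S) hw, tam4_lam_I ?_ ?_ ?_ hw (per4_u hsq hng.1 hng.2 w), mul_one]
    · rw [lam_dvd_iff, hD]
      simp only
      omega
    · rw [lam3_dvd_iff, cp_sub, cp_one, hD]
      simp only [Prod.fst_sub, Prod.snd_sub]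
      omega
    · rw [lam3_dvd_iff, cp_add, cp_one, hD]
      simp only [Prod.fst_add, Prod.snd_add]
      omega
  obtain ⟨g, hgd, hgs, hg⟩ := ser4_add hκ2 S
  obtain ⟨k, hk⟩ : ∃ k, k = κ + 2 * ∑ q ∈ S, nn q.1 := ⟨_, rfl⟩
  rw [← hk] at hg
  have hmk : md k = 1 := by rw [hk, md_kappa, hκ]
  have hmk0 : md k ≠ 0 := by rw [hmk]; exact one_ne_zero
  have hR : ∀ B : ValuationSubring ℂ, (2 : ℂ)⁻¹ ∉ B →
      Rt B (nu4 k S) (N4 s4 (fun q => aa q.1) S).det := by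
    intro B hB
    have := nu4_odd hB hmk0 S
    rw [hmk] at this
    simpa using this
  obtain ⟨h1, h0⟩ := q4_Rt hR
  obtain ⟨q, hq⟩ := form4_of (c := 1) (part4_ne κ S) (part4_norm κ S) one_ne_zero hper
    (fun B _ => by norm_num) (part4_g hg) h1 h0 hT
  exact ⟨g, hgd, hgs, q, hq⟩

/-! ### Kind II -/

theorem q4_odd {S : Finset Pg} (hA : ∑ q ∈ S, aa q.1 = 1) {m n : ℤ}
    (h : nn (DDq S) = (m : ZMod 4) + (n : ZMod 4)) : (m + n) % 2 = 1 := by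
  have h1 : md (nn (DDq S)) = 1 := by
    rw [nn_DDq, map_sum]
    exact hA
  rw [h] at h1
  have h2 : ((m + n : ℤ) : ZMod 4) = (m : ZMod 4) + (n : ZMod 4) := by push_cast; rfl
  rw [← h2] at h1
  have h3 : md (((m + n : ℤ) : ZMod 4)) = ((m + n : ℤ) : ZMod 2) := by
    exact map_intCast md _
  rw [h3] at h1
  have h4 : (((m + n - 1 : ℤ)) : ZMod 2) = 0 := by
    push_cast at h1 ⊢
    rw [h1, sub_self]
  rw [ZMod.intCast_zmod_eq_zero_iff_dvd] at h4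
  omega

/-- **Kind II.** The formula modulo `2` for every `D = ∏ q`, `D = 3 + 2 i` modulo `4`. -/
theorem form4_II {S : Finset Pg} (hA : ∑ q ∈ S, aa q.1 = 1) :
    ∃ g : ℂ → ℂ, Differentiable ℂ g ∧ (∀ s : ℂ, 3 / 2 < s.re → g s = (WD4 (Dq 0 S)).LSeries s) ∧
      ∃ q : ℚ, ¬ 2 ∣ q.den ∧ (¬ (2 : ℤ) ∣ q.num ↔
        Pool.Agent.Lib.MP_1a91b9_ntQ.C4 s4 (fun q => aa q.1) S ≠ 0) ∧
        g 1 * (√|(discr K4 : ℝ)| : ℝ) / (period (WD4 (Dq 0 S)) : ℝ) =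
          (q * (((∏ᶠ v : HeightOneSpectrum (𝓞 K4), tam (WD4 (Dq 0 S)) v : ℕ) : ℝ) / 4) : ℝ) := by
  have hS : S.Nonempty := by
    rw [Finset.nonempty_iff_ne_empty]
    rintro rfl
    rw [Finset.sum_empty] at hA
    exact zero_ne_one hA
  obtain ⟨w, hw⟩ := exists_w4
  obtain ⟨m, n, hc, hn⟩ := q4_cp S
  have hmn := q4_odd hA hn
  have hD := (q4_cpD (κ := 0) hc).1 rfl
  have hng : ¬ (8 ∣ Dq 0 S - (1 + 2 * iO) ∨ 8 ∣ Dq 0 S - (1 - 2 * iO)) := by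
    rw [q4_good, hD]
    rintro ⟨h1, -⟩
    simp only at h1
    omega
  push Not at hng
  have hsq := q4_sq 0 S
  have hper := q4_std (period4 hsq hng.1 hng.2)
  have h4 : 4 ∣ Dq 0 S - (3 + 2 * iO) := by
    have := (q4_4 (a := 3) (b := 2) (x := Dq 0 S)).2 (by
      rw [hD]
      constructor
      · simp only
        omega
      · simp only
        omega)
    push_cast at this
    exact this
  have hT : ∏ᶠ v : HeightOneSpectrum (𝓞 K4), tam (WD4 (Dq 0 S)) v = 2 ^ S.card := by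
    rw [finprod_tam4 (part4_PD 0 S) hw, tam4_lam_II h4 hw (per4_u hsq hng.1 hng.2 w), mul_one]
  obtain ⟨g, hgd, hgs, hg⟩ := ser4_add (κ := 0) (by decide) S
  obtain ⟨k, hk⟩ : ∃ k, k = 0 + 2 * ∑ q ∈ S, nn q.1 := ⟨_, rfl⟩
  rw [← hk] at hg
  have hmk : md k = 0 := by rw [hk, md_kappa, map_zero]
  obtain ⟨h1, h0⟩ := q4_Rt (fun B hB => nu4_even (B := B) hB hmk hS)
  obtain ⟨q, hq⟩ := form4_of (c := 1) (part4_ne 0 S) (part4_norm 0 S) one_ne_zero hper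
    (fun B _ => by norm_num) (part4_g hg) h1 h0 hT
  exact ⟨g, hgd, hgs, q, hq⟩

/-! ### Kind III -/

/-- the Euler factor above `2` -/
theorem q4_euler (t : ZMod 4) : ∃ c : ℚ, (c = 2 ∨ c = 2 / 5) ∧
    (c : ℝ) * ‖1 - (starRingEnd ℂ) (em lam) * e4 t / 2‖ ^ 2 = 1 := by
  have hl : (starRingEnd ℂ) (em lam) = 1 - Complex.I := by
    have e : em lam = 1 + Complex.I := by
      rw [em_lam, lm, zt_eq]
    rw [e, map_add, map_one, Complex.conj_I, sub_eq_add_neg]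
  have key : ∀ t : ZMod 4, t = 0 ∨ t = 1 ∨ t = 2 ∨ t = 3 := by decide
  have hn : ∀ x y : ℝ, ‖(x : ℂ) + y * Complex.I‖ ^ 2 = x ^ 2 + y ^ 2 := by
    intro x y
    rw [← Complex.normSq_eq_norm_sq, Complex.normSq_apply]
    simp
    ring
  have hI := Complex.I_sq
  rw [hl]
  rcases key t with rfl | rfl | rfl | rfl
  · refine ⟨2, Or.inl rfl, ?_⟩
    have e : (1 - (1 - Complex.I) * e4 0 / 2 : ℂ) = ((1 / 2 : ℝ) : ℂ) + ((1 / 2 : ℝ) : ℂ) * Complex.I := by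
      rw [e4_zero]
      push_cast
      ring
    rw [e, hn]
    norm_num
  · refine ⟨2, Or.inl rfl, ?_⟩
    have e : (1 - (1 - Complex.I) * e4 1 / 2 : ℂ) = ((1 / 2 : ℝ) : ℂ) + ((-1 / 2 : ℝ) : ℂ) * Complex.I := by
      rw [e4_one, zt_eq]
      push_cast
      linear_combination (1 / 2 : ℂ) * hI
    rw [e, hn]
    norm_num
  · refine ⟨2 / 5, Or.inr rfl, ?_⟩
    have e : (1 - (1 - Complex.I) * e4 2 / 2 : ℂ) = ((3 / 2 : ℝ) : ℂ) + ((-1 / 2 : ℝ) : ℂ) * Complex.I := by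
      rw [e4_two]
      push_cast
      ring
    rw [e, hn]
    norm_num
  · refine ⟨2 / 5, Or.inr rfl, ?_⟩
    have e : (1 - (1 - Complex.I) * e4 3 / 2 : ℂ) = ((3 / 2 : ℝ) : ℂ) + ((1 / 2 : ℝ) : ℂ) * Complex.I := by
      rw [e4_three, zt_eq]
      push_cast
      linear_combination (-1 / 2 : ℂ) * hI
    rw [e, hn]
    norm_num

/-- **Kind III.** The formula modulo `2` for every `D = -∏ q`, `D = 1 + 2 i` modulo `4`. -/
theorem form4_III {S : Finset Pg} (hA : ∑ q ∈ S, aa q.1 = 1) :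
    ∃ g : ℂ → ℂ, Differentiable ℂ g ∧ (∀ s : ℂ, 3 / 2 < s.re → g s = (WD4 (Dq 2 S)).LSeries s) ∧
      ∃ q : ℚ, ¬ 2 ∣ q.den ∧ (¬ (2 : ℤ) ∣ q.num ↔
        Pool.Agent.Lib.MP_1a91b9_ntQ.C4 s4 (fun q => aa q.1) S ≠ 0) ∧
        g 1 * (√|(discr K4 : ℝ)| : ℝ) / (period (WD4 (Dq 2 S)) : ℝ) =
          (q * (((∏ᶠ v : HeightOneSpectrum (𝓞 K4), tam (WD4 (Dq 2 S)) v : ℕ) : ℝ) / 4) : ℝ) := by
  have hS : S.Nonempty := by
    rw [Finset.nonempty_iff_ne_empty]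
    rintro rfl
    rw [Finset.sum_empty] at hA
    exact zero_ne_one hA
  obtain ⟨w, hw⟩ := exists_w4
  obtain ⟨m, n, hc, hn⟩ := q4_cp S
  have hmn := q4_odd hA hn
  have hD := (q4_cpD (κ := 2) hc).2.2.1 rfl
  have hsq := q4_sq 2 S
  have h4 : 4 ∣ Dq 2 S - (1 + 2 * iO) := by
    have := (q4_4 (a := 1) (b := 2) (x := Dq 2 S)).2 (by
      rw [hD]
      constructor
      · simp only
        omega
      · simp only
        omega)
    push_cast at this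
    exact this
  have hk0 : (2 : ZMod 4) + 2 * ∑ q ∈ S, nn q.1 = 0 := by
    rw [← nn_DDq, hn]
    have e : ((m + n : ℤ) : ZMod 4) = (m : ZMod 4) + (n : ZMod 4) := by push_cast; rfl
    rw [← e]
    obtain ⟨j, hj⟩ : ∃ j : ℤ, m + n = 2 * j + 1 := ⟨(m + n) / 2, by omega⟩
    rw [hj]
    push_cast
    have h4' : (4 : ZMod 4) = 0 := rfl
    linear_combination (1 + (j : ZMod 4)) * h4'
  obtain ⟨h1, h0⟩ := q4_Rt (fun B hB => nu4_even (B := B) (k := 0) hB (map_zero md) hS)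
  by_cases hg1 : nn (DDq S) = 1
  · -- good reduction
    have hmn4 : (m + n) % 4 = 1 := by
      rw [hn] at hg1
      have e : ((m + n - 1 : ℤ) : ZMod 4) = 0 := by
        push_cast
        rw [hg1, sub_self]
      rw [ZMod.intCast_zmod_eq_zero_iff_dvd] at e
      omega
    have hgood : 8 ∣ Dq 2 S - (1 + 2 * iO) ∨ 8 ∣ Dq 2 S - (1 - 2 * iO) := by
      rw [q4_good, hD]
      simp only
      omega
    have hnb : ¬ (8 ∣ Dq 2 S - (5 + 2 * iO) ∨ 8 ∣ Dq 2 S - (5 - 2 * iO)) := by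
      have e1 := q4_8 (a := 5) (b := 2) (x := Dq 2 S)
      have e2 := q4_8 (a := 5) (b := -2) (x := Dq 2 S)
      push_cast at e1 e2
      rw [neg_mul, ← sub_eq_add_neg, sub_neg_eq_add] at e2
      rw [e1, e2, hD]
      simp only
      omega
    have hT : ∏ᶠ v : HeightOneSpectrum (𝓞 K4), tam (WD4 (Dq 2 S)) v = 2 ^ S.card := by
      rw [finprod_tam4 (part4_PD 2 S) hw, tam4_lam_III h4 hw (fun h => absurd h hnb), mul_one]
    obtain ⟨g, hgd, hgs, hg⟩ := serP hg1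
    have hLU := (YP_chrU hg1).LU_LG (X4_chr 0 S) fun a _ => by rw [X4_eq, th4_zero, one_mul, YP]
    rw [YP_of fun q _ => lam_not_dvd q] at hLU
    obtain ⟨c, hc2, hc1⟩ := q4_euler (∑ q ∈ S, c4 q lam)
    have hgc : g 1 = (((c : ℝ) * ‖L4 0 S 1‖ ^ 2 : ℝ) : ℂ) := by
      have hL : ‖L4 0 S 1‖ = ‖LU (YP S) 1‖ *
          ‖1 - (starRingEnd ℂ) (em lam) * e4 (∑ q ∈ S, c4 q lam) / 2‖ := by
        rw [← norm_mul, hLU]
        rfl
      rw [hg, Complex.mul_conj, Complex.normSq_eq_norm_sq, hL, mul_pow]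
      congr 1
      linear_combination -(‖LU (YP S) 1‖ ^ 2) * hc1
    have hper : period (WD4 (Dq 2 S)) = 2 * (2 * (‖Om‖ ^ 2 / ‖em (Dq 2 S)‖ ^ (1 / 2 : ℝ))) :=
      period4_good hsq hgood
    obtain ⟨q, hq⟩ := form4_of (c := c) (part4_ne 2 S) (part4_norm 2 S) two_ne_zero hper
      (fun B hB => by
        rcases hc2 with rfl | rfl
        · norm_num
        · have e : (((2 / 5 : ℚ) : ℝ) / 2 : ℝ) = ((5 : ℕ) : ℝ)⁻¹ := by
            push_cast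
            norm_num
          rw [e, Complex.ofReal_inv, Complex.ofReal_natCast, map_inv₀,
            part4_odd hB (n := 5) (by decide), inv_one]) hgc h1 h0 hT
    exact ⟨g, hgd, by rw [Dq_two]; exact hgs, q, hq⟩
  · -- bad reduction
    have hmn4 : (m + n) % 4 = 3 := by
      by_contra hcon
      apply hg1
      rw [hn]
      have e : ((m + n - 1 : ℤ) : ZMod 4) = 0 := by
        rw [ZMod.intCast_zmod_eq_zero_iff_dvd]
        omega
      push_cast at e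
      linear_combination e
    have hng : ¬ (8 ∣ Dq 2 S - (1 + 2 * iO) ∨ 8 ∣ Dq 2 S - (1 - 2 * iO)) := by
      rw [q4_good, hD]
      rintro ⟨h1, -⟩
      simp only at h1
      omega
    push Not at hng
    have hper := q4_std (period4 hsq hng.1 hng.2)
    have hT : ∏ᶠ v : HeightOneSpectrum (𝓞 K4), tam (WD4 (Dq 2 S)) v = 2 ^ S.card := by
      rw [finprod_tam4 (part4_PD 2 S) hw,
        tam4_lam_III h4 hw (fun _ => per4_u hsq hng.1 hng.2 w), mul_one]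
    obtain ⟨g, hgd, hgs, hg⟩ := ser4 2 S fun v hv => by
      rw [eq_pv_lam hv, Dq_two]
      exact (locLG S 0).2 hg1
    rw [hk0] at hg
    obtain ⟨q, hq⟩ := form4_of (c := 1) (part4_ne 2 S) (part4_norm 2 S) one_ne_zero hper
      (fun B _ => by norm_num) (part4_g hg) h1 h0 hT
    exact ⟨g, hgd, hgs, q, hq⟩

end Pool.Agent.Lib.MP_1a91b9_ntQ.C
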