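import Pool.Agent.Lib.MP_1a91b9_ntQ.C.Q24
import Pool.Agent.Lib.MP_1a91b9_ntQ.A.RatE
import Pool.Agent.Lib.MP_1a91b9_ntQ.A.TopE

/-!
# Quartic twists, part C, file Q24E: the formula modulo `2` for the class (E), `lam ∥ D`

For every `κ`, `S` and `D = i ^ κ lam ∏ q` : `g(1) √4 / Ω = q ∏ c_v / 4` with a rational number `q` with
odd denominator, and `q` is odd if and only if the determinant of the bordered matrix is not `0`.
-/

set_option autoImplicit false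
set_option linter.unusedSectionVars false

namespace Pool.Agent.Lib.MP_1a91b9_ntQ.C

open NumberField IsDedekindDomain WithZero WeierstrassCurve Pool.Agent.Lib.MP_1a91b9_ntQ
  Pool.Agent.Lib.MP_1a91b9_nuT
open Pool.Agent.Lib.MP_1a91b9_ntT.S9 (tam normFactor period minChange)
open Pool.Agent.Lib.MP_1a91b9_ntT3.S9 (UnitAt ShaP PPart PPartQ unitAt_of_val ppartQ_of)
open scoped Classical

theorem q4e_ne (κ : ZMod 4) (S : Finset Pg) : DqE κ S ≠ 0 := by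
  rw [DqE_eq]
  exact mul_ne_zero lam_ne_zero (part4_ne κ S)

theorem q4e_sq (κ : ZMod 4) (S : Finset Pg) : Squarefree (DqE κ S) := by
  have h : IsRelPrime lam (Dq κ S) := by
    refine (IsCoprime.isRelPrime ?_)
    exact (Prime.coprime_iff_not_dvd lam_prime).2 (Dq_not_lam κ S)
  rw [DqE_eq, squarefree_mul_iff]
  exact ⟨h, lam_prime.squarefree, q4_sq κ S⟩

theorem q4e_norm (κ : ZMod 4) (S : Finset Pg) :
    ‖em (DqE κ S)‖ ^ (1 / 2 : ℝ) = 2 ^ (1 / 4 : ℝ) * ‖em (DDq S)‖ ^ (1 / 2 : ℝ) := by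
  have h1 : ‖lm‖ = 2 ^ (1 / 2 : ℝ) := by
    have h2 := norm_lm_sq
    rw [← Real.sqrt_eq_rpow, ← h2, Real.sqrt_sq (norm_nonneg _)]
  rw [DqE_eq, em_mul, norm_mul, part4_norm, em_lam, h1,
    Real.mul_rpow (by positivity) (norm_nonneg _), ← Real.rpow_mul (by norm_num)]
  norm_num

theorem q4e_PD (κ : ZMod 4) (S : Finset Pg) : PD4 (DqE κ S) (fun q : Pg => q.1) S where
  prime q _ := q.prime
  inj q _ r _ h := by
    by_contra hne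
    exact Pg.not_dvd hne h
  dvd q hq := DqE_dvd.2 hq
  sq q _ := DqE_sq
  odd q _ h := by
    have h1 := (lam_prime.dvd_prime_iff_associated q.prime).1 h
    exact lam_not_dvd q (h1.symm.dvd)
  all r hr hl h := by
    rw [DqE_eq] at h
    rcases hr.dvd_or_dvd h with h1 | h1
    · exact absurd (((hr.dvd_prime_iff_associated lam_prime).1 h1).symm.dvd) hl
    · exact (part4_PD κ S).all r hr hl h1

/-- **Class (E).** The formula modulo `2` for every `D = i ^ κ lam ∏ q`. -/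
theorem form4_E (κ : ZMod 4) (S : Finset Pg) :
    ∃ g : ℂ → ℂ, Differentiable ℂ g ∧ (∀ s : ℂ, 3 / 2 < s.re → g s = (WD4 (DqE κ S)).LSeries s) ∧
      ∃ q : ℚ, ¬ 2 ∣ q.den ∧ (¬ (2 : ℤ) ∣ q.num ↔
        (B4 s4 (fun q => md κ * aa q.1 + bb q.1) (fun q => aa q.1)
          (if κ = 0 ∨ κ = 3 then 1 else 0) S).det ≠ 0) ∧
        g 1 * (√|(discr K4 : ℝ)| : ℝ) / (period (WD4 (DqE κ S)) : ℝ) =
          (q * (((∏ᶠ v : HeightOneSpectrum (𝓞 K4), tam (WD4 (DqE κ S)) v : ℕ) : ℝ) / 4) : ℝ) := by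
  obtain ⟨w, hw⟩ := exists_w4
  have hsq := q4e_sq κ S
  have hl : lam ∣ DqE κ S := DqE_lam κ S
  have hng : ∀ y : 𝓞 K4, lam ∣ y → ¬ 8 ∣ DqE κ S - (1 + y) := by
    intro y hy h
    have h8 : lam ∣ (8 : 𝓞 K4) := by
      have e : (8 : 𝓞 K4) = 2 * 4 := by norm_num
      rw [e]
      exact lam_dvd_two.mul_right _
    have h1 : lam ∣ DqE κ S - (1 + y) := h8.trans h
    have h2 : lam ∣ 1 := by
      have e : (1 : 𝓞 K4) = DqE κ S - (DqE κ S - (1 + y)) - y := by ring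
      rw [e]
      exact dvd_sub (dvd_sub hl h1) hy
    exact lam_prime.not_isUnit (isUnit_of_dvd_one h2)
  have hn1 : ¬ 8 ∣ DqE κ S - (1 + 2 * iO) := hng _ (lam_dvd_two.mul_right _)
  have hn2 : ¬ 8 ∣ DqE κ S - (1 - 2 * iO) := by
    have := hng (-(2 * iO)) ((dvd_neg).2 (lam_dvd_two.mul_right _))
    rwa [← sub_eq_add_neg] at this
  have hper := period4 hsq hn1 hn2
  have hT : ∏ᶠ v : HeightOneSpectrum (𝓞 K4), tam (WD4 (DqE κ S)) v = 2 ^ (S.card + 1) := by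
    rw [finprod_tam4 (q4e_PD κ S) hw, tam4_dvd lam_prime hl (DqE_lam2 κ S) hw
      (per4_u hsq hn1 hn2 w), pow_succ]
  obtain ⟨g, hgd, hgs, hg⟩ := serE κ S
  obtain ⟨k, hk⟩ : ∃ k, k = κ + 2 * ∑ q ∈ S, nn q.1 := ⟨_, rfl⟩
  rw [← hk] at hg
  obtain ⟨h1, h0⟩ := q4_Rt (fun B hB => Rt_nuE (B := B) hB k S)
  rw [hk, ME_kappa, ← hk] at h1 h0
  have hg' : g 1 = ((‖LE k S 1‖ ^ 2 : ℝ) : ℂ) := by
    rw [hg, Complex.mul_conj, Complex.normSq_eq_norm_sq]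
  have hO : ‖Om‖ ≠ 0 := norm_ne_zero_iff.2 Om_ne
  have hd : 0 < ‖em (DDq S)‖ := norm_pos_iff.2 (em_ne (DDq_in4 S).ne_zero)
  have h3 : ‖em (DDq S)‖ ^ (1 / 2 : ℝ) ≠ 0 := (Real.rpow_pos_of_pos hd _).ne'
  have h4 : (2 : ℝ) ^ (1 / 4 : ℝ) ≠ 0 := (Real.rpow_pos_of_pos (by norm_num) _).ne'
  refine ⟨g, hgd, hgs, form4_gen (by rw [hT]; positivity) (prod_perAt_ne (q4e_ne κ S))
    (x := ‖nuE k S‖ ^ 2 * ‖em (DDq S)‖ ^ (((-3 : ℤ) : ℝ) / 2)) ?_ ?_ (fun hb B hB => ?_)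
    fun hb B hB => ?_⟩
  · have h5 := norm_LE k S
    have h2 : ‖em (DDq S)‖ ^ (((-3 : ℤ) : ℝ) / 2) =
        ‖em (DDq S)‖ ^ (1 / 2 : ℝ) / ‖em (DDq S)‖ ^ 2 := by
      rw [← Real.rpow_natCast, ← Real.rpow_sub hd]
      congr 1
      norm_num
    have h6 : (2 : ℝ) ^ (3 / 4 : ℝ) * 2 ^ (1 / 4 : ℝ) = 2 := by
      rw [← Real.rpow_add (by norm_num)]
      norm_num
    have h7 : ‖LE k S 1‖ ^ 2 * 2 ^ (1 / 4 : ℝ) =
        ‖nuE k S‖ ^ 2 * 2 ^ S.card * 2 * ‖Om‖ ^ 2 / (4 * ‖em (DDq S)‖ ^ 2) := by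
      rw [eq_div_iff (by positivity)]
      linear_combination (2 : ℝ) ^ (1 / 4 : ℝ) * h5 + ‖nuE k S‖ ^ 2 * 2 ^ S.card * ‖Om‖ ^ 2 * h6
    rw [hg', sqrt_discr_K4, hper, q4e_norm, ← Complex.ofReal_mul, ← Complex.ofReal_div, h2, hT]
    congr 1
    have h8 : ‖LE k S 1‖ ^ 2 * 2 / (2 * (‖Om‖ ^ 2 / (2 ^ (1 / 4 : ℝ) * ‖em (DDq S)‖ ^ (1 / 2 : ℝ)))) =
        (‖LE k S 1‖ ^ 2 * 2 ^ (1 / 4 : ℝ)) * ‖em (DDq S)‖ ^ (1 / 2 : ℝ) / ‖Om‖ ^ 2 := by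
      field_simp
    rw [h8, h7]
    push_cast
    field_simp
    ring
  · obtain ⟨q, hq⟩ := cratE k S
    refine ⟨q, ?_⟩
    rw [hg', sqrt_discr_K4, prod_perAt4 (q4e_ne κ S), q4e_norm, ← Complex.ofReal_ratCast,
      ← Complex.ofReal_mul, ← Complex.ofReal_mul]
    congr 1
    rw [← mul_assoc, mul_comm (q : ℝ) 2, mul_assoc, ← mul_div_assoc, ← hq]
    field_simp
  · rw [Complex.ofReal_mul, map_mul, part4_normsq hB (h1 hb), part4_rpow hB (nz_DDq S) (-3),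
      one_mul]
  · rw [Complex.ofReal_mul, map_mul, part4_rpow hB (nz_DDq S) (-3), mul_one]
    exact part4_normsq_lt hB (h0 hb)

end Pool.Agent.Lib.MP_1a91b9_ntQ.C
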