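import Pool.Agent.Lib.MP_1a91b9_ntQ.C.Val4

/-!
# MP_1a91b9_nt (TwistDensity), quartic twists, part C: the rows

The classes `gp4 S j l V`, `D = i ^ k lam ^ l ∏ q`; the local conditions at the primes of `S` and at
`lam` for the classes.
-/

set_option autoImplicit false
set_option linter.unusedSectionVars false
set_option linter.unusedVariables false

namespace Pool.Agent.Lib.MP_1a91b9_ntQ.C

open NumberField Finset WithZero IsDedekindDomain Pool.Agent.Lib.MP_1a91b9_nuT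
open Pool.Agent.Lib.MP_1a91b9_ntQ
open Pool.Agent.Lib.MP_1a91b9_ntH.C (Sq exists_nu isSquare_exp nu_one)

noncomputable section

/-! ### the quadratic symbol -/

theorem c2_mul (q : Pg) {x y : 𝓞 K} (hx : ¬ q.1 ∣ x) (hy : ¬ q.1 ∣ y) :
    c2 q (x * y) = c2 q x + c2 q y := by
  unfold c2
  rw [c4_mul q hx hy, map_add]

theorem c2_congr (q : Pg) {x y : 𝓞 K} (hx : ¬ q.1 ∣ x) (h : q.1 ∣ x - y) : c2 q x = c2 q y := by
  unfold c2
  rw [c4_congr q hx h]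

theorem c2_one (q : Pg) : c2 q 1 = 0 := by
  unfold c2
  rw [c4_one, map_zero]

theorem c2_i (q : Pg) : c2 q iO = aa q.1 := by
  unfold c2 aa
  rw [c4_i]

theorem c2_pow (q : Pg) {x : 𝓞 K} (hx : ¬ q.1 ∣ x) (n : ℕ) : c2 q (x ^ n) = n * c2 q x := by
  unfold c2
  rw [c4_pow q hx, map_mul, map_natCast]

theorem c2_sq (q : Pg) {x : 𝓞 K} (hx : ¬ q.1 ∣ x) : c2 q (x ^ 2) = 0 := by
  rw [c2_pow q hx]
  have h : (((2 : ℕ) : ZMod 2)) = 0 := by decide
  rw [h, zero_mul]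

theorem c2_val (q : Pg) {x : 𝓞 K} (hx : ¬ q.1 ∣ x) (e : ZMod 2) :
    c2 q (x ^ e.val) = e * c2 q x := by
  rw [c2_pow q hx, ZMod.natCast_val, ZMod.cast_id]

theorem c2_prod (q : Pg) (T : Finset Pg) (hT : ∀ p ∈ T, p ≠ q) (V : Pg → ZMod 2) :
    c2 q (∏ p ∈ T, p.1 ^ (V p).val) = ∑ p ∈ T, V p * s4 q p := by
  classical
  induction T using Finset.induction_on with
  | empty => rw [prod_empty, sum_empty, c2_one]
  | insert p T hp ih =>
    have h1 : ¬ q.1 ∣ p.1 := Pg.not_dvd (hT p (mem_insert_self _ _)).symm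
    have h2 : ¬ q.1 ∣ ∏ p ∈ T, p.1 ^ (V p).val := by
      intro hd
      obtain ⟨r, hr, h3⟩ := q.prime.exists_mem_finset_dvd hd
      exact Pg.not_dvd (hT r (mem_insert_of_mem hr)).symm (q.prime.dvd_of_dvd_pow h3)
    rw [prod_insert hp, sum_insert hp,
      c2_mul q (fun h => h1 (q.prime.dvd_of_dvd_pow h)) h2, c2_val q h1,
      ih fun r hr => hT r (mem_insert_of_mem hr)]
    rfl

/-- the symbol of a class without its own prime -/
theorem c2_gp4 {S : Finset Pg} {q : Pg} (hq : q ∈ S) (j l : ZMod 2) (V : Pg → ZMod 2) :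
    c2 q (gp4 (S.erase q) j l V) = j * aa q.1 + l * c2 q lam + ∑ p ∈ S.erase q, V p * s4 q p := by
  have h1 : ¬ q.1 ∣ iO := not_dvd_of_unit q.prime isUnit_iO
  have h2 := not_dvd_lam4 q
  have h3 : ¬ q.1 ∣ iO ^ j.val := fun h => h1 (q.prime.dvd_of_dvd_pow h)
  have h4 : ¬ q.1 ∣ lam ^ l.val := fun h => h2 (q.prime.dvd_of_dvd_pow h)
  have h5 : ¬ q.1 ∣ ∏ p ∈ S.erase q, p.1 ^ (V p).val := by
    intro hd
    obtain ⟨r, hr, h3⟩ := q.prime.exists_mem_finset_dvd hd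
    exact Pg.not_dvd (ne_of_mem_erase hr).symm (q.prime.dvd_of_dvd_pow h3)
  unfold gp4
  rw [c2_mul q (fun h => (q.prime.dvd_or_dvd h).elim h3 h4) h5, c2_mul q h3 h4, c2_val q h1,
    c2_val q h2, c2_i, c2_prod q _ (fun p hp => ne_of_mem_erase hp)]

/-- A local square at `q`, prime to `q`. -/
theorem sq_c2 (q : Pg) {x : 𝓞 K} (hx : ¬ q.1 ∣ x)
    (h4 : (pv q.1 q.prime).valuation K 4 = 1)
    (h : Sq ((pv q.1 q.prime).valuation K) (x : K)) : c2 q x = 0 := by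
  obtain ⟨b, hb, hb'⟩ := h
  rw [h4] at hb'
  have hvx := pv_one q.prime hx
  have h1 : (pv q.1 q.prime).valuation K ((x : K) / b ^ 2) = 1 := by
    have h2 := Valuation.map_add_eq_of_lt_right ((pv q.1 q.prime).valuation K)
      (x := (x : K) / b ^ 2 - 1) (y := 1) (by rw [map_one]; exact hb')
    rw [sub_add_cancel, map_one] at h2
    exact h2
  have hvb : (pv q.1 q.prime).valuation K b = 1 := by
    have hb0 : (pv q.1 q.prime).valuation K b ≠ 0 := (Valuation.ne_zero_iff _).2 hb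
    rw [map_div₀, map_pow, hvx, div_eq_one_iff_eq (pow_ne_zero 2 hb0)] at h1
    exact (pow_eq_one_iff_of_nonneg zero_le two_ne_zero).1 h1.symm
  obtain ⟨n, ⟨d, hd⟩, hnd⟩ :=
    HeightOneSpectrum.exists_primeCompl_mul_eq_of_integer (pv q.1 q.prime) b hvb.le
  have hnd' : b * (d : K) = (n : K) := hnd
  have hd' : ¬ q.1 ∣ d := fun hh => hd (Ideal.mem_span_singleton.2 hh)
  have hvd := pv_one q.prime hd'
  have hn : ¬ q.1 ∣ n := by
    rw [← pv_lt q.prime, ← hnd', map_mul, hvb, hvd, one_mul]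
    exact lt_irrefl _
  have h2 : q.1 ∣ x * d ^ 2 - n ^ 2 := by
    rw [← pv_lt q.prime]
    have h3 : ((x * d ^ 2 - n ^ 2 : 𝓞 K) : K) = ((x : K) / b ^ 2 - 1) * (b * d) ^ 2 := by
      have e1 : ((x * d ^ 2 - n ^ 2 : 𝓞 K) : K) = (x : K) * (d : K) ^ 2 - (n : K) ^ 2 := by
        push_cast
        rfl
      rw [e1, ← hnd']
      field_simp
    rw [h3, map_mul, map_pow, map_mul, hvb, hvd, one_mul, one_pow, mul_one]
    exact hb'
  have hdd : ¬ q.1 ∣ d ^ 2 := fun h => hd' (q.prime.dvd_of_dvd_pow h)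
  have hxd : ¬ q.1 ∣ x * d ^ 2 := fun h => (q.prime.dvd_or_dvd h).elim hx hdd
  have h3 := c2_congr q hxd h2
  rwa [c2_mul q hx hdd, c2_sq q hd', c2_sq q hn, add_zero] at h3

/-! ### the value of `4` -/

theorem val_two_odd {π : 𝓞 K} (h : Prime π) (h3 : ¬ π ∣ lam) : (pv π h).valuation K 2 = 1 := by
  have h1 : ¬ π ∣ (2 : 𝓞 K) := by
    intro hd
    apply h3
    have h2 : π ∣ lam ^ 2 := by
      rw [lam_sq]
      exact hd.mul_right _
    exact h.dvd_of_dvd_pow h2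
  have h2 := pv_one h h1
  have e : ((2 : 𝓞 K) : K) = 2 := map_ofNat (algebraMap (𝓞 K) K) 2
  rwa [e] at h2

theorem val_four_odd {π : 𝓞 K} (h : Prime π) (h3 : ¬ π ∣ lam) : (pv π h).valuation K 4 = 1 := by
  have e : (4 : K) = 2 * 2 := by norm_num
  rw [e, map_mul, val_two_odd h h3, one_mul]

/-- the row of a local square at `q` -/
theorem row_sq {S : Finset Pg} {q : Pg} (hq : q ∈ S) {j l : ZMod 2} {V : Pg → ZMod 2}
    (h : Sq ((pv q.1 q.prime).valuation K) (gp4 S j l V : K)) :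
    V q = 0 ∧ j * aa q.1 + l * c2 q lam + ∑ p ∈ S.erase q, V p * s4 q p = 0 := by
  have h4 := val_four_odd q.prime (not_dvd_lam4 q)
  have hV : V q = 0 := by
    by_contra hV
    have h0 : ∀ e : ZMod 2, e ≠ 0 → e = 1 := by decide
    have h1 := h.even h4.le
    have h2 : ((1 : ZMod 2)).val = 1 := rfl
    rw [gp4_erase hq, h0 _ hV, h2, pow_one] at h1
    push_cast at h1
    rw [map_mul, pv_self, pv_one q.prime (not_dvd_gp4_erase _ _ _), mul_one] at h1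
    exact absurd (exp_odd h1) (by decide)
  refine ⟨hV, ?_⟩
  rw [← c2_gp4 hq]
  refine sq_c2 q (not_dvd_gp4_erase _ _ _) h4 ?_
  rwa [gp4_erase hq, hV, ZMod.val_zero, pow_zero, one_mul] at h

/-! ### products of classes -/

/-- `x ^ (e + f) = x ^ e x ^ f` up to a square -/
theorem pow_val_add {x : 𝓞 K} (hx : x ≠ 0) (e f : ZMod 2) :
    ∃ m : 𝓞 K, m ≠ 0 ∧ x ^ e.val * x ^ f.val = m ^ 2 * x ^ (e + f).val := by
  have h1 : ((1 : ZMod 2)).val = 1 := rfl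
  have h0 : ∀ e : ZMod 2, e = 0 ∨ e = 1 := by decide
  rcases h0 e with rfl | rfl
  · exact ⟨1, one_ne_zero, by rw [ZMod.val_zero, zero_add, pow_zero, one_pow]⟩
  · rcases h0 f with rfl | rfl
    · exact ⟨1, one_ne_zero, by rw [ZMod.val_zero, add_zero, pow_zero, one_pow, mul_one, one_mul]⟩
    · refine ⟨x, hx, ?_⟩
      have h2 : ((1 : ZMod 2) + 1) = 0 := by decide
      rw [h2, h1, ZMod.val_zero]
      ring

theorem gp4_mul (S : Finset Pg) (j l j' l' : ZMod 2) (V V' : Pg → ZMod 2) :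
    ∃ m : 𝓞 K, m ≠ 0 ∧ gp4 S j l V * gp4 S j' l' V' =
      m ^ 2 * gp4 S (j + j') (l + l') (fun q => V q + V' q) := by
  have h1 : ∀ q : Pg, ∃ m : 𝓞 K, m ≠ 0 ∧ q.1 ^ (V q).val * q.1 ^ (V' q).val =
      m ^ 2 * q.1 ^ (V q + V' q).val := fun q => pow_val_add q.ne_zero _ _
  choose m hm hm' using h1
  obtain ⟨a, ha, ha'⟩ := pow_val_add isUnit_iO.ne_zero j j'
  obtain ⟨b, hb, hb'⟩ := pow_val_add lam_ne_zero l l'
  refine ⟨a * b * ∏ q ∈ S, m q, mul_ne_zero (mul_ne_zero ha hb)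
    (prod_ne_zero_iff.2 fun q _ => hm q), ?_⟩
  have h2 : (∏ q ∈ S, q.1 ^ (V q).val) * ∏ q ∈ S, q.1 ^ (V' q).val =
      (∏ q ∈ S, m q) ^ 2 * ∏ q ∈ S, q.1 ^ (V q + V' q).val := by
    rw [← prod_mul_distrib, ← prod_pow, ← prod_mul_distrib]
    exact prod_congr rfl fun q _ => hm' q
  unfold gp4
  linear_combination (lam ^ l.val * lam ^ l'.val * (∏ q ∈ S, q.1 ^ (V q).val) *
    ∏ q ∈ S, q.1 ^ (V' q).val) * ha' + (a ^ 2 * iO ^ (j + j').val *
    (∏ q ∈ S, q.1 ^ (V q).val) * ∏ q ∈ S, q.1 ^ (V' q).val) * hb' +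
    (a ^ 2 * iO ^ (j + j').val * b ^ 2 * lam ^ (l + l').val) * h2

/-- `D = i ^ k lam ^ l ∏ q` -/
def dk (k : ZMod 4) (l : ZMod 2) (S : Finset Pg) : 𝓞 K := iO ^ k.val * lam ^ l.val * DDq S

theorem dk_ne (k : ZMod 4) (l : ZMod 2) (S : Finset Pg) : dk k l S ≠ 0 :=
  mul_ne_zero (mul_ne_zero (pow_ne_zero _ isUnit_iO.ne_zero) (pow_ne_zero _ lam_ne_zero))
    (DDq_in4 S).ne_zero

theorem dk_gp4 (k : ZMod 4) (l : ZMod 2) (S : Finset Pg) :
    ∃ m : 𝓞 K, m ≠ 0 ∧ dk k l S = m ^ 2 * gp4 S (md k) l (fun _ => 1) := by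
  have h1 : ∀ k : ZMod 4, ∃ e : ℕ, k.val = 2 * e + (md k).val := by
    intro k
    have h2 : ∀ k : ZMod 4, k.val = 2 * (k.val / 2) + (md k).val := by decide
    exact ⟨_, h2 k⟩
  obtain ⟨e, he⟩ := h1 k
  refine ⟨iO ^ e, pow_ne_zero _ isUnit_iO.ne_zero, ?_⟩
  have h3 : (∏ q ∈ S, q.1 ^ ((1 : ZMod 2)).val) = DDq S := by
    have h4 : ((1 : ZMod 2)).val = 1 := rfl
    unfold DDq
    exact prod_congr rfl fun q _ => by rw [h4, pow_one]
  unfold dk gp4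
  rw [h3, he, pow_add, mul_comm 2 e, pow_mul]
  ring

/-- `D ^ t` as a class -/
theorem dk_pow (k : ZMod 4) (l : ZMod 2) (S : Finset Pg) (t : ZMod 2) :
    ∃ m : 𝓞 K, m ≠ 0 ∧ dk k l S ^ t.val = m ^ 2 * gp4 S (t * md k) (t * l) (fun _ => t) := by
  have h0 : ∀ e : ZMod 2, e = 0 ∨ e = 1 := by decide
  have h1 : ((1 : ZMod 2)).val = 1 := rfl
  rcases h0 t with rfl | rfl
  · refine ⟨1, one_ne_zero, ?_⟩
    have h2 : ∏ q ∈ S, q.1 ^ ((0 : ZMod 2)).val = (1 : 𝓞 K) := by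
      refine prod_eq_one fun q _ => ?_
      rw [ZMod.val_zero, pow_zero]
    unfold gp4
    rw [h2, zero_mul, zero_mul, ZMod.val_zero, pow_zero, pow_zero, pow_zero, one_pow]
    ring
  · obtain ⟨m, hm, h⟩ := dk_gp4 k l S
    exact ⟨m, hm, by rw [h1, pow_one, one_mul, one_mul, h]⟩

/-- `a D ^ t` as a class -/
theorem cl_mul_pow {a : K} {S : Finset Pg} {j l' : ZMod 2} {V : Pg → ZMod 2} {m : K} (hm : m ≠ 0)
    (ha : a = m ^ 2 * (gp4 S j l' V : K)) (k : ZMod 4) (l : ZMod 2) (t : ZMod 2) :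
    ∃ m : K, m ≠ 0 ∧ a * (dk k l S : K) ^ t.val =
      m ^ 2 * (gp4 S (j + t * md k) (l' + t * l) (fun q => V q + t) : K) := by
  obtain ⟨n, hn, h1⟩ := dk_pow k l S t
  obtain ⟨r, hr, h2⟩ := gp4_mul S j l' (t * md k) (t * l) V (fun _ => t)
  refine ⟨m * n * r, mul_ne_zero (mul_ne_zero hm (coe_ne hn)) (coe_ne hr), ?_⟩
  have h1' := congrArg (fun x : 𝓞 K => (x : K)) h1
  have h2' := congrArg (fun x : 𝓞 K => (x : K)) h2
  have e1 : (dk k l S : K) ^ t.val = (n : K) ^ 2 *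
      (gp4 S (t * md k) (t * l) (fun _ => t) : K) := by
    rw [← map_pow]
    rw [h1, map_mul, map_pow]
  have e2 : (gp4 S j l' V : K) * (gp4 S (t * md k) (t * l) (fun _ => t) : K) = (r : K) ^ 2 *
      (gp4 S (j + t * md k) (l' + t * l) (fun q => V q + t) : K) := by
    rw [← map_mul, h2, map_mul, map_pow]
  rw [ha, e1]
  linear_combination (m ^ 2 * (n : K) ^ 2) * e2

end

end Pool.Agent.Lib.MP_1a91b9_ntQ.C
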