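import Pool.Agent.Lib.MP_1a91b9_ntQ.C.Lam4
import Pool.Agent.Lib.MP_1a91b9_ntQ.R.Qd4
import Pool.Agent.Lib.MP_1a91b9_ntQ.C.Row4

/-!
# MP_1a91b9_nt (quartic twists), converse of the descent: from the rows to the local conditions

`sq_of_c2_row`: an integer prime to `q` with trivial quadratic symbol is a local square at `q`.
`row_sq'`: the converse of `row_sq`. `cl_C4'`: the converse of `cl_C4`.
-/

set_option autoImplicit false
set_option linter.unusedSectionVars false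
set_option linter.unusedVariables false

namespace Pool.Agent.Lib.MP_1a91b9_ntQ.C

open NumberField Finset WithZero IsDedekindDomain Pool.Agent.Lib.MP_1a91b9_nuT
open Pool.Agent.Lib.MP_1a91b9_ntQ
open Pool.Agent.Lib.MP_1a91b9_ntH.C (Sq exists_nu isSquare_exp nu_one)

noncomputable section

/-- An integer prime to `q` with trivial quadratic symbol is a local square at `q`. -/
theorem sq_of_c2_row (q : Pg) {x : 𝓞 K} (hx : ¬ q.1 ∣ x) (h : c2 q x = 0) :
    Sq ((pv q.1 q.prime).valuation K) (x : K) := by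
  obtain ⟨z, hz⟩ := (Pool.Agent.Lib.MP_1a91b9_ntQ.c2_eq_zero_iff q hx).1 h
  have hz' : ¬ q.1 ∣ z := by
    intro h1
    apply hx
    have h2 : q.1 ∣ z ^ 2 := h1.trans (dvd_pow_self z two_ne_zero)
    have h3 := dvd_sub h2 hz
    rwa [sub_sub_cancel] at h3
  have h4 := val_four_odd q.prime (not_dvd_lam4 q)
  have hvz : (pv q.1 q.prime).valuation K (z : K) = 1 := pv_one q.prime hz'
  have hz0 : (z : K) ≠ 0 := coe_ne fun h1 => hz' (h1 ▸ dvd_zero _)
  refine ⟨(z : K), hz0, ?_⟩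
  have e : (x : K) / (z : K) ^ 2 - 1 = -(((z ^ 2 - x : 𝓞 K) : K) / (z : K) ^ 2) := by
    have e1 : ((z ^ 2 - x : 𝓞 K) : K) = (z : K) ^ 2 - (x : K) := by
      push_cast
      rfl
    rw [e1]
    field_simp
    ring
  rw [e, Valuation.map_neg, map_div₀, map_pow, hvz, one_pow, div_one, h4]
  exact (pv_lt q.prime).2 hz

/-- the converse of `row_sq` -/
theorem row_sq' {S : Finset Pg} {q : Pg} (hq : q ∈ S) {j l : ZMod 2} {V : Pg → ZMod 2}
    (hV : V q = 0)
    (h : j * aa q.1 + l * c2 q lam + ∑ p ∈ S.erase q, V p * s4 q p = 0) :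
    Sq ((pv q.1 q.prime).valuation K) (gp4 S j l V : K) := by
  rw [gp4_erase hq, hV, ZMod.val_zero, pow_zero, one_mul]
  refine sq_of_c2_row q (not_dvd_gp4_erase _ _ _) ?_
  rw [c2_gp4 hq]
  exact h

/-- `y = 1` modulo `lam ^ 3` with `aa y = 0` is a square modulo `4` -/
theorem C4_in4_row {y : 𝓞 K} (hy : In4 y) (ha : aa y = 0) : C4 nuL (y : K) := by
  obtain ⟨m, n, rfl⟩ := in4_form hy
  rw [aa_form] at ha
  obtain ⟨t, ht⟩ : ∃ t : 𝓞 K, (m : 𝓞 K) + (n : 𝓞 K) * iO = lam * t := by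
    have h1 : ((m + n : ℤ) : ZMod 2) = 0 := by
      push_cast
      exact ha
    obtain ⟨c, hc⟩ := (ZMod.intCast_zmod_eq_zero_iff_dvd _ 2).1 h1
    have h2 : (m : 𝓞 K) = 2 * c - n := by
      have h3 : m = 2 * c - n := by
        push_cast at hc
        omega
      rw [h3]
      push_cast
      rfl
    refine ⟨(1 - iO) * c + iO * n, ?_⟩
    have hl : lam = 1 + iO := rfl
    rw [h2, hl]
    linear_combination ((c : 𝓞 K) - (n : 𝓞 K)) * iO_sq
  have e : ((1 + lam ^ 3 * ((m : 𝓞 K4) + (n : 𝓞 K4) * iO) : 𝓞 K) : K) =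
      1 * (1 + (1 + (iO : K)) ^ 4 * (t : K)) := by
    rw [ht, ← lam_coe, one_mul]
    have e1 : (1 + lam ^ 3 * (lam * t) : 𝓞 K) = 1 + lam ^ 4 * t := by ring
    rw [e1]
    push_cast
    rfl
  rw [e]
  exact C4_sign iK_sq' nuL_two (Or.inl rfl) (nuL_O t)

/-- the converse of `cl_C4` -/
theorem cl_C4' {S : Finset Pg} {V : Pg → ZMod 2} (h : ∑ q ∈ S, V q * aa q.1 = 0) :
    C4 nuL (gp4 S 0 0 V : K) := by
  have e : gp4 S 0 0 V = ∏ q ∈ S, q.1 ^ (V q).val := by
    unfold gp4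
    rw [ZMod.val_zero, pow_zero, pow_zero, one_mul, one_mul]
  rw [e]
  refine C4_in4_row (gp4_in4 S V) ?_
  rw [aa_gp4]
  exact h

end

end Pool.Agent.Lib.MP_1a91b9_ntQ.C
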