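import Pool.Agent.Lib.MP_1a91b9_ntQ.C.ConvQ
import Pool.Agent.Lib.MP_1a91b9_ntQ.C.SelX3

/-!
# MP_1a91b9_nt (quartic twists), converse of the descent: the class of a kernel vector

The class `gp4 S s 0 V = i ^ s ∏ q ^ V q`.
-/

set_option autoImplicit false
set_option linter.unusedSectionVars false
set_option linter.unusedVariables false

namespace Pool.Agent.Lib.MP_1a91b9_ntQ.C

open NumberField Finset WithZero IsDedekindDomain Pool.Agent.Lib.MP_1a91b9_nuT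
open Pool.Agent.Lib.MP_1a91b9_ntQ
open Pool.Agent.Lib.MP_1a91b9_ntH.C (Sq exists_nu isSquare_exp nu_one)
open Pool.Agent.Lib.MP_1a91b9_ntT3.S9 (ShaP)

noncomputable section

/-- a square factor does not matter -/
theorem Sq_mul_sqD {L : Type*} [Field L] {ν : Valuation L ℤᵐ⁰} {u m : L} (hm : m ≠ 0)
    (h : Sq ν u) : Sq ν (m ^ 2 * u) := by
  obtain ⟨b, hb, h⟩ := h
  refine ⟨m * b, mul_ne_zero hm hb, ?_⟩
  have e : m ^ 2 * u / (m * b) ^ 2 - 1 = u / b ^ 2 - 1 := by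
    field_simp
  rwa [e]

/-! ### the places of `S` -/

theorem Sq_of_c2 (q : Pg) {x : 𝓞 K} (hx : ¬ q.1 ∣ x) (h : c2 q x = 0) :
    Sq ((pv q.1 q.prime).valuation K) (x : K) := by
  obtain ⟨y, hy⟩ : ∃ y : 𝓞 K, q.1 ∣ y ^ 2 - x := (c2_eq_zero_iff q hx).1 h
  have hy' : ¬ q.1 ∣ y := by
    intro hd
    apply hx
    have h1 : q.1 ∣ y ^ 2 := hd.trans (dvd_pow_self y two_ne_zero)
    exact (dvd_sub_right h1).1 hy
  have hy0 : y ≠ 0 := by
    rintro rfl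
    exact hy' (dvd_zero _)
  have h4 := val_four_odd q.prime (not_dvd_lam4 q)
  refine ⟨(y : K), coe_ne hy0, ?_⟩
  have e : (x : K) / (y : K) ^ 2 - 1 = -(((y ^ 2 - x : 𝓞 K) : K) / (y : K) ^ 2) := by
    have hyK := coe_ne hy0
    push_cast
    rw [div_sub_one (pow_ne_zero 2 hyK), ← neg_div, neg_sub]
  rw [e, Valuation.map_neg, map_div₀, map_pow, pv_one q.prime hy', one_pow, div_one, h4]
  exact (pv_lt q.prime).2 hy

/-- the local condition at `q` from the row at `q` -/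
theorem gloc_row {S : Finset Pg} {q : Pg} (hq : q ∈ S) (k : ZMod 4) (l s : ZMod 2)
    (V : Pg → ZMod 2)
    (h : (s + V q * md k) * aa q.1 + V q * l * c2 q lam +
      ∑ p ∈ S.erase q, (V p + V q) * s4 q p = 0) :
    GLoc4 ((pv q.1 q.prime).valuation K) (dk k l S : K) (gp4 S s 0 V : K) := by
  obtain ⟨m, hm, h1⟩ := cl_mul_pow (S := S) (a := (gp4 S s 0 V : K)) (m := 1) one_ne_zero
    (by rw [one_pow, one_mul]) k l (V q)
  have h2 : V q + V q = 0 := by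
    have h3 : ∀ x : ZMod 2, x + x = 0 := by decide
    exact h3 _
  have h3 : c2 q (gp4 (S.erase q) (s + V q * md k) (0 + V q * l) (fun p => V p + V q)) = 0 := by
    rw [c2_gp4 hq, zero_add]
    exact h
  have h4 : Sq ((pv q.1 q.prime).valuation K) ((gp4 S s 0 V : K) * (dk k l S : K) ^ (V q).val) := by
    rw [h1]
    refine Sq_mul_sqD hm ?_
    rw [gp4_erase hq, h2, ZMod.val_zero, pow_zero, one_mul]
    exact Sq_of_c2 q (not_dvd_gp4_erase _ _ _) h3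
  have h0 : ∀ e : ZMod 2, e = 0 ∨ e = 1 := by decide
  rcases h0 (V q) with h5 | h5
  · left
    rwa [h5, ZMod.val_zero, pow_zero, mul_one] at h4
  · right; left
    have h6 : ((1 : ZMod 2)).val = 1 := rfl
    rwa [h5, h6, pow_one] at h4

/-! ### squares -/

theorem Sq_nuL_of_isSquare {a : K} (ha : a ≠ 0) (h : IsSquare a) : Sq nuL a := by
  obtain ⟨b, rfl⟩ := h
  have hb : b ≠ 0 := fun h => ha (by rw [h, mul_zero])
  refine ⟨b, hb, ?_⟩
  have e : b * b / b ^ 2 - 1 = 0 := by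
    field_simp
    ring
  rw [e, map_zero, nu_four4 nuL_two]
  exact exp_pos

/-- a class which is a square -/
theorem sq_gp4 {S : Finset Pg} {j l : ZMod 2} {V : Pg → ZMod 2} {a m : K} (hm : m ≠ 0)
    (ha : a = m ^ 2 * (gp4 S j l V : K)) (h : IsSquare a) :
    j = 0 ∧ l = 0 ∧ ∀ q ∈ S, V q = 0 := by
  have hg : (gp4 S j l V : K) ≠ 0 := coe_ne (gp4_ne S j l V)
  have ha0 : a ≠ 0 := by
    rw [ha]
    exact mul_ne_zero (pow_ne_zero 2 hm) hg
  have h1 := C4.of_sq (Sq_nuL_of_isSquare ha0 h)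
  rw [ha] at h1
  obtain ⟨g1, g2, -⟩ := cl_C4 hm h1
  refine ⟨g2, g1, fun q hq => ?_⟩
  have hsq : IsSquare (gp4 S j l V : K) := by
    obtain ⟨b, hb⟩ := h
    refine ⟨b / m, ?_⟩
    rw [div_mul_div_comm, ← hb, ha]
    field_simp
  obtain ⟨b, hb⟩ := hsq
  have hb0 : b ≠ 0 := fun h => hg (by rw [hb, h, mul_zero])
  refine (row_sq hq (j := j) (l := l) (V := V) ⟨b, hb0, ?_⟩).1
  have e : (gp4 S j l V : K) / b ^ 2 - 1 = 0 := by
    rw [hb]
    field_simp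
    ring
  rw [e, map_zero, val_four_odd q.prime (not_dvd_lam4 q)]
  exact zero_lt_one

/-! ### all places -/

/-- The good odd places. -/
def GoodQ : Prop := ∀ (v : HeightOneSpectrum (𝓞 K)) (D a : K), v.valuation K 4 = 1 →
  v.valuation K D = 1 → v.valuation K a = 1 → GLoc4 (v.valuation K) D a

/-- the local conditions for the class -/
theorem gloc_all (hG : GoodQ) {S : Finset Pg} (k : ZMod 4) (l s : ZMod 2) (V : Pg → ZMod 2)
    (hrow : ∀ q ∈ S, (s + V q * md k) * aa q.1 + V q * l * c2 q lam +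
      ∑ p ∈ S.erase q, (V p + V q) * s4 q p = 0)
    (hlam : GLoc4 nuL (dk k l S : K) (gp4 S s 0 V : K)) (v : HeightOneSpectrum (𝓞 K)) :
    GLoc4 (v.valuation K) (dk k l S : K) (gp4 S s 0 V : K) := by
  obtain ⟨π, hπ, rfl⟩ := exists_pv v
  by_cases h3 : π ∣ lam
  · rw [pv_eq hπ prime_lam h3]
    exact hlam
  by_cases hq : ∃ q ∈ S, π ∣ q.1
  · obtain ⟨q, hqS, hd⟩ := hq
    rw [pv_eq hπ q.prime hd]
    exact gloc_row hqS k l s V (hrow q hqS)
  · push Not at hq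
    exact hG _ _ _ (val_four_odd hπ h3) (pv_one hπ (not_dvd_dk hπ h3 hq k l))
      (pv_one hπ (not_dvd_gp4 hπ h3 hq _ _ _))

/-- **The converse of the descent** for the class of a kernel vector. -/
theorem conv_class (hG : GoodQ) (hinf : ∀ v : InfinitePlace K, v.IsComplex) {S : Finset Pg}
    (k : ZMod 4) (l s : ZMod 2) (V : Pg → ZMod 2) (hD : S.Nonempty ∨ l = 1 ∨ md k = 1)
    (hrow : ∀ q ∈ S, (s + V q * md k) * aa q.1 + V q * l * c2 q lam +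
      ∑ p ∈ S.erase q, (V p + V q) * s4 q p = 0)
    (hlam : GLoc4 nuL (dk k l S : K) (gp4 S s 0 V : K))
    (hne : ¬ (s = 0 ∧ ∀ q ∈ S, V q = 0))
    (hne' : ¬ (s + md k = 0 ∧ l = 0 ∧ ∀ q ∈ S, V q = 1))
    {W : WeierstrassCurve K} (hW : W = cq (dk k l S : K)) (hfin : Finite W.toAffine.Point) :
    Nat.card (ShaP 2 W) ≠ 1 := by
  have hone : ((1 : ZMod 2)).val = 1 := rfl
  obtain ⟨m, hm, h1⟩ := cl_mul_pow (S := S) (a := (gp4 S s 0 V : K)) (m := 1) one_ne_zero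
    (by rw [one_pow, one_mul]) k l 1
  rw [hone, pow_one] at h1
  obtain ⟨n, hn, h2⟩ := dk_gp4 k l S
  have h2' : (dk k l S : K) = (n : K) ^ 2 * (gp4 S (md k) l (fun _ => 1) : K) := by
    rw [h2]
    exact coe_sq_mul _ _
  refine conv_selQ (coe_ne (dk_ne k l S)) iK_sq' hinf (fun h => ?_) (gp4 S s 0 V : K)
    (coe_ne (gp4_ne S s 0 V)) (gloc_all hG k l s V hrow hlam) (fun h => ?_) (fun h => ?_) hW hfin
  · obtain ⟨g1, g2, g3⟩ := sq_gp4 (coe_ne hn) h2' h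
    rcases hD with ⟨q, hq⟩ | h3 | h3
    · exact one_ne_zero (g3 q hq)
    · rw [g2] at h3
      exact zero_ne_one h3
    · rw [g1] at h3
      exact zero_ne_one h3
  · obtain ⟨g1, -, g3⟩ := sq_gp4 (one_ne_zero (α := K)) (by rw [one_pow, one_mul]) h
    exact hne ⟨g1, g3⟩
  · obtain ⟨g1, g2, g3⟩ := sq_gp4 hm h1 h
    refine hne' ⟨by rw [one_mul] at g1; exact g1, by rw [zero_add, one_mul] at g2; exact g2,
      fun q hq => ?_⟩
    have h5 : ∀ x : ZMod 2, x + 1 = 0 → x = 1 := by decide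
    exact h5 _ (g3 q hq)

/-! ### the place `lam` -/

theorem C4_of_in4 {y : 𝓞 K} (hy : In4 y) (ha : aa y = 0) : C4 nuL (y : K) := by
  obtain ⟨c, d, h1, -, -⟩ := form4 hy ha
  obtain ⟨u, hu⟩ : ∃ u : 𝓞 K, y = 1 + 4 * u := ⟨_, h1⟩
  refine C4.one ?_
  have h6 : (y : K) = 1 + 4 * (u : K) := by
    rw [hu]
    show algebraMap (𝓞 K) K (1 + 4 * u) = 1 + 4 * algebraMap (𝓞 K) K u
    rw [map_add, map_one, map_mul, map_ofNat]
  have e : (y : K) - 1 = 4 * (u : K) := by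
    rw [h6]
    ring
  rw [e, map_mul]
  exact mul_le_of_le_one_right' (nuL_O _)

theorem Sq_of_in4 {y : 𝓞 K} (hy : In4 y) (ha : aa y = 0) (hb : bb y = 0) : Sq nuL (y : K) := by
  obtain ⟨c, d, h1, -, h3⟩ := form4 hy ha
  rw [hb] at h3
  obtain ⟨t, ht⟩ := (ZMod.intCast_zmod_eq_zero_iff_dvd _ 2).1 h3.symm
  have h5 : y = 1 + 4 * (lam * ((t : 𝓞 K4) + ((t - c : ℤ) : 𝓞 K4) * iO)) := by
    have hd : (d : 𝓞 K4) = 2 * (t : 𝓞 K4) - (c : 𝓞 K4) := by
      have h6 := congrArg (fun x : ℤ => (x : 𝓞 K4)) ht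
      push_cast at h6
      linear_combination h6
    have hl : lam = 1 + iO := rfl
    rw [h1, hd, hl]
    push_cast
    linear_combination (-4 * ((t : 𝓞 K4) - (c : 𝓞 K4))) * iO_sq
  obtain ⟨l, hl⟩ : ∃ l : 𝓞 K, l = lam := ⟨_, rfl⟩
  obtain ⟨u, hu⟩ : ∃ u : 𝓞 K, y = 1 + 4 * (l * u) := by
    rw [hl]
    exact ⟨_, h5⟩
  refine ⟨1, one_ne_zero, ?_⟩
  have h6 : (y : K) = 1 + 4 * ((l : K) * (u : K)) := by
    rw [hu]
    show algebraMap (𝓞 K) K (1 + 4 * (l * u)) =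
      1 + 4 * (algebraMap (𝓞 K) K l * algebraMap (𝓞 K) K u)
    rw [map_add, map_one, map_mul, map_mul, map_ofNat]
  have e : (y : K) / 1 ^ 2 - 1 = 4 * ((l : K) * (u : K)) := by
    rw [h6]
    ring
  have hl1 : nuL (l : K) = exp (-1) := by
    rw [hl]
    exact nuL_lam
  rw [e, map_mul, map_mul, hl1, nu_four4 nuL_two]
  calc exp (-4 : ℤ) * (exp (-1) * nuL (u : K))
      ≤ exp (-4) * (exp (-1) * 1) := by
        gcongr
        exact nuL_O _
    _ < exp (-4) := by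
        rw [mul_one, ← exp_add, exp_lt_exp]
        norm_num

theorem bb_gp4D (S : Finset Pg) (V : Pg → ZMod 2) :
    bb (∏ q ∈ S, q.1 ^ (V q).val) = ∑ q ∈ S, V q * bb q.1 := by
  classical
  induction S using Finset.induction_on with
  | empty => exact bb_one
  | insert q S hq ih =>
    rw [prod_insert hq, sum_insert hq, ← ih, bb_mul _ (gp4_in4 S V)]
    · congr 1
      have h0 : ∀ e : ZMod 2, e = 0 ∨ e = 1 := by decide
      rcases h0 (V q) with h | h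
      · rw [h, ZMod.val_zero, pow_zero, bb_one, zero_mul]
      · rw [h]
        show bb (q.1 ^ 1) = _
        rw [pow_one, one_mul]
    · have h := gp4_in4 {q} V
      rwa [prod_singleton] at h

/-- the class `gp4 S 0 0 V` -/
theorem gp4_zero (S : Finset Pg) (V : Pg → ZMod 2) :
    gp4 S 0 0 V = ∏ q ∈ S, q.1 ^ (V q).val := by
  unfold gp4
  rw [ZMod.val_zero, pow_zero, pow_zero, one_mul, one_mul]

/-- the class `gp4 S 1 0 V` -/
theorem gp4_one (S : Finset Pg) (V : Pg → ZMod 2) :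
    gp4 S 1 0 V = iO * ∏ q ∈ S, q.1 ^ (V q).val := by
  have h1 : ((1 : ZMod 2)).val = 1 := rfl
  unfold gp4
  rw [ZMod.val_zero, pow_zero, h1, pow_one, mul_one]

theorem C4_gp4_zero (S : Finset Pg) (V : Pg → ZMod 2) (h : ∑ q ∈ S, V q * aa q.1 = 0) :
    C4 nuL (gp4 S 0 0 V : K) := by
  rw [gp4_zero]
  exact C4_of_in4 (gp4_in4 S V) (by rw [aa_gp4]; exact h)

/-- the class times `w = i ^ e z` -/
theorem C4_gp4_mul (S : Finset Pg) (V : Pg → ZMod 2) (s : ZMod 2) {z : 𝓞 K} (hz : In4 z)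
    (h : ∑ q ∈ S, V q * aa q.1 + aa z = 0) :
    C4 nuL ((gp4 S s 0 V : K) * ((iO ^ s.val * z : 𝓞 K) : K)) := by
  have h0 : ∀ e : ZMod 2, e = 0 ∨ e = 1 := by decide
  have hP := gp4_in4 S V
  have hy := C4_of_in4 (hP.mul hz) (by rw [aa_mul hP hz, aa_gp4]; exact h)
  rcases h0 s with rfl | rfl
  · rw [gp4_zero, ZMod.val_zero, pow_zero, one_mul, ← coe_mul']
    exact hy
  · refine C4.neg iK_sq' ?_
    have h1 : ((1 : ZMod 2)).val = 1 := rfl
    rw [gp4_one, h1, pow_one]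
    have e : -((iO * ∏ q ∈ S, q.1 ^ (V q).val : 𝓞 K) : K) * ((iO * z : 𝓞 K) : K) =
        (((∏ q ∈ S, q.1 ^ (V q).val) * z : 𝓞 K) : K) := by
      rw [coe_mul', coe_mul', coe_mul']
      linear_combination (-((∏ q ∈ S, q.1 ^ (V q).val : 𝓞 K) : K) * (z : K)) * iK_sq'
    rw [← neg_mul]
    exact Eq.mpr (congrArg (C4 nuL) e) hy

theorem Sq_neg {L : Type*} [Field L] {ν : Valuation L ℤᵐ⁰} {i u : L} (hi : i ^ 2 = -1)
    (h : Sq ν u) : Sq ν (-u) := by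
  have hi0 : i ≠ 0 := by
    rintro rfl
    norm_num at hi
  have h1 := Sq_mul_sqD hi0 h
  rwa [hi, neg_one_mul] at h1

/-! ### `lam ∣ D` -/

theorem bb_z0 : bb (-1 + 2 * iO) = 0 := by
  have e : (-1 + 2 * iO : 𝓞 K4) = 1 + lam ^ 3 * (((1 : ℤ) : 𝓞 K4) + ((0 : ℤ) : 𝓞 K4) * iO) := by
    rw [lam_cube]
    push_cast
    ring
  rw [e, bb_form]
  decide

theorem bb_z3 : bb (-1 - 2 * iO) = 1 := by
  have e : (-1 - 2 * iO : 𝓞 K4) = 1 + lam ^ 3 * (((0 : ℤ) : 𝓞 K4) + ((1 : ℤ) : 𝓞 K4) * iO) := by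
    rw [lam_cube]
    push_cast
    linear_combination (-2 : 𝓞 K4) * iO_sq
  rw [e, bb_form]
  decide

/-- `1 + i ^ k lam` -/
theorem one_add_kb (k : ZMod 4) : ∃ (e : ZMod 4) (z0 : 𝓞 K4), In4 z0 ∧ md e = 1 ∧ aa z0 = xk k ∧
    bb z0 = md k * xk k ∧ 1 + iO ^ k.val * lam = iO ^ e.val * z0 := by
  have h0 : ∀ k : ZMod 4, k = 0 ∨ k = 1 ∨ k = 2 ∨ k = 3 := by decide
  have hl : lam = 1 + iO := rfl
  rcases h0 k with rfl | rfl | rfl | rfl
  · refine ⟨3, -1 + 2 * iO, in4_z0.1, by decide, by rw [in4_z0.2]; decide,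
      by rw [bb_z0]; decide, ?_⟩
    show 1 + iO ^ 0 * lam = iO ^ 3 * (-1 + 2 * iO)
    rw [hl]
    linear_combination (iO - 2 * iO ^ 2 + 2) * iO_sq
  · refine ⟨1, 1, in4_one, by decide, by rw [aa_one]; decide, by rw [bb_one]; decide, ?_⟩
    show 1 + iO ^ 1 * lam = iO ^ 1 * 1
    rw [hl]
    linear_combination iO_sq
  · refine ⟨3, 1, in4_one, by decide, by rw [aa_one]; decide, by rw [bb_one]; decide, ?_⟩
    show 1 + iO ^ 2 * lam = iO ^ 3 * 1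
    rw [hl]
    linear_combination iO_sq
  · refine ⟨1, -1 - 2 * iO, in4_z3.1, by decide, by rw [in4_z3.2]; decide,
      by rw [bb_z3]; decide, ?_⟩
    show 1 + iO ^ 3 * lam = iO ^ 1 * (-1 - 2 * iO)
    rw [hl]
    linear_combination (iO ^ 2 + iO + 1) * iO_sq

/-- `i ^ r (m + n i)` -/
theorem ipow_form (r : ℕ) (m n : ℤ) : ∃ x y : ℤ, iO ^ r * ((m : 𝓞 K4) + (n : 𝓞 K4) * iO) =
    (x : 𝓞 K4) + (y : 𝓞 K4) * iO ∧ ((x + y : ℤ) : ZMod 2) = ((m + n : ℤ) : ZMod 2) := by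
  induction r with
  | zero => exact ⟨m, n, by rw [pow_zero, one_mul], rfl⟩
  | succ r ih =>
    obtain ⟨x, y, h1, h2⟩ := ih
    refine ⟨-y, x, ?_, ?_⟩
    · rw [pow_succ, mul_right_comm, h1]
      push_cast
      linear_combination (y : 𝓞 K4) * iO_sq
    · rw [← h2]
      push_cast
      have h3 : ∀ x y : ZMod 2, -y + x = x + y := by decide
      exact h3 _ _

/-- `1 + D` for `D = i ^ k lam ∏ q` -/
theorem one_add_dkb (k : ZMod 4) (S : Finset Pg) : ∃ (e : ZMod 4) (z : 𝓞 K), In4 z ∧ md e = 1 ∧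
    aa z = xk k ∧ bb z = md k * xk k + ∑ q ∈ S, aa q.1 ∧ 1 + dk k 1 S = iO ^ e.val * z := by
  obtain ⟨e, z0, hz0, he, ha, hb, h1⟩ := one_add_kb k
  obtain ⟨m, n, hw⟩ := in4_form (DDq_in4 S)
  have haS : ∑ q ∈ S, aa q.1 = ((m + n : ℤ) : ZMod 2) := by
    rw [← aa_DDq, hw, aa_form]
    push_cast
    rfl
  -- `1 + D = i ^ e z0 + i ^ k lam (DD - 1)`
  have h2 : iO ^ e.val * iO ^ (-e).val = 1 := by
    rw [pow_val_mul, add_neg_cancel, ZMod.val_zero, pow_zero]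
  obtain ⟨x, y, hxy, hp⟩ := ipow_form ((-e).val + k.val) m n
  obtain ⟨m0, n0, hz00⟩ := in4_form hz0
  have hl : lam = 1 + iO := rfl
  obtain ⟨z, hz⟩ : ∃ z : 𝓞 K, z = 1 + lam ^ 3 * (((m0 + x - y : ℤ) : 𝓞 K4) +
      ((n0 + x + y : ℤ) : 𝓞 K4) * iO) := ⟨_, rfl⟩
  have hz' : z = z0 + lam ^ 4 * (iO ^ ((-e).val + k.val) * ((m : 𝓞 K4) + (n : 𝓞 K4) * iO)) := by
    rw [hz, hz00, hxy]
    push_cast
    rw [hl]
    linear_combination (-(y : 𝓞 K4) * (1 + iO) ^ 3) * iO_sq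
  have h5 : lam ^ 4 ∣ z - z0 := ⟨iO ^ ((-e).val + k.val) * ((m : 𝓞 K4) + (n : 𝓞 K4) * iO),
    by rw [hz']; ring⟩
  have h6 : lam ^ 3 ∣ z - z0 := (pow_dvd_pow lam (by norm_num)).trans h5
  have h7 : lam ^ 4 ∣ z0 - z := by
    rw [← neg_sub]
    exact h5.neg_right
  refine ⟨e, z, (in4_congr h6).2 hz0, he, ?_, ?_, ?_⟩
  · rw [← ha]
    exact (aa_congr hz0 h7).symm
  · rw [← hb, haS, ← hp, hz, bb_form, hz00, bb_form]
    push_cast
    ring
  · have h3 : ((1 : ZMod 2)).val = 1 := rfl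
    unfold dk
    rw [h3, pow_one, hw, hz', pow_add]
    linear_combination h1 - (iO ^ k.val * lam ^ 4 * ((m : 𝓞 K4) + (n : 𝓞 K4) * iO)) * h2

/-- the sum of the rows -/
theorem sum_rowN (κ : ZMod 2) (S : Finset Pg) (f : Pg → ZMod 2) :
    ∑ q ∈ S, rowN κ S f q = κ * ∑ q ∈ S, f q * aa q.1 := by
  have h2 : ∀ x : ZMod 2, x + x = 0 := by decide
  have hswap : ∑ q ∈ S, ∑ p ∈ S.erase q, f p * s4 q p =
      ∑ q ∈ S, ∑ p ∈ S.erase q, f q * s4 q p := by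
    rw [sum_comm' (t' := S) (s' := fun p => S.erase p) (by
      intro x y
      simp only [mem_erase]
      constructor
      · rintro ⟨h1, h3, h4⟩
        exact ⟨⟨fun h5 => h3 h5.symm, h1⟩, h4⟩
      · rintro ⟨⟨h1, h3⟩, h4⟩
        exact ⟨h3, fun h5 => h1 h5.symm, h4⟩)]
    refine sum_congr rfl fun q _ => sum_congr rfl fun p hp => ?_
    rw [s4_symm (ne_of_mem_erase hp)]
  have h3 : ∑ q ∈ S, ∑ p ∈ S.erase q, (f p + f q) * s4 q p = 0 := by
    have h4 : ∑ q ∈ S, ∑ p ∈ S.erase q, (f p + f q) * s4 q p =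
        ∑ q ∈ S, ∑ p ∈ S.erase q, f p * s4 q p + ∑ q ∈ S, ∑ p ∈ S.erase q, f q * s4 q p := by
      rw [← sum_add_distrib]
      refine sum_congr rfl fun q _ => ?_
      rw [← sum_add_distrib]
      exact sum_congr rfl fun p _ => by ring
    rw [h4, hswap, h2]
  unfold rowN
  rw [sum_add_distrib, h3, add_zero, mul_sum]
  exact sum_congr rfl fun q _ => by ring

/-- the class is `(1 + D) ^ s` at `lam` -/
theorem Sq_class_E (k : ZMod 4) (S : Finset Pg) (f : Pg → ZMod 2) (s : ZMod 2)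
    (h1 : ∀ q ∈ S, rowN (md k) S f q + f q * c2 q lam + s * aa q.1 = 0)
    (h2 : ∑ q ∈ S, f q * aa q.1 + s * xk k = 0) :
    Sq nuL ((gp4 S s 0 f : K) * (1 + (dk k 1 S : K)) ^ s.val) := by
  have hsum : md k * ∑ q ∈ S, f q * aa q.1 + ∑ q ∈ S, f q * bb q.1 + s * ∑ q ∈ S, aa q.1 = 0 := by
    rw [← sum_rowN, mul_sum, ← sum_add_distrib, ← sum_add_distrib]
    refine sum_eq_zero fun q hq => ?_
    rw [← h1 q hq, c2_lam]
  have h0 : ∀ x : ZMod 2, x = 0 ∨ x = 1 := by decide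
  have hone : ((1 : ZMod 2)).val = 1 := rfl
  have hP := gp4_in4 S f
  rcases h0 s with rfl | rfl
  · rw [zero_mul, add_zero] at h2
    rw [h2, mul_zero, zero_mul, zero_add, add_zero] at hsum
    rw [ZMod.val_zero, pow_zero, mul_one, gp4_zero]
    exact Sq_of_in4 hP (by rw [aa_gp4]; exact h2) (by rw [bb_gp4D]; exact hsum)
  · obtain ⟨e, z, hz, he, haz, hbz, hez⟩ := one_add_dkb k S
    rw [one_mul] at h2 hsum
    have hy := Sq_of_in4 (hP.mul hz) (by rw [aa_mul hP hz, aa_gp4, haz]; exact h2) (by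
      rw [bb_mul hP hz, bb_gp4D, hbz, ← hsum]
      have h3 : ∑ q ∈ S, f q * aa q.1 = xk k := by
        have h4 : ∀ x y : ZMod 2, x + y = 0 → x = y := by decide
        exact h4 _ _ h2
      rw [h3]
      ring)
    obtain ⟨c, hc, hc'⟩ := ipow_md e
    rw [he, hone, pow_one] at hc'
    have hcK : ((c : 𝓞 K) : K) ≠ 0 := coe_ne hc
    have h5 := Sq_mul_sqD hcK (Sq_neg iK_sq' hy)
    rw [hone, pow_one, gp4_one]
    have e1 : (1 + (dk k 1 S : K)) = ((1 + dk k 1 S : 𝓞 K) : K) := by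
      push_cast
      rfl
    rw [e1, hez, hc']
    have e2 : ((iO * ∏ q ∈ S, q.1 ^ (f q).val : 𝓞 K) : K) * ((c ^ 2 * iO * z : 𝓞 K) : K) =
        (c : K) ^ 2 * -(((∏ q ∈ S, q.1 ^ (f q).val) * z : 𝓞 K) : K) := by
      have e3 : ((c ^ 2 * iO * z : 𝓞 K) : K) = (c : K) ^ 2 * (iO : K) * (z : K) := by
        rw [coe_mul', coe_sq_mul]
        rfl
      rw [e3, coe_mul', coe_mul']
      linear_combination ((c : K) ^ 2 * ((∏ q ∈ S, q.1 ^ (f q).val : 𝓞 K) : K) * (z : K)) *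
        iK_sq'
    exact Eq.mpr (congrArg (Sq nuL) e2) h5

end

end Pool.Agent.Lib.MP_1a91b9_ntQ.C
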