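import Pool.Agent.Lib.MP_1a91b9_ntQ.C.SelQ
import Pool.Agent.Lib.MP_1a91b9_ntQ.C.RowC4
import Pool.Agent.Lib.MP_1a91b9_ntQ.C.LocC5

/-!
# MP_1a91b9_nt (`y² = x³ - δ² x`), converse of the descent: the kernel vectors are Selmer elements

`a = i ^ e ∏ q ^ V q`: the rows at the primes of `δ = i ^ k lam ^ l ∏ q` and the condition at `lam`
give all the local conditions.
-/

set_option autoImplicit false
set_option linter.unusedSectionVars false
set_option linter.unusedVariables false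

namespace Pool.Agent.Lib.MP_1a91b9_ntQ.C

open NumberField Finset WithZero IsDedekindDomain Pool.Agent.Lib.MP_1a91b9_nuT
open Pool.Agent.Lib.MP_1a91b9_ntQ
open Pool.Agent.Lib.MP_1a91b9_ntH.C (Sq exists_nu isSquare_exp nu_one)

noncomputable section

/-- the places which do not divide `2 δ` -/
theorem gloc5_good {S : Finset Pg} {k : ZMod 4} {l j l' : ZMod 2} {V : Pg → ZMod 2} {π : 𝓞 K}
    (hπ : Prime π) (h3 : ¬ π ∣ lam) (hS : ∀ q ∈ S, ¬ π ∣ q.1) :
    GLoc4 ((pv π hπ).valuation K) ((dk k l S : K) ^ 2) (gp4 S j l' V : K) := by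
  refine gloc4_good (pv π hπ) (iO : K) iK_sq' (val_four_odd hπ h3) ?_ ?_ (coe_ne (gp4_ne S j l' V))
  · rw [map_pow, pv_one hπ (not_dvd_dk hπ h3 hS k l), one_pow]
  · rw [pv_one hπ (not_dvd_gp4 hπ h3 hS _ _ _)]
    exact ⟨1, by rw [mul_one]⟩

/-- **the local conditions of the class `i ^ e ∏ q ^ V q`** -/
theorem gloc5_all {S : Finset Pg} {k : ZMod 4} {l e : ZMod 2} {V : Pg → ZMod 2}
    (hrow : ∀ q ∈ S, e * aa q.1 + row5 (md k) l S V q = 0)
    (hlam : GLoc4 nuL ((dk k l S : K) ^ 2) (gp4 S e 0 V : K)) (v : HeightOneSpectrum (𝓞 K)) :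
    GLoc4 (v.valuation K) ((dk k l S : K) ^ 2) (gp4 S e 0 V : K) := by
  obtain ⟨π, hπ, rfl⟩ := exists_pv v
  by_cases h3 : π ∣ lam
  · rw [pv_eq hπ prime_lam h3]
    exact hlam
  by_cases hq : ∃ q ∈ S, π ∣ q.1
  · obtain ⟨q, hq, hd⟩ := hq
    rw [pv_eq hπ q.prime hd]
    have h4 := val_four_odd q.prime (not_dvd_lam4 q)
    have h1v : ((1 : ZMod 2)).val = 1 := rfl
    refine conv5_bad h4.le (coe_ne (dk_ne k l S)) ?_
    -- `a δ ^ t` is a square, `t = V q`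
    obtain ⟨n, hn, h1⟩ := cl_mul_pow (S := S) (m := 1) one_ne_zero
      (a := (gp4 S e 0 V : K)) (by rw [one_pow, one_mul]) k l (V q)
    have h2 : Sq ((pv q.1 q.prime).valuation K)
        (gp4 S (e + V q * md k) (0 + V q * l) (fun p => V p + V q) : K) := by
      refine row_sq' hq ?_ ?_
      · have h5 : ∀ x : ZMod 2, x + x = 0 := by decide
        exact h5 _
      · have h6 := hrow q hq
        unfold row5 at h6
        rw [c2_lam]
        refine Eq.trans ?_ h6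
        ring
    have h3 : Sq ((pv q.1 q.prime).valuation K) ((gp4 S e 0 V : K) * (dk k l S : K) ^ (V q).val) := by
      rw [h1, mul_comm]
      exact Sq_mul_sq hn h2
    have h0 : ∀ t : ZMod 2, t = 0 ∨ t = 1 := by decide
    rcases h0 (V q) with ht | ht
    · left
      rwa [ht, ZMod.val_zero, pow_zero, mul_one] at h3
    · right
      rwa [ht, h1v, pow_one] at h3
  · push Not at hq
    exact gloc5_good hπ h3 hq

/-! ### squares -/

theorem gp4_sq {S : Finset Pg} {j l : ZMod 2} {V : Pg → ZMod 2} {m : K} (hm : m ≠ 0)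
    (h : IsSquare (m ^ 2 * (gp4 S j l V : K))) : j = 0 ∧ l = 0 ∧ ∀ q ∈ S, V q = 0 := by
  have hne : m ^ 2 * (gp4 S j l V : K) ≠ 0 := mul_ne_zero (pow_ne_zero 2 hm) (coe_ne (gp4_ne S j l V))
  obtain ⟨h1, h2, -⟩ := cl_C4 hm (C4.of_sq (Sq.of_isSquare h hne))
  refine ⟨h2, h1, fun q hq => ?_⟩
  have h3 : Sq ((pv q.1 q.prime).valuation K) (gp4 S j l V : K) := by
    refine Sq.of_mul_sq hm ?_
    rw [mul_comm]
    exact Sq.of_isSquare h hne
  exact (row_sq hq h3).1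

theorem gp4_not_sq {S : Finset Pg} {k : ZMod 4} {l e : ZMod 2} {V : Pg → ZMod 2}
    (h0 : ¬ (e = 0 ∧ ∀ q ∈ S, V q = 0)) (h1 : ¬ (e = md k ∧ l = 0 ∧ ∀ q ∈ S, V q = 1)) :
    ¬ IsSquare (gp4 S e 0 V : K) ∧ ¬ IsSquare ((gp4 S e 0 V : K) * (dk k l S : K)) := by
  have h1v : ((1 : ZMod 2)).val = 1 := rfl
  have e2 : ∀ x y : ZMod 2, x + y = 0 → x = y := by decide
  refine ⟨fun h => h0 ?_, fun h => h1 ?_⟩
  · obtain ⟨g1, -, g2⟩ := gp4_sq (S := S) (m := 1) one_ne_zero (by rwa [one_pow, one_mul])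
    exact ⟨g1, g2⟩
  · obtain ⟨n, hn, h2⟩ := cl_mul_pow (S := S) (m := 1) one_ne_zero
      (a := (gp4 S e 0 V : K)) (by rw [one_pow, one_mul]) k l 1
    rw [h1v, pow_one] at h2
    rw [h2] at h
    obtain ⟨g1, g2, g3⟩ := gp4_sq hn h
    rw [one_mul] at g1
    rw [zero_add, one_mul] at g2
    exact ⟨e2 _ _ g1, g2, fun q hq => e2 _ _ (g3 q hq)⟩

/-! ### the condition at `lam` -/

/-- `δ` a unit at `lam`: the classes with `∑ V q aa q = 0` -/
theorem lam5_C4 {S : Finset Pg} {k : ZMod 4} {V : Pg → ZMod 2} (h : ∑ q ∈ S, V q * aa q.1 = 0) :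
    GLoc4 nuL ((dk k 0 S : K) ^ 2) (gp4 S 0 0 V : K) :=
  conv5_lam iK_sq' nuL_two nuL_res (nuL_dk k S) (Or.inl (cl_C4' h))

/-- `δ` a unit at `lam`, `k` even: the classes with `∑ (V q + 1) aa q = 0` -/
theorem lam5_C4' {S : Finset Pg} {k : ZMod 4} (hk : md k = 0) {V : Pg → ZMod 2}
    (h : ∑ q ∈ S, (V q + 1) * aa q.1 = 0) :
    GLoc4 nuL ((dk k 0 S : K) ^ 2) (gp4 S 0 0 V : K) := by
  have h1v : ((1 : ZMod 2)).val = 1 := rfl
  refine conv5_lam iK_sq' nuL_two nuL_res (nuL_dk k S) (Or.inr ?_)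
  obtain ⟨n, hn, h2⟩ := cl_mul_pow (S := S) (m := 1) one_ne_zero
    (a := (gp4 S 0 0 V : K)) (by rw [one_pow, one_mul]) k 0 1
  rw [h1v, pow_one, hk, mul_zero, add_zero] at h2
  rw [h2]
  have h3 := cl_C4' (S := S) (V := fun q => V q + 1) h
  have h4 : C4 nuL ((n : K) ^ 2) := C4.of_sq (Sq_pow_two hn)
  exact h4.mul (nu_four4_le nuL_two) h3

/-! ### `δ = ± (1 + 4 e)` -/

/-- `k` even and `∑ aa q = 0`: the classes `i ∏ q ^ V q` with `∑ V q aa q = ∑ bb q` -/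
theorem lam5_X {S : Finset Pg} {k : ZMod 4} (hk : md k = 0) (hS : ∑ q ∈ S, aa q.1 = 0)
    {V : Pg → ZMod 2} (h : ∑ q ∈ S, V q * aa q.1 + ∑ q ∈ S, bb q.1 = 0) :
    GLoc4 nuL ((dk k 0 S : K) ^ 2) (gp4 S 1 0 V : K) := by
  have h1v : ((1 : ZMod 2)).val = 1 := rfl
  obtain ⟨c, d, h1, -, h3⟩ := form4 (DDq_in4 S) (by rw [aa_DDq]; exact hS)
  rw [bb_DDq] at h3
  obtain ⟨β, hβ⟩ : ∃ β : ZMod 2, β = ((c + d : ℤ) : ZMod 2) := ⟨_, rfl⟩
  rw [h3, ← hβ] at h
  obtain ⟨n, hn⟩ := digit2 (c + d)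
  rw [← hβ] at hn
  -- `δ = ± (1 + 4 e)`
  obtain ⟨μ, hμ, hδ⟩ : ∃ μ : K, (μ = 1 ∨ μ = -1) ∧
      (dk k 0 S : K) = μ * (1 + 4 * ((c : K) + (d : K) * (iO : K))) := by
    have hk2 : ∀ k : ZMod 4, md k = 0 → k = 0 ∨ k = 2 := by decide
    rcases hk2 k hk with rfl | rfl
    · refine ⟨1, Or.inl rfl, ?_⟩
      have e : dk 0 0 S = 1 * (1 + 4 * ((c : 𝓞 K) + (d : 𝓞 K) * iO)) := by
        rw [dk_zero, h1]
        show iO ^ 0 * _ = _
        rw [pow_zero]
      rw [e]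
      push_cast
      rfl
    · refine ⟨-1, Or.inr rfl, ?_⟩
      have e : dk 2 0 S = -1 * (1 + 4 * ((c : 𝓞 K) + (d : 𝓞 K) * iO)) := by
        rw [dk_zero, h1]
        show iO ^ 2 * _ = _
        rw [iO_sq]
      rw [e]
      push_cast
      rfl
  have hint : ∀ c : ℤ, nuL (c : K) ≤ 1 := by
    intro c
    exact nuL_O (c : 𝓞 K)
  have he : nuL ((c : K) + (d : K) * (iO : K)) ≤ 1 :=
    nu_add_le (hint c) (nu_mul_le (hint d) nuL_i.le)
  have he' : nuL ((β.val : K)) ≤ 1 := nu_natCast_le' _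
  have hee : nuL ((c : K) + (d : K) * (iO : K) + (β.val : K)) < 1 := by
    have e : (c : K) + (d : K) * (iO : K) + (β.val : K) =
        (lam : K) * ((d : K) * (iO : K)) + 2 * ((β.val : K) + (n : K)) := by
      have hn' : (c : K) + (d : K) = (β.val : K) + 2 * (n : K) := by
        have := congrArg (Int.cast (R := K)) hn
        push_cast at this
        exact this
      rw [lam_coe]
      linear_combination hn' - (d : K) * iK_sq'
    rw [e]
    refine nuL.map_add_lt ?_ ?_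
    · rw [map_mul, nuL_lam]
      calc exp (-1) * nuL ((d : K) * (iO : K)) ≤ exp (-1) * 1 := by
            gcongr
            exact nu_mul_le (hint d) nuL_i.le
        _ < 1 := by
          rw [mul_one, ← exp_zero, exp_lt_exp]
          norm_num
    · rw [map_mul, nuL_two]
      calc exp (-2) * nuL ((β.val : K) + (n : K)) ≤ exp (-2) * 1 := by
            gcongr
            exact nu_add_le he' (hint n)
        _ < 1 := by
          rw [mul_one, ← exp_zero, exp_lt_exp]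
          norm_num
  obtain ⟨z, hz⟩ : ∃ z : 𝓞 K, z = 1 + lam ^ 3 * (β.val : 𝓞 K) := ⟨_, rfl⟩
  have hz4 : In4 z := ⟨(β.val : 𝓞 K), by rw [hz]; ring⟩
  have haz : aa z = β := by
    have h5 := aa_form (β.val : ℤ) 0
    have e : (1 + lam ^ 3 * ((((β.val : ℕ) : ℤ) : 𝓞 K4) + ((0 : ℤ) : 𝓞 K4) * iO)) = z := by
      rw [hz]
      push_cast
      ring
    rw [e] at h5
    rw [h5]
    push_cast
    rw [add_zero, ZMod.natCast_val, ZMod.cast_id]
  refine conv5_X iK_sq' nuL_two nuL_res hμ he he' hee hδ (Or.inr ?_)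
  -- `a w = - ∏ q ^ V q z`
  have e : ((gp4 S 1 0 V : 𝓞 K) : K) * ((iO : K) ^ 1 * (1 + (1 + (iO : K)) ^ 3 * (β.val : K))) =
      -(((∏ q ∈ S, q.1 ^ (V q).val) * z : 𝓞 K) : K) := by
    have e1 : gp4 S 1 0 V * (iO ^ 1 * (1 + (1 + iO) ^ 3 * (β.val : 𝓞 K))) =
        -((∏ q ∈ S, q.1 ^ (V q).val) * z) := by
      unfold gp4
      rw [h1v, ZMod.val_zero, pow_one, pow_zero, mul_one, hz]
      obtain ⟨P, hP⟩ : ∃ P : 𝓞 K, P = ∏ q ∈ S, q.1 ^ (V q).val := ⟨_, rfl⟩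
      rw [← hP]
      have hl : lam = 1 + iO := rfl
      rw [hl]
      linear_combination (P * (1 + (1 + iO) ^ 3 * (β.val : 𝓞 K))) * iO_sq
    have e2 := congrArg (fun x : 𝓞 K => (x : K)) e1
    push_cast at e2
    push_cast
    exact e2
  rw [e]
  refine C4.neg iK_sq' ?_
  rw [neg_neg]
  refine C4_in4_row ((gp4_in4 S V).mul hz4) ?_
  rw [aa_mul (gp4_in4 S V) hz4, aa_gp4, haz]
  exact h

/-! ### `lam` divides `δ` -/

theorem bb_gp4 (S : Finset Pg) (V : Pg → ZMod 2) :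
    bb (∏ q ∈ S, q.1 ^ (V q).val) = ∑ q ∈ S, V q * bb q.1 := by
  classical
  induction S using Finset.induction_on with
  | empty => exact bb_one
  | insert q S hq ih =>
    rw [prod_insert hq, sum_insert hq, ← ih, bb_mul _ (gp4_in4 S V)]
    · congr 1
      have h0 : ∀ e : ZMod 2, e = 0 ∨ e = 1 := by decide
      rcases h0 (V q) with h | h
      · rw [h, ZMod.val_zero, pow_zero, bb_one, zero_mul]
      · rw [h]
        show bb (q.1 ^ 1) = _
        rw [pow_one, one_mul]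
    · have h := gp4_in4 {q} V
      rwa [prod_singleton] at h

/-- the condition at `lam` when `lam ∣ δ` -/
theorem lam5_one {S : Finset Pg} {k : ZMod 4} {V : Pg → ZMod 2}
    (h : ∑ q ∈ S, V q * (md k * aa q.1 + bb q.1) = 0) :
    GLoc4 nuL ((dk k 1 S : K) ^ 2) (gp4 S 0 0 V : K) := by
  have h1v : ((1 : ZMod 2)).val = 1 := rfl
  have h01 : ∀ t : ZMod 2, t = 0 ∨ t = 1 := by decide
  have hy : gp4 S 0 0 V = ∏ q ∈ S, q.1 ^ (V q).val := by
    unfold gp4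
    rw [ZMod.val_zero, pow_zero, pow_zero, one_mul, one_mul]
  have hc : md k * aa (gp4 S 0 0 V) + bb (gp4 S 0 0 V) = 0 := by
    rw [hy, aa_gp4, bb_gp4, mul_sum, ← sum_add_distrib, ← h]
    refine sum_congr rfl fun q _ => ?_
    ring
  have hy4 : In4 (gp4 S 0 0 V) := by
    rw [hy]
    exact gp4_in4 S V
  obtain ⟨y, hyd⟩ : ∃ y : 𝓞 K, y = gp4 S 0 0 V := ⟨_, rfl⟩
  rw [← hyd] at hc hy4 ⊢
  obtain ⟨m, n, hmn⟩ := in4_form hy4
  rw [hmn, aa_form, bb_form] at hc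
  have hl : lam = 1 + iO := rfl
  -- `1 + 4 lam t` is a square
  have sq4 : ∀ t : 𝓞 K, Sq nuL ((1 + 4 * (lam * t) : 𝓞 K) : K) := by
    intro t
    have h5 := Sq_four_lam iK_sq' nuL_two (μ := (1 : K)) (Or.inl rfl) (nuL_O t)
    have e : ((1 + 4 * (lam * t) : 𝓞 K) : K) = 1 * (1 + 4 * ((1 + (iO : K)) * (t : K))) := by
      rw [one_mul, ← lam_coe]
      push_cast
      rfl
    rw [e]
    exact h5
  obtain ⟨s, hs⟩ : ∃ s : 𝓞 K, DDq S = 1 + lam ^ 3 * s := by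
    obtain ⟨s, hs⟩ := DDq_in4 S
    exact ⟨s, by linear_combination hs⟩
  rcases h01 ((m : ZMod 2) + (n : ZMod 2)) with hα | hα
  · -- `y` is a square
    rw [hα, mul_zero, zero_add] at hc
    have hm0 : (m : ZMod 2) = 0 := by rwa [hc, add_zero] at hα
    obtain ⟨m', hm'⟩ := (ZMod.intCast_zmod_eq_zero_iff_dvd _ 2).1 hm0
    obtain ⟨n', hn'⟩ := (ZMod.intCast_zmod_eq_zero_iff_dvd _ 2).1 hc
    left
    have e : y = 1 + 4 * (lam * (iO * ((m' : 𝓞 K) + (n' : 𝓞 K) * iO))) := by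
      rw [hmn, hm', hn', hl]
      push_cast
      linear_combination (2 * ((m' : 𝓞 K) + (n' : 𝓞 K) * iO) * (iO + 1)) * iO_sq
    rw [e]
    exact sq4 _
  · rw [hα, mul_one] at hc
    rcases h01 (md k) with hk | hk
    · -- `k` even
      rw [hk, zero_add] at hc
      have hm1 : (m : ZMod 2) = 1 := by rwa [hc, add_zero] at hα
      obtain ⟨m', hm'⟩ : ∃ m' : ℤ, m + 1 = 2 * m' := by
        have h5 : ((m + 1 : ℤ) : ZMod 2) = 0 := by
          push_cast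
          rw [hm1]
          rfl
        exact (ZMod.intCast_zmod_eq_zero_iff_dvd _ 2).1 h5
      obtain ⟨n', hn'⟩ := (ZMod.intCast_zmod_eq_zero_iff_dvd _ 2).1 hc
      have hm2 : (m : 𝓞 K) +
        1 = 2 * (m' : 𝓞 K) := by exact_mod_cast congrArg (Int.cast (R := 𝓞 K)) hm'
      have hn2 : (n : 𝓞 K) = 2 * (n' : 𝓞 K) := by exact_mod_cast congrArg (Int.cast (R := 𝓞 K)) hn'
      have hsq : Sq nuL ((y : K) * (1 + (1 + (iO : K)) ^ 3)) := by
        have e : y * (1 + (1 + iO) ^ 3) = 1 + 4 * (lam * (iO * ((m' : 𝓞 K) + (n' : 𝓞 K) * iO) -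
            lam * ((m : 𝓞 K) + (n : 𝓞 K) * iO))) := by
          rw [hmn, hl]
          linear_combination (iO ^ 5 * (n : 𝓞 K) + iO ^ 4 * (m : 𝓞 K) + 6 * iO ^ 4 * (n : 𝓞 K) +
            6 * iO ^ 3 * (m : 𝓞 K) + 14 * iO ^ 3 * (n : 𝓞 K) + 14 * iO ^ 2 * (m : 𝓞 K) +
            14 * iO ^ 2 * (n : 𝓞 K) + 2 * iO ^ 2 * (n' : 𝓞 K) + 14 * iO * (m : 𝓞 K) +
            2 * iO * (m' : 𝓞 K) + 5 * iO * (n : 𝓞 K) + 2 * iO * (n' : 𝓞 K) + 5 * (m : 𝓞 K) +
            2 * (m' : 𝓞 K)) * iO_sq + (1 + iO) ^ 3 * hm2 + (1 + iO) ^ 3 * iO * hn2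
        have e2 := sq4 (iO * ((m' : 𝓞 K) + (n' : 𝓞 K) * iO) - lam * ((m : 𝓞 K) + (n : 𝓞 K) * iO))
        rw [← e] at e2
        push_cast at e2
        exact e2
      obtain ⟨μ, hμ, hδ⟩ : ∃ μ : K, (μ = 1 ∨ μ = -1) ∧
          (dk k 1 S : K) = μ * ((1 + (iO : K)) * (1 + (1 + (iO : K)) ^ 3 * (s : K))) := by
        have hk2 : ∀ k : ZMod 4, md k = 0 → k = 0 ∨ k = 2 := by decide
        rcases hk2 k hk with rfl | rfl
        · refine ⟨1, Or.inl rfl, ?_⟩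
          have e : dk 0 1 S = 1 * ((1 + iO) * (1 + (1 + iO) ^ 3 * s)) := by
            unfold dk
            rw [hs, h1v, pow_one, hl]
            show iO ^ 0 * _ * _ = _
            ring
          rw [e]
          push_cast
          rfl
        · refine ⟨-1, Or.inr rfl, ?_⟩
          have e : dk 2 1 S = -1 * ((1 + iO) * (1 + (1 + iO) ^ 3 * s)) := by
            unfold dk
            rw [hs, h1v, pow_one, hl]
            show iO ^ 2 * _ * _ = _
            rw [iO_sq]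
            ring
          rw [e]
          push_cast
          rfl
      exact conv5_even iK_sq' nuL_two hμ (nuL_O s) hδ hsq
    · -- `k` odd
      rw [hk] at hc
      have hn1 : (n : ZMod 2) = 1 := by
        have h5 : ∀ x : ZMod 2, 1 + x = 0 → x = 1 := by decide
        exact h5 _ hc
      have hm0 : (m : ZMod 2) = 0 := by
        have h5 : ∀ x : ZMod 2, x + 1 = 1 → x = 0 := by decide
        rw [hn1] at hα
        exact h5 _ hα
      obtain ⟨m', hm'⟩ := (ZMod.intCast_zmod_eq_zero_iff_dvd _ 2).1 hm0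
      obtain ⟨n', hn'⟩ : ∃ n' : ℤ, n + 1 = 2 * n' := by
        have h5 : ((n + 1 : ℤ) : ZMod 2) = 0 := by
          push_cast
          rw [hn1]
          rfl
        exact (ZMod.intCast_zmod_eq_zero_iff_dvd _ 2).1 h5
      have hm2 : (m : 𝓞 K) = 2 * (m' : 𝓞 K) := by exact_mod_cast congrArg (Int.cast (R := 𝓞 K)) hm'
      have hn2 : (n : 𝓞 K) +
        1 = 2 * (n' : 𝓞 K) := by exact_mod_cast congrArg (Int.cast (R := 𝓞 K)) hn'
      have hsq : Sq nuL ((y : K) * (1 + (1 + (iO : K)) ^ 3 * (iO : K))) := by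
        have e : y * (1 + (1 + iO) ^ 3 * iO) = 1 + 4 * (lam * (iO * ((m' : 𝓞 K) + (n' : 𝓞 K) * iO) -
            lam * (iO * ((m : 𝓞 K) + (n : 𝓞 K) * iO)))) := by
          rw [hmn, hl]
          linear_combination (iO ^ 6 * (n : 𝓞 K) + iO ^ 5 * (m : 𝓞 K) + 6 * iO ^ 5 * (n : 𝓞 K) +
            6 * iO ^ 4 * (m : 𝓞 K) + 14 * iO ^ 4 * (n : 𝓞 K) + 14 * iO ^ 3 * (m : 𝓞 K) +
            14 * iO ^ 3 * (n : 𝓞 K) + 14 * iO ^ 2 * (m : 𝓞 K) + 5 * iO ^ 2 * (n : 𝓞 K) +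
            2 * iO ^ 2 * (n' : 𝓞 K) + 5 * iO * (m : 𝓞 K) + 2 * iO * (m' : 𝓞 K) +
            2 * iO * (n' : 𝓞 K) + 2 * (m' : 𝓞 K)) * iO_sq + (1 + iO) ^ 3 * hm2 + (1 +
            iO) ^ 3 * iO * hn2
        have e2 := sq4 (iO * ((m' : 𝓞 K) + (n' : 𝓞 K) * iO) -
          lam * (iO * ((m : 𝓞 K) + (n : 𝓞 K) * iO)))
        rw [← e] at e2
        push_cast at e2
        exact e2
      obtain ⟨μ, hμ, hδ⟩ : ∃ μ : K, (μ = 1 ∨ μ = -1) ∧ (dk k 1 S : K) =
          μ * ((iO : K) * ((1 + (iO : K)) * (1 + (1 + (iO : K)) ^ 3 * (s : K)))) := by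
        have hk2 : ∀ k : ZMod 4, md k = 1 → k = 1 ∨ k = 3 := by decide
        rcases hk2 k hk with rfl | rfl
        · refine ⟨1, Or.inl rfl, ?_⟩
          have e : dk 1 1 S = 1 * (iO * ((1 + iO) * (1 + (1 + iO) ^ 3 * s))) := by
            unfold dk
            rw [hs, h1v, pow_one, hl]
            show iO ^ 1 * _ * _ = _
            ring
          rw [e]
          push_cast
          rfl
        · refine ⟨-1, Or.inr rfl, ?_⟩
          have e : dk 3 1 S = -1 * (iO * ((1 + iO) * (1 + (1 + iO) ^ 3 * s))) := by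
            unfold dk
            rw [hs, h1v, pow_one, hl]
            show iO ^ 3 * _ * _ = _
            linear_combination (iO * (1 + iO) * (1 + (1 + iO) ^ 3 * s)) * iO_sq
          rw [e]
          push_cast
          rfl
      exact conv5_odd iK_sq' nuL_two hμ (nuL_O s) hδ hsq

end

end Pool.Agent.Lib.MP_1a91b9_ntQ.C
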