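import Pool.Agent.Lib.MP_1a91b9_ntQ.C.PtsG
import Pool.Agent.Lib.MP_1a91b9_ntQ.C.Pts5
import Pool.Agent.Lib.MP_1a91b9_ntQ.C.Prim5

/-!
# MP_1a91b9_nt (quartic twists), part C: the Selmer elements for every squarefree `D` whose matrix is
good, without exception, and the curves `y² = x³ - x`, `y² = x³ + x`
-/

set_option autoImplicit false

namespace Pool.Agent.Lib.MP_1a91b9_ntQ.C

open NumberField Finset WeierstrassCurve Pool.Agent.Lib.MP_1a91b9_nuT
open Pool.Agent.Lib.MP_1a91b9_ntQ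
open Pool.Agent.Lib.MP_1a91b9_ntK (NM)
open Pool.Agent.Lib.MP_1a91b9_ntT3.S9 (ShaP)
open scoped Classical

noncomputable section

/-- **the Selmer elements**, all squarefree `D = i ^ k lam ^ j ∏ q` -/
theorem sel4_all (k : ZMod 4) (j : Fin 2) (S : Finset Pg) (hG : Gd4 k j S) {D : 𝓞 K4}
    (hD : D = iO ^ k.val * lam ^ (j : ℕ) * DDq S) : SelCl4 (D : K4) := by
  obtain ⟨g1, g2, g3, g4, g5, g6⟩ := hG
  have hj : ∀ j : Fin 2, j = 0 ∨ j = 1 := by decide
  rcases hj j with rfl | rfl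
  · have hD' : D = dk k 0 S := hD
    subst hD'
    have h01 : ∀ t : ZMod 2, t = 0 ∨ t = 1 := by decide
    rcases h01 (md k) with hk | hk
    · rcases h01 (∑ q ∈ S, aa q.1) with hA | hA
      · have hk2 : ∀ k : ZMod 4, md k = 0 → k = 2 ∨ k = 0 := by decide
        rcases hk2 k hk with rfl | rfl
        · exact sel4_X1 S hA fun f s h3 h4 =>
            Bker_of_ker (a := fun q => aa q.1) (g4 rfl rfl hA).2 f s h3 h4
        · rcases h01 (hf4 (∑ q ∈ S, nn q.1) + ∑ q ∈ S, bb q.1) with hc | hc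
          · exact sel4_X3 S hA hc fun f s h3 h4 =>
              Bker_of_ker (a := fun q => aa q.1) (g6 rfl rfl hA hc).2 f s h3 h4
          · refine sel4_X2 S hA hc fun f hf => ker_of_ker4 (κ := 0) (fun q _ => rfl)
              (fun v hv => ?_) f hf
            rw [← N4_eq] at hv
            exact (g5 rfl rfl hA hc).2 v hv
      · refine sel4_II k S hk hA fun f hf => ker_of_ker4 (κ := 0) (fun q _ => rfl)
          (fun v hv => ?_) f hf
        rw [← N4_eq] at hv
        exact (g3 rfl hk hA).2 v hv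
    · refine sel4_I k S hk fun f hf => ker_of_det4 (c := 1) (κ := fun q => aa q.1)
        (fun q _ => by rw [one_mul]) ?_ f hf
      rw [← N4_eq]
      exact g2 rfl hk
  · have hD' : D = dk k 1 S := hD
    subst hD'
    refine sel4_IV k S fun f s h3 h4 =>
      Bker_of_det (c := md k) (l := fun q => c2 q lam) (a := fun q => aa q.1) (x := xk k)
        (κ := fun q => md k * aa q.1 + bb q.1) (fun q _ => by rw [c2_lam]) ?_ f s h3 h4
    exact g1 rfl

/-- **the points and the Tate-Shafarevich group**, all squarefree `D = i ^ k lam ^ j ∏ q` whose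
matrix is good, without exception -/
theorem fin4_all (k : ZMod 4) (j : Fin 2) (S : Finset Pg) (hG : Gd4 k j S) {D : 𝓞 K4}
    (hD : D = iO ^ k.val * lam ^ (j : ℕ) * DDq S) {W : WeierstrassCurve K4}
    (hW : W = cq (D : K4)) : Finite W.toAffine.Point ∧ Nat.card (ShaP 2 W) = 1 := by
  have hD0 : D ≠ 0 := by
    rw [hD]
    exact mul_ne_zero (mul_ne_zero (pow_ne_zero _ isUnit_iO.ne_zero)
      (pow_ne_zero _ lam_ne_zero)) (DDq_in4 S).ne_zero
  have hd : (D : K4) ≠ 0 := fun h0 => hD0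
    ((map_eq_zero_iff (algebraMap (𝓞 K4) K4) (FaithfulSMul.algebraMap_injective _ _)).1 h0)
  obtain ⟨h1, -, h2⟩ := of_selCl4 hd iK_sq (sel4_all k j S hG hD) hW
  exact ⟨h1, h2⟩

/-- **the curve `y² = x³ + x`** -/
theorem mone5 {W : WeierstrassCurve K4} (hW : W = cq (-1)) :
    Finite W.toAffine.Point ∧
      Nat.card (AddCommGroup.primaryComponent W.toAffine.Point 2) = 4 ∧
      Nat.card (ShaP 2 W) = 1 := by
  have hW' : W = cq ((iO : K4) ^ 2) := by
    rw [hW, c_iO, iK_sq]
  have hG : Gd5 1 0 ∅ := by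
    refine ⟨fun _ => ?_, fun h => absurd h (by decide), fun h => absurd h (by decide)⟩
    rw [Matrix.det_isEmpty]
    exact one_ne_zero
  have h1v : ((1 : ZMod 4)).val = 1 := rfl
  obtain ⟨h1, -, h2, -⟩ := pts5_all 1 0 ∅ hG (δ := iO) (by
    rw [DDq_empty, h1v, pow_one, mul_one]
    change iO = iO * lam ^ 0
    rw [pow_zero, mul_one]) hW'
  refine ⟨h1, card_prim5 iO_unit.squarefree ?_ ?_ hW', h2⟩
  · intro h
    have h3 : (iO : 𝓞 K4) ^ 2 = 1 := by rw [h, one_pow]
    rw [iO_sq] at h3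
    have h4 : (2 : 𝓞 K4) = 0 := by linear_combination -h3
    exact two_ne_zero h4
  · intro h
    have h3 : (iO : 𝓞 K4) ^ 2 = 1 := by rw [h, neg_one_sq]
    rw [iO_sq] at h3
    have h4 : (2 : 𝓞 K4) = 0 := by linear_combination -h3
    exact two_ne_zero h4

end

end Pool.Agent.Lib.MP_1a91b9_ntQ.C
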