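import Pool.Agent.Lib.MP_1a91b9_ntQ.C.Sel4

/-!
# MP_1a91b9_nt (TwistDensity), quartic twists, part C: the Selmer elements when `lam` divides `D`
-/

set_option autoImplicit false
set_option linter.unusedSectionVars false
set_option linter.unusedVariables false

namespace Pool.Agent.Lib.MP_1a91b9_ntQ.C

open NumberField Finset WithZero IsDedekindDomain Pool.Agent.Lib.MP_1a91b9_nuT
open Pool.Agent.Lib.MP_1a91b9_ntQ
open Pool.Agent.Lib.MP_1a91b9_ntH.C (Sq exists_nu isSquare_exp nu_one)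

noncomputable section

/-- the last diagonal element of the bordered matrix -/
def xk (k : ZMod 4) : ZMod 2 := if k = 0 ∨ k = 3 then 1 else 0

theorem in4_z0 : In4 (-1 + 2 * iO) ∧ aa (-1 + 2 * iO) = 1 := by
  have e : (-1 + 2 * iO : 𝓞 K4) = 1 + lam ^ 3 * (((1 : ℤ) : 𝓞 K4) + ((0 : ℤ) : 𝓞 K4) * iO) := by
    rw [lam_cube]
    push_cast
    ring
  refine ⟨?_, ?_⟩
  · rw [e]
    exact in4_of 1 0
  · rw [e, aa_form]
    decide

theorem in4_z3 : In4 (-1 - 2 * iO) ∧ aa (-1 - 2 * iO) = 1 := by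
  have e : (-1 - 2 * iO : 𝓞 K4) = 1 + lam ^ 3 * (((0 : ℤ) : 𝓞 K4) + ((1 : ℤ) : 𝓞 K4) * iO) := by
    rw [lam_cube]
    push_cast
    linear_combination (-2 : 𝓞 K4) * iO_sq
  refine ⟨?_, ?_⟩
  · rw [e]
    exact in4_of 0 1
  · rw [e, aa_form]
    decide

/-- `1 + i ^ k lam` -/
theorem one_add_k (k : ZMod 4) : ∃ (e : ZMod 4) (z0 : 𝓞 K4), In4 z0 ∧ md e = 1 ∧ aa z0 = xk k ∧
    1 + iO ^ k.val * lam = iO ^ e.val * z0 := by
  have h0 : ∀ k : ZMod 4, k = 0 ∨ k = 1 ∨ k = 2 ∨ k = 3 := by decide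
  have hl : lam = 1 + iO := rfl
  rcases h0 k with rfl | rfl | rfl | rfl
  · refine ⟨3, -1 + 2 * iO, in4_z0.1, by decide, by rw [in4_z0.2]; decide, ?_⟩
    show 1 + iO ^ 0 * lam = iO ^ 3 * (-1 + 2 * iO)
    rw [hl]
    linear_combination (iO - 2 * iO ^ 2 + 2) * iO_sq
  · refine ⟨1, 1, in4_one, by decide, by rw [aa_one]; decide, ?_⟩
    show 1 + iO ^ 1 * lam = iO ^ 1 * 1
    rw [hl]
    linear_combination iO_sq
  · refine ⟨3, 1, in4_one, by decide, by rw [aa_one]; decide, ?_⟩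
    show 1 + iO ^ 2 * lam = iO ^ 3 * 1
    rw [hl]
    linear_combination iO_sq
  · refine ⟨1, -1 - 2 * iO, in4_z3.1, by decide, by rw [in4_z3.2]; decide, ?_⟩
    show 1 + iO ^ 3 * lam = iO ^ 1 * (-1 - 2 * iO)
    rw [hl]
    linear_combination (iO ^ 2 + iO + 1) * iO_sq

/-- `1 + D` for `D = i ^ k lam ∏ q` -/
theorem one_add_dk (k : ZMod 4) (S : Finset Pg) : ∃ (e : ZMod 4) (z : 𝓞 K), In4 z ∧ md e = 1 ∧
    aa z = xk k ∧ 1 + dk k 1 S = iO ^ e.val * z := by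
  obtain ⟨e, z0, hz0, he, ha, h1⟩ := one_add_k k
  obtain ⟨w, hw⟩ := DDq_in4 S
  -- `1 + D = i ^ e z0 + i ^ k lam (DD - 1)`
  have h2 : iO ^ e.val * iO ^ (-e).val = 1 := by
    rw [pow_val_mul, add_neg_cancel, ZMod.val_zero, pow_zero]
  obtain ⟨z, hz⟩ : ∃ z : 𝓞 K, z = z0 + iO ^ (-e).val * iO ^ k.val * lam ^ 4 * w := ⟨_, rfl⟩
  have h5 : lam ^ 4 ∣ z - z0 := ⟨iO ^ (-e).val * iO ^ k.val * w, by rw [hz]; ring⟩
  have h6 : lam ^ 3 ∣ z - z0 := (pow_dvd_pow lam (by norm_num)).trans h5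
  have h7 : lam ^ 4 ∣ z0 - z := by
    rw [← neg_sub]
    exact h5.neg_right
  refine ⟨e, z, (in4_congr h6).2 hz0, he, ?_, ?_⟩
  · rw [← ha]
    exact (aa_congr hz0 h7).symm
  · have h3 : ((1 : ZMod 2)).val = 1 := rfl
    have e4 : DDq S = 1 + lam ^ 3 * w := by linear_combination hw
    unfold dk
    rw [h3, pow_one, e4, hz]
    linear_combination h1 - (iO ^ k.val * lam ^ 4 * w) * h2

theorem nuL_dk1 (k : ZMod 4) (S : Finset Pg) : nuL (dk k 1 S : K) = exp (-1) := by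
  have h3 : ((1 : ZMod 2)).val = 1 := rfl
  have e : (dk k 1 S : K) = (lam : K) * (dk k 0 S : K) := by
    have e1 : dk k 1 S = lam * dk k 0 S := by
      rw [dk_zero]
      unfold dk
      rw [h3, pow_one]
      ring
    rw [e1]
    push_cast
    rfl
  rw [e, map_mul, nuL_lam, nuL_dk, mul_one]

theorem coe_mul' (x y : 𝓞 K) : ((x * y : 𝓞 K) : K) = (x : K) * (y : K) :=
  map_mul (algebraMap (𝓞 K) K) x y

theorem coe_sq_mul (x y : 𝓞 K) : ((x ^ 2 * y : 𝓞 K) : K) = (x : K) ^ 2 * (y : K) := by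
  rw [coe_mul']
  congr 1

/-- `C4` of a class times `i ^ e z` -/
theorem cl_C4_mul {S : Finset Pg} {j l : ZMod 2} {V : Pg → ZMod 2} {m : K} (hm : m ≠ 0) {z : 𝓞 K}
    (hz : In4 z) {c : 𝓞 K} (hc : c ≠ 0) {u : 𝓞 K} {f : ZMod 2} (hu : u = c ^ 2 * (iO ^ f.val * z))
    (h : C4 nuL (m ^ 2 * (gp4 S j l V : K) * (u : K))) :
    l = 0 ∧ j + f = 0 ∧ ∑ q ∈ S, V q * aa q.1 + aa z = 0 := by
  have h4 := nu_four4_le nuL_two
  obtain ⟨b, hb, hb'⟩ := pow_val_add isUnit_iO.ne_zero j f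
  obtain ⟨P, hP⟩ : ∃ P : 𝓞 K, P = ∏ q ∈ S, q.1 ^ (V q).val := ⟨_, rfl⟩
  have hP4 : In4 P := by
    rw [hP]
    exact gp4_in4 S V
  have hg0 : gp4 S j 0 V = iO ^ j.val * P := by
    rw [hP]
    unfold gp4
    rw [ZMod.val_zero, pow_zero, mul_one]
  -- the class times `u`
  have e1 : gp4 S j l V * u = (c * b) ^ 2 * (lam ^ l.val * (iO ^ (j + f).val * (P * z))) := by
    rw [gp4_lam, hg0, hu]
    linear_combination (lam ^ l.val * P * c ^ 2 * z) * hb'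
  have h' : C4 nuL ((lam ^ l.val * (iO ^ (j + f).val * (P * z)) : 𝓞 K) : K) := by
    have hcb : ((c * b : 𝓞 K) : K) ≠ 0 := coe_ne (mul_ne_zero hc hb)
    refine C4.of_mul_sq (mul_ne_zero hm hcb) ?_
    have e2 : ((lam ^ l.val * (iO ^ (j + f).val * (P * z)) : 𝓞 K) : K) *
        (m * ((c * b : 𝓞 K) : K)) ^ 2 = m ^ 2 * (gp4 S j l V : K) * (u : K) := by
      have e3 : (gp4 S j l V : K) * (u : K) = ((gp4 S j l V * u : 𝓞 K) : K) := by
        push_cast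
        rfl
      have e4 : (((c * b) ^ 2 * (lam ^ l.val * (iO ^ (j + f).val * (P * z))) : 𝓞 K) : K) =
          ((c * b : 𝓞 K) : K) ^ 2 * ((lam ^ l.val * (iO ^ (j + f).val * (P * z)) : 𝓞 K) : K) :=
        coe_sq_mul _ _
      rw [mul_assoc (m ^ 2), e3, e1, e4]
      ring
    rwa [e2]
  have hPz := hP4.mul hz
  have hodd : ¬ lam ∣ iO ^ (j + f).val * (P * z) := by
    intro hd
    rcases prime_lam.dvd_or_dvd hd with h2 | h1
    · exact not_dvd_of_unit prime_lam (isUnit_iO.pow _) h2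
    · exact hPz.not_lam h1
  have hl : l = 0 := by
    by_contra hl
    have h0 : ∀ e : ZMod 2, e ≠ 0 → e = 1 := by decide
    have h1 : ((1 : ZMod 2)).val = 1 := rfl
    have h2 := h'.even h4
    have e : ((lam ^ l.val * (iO ^ (j + f).val * (P * z)) : 𝓞 K) : K) =
        (lam : K) * ((iO ^ (j + f).val * (P * z) : 𝓞 K) : K) := by
      rw [h0 l hl, h1, pow_one]
      exact coe_mul' _ _
    rw [e, map_mul, nuL_lam] at h2
    have h3 : nuL ((iO ^ (j + f).val * (P * z) : 𝓞 K) : K) = 1 := pv_one prime_lam hodd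
    rw [h3, mul_one] at h2
    exact absurd (exp_odd h2) (by decide)
  subst hl
  rw [ZMod.val_zero, pow_zero, one_mul] at h'
  obtain ⟨h5, h6⟩ := C4_in4 hPz h'
  refine ⟨rfl, h5, ?_⟩
  rw [aa_mul hP4 hz, hP, aa_gp4] at h6
  exact h6

theorem ipow_md (e : ZMod 4) : ∃ c : 𝓞 K, c ≠ 0 ∧ iO ^ e.val = c ^ 2 * iO ^ (md e).val := by
  have h2 : ∀ k : ZMod 4, k.val = 2 * (k.val / 2) + (md k).val := by decide
  refine ⟨iO ^ (e.val / 2), pow_ne_zero _ isUnit_iO.ne_zero, ?_⟩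
  conv_lhs => rw [h2 e, pow_add, mul_comm 2, pow_mul]

/-- **The Selmer elements when `lam` divides `D`**: `D = i ^ k lam ∏ q`, and the bordered matrix is
nonsingular. -/
theorem sel4_IV (k : ZMod 4) (S : Finset Pg)
    (hker : ∀ (f : Pg → ZMod 2) (s : ZMod 2),
      (∀ q ∈ S, rowN (md k) S f q + f q * c2 q lam + s * aa q.1 = 0) →
      ∑ q ∈ S, f q * aa q.1 + s * xk k = 0 → (∀ q ∈ S, f q = 0) ∧ s = 0) :
    SelCl4 (dk k 1 S : K) := by
  intro a ha h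
  obtain ⟨j, l', V, m, hm, hma⟩ := sel_cl ha h
  have h4 := nu_four4_le nuL_two
  have e2 : ∀ x y : ZMod 2, x + y = 0 → x = y := by decide
  have h0 : ∀ x : ZMod 2, x = 0 ∨ x = 1 := by decide
  -- the place `lam`
  obtain ⟨t, s, hts⟩ : ∃ t s : ZMod 2,
      C4 nuL (a * (dk k 1 S : K) ^ t.val * (1 + (dk k 1 S : K)) ^ s.val) := by
    obtain ⟨t, s, ht, hs, h1⟩ := loc4_one iK_sq' nuL_two nuL_res (nuL_dk1 k S)
      (h (pv lam prime_lam))
    refine ⟨(t : ZMod 2), (s : ZMod 2), ?_⟩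
    have e3 : ((t : ZMod 2)).val = t := ZMod.val_cast_of_lt ht
    have e4 : ((s : ZMod 2)).val = s := ZMod.val_cast_of_lt hs
    rw [e3, e4]
    exact C4.of_sq h1
  obtain ⟨n, hn, h1⟩ := cl_mul_pow (S := S) hm hma k 1 t
  rw [h1] at hts
  obtain ⟨e, z, hz, he, haz, hez⟩ := one_add_dk k S
  have hkey : l' + t * 1 = 0 ∧ j + t * md k + s = 0 ∧
      ∑ q ∈ S, (V q + t) * aa q.1 + s * xk k = 0 := by
    rcases h0 s with hs | hs
    · rw [hs, ZMod.val_zero, pow_zero, mul_one] at hts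
      obtain ⟨g1, g2, g3⟩ := cl_C4 hn hts
      refine ⟨g1, ?_, ?_⟩
      · rw [hs, add_zero]
        exact g2
      · rw [hs, zero_mul, add_zero]
        exact g3
    · have h11 : ((1 : ZMod 2)).val = 1 := rfl
      have e5 : (1 + (dk k 1 S : K)) ^ (1 : ZMod 2).val = ((1 + dk k 1 S : 𝓞 K) : K) := by
        rw [h11, pow_one]
        push_cast
        rfl
      rw [hs, e5] at hts
      obtain ⟨c, hc, hc'⟩ := ipow_md e
      obtain ⟨g1, g2, g3⟩ := cl_C4_mul hn hz hc (u := 1 + dk k 1 S) (f := md e)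
        (by rw [hez, hc']; ring) hts
      refine ⟨g1, ?_, ?_⟩
      · rw [hs, ← he]
        exact g2
      · rw [hs, one_mul, ← haz]
        exact g3
  obtain ⟨hl, hj, hsum⟩ := hkey
  have hl' : l' = t * 1 := e2 _ _ hl
  have hj' : j = s + t * md k := by
    have h5 : ∀ j x s : ZMod 2, j + x + s = 0 → j = s + x := by decide
    exact h5 _ _ _ hj
  obtain ⟨h6, h7⟩ := hker (fun q => V q + t) s (fun q hq => by
    have h3 := sel_row hq hm hma (h (pv q.1 q.prime))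
    rw [hj', hl'] at h3
    unfold rowN
    rw [← h3]
    have h4 : ∑ p ∈ S.erase q, (V p + t + (V q + t)) * s4 q p =
        ∑ p ∈ S.erase q, (V p + V q) * s4 q p := by
      refine sum_congr rfl fun p _ => ?_
      have h5 : ∀ x y t s : ZMod 2, (x + t + (y + t)) * s = (x + y) * s := by decide
      exact h5 _ _ _ _
    rw [h4]
    ring) hsum
  exact sel_const hma t (fun q hq => e2 _ _ (h6 q hq)) (by rw [hj', h7, zero_add]) hl'

end

end Pool.Agent.Lib.MP_1a91b9_ntQ.C
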