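import Pool.Agent.Lib.MP_1a91b9_ntK.C.TamG

/-!
# MP_1a91b9_nt (quartic twists), Tamagawa numbers: the curve `y² = x³ - D x` over a field, index two

If `D` is a uniformizer then the group of the points with nonsingular reduction has index two
(`(0, 0)` represents the other coset).
-/

set_option autoImplicit false

namespace Pool.Agent.Lib.MP_1a91b9_ntQ.C

open WithZero WeierstrassCurve
open Pool.Agent.Lib.MP_1a91b9_ntH.C (nsSet nsG)
open scoped Classical

/-- The curve `y² = x³ - D x` over a field. -/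
def wq {F : Type*} [Field F] (D : F) : WeierstrassCurve F := ⟨0, 0, 0, -D, 0⟩

section

variable {L : Type*} [Field L] {D : L}

theorem wq_eqn (x y : L) : (wq D).toAffine.Equation x y ↔ y ^ 2 = x ^ 3 - D * x := by
  rw [Affine.equation_iff]
  simp only [wq]
  constructor
  · intro h
    linear_combination h
  · intro h
    linear_combination h

theorem wq_disc : (wq D).Δ = 64 * D ^ 3 := by
  simp only [wq, WeierstrassCurve.Δ, WeierstrassCurve.b₂, WeierstrassCurve.b₄, WeierstrassCurve.b₆,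
    WeierstrassCurve.b₈]
  ring

theorem wq_nons [CharZero L] (hD : D ≠ 0) (x y : L) :
    (wq D).toAffine.Nonsingular x y ↔ y ^ 2 = x ^ 3 - D * x := by
  have h : (wq D).toAffine.Δ ≠ 0 := by
    change (wq D).Δ ≠ 0
    rw [wq_disc]
    exact mul_ne_zero (by norm_num) (pow_ne_zero 3 hD)
  rw [← Affine.equation_iff_nonsingular_of_Δ_ne_zero h, wq_eqn]

theorem wq_negY (x y : L) : (wq D).toAffine.negY x y = -y := by
  simp [Affine.negY, wq]

/-- the third point on a line -/
theorem wq_line {x₁ x₂ y₁ y₂ : L} (h₁ : (wq D).toAffine.Equation x₁ y₁)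
    (h₂ : (wq D).toAffine.Equation x₂ y₂) (hxy : ¬(x₁ = x₂ ∧ y₁ = (wq D).toAffine.negY x₂ y₂)) :
    ∃ l n x₃ y₃ : L, (wq D).toAffine.addX x₁ x₂ ((wq D).toAffine.slope x₁ x₂ y₁ y₂) = x₃ ∧
      (wq D).toAffine.addY x₁ x₂ y₁ ((wq D).toAffine.slope x₁ x₂ y₁ y₂) = -y₃ ∧
      y₁ = l * x₁ + n ∧ y₂ = l * x₂ + n ∧ y₃ = l * x₃ + n ∧
      ∀ t : L, (l * t + n) ^ 2 - (t ^ 3 - D * t) = -((t - x₁) * (t - x₂) * (t - x₃)) := by
  obtain ⟨l, hl⟩ : ∃ l, l = (wq D).toAffine.slope x₁ x₂ y₁ y₂ := ⟨_, rfl⟩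
  have hpoly := Affine.addPolynomial_slope h₁ h₂ hxy
  have hy2 : y₂ = l * (x₂ - x₁) + y₁ := by
    by_cases hx : x₁ = x₂
    · have h3 : y₁ = y₂ := Affine.Y_eq_of_Y_ne h₁ h₂ hx (fun h => hxy ⟨hx, h⟩)
      rw [hx, h3, sub_self, mul_zero, zero_add]
    · rw [hl, Affine.slope_of_X_ne hx]
      have : x₁ - x₂ ≠ 0 := sub_ne_zero.2 hx
      field_simp
      ring
  rw [← hl] at hpoly ⊢
  refine ⟨l, y₁ - l * x₁, (wq D).toAffine.addX x₁ x₂ l, l * ((wq D).toAffine.addX x₁ x₂ l - x₁) + y₁,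
    rfl, ?_, ?_, ?_, ?_, ?_⟩
  · have e3 : (wq D).toAffine.a₃ = 0 := rfl
    have e1 : (wq D).toAffine.a₁ = 0 := rfl
    rw [Affine.addY, Affine.negY, Affine.negAddY, e3, e1]
    ring
  · ring
  · rw [hy2]; ring
  · ring
  · intro t
    have h1 := congrArg (Polynomial.eval t) hpoly
    rw [Affine.addPolynomial_eq] at h1
    have hy := (wq_eqn x₁ y₁).1 h₁
    simp only [Cubic.toPoly, Polynomial.eval_neg, Polynomial.eval_add, Polynomial.eval_mul,
      Polynomial.eval_C, Polynomial.eval_pow, Polynomial.eval_X, Polynomial.eval_sub] at h1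
    have e1 : (wq D).toAffine.a₁ = 0 := rfl
    have e2 : (wq D).toAffine.a₂ = 0 := rfl
    have e3 : (wq D).toAffine.a₃ = 0 := rfl
    have e4 : (wq D).toAffine.a₄ = -D := rfl
    have e6 : (wq D).toAffine.a₆ = 0 := rfl
    rw [e1, e2, e3, e4, e6] at h1
    linear_combination h1

/-- square values -/
def SqV (t : ℤᵐ⁰) : Prop := ∃ a : ℤᵐ⁰, t = a ^ 2

theorem SqV.mul {a b : ℤᵐ⁰} (ha : SqV a) (hb : SqV b) : SqV (a * b) := by
  obtain ⟨x, rfl⟩ := ha
  obtain ⟨y, rfl⟩ := hb
  exact ⟨x * y, by rw [mul_pow]⟩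

theorem SqV.of_mul {a b : ℤᵐ⁰} (h0 : a ≠ 0) (ha : SqV a) (hb : SqV (a * b)) : SqV b := by
  obtain ⟨x, rfl⟩ := ha
  obtain ⟨y, hy⟩ := hb
  refine ⟨x⁻¹ * y, ?_⟩
  rw [mul_pow, ← hy, inv_pow, inv_mul_cancel_left₀ h0]

theorem sqV_exp {n : ℤ} (h : SqV (exp n)) : (2 : ℤ) ∣ n := by
  obtain ⟨a, ha⟩ := h
  have ha0 : a ≠ 0 := by
    rintro rfl
    rw [zero_pow two_ne_zero] at ha
    exact exp_ne_zero ha
  obtain ⟨m, rfl⟩ : ∃ m : ℤ, a = exp m := ⟨WithZero.log a, (WithZero.exp_log ha0).symm⟩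
  rw [← WithZero.exp_nsmul, WithZero.exp_inj] at ha
  exact ⟨m, by rw [ha]; simp⟩

/-- The points the abscissa of which is not zero and has a square value. -/
noncomputable def G2 [CharZero L] (V : Valuation L ℤᵐ⁰) (hD : ¬ SqV (V D)) :
    AddSubgroup (wq D).toAffine.Point where
  carrier := {P | P = 0 ∨ ∃ (x y : L) (h : (wq D).toAffine.Nonsingular x y),
    P = Affine.Point.some x y h ∧ x ≠ 0 ∧ SqV (V x)}
  zero_mem' := Or.inl rfl
  add_mem' := by
    rintro P Q hP hQ
    rcases hP with rfl | ⟨x₁, y₁, h₁, rfl, hx₁, hP⟩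
    · rw [zero_add]; exact hQ
    rcases hQ with rfl | ⟨x₂, y₂, h₂, rfl, hx₂, hQ⟩
    · rw [add_zero]; exact Or.inr ⟨x₁, y₁, h₁, rfl, hx₁, hP⟩
    by_cases hxy : x₁ = x₂ ∧ y₁ = (wq D).toAffine.negY x₂ y₂
    · left
      exact Affine.Point.add_of_Y_eq hxy.1 hxy.2
    right
    obtain ⟨l, n, x₃, y₃, hx3, -, -, -, -, hl⟩ := wq_line h₁.1 h₂.1 hxy
    have hp : x₁ * x₂ * x₃ = n ^ 2 := by
      have := hl 0
      linear_combination -this
    have hx₃ : x₃ ≠ 0 := by
      intro h0
      rw [h0, mul_zero] at hp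
      have hn : n = 0 := pow_eq_zero_iff two_ne_zero |>.1 hp.symm
      subst h0
      subst hn
      have h5 : D = -(x₁ * x₂) := by
        have k1 := hl 1
        have k2 := hl (-1)
        have h20 : (2 : L) ≠ 0 := two_ne_zero
        apply mul_left_cancel₀ h20
        linear_combination k1 - k2
      apply hD
      rw [h5, Valuation.map_neg, map_mul]
      exact hP.mul hQ
    refine ⟨_, _, _, Affine.Point.add_some hxy, ?_, ?_⟩
    · rw [hx3]; exact hx₃
    · rw [hx3]
      refine SqV.of_mul (a := V (x₁ * x₂)) ?_ ?_ ⟨V n, ?_⟩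
      · rw [Valuation.ne_zero_iff]
        exact mul_ne_zero hx₁ hx₂
      · rw [map_mul]
        exact hP.mul hQ
      · rw [← map_mul, hp, map_pow]
  neg_mem' := by
    rintro P (rfl | ⟨x, y, h, rfl, hx, hP⟩)
    · left; exact neg_zero
    · right
      exact ⟨_, _, _, Affine.Point.neg_some h, hx, hP⟩

end

/-- The index is two where `D` is a uniformizer. -/
theorem index_two {L : Type*} [Field L] [CharZero L] {D : L} (V : Valuation L ℤᵐ⁰)
    (hD : V D = exp (-1 : ℤ)) (h3 : V 3 = 1 ∨ V 2 = 1) : (nsG V (wq D)).index = 2 := by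
  have hn1 : exp (-1 : ℤ) < (1 : ℤᵐ⁰) := by
    rw [← exp_zero, exp_lt_exp]
    norm_num
  have hD0 : D ≠ 0 := by
    rintro rfl
    rw [map_zero] at hD
    exact exp_ne_zero hD.symm
  have hD1 : V D < 1 := by rwa [hD]
  have hsq : ¬ SqV (V D) := by
    rw [hD]
    intro h
    have := sqV_exp h
    omega
  have e2 : ∀ x y : L, 2 * y + (wq D).a₁ * x + (wq D).a₃ = 2 * y := by
    intro x y
    simp [wq]
  have e3 : ∀ x y : L, 3 * x ^ 2 + 2 * (wq D).a₂ * x + (wq D).a₄ - (wq D).a₁ * y = 3 * x ^ 2 - D := by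
    intro x y
    simp only [wq]
    ring
  have h2le : V (2 : L) ≤ 1 := by
    have e : (2 : L) = 1 + 1 := by norm_num
    rw [e]
    exact (Valuation.map_add _ _ _).trans (max_le (map_one V).le (map_one V).le)
  have h3le : V (3 : L) ≤ 1 := by
    have e : (3 : L) = 2 + 1 := by norm_num
    rw [e]
    exact (Valuation.map_add _ _ _).trans (max_le h2le (map_one V).le)
  -- the generating set
  have hset : ∀ (x y : L) (h : (wq D).toAffine.Nonsingular x y), 1 ≤ V x →
      Affine.Point.some x y h ∈ nsSet V (wq D) := by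
    intro x y h hx
    refine Or.inr ⟨x, y, h, rfl, ?_⟩
    rcases hx.lt_or_eq with hx1 | hx1
    · exact Or.inl hx1
    · right
      rcases h3 with h3 | h2
      · right
        rw [e3 x y, Valuation.map_sub_eq_of_lt_left, map_mul, map_pow, h3, ← hx1, one_pow, one_mul]
        rw [map_mul, map_pow, h3, ← hx1, one_pow, one_mul]
        exact hD1
      · left
        have heq := congrArg V ((wq_eqn _ _).1 h.1)
        have e0 : x ^ 3 - D * x = x * (x ^ 2 - D) := by ring
        have e1 : V (x ^ 2 - D) = 1 := by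
          rw [Valuation.map_sub_eq_of_lt_left, map_pow, ← hx1, one_pow]
          rw [map_pow, ← hx1, one_pow]
          exact hD1
        rw [e0, map_mul, e1, ← hx1, one_mul, map_pow] at heq
        have hy : V y = 1 := (pow_eq_one_iff_of_nonneg zero_le (by norm_num)).1 heq
        rw [e2 x y, map_mul, h2, hy, one_mul]
  have hset' : ∀ (x y : L) (h : (wq D).toAffine.Nonsingular x y),
      Affine.Point.some x y h ∈ nsSet V (wq D) → 1 ≤ V x := by
    intro x y h hP
    rcases hP with h0 | ⟨x', y', h', hxy, hcase⟩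
    · exact absurd h0 (Affine.Point.some_ne_zero _)
    obtain ⟨rfl, rfl⟩ := (Affine.Point.some.injEq ..).mp hxy
    by_contra hlt
    push Not at hlt
    rcases hcase with h1 | h1 | h1
    · exact absurd h1 (not_lt.2 hlt.le)
    · have heq := congrArg V ((wq_eqn _ _).1 h.1)
      have e0 : x ^ 3 - D * x = (x ^ 2 - D) * x := by ring
      have k1 : V (x ^ 2 - D) < 1 := by
        refine Valuation.map_sub_lt _ ?_ hD1
        rw [map_pow]
        exact pow_lt_one₀ zero_le hlt (by norm_num)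
      have k2 : V (y ^ 2) < 1 := by
        rw [heq, e0, map_mul]
        exact mul_lt_one_of_lt_of_le k1 hlt.le
      have k3 : V y < 1 := by
        by_contra hc
        rw [map_pow] at k2
        exact absurd k2 (not_lt.2 (one_le_pow₀ (not_lt.1 hc)))
      rw [e2 x y, map_mul, mul_comm] at h1
      have k4 := mul_lt_one_of_lt_of_le k3 h2le
      rw [h1] at k4
      exact lt_irrefl _ k4
    · rw [e3 x y] at h1
      have k1 : V (3 * x ^ 2 - D) < 1 := by
        refine Valuation.map_sub_lt _ ?_ hD1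
        rw [map_mul, mul_comm, map_pow]
        exact mul_lt_one_of_lt_of_le (pow_lt_one₀ zero_le hlt (by norm_num)) h3le
      rw [h1] at k1
      exact lt_irrefl _ k1
  -- contained in the group `G2`
  have hG : nsG V (wq D) ≤ G2 V hsq := by
    rw [nsG, AddSubgroup.closure_le]
    intro P hP
    rcases P with _ | ⟨x, y, h⟩
    · exact Or.inl rfl
    have h1 := hset' x y h hP
    have heq := (wq_eqn _ _).1 h.1
    have hVx : V x ≠ 0 := (zero_lt_one.trans_le h1).ne'
    have hx0 : x ≠ 0 := (Valuation.ne_zero_iff V).1 hVx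
    refine Or.inr ⟨x, y, h, rfl, hx0, ?_⟩
    have k1 : V (x ^ 2 - D) = V x ^ 2 := by
      rw [Valuation.map_sub_eq_of_lt_left, map_pow]
      rw [map_pow]
      exact hD1.trans_le (one_le_pow₀ h1)
    have k2 : V y ^ 2 = V x ^ 2 * V x := by
      rw [← map_pow V y, heq, ← k1, ← map_mul]
      congr 1
      ring
    refine SqV.of_mul (a := V x ^ 2) (pow_ne_zero 2 hVx) ⟨V x, rfl⟩ ⟨V y, k2.symm⟩
  -- the point `(0, 0)`
  have n0 : (wq D).toAffine.Nonsingular 0 0 := (wq_nons hD0 _ _).2 (by ring)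
  obtain ⟨T, hT⟩ : ∃ T : (wq D).toAffine.Point, T = Affine.Point.some 0 0 n0 := ⟨_, rfl⟩
  have hTT : T + T = 0 := by
    rw [hT]
    exact Affine.Point.add_of_Y_eq rfl (by rw [wq_negY, neg_zero])
  have hTn : T ∉ nsG V (wq D) := by
    intro hm
    rcases hG hm with h0 | ⟨x, y, h, hxy, hx, -⟩
    · rw [hT] at h0
      exact Affine.Point.some_ne_zero _ h0
    · rw [hT] at hxy
      obtain ⟨h5, -⟩ := (Affine.Point.some.injEq ..).mp hxy
      exact hx h5.symm
  have hnT : -T = T := by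
    rw [neg_eq_iff_add_eq_zero]
    exact hTT
  -- `P + T`
  have hadd : ∀ (x y : L) (h : (wq D).toAffine.Nonsingular x y), V x < 1 →
      Affine.Point.some x y h + T ∈ nsSet V (wq D) := by
    intro x y h hx
    by_cases hx0 : x = 0
    · subst hx0
      have hy : y = 0 := by
        have := (wq_eqn _ _).1 h.1
        have h6 : y ^ 2 = 0 := by linear_combination this
        exact pow_eq_zero_iff two_ne_zero |>.1 h6
      subst hy
      left
      rw [← hTT, hT]
    · have heq := (wq_eqn _ _).1 h.1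
      have hxy : ¬ (x = 0 ∧ y = (wq D).toAffine.negY 0 0) := fun h6 => hx0 h6.1
      rw [hT, Affine.Point.add_some hxy]
      refine hset _ _ _ ?_
      have e : (wq D).toAffine.addX x 0 ((wq D).toAffine.slope x 0 y 0) = -(D / x) := by
        rw [Affine.slope_of_X_ne hx0]
        simp only [Affine.addX, wq]
        field_simp
        linear_combination x * heq
      rw [e, Valuation.map_neg, map_div₀, hD]
      rw [one_le_div₀ (zero_lt_iff.2 ((Valuation.ne_zero_iff _).2 hx0))]
      have h7 : V x ≠ 0 := (Valuation.ne_zero_iff _).2 hx0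
      rw [← exp_log h7] at hx ⊢
      rw [← exp_zero, exp_lt_exp] at hx
      rw [exp_le_exp]
      omega
  have hinj : Function.Injective (fun i : Fin 2 =>
      (QuotientAddGroup.mk (![0, T] i) : (wq D).toAffine.Point ⧸ nsG V (wq D))) := by
    intro i j hij
    have hij' : -(![0, T] i) + ![0, T] j ∈ nsG V (wq D) := QuotientAddGroup.eq.1 hij
    fin_cases i <;> fin_cases j <;> simp [hTn] at hij' ⊢
  have hsurj : Function.Surjective (fun i : Fin 2 =>
      (QuotientAddGroup.mk (![0, T] i) : (wq D).toAffine.Point ⧸ nsG V (wq D))) := by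
    intro q
    obtain ⟨P, rfl⟩ := QuotientAddGroup.mk_surjective q
    have hred : ∀ i : Fin 2, -(![0, T] i) + P ∈ nsSet V (wq D) → ∃ i : Fin 2,
        (QuotientAddGroup.mk (![0, T] i) : (wq D).toAffine.Point ⧸ nsG V (wq D)) =
          QuotientAddGroup.mk P := fun i hi =>
      ⟨i, QuotientAddGroup.eq.2 (AddSubgroup.subset_closure hi)⟩
    rcases P with _ | ⟨x, y, h⟩
    · refine hred 0 ?_
      change -0 + 0 ∈ _
      rw [neg_zero, zero_add]
      exact Or.inl rfl
    by_cases hx : 1 ≤ V x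
    · refine hred 0 ?_
      change -0 + _ ∈ _
      rw [neg_zero, zero_add]
      exact hset x y h hx
    · refine hred 1 ?_
      change -T + _ ∈ _
      rw [hnT, add_comm]
      exact hadd x y h (not_le.1 hx)
  have hcard := Nat.card_congr (Equiv.ofBijective _ ⟨hinj, hsurj⟩)
  rw [Nat.card_eq_fintype_card, Fintype.card_fin] at hcard
  exact hcard.symm

end Pool.Agent.Lib.MP_1a91b9_ntQ.C
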