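import Pool.Agent.Lib.MP_1a91b9_ntQ.C.TamQ2
import Pool.Agent.Lib.MP_1a91b9_ntQ.C.LocX4

/-!
# MP_1a91b9_nt (quartic twists), Tamagawa numbers at `lam`: `y² = x³ - D x`, `D` a unit

The points with nonsingular reduction are `O` and the points the abscissa of which is not a unit;
they are a subgroup. For three collinear points `(D + e₂)² = 4 e₁ e₃`.
-/

set_option autoImplicit false

namespace Pool.Agent.Lib.MP_1a91b9_ntQ.C

open WithZero WeierstrassCurve
open Pool.Agent.Lib.MP_1a91b9_ntH.C (nsSet nsG Sq)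
open scoped Classical

variable {L : Type*} [Field L] [CharZero L] {ν : Valuation L ℤᵐ⁰} {D : L}

/-- the relation between the abscissas of three collinear points -/
theorem line_rel {x₁ x₂ x₃ l n : L}
    (hl : ∀ t : L, (l * t + n) ^ 2 - (t ^ 3 - D * t) = -((t - x₁) * (t - x₂) * (t - x₃))) :
    x₁ * x₂ * x₃ = n ^ 2 ∧ x₁ + x₂ + x₃ = l ^ 2 ∧
      x₁ * x₂ + x₃ * (x₁ + x₂) = -D - 2 * l * n := by
  have k0 := hl 0
  have k1 := hl 1
  have k2 := hl (-1)
  have h20 : (2 : L) ≠ 0 := two_ne_zero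
  refine ⟨by linear_combination -k0, ?_, ?_⟩
  · apply mul_left_cancel₀ h20
    linear_combination 2 * k0 - k1 - k2
  · apply mul_left_cancel₀ h20
    linear_combination k1 - k2

/-- the same, with no unknown slope -/
theorem line_sq {x₁ x₂ x₃ l n : L}
    (hl : ∀ t : L, (l * t + n) ^ 2 - (t ^ 3 - D * t) = -((t - x₁) * (t - x₂) * (t - x₃))) :
    (D + (x₁ * x₂ + x₃ * (x₁ + x₂))) ^ 2 = 4 * (x₁ + x₂ + x₃) * (x₁ * x₂ * x₃) := by
  obtain ⟨h0, h1, h2⟩ := line_rel hl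
  rw [h0, h1, h2]
  ring

/-- two of three abscissas are not units: neither is the third -/
theorem line_unit (h4 : ν 4 < 1) (hD : ν D = 1) {x₁ x₂ x₃ : L}
    (he : (D + (x₁ * x₂ + x₃ * (x₁ + x₂))) ^ 2 = 4 * (x₁ + x₂ + x₃) * (x₁ * x₂ * x₃))
    (h₁ : ν x₁ ≠ 1) (h₂ : ν x₂ ≠ 1) : ν x₃ ≠ 1 := by
  intro h₃
  have hE := congrArg ν he
  rw [map_pow, map_mul, map_mul, map_mul, map_mul, h₃, mul_one] at hE
  have p4 : ∀ a b : ℤᵐ⁰, b ≠ 0 → a ≤ b → ν 4 * a < b := by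
    intro a b hb hab
    calc ν 4 * a ≤ ν 4 * b := by gcongr
      _ < 1 * b := by
        refine mul_lt_mul_of_pos_right h4 (zero_lt_iff.2 hb)
      _ = b := one_mul b
  -- the mixed case
  have mix : ∀ {x₁ x₂ : L}, 1 < ν x₁ → ν x₂ < 1 →
      ν (D + (x₁ * x₂ + x₃ * (x₁ + x₂))) ^ 2 = ν 4 * ν (x₁ + x₂ + x₃) * (ν x₁ * ν x₂) → False := by
    intro x₁ x₂ h₁ h₂ hE
    have h0 : ν x₁ ≠ 0 := (zero_lt_one.trans h₁).ne'
    have e1 : ν (x₁ + x₂ + x₃) = ν x₁ := by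
      rw [add_assoc]
      refine ν.map_add_eq_of_lt_left ((ν.map_add _ _).trans_lt (max_lt (h₂.trans h₁) ?_))
      rwa [h₃]
    have e2 : ν (D + (x₁ * x₂ + x₃ * (x₁ + x₂))) = ν x₁ := by
      have e : D + (x₁ * x₂ + x₃ * (x₁ + x₂)) = x₁ * x₃ + (D + (x₁ * x₂ + x₂ * x₃)) := by ring
      have e' : ν (x₁ * x₃) = ν x₁ := by rw [map_mul, h₃, mul_one]
      rw [e, ν.map_add_eq_of_lt_left, e']
      rw [e']
      refine (ν.map_add _ _).trans_lt (max_lt (by rwa [hD]) ((ν.map_add _ _).trans_lt (max_lt ?_ ?_)))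
      · rw [map_mul]
        calc ν x₁ * ν x₂ < ν x₁ * 1 := by
              exact mul_lt_mul_of_pos_left h₂ (zero_lt_iff.2 h0)
          _ = ν x₁ := mul_one _
      · rw [map_mul, h₃, mul_one]
        exact h₂.trans h₁
    rw [e1, e2] at hE
    have k := p4 (ν x₁ * (ν x₁ * ν x₂)) (ν x₁ ^ 2) (pow_ne_zero 2 h0) (by
      rw [pow_two]
      have : ν x₁ * ν x₂ ≤ ν x₁ * 1 := by gcongr
      rw [mul_one] at this
      gcongr)
    rw [← mul_assoc, ← hE] at k
    exact lt_irrefl _ k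
  rcases lt_or_gt_of_ne h₁ with h₁ | h₁ <;> rcases lt_or_gt_of_ne h₂ with h₂ | h₂
  · -- both small
    have e1 : ν (D + (x₁ * x₂ + x₃ * (x₁ + x₂))) = 1 := by
      rw [ν.map_add_eq_of_lt_left, hD]
      rw [hD]
      refine (ν.map_add _ _).trans_lt (max_lt ?_ ?_)
      · rw [map_mul]
        exact mul_lt_one_of_lt_of_le h₁ h₂.le
      · rw [map_mul, h₃, one_mul]
        exact (ν.map_add _ _).trans_lt (max_lt h₁ h₂)
    rw [e1, one_pow, mul_assoc] at hE
    have k := p4 (ν (x₁ + x₂ + x₃) * (ν x₁ * ν x₂)) 1 one_ne_zero (by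
      refine mul_le_one' ?_ (mul_le_one' h₁.le h₂.le)
      refine (ν.map_add _ _).trans (max_le ((ν.map_add _ _).trans (max_le h₁.le h₂.le)) h₃.le))
    rw [← hE] at k
    exact lt_irrefl _ k
  · refine mix h₂ h₁ ?_
    have e1 : D + (x₂ * x₁ + x₃ * (x₂ + x₁)) = D + (x₁ * x₂ + x₃ * (x₁ + x₂)) := by ring
    have e2 : x₂ + x₁ + x₃ = x₁ + x₂ + x₃ := by ring
    rw [e1, e2, hE]
    rw [mul_comm (ν x₂)]
  · exact mix h₁ h₂ hE
  · -- both large
    have h0 : ν x₁ ≠ 0 := (zero_lt_one.trans h₁).ne'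
    have h0' : ν x₂ ≠ 0 := (zero_lt_one.trans h₂).ne'
    have h12 : ν x₁ < ν x₁ * ν x₂ := by
      calc ν x₁ = ν x₁ * 1 := (mul_one _).symm
        _ < ν x₁ * ν x₂ := mul_lt_mul_of_pos_left h₂ (zero_lt_iff.2 h0)
    have h21 : ν x₂ < ν x₁ * ν x₂ := by
      calc ν x₂ = 1 * ν x₂ := (one_mul _).symm
        _ < ν x₁ * ν x₂ := mul_lt_mul_of_pos_right h₁ (zero_lt_iff.2 h0')
    have e1 : ν (D + (x₁ * x₂ + x₃ * (x₁ + x₂))) = ν x₁ * ν x₂ := by
      have e : D + (x₁ * x₂ + x₃ * (x₁ + x₂)) = x₁ * x₂ + (D + x₃ * (x₁ + x₂)) := by ring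
      have e' : ν (x₁ * x₂) = ν x₁ * ν x₂ := map_mul _ _ _
      rw [e, ν.map_add_eq_of_lt_left, e']
      rw [e']
      refine (ν.map_add _ _).trans_lt (max_lt ?_ ?_)
      · rw [hD]
        exact h₁.trans h12
      · rw [map_mul, h₃, one_mul]
        exact (ν.map_add _ _).trans_lt (max_lt h12 h21)
    have e2 : ν (x₁ + x₂ + x₃) ≤ ν x₁ * ν x₂ := by
      refine (ν.map_add _ _).trans (max_le ((ν.map_add _ _).trans (max_le h12.le h21.le)) ?_)
      rw [h₃]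
      exact (h₁.trans h12).le
    rw [e1, mul_assoc] at hE
    have k := p4 (ν (x₁ + x₂ + x₃) * (ν x₁ * ν x₂)) ((ν x₁ * ν x₂) ^ 2)
      (pow_ne_zero 2 (mul_ne_zero h0 h0')) (by
      rw [pow_two]
      gcongr)
    rw [← hE] at k
    exact lt_irrefl _ k

/-- The points the abscissa of which is not a unit. -/
noncomputable def S0 (ν : Valuation L ℤᵐ⁰) (h4 : ν 4 < 1) (hD : ν D = 1) :
    AddSubgroup (wq D).toAffine.Point where
  carrier := {P | P = 0 ∨ ∃ (x y : L) (h : (wq D).toAffine.Nonsingular x y),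
    P = Affine.Point.some x y h ∧ ν x ≠ 1}
  zero_mem' := Or.inl rfl
  add_mem' := by
    rintro P Q hP hQ
    rcases hP with rfl | ⟨x₁, y₁, h₁, rfl, hP⟩
    · rw [zero_add]; exact hQ
    rcases hQ with rfl | ⟨x₂, y₂, h₂, rfl, hQ⟩
    · rw [add_zero]; exact Or.inr ⟨x₁, y₁, h₁, rfl, hP⟩
    by_cases hxy : x₁ = x₂ ∧ y₁ = (wq D).toAffine.negY x₂ y₂
    · left
      exact Affine.Point.add_of_Y_eq hxy.1 hxy.2
    right
    obtain ⟨l, n, x₃, y₃, hx3, -, -, -, -, hl⟩ := wq_line h₁.1 h₂.1 hxy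
    refine ⟨_, _, _, Affine.Point.add_some hxy, ?_⟩
    rw [hx3]
    exact line_unit h4 hD (line_sq hl) hP hQ
  neg_mem' := by
    rintro P (rfl | ⟨x, y, h, rfl, hP⟩)
    · left; exact neg_zero
    · right
      exact ⟨_, _, _, Affine.Point.neg_some h, hP⟩

theorem mem_S0 {h4 : ν 4 < 1} {hD : ν D = 1} {x y : L} {h : (wq D).toAffine.Nonsingular x y} :
    Affine.Point.some x y h ∈ S0 ν h4 hD ↔ ν x ≠ 1 := by
  constructor
  · rintro (h0 | ⟨x', y', h', hxy, hc⟩)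
    · exact absurd h0 (Affine.Point.some_ne_zero _)
    · obtain ⟨rfl, rfl⟩ := (Affine.Point.some.injEq ..).mp hxy
      exact hc
  · intro hx
    exact Or.inr ⟨x, y, h, rfl, hx⟩

/-- **the points with nonsingular reduction** -/
theorem nsG_S0 (h2 : ν 2 < 1) (h4 : ν 4 < 1) (hD : ν D = 1)
    (hres : ∀ x : L, ν x = 1 → ν (x - 1) < 1) : nsG ν (wq D) = S0 ν h4 hD := by
  have e2 : ∀ x y : L, 2 * y + (wq D).a₁ * x + (wq D).a₃ = 2 * y := by
    intro x y
    simp [wq]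
  have e3 : ∀ x y : L, 3 * x ^ 2 + 2 * (wq D).a₂ * x + (wq D).a₄ - (wq D).a₁ * y = 3 * x ^ 2 - D := by
    intro x y
    simp only [wq]
    ring
  have h3 : ν (3 : L) = 1 := by
    have e : (3 : L) = 1 + 2 := by norm_num
    rw [e]
    exact ν.map_one_add_of_lt h2
  have hset : nsSet ν (wq D) = (S0 ν h4 hD : Set (wq D).toAffine.Point) := by
    ext P
    rcases P with _ | ⟨x, y, h⟩
    · constructor
      · intro _
        exact Or.inl rfl
      · intro _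
        exact Or.inl rfl
    constructor
    · rintro (h0 | ⟨x', y', h', hxy, hc⟩)
      · exact absurd h0 (Affine.Point.some_ne_zero _)
      obtain ⟨rfl, rfl⟩ := (Affine.Point.some.injEq ..).mp hxy
      refine Or.inr ⟨x, y, h, rfl, ?_⟩
      intro hx
      rw [e2 x y, e3 x y, hx] at hc
      rcases hc with hc | hc | hc
      · exact lt_irrefl _ hc
      · have heq := congrArg ν ((wq_eqn _ _).1 h.1)
        have hy : ν y ≤ 1 := by
          by_contra hlt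
          push Not at hlt
          have k1 : 1 < ν (y ^ 2) := by
            rw [map_pow]
            exact one_lt_pow₀ hlt (by norm_num)
          rw [heq] at k1
          refine absurd k1 (not_lt.2 ?_)
          refine (ν.map_sub _ _).trans (max_le ?_ ?_)
          · rw [map_pow, hx, one_pow]
          · rw [map_mul, hx, hD, one_mul]
        have k2 : ν (2 * y) < 1 := by
          rw [map_mul]
          exact mul_lt_one_of_lt_of_le h2 hy
        rw [hc] at k2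
        exact lt_irrefl _ k2
      · have k1 : 3 * x ^ 2 - D = 2 * x ^ 2 + ((x ^ 2 - 1) - (D - 1)) := by ring
        have k2 : ν (3 * x ^ 2 - D) < 1 := by
          rw [k1]
          refine (ν.map_add _ _).trans_lt (max_lt ?_ ((ν.map_sub _ _).trans_lt (max_lt ?_ ?_)))
          · rw [map_mul, map_pow, hx, one_pow, mul_one]
            exact h2
          · refine hres _ ?_
            rw [map_pow, hx, one_pow]
          · exact hres _ hD
        rw [hc] at k2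
        exact lt_irrefl _ k2
    · intro hP
      have hx : ν x ≠ 1 := mem_S0.1 hP
      refine Or.inr ⟨x, y, h, rfl, ?_⟩
      rcases lt_or_gt_of_ne hx with hx | hx
      · right; right
        rw [e3 x y, Valuation.map_sub_eq_of_lt_right, hD]
        rw [hD, map_mul, h3, one_mul, map_pow]
        exact pow_lt_one₀ zero_le hx (by norm_num)
      · exact Or.inl hx
  rw [nsG, hset, AddSubgroup.closure_eq]

/-- index one: no point has a unit as abscissa -/
theorem index_one (h2 : ν 2 < 1) (h4 : ν 4 < 1) (hD : ν D = 1)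
    (hres : ∀ x : L, ν x = 1 → ν (x - 1) < 1)
    (hno : ∀ x y : L, y ^ 2 = x ^ 3 - D * x → ν x ≠ 1) : (nsG ν (wq D)).index = 1 := by
  rw [nsG_S0 h2 h4 hD hres, AddSubgroup.index_eq_one, AddSubgroup.eq_top_iff']
  intro P
  rcases P with _ | ⟨x, y, h⟩
  · exact Or.inl rfl
  · exact mem_S0.2 (hno x y ((wq_eqn _ _).1 h.1))

/-- the sum of two points -/
theorem add_cases {P Q : (wq D).toAffine.Point} {x₁ y₁ x₂ y₂ : L}
    {h₁ : (wq D).toAffine.Nonsingular x₁ y₁} {h₂ : (wq D).toAffine.Nonsingular x₂ y₂}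
    (hP : P = Affine.Point.some x₁ y₁ h₁) (hQ : Q = Affine.Point.some x₂ y₂ h₂) :
    P + Q = 0 ∨ ∃ (x₃ y₃ : L) (h₃ : (wq D).toAffine.Nonsingular x₃ y₃) (l n : L),
      P + Q = Affine.Point.some x₃ y₃ h₃ ∧
      ∀ t : L, (l * t + n) ^ 2 - (t ^ 3 - D * t) = -((t - x₁) * (t - x₂) * (t - x₃)) := by
  subst hP hQ
  by_cases hxy : x₁ = x₂ ∧ y₁ = (wq D).toAffine.negY x₂ y₂
  · left
    exact Affine.Point.add_of_Y_eq hxy.1 hxy.2
  right
  obtain ⟨l, n, x₃, y₃, hx3, -, -, -, -, hl⟩ := wq_line h₁.1 h₂.1 hxy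
  refine ⟨_, _, _, l, n, Affine.Point.add_some hxy, ?_⟩
  rw [hx3]
  exact hl

/-- three units, all in the class `w` which is not trivial: not collinear -/
theorem line_w (h4 : ν 4 < 1) {x₁ x₂ x₃ l n w : L} (hw : ¬ C4 ν w) (c₁ : C4 ν (x₁ * w))
    (c₂ : C4 ν (x₂ * w)) (c₃ : C4 ν (x₃ * w))
    (hl : ∀ t : L, (l * t + n) ^ 2 - (t ^ 3 - D * t) = -((t - x₁) * (t - x₂) * (t - x₃))) :
    False := by
  have n1 : x₁ * w ≠ 0 := c₁.ne h4
  have n2 : x₂ * w ≠ 0 := c₂.ne h4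
  have n3 : x₃ * w ≠ 0 := c₃.ne h4
  have hw0 : w ≠ 0 := right_ne_zero_of_mul n1
  have hn := (line_rel hl).1
  have hn0 : n ≠ 0 := by
    rintro rfl
    rw [zero_pow two_ne_zero] at hn
    exact mul_ne_zero (mul_ne_zero (left_ne_zero_of_mul n1) (left_ne_zero_of_mul n2))
      (left_ne_zero_of_mul n3) hn
  refine hw (C4.of_mul_sq (s := n * w) (mul_ne_zero hn0 hw0) ?_)
  have h5 := (c₁.mul h4 c₂).mul h4 c₃
  have e : x₁ * w * (x₂ * w) * (x₃ * w) = w * (n * w) ^ 2 := by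
    rw [mul_pow, ← hn]
    ring
  rwa [e] at h5

/-- **index two**: the units which are abscissas are all in one class `w` -/
theorem index_w (h2 : ν 2 < 1) (h4 : ν 4 < 1) (hD : ν D = 1)
    (hres : ∀ x : L, ν x = 1 → ν (x - 1) < 1) {w : L} (hw : ¬ C4 ν w)
    (hc : ∀ x y : L, y ^ 2 = x ^ 3 - D * x → ν x = 1 → C4 ν (x * w))
    (hex : ∃ x y : L, y ^ 2 = x ^ 3 - D * x ∧ ν x = 1) : (nsG ν (wq D)).index = 2 := by
  have hD0 : D ≠ 0 := by
    rintro rfl
    rw [map_zero] at hD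
    exact zero_ne_one hD
  rw [nsG_S0 h2 h4 hD hres, AddSubgroup.index_eq_two_iff]
  obtain ⟨x₁, y₁, he₁, hx₁⟩ := hex
  have h₁ := (wq_nons hD0 x₁ y₁).2 he₁
  obtain ⟨A, hA⟩ : ∃ A, A = Affine.Point.some x₁ y₁ h₁ := ⟨_, rfl⟩
  have hAn : A ∉ S0 ν h4 hD := by
    rw [hA, mem_S0]
    exact fun h => h hx₁
  refine ⟨A, fun b => ?_⟩
  by_cases hb : b ∈ S0 ν h4 hD
  · refine Or.inr ⟨hb, fun h => hAn ?_⟩
    have := (S0 ν h4 hD).sub_mem h hb
    rwa [add_sub_cancel_left] at this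
  refine Or.inl ⟨?_, hb⟩
  rcases b with _ | ⟨x₂, y₂, h₂⟩
  · exact absurd (Or.inl rfl) hb
  have hx₂ : ν x₂ = 1 := by
    by_contra h
    exact hb (mem_S0.2 h)
  rcases add_cases (P := Affine.Point.some x₂ y₂ h₂) (Q := A) rfl hA with h | ⟨x₃, y₃, h₃, l, n, h, hl⟩
  · rw [h]
    exact Or.inl rfl
  · rw [h, mem_S0]
    intro hx₃
    exact line_w h4 hw (hc x₂ y₂ ((wq_eqn _ _).1 h₂.1) hx₂) (hc x₁ y₁ he₁ hx₁)
      (hc x₃ y₃ ((wq_eqn _ _).1 h₃.1) hx₃) hl

/-- The points the abscissa of which is a square modulo `4`, or zero. -/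
noncomputable def G1 (ν : Valuation L ℤᵐ⁰) (i : L) (hi : i ^ 2 = -1) (h4 : ν 4 < 1)
    (hDc : C4 ν D) : AddSubgroup (wq D).toAffine.Point where
  carrier := {P | P = 0 ∨ ∃ (x y : L) (h : (wq D).toAffine.Nonsingular x y),
    P = Affine.Point.some x y h ∧ (x = 0 ∨ C4 ν x)}
  zero_mem' := Or.inl rfl
  add_mem' := by
    rintro P Q hP hQ
    rcases hP with rfl | ⟨x₁, y₁, h₁, rfl, hP⟩
    · rw [zero_add]; exact hQ
    rcases hQ with rfl | ⟨x₂, y₂, h₂, rfl, hQ⟩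
    · rw [add_zero]; exact Or.inr ⟨x₁, y₁, h₁, rfl, hP⟩
    rcases add_cases (P := Affine.Point.some x₁ y₁ h₁) (Q := Affine.Point.some x₂ y₂ h₂) rfl rfl with
      h | ⟨x₃, y₃, h₃, l, n, h, hl⟩
    · exact Or.inl h
    refine Or.inr ⟨x₃, y₃, h₃, h, ?_⟩
    by_cases h30 : x₃ = 0
    · exact Or.inl h30
    right
    obtain ⟨r0, r1, r2⟩ := line_rel hl
    have hD0 : D ≠ 0 := hDc.ne h4
    have key : ∀ {x₁ x₂ : L}, x₁ = 0 → (x₂ = 0 ∨ C4 ν x₂) → x₁ * x₂ * x₃ = n ^ 2 →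
        x₁ * x₂ + x₃ * (x₁ + x₂) = -D - 2 * l * n → C4 ν x₃ := by
      intro x₁ x₂ h1 h5 r0 r2
      subst h1
      have hn : n = 0 := by
        rw [zero_mul, zero_mul] at r0
        exact pow_eq_zero_iff two_ne_zero |>.1 r0.symm
      subst hn
      have r3 : x₃ * x₂ = -D := by linear_combination r2
      rcases h5 with h6 | h6
      · rw [h6, mul_zero] at r3
        exact absurd (neg_eq_zero.1 r3.symm) hD0
      · refine C4.cancel h4 ?_ h6
        rw [r3]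
        refine C4.neg hi ?_
        rwa [neg_neg]
    rcases hP with hP | hP
    · exact key hP hQ r0 r2
    rcases hQ with hQ | hQ
    · exact key hQ (Or.inr hP) (by linear_combination r0) (by linear_combination r2)
    have n1 := hP.ne h4
    have n2 := hQ.ne h4
    have hn0 : n ≠ 0 := by
      rintro rfl
      rw [zero_pow two_ne_zero] at r0
      exact mul_ne_zero (mul_ne_zero n1 n2) h30 r0
    refine C4.cancel (x := x₁ * x₂) h4 ?_ (hP.mul h4 hQ)
    have e : x₃ * (x₁ * x₂) = n ^ 2 := by linear_combination r0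
    rw [e]
    refine ⟨n, hn0, ?_⟩
    rw [div_self (pow_ne_zero 2 hn0), sub_self, map_zero]
    exact zero_le
  neg_mem' := by
    rintro P (rfl | ⟨x, y, h, rfl, hP⟩)
    · left; exact neg_zero
    · right
      exact ⟨_, _, _, Affine.Point.neg_some h, hP⟩

theorem mem_G1 {i : L} {hi : i ^ 2 = -1} {h4 : ν 4 < 1} {hDc : C4 ν D} {x y : L}
    {h : (wq D).toAffine.Nonsingular x y} :
    Affine.Point.some x y h ∈ G1 ν i hi h4 hDc ↔ x = 0 ∨ C4 ν x := by
  constructor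
  · rintro (h0 | ⟨x', y', h', hxy, hc⟩)
    · exact absurd h0 (Affine.Point.some_ne_zero _)
    · obtain ⟨rfl, rfl⟩ := (Affine.Point.some.injEq ..).mp hxy
      exact hc
  · intro hx
    exact Or.inr ⟨x, y, h, rfl, hx⟩

end Pool.Agent.Lib.MP_1a91b9_ntQ.C
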