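import Pool.Agent.Lib.MP_1a91b9_ntH.C.V
import Pool.Agent.Lib.MP_1a91b9_ntQ.C.Gal

/-!
# MP_1a91b9_nt (quartic twists), part C: the torsion

`y² = x³ - d x` over a field with `z² = -1`. If the group of points is finite and its order is twice
an odd number, then the only points are `O` and `(0, 0)`, unless `d` is `1 + 2 z` or `1 - 2 z`
times a fourth power. The proof uses only the valuations at a place above `2`.
-/

set_option autoImplicit false
set_option linter.unusedSectionVars false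

namespace Pool.Agent.Lib.MP_1a91b9_ntQ.C

open WithZero WeierstrassCurve
open Pool.Agent.Lib.MP_1a91b9_ntH.C (exists_nu)
open scoped Classical

noncomputable section

variable {F : Type*} [Field F] [CharZero F] {W : Affine F} {z d : F}

theorem lt_one_iff4 {x : ℤᵐ⁰} : x < 1 ↔ x ≤ exp (-1) := by
  rw [← exp_zero]
  constructor
  · intro h
    by_cases hx : x = 0
    · rw [hx]
      exact zero_le
    · obtain ⟨n, rfl⟩ : ∃ n : ℤ, x = exp n := ⟨log x, (exp_log hx).symm⟩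
      rw [exp_lt_exp] at h
      rw [exp_le_exp]
      omega
  · intro h
    refine lt_of_le_of_lt h ?_
    rw [exp_lt_exp]
    norm_num

/-- the abscissa of a point, `0` for the point at infinity -/
def abs4 : W.Point → F
  | .zero => 0
  | .some x _ _ => x

/-- the abscissa of `mu P` -/
theorem mu_x' (h : IsQ W z d) {x y : F} (hn : W.Nonsingular x y) (hx : x ≠ 0) :
    ∃ (X Y : F) (hn' : W.Nonsingular X Y), mu h (.some x y hn) = .some X Y hn' ∧
      2 * x * X = z * (x ^ 2 - d) := by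
  obtain ⟨X, Y, hn', h1, h2⟩ := mu_x h hn hx
  refine ⟨X, Y, hn', h1, ?_⟩
  rw [h2]
  field_simp

/-- the product of the abscissas of the sum and of the difference -/
theorem add_sub_x (h : IsQ W z d) {x₁ y₁ x₂ y₂ : F} (hn₁ : W.Nonsingular x₁ y₁)
    (hn₂ : W.Nonsingular x₂ y₂) (hx : x₁ ≠ x₂) :
    ∃ (X Y X' Y' : F) (hn : W.Nonsingular X Y) (hn' : W.Nonsingular X' Y'),
      Affine.Point.some x₁ y₁ hn₁ + .some x₂ y₂ hn₂ = .some X Y hn ∧
      Affine.Point.some x₁ y₁ hn₁ - .some x₂ y₂ hn₂ = .some X' Y' hn' ∧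
      X * X' * (x₁ - x₂) ^ 2 = (x₁ * x₂ + d) ^ 2 := by
  have ha1 : W.a₁ = 0 := by rw [h.eq, cq]
  have ha2 : W.a₂ = 0 := by rw [h.eq, cq]
  have e₁ := (h.nons _ _).1 hn₁
  have e₂ := (h.nons _ _).1 hn₂
  have hx0 : x₁ - x₂ ≠ 0 := sub_ne_zero.2 hx
  rw [sub_eq_add_neg, Affine.Point.neg_some, Affine.Point.add_of_X_ne hx,
    Affine.Point.add_of_X_ne hx]
  refine ⟨_, _, _, _, _, _, rfl, rfl, ?_⟩
  rw [Affine.slope_of_X_ne hx, Affine.slope_of_X_ne hx, Affine.addX, Affine.addX, ha1, ha2,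
    negY_eq h]
  have h1 : (x₁ - x₂) ^ 2 * (((y₁ - y₂) / (x₁ - x₂)) ^ 2 + 0 * ((y₁ - y₂) / (x₁ - x₂)) - 0 -
      x₁ - x₂) = (x₁ + x₂) * (x₁ * x₂ - d) - 2 * y₁ * y₂ := by
    have h2 : (y₁ - y₂) / (x₁ - x₂) * (x₁ - x₂) = y₁ - y₂ := div_mul_cancel₀ _ hx0
    linear_combination ((y₁ - y₂) / (x₁ - x₂) * (x₁ - x₂) + (y₁ - y₂)) * h2 + e₁ + e₂
  have h1' : (x₁ - x₂) ^ 2 * (((y₁ - -y₂) / (x₁ - x₂)) ^ 2 + 0 * ((y₁ - -y₂) / (x₁ - x₂)) - 0 -
      x₁ - x₂) = (x₁ + x₂) * (x₁ * x₂ - d) + 2 * y₁ * y₂ := by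
    have h2 : (y₁ - -y₂) / (x₁ - x₂) * (x₁ - x₂) = y₁ - -y₂ := div_mul_cancel₀ _ hx0
    linear_combination ((y₁ - -y₂) / (x₁ - x₂) * (x₁ - x₂) + (y₁ - -y₂)) * h2 + e₁ + e₂
  generalize (((y₁ - y₂) / (x₁ - x₂)) ^ 2 + 0 * ((y₁ - y₂) / (x₁ - x₂)) - 0 - x₁ - x₂) = X at *
  generalize (((y₁ - -y₂) / (x₁ - x₂)) ^ 2 + 0 * ((y₁ - -y₂) / (x₁ - x₂)) - 0 - x₁ - x₂) = X' at *
  refine mul_left_cancel₀ (pow_ne_zero 2 hx0) ?_
  linear_combination ((x₁ - x₂) ^ 2 * X') * h1 + ((x₁ + x₂) * (x₁ * x₂ - d) - 2 * y₁ * y₂) * h1' -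
    4 * y₂ ^ 2 * e₁ - 4 * (x₁ ^ 3 - d * x₁) * e₂

variable (h : IsQ W z d) (hinj : ∀ P ∈ (mu h).range, mu h P = 0 → P = 0)
  {ν : Valuation F ℤᵐ⁰} (h2 : ν 2 = exp (-2))

include hinj in
theorem rq_ne {x y : F} {hn : W.Nonsingular x y}
    (hP : Affine.Point.some x y hn ∈ (mu h).range) : x ≠ 0 := by
  rintro rfl
  have h1 : mu h (.some 0 y hn) = 0 := by
    rw [mu_apply, sub_eq_zero]
    exact ((omP_fixed h hn).2 rfl).symm
  exact Affine.Point.some_ne_zero _ (hinj _ hP h1)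

include h in
theorem nu_z : ν z = 1 := by
  have h1 := congrArg ν h.z4
  rw [map_pow, map_one] at h1
  exact (pow_eq_one_iff_of_nonneg zero_le (by norm_num)).1 h1

include hinj h2 in
/-- the abscissas of the points of odd order: the valuation is half the valuation of `d` -/
theorem rq_val [Finite W.Point] {x y : F} {hn : W.Nonsingular x y}
    (hP : Affine.Point.some x y hn ∈ (mu h).range) : ν x ^ 2 = ν d := by
  have hz := nu_z h (ν := ν)
  obtain ⟨m, hm⟩ := exists_nu ν h.hd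
  -- the maximum
  have hmax : ∀ Q : W.Point, Q ∈ (mu h).range → ν (abs4 Q) ^ 2 ≤ ν d := by
    by_contra hc
    push Not at hc
    obtain ⟨Q₀, hQ₀, hc⟩ := hc
    obtain ⟨⟨Q, hQR⟩, hQ⟩ := Finite.exists_max (fun P : (mu h).range => ν (abs4 P.1))
    have hQ1 : ν d < ν (abs4 Q) ^ 2 :=
      lt_of_lt_of_le hc (pow_le_pow_left₀ zero_le (hQ ⟨Q₀, hQ₀⟩) 2)
    obtain _ | ⟨x, y, hn⟩ := Q
    · have e : abs4 (Affine.Point.zero : W.Point) = 0 := rfl
      rw [e, map_zero, zero_pow two_ne_zero] at hQ1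
      exact not_lt_zero hQ1
    · have e : abs4 (Affine.Point.some x y hn : W.Point) = x := rfl
      rw [e] at hQ1
      have hx := rq_ne h hinj hQR
      obtain ⟨X, Y, hn', h1, h4⟩ := mu_x' h hn hx
      have h3 := hQ ⟨mu h (.some x y hn), ⟨_, rfl⟩⟩
      dsimp only at h3
      rw [h1] at h3
      have e' : abs4 (Affine.Point.some X Y hn' : W.Point) = X := rfl
      rw [e, e'] at h3
      have h5 := congrArg ν h4
      have h6 : ν (x ^ 2 - d) = ν x ^ 2 := by
        rw [sub_eq_add_neg, ν.map_add_eq_of_lt_left (by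
          rw [Valuation.map_neg, map_pow]
          exact hQ1), map_pow]
      rw [map_mul, map_mul, map_mul, h6, hz, one_mul, h2] at h5
      obtain ⟨n, hn0⟩ := exists_nu ν hx
      have hX0 : X ≠ 0 := by
        rintro rfl
        rw [map_zero, mul_zero, hn0, ← exp_nsmul] at h5
        exact exp_ne_zero h5.symm
      obtain ⟨r, hr⟩ := exists_nu ν hX0
      rw [hn0, hr, ← exp_add, ← exp_add, ← exp_nsmul, exp_inj, nsmul_eq_mul] at h5
      push_cast at h5
      rw [hn0, hr, exp_le_exp] at h3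
      omega
  have hx := rq_ne h hinj hP
  have h0 : ν x ^ 2 ≤ ν d := hmax _ hP
  by_contra hne
  have hlt : ν x ^ 2 < ν d := lt_of_le_of_ne h0 hne
  obtain ⟨X, Y, hn', h1, h4⟩ := mu_x' h hn hx
  have h5 := congrArg ν h4
  have h6 : ν (x ^ 2 - d) = ν d := by
    rw [sub_eq_add_neg, ν.map_add_eq_of_lt_right (by
      rw [Valuation.map_neg, map_pow]
      exact hlt), Valuation.map_neg]
  have h7 : ν X ^ 2 ≤ ν d := hmax _ (h1 ▸ ⟨_, rfl⟩ : Affine.Point.some X Y hn' ∈ (mu h).range)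
  rw [map_mul, map_mul, map_mul, h6, hz, one_mul, h2] at h5
  obtain ⟨n, hn0⟩ := exists_nu ν hx
  have hX0 : X ≠ 0 := by
    rintro rfl
    rw [map_zero, mul_zero, hm] at h5
    exact exp_ne_zero h5.symm
  obtain ⟨r, hr⟩ := exists_nu ν hX0
  rw [hn0, hm, ← exp_nsmul, exp_lt_exp, nsmul_eq_mul] at hlt
  rw [hr, hm, ← exp_nsmul, exp_le_exp, nsmul_eq_mul] at h7
  rw [hn0, hr, hm, ← exp_add, ← exp_add, exp_inj] at h5
  push_cast at hlt h7 h5
  omega

include hinj in
/-- the abscissas are squares -/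
theorem rq_sq {x y : F} {hn : W.Nonsingular x y}
    (hP : Affine.Point.some x y hn ∈ (mu h).range) : ∃ s : F, x = s ^ 2 := by
  obtain ⟨Q, hQ⟩ := hP
  obtain ⟨X, Y, hn', rfl, hX⟩ := mu_ne_cases h Q (by
    rw [hQ]
    exact Affine.Point.some_ne_zero _)
  obtain ⟨x', y', hn'', h3, h4, -⟩ := mu_some h hn' hX
  rw [h3] at hQ
  injection hQ with h5 h6
  exact ⟨_, h5.symm.trans h4⟩

variable (hres : ∀ x : F, ν x = 1 → ν (x - 1) < 1)

include h h2 in
theorem nu_1z : ν (1 - z) = exp (-1) := by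
  have h1 : (1 - z) ^ 2 = -(2 * z) := by linear_combination h.hz
  have h3 := congrArg ν h1
  rw [Valuation.map_neg, map_mul, nu_z h, mul_one, h2, map_pow] at h3
  obtain ⟨n, hn⟩ := exists_nu ν h.z1
  rw [hn, ← exp_nsmul, exp_inj, nsmul_eq_mul] at h3
  push_cast at h3
  rw [hn]
  congr 1
  omega

include h h2 in
theorem nu_1z' : ν (1 + z) = exp (-1) := by
  have h1 : 1 + z = z * (1 - z) := by linear_combination h.hz
  rw [h1, map_mul, nu_z h, one_mul, nu_1z h h2]

include h h2 hres in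
/-- a square is `± 1` modulo `4` -/
theorem sq_mod4 {s : F} (hs : ν s = 1) :
    ν (s ^ 2 - 1) ≤ exp (-4) ∨ ν (s ^ 2 + 1) ≤ exp (-4) := by
  have hl := nu_1z h h2
  have hz := nu_z h (ν := ν)
  have hl0 := h.z1
  obtain ⟨t, ht⟩ : ∃ t : F, t = (s - 1) / (1 - z) := ⟨_, rfl⟩
  have hst : s - 1 = (1 - z) * t := by
    rw [ht]
    field_simp
  have ht1 : ν t ≤ 1 := by
    rw [ht, map_div₀, hl]
    exact (div_le_one₀ exp_pos).2 (lt_one_iff4.1 (hres s hs))
  have e44 : exp (-2 : ℤ) * exp (-2) = (exp (-4) : ℤᵐ⁰) := by rw [← exp_add]; norm_num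
  have key : ∀ x : F, ν x ≤ exp (-1) → ν ((1 - z) * x) ≤ exp (-2) := by
    intro x hx
    rw [map_mul, hl]
    calc exp (-1) * ν x ≤ exp (-1) * exp (-1) := by gcongr
      _ = exp (-2) := by rw [← exp_add]; norm_num
  rcases lt_or_eq_of_le ht1 with h3 | h3
  · left
    have h4 : ν (s - 1) ≤ exp (-2) := by
      rw [hst]
      exact key t (lt_one_iff4.1 h3)
    have h5 : ν (s + 1) ≤ exp (-2) := by
      have e : s + 1 = (s - 1) + 2 := by ring
      rw [e]
      exact ν.map_add_le h4 h2.le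
    have e : s ^ 2 - 1 = (s - 1) * (s + 1) := by ring
    rw [e, map_mul, ← e44]
    exact mul_le_mul' h4 h5
  · right
    have h3' := hres t h3
    have h4 : ν (1 + t) ≤ exp (-1) := by
      have e : 1 + t = (t - 1) + 2 := by ring
      rw [e]
      refine ν.map_add_le (lt_one_iff4.1 h3') (h2.le.trans ?_)
      rw [exp_le_exp]
      norm_num
    have h5 : ν (s - z) ≤ exp (-2) := by
      have e : s - z = (1 - z) * (1 + t) := by linear_combination hst
      rw [e]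
      exact key _ h4
    have h6 : ν (s + z) ≤ exp (-2) := by
      have e : s + z = (s - z) + 2 * z := by ring
      rw [e]
      refine ν.map_add_le h5 ?_
      rw [map_mul, hz, mul_one, h2]
    have e : s ^ 2 + 1 = (s - z) * (s + z) := by linear_combination h.hz
    rw [e, map_mul, ← e44]
    exact mul_le_mul' h5 h6

include h h2 hres in
theorem four_mod8 {s : F} (hs : ν s = 1) : ν (s ^ 4 - 1) ≤ exp (-6) := by
  have e : s ^ 4 - 1 = (s ^ 2 - 1) * (s ^ 2 + 1) := by ring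
  have e46 : exp (-4 : ℤ) * exp (-2) = (exp (-6) : ℤᵐ⁰) := by rw [← exp_add]; norm_num
  have e42 : (exp (-4) : ℤᵐ⁰) ≤ exp (-2) := by
    rw [exp_le_exp]
    norm_num
  rw [e, map_mul]
  rcases sq_mod4 h h2 hres hs with h3 | h3
  · have h4 : ν (s ^ 2 + 1) ≤ exp (-2) := by
      have e : s ^ 2 + 1 = (s ^ 2 - 1) + 2 := by ring
      rw [e]
      exact ν.map_add_le (h3.trans e42) h2.le
    rw [← e46]
    exact mul_le_mul' h3 h4
  · have h4 : ν (s ^ 2 - 1) ≤ exp (-2) := by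
      have e : s ^ 2 - 1 = (s ^ 2 + 1) - 2 := by ring
      rw [e]
      exact ν.map_sub_le (h3.trans e42) h2.le
    rw [← e46, mul_comm (exp (-4))]
    exact mul_le_mul' h4 h3

include hinj h2 hres in
/-- a point of odd order: `d = 1 ± 2 z` modulo `8` -/
theorem rq_mod8 [Finite W.Point] (hd : ν d = 1) {x y : F} {hn : W.Nonsingular x y}
    (hP : Affine.Point.some x y hn ∈ (mu h).range) :
    ν (d - (1 + 2 * z)) ≤ exp (-6) ∨ ν (d - (1 - 2 * z)) ≤ exp (-6) := by
  have hval : ∀ {x y : F} {hn : W.Nonsingular x y}, Affine.Point.some x y hn ∈ (mu h).range →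
      ∃ s : F, ν s = 1 ∧ x = s ^ 2 := by
    intro x y hn hP
    obtain ⟨s, hs⟩ := rq_sq h hinj hP
    refine ⟨s, ?_, hs⟩
    have h3 := rq_val h hinj h2 hP
    rw [hd, hs, map_pow, ← pow_mul] at h3
    exact (pow_eq_one_iff_of_nonneg zero_le (by norm_num)).1 h3
  obtain ⟨s, hs1, hs⟩ := hval hP
  obtain ⟨X, Y, hn', h3, h4⟩ := mu_x' h hn (rq_ne h hinj hP)
  obtain ⟨r, hr1, hr⟩ := hval (h3 ▸ ⟨_, rfl⟩ : Affine.Point.some X Y hn' ∈ (mu h).range)
  have hsr : ν (s * r) = 1 := by rw [map_mul, hs1, hr1, mul_one]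
  have h5 := four_mod8 h h2 hres hs1
  have hz := nu_z h (ν := ν)
  have e26 : exp (-2 : ℤ) * exp (-4) = (exp (-6) : ℤᵐ⁰) := by rw [← exp_add]; norm_num
  have hd' : d = s ^ 4 + 2 * z * (s * r) ^ 2 := by
    rw [hs, hr] at h4
    linear_combination -z * h4 - (s ^ 4 - d) * h.hz
  have key : ∀ u : F, ν u ≤ exp (-4) → ν (2 * z * u) ≤ exp (-6) := by
    intro u hu
    rw [map_mul, map_mul, hz, mul_one, h2, ← e26]
    gcongr
  rcases sq_mod4 h h2 hres hsr with h6 | h6
  · left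
    have e : d - (1 + 2 * z) = (s ^ 4 - 1) + 2 * z * ((s * r) ^ 2 - 1) := by
      linear_combination hd'
    rw [e]
    exact ν.map_add_le h5 (key _ h6)
  · right
    have e : d - (1 - 2 * z) = (s ^ 4 - 1) + 2 * z * ((s * r) ^ 2 + 1) := by
      linear_combination hd'
    rw [e]
    exact ν.map_add_le h5 (key _ h6)

include hinj h2 hres in
/-- two points of odd order with the same abscissa modulo `4` -/
theorem rq_eq [Finite W.Point] (hd : ν d = 1) {x₁ y₁ x₂ y₂ : F} {hn₁ : W.Nonsingular x₁ y₁}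
    {hn₂ : W.Nonsingular x₂ y₂} (hP : Affine.Point.some x₁ y₁ hn₁ ∈ (mu h).range)
    (hQ : Affine.Point.some x₂ y₂ hn₂ ∈ (mu h).range) (hx : ν (x₁ - x₂) ≤ exp (-4)) :
    x₁ = x₂ := by
  by_contra hne
  obtain ⟨X, Y, X', Y', hn, hn', h3, h4, h5⟩ := add_sub_x h hn₁ hn₂ hne
  have hval : ∀ {x y : F} {hn : W.Nonsingular x y}, Affine.Point.some x y hn ∈ (mu h).range →
      ν x = 1 := by
    intro x y hn hP
    have h3 := rq_val h hinj h2 hP
    rw [hd] at h3
    exact (pow_eq_one_iff_of_nonneg zero_le (by norm_num)).1 h3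
  have hX := hval (h3 ▸ (mu h).range.add_mem hP hQ : Affine.Point.some X Y hn ∈ (mu h).range)
  have hX' := hval (h4 ▸ (mu h).range.sub_mem hP hQ : Affine.Point.some X' Y' hn' ∈ (mu h).range)
  have h6 := congrArg ν h5
  rw [map_mul, map_mul, hX, hX', one_mul, one_mul, map_pow, map_pow] at h6
  obtain ⟨s, hs⟩ := rq_sq h hinj hP
  have hs1 : ν s = 1 := by
    have h7 := hval hP
    rw [hs, map_pow] at h7
    exact (pow_eq_one_iff_of_nonneg zero_le (by norm_num)).1 h7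
  have e64 : (exp (-6) : ℤᵐ⁰) ≤ exp (-4) := by
    rw [exp_le_exp]
    norm_num
  have h7 : ν (x₁ ^ 2 - 1) ≤ exp (-4) := by
    have e : x₁ ^ 2 - 1 = s ^ 4 - 1 := by
      rw [hs]
      ring
    rw [e]
    exact (four_mod8 h h2 hres hs1).trans e64
  have h8 : ν (x₁ * (x₁ - x₂)) ≤ exp (-4) := by
    rw [map_mul, hval hP, one_mul]
    exact hx
  have h9 : ν (x₁ * x₂ + d) = exp (-3) := by
    have e23 : exp (-2 : ℤ) * exp (-1) = (exp (-3) : ℤᵐ⁰) := by rw [← exp_add]; norm_num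
    have hlt : (exp (-4) : ℤᵐ⁰) < exp (-3) := by
      rw [exp_lt_exp]
      norm_num
    rcases rq_mod8 h hinj h2 hres hd hP with h10 | h10
    · have e : x₁ * x₂ + d = 2 * (1 + z) + ((x₁ ^ 2 - 1) + (d - (1 + 2 * z)) - x₁ * (x₁ - x₂)) := by
        ring
      have h11 : ν (2 * (1 + z)) = exp (-3) := by rw [map_mul, h2, nu_1z' h h2, e23]
      rw [e, ν.map_add_eq_of_lt_left, h11]
      rw [h11]
      exact lt_of_le_of_lt (ν.map_sub_le (ν.map_add_le h7 (h10.trans e64)) h8) hlt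
    · have e : x₁ * x₂ + d = 2 * (1 - z) + ((x₁ ^ 2 - 1) + (d - (1 - 2 * z)) - x₁ * (x₁ - x₂)) := by
        ring
      have h11 : ν (2 * (1 - z)) = exp (-3) := by rw [map_mul, h2, nu_1z h h2, e23]
      rw [e, ν.map_add_eq_of_lt_left, h11]
      rw [h11]
      exact lt_of_le_of_lt (ν.map_sub_le (ν.map_add_le h7 (h10.trans e64)) h8) hlt
  rw [h9] at h6
  have h10 : ν (x₁ - x₂) ^ 2 ≤ exp (-4) ^ 2 := pow_le_pow_left₀ zero_le hx 2
  rw [h6, ← exp_nsmul, ← exp_nsmul, exp_le_exp, nsmul_eq_mul, nsmul_eq_mul] at h10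
  norm_num at h10

include hinj h2 hres in
/-- **a point of odd order**: `d = s⁴ (1 ± 2 z)` -/
theorem rq_five [Finite W.Point] (hd : ν d = 1) {x y : F} {hn : W.Nonsingular x y}
    (hP : Affine.Point.some x y hn ∈ (mu h).range) :
    ∃ s : F, d = s ^ 4 * (1 + 2 * z) ∨ d = s ^ 4 * (1 - 2 * z) := by
  obtain ⟨s, hs⟩ := rq_sq h hinj hP
  refine ⟨s, ?_⟩
  have hx0 := rq_ne h hinj hP
  obtain ⟨X, Y, hn', h3, h4⟩ := mu_x' h hn hx0
  have hPX : Affine.Point.some X Y hn' ∈ (mu h).range := h3 ▸ ⟨_, rfl⟩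
  obtain ⟨r, hr⟩ := rq_sq h hinj hPX
  have hval : ∀ {x y : F} {hn : W.Nonsingular x y}, Affine.Point.some x y hn ∈ (mu h).range →
      ∀ s : F, x = s ^ 2 → ν s = 1 := by
    intro x y hn hP s hs
    have h3 := rq_val h hinj h2 hP
    rw [hd, hs, map_pow, ← pow_mul] at h3
    exact (pow_eq_one_iff_of_nonneg zero_le (by norm_num)).1 h3
  have hs1 := hval hP s hs
  have hr1 := hval hPX r hr
  obtain ⟨hn2, hom⟩ := omP_some h x y hn
  have hPi : Affine.Point.some (-x) (z * y) hn2 ∈ (mu h).range := by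
    rw [← hom]
    obtain ⟨Q, hQ⟩ := hP
    exact ⟨omP h Q, by rw [mu_om, hQ]⟩
  -- `X = x` or `X = - x`
  have hX : X = x ∨ X = -x := by
    rcases sq_mod4 h h2 hres hs1 with h5 | h5 <;> rcases sq_mod4 h h2 hres hr1 with h6 | h6
    · left
      refine rq_eq h hinj h2 hres hd hPX hP ?_
      have e : X - x = (r ^ 2 - 1) - (s ^ 2 - 1) := by
        rw [hr, hs]
        ring
      rw [e]
      exact ν.map_sub_le h6 h5
    · right
      refine rq_eq h hinj h2 hres hd hPX hPi ?_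
      have e : X - -x = (r ^ 2 + 1) + (s ^ 2 - 1) := by
        rw [hr, hs]
        ring
      rw [e]
      exact ν.map_add_le h6 h5
    · right
      refine rq_eq h hinj h2 hres hd hPX hPi ?_
      have e : X - -x = (r ^ 2 - 1) + (s ^ 2 + 1) := by
        rw [hr, hs]
        ring
      rw [e]
      exact ν.map_add_le h6 h5
    · left
      refine rq_eq h hinj h2 hres hd hPX hP ?_
      have e : X - x = (r ^ 2 + 1) - (s ^ 2 + 1) := by
        rw [hr, hs]
        ring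
      rw [e]
      exact ν.map_sub_le h6 h5
  rcases hX with h5 | h5
  · left
    rw [h5] at h4
    rw [← show x ^ 2 = s ^ 4 by rw [hs]; ring]
    linear_combination -z * h4 - (x ^ 2 - d) * h.hz
  · right
    rw [h5] at h4
    rw [← show x ^ 2 = s ^ 4 by rw [hs]; ring]
    linear_combination -z * h4 - (x ^ 2 - d) * h.hz

include h in
/-- if the order of the group is twice an odd number, `mu` is injective on its range -/
theorem inj_of_card4 [Finite W.Point] {m : ℕ} (hm : Nat.card W.Point = 2 * m) (h3 : Odd m) :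
    ∀ P ∈ (mu h).range, mu h P = 0 → P = 0 := by
  intro P hP hP0
  by_contra hne
  have hPt : P = tq h := (mu_ker_all h P hP0).resolve_left hne
  have hP2 : 2 • P = 0 := by rw [hPt, two_nsmul, tq_add_self]
  have : Fact (Nat.Prime 2) := ⟨by norm_num⟩
  have h4 : 2 ∣ Nat.card (mu h).range := by
    have h5 : addOrderOf (⟨P, hP⟩ : (mu h).range) = 2 := addOrderOf_eq_prime
      (Subtype.ext (by simpa using hP2)) (fun h6 => hne (congrArg Subtype.val h6))
    rw [← h5]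
    exact addOrderOf_dvd_natCard _
  have h6 : 2 ∣ Nat.card (mu h).ker := by
    have h5 : addOrderOf (⟨tq h, mu_tq h⟩ : (mu h).ker) = 2 := addOrderOf_eq_prime
      (Subtype.ext (by
        have : 2 • tq h = 0 := by rw [two_nsmul, tq_add_self]
        simpa using this)) (fun h6 => tq_ne h (congrArg Subtype.val h6))
    rw [← h5]
    exact addOrderOf_dvd_natCard _
  rw [AddSubgroup.card_eq_card_quotient_mul_card_addSubgroup (mu h).ker,
    Nat.card_congr (QuotientAddGroup.quotientKerEquivRange (mu h)).toEquiv] at hm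
  obtain ⟨a, ha⟩ := h4
  obtain ⟨b, hb⟩ := h6
  rw [ha, hb] at hm
  have h7 : m = 2 * (a * b) := by
    have : 2 * m = 2 * (2 * (a * b)) := by rw [← hm]; ring
    omega
  rw [h7] at h3
  exact (Nat.not_odd_iff_even.2 (even_two_mul _)) h3

include h h2 hres in
/-- **the points**: only `O` and `(0, 0)` -/
theorem points4 [Finite W.Point] {m : ℕ} (hm : Nat.card W.Point = 2 * m) (h3 : Odd m)
    (hd : ν d = 1 ∨ ∃ n : ℤ, ν d = exp (2 * n + 1))
    (h5 : ∀ s : F, d ≠ s ^ 4 * (1 + 2 * z) ∧ d ≠ s ^ 4 * (1 - 2 * z)) (P : W.Point) :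
    P = 0 ∨ P = tq h := by
  have hinj := inj_of_card4 h hm h3
  have hR : ∀ P ∈ (mu h).range, P = (0 : W.Point) := by
    intro P hP
    obtain _ | ⟨x, y, hn⟩ := P
    · rfl
    · exfalso
      rcases hd with hd | ⟨n, hd⟩
      · obtain ⟨s, hs⟩ := rq_five h hinj h2 hres hd hP
        rcases hs with hs | hs
        · exact (h5 s).1 hs
        · exact (h5 s).2 hs
      · have h6 := rq_val h hinj h2 hP
        obtain ⟨r, hr⟩ := exists_nu ν (rq_ne h hinj hP)
        rw [hd, hr, ← exp_nsmul, exp_inj, nsmul_eq_mul] at h6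
        push_cast at h6
        omega
  exact mu_ker_all h P (hR _ ⟨P, rfl⟩)

include h h2 hres in
theorem card4 [Finite W.Point] {m : ℕ} (hm : Nat.card W.Point = 2 * m) (h3 : Odd m)
    (hd : ν d = 1 ∨ ∃ n : ℤ, ν d = exp (2 * n + 1))
    (h5 : ∀ s : F, d ≠ s ^ 4 * (1 + 2 * z) ∧ d ≠ s ^ 4 * (1 - 2 * z)) :
    Nat.card W.Point = 2 ∧ ∀ x y : F, y ^ 2 = x ^ 3 - d * x → x = 0 := by
  have h6 := points4 h h2 hres hm h3 hd h5
  constructor
  · have hs : (Set.univ : Set W.Point) = {0, tq h} := by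
      ext P
      simp only [Set.mem_univ, Set.mem_insert_iff, Set.mem_singleton_iff, true_iff]
      exact h6 P
    rw [← Set.ncard_univ, hs, Set.ncard_pair (tq_ne h).symm]
  · intro x y hxy
    rcases h6 (.some x y ((h.nons x y).2 hxy)) with h7 | h7
    · exact absurd h7 (Affine.Point.some_ne_zero _)
    · rw [tq, Affine.Point.some.injEq] at h7
      exact h7.1

end

end Pool.Agent.Lib.MP_1a91b9_ntQ.C
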