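import Pool.Agent.Lib.MP_1a91b9_ntQ.R.Ring4
import Pool.Agent.Lib.MP_1a91b9_ntQ.C.Loc4

/-!
# MP_1a91b9_nt (TwistDensity), quartic twists, part C: elements of `ℚ(i)` with even valuations
-/

set_option autoImplicit false
set_option linter.unusedSectionVars false
set_option linter.unusedVariables false

namespace Pool.Agent.Lib.MP_1a91b9_ntQ.C

open NumberField Finset WithZero IsDedekindDomain Pool.Agent.Lib.MP_1a91b9_nuT
open Pool.Agent.Lib.MP_1a91b9_ntQ
open Pool.Agent.Lib.MP_1a91b9_ntH.C (Sq exists_nu isSquare_exp nu_one)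

noncomputable section

/-- The prime ideal of a prime element. -/
def pv (π : 𝓞 K) (h : Prime π) : HeightOneSpectrum (𝓞 K) where
  asIdeal := Ideal.span {π}
  isPrime := (Ideal.span_singleton_prime h.ne_zero).2 h
  ne_bot := by
    rw [Ne, Ideal.span_singleton_eq_bot]
    exact h.ne_zero

theorem val_O (v : HeightOneSpectrum (𝓞 K)) (x : 𝓞 K) :
    v.valuation K (x : K) = v.intValuation x := v.valuation_of_algebraMap x

theorem pv_self (π : 𝓞 K) (h : Prime π) : (pv π h).valuation K (π : K) = exp (-1) := by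
  rw [val_O]
  exact (pv π h).intValuation_singleton h.ne_zero rfl

theorem pv_one {π x : 𝓞 K} (h : Prime π) (hx : ¬ π ∣ x) : (pv π h).valuation K (x : K) = 1 := by
  rw [val_O, HeightOneSpectrum.intValuation_eq_one_iff]
  intro h1
  exact hx (Ideal.mem_span_singleton.1 h1)

theorem pv_lt {π x : 𝓞 K} (h : Prime π) : (pv π h).valuation K (x : K) < 1 ↔ π ∣ x := by
  rw [val_O, HeightOneSpectrum.intValuation_lt_one_iff_mem]
  exact Ideal.mem_span_singleton

theorem pv_le_pow {π x : 𝓞 K} (h : Prime π) (n : ℕ) :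
    (pv π h).valuation K (x : K) ≤ exp (-(n : ℤ)) ↔ π ^ n ∣ x := by
  have e : (pv π h).asIdeal = Ideal.span {π} := rfl
  rw [val_O, HeightOneSpectrum.intValuation_le_pow_iff_mem, e, Ideal.span_singleton_pow,
    Ideal.mem_span_singleton]

/-- Every place is the place of a prime element. -/
theorem exists_pv (v : HeightOneSpectrum (𝓞 K)) : ∃ (π : 𝓞 K) (h : Prime π), v = pv π h := by
  obtain ⟨π, hπ⟩ := (IsPrincipalIdealRing.principal v.asIdeal).principal
  have hs : v.asIdeal = Ideal.span {π} := hπ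
  have h0 : π ≠ 0 := by
    intro h
    apply v.ne_bot
    rw [hs, h, Ideal.span_singleton_eq_bot]
  have hp : Prime π := by
    rw [← Ideal.span_singleton_prime h0, ← hs]
    exact v.isPrime
  exact ⟨π, hp, HeightOneSpectrum.ext hs⟩

theorem pv_eq {π π' : 𝓞 K} (h : Prime π) (h' : Prime π') (hd : π ∣ π') : pv π h = pv π' h' := by
  apply HeightOneSpectrum.ext
  exact Ideal.span_singleton_eq_span_singleton.2 (h.associated_of_dvd h' hd)

theorem exp_odd {k : ℤ} (h : IsSquare (exp k : ℤᵐ⁰)) : Even k := isSquare_exp.1 h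

/-- squares times a square -/
theorem isSquare_mul_sq {x y : ℤᵐ⁰} (hy : y ≠ 0) : IsSquare (x * y ^ 2) ↔ IsSquare x := by
  constructor
  · rintro ⟨b, hb⟩
    refine ⟨b / y, ?_⟩
    rw [div_mul_div_comm, eq_div_iff (mul_ne_zero hy hy), ← hb, pow_two]
  · rintro ⟨b, rfl⟩
    exact ⟨b * y, by rw [pow_two, mul_mul_mul_comm]⟩

theorem exists_sq_sqfree (z : 𝓞 K) : z ≠ 0 → ∃ m r : 𝓞 K, z = m ^ 2 * r ∧ Squarefree r := by
  induction z using UniqueFactorizationMonoid.induction_on_prime with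
  | h₁ => exact fun h => absurd rfl h
  | h₂ x hx => exact fun _ => ⟨1, x, by ring, hx.squarefree⟩
  | h₃ a p ha hp ih =>
    intro _
    obtain ⟨m, r, h1, h2⟩ := ih ha
    by_cases hd : p ∣ r
    · obtain ⟨r', rfl⟩ := hd
      refine ⟨p * m, r', by rw [h1]; ring, h2.of_mul_right⟩
    · refine ⟨m, p * r, by rw [h1]; ring, ?_⟩
      rw [squarefree_mul_iff]
      refine ⟨?_, hp.irreducible.squarefree, h2⟩
      intro d hd1 hd2
      rcases hp.irreducible.dvd_iff.1 hd1 with h3 | h3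
      · exact h3
      · exact absurd (h3.dvd.trans hd2) hd

theorem coe_ne {x : 𝓞 K} (h : x ≠ 0) : (x : K) ≠ 0 := fun h0 => h (RingOfIntegers.ext h0)

/-- The units are squares up to the factor `i`. -/
theorem unit_sq (u : 𝓞 K) (hu : IsUnit u) : ∃ (j : ZMod 2) (m : 𝓞 K), m ≠ 0 ∧
    u = m ^ 2 * iO ^ j.val := by
  obtain ⟨k, rfl⟩ := exists_pow_unit hu
  have h0 : ∀ k : ZMod 4, k = 0 ∨ k = 1 ∨ k = 2 ∨ k = 3 := by decide
  have hi : iO ≠ 0 := isUnit_iO.ne_zero
  rcases h0 k with h | h | h | h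
  · refine ⟨0, 1, one_ne_zero, ?_⟩
    rw [h]
    show iO ^ 0 = 1 ^ 2 * iO ^ 0
    ring
  · refine ⟨1, 1, one_ne_zero, ?_⟩
    rw [h]
    show iO ^ 1 = 1 ^ 2 * iO ^ 1
    ring
  · refine ⟨0, iO, hi, ?_⟩
    rw [h]
    show iO ^ 2 = iO ^ 2 * iO ^ 0
    ring
  · refine ⟨1, iO, hi, ?_⟩
    rw [h]
    show iO ^ 3 = iO ^ 2 * iO ^ 1
    ring

/-- An element all of whose valuations are even is a square up to the factor `i`. -/
theorem sq_of_even (a : K) (ha : a ≠ 0)
    (h : ∀ v : HeightOneSpectrum (𝓞 K), IsSquare (v.valuation K a)) :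
    ∃ (j : ZMod 2) (m : K), m ≠ 0 ∧ a = m ^ 2 * ((iO ^ j.val : 𝓞 K) : K) := by
  obtain ⟨x, y, hy, hxy⟩ := IsFractionRing.div_surjective (A := 𝓞 K) a
  have hy0 : y ≠ 0 := nonZeroDivisors.ne_zero hy
  have hyK : (y : K) ≠ 0 := coe_ne hy0
  have hx0 : x ≠ 0 := by
    rintro rfl
    rw [map_zero, zero_div] at hxy
    exact ha hxy.symm
  have hz : ((x * y : 𝓞 K) : K) = a * (y : K) ^ 2 := by
    rw [← hxy]
    push_cast
    field_simp
  obtain ⟨m, r, hmr, hr⟩ := exists_sq_sqfree (x * y) (mul_ne_zero hx0 hy0)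
  have hm0 : m ≠ 0 := by
    rintro rfl
    rw [zero_pow two_ne_zero, zero_mul] at hmr
    exact mul_ne_zero hx0 hy0 hmr
  have hmK : (m : K) ≠ 0 := coe_ne hm0
  have hu : IsUnit r := by
    by_contra hu
    have hr0 : r ≠ 0 := by
      rintro rfl
      rw [mul_zero] at hmr
      exact mul_ne_zero hx0 hy0 hmr
    obtain ⟨π, hπ, hd⟩ := WfDvdMonoid.exists_irreducible_factor hu hr0
    have hp : Prime π := hπ.prime
    obtain ⟨r', rfl⟩ := hd
    have hnd : ¬ π ∣ r' := by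
      rintro ⟨t, rfl⟩
      exact hπ.not_isUnit (hr π ⟨t, by ring⟩)
    have h1 := h (pv π hp)
    have h2 : (pv π hp).valuation K ((x * y : 𝓞 K) : K) =
        exp (-1) * ((pv π hp).valuation K (m : K)) ^ 2 := by
      rw [hmr]
      push_cast
      rw [map_mul, map_mul, map_pow, pv_self, pv_one hp hnd, mul_one, mul_comm]
    have hvy : (pv π hp).valuation K (y : K) ≠ 0 := (Valuation.ne_zero_iff _).2 hyK
    have hvm : (pv π hp).valuation K (m : K) ≠ 0 := (Valuation.ne_zero_iff _).2 hmK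
    rw [hz, map_mul, map_pow] at h2
    rw [← isSquare_mul_sq hvy, h2, isSquare_mul_sq hvm] at h1
    have h3 := exp_odd h1
    exact absurd h3 (by decide)
  obtain ⟨j, t, ht0, ht⟩ := unit_sq r hu
  have htK : (t : K) ≠ 0 := coe_ne ht0
  refine ⟨j, (m : K) * t / y, div_ne_zero (mul_ne_zero hmK htK) hyK, ?_⟩
  have h4 : a = ((x * y : 𝓞 K) : K) / (y : K) ^ 2 := by
    rw [hz]
    field_simp
  rw [h4, hmr, ht]
  push_cast
  field_simp

/-! ### the products `i ^ j lam ^ l ∏ q ^ V q` -/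

theorem not_dvd_lam4 (q : Pg) : ¬ q.1 ∣ lam := fun h =>
  q.in4.not_lam (q.prime.associated_of_dvd prime_lam h).symm.dvd

theorem not_dvd_of_unit {π x : 𝓞 K} (h : Prime π) (hx : IsUnit x) : ¬ π ∣ x :=
  fun hd => h.not_isUnit (isUnit_of_dvd_unit hd hx)

/-- The product `i ^ j lam ^ l ∏ q ^ V q`. -/
def gp4 (S : Finset Pg) (j l : ZMod 2) (V : Pg → ZMod 2) : 𝓞 K :=
  iO ^ j.val * lam ^ l.val * ∏ q ∈ S, q.1 ^ (V q).val

theorem gp4_ne (S : Finset Pg) (j l : ZMod 2) (V : Pg → ZMod 2) : gp4 S j l V ≠ 0 := by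
  unfold gp4
  refine mul_ne_zero (mul_ne_zero (pow_ne_zero _ isUnit_iO.ne_zero)
    (pow_ne_zero _ lam_ne_zero)) ?_
  exact prod_ne_zero_iff.2 fun q _ => pow_ne_zero _ q.ne_zero

theorem gp4_erase {S : Finset Pg} {q : Pg} (hq : q ∈ S) (j l : ZMod 2) (V : Pg → ZMod 2) :
    gp4 S j l V = q.1 ^ (V q).val * gp4 (S.erase q) j l V := by
  unfold gp4
  rw [← mul_prod_erase S _ hq]
  ring

theorem not_dvd_gp4 {S : Finset Pg} {π : 𝓞 K} (h : Prime π) (h3 : ¬ π ∣ lam)
    (hS : ∀ q ∈ S, ¬ π ∣ q.1) (j l : ZMod 2) (V : Pg → ZMod 2) : ¬ π ∣ gp4 S j l V := by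
  unfold gp4
  intro hd
  rcases h.dvd_or_dvd hd with h1 | h1
  · rcases h.dvd_or_dvd h1 with h2 | h2
    · exact not_dvd_of_unit h (isUnit_iO.pow _) h2
    · exact h3 (h.dvd_of_dvd_pow h2)
  · obtain ⟨q, hq, h2⟩ := h.exists_mem_finset_dvd h1
    exact hS q hq (h.dvd_of_dvd_pow h2)

theorem not_dvd_gp4_erase {S : Finset Pg} {q : Pg} (j l : ZMod 2) (V : Pg → ZMod 2) :
    ¬ q.1 ∣ gp4 (S.erase q) j l V :=
  not_dvd_gp4 q.prime (not_dvd_lam4 q) (fun p hp => Pg.not_dvd (ne_of_mem_erase hp).symm) _ _ _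

/-- the odd part -/
theorem gp4_in4 (S : Finset Pg) (V : Pg → ZMod 2) : In4 (∏ q ∈ S, q.1 ^ (V q).val) := by
  classical
  induction S using Finset.induction_on with
  | empty => exact in4_one
  | insert q S hq ih =>
    rw [prod_insert hq]
    refine In4.mul ?_ ih
    generalize (V q).val = n
    induction n with
    | zero => rw [pow_zero]; exact in4_one
    | succ n ihn => rw [pow_succ]; exact ihn.mul q.in4

theorem aa_gp4 (S : Finset Pg) (V : Pg → ZMod 2) :
    aa (∏ q ∈ S, q.1 ^ (V q).val) = ∑ q ∈ S, V q * aa q.1 := by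
  classical
  induction S using Finset.induction_on with
  | empty => exact aa_one
  | insert q S hq ih =>
    rw [prod_insert hq, sum_insert hq, ← ih, aa_mul _ (gp4_in4 S V)]
    · congr 1
      have h0 : ∀ e : ZMod 2, e = 0 ∨ e = 1 := by decide
      rcases h0 (V q) with h | h
      · rw [h, ZMod.val_zero, pow_zero, aa_one, zero_mul]
      · rw [h]
        show aa (q.1 ^ 1) = _
        rw [pow_one, one_mul]
    · have h := gp4_in4 {q} V
      rwa [prod_singleton] at h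

theorem not_dvd_gp4_lam {S : Finset Pg} (j : ZMod 2) (V : Pg → ZMod 2) : ¬ lam ∣ gp4 S j 0 V := by
  unfold gp4
  rw [ZMod.val_zero, pow_zero, mul_one]
  intro hd
  rcases prime_lam.dvd_or_dvd hd with h2 | h1
  · exact not_dvd_of_unit prime_lam (isUnit_iO.pow _) h2
  · exact (gp4_in4 S V).not_lam h1

theorem gp4_lam (S : Finset Pg) (j l : ZMod 2) (V : Pg → ZMod 2) :
    gp4 S j l V = lam ^ l.val * gp4 S j 0 V := by
  unfold gp4
  rw [ZMod.val_zero, pow_zero]
  ring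

theorem exists_par (x : ℤᵐ⁰) (hx : x ≠ 0) : ∃ e : ZMod 2, IsSquare (x * exp (-1) ^ e.val) := by
  obtain ⟨m, rfl⟩ : ∃ m : ℤ, x = exp m := ⟨log x, (exp_log hx).symm⟩
  rcases Int.even_or_odd m with ⟨t, ht⟩ | ⟨t, ht⟩
  · refine ⟨0, exp t, ?_⟩
    rw [ZMod.val_zero, pow_zero, mul_one, ← exp_add, ht]
  · refine ⟨1, exp t, ?_⟩
    have h1 : ((1 : ZMod 2)).val = 1 := rfl
    rw [h1, pow_one, ← exp_add, ← exp_add]
    congr 1
    omega

/-- An element of `K` whose valuations outside `lam` and `S` are even. -/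
theorem decomp4 (S : Finset Pg) (a : K) (ha : a ≠ 0)
    (h : ∀ (π : 𝓞 K) (hπ : Prime π), ¬ π ∣ lam → (∀ q ∈ S, ¬ π ∣ q.1) →
      IsSquare ((pv π hπ).valuation K a)) :
    ∃ (j l : ZMod 2) (V : Pg → ZMod 2) (m : K), m ≠ 0 ∧ a = m ^ 2 * (gp4 S j l V : K) := by
  classical
  -- the exponents
  obtain ⟨l, hl⟩ : ∃ l : ZMod 2, IsSquare ((pv lam prime_lam).valuation K a * exp (-1) ^ l.val) :=
    exists_par _ ((Valuation.ne_zero_iff _).2 ha)
  have hV : ∀ q : Pg, ∃ e : ZMod 2,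
      IsSquare ((pv q.1 q.prime).valuation K a * exp (-1) ^ e.val) :=
    fun q => exists_par _ ((Valuation.ne_zero_iff _).2 ha)
  choose V hV using hV
  have h1 : ∀ v : HeightOneSpectrum (𝓞 K),
      IsSquare (v.valuation K (a * (gp4 S 0 l V : K))) := by
    intro v
    obtain ⟨π, hπ, rfl⟩ := exists_pv v
    rw [map_mul]
    by_cases h3 : π ∣ lam
    · rw [pv_eq hπ prime_lam h3, gp4_lam]
      push_cast
      rw [map_mul, map_pow, pv_self, pv_one prime_lam (not_dvd_gp4_lam _ _), mul_one]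
      exact hl
    · by_cases hq : ∃ q ∈ S, π ∣ q.1
      · obtain ⟨q, hqS, hd⟩ := hq
        rw [pv_eq hπ q.prime hd, gp4_erase hqS]
        push_cast
        rw [map_mul, map_pow, pv_self, pv_one q.prime (not_dvd_gp4_erase _ _ _), mul_one]
        exact hV q
      · push Not at hq
        rw [pv_one hπ (not_dvd_gp4 hπ h3 hq _ _ _), mul_one]
        exact h π hπ h3 hq
  have hg : ((gp4 S 0 l V : 𝓞 K) : K) ≠ 0 := coe_ne (gp4_ne S 0 l V)
  obtain ⟨j, m, hm, hm'⟩ := sq_of_even _ (mul_ne_zero ha hg) h1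
  refine ⟨j, l, V, m / (gp4 S 0 l V : K), div_ne_zero hm hg, ?_⟩
  have e : ((gp4 S j l V : 𝓞 K) : K) = ((iO ^ j.val : 𝓞 K) : K) * ((gp4 S 0 l V : 𝓞 K) : K) := by
    have e1 : gp4 S j l V = iO ^ j.val * gp4 S 0 l V := by
      unfold gp4
      rw [ZMod.val_zero, pow_zero]
      ring
    rw [e1]
    push_cast
    rfl
  rw [e]
  field_simp
  linear_combination hm'

end

end Pool.Agent.Lib.MP_1a91b9_ntQ.C
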